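import Mathlib
import Pool.Agent.MP_2634a8_co.Mg.H32_Final

section
namespace Pool.Agent.MP_2634a8_co.X

open Finset

abbrev Mat (V : Type) := V → V → ℕ

section gen
variable {V : Type} [Fintype V] [DecidableEq V]

def wsum (M : Mat V) (f : V → V → ℕ) : ℕ := ∑ u, ∑ v, M u v * f u v
def SubAdd (f : V → V → ℕ) : Prop := ∀ a u b, f a b ≤ f a u + f u b

/-- the arcs of `P` contain arc-disjoint trails that realise the virtual arcs of `Q` -/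
structure Rt (P Q : Mat V) : Prop where
  pack : ∀ N t, Pack t (N + Q) → Pack t (N + P)
  bal : ∀ v, out P v + inn Q v = inn P v + out Q v
  out_le : ∀ v, out Q v ≤ out P v
  sub : ∀ f, SubAdd f → wsum Q f ≤ wsum P f

def res (M : Mat V) (U : Finset V) : Mat V := fun u v => if u ∈ U ∧ v ∈ U then M u v else 0
def eb (M : Mat V) (S T : Finset V) : ℕ := ∑ u ∈ S, ∑ v ∈ T, M u v
def back (M : Mat V) (ρ : V → ℕ) : ℕ := ∑ u, ∑ v, if ρ v ≤ ρ u then M u v else 0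
def Fas (M : Mat V) (x : ℝ) : Prop := ∃ ρ : V → ℕ, (back M ρ : ℝ) ≤ x
def Girth (M : Mat V) (g : ℝ) : Prop := ∀ C : Mat V, C ≤ M → C ≠ 0 → Bal C → g < size C
def imb (M : Mat V) : ℝ := ∑ v, |(out M v : ℝ) - inn M v|
/-- total deficit of the vertices of `U` -/
def dfc (k : ℕ) (M : Mat V) (U : Finset V) : ℕ := ∑ v ∈ U, (k - out M v)
/-- ordered non-adjacent out-cherries inside `U` -/
def nco (M : Mat V) (U : Finset V) : ℕ := ∑ u ∈ U, ∑ a ∈ U, ∑ b ∈ U,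
  if a ≠ b ∧ M u a ≠ 0 ∧ M u b ≠ 0 ∧ M a b = 0 ∧ M b a = 0 then 1 else 0
/-- ordered non-adjacent in-cherries inside `U` -/
def nci (M : Mat V) (U : Finset V) : ℕ := nco (fun u v => M v u) U

end gen

noncomputable def CC (k : ℕ) : ℝ := (k : ℝ) * (k + 1) / 2

section cyc
variable {n : ℕ} [NeZero n]

def lam (u v : ZMod n) : ℕ := (v - u).val
/-- the arc from `u` to `v` crosses the cut just after `t` -/
def crs (t u v : ZMod n) : ℕ := if lam u t < lam u v then 1 else 0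
def cross (M : Mat (ZMod n)) (t : ZMod n) : ℕ := wsum M (crs t)
def Lam (M : Mat (ZMod n)) : ℕ := wsum M lam
def win (a : ZMod n) (m : ℕ) : Finset (ZMod n) := univ.filter fun v => lam a v < m
def OptAt (M : Mat (ZMod n)) (a : ZMod n) (m : ℕ) : Prop :=
  ∀ ρ : ZMod n → ℕ, back (res M (win a m)) (lam a) ≤ back (res M (win a m)) ρ
def LocOpt (M : Mat (ZMod n)) : Prop := ∀ a m, m ≤ n → OptAt M a m
/-- missing out-arcs with length in `[p, q]` -/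
def mo (B : Mat (ZMod n)) (p q : ℕ) (v : ZMod n) : ℕ :=
  ((Icc p q).filter fun d : ℕ => B v (v + d) = 0).card
/-- missing in-arcs with length in `[p, q]` -/
def mi (B : Mat (ZMod n)) (p q : ℕ) (v : ZMod n) : ℕ :=
  ((Icc p q).filter fun d : ℕ => B (v - d) v = 0).card
def Ideal (k : ℕ) (B : Mat (ZMod n)) : Prop :=
  ∀ u v, B u v ≤ 1 ∧ (B u v ≠ 0 → 1 ≤ lam u v ∧ lam u v ≤ k)
def Off (M : Mat (ZMod n)) (Ω : Finset (ZMod n)) : Prop := ∀ u v, M u v ≠ 0 → u ∉ Ω ∧ v ∉ Ω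
/-- the pair does not cross the seam, if there is one -/
def nc (sm : Bool) (u v : ZMod n) : Prop := sm = true → u.val ≤ v.val
instance (sm : Bool) (u v : ZMod n) : Decidable (nc sm u v) := by unfold nc; infer_instance
def deep (sm : Bool) (k : ℕ) (v : ZMod n) : Prop := sm = true → k ≤ v.val ∧ v.val + k < n
instance (sm : Bool) (k : ℕ) (v : ZMod n) : Decidable (deep sm k v) := by
  unfold deep; infer_instance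
/-- within `2 k` of the seam -/
def zone (k : ℕ) (v : ZMod n) : Prop := v.val < 2 * k ∨ n ≤ v.val + 2 * k
instance (k : ℕ) (v : ZMod n) : Decidable (zone k v) := by unfold zone; infer_instance
/-- arcs crossing the cut after `t` whose tail is not among the last `k` vertices -/
def far (k : ℕ) (G : Mat (ZMod n)) (t : ZMod n) : ℕ :=
  wsum G fun u v => if k ≤ lam u t ∧ lam u t < lam u v then 1 else 0
/-- missing forward pairs inside the window of `k` vertices starting at `a` -/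
def mis (sm : Bool) (k : ℕ) (G : Mat (ZMod n)) (a : ZMod n) : ℕ :=
  ∑ u ∈ win a k, ∑ v ∈ win a k, if lam a u < lam a v ∧ nc sm u v ∧ G u v = 0 then 1 else 0
/-- weight of a vertex -/
def wt (sm : Bool) (k : ℕ) (G : Mat (ZMod n)) (v : ZMod n) : ℕ :=
  ∑ d ∈ (Icc 1 k : Finset ℕ), ((if nc sm v (v + (d : ZMod n)) ∧ G v (v + (d : ZMod n)) = 0 then k - d else 0) +
      (if nc sm (v - (d : ZMod n)) v ∧ G (v - (d : ZMod n)) v = 0 then k - d else 0)) +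
    ∑ x, (G v x * min (lam v x - k) k + G x v * min (lam x v - k) k)

/-- clean state -/
structure CS (sm : Bool) (k : ℕ) (θ σ : ℝ) (B J X : Mat (ZMod n)) (Ω : Finset (ZMod n)) :
    Prop where
  ideal : Ideal k B
  off : Off (B + J) Ω
  bal : Bal (B + J + X)
  deg : ∀ v, out (B + J + X) v ≤ k
  hop : ∀ v ∉ Ω, (mo B (2 * (k / 500)) (4 * (k / 500)) v : ℝ) ≤ θ * k ∧
    (mi B (2 * (k / 500)) (4 * (k / 500)) v : ℝ) ≤ θ * k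
  tame : ∀ v ∉ Ω, deep sm k v → (mo B 1 k v : ℝ) ≤ θ * k ∧ (mi B 1 k v : ℝ) ≤ θ * k
  holes : ∀ a, ((Ω ∩ win a k).card : ℝ) ≤ θ * k
  wmiss : ∀ a, (∀ v ∈ win a k, deep sm k v) →
    (∑ v ∈ win a k, (mo B 1 k v : ℝ)) ≤ σ * k ^ 2 ∧ (∑ v ∈ win a k, (mi B 1 k v : ℝ)) ≤ σ * k ^ 2
  junk : ∀ y x, J y x ≠ 0 → 8 * (k / 500) ≤ lam x y
  load : ∀ v, (out J v : ℝ) ≤ θ * k ∧ (inn J v : ℝ) ≤ θ * k
  xs : ∀ u v, X u v ≠ 0 → sm = true ∧ lam u v ≤ 2 * k ∧ zone k u ∧ zone k v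
  lam_le : (Lam (B + J + X) : ℝ) ≤ n * (CC k + σ * k ^ 2)

/-- input of the cleaning step -/
structure IN (sm : Bool) (k : ℕ) (κ s : ℝ) (G Lad V X : Mat (ZMod n)) (Ω0 : Finset (ZMod n)) :
    Prop where
  simple : Simple G
  bal : Bal (G + Lad + V + X)
  deg : ∀ v, out (G + Lad + V + X) v ≤ k
  nos : sm = false → Lad = 0 ∧ V = 0 ∧ X = 0 ∧ Ω0 = ∅
  gnc : ∀ u v, G u v ≠ 0 → lam u v ≤ k → nc sm u v
  h1 : ∀ a, (∑ v ∈ win a k \ Ω0, (wt sm k G v : ℝ)) ≤ s * k ^ 3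
  h2 : ∀ a, (mis sm k G a : ℝ) ≤ s * k ^ 2
  h3 : ∀ t, (far k G t : ℝ) ≤ s * k ^ 2
  h4 : ∀ a m, m ≤ k → (sm = true → a.val + m ≤ n) → ∀ ρ : ZMod n → ℕ,
    back (res G (win a m)) (lam a) ≤ back (res G (win a m)) ρ + m * (Ω0 ∩ win a m).card
  h5 : ∀ v j, j < n → ∑ y ∈ win (v + 1) j, G y v ≤
    ∑ x ∈ win (v + 1) j, G v x + (out (Lad + V + X) v + inn (Lad + V + X) v)
  h6 : (size V : ℝ) ≤ s * k ^ 2
  h6' : ∀ v, (wt sm k G v : ℝ) ≤ κ * k ^ 2 →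
    (out V v : ℝ) ≤ 4 * √κ * k ∧ (inn V v : ℝ) ≤ 4 * √κ * k
  h7 : κ * Ω0.card ≤ s * k
  off0 : Off (G + Lad + V) Ω0
  h8 : sm = true → ∀ v ∉ Ω0, zone k v → (wt sm k G v : ℝ) ≤ κ * k ^ 2
  lad1 : ∀ u v, Lad u v ≤ 1 ∧
    (Lad u v ≠ 0 → v.val < u.val ∧ 2 * (k / 500) ≤ lam u v ∧ lam u v ≤ 8 * (k / 500))
  lad2 : sm = true → ∀ u ∉ Ω0, ∀ v ∉ Ω0, v.val < u.val → 2 * (k / 500) ≤ lam u v →
    lam u v ≤ 8 * (k / 500) → Lad u v = 1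
  xs : ∀ u v, X u v ≠ 0 → lam u v ≤ 2 * k ∧ zone k u ∧ zone k v
  lam_le : (Lam (G + Lad + V + X) : ℝ) ≤ n * (CC k + s * k ^ 2)

end cyc

/-! ### base API -/

def FD_s : Prop := ∀ (V : Type) [Fintype V] [DecidableEq V] (P : Mat V) (U : Finset V),
  (∀ u ∈ U, out P u = inn P u) →
  ∃ Q : Mat V, Rt P Q ∧ (∀ a b, Q a b ≠ 0 → a ∉ U ∧ b ∉ U) ∧
    ∀ a ∉ U, out Q a = out P a ∧ inn Q a = inn P a

def PUSH_s : Prop := ∀ (V W : Type) [Fintype V] [DecidableEq V] [Fintype W] [DecidableEq W]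
  (φ : W → V) (D : Mat W) (M : Mat V),
  (∀ u v, ∑ a ∈ univ.filter (fun a => φ a = u), ∑ b ∈ univ.filter (fun b => φ b = v), D a b ≤
    M u v) → ∀ t, Pack t D → Pack t M

def OPT_s : Prop := ∀ (V : Type) [Fintype V] [DecidableEq V] (n : ℕ) [NeZero n] (M : Mat V)
  (x : ℝ), Fintype.card V = n → Simple M → Bal M → Fas M x →
  ∃ e : ZMod n ≃ V, LocOpt (fun u v => M (e u) (e v)) ∧
    (Lam (fun u v => M (e u) (e v)) : ℝ) ≤ n * x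

def GR_s : Prop := ∀ (V : Type) [Fintype V] [DecidableEq V] (M : Mat V) (D : ℕ), Simple M →
  Bal M → (∀ v, out M v ≤ D) → ∃ t : ℕ, Pack t M ∧
    ∑ v, (out M v : ℝ) * (out M v + 1) / 2 ≤
      t * (Fintype.card V + 22 * √(Fintype.card V * D))

/-! ### dense part -/

def D1_s : Prop := ∀ η : ℝ, 0 < η → ∃ n0 : ℕ, ∀ (V : Type) [Fintype V] [DecidableEq V]
  (D : Mat V) (k : ℕ), n0 ≤ Fintype.card V → 4 * k ≤ Fintype.card V → Simple D →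
  (∀ v, out D v ≤ k ∧ inn D v ≤ k) → ∃ t : ℕ, Pack t D ∧
    (∑ v, ((out D v : ℝ) * (out D v - 1) + (inn D v : ℝ) * (inn D v - 1)) +
      nco D univ + nci D univ) / (4 * Fintype.card V) - imb D -
      η * (Fintype.card V : ℝ) ^ 2 ≤ t

def DS_s : Prop := ∀ (ε : ℝ) (L : ℕ), 0 < ε → ∃ k0 : ℕ, ∀ k, k0 ≤ k →
  ∀ (V : Type) [Fintype V] [DecidableEq V] (M : Mat V), 2 * k + 1 ≤ Fintype.card V →
  Fintype.card V ≤ L * k → Simple M → Bal M → (∀ v, out M v = k) →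
  Fas M (CC k + ε * k ^ 2) ∨ Pack ((k + 1).choose 2) M

/-! ### routing -/

def GC_s : Prop := ∀ (n : ℕ) [NeZero n] (B Rq : Mat (ZMod n)) (Ω : Finset (ZMod n))
  (ok : ZMod n → ZMod n → Bool) (w : ℕ), 10 ≤ w → (∀ u v, B u v ≤ 1) →
  (∀ v ∉ Ω, 10 * ((Icc (2 * w) (4 * w)).filter fun d : ℕ =>
      ok v (v + d) = true ∧ (B v (v + d) = 0 ∨ v + d ∈ Ω)).card ≤ w ∧
    10 * ((Icc (2 * w) (4 * w)).filter fun d : ℕ =>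
      ok (v - d) v = true ∧ (B (v - d) v = 0 ∨ v - d ∈ Ω)).card ≤ w) →
  (∀ x y, Rq x y ≠ 0 → x ∉ Ω ∧ y ∉ Ω ∧ 8 * w ≤ lam x y ∧
    ∀ u v, lam x u + lam u v ≤ lam x y → ok u v = true) →
  (∀ v, 10 * out Rq v ≤ w ∧ 10 * inn Rq v ≤ w) → 200 * size Rq ≤ w ^ 2 →
  ∃ P : Mat (ZMod n), P ≤ B ∧ Rt P Rq ∧ Lam P = Lam Rq ∧ Off P Ω ∧
    (∀ u v, P u v ≠ 0 → 2 * w ≤ lam u v ∧ lam u v ≤ 4 * w ∧
      ∃ x y, Rq x y ≠ 0 ∧ lam x u + lam u v ≤ lam x y) ∧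
    ∀ v, 10 * out P v ≤ 10 * out Rq v + w + 10 ∧ 10 * inn P v ≤ 10 * inn Rq v + w + 10

def SAC_s : Prop := ∀ (n : ℕ) [NeZero n] (B D : Mat (ZMod n)) (Ω : Finset (ZMod n)) (w τ : ℕ),
  24 * w < n → (∀ u v, B u v ≤ 1) → Off B Ω → Off D Ω →
  (∀ v ∉ Ω, mo B (4 * w) (8 * w) v ≤ w ∧ mi B (4 * w) (8 * w) v ≤ w) →
  (∀ y x, D y x ≠ 0 → 1 ≤ lam x y ∧ lam x y < 8 * w) →
  (∀ v, out D v ≤ τ ∧ inn D v ≤ τ) → 2 * τ ≤ w → size D ≤ τ * w →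
  ∃ P Q : Mat (ZMod n), P ≤ B ∧ Rt (P + D) Q ∧ Lam Q + n * size D = Lam P + Lam D ∧
    size P = 2 * size D ∧ Off Q Ω ∧ (∀ a b, Q a b ≠ 0 → 1 ≤ lam a b ∧ lam a b ≤ 16 * w) ∧
    (∀ u v, P u v ≠ 0 → 4 * w ≤ lam u v ∧ lam u v ≤ 8 * w) ∧
    ∀ v, out P v ≤ 2 * τ ∧ inn P v ≤ 2 * τ ∧ out Q v ≤ τ ∧ inn Q v ≤ τ

def RL_s : Prop := ∃ M0 k0 : ℕ, ∀ k, k0 ≤ k → ∀ (n : ℕ) [NeZero n] (B X : Mat (ZMod n))
  (Ω : Finset (ZMod n)) (ρ : ZMod n), (M0 + 1) * k ≤ n → Ideal k B → Off B Ω → Bal (B + X) →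
  (∀ u v, X u v ≠ 0 → u ∉ win ρ (M0 * k) ∧ v ∉ win ρ (M0 * k)) →
  (∀ v ∈ win ρ (M0 * k), v ∉ Ω → 100 * mo B 1 k v ≤ k ∧ 100 * mi B 1 k v ≤ k) →
  (∀ a, 100 * (Ω ∩ win a k).card ≤ k) → Pack (cross B ρ) (B + X)

def LL_s : Prop := ∃ M0 k0 : ℕ, ∀ k, k0 ≤ k → ∀ (n : ℕ) [NeZero n] (B J X : Mat (ZMod n))
  (Ω : Finset (ZMod n)) (ρ : ZMod n), (M0 + 1) * k ≤ n → Ideal k B → Off (B + J) Ω →
  Bal (B + J + X) →
  (∀ u v, X u v ≠ 0 → u ∉ win ρ (M0 * k) ∧ v ∉ win ρ (M0 * k)) →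
  (∀ v ∈ win ρ (M0 * k), v ∉ Ω → 200 * mo B 1 k v ≤ k ∧ 200 * mi B 1 k v ≤ k) →
  (∀ a, 100 * (Ω ∩ win a k).card ≤ k) →
  (∀ v ∉ Ω, 10 * mo B (2 * (k / 500)) (4 * (k / 500)) v ≤ k / 500 ∧
    10 * mi B (2 * (k / 500)) (4 * (k / 500)) v ≤ k / 500) →
  (∀ y x, J y x ≠ 0 → 8 * (k / 500) ≤ lam x y) →
  (∀ v, 10 * out J v ≤ k / 500 ∧ 10 * inn J v ≤ k / 500) → 200 * size J ≤ (k / 500) ^ 2 →
  Pack (cross (B + J) ρ) (B + J + X)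

def DES_s : Prop := ∀ M : ℕ, ∃ c k0 : ℕ, ∀ k n : ℕ, k0 ≤ k → 2 * k + 1 ≤ n → n ≤ M * k →
  ∃ (k' : ℕ) (Gs : Finset (Finset ℕ)), M * k' ≤ n ∧ n ≤ 5 * M * k' ∧ k' ≤ k ∧
    (∀ g ∈ Gs, g ⊆ Ioc k' k ∧ ∑ d ∈ g, d = n) ∧ (∀ g ∈ Gs, ∀ g' ∈ Gs, g ≠ g' → Disjoint g g') ∧
    (Ioc k' k \ Gs.biUnion id).card ≤ c

def FIN_s : Prop := ∃ θ σ : ℝ, 0 < θ ∧ 0 < σ ∧ ∃ M1 k0 : ℕ, ∀ k, k0 ≤ k →
  ∀ (n : ℕ) [NeZero n] (sm : Bool) (B J X : Mat (ZMod n)) (Ω : Finset (ZMod n)),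
  2 * k + 1 ≤ n → (sm = true → M1 * k ≤ n) → CS sm k θ σ B J X Ω →
  ∀ t, t * n ≤ Lam (B + J + X) → Pack t (B + J + X)

/-! ### near-round digraphs -/

def CSS_s : Prop := ∀ (V : Type) [Fintype V] [DecidableEq V] (M : Mat V) (U : Finset V),
  Simple M → (∀ a ∈ U, ∀ b ∈ U, M a b = 0 ∨ M b a = 0) →
  (∀ a ∈ U, ∀ b ∈ U, ∀ c ∈ U, M a b = 0 ∨ M b c = 0 ∨ M c a = 0) →
  ∃ ρ : V → ℕ, 2 * back (res M U) ρ ≤
    ∑ a ∈ U, ∑ b ∈ U, if a ≠ b ∧ M a b = 0 ∧ M b a = 0 then 1 else 0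

def CLEAN_s : Prop := ∀ θ σ : ℝ, 0 < θ → 0 < σ → ∃ κ1 : ℝ, 0 < κ1 ∧ ∀ κ : ℝ, 0 < κ → κ ≤ κ1 →
  ∃ s : ℝ, 0 < s ∧ ∃ k0 : ℕ, ∀ k, k0 ≤ k → ∀ (n : ℕ) [NeZero n] (sm : Bool) (G Lad V X : Mat (ZMod n))
  (Ω0 : Finset (ZMod n)), 2 * k + 1 ≤ n → (sm = true → 10 * k ≤ n) →
  IN sm k κ s G Lad V X Ω0 →
  ∃ (B J X' : Mat (ZMod n)) (Ω : Finset (ZMod n)) (r : ℕ), CS sm k θ σ B J X' Ω ∧
    (∀ t, Pack t (B + J + X') → Pack (t + r) (G + Lad + V + X)) ∧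
    n * CC k - k * dfc k G (univ.filter (deep sm k)) - (if sm = true then 5 * (k : ℝ) ^ 3 else 0) ≤
      Lam (B + J + X') + n * r

def PREP_s : Prop := ∀ (κ ε : ℝ) (k n : ℕ) [NeZero n] (M : Mat (ZMod n)), 0 ≤ ε → 1 ≤ k →
  2 * k + 1 ≤ n → Simple M → Bal M → (∀ v, out M v ≤ k) → LocOpt M →
  (Lam M : ℝ) ≤ n * (CC k + ε * k ^ 2) → (∀ a, (dfc k M (win a k) : ℝ) ≤ ε * k ^ 2) →
  IN false k κ (40 * ε) M 0 0 0 ∅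

def SEAM_s : Prop := ∃ κ0 : ℝ, 0 < κ0 ∧ ∀ κ s : ℝ, 0 < κ → κ ≤ κ0 → 0 < s →
  ∃ ε : ℝ, 0 < ε ∧ ∃ k0 : ℕ, ∀ k, k0 ≤ k → ∀ (n : ℕ) [NeZero n] (M : Mat (ZMod n))
  (p : ZMod n) (n1 : ℕ) [NeZero n1], 10 * k ≤ n1 → n1 + 14 * k ≤ n → Simple M → Bal M →
  (∀ v, out M v ≤ k) → LocOpt M → (Lam M : ℝ) ≤ n * (CC k + ε * k ^ 2) →
  (∀ a, lam p a + k ≤ n1 + 14 * k → (dfc k M (win a k) : ℝ) ≤ ε * k ^ 2) →
  ∃ (G Lad V X : Mat (ZMod n1)) (Ω0 : Finset (ZMod n1)), IN true k κ s G Lad V X Ω0 ∧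
    (∀ t, Pack t (G + Lad + V + X) → Pack t M) ∧
    (dfc k G (univ.filter (deep true k)) : ℝ) ≤ dfc k M (win p (n1 + 14 * k)) + k ^ 2

def NR_s : Prop := ∃ ε ζ η : ℝ, 0 < ε ∧ 0 < ζ ∧ ζ ≤ 1 / 2 ∧ 0 < η ∧ ∃ k0 : ℕ, ∀ k, k0 ≤ k →
  ∀ (V : Type) [Fintype V] [DecidableEq V] (M : Mat V), 2 * k + 1 ≤ Fintype.card V →
  Simple M → Bal M → (∀ v, out M v ≤ k) → Fas M (CC k + ε * k ^ 2) →
  (dfc k M univ : ℝ) ≤ η * k * Fintype.card V →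
  ∀ t : ℕ, (t : ℝ) ≤ CC k - dfc k M univ * k / (ζ * Fintype.card V) → Pack t M

/-! ### sparse stability -/

def FKS_s : Prop := ∀ (V : Type) [Fintype V] [DecidableEq V] (M : Mat V) (g : ℝ) (U : Finset V),
  0 < g → Simple M → Girth M g → Fas (res M U) (200 * (U.card : ℝ) ^ 2 / g ^ 2)

def POT_s : Prop := ∀ (V : Type) [Fintype V] [DecidableEq V] (D : Mat V),
  ∃ (F : Mat V) (p : V → ℕ), F ≤ D ∧ Bal F ∧ wsum D (fun u v => 1 + p u - p v) ≤ size F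

def CIRC_s : Prop := ∀ ε ζ : ℝ, 0 < ε → 0 < ζ → ∃ β : ℝ, 0 < β ∧ ∃ L : ℕ, ∀ k, 1 ≤ k →
  ∀ (V : Type) [Fintype V] [DecidableEq V] (D : Mat V), L * k ≤ Fintype.card V → Simple D →
  Girth D (ζ * Fintype.card V / k) → (dfc k D univ : ℝ) ≤ β * k * Fintype.card V →
  imb D ≤ 4 * k ^ 2 →
  Fas D (ε * k ^ 2) ∨ ∃ F : Mat V, F ≤ D ∧ Bal F ∧ β * k * Fintype.card V ≤ size F

def CL_s : Prop := ∀ (V : Type) [Fintype V] [DecidableEq V] (M : Mat V) (k μ : ℕ)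
  (I T Hd : Finset V), 1 ≤ μ → Simple M → Bal M → (∀ v, out M v ≤ k) → T ⊆ I → Hd ⊆ I →
  Disjoint T Hd → ∃ (N : ℕ) (D : Mat (Fin N)),
    N = (I \ T).card + μ * T.card ∧ Simple D ∧ (∀ t, Pack t D → Pack t M) ∧
    (∀ a, out D a ≤ k ∧ inn D a ≤ k) ∧ ∑ v ∈ I, out M v ≤ size D + eb M I Iᶜ ∧
    imb D ≤ 2 * (2 * eb M (I \ T) Iᶜ + eb M Iᶜ (I \ Hd) + Hd.card * ((k : ℝ) / μ + 2)) ∧
    (nco M (I \ T) + nci M (I \ T) : ℝ) ≤ nco D univ + nci D univ + 4 * k * eb M I Iᶜ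

def LR_s : Prop := ∀ (β : ℝ) (m : ℕ), 0 < β → 2 ≤ m → ∃ c g : ℝ, 0 < c ∧ ∃ k0 : ℕ,
  ∀ k, k0 ≤ k → ∀ (V : Type) [Fintype V] [DecidableEq V] (H : Mat V) (U : Finset V),
  Simple H → Bal H → (∀ v, out H v ≤ k) → Girth H g → U.Nonempty →
  (nco H U + nci H U : ℝ) ≤ c * k ^ 2 * U.card → (dfc k H U : ℝ) ≤ c * k * U.card →
  (eb H U Uᶜ : ℝ) ≤ c * k * U.card →
  ∃ I T Hd : Finset V, T ⊆ I ∧ Hd ⊆ I ∧ Disjoint T Hd ∧ T.card ≤ k ∧ Hd.card ≤ k ∧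
    (1 - β) * m * k ≤ I.card ∧ I.card ≤ m * k ∧ (eb H (I \ T) Iᶜ : ℝ) ≤ β * k ^ 2 ∧
    (eb H Iᶜ (I \ Hd) : ℝ) ≤ β * k ^ 2 ∧ (eb H I Iᶜ : ℝ) ≤ CC k + β * k ^ 2 ∧
    (dfc k H I : ℝ) ≤ β * k ^ 2

def S2_s : Prop := ∀ ε ζ : ℝ, 0 < ε → 0 < ζ → ∃ η : ℝ, 0 < η ∧ ∃ L k0 : ℕ, ∀ k, k0 ≤ k →
  ∀ (V : Type) [Fintype V] [DecidableEq V] (H : Mat V), L * k ≤ Fintype.card V → Simple H →
  Bal H → (∀ v, out H v ≤ k) → Girth H (ζ * Fintype.card V / k) →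
  (dfc k H univ : ℝ) ≤ η * k * Fintype.card V →
  Fas H (CC k + ε * k ^ 2) ∨ Pack ((k + 1).choose 2) H

/-! ### the theorem for matrices -/

def BIG_s : Prop := ∃ k0 : ℕ, ∀ k, k0 ≤ k → ∀ (V : Type) [Fintype V] [DecidableEq V]
  (M : Mat V), 2 * k + 1 ≤ Fintype.card V → Simple M → Bal M → (∀ v, out M v = k) →
  Pack ((k + 1).choose 2) M

def ALL_s : Prop := ∃ k0 : ℕ, ∀ k, k0 ≤ k → ∀ (V : Type) [Fintype V] [DecidableEq V]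
  [Nonempty V] (M : Mat V), Simple M → Bal M → (∀ v, out M v = k) →
  Pack ((k + 1).choose 2) M

end Pool.Agent.MP_2634a8_co.X
end
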