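import Mathlib
import Pool.Agent.MP_2634a8_co.Mg.Cyc
import Pool.Agent.MP_2634a8_co.Y.Stm

section
set_option autoImplicit false

namespace Pool.Agent.MP_2634a8_co

open Finset

variable {V : Type} [Fintype V] [DecidableEq V]

/-- an arc, or nothing if the two ends agree -/
def E' (a b : V) : V → V → ℕ := if a = b then 0 else E a b

/-- `M` immerses `N` -/
def Imm (M N : V → V → ℕ) : Prop := ∀ K t, Pack t (N + K) → Pack t (M + K)

omit [Fintype V] in
lemma E'_self (a : V) : E' a a = 0 := if_pos rfl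

omit [Fintype V] in
lemma E'_ne {a b : V} (h : a ≠ b) : E' a b = E a b := if_neg h

omit [Fintype V] in
lemma E'_le (a b : V) : E' a b ≤ E a b := by
  unfold E'
  split_ifs
  · exact zero_le
  · exact le_rfl

omit [DecidableEq V] in
lemma Imm.refl (M : V → V → ℕ) : Imm M M := fun _ _ h => h

omit [DecidableEq V] in
lemma Imm.trans {M N P : V → V → ℕ} (h : Imm M N) (h' : Imm N P) : Imm M P :=
  fun K t hp => h K t (h' K t hp)

omit [DecidableEq V] in
lemma Imm.of_le {M N : V → V → ℕ} (h : N ≤ M) : Imm M N := fun K t hp => by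
  obtain ⟨W, rfl⟩ := exists_add (W := N) (M := M) h
  rw [add_comm W, add_right_comm]
  exact pack_mono _ _ _ hp

omit [DecidableEq V] in
lemma Imm.add {M N M' N' : V → V → ℕ} (h : Imm M N) (h' : Imm M' N') : Imm (M + M') (N + N') :=
  fun K t hp => by
    rw [add_assoc] at hp ⊢
    have h1 := h _ _ hp
    rw [add_left_comm] at h1 ⊢
    exact h' _ _ h1

omit [DecidableEq V] in
lemma Imm.sum {ι : Type} (s : Finset ι) {M N : ι → V → V → ℕ} (h : ∀ i ∈ s, Imm (M i) (N i)) :
    Imm (∑ i ∈ s, M i) (∑ i ∈ s, N i) := by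
  classical
  induction s using Finset.induction_on with
  | empty => exact Imm.refl _
  | insert a s ha ih =>
    rw [sum_insert ha, sum_insert ha]
    exact (h a (mem_insert_self _ _)).add (ih fun i hi => h i (mem_insert_of_mem hi))

omit [DecidableEq V] in
lemma Imm.pack {M N : V → V → ℕ} (h : Imm M N) {t : ℕ} (hp : Pack t N) : Pack t M := by
  simpa using h 0 t (by simpa using hp)

lemma imm_EE (a v b : V) : Imm (E a v + E v b) (E a b) := fun K t hp => by
  rw [add_comm] at hp ⊢
  exact pack_split a v b t K hp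

lemma imm_EE' (a v b : V) : Imm (E a v + E' v b) (E a b) := by
  by_cases h : v = b
  · subst h
    rw [E'_self, add_zero]
    exact Imm.refl _
  · rw [E'_ne h]
    exact imm_EE a v b

lemma imm_E'E (a v b : V) : Imm (E' a v + E v b) (E a b) := by
  by_cases h : a = v
  · subst h
    rw [E'_self, zero_add]
    exact Imm.refl _
  · rw [E'_ne h]
    exact imm_EE a v b

lemma imm_E'E' (a v b : V) : Imm (E' a v + E' v b) (E' a b) := by
  by_cases h : a = v
  · subst h
    rw [E'_self, zero_add]
    exact Imm.refl _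
  · rw [E'_ne h]
    exact (imm_EE' a v b).trans (Imm.of_le (E'_le a b))

omit [DecidableEq V] in
lemma pack_add : ∀ (s t : ℕ) (M N : V → V → ℕ), Pack s M → Pack t N → Pack (t + s) (M + N)
  | 0, _, M, N, _, h => by rw [add_comm M]; exact pack_mono _ _ _ h
  | s + 1, t, _, N, ⟨C, N', h1, h2, h3, h4⟩, h =>
    ⟨C, N' + N, by rw [h1, add_assoc], h2, h3, pack_add s t N' N h4 h⟩

lemma pack_loops {ι : Type} (s : Finset ι) (a : ι → V) : Pack #s (∑ i ∈ s, E (a i) (a i)) := by
  classical
  induction s using Finset.induction_on with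
  | empty => trivial
  | insert i s hi ih =>
    rw [sum_insert hi, card_insert_of_notMem hi, add_comm (E _ _)]
    exact pack_loop _ _ _ ih

omit [DecidableEq V] in
lemma out_sum {ι : Type} (s : Finset ι) (M : ι → V → V → ℕ) (v : V) :
    out (∑ i ∈ s, M i) v = ∑ i ∈ s, out (M i) v := by
  simp only [out, Finset.sum_apply]
  exact sum_comm

omit [DecidableEq V] in
lemma inn_sum {ι : Type} (s : Finset ι) (M : ι → V → V → ℕ) (v : V) :
    inn (∑ i ∈ s, M i) v = ∑ i ∈ s, inn (M i) v := by
  simp only [inn, Finset.sum_apply]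
  exact sum_comm

variable {T : Type} [Fintype T] [DecidableEq T]

/-- the number of tokens at a vertex -/
def cnt (p : T → V) (v : V) : ℕ := #{i | p i = v}

/-- `N` is a flow from the tokens `p` to the sinks `q` -/
def Flow (N : V → V → ℕ) (p q : T → V) : Prop := ∀ v, out N v + cnt q v = inn N v + cnt p v

omit [Fintype V] [DecidableEq T] in
lemma cnt_eq (p : T → V) (v : V) : cnt p v = ∑ i, if v = p i then 1 else 0 := by
  simp only [cnt, card_filter, eq_comm]

omit [DecidableEq T] in
lemma flow_iff {N : V → V → ℕ} {p q : T → V} : Flow N p q ↔ Bal (N + ∑ i, E (q i) (p i)) := by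
  simp only [Flow, Bal, out_add, inn_add, out_sum, inn_sum, out_E, inn_E, cnt_eq]

omit [Fintype V] in
lemma cnt_update (p : T → V) (i : T) (w v : V) :
    cnt (Function.update p i w) v + (if v = p i then 1 else 0) =
      cnt p v + if v = w then 1 else 0 := by
  rw [cnt_eq, cnt_eq, ← add_sum_erase _ _ (mem_univ i), ← add_sum_erase _ _ (mem_univ i),
    Function.update_self, sum_congr rfl fun j hj => by
      rw [Function.update_of_ne (ne_of_mem_erase hj)]]
  omega

lemma Flow.step {N : V → V → ℕ} {p q : T → V} {i : T} {w : V} (h : Flow (N + E (p i) w) p q) :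
    Flow N (Function.update p i w) q := fun v => by
  have h1 := h v
  have h2 := cnt_update p i w v
  rw [out_add, inn_add, out_E, inn_E] at h1
  omega

omit [Fintype V] [DecidableEq V] in
lemma sum_update_left (F : V → V → V → V → ℕ) (p r : T → V) (i : T) (w : V) :
    ∑ j, F (Function.update p i w j) (r j) = F w (r i) + ∑ j ∈ univ.erase i, F (p j) (r j) := by
  rw [← add_sum_erase _ _ (mem_univ i), Function.update_self, sum_congr rfl fun j hj => by
      rw [Function.update_of_ne (ne_of_mem_erase hj)]]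

/-- decomposition of a flow into paths -/
theorem link (q : T → V) : ∀ (n : ℕ) (N : V → V → ℕ) (p : T → V), size N = n → Flow N p q →
    ∃ b : Equiv.Perm T, Imm N (∑ i, E' (p i) (q (b i))) := by
  intro n
  induction n using Nat.strong_induction_on with
  | _ n ih =>
  intro N p hn hf
  by_cases h : ∀ v, cnt p v ≤ cnt q v
  · have hs : ∀ r : T → V, ∑ v, cnt r v = Fintype.card T := fun r =>
      (card_eq_sum_card_fiberwise (s := univ) (t := univ) (f := r) fun _ _ => mem_univ _).symm
    have he := (sum_eq_sum_iff_of_le fun v (_ : v ∈ univ) => h v).1 ((hs p).trans (hs q).symm)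
    have hb : ∀ v, {i // p i = v} ≃ {i // q i = v} := fun v => Fintype.equivOfCardEq (by
      rw [Fintype.card_subtype, Fintype.card_subtype]; exact he v (mem_univ v))
    refine ⟨Equiv.ofFiberEquiv hb, Imm.of_le (le_of_eq_of_le (sum_eq_zero fun i _ => ?_) zero_le)⟩
    rw [Equiv.ofFiberEquiv_map hb i, E'_self]
  · push Not at h
    obtain ⟨v, hv⟩ := h
    obtain ⟨i, hi⟩ : ∃ i, p i = v := by
      obtain ⟨i, hi⟩ := card_pos.1 (Nat.zero_lt_of_lt hv)
      exact ⟨i, (mem_filter.1 hi).2⟩
    subst hi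
    obtain ⟨w, hw⟩ := exists_out (M := N) (v := p i) (by have := hf (p i); omega)
    obtain ⟨N', rfl⟩ := exists_add_E hw
    obtain ⟨b, hb⟩ := ih (size N') (by rw [← hn, size_add, size_E]; omega) N' _ rfl hf.step
    refine ⟨b, (hb.add (Imm.refl _)).trans ?_⟩
    rw [sum_update_left E' p (fun j => q (b j)), ← add_sum_erase _ _ (mem_univ i), add_right_comm,
      add_comm (E' _ _)]
    exact ((imm_EE' _ _ _).trans (Imm.of_le (E'_le _ _))).add (Imm.refl _)

/-- all tokens advance until they leave the set `S`, which contains no sink -/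
theorem adv (S : V → Prop) (q : T → V) (hq : ∀ i, ¬ S (q i)) :
    ∀ (n : ℕ) (N : V → V → ℕ) (p : T → V), size N = n → Flow N p q →
    ∃ (N' U : V → V → ℕ) (u w : T → V), N = N' + (U + ∑ i, E' (u i) (w i)) ∧ Flow N' w q ∧
      Imm U (∑ i, E' (p i) (u i)) ∧ (∀ a b, U a b ≠ 0 → S a) ∧ (∀ i, ¬ S (w i)) ∧
      (∀ i, S (p i) → S (u i)) ∧ ∀ i, ¬ S (p i) → u i = p i ∧ w i = p i := by
  intro n
  induction n using Nat.strong_induction_on with
  | _ n ih =>
  intro N p hn hf
  by_cases h : ∀ i, ¬ S (p i)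
  · exact ⟨N, 0, p, p, by simp only [E'_self, sum_const_zero, add_zero], hf, by simpa only [E'_self, sum_const_zero] using Imm.refl _, by simp, h,
      fun _ h => h, fun _ _ => ⟨rfl, rfl⟩⟩
  push Not at h
  obtain ⟨i, hi⟩ := h
  have h0 : cnt q (p i) = 0 := card_eq_zero.2 (filter_eq_empty_iff.2 fun j _ e => hq j (e ▸ hi))
  have h1 : 0 < cnt p (p i) := card_pos.2 ⟨i, by simp only [mem_filter, mem_univ, and_self]⟩
  obtain ⟨z, hz⟩ := exists_out (M := N) (v := p i) (by have := hf (p i); omega)
  obtain ⟨N0, rfl⟩ := exists_add_E hz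
  obtain ⟨N', U, u, w, e1, e2, e3, e4, e5, e6, e7⟩ :=
    ih (size N0) (by rw [← hn, size_add, size_E]; omega) N0 _ rfl hf.step
  have hne : ∀ j, j ≠ i → Function.update p i z j = p j := fun j hj => Function.update_of_ne hj _ _
  by_cases hS : S z
  · refine ⟨N', U + E (p i) z, u, w, by rw [e1]; abel, e2, (e3.add (Imm.refl _)).trans ?_,
      fun a b hab => ?_, e5, fun j hj => e6 j ?_, fun j hj => ?_⟩
    · rw [sum_update_left E' p u, ← add_sum_erase _ _ (mem_univ i), add_right_comm,
        add_comm (E' _ _)]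
      exact ((imm_EE' _ _ _).trans (Imm.of_le (E'_le _ _))).add (Imm.refl _)
    · by_cases hU : U a b = 0
      · have : a = p i := by
          by_contra hc
          simp [hU, E, hc] at hab
        exact this ▸ hi
      · exact e4 a b hU
    · by_cases hji : j = i
      · rw [hji, Function.update_self]; exact hS
      · rw [hne j hji]; exact hj
    · have hji : j ≠ i := fun e => hj (e ▸ hi)
      simpa only [hne j hji] using e7 j (by rw [hne j hji]; exact hj)
  · obtain ⟨hu, hw⟩ := e7 i (by rw [Function.update_self]; exact hS)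
    rw [Function.update_self] at hu hw
    have hpz : p i ≠ z := fun e => hS (e ▸ hi)
    refine ⟨N', U, Function.update u i (p i), w, ?_, e2, e3.trans (Imm.of_le (le_of_eq ?_)), e4, e5,
      fun j hj => ?_, fun j hj => ?_⟩
    · rw [e1, sum_update_left E' u w, ← add_sum_erase _ _ (mem_univ i), hu, hw, E'_self, E'_ne hpz]
      abel
    · rw [sum_update_left E' p u, ← add_sum_erase _ _ (mem_univ i), Function.update_self, hu,
        E'_self, E'_self]
      exact congrArg _ (sum_congr rfl fun j hj => by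
        rw [Function.update_of_ne (ne_of_mem_erase hj)])
    · by_cases hji : j = i
      · rw [hji, Function.update_self]; exact hi
      · rw [Function.update_of_ne hji]
        exact e6 j (by rw [hne j hji]; exact hj)
    · have hji : j ≠ i := fun e => hj (e ▸ hi)
      rw [Function.update_of_ne hji]
      simpa only [hne j hji] using e7 j (by rw [hne j hji]; exact hj)

omit [DecidableEq T] in
/-- one step of a network: permute the tokens at their stations, then move -/
lemma net_step (a x y : T → V) (τ r : Equiv.Perm T) (hr : ∀ i, x (r i) = x i) :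
    Imm (∑ i, E (a i) (x (τ i)) + ∑ i, E' (x i) (y i)) (∑ i, E (a i) (y ((r * τ) i))) := by
  rw [← Equiv.sum_comp (r * τ) fun i => E' (x i) (y i), ← sum_add_distrib]
  refine Imm.sum _ fun i _ => ?_
  rw [Equiv.Perm.mul_apply, hr]
  exact imm_EE' _ _ _

omit [DecidableEq T] in
/-- a whole network: stations `x j`, permutations `r j` allowed at time `j` -/
theorem net (a : T → V) (x : ℕ → T → V) (r : ℕ → Equiv.Perm T) (τ : ℕ → Equiv.Perm T)
    (hτ : ∀ j, τ (j + 1) = r j * τ j) : ∀ n, (∀ j < n, ∀ i, x j (r j i) = x j i) →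
    Imm (∑ i, E (a i) (x 0 (τ 0 i)) + ∑ j ∈ range n, ∑ i, E' (x j i) (x (j + 1) i))
      (∑ i, E (a i) (x n (τ n i)))
  | 0, _ => by simpa only [range_zero, sum_empty, add_zero] using Imm.refl _
  | n + 1, h => by
    rw [sum_range_succ, ← add_assoc, hτ]
    exact ((net a x r τ hτ n fun j hj => h j (by omega)).add (Imm.refl _)).trans
      (net_step a _ _ _ _ (h n (by omega)))

omit [DecidableEq V] in
lemma eq_zero_of_size {M : V → V → ℕ} (h : size M = 0) : M = 0 := by
  funext a b
  have h1 := sum_eq_zero_iff.1 h a (mem_univ _)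
  exact sum_eq_zero_iff.1 h1 b (mem_univ _)

/-- the arcs of a matrix as an indexed family -/
lemma enum : ∀ (n : ℕ) (M : V → V → ℕ), size M = n →
    ∃ u w : Fin n → V, M = ∑ i, E (u i) (w i)
  | 0, M, h => ⟨Fin.elim0, Fin.elim0, by simpa using eq_zero_of_size h⟩
  | n + 1, M, h => by
    obtain ⟨a, -, ha⟩ := exists_ne_zero_of_sum_ne_zero (s := univ) (f := out M)
      (by unfold size at h; omega)
    obtain ⟨b, hb⟩ := exists_out ha
    obtain ⟨N, rfl⟩ := exists_add_E hb
    obtain ⟨u, w, e⟩ := enum n N (by rw [size_add, size_E] at h; omega)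
    exact ⟨Fin.cons a u, Fin.cons b w, by rw [Fin.sum_univ_succ, e, add_comm]; simp only [Fin.cons_zero, Fin.cons_succ]⟩

omit [Fintype V] in
lemma E_ne_zero {a b x y : V} : E a b x y ≠ 0 ↔ x = a ∧ y = b := by
  simp [E]

omit [Fintype V] in
lemma sum_E_apply {ι : Type} (s : Finset ι) (u w : ι → V) (a b : V) :
    (∑ i ∈ s, E (u i) (w i)) a b = #{i ∈ s | a = u i ∧ b = w i} := by
  simp only [Finset.sum_apply, E, card_filter]

omit [Fintype V] in
lemma sum_E_ne_zero {ι : Type} {s : Finset ι} {u w : ι → V} {a b : V} :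
    (∑ i ∈ s, E (u i) (w i)) a b ≠ 0 ↔ ∃ i ∈ s, a = u i ∧ b = w i := by
  rw [sum_E_apply, card_ne_zero, filter_nonempty_iff]

/-- the part of a matrix on the pairs satisfying a predicate -/
def part (M : V → V → ℕ) (P : V → V → Prop) [DecidableRel P] : V → V → ℕ :=
  fun a b => if P a b then M a b else 0

omit [Fintype V] [DecidableEq V] in
lemma part_ne_zero {M : V → V → ℕ} {P : V → V → Prop} [DecidableRel P] {a b : V} :
    part M P a b ≠ 0 ↔ P a b ∧ M a b ≠ 0 := by
  simp [part]

omit [DecidableEq V] in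
lemma size_eq_inn (M : V → V → ℕ) : size M = ∑ v, inn M v := sum_comm

omit [DecidableEq V] in
/-- a balanced matrix has as many arcs into a set as out of it -/
lemma Bal.cut {M : V → V → ℕ} (h : Bal M) (S : V → Prop) [DecidablePred S] :
    size (part M fun a b => ¬ S a ∧ S b) = size (part M fun a b => S a ∧ ¬ S b) := by
  have h1 : ∀ v, inn (part M fun a b => ¬ S a ∧ S b) v + inn (part M fun a b => S a ∧ S b) v =
      if S v then inn M v else 0 := fun v => by
    by_cases hv : S v
    · simp only [inn, part, hv, ← sum_add_distrib, if_true]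
      exact sum_congr rfl fun w _ => by by_cases hw : S w <;> simp [hw]
    · simp only [inn, part, hv, and_false, ↓ reduceIte, sum_const_zero, add_zero]
  have h2 : ∀ v, out (part M fun a b => S a ∧ ¬ S b) v + out (part M fun a b => S a ∧ S b) v =
      if S v then out M v else 0 := fun v => by
    by_cases hv : S v
    · simp only [out, part, hv, ← sum_add_distrib, if_true]
      exact sum_congr rfl fun w _ => by by_cases hw : S w <;> simp [hw]
    · simp only [out, part, hv, false_and, ↓ reduceIte, sum_const_zero, add_zero]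
  have h3 : ∑ v, (if S v then inn M v else 0) = ∑ v, if S v then out M v else 0 :=
    sum_congr rfl fun v _ => by rw [h v]
  simp only [← h1, ← h2, sum_add_distrib] at h3
  rw [← size_eq_inn, ← size_eq_inn] at h3
  unfold size at h3 ⊢
  omega

/-- contraction of a vertex set: exits are paired with entries -/
theorem contract {M : V → V → ℕ} (h : Bal M) (S : V → Prop) [DecidablePred S] :
    ∃ (n : ℕ) (a s s' b : Fin n → V),
      part M (fun x y => ¬ S x ∧ S y) = ∑ i, E (a i) (s i) ∧
      part M (fun x y => S x ∧ ¬ S y) = ∑ i, E (s' i) (b i) ∧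
      Imm M (part M (fun x y => ¬ S x ∧ ¬ S y) + ∑ i, E (a i) (b i)) := by
  obtain ⟨n, hn⟩ : ∃ n, size (part M fun x y => ¬ S x ∧ S y) = n := ⟨_, rfl⟩
  obtain ⟨a, s, e1⟩ := enum n (part M fun x y => ¬ S x ∧ S y) hn
  obtain ⟨s', b, e2⟩ := enum n (part M fun x y => S x ∧ ¬ S y) ((h.cut S).symm.trans hn)
  have hM : M = part M (fun x y => ¬ S x ∧ ¬ S y) + (part M (fun x y => ¬ S x ∧ S y) +
      part M (fun x y => S x ∧ S y) + part M fun x y => S x ∧ ¬ S y) := by
    funext x y
    by_cases hx : S x <;> by_cases hy : S y <;> simp [part, hx, hy]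
  have hf : Flow (part M fun x y => S x ∧ S y) s s' := fun v => by
    have c1 : cnt s v = inn (part M fun x y => ¬ S x ∧ S y) v := by
      rw [e1, inn_sum, cnt_eq]; simp only [inn_E]
    have c2 : cnt s' v = out (part M fun x y => S x ∧ ¬ S y) v := by
      rw [e2, out_sum, cnt_eq]; simp only [out_E]
    have := h v
    rw [c1, c2]
    by_cases hv : S v
    · rw [hM] at this
      simp only [out_add, inn_add] at this
      simp only [out, inn, part, hv, not_true, false_and, and_false, if_false, sum_const_zero]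
        at this ⊢
      omega
    · simp only [out, part, hv, false_and, ↓ reduceIte, sum_const_zero, add_zero, inn, and_false]
  obtain ⟨β, hβ⟩ := link s' _ _ s rfl hf
  refine ⟨_, a, s, s' ∘ β, b ∘ β, e1, e2.trans (Equiv.sum_comp β fun i => E (s' i) (b i)).symm, ?_⟩
  conv_lhs => rw [hM]
  refine (Imm.refl _).add ((((Imm.refl _).add hβ).add (Imm.refl _)).trans ?_)
  rw [e1, e2, ← Equiv.sum_comp β fun i => E (s' i) (b i), ← sum_add_distrib, ← sum_add_distrib]
  exact Imm.sum _ fun i _ => ((imm_EE' _ _ _).add (Imm.refl _)).trans (imm_EE _ _ _)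

end Pool.Agent.MP_2634a8_co
end

section
set_option autoImplicit false

namespace Pool.Agent.MP_2634a8_co.X

open Finset

variable {V : Type} [Fintype V] [DecidableEq V]

omit [DecidableEq V] in
lemma wsum_add (M N : Mat V) (f : V → V → ℕ) : wsum (M + N) f = wsum M f + wsum N f := by
  simp only [wsum, Pi.add_apply, add_mul, sum_add_distrib]

omit [DecidableEq V] in
lemma wsum_zero (f : V → V → ℕ) : wsum (0 : Mat V) f = 0 := by simp only [wsum, Pi.zero_apply, zero_mul, sum_const_zero]

lemma wsum_E (a b : V) (f : V → V → ℕ) : wsum (E a b) f = f a b := by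
  simp only [wsum, E, ite_and, ite_mul, one_mul, zero_mul, sum_ite_irrel, sum_ite_eq', mem_univ, ↓ reduceIte, sum_const_zero]

omit [DecidableEq V] in
lemma wsum_sum {ι : Type} (s : Finset ι) (M : ι → Mat V) (f : V → V → ℕ) :
    wsum (∑ i ∈ s, M i) f = ∑ i ∈ s, wsum (M i) f := by
  classical
  induction s using Finset.induction_on with
  | empty => simpa using wsum_zero f
  | insert a s ha ih => rw [sum_insert ha, sum_insert ha, wsum_add, ih]

omit [DecidableEq V] in
lemma wsum_mono {M N : Mat V} (h : M ≤ N) (f : V → V → ℕ) : wsum M f ≤ wsum N f :=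
  sum_le_sum fun u _ => sum_le_sum fun v _ => Nat.mul_le_mul_right _ (h u v)

omit [DecidableEq V] in
lemma wsum_le_wsum (M : Mat V) {f g : V → V → ℕ} (h : ∀ u v, M u v ≠ 0 → f u v ≤ g u v) :
    wsum M f ≤ wsum M g :=
  sum_le_sum fun u _ => sum_le_sum fun v _ => by
    by_cases h0 : M u v = 0
    · simp [h0]
    · exact Nat.mul_le_mul_left _ (h u v h0)

omit [DecidableEq V] in
lemma wsum_one (M : Mat V) : wsum M (fun _ _ => 1) = size M := by simp only [wsum, mul_one, size, out]

omit [DecidableEq V] in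
lemma out_zero (v : V) : out (0 : Mat V) v = 0 := by simp only [out, Pi.zero_apply, sum_const_zero]

omit [DecidableEq V] in
lemma inn_zero (v : V) : inn (0 : Mat V) v = 0 := by simp only [inn, Pi.zero_apply, sum_const_zero]

omit [DecidableEq V] in
lemma size_zero : size (0 : Mat V) = 0 := by simp only [size, out, Pi.zero_apply, sum_const_zero]

omit [DecidableEq V] in
lemma out_mono {M N : Mat V} (h : M ≤ N) (v : V) : out M v ≤ out N v := sum_le_sum fun w _ => h v w

omit [DecidableEq V] in
lemma inn_mono {M N : Mat V} (h : M ≤ N) (v : V) : inn M v ≤ inn N v := sum_le_sum fun w _ => h w v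

omit [DecidableEq V] in
lemma size_mono {M N : Mat V} (h : M ≤ N) : size M ≤ size N := sum_le_sum fun v _ => out_mono h v

omit [DecidableEq V] in
lemma size_sum {ι : Type} (s : Finset ι) (M : ι → Mat V) :
    size (∑ i ∈ s, M i) = ∑ i ∈ s, size (M i) := by
  simp only [← wsum_one, wsum_sum]

omit [DecidableEq V] in
lemma le_out (M : Mat V) (u v : V) : M u v ≤ out M u :=
  single_le_sum (f := fun w => M u w) (fun _ _ => Nat.zero_le _) (mem_univ v)

omit [DecidableEq V] in
lemma le_inn (M : Mat V) (u v : V) : M u v ≤ inn M v :=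
  single_le_sum (f := fun w => M w v) (fun _ _ => Nat.zero_le _) (mem_univ u)

omit [DecidableEq V] in
lemma pack_of_le {M N : Mat V} (h : N ≤ M) {t : ℕ} (hp : Pack t N) : Pack t M :=
  (Imm.of_le h).pack hp

omit [DecidableEq V] in
lemma bal_zero : Bal (0 : Mat V) := fun v => by rw [out_zero, inn_zero]

omit [DecidableEq V] in
lemma bal_add {M N : Mat V} (h : Bal M) (h' : Bal N) : Bal (M + N) := fun v => by
  rw [out_add, inn_add, h v, h' v]

omit [DecidableEq V] in
lemma bal_of_add {M N : Mat V} (h : Bal (M + N)) (h' : Bal N) : Bal M := fun v => by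
  have h1 := h v
  have h2 := h' v
  rw [out_add, inn_add] at h1
  omega

omit [DecidableEq V] in
lemma bal_sum {ι : Type} (s : Finset ι) {M : ι → Mat V} (h : ∀ i ∈ s, Bal (M i)) :
    Bal (∑ i ∈ s, M i) := fun v => by
  rw [out_sum, inn_sum]
  exact sum_congr rfl fun i hi => h i hi v

lemma bal_loop (a : V) : Bal (E a a) := fun v => by rw [out_E, inn_E]

omit [DecidableEq V] in
lemma pack_one {C : Mat V} (h0 : C ≠ 0) (hb : Bal C) : Pack 1 C :=
  ⟨C, 0, (add_zero C).symm, h0, hb, trivial⟩

namespace Rt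

omit [DecidableEq V]

lemma refl (P : Mat V) : Rt P P := ⟨fun _ _ h => h, fun _ => add_comm _ _, fun _ => le_rfl,
  fun _ _ => le_rfl⟩

lemma trans {P Q R : Mat V} (h : Rt P Q) (h' : Rt Q R) : Rt P R :=
  ⟨fun N t hp => h.pack N t (h'.pack N t hp), fun v => by
    have := h.bal v; have := h'.bal v; omega, fun v => (h'.out_le v).trans (h.out_le v),
    fun f hf => (h'.sub f hf).trans (h.sub f hf)⟩

lemma imm {P Q : Mat V} (h : Rt P Q) : Imm P Q := fun K t hp => by
  rw [add_comm] at hp ⊢
  exact h.pack K t hp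

lemma add {P Q P' Q' : Mat V} (h : Rt P Q) (h' : Rt P' Q') : Rt (P + P') (Q + Q') :=
  ⟨fun N t hp => by
    rw [add_comm N] at hp ⊢
    exact (h.imm.add h'.imm) N t hp, fun v => by
    have := h.bal v; have := h'.bal v
    simp only [out_add, inn_add]; omega, fun v => by
    rw [out_add, out_add]; exact Nat.add_le_add (h.out_le v) (h'.out_le v), fun f hf => by
    rw [wsum_add, wsum_add]; exact Nat.add_le_add (h.sub f hf) (h'.sub f hf)⟩

lemma add_left (N : Mat V) {P Q : Mat V} (h : Rt P Q) : Rt (N + P) (N + Q) := (refl N).add h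

lemma add_right {P Q : Mat V} (h : Rt P Q) (N : Mat V) : Rt (P + N) (Q + N) := h.add (refl N)

lemma sum {ι : Type} (s : Finset ι) {P Q : ι → Mat V} (h : ∀ i ∈ s, Rt (P i) (Q i)) :
    Rt (∑ i ∈ s, P i) (∑ i ∈ s, Q i) := by
  classical
  induction s using Finset.induction_on with
  | empty => exact refl _
  | insert a s ha ih =>
    rw [sum_insert ha, sum_insert ha]
    exact (h a (mem_insert_self _ _)).add (ih fun i hi => h i (mem_insert_of_mem hi))

lemma inn_le {P Q : Mat V} (h : Rt P Q) (v : V) : inn Q v ≤ inn P v := by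
  have := h.bal v; have := h.out_le v; omega

lemma size_le {P Q : Mat V} (h : Rt P Q) : size Q ≤ size P := sum_le_sum fun v _ => h.out_le v

lemma pack' {P Q : Mat V} (h : Rt P Q) {t : ℕ} (hp : Pack t Q) : Pack t P := h.imm.pack hp

lemma bal_iff {P Q : Mat V} (h : Rt P Q) : Bal P ↔ Bal Q :=
  forall_congr' fun v => by have := h.bal v; omega

lemma of_bal {C : Mat V} (h : Bal C) : Rt C 0 :=
  ⟨fun N t hp => pack_mono _ _ _ (by simpa using hp), fun v => by rw [h v, out_zero, inn_zero],
    fun v => by rw [out_zero]; exact Nat.zero_le _, fun f _ => by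
      rw [wsum_zero]; exact Nat.zero_le _⟩

lemma drop (N : Mat V) {C : Mat V} (h : Bal C) : Rt (N + C) N := by
  simpa using (of_bal h).add_left N

end Rt

lemma Rt.short (a u b : V) : Rt (E a u + E u b) (E a b) :=
  ⟨fun N t => pack_split a u b t N, fun v => by
    simp only [out_add, inn_add, out_E, inn_E]; omega, fun v => by
    simp only [out_add, out_E]; omega, fun f hf => by
    rw [wsum_add, wsum_E, wsum_E, wsum_E]; exact hf a u b⟩

lemma Rt.short3 (a u v b : V) : Rt (E a u + E u v + E v b) (E a b) :=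
  ((Rt.short a u v).add_right _).trans (Rt.short a v b)

lemma Rt.toE' (a b : V) : Rt (E a b) (E' a b) := by
  by_cases h : a = b
  · subst h
    rw [E'_self]
    exact Rt.of_bal (bal_loop a)
  · rw [E'_ne h]
    exact Rt.refl _

lemma Rt.EE' (a v b : V) : Rt (E a v + E' v b) (E a b) := by
  by_cases h : v = b
  · subst h
    rw [E'_self, add_zero]
    exact Rt.refl _
  · rw [E'_ne h]
    exact Rt.short a v b

lemma Rt.E'E (a v b : V) : Rt (E' a v + E v b) (E a b) := by
  by_cases h : a = v
  · subst h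
    rw [E'_self, zero_add]
    exact Rt.refl _
  · rw [E'_ne h]
    exact Rt.short a v b

lemma Rt.E'E' (a v b : V) : Rt (E' a v + E' v b) (E' a b) := by
  by_cases h : a = v
  · subst h
    rw [E'_self, zero_add]
    exact Rt.refl _
  · rw [E'_ne h]
    exact (Rt.EE' a v b).trans (Rt.toE' a b)

/-- decomposition of a flow into paths -/
theorem Rt.link {T : Type} [Fintype T] [DecidableEq T] (q : T → V) :
    ∀ (n : ℕ) (N : Mat V) (p : T → V), size N = n → Flow N p q →
    ∃ b : Equiv.Perm T, Rt N (∑ i, E' (p i) (q (b i))) := by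
  intro n
  induction n using Nat.strong_induction_on with
  | _ n ih =>
  intro N p hn hf
  by_cases h : ∀ v, cnt p v ≤ cnt q v
  · have hs : ∀ r : T → V, ∑ v, cnt r v = Fintype.card T := fun r =>
      (card_eq_sum_card_fiberwise (s := univ) (t := univ) (f := r) fun _ _ => mem_univ _).symm
    have he := (sum_eq_sum_iff_of_le fun v (_ : v ∈ univ) => h v).1 ((hs p).trans (hs q).symm)
    have hb : ∀ v, {i // p i = v} ≃ {i // q i = v} := fun v => Fintype.equivOfCardEq (by
      rw [Fintype.card_subtype, Fintype.card_subtype]; exact he v (mem_univ v))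
    refine ⟨Equiv.ofFiberEquiv hb, ?_⟩
    rw [sum_eq_zero fun i _ => by rw [Equiv.ofFiberEquiv_map hb i, E'_self]]
    exact Rt.of_bal fun v => by have := hf v; have := he v (mem_univ v); omega
  · push Not at h
    obtain ⟨v, hv⟩ := h
    obtain ⟨i, hi⟩ : ∃ i, p i = v := by
      obtain ⟨i, hi⟩ := card_pos.1 (Nat.zero_lt_of_lt hv)
      exact ⟨i, (mem_filter.1 hi).2⟩
    subst hi
    obtain ⟨w, hw⟩ := exists_out (M := N) (v := p i) (by have := hf (p i); omega)
    obtain ⟨N', rfl⟩ := exists_add_E hw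
    obtain ⟨b, hb⟩ := ih (size N') (by rw [← hn, size_add, size_E]; omega) N' _ rfl hf.step
    refine ⟨b, (hb.add_right _).trans ?_⟩
    rw [sum_update_left E' p (fun j => q (b j)), ← add_sum_erase _ _ (mem_univ i), add_right_comm,
      add_comm (E' _ _)]
    exact ((Rt.EE' _ _ _).trans (Rt.toE' _ _)).add_right _

lemma fd_aux (U : Finset V) : ∀ (n : ℕ) (P : Mat V), size P = n → (∀ u ∈ U, out P u = inn P u) →
    ∃ Q : Mat V, Rt P Q ∧ (∀ a b, Q a b ≠ 0 → a ∉ U ∧ b ∉ U) ∧
      ∀ a ∉ U, out Q a = out P a ∧ inn Q a = inn P a := by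
  intro n
  induction n using Nat.strong_induction_on with
  | _ n ih =>
  intro P hn hU
  by_cases h : ∀ u ∈ U, inn P u = 0
  · refine ⟨P, Rt.refl P, fun a b hab => ⟨fun ha => ?_, fun hb => ?_⟩, fun _ _ => ⟨rfl, rfl⟩⟩
    · have := le_out P a b; have := hU a ha; have := h a ha; omega
    · have := le_inn P a b; have := h b hb; omega
  push Not at h
  obtain ⟨u, hu, h0⟩ := h
  have step : ∀ P' : Mat V, Rt P P' → size P' < n →
      (∀ a ∉ U, out P' a = out P a) → ∃ Q : Mat V, Rt P Q ∧ (∀ a b, Q a b ≠ 0 → a ∉ U ∧ b ∉ U) ∧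
        ∀ a ∉ U, out Q a = out P a ∧ inn Q a = inn P a := fun P' h1 h2 h3 => by
    obtain ⟨Q, q1, q2, q3⟩ := ih _ h2 P' rfl fun v hv => by
      have := h1.bal v; have := hU v hv; omega
    refine ⟨Q, h1.trans q1, q2, fun a ha => ?_⟩
    have := h1.bal a; have := h3 a ha; have := q3 a ha
    omega
  by_cases hl : P u u = 0
  · obtain ⟨a, ha⟩ := exists_inn h0
    obtain ⟨b, hb⟩ := exists_out (M := P) (v := u) (by rw [hU u hu]; exact h0)
    have hau : u ≠ a := fun e => ha (e ▸ hl)
    obtain ⟨N, rfl⟩ := exists_add_E ha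
    obtain ⟨N, rfl⟩ := exists_add_E (M := N) (a := u) (b := b) (by simpa [E, hau] using hb)
    refine step (N + E a b) ?_ (by simp only [← hn, size_add, size_E]; omega) fun x hx => ?_
    · rw [add_assoc, add_comm (E u b)]
      exact (Rt.short a u b).add_left N
    · have : x ≠ u := fun e => hx (e ▸ hu)
      simp [out_add, out_E, this]
  · obtain ⟨N, rfl⟩ := exists_add_E hl
    refine step N (Rt.drop N (bal_loop u)) (by simp only [← hn, size_add, size_E]; omega)
      fun x hx => ?_
    have : x ≠ u := fun e => hx (e ▸ hu)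
    simp [out_add, out_E, this]

theorem fd : FD_s := fun _ _ _ P U h => fd_aux U _ P rfl h

/-- push-forward of a matrix -/
def pushM {W : Type} [Fintype W] (φ : W → V) (D : Mat W) : Mat V := fun u v =>
  ∑ a ∈ univ.filter (fun a => φ a = u), ∑ b ∈ univ.filter (fun b => φ b = v), D a b

section
variable {W : Type} [Fintype W] (φ : W → V)

omit [Fintype V] in
lemma pushM_add (C D : Mat W) : pushM φ (C + D) = pushM φ C + pushM φ D := by
  funext u v
  simp only [pushM, Pi.add_apply, sum_add_distrib]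

lemma out_pushM (D : Mat W) (u : V) :
    out (pushM φ D) u = ∑ a ∈ univ.filter (fun a => φ a = u), out D a := by
  unfold out pushM
  rw [sum_comm]
  exact sum_congr rfl fun a _ => sum_fiberwise univ φ (D a)

lemma inn_pushM (D : Mat W) (v : V) :
    inn (pushM φ D) v = ∑ b ∈ univ.filter (fun b => φ b = v), inn D b := by
  unfold inn pushM
  rw [sum_fiberwise univ φ fun a => ∑ b ∈ univ.filter (fun b => φ b = v), D a b]
  exact sum_comm

omit [Fintype V] in
lemma le_pushM (D : Mat W) (a b : W) : D a b ≤ pushM φ D (φ a) (φ b) :=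
  (single_le_sum (f := fun b => D a b) (fun _ _ => Nat.zero_le _) (by simp only [mem_filter, mem_univ, and_self])).trans
    (single_le_sum (f := fun a => ∑ b' ∈ univ.filter (fun b' => φ b' = φ b), D a b')
      (fun _ _ => Nat.zero_le _) (by simp only [mem_filter, mem_univ, and_self]))

lemma pack_pushM : ∀ (t : ℕ) (D : Mat W), Pack t D → Pack t (pushM φ D)
  | 0, _, _ => trivial
  | t + 1, _, ⟨C, N, h1, h2, h3, h4⟩ => ⟨pushM φ C, pushM φ N, by rw [h1, pushM_add],
      fun h => h2 (funext fun a => funext fun b =>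
        Nat.le_zero.1 ((le_pushM φ C a b).trans (congrFun (congrFun h _) _).le)),
      fun v => by rw [out_pushM, inn_pushM]; exact sum_congr rfl fun a _ => h3 a,
      pack_pushM t N h4⟩

end

theorem push : PUSH_s := fun _ _ _ _ _ _ φ D _ h t hp =>
  pack_of_le (N := pushM φ D) h (pack_pushM φ t D hp)

end Pool.Agent.MP_2634a8_co.X
end

section
namespace Pool.Agent.MP_2634a8_co.X

open Finset

section gen
variable {V : Type} [Fintype V]

lemma out_le_size (M : Mat V) (u : V) : out M u ≤ size M :=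
  single_le_sum (f := fun w => out M w) (fun _ _ => Nat.zero_le _) (mem_univ u)
lemma size_inn (M : Mat V) : size M = ∑ v, inn M v := sum_comm
lemma bal_cancel {M N : Mat V} (h : Bal (M + N)) (h' : Bal N) : Bal M := fun v => by
  have := h v; have := h' v; rw [out_add, inn_add] at *; omega
omit [Fintype V] in
lemma le_iff_add {M N : Mat V} : M ≤ N ↔ ∃ K, N = K + M :=
  ⟨fun h => exists_add h, by rintro ⟨K, rfl⟩; exact le_add_self⟩
omit [Fintype V] in
lemma ne_of_le {M N : Mat V} (h : M ≤ N) {u v : V} (h0 : M u v ≠ 0) : N u v ≠ 0 := by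
  have : M u v ≤ N u v := h u v
  omega
omit [Fintype V] in
lemma simple_mono {M N : Mat V} (h : M ≤ N) (hN : Simple N) : Simple M :=
  ⟨fun a b => (h a b).trans (hN.1 a b), fun a => Nat.le_zero.1 ((h a a).trans (hN.2 a).le)⟩
lemma pack_plus : ∀ (s t : ℕ) (M N : Mat V), Pack s M → Pack t N → Pack (t + s) (M + N)
  | 0, _, M, N, _, h => by rw [add_comm M]; exact pack_mono _ _ _ h
  | s + 1, t, _, N, ⟨C, N', h1, h2, h3, h4⟩, h =>
    ⟨C, N' + N, by rw [h1, add_assoc], h2, h3, pack_plus s t N' N h4 h⟩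
lemma pack_cyc {C N : Mat V} {t : ℕ} (h0 : C ≠ 0) (hb : Bal C) (h : Pack t N) :
    Pack (t + 1) (C + N) := ⟨C, N, rfl, h0, hb, h⟩

lemma wsum_le {M : Mat V} {f g : V → V → ℕ} (h : ∀ u v, M u v ≠ 0 → f u v ≤ g u v) :
    wsum M f ≤ wsum M g := by
  refine sum_le_sum fun u _ => sum_le_sum fun v _ => ?_
  by_cases h0 : M u v = 0
  · simp [h0]
  · exact Nat.mul_le_mul_left _ (h u v h0)
lemma wsum_congr {M : Mat V} {f g : V → V → ℕ} (h : ∀ u v, M u v ≠ 0 → f u v = g u v) :
    wsum M f = wsum M g :=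
  le_antisymm (wsum_le fun u v h0 => (h u v h0).le) (wsum_le fun u v h0 => (h u v h0).ge)
lemma wsum_const (M : Mat V) (c : ℕ) : wsum M (fun _ _ => c) = size M * c := by
  simp only [wsum, size, out, sum_mul]
lemma wsum_fadd (M : Mat V) (f g : V → V → ℕ) :
    wsum M (fun u v => f u v + g u v) = wsum M f + wsum M g := by
  simp only [wsum, mul_add, sum_add_distrib, Nat.add_left_cancel_iff]
lemma wsum_fsum {ι : Type} (s : Finset ι) (M : Mat V) (f : ι → V → V → ℕ) :
    wsum M (fun u v => ∑ i ∈ s, f i u v) = ∑ i ∈ s, wsum M (f i) := by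
  simp only [wsum, mul_sum]
  rw [sum_comm (s := s)]
  exact sum_congr rfl fun u _ => sum_comm
lemma wsum_tail (M : Mat V) (g : V → ℕ) : wsum M (fun u _ => g u) = ∑ u, out M u * g u := by
  simp only [wsum, out, sum_mul]
lemma wsum_head (M : Mat V) (g : V → ℕ) : wsum M (fun _ v => g v) = ∑ v, inn M v * g v := by
  simp only [wsum, inn, sum_mul]; exact sum_comm
lemma back_eq (M : Mat V) (ρ : V → ℕ) :
    back M ρ = wsum M fun u v => if ρ v ≤ ρ u then 1 else 0 := by
  simp only [back, wsum, mul_ite, mul_one, mul_zero]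
lemma back_add (M N : Mat V) (ρ : V → ℕ) : back (M + N) ρ = back M ρ + back N ρ := by
  simp only [back_eq, wsum_add]
lemma back_mono {M N : Mat V} (h : M ≤ N) (ρ : V → ℕ) : back M ρ ≤ back N ρ := by
  simp only [back_eq]; exact wsum_mono h _
lemma back_le_size (M : Mat V) (ρ : V → ℕ) : back M ρ ≤ size M := by
  rw [back_eq, ← wsum_one]
  exact wsum_le fun u v _ => by split_ifs <;> omega
lemma Fas.le {M : Mat V} {x y : ℝ} (h : Fas M x) (hxy : x ≤ y) : Fas M y := by
  obtain ⟨ρ, hρ⟩ := h; exact ⟨ρ, hρ.trans hxy⟩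
lemma Fas.anti {M N : Mat V} {x : ℝ} (h : Fas N x) (hMN : M ≤ N) : Fas M x := by
  obtain ⟨ρ, hρ⟩ := h
  exact ⟨ρ, le_trans (by exact_mod_cast back_mono hMN ρ) hρ⟩
lemma Fas.add {M : Mat V} {x : ℝ} (h : Fas M x) (N : Mat V) : Fas (M + N) (x + size N) := by
  obtain ⟨ρ, hρ⟩ := h
  refine ⟨ρ, ?_⟩
  have : (back N ρ : ℝ) ≤ size N := by exact_mod_cast back_le_size N ρ
  rw [back_add]; push_cast; linarith
lemma Girth.anti {M N : Mat V} {g : ℝ} (h : Girth N g) (hMN : M ≤ N) : Girth M g :=
  fun C hC => h C (hC.trans hMN)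
lemma Girth.le {M : Mat V} {g g' : ℝ} (h : Girth M g) (hg : g' ≤ g) : Girth M g' :=
  fun C h1 h2 h3 => hg.trans_lt (h C h1 h2 h3)

variable [DecidableEq V]

omit [Fintype V] in
lemma res_le (M : Mat V) (U : Finset V) : res M U ≤ M := fun u v => by
  show (if u ∈ U ∧ v ∈ U then M u v else 0) ≤ M u v
  split_ifs <;> omega
omit [Fintype V] in
lemma res_ne {M : Mat V} {U : Finset V} {u v : V} :
    res M U u v ≠ 0 ↔ u ∈ U ∧ v ∈ U ∧ M u v ≠ 0 := by
  unfold res; split_ifs <;> tauto
omit [Fintype V] in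
lemma res_res (M : Mat V) {S U : Finset V} (h : S ⊆ U) : res (res M U) S = res M S := by
  funext u v; unfold res
  by_cases h1 : u ∈ S ∧ v ∈ S
  · simp [h1, h h1.1, h h1.2]
  · simp [h1]
lemma eb_eq (M : Mat V) (S T : Finset V) :
    eb M S T = wsum M fun u v => if u ∈ S ∧ v ∈ T then 1 else 0 := by
  simp only [eb, wsum, ite_and, mul_ite, mul_one, mul_zero]
  rw [← sum_filter_add_sum_filter_not univ (· ∈ S)]
  simp only [filter_mem_eq_inter, univ_inter]
  rw [sum_eq_zero (s := filter (fun x => x ∉ S) univ)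
    (fun u hu => by simp only [(mem_filter.1 hu).2, ↓ reduceIte, sum_const_zero]), add_zero]
  exact sum_congr rfl fun u hu => by simp only [hu, ↓ reduceIte, sum_ite_mem, univ_inter]
lemma eb_bal {M : Mat V} (h : Bal M) (S : Finset V) : eb M S Sᶜ = eb M Sᶜ S := by
  have h1 : ∑ u ∈ S, out M u = eb M S S + eb M S Sᶜ := by
    simp only [eb, out, ← sum_add_distrib, sum_add_sum_compl]
  have h2 : ∑ u ∈ S, inn M u = eb M S S + eb M Sᶜ S := by
    simp only [eb, inn]
    rw [sum_comm (s := S) (t := S), sum_comm (s := Sᶜ), ← sum_add_distrib]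
    simp only [sum_add_sum_compl]
  have h3 : ∑ u ∈ S, out M u = ∑ u ∈ S, inn M u := sum_congr rfl fun u _ => h u
  omega
lemma sum_out_eq (M : Mat V) (S : Finset V) : ∑ u ∈ S, out M u = eb M S S + eb M S Sᶜ := by
  simp only [eb, out, ← sum_add_distrib, sum_add_sum_compl]

/-- `S` is placed last -/
lemma fas_glue {M : Mat V} {S : Finset V} {x y : ℝ} (h1 : Fas (res M S) x)
    (h2 : Fas (res M Sᶜ) y) : Fas M (x + y + eb M S Sᶜ) := by
  obtain ⟨ρ, hρ⟩ := h1
  obtain ⟨ρ', hρ'⟩ := h2
  set K := univ.sup ρ' + 1 with hK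
  have hlt : ∀ v, ρ' v < K := fun v => Nat.lt_succ_of_le (le_sup (f := ρ') (mem_univ v))
  refine ⟨fun v => if v ∈ S then K + ρ v else ρ' v, ?_⟩
  have : back M (fun v => if v ∈ S then K + ρ v else ρ' v) ≤
      back (res M S) ρ + back (res M Sᶜ) ρ' + eb M S Sᶜ := by
    rw [eb_eq]
    simp only [back, wsum, ← sum_add_distrib]
    refine sum_le_sum fun u _ => sum_le_sum fun v _ => ?_
    have := hlt u
    by_cases hu : u ∈ S <;> by_cases hv : v ∈ S <;> simp only [hv, ↓ reduceIte, hu, add_le_add_iff_left, res, and_self, mem_compl, not_true_eq_false, ite_self, add_zero, and_false, mul_zero, Std.le_refl, not_false_eq_true, and_true, mul_one, zero_add, ge_iff_le, nonpos_iff_eq_zero, ite_eq_right_iff]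
    · split_ifs <;> omega
    · intro h; omega
  have h3 : (back M (fun v => if v ∈ S then K + ρ v else ρ' v) : ℝ) ≤
      back (res M S) ρ + back (res M Sᶜ) ρ' + eb M S Sᶜ := by exact_mod_cast this
  linarith only [hρ, hρ', h3]

end gen

section cyc
variable {n : ℕ} [NeZero n]

lemma lam_lt (u v : ZMod n) : lam u v < n := ZMod.val_lt _
omit [NeZero n] in
lemma lam_self (u : ZMod n) : lam u u = 0 := by simp [lam]
lemma add_lam (u v : ZMod n) : u + (lam u v : ZMod n) = v := by simp [lam]
lemma sub_lam (u v : ZMod n) : v - (lam u v : ZMod n) = u := by simp [lam]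
omit [NeZero n] in
lemma lam_add_nat (u : ZMod n) {d : ℕ} (h : d < n) : lam u (u + d) = d := by
  simp [lam, ZMod.val_natCast, Nat.mod_eq_of_lt h]
omit [NeZero n] in
lemma lam_sub_nat (v : ZMod n) {d : ℕ} (h : d < n) : lam (v - (d : ZMod n)) v = d := by
  simp [lam, ZMod.val_natCast, Nat.mod_eq_of_lt h]
lemma lam_inj {a u v : ZMod n} (h : lam a u = lam a v) : u = v := by
  rw [← add_lam a u, h, add_lam]
lemma lam_inj' {a u v : ZMod n} (h : lam u a = lam v a) : u = v := by
  rw [← sub_lam u a, h, sub_lam]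
lemma lam_eq_zero {u v : ZMod n} : lam u v = 0 ↔ u = v :=
  ⟨fun h => (lam_inj (a := u) (h.trans (lam_self u).symm)).symm, fun h => h ▸ lam_self u⟩
omit [NeZero n] in
lemma lam_zero (v : ZMod n) : lam 0 v = v.val := by simp [lam]
omit [NeZero n] in
lemma lam_shift (c u v : ZMod n) : lam (u + c) (v + c) = lam u v := by simp [lam]
omit [NeZero n] in
lemma lam_neg (u v : ZMod n) : lam (-v) (-u) = lam u v := by
  unfold lam; congr 1; ring
lemma lam_tri (a u b : ZMod n) :
    lam a u + lam u b = lam a b ∨ lam a u + lam u b = lam a b + n := by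
  have h : b - a = (u - a) + (b - u) := by ring
  have h1 := ZMod.val_add (u - a) (b - u)
  have h2 := lam_lt a u
  have h3 := lam_lt u b
  unfold lam at *
  rw [h, h1]
  rcases lt_or_ge ((u - a).val + (b - u).val) n with h4 | h4
  · left; rw [Nat.mod_eq_of_lt h4]
  · right; rw [Nat.mod_eq_sub_mod h4, Nat.mod_eq_of_lt (by omega)]; omega
lemma lam_rev {u v : ZMod n} (h : u ≠ v) : lam u v + lam v u = n := by
  have h1 := lam_tri u v u
  have h2 : lam u v ≠ 0 := fun h0 => h (lam_eq_zero.1 h0)
  rw [lam_self] at h1; omega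
/-- lengths in the coordinate `lam a` -/
lemma lam_coord (a u v : ZMod n) :
    (lam a u ≤ lam a v ∧ lam a u + lam u v = lam a v) ∨
      (lam a v < lam a u ∧ lam a u + lam u v = lam a v + n) := by
  have := lam_tri a u v
  have := lam_lt u v
  omega
lemma lam_val (u v : ZMod n) :
    (u.val ≤ v.val ∧ u.val + lam u v = v.val) ∨ (v.val < u.val ∧ u.val + lam u v = v.val + n) := by
  simpa only [lam_zero] using lam_coord 0 u v
lemma subAdd_lam : SubAdd (lam (n := n)) := fun a u b => by
  have := lam_tri a u b; omega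
lemma crs_le (t u v : ZMod n) : crs t u v ≤ 1 := by unfold crs; split_ifs <;> omega
lemma subAdd_crs (t : ZMod n) : SubAdd (crs t) := fun a u b => by
  have h1 := lam_tri a u b
  have h2 := lam_tri a u t
  have h3 := lam_lt u t
  have h4 := lam_lt a t
  have h5 := lam_lt a b
  unfold crs; split_ifs <;> omega
lemma crs_rev (t : ZMod n) {u v : ZMod n} (h : u ≠ v) : crs t u v + crs t v u = 1 := by
  have h1 := lam_rev h
  have h2 := lam_tri u v t
  have h3 := lam_lt u t
  have h4 := lam_lt v t
  unfold crs; split_ifs <;> omega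
lemma crs_pred (a u v : ZMod n) : crs (a - 1) u v = if lam a v < lam a u then 1 else 0 := by
  have h0 : lam a (a - 1) + 1 = n := by
    by_cases h : a - 1 = a
    · have h1 : (1 : ZMod n) = 0 := by simpa only [sub_eq_self] using h
      have h2 : n = 1 := ZMod.one_eq_zero_iff.1 h1
      rw [h, lam_self]; omega
    · have h1 : n ≠ 1 := by
        rintro rfl; exact h (Subsingleton.elim _ _)
      have h2 := lam_rev h
      have h3 : lam (a - 1) a = 1 := by
        have := lam_sub_nat a (d := 1) (by have := NeZero.pos n; omega)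
        simpa using this
      omega
  have h1 := lam_coord a u v
  have h2 := lam_coord a u (a - 1)
  have h3 := lam_lt a u
  have h4 := lam_lt a v
  unfold crs; split_ifs <;> omega

lemma sum_lam {β : Type} [AddCommMonoid β] (a : ZMod n) (g : ZMod n → β) :
    ∑ v, g v = ∑ i ∈ range n, g (a + i) := by
  symm
  refine sum_bij (fun i _ => a + (i : ZMod n)) (fun _ _ => mem_univ _) ?_ ?_ (fun _ _ => rfl)
  · intro i hi j hj h
    rw [← lam_add_nat a (mem_range.1 hi), h, lam_add_nat a (mem_range.1 hj)]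
  · intro v _
    exact ⟨lam a v, mem_range.2 (lam_lt a v), add_lam a v⟩
lemma sum_lam' {β : Type} [AddCommMonoid β] (a : ZMod n) (g : ZMod n → β) :
    ∑ v, g v = ∑ i ∈ range n, g (a - i) := by
  symm
  refine sum_bij (fun i _ => a - (i : ZMod n)) (fun _ _ => mem_univ _) ?_ ?_ (fun _ _ => rfl)
  · intro i hi j hj h
    rw [← lam_sub_nat a (mem_range.1 hi), h, lam_sub_nat a (mem_range.1 hj)]
  · intro v _
    exact ⟨lam v a, mem_range.2 (lam_lt v a), sub_lam v a⟩
lemma mem_win {a v : ZMod n} {m : ℕ} : v ∈ win a m ↔ lam a v < m := by simp [win]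
lemma sum_win {β : Type} [AddCommMonoid β] (a : ZMod n) {m : ℕ} (hm : m ≤ n) (g : ZMod n → β) :
    ∑ v ∈ win a m, g v = ∑ i ∈ range m, g (a + i) := by
  symm
  refine sum_bij (fun i _ => a + (i : ZMod n)) ?_ ?_ ?_ (fun _ _ => rfl)
  · intro i hi
    have := mem_range.1 hi
    rw [mem_win, lam_add_nat a (by omega)]; exact this
  · intro i hi j hj h
    have := mem_range.1 hi
    have := mem_range.1 hj
    rw [← lam_add_nat a (d := i) (by omega), h, lam_add_nat a (by omega)]
  · intro v hv
    exact ⟨lam a v, mem_range.2 (mem_win.1 hv), add_lam a v⟩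
lemma card_win (a : ZMod n) {m : ℕ} (hm : m ≤ n) : (win a m).card = m := by
  rw [card_eq_sum_ones, sum_win a hm]; simp
lemma card_win_le (a : ZMod n) (m : ℕ) : (win a m).card ≤ m := by
  rcases le_total m n with h | h
  · exact (card_win a h).le
  · exact (card_le_univ _).trans (by rw [ZMod.card]; exact h)
/-- every vertex lies in `m` windows of length `m` -/
lemma sum_sum_win (m : ℕ) (hm : m ≤ n) (g : ZMod n → ℕ) :
    ∑ a, ∑ v ∈ win a m, g v = m * ∑ v, g v := by
  simp only [sum_win _ hm]
  have e : ∀ c : ZMod n, ∑ x, g (x + c) = ∑ v, g v := fun c =>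
    Equiv.sum_comp (Equiv.addRight c) g
  rw [sum_comm]
  simp [e]
lemma sum_crs (u v : ZMod n) : ∑ t, crs t u v = lam u v := by
  have := card_win u (lam_lt u v).le
  rw [← this, win, card_filter]; rfl
lemma cross_add (M N : Mat (ZMod n)) (t : ZMod n) : cross (M + N) t = cross M t + cross N t :=
  wsum_add _ _ _
lemma Lam_add (M N : Mat (ZMod n)) : Lam (M + N) = Lam M + Lam N := wsum_add _ _ _
lemma Lam_E (a b : ZMod n) : Lam (E a b) = lam a b := wsum_E _ _ _
lemma Lam_eq_sum (M : Mat (ZMod n)) : Lam M = ∑ t, cross M t := by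
  unfold Lam cross
  rw [← wsum_fsum]
  exact wsum_congr fun u v _ => (sum_crs u v).symm
lemma cross_le_size (M : Mat (ZMod n)) (t : ZMod n) : cross M t ≤ size M := by
  rw [← wsum_one]; exact wsum_le fun u v _ => crs_le _ _ _
/-- the total length in the coordinate `lam a` -/
lemma Lam_coord (M : Mat (ZMod n)) (a : ZMod n) :
    Lam M + ∑ v, out M v * lam a v = ∑ v, inn M v * lam a v + cross M (a - 1) * n := by
  rw [← wsum_tail, ← wsum_head, Lam, ← wsum_fadd]
  have : cross M (a - 1) * n = wsum M fun u v => crs (a - 1) u v * n := by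
    simp only [cross, wsum, sum_mul, mul_assoc]
  rw [this, ← wsum_fadd]
  refine wsum_congr fun u v _ => ?_
  have := lam_coord a u v
  rw [crs_pred]; split_ifs <;> omega
lemma Lam_bal {M : Mat (ZMod n)} (h : Bal M) (t : ZMod n) : Lam M = n * cross M t := by
  have h1 := Lam_coord M (t + 1)
  rw [add_sub_cancel_right, sum_congr rfl fun v _ => by rw [h v]] at h1
  rw [mul_comm]; omega
lemma cross_bal {M : Mat (ZMod n)} (h : Bal M) (s t : ZMod n) : cross M s = cross M t :=
  Nat.eq_of_mul_eq_mul_left (NeZero.pos n) ((Lam_bal h s).symm.trans (Lam_bal h t))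
lemma back_lam {M : Mat (ZMod n)} (h : ∀ v, M v v = 0) (a : ZMod n) :
    back M (lam a) = cross M (a - 1) := by
  rw [back_eq]
  refine wsum_congr fun u v h0 => ?_
  have : lam a u ≠ lam a v := fun he => h0 (by rw [lam_inj he, h])
  rw [crs_pred]; split_ifs <;> omega
/-- equality in the sub-additive bound -/
lemma Rt.cross_eq {P Q : Mat (ZMod n)} (h : Rt P Q) (hl : Lam P ≤ Lam Q) (t : ZMod n) :
    cross P t = cross Q t := by
  have h1 : ∀ s ∈ (univ : Finset (ZMod n)), cross Q s ≤ cross P s := fun s _ =>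
    h.sub _ (subAdd_crs s)
  rw [Lam_eq_sum, Lam_eq_sum] at hl
  exact ((sum_eq_sum_iff_of_le h1).1 (le_antisymm (sum_le_sum h1) hl) t (mem_univ t)).symm

lemma out_eq_range (M : Mat (ZMod n)) (v : ZMod n) : out M v = ∑ i ∈ range n, M v (v + i) :=
  sum_lam v _
lemma inn_eq_range (M : Mat (ZMod n)) (v : ZMod n) : inn M v = ∑ i ∈ range n, M (v - i) v :=
  sum_lam' v fun u => M u v
omit [NeZero n] in
lemma aux_miss {k : ℕ} (hk : k < n) (f : ℕ → ℕ) (h1 : ∀ d, f d ≤ 1)
    (h2 : ∀ d < n, f d ≠ 0 → 1 ≤ d ∧ d ≤ k) :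
    ∑ i ∈ range n, f i + ((Icc 1 k).filter fun d => f d = 0).card = k := by
  have e : ∑ i ∈ range n, f i = ∑ i ∈ Icc 1 k, f i := by
    symm
    refine sum_subset (fun i hi => mem_range.2 (by have := mem_Icc.1 hi; omega)) ?_
    intro i hi hi'
    by_contra h0
    exact hi' (mem_Icc.2 (h2 i (mem_range.1 hi) h0))
  rw [e, card_filter, ← sum_add_distrib, sum_congr rfl (g := fun _ => 1)]
  · simp only [sum_const, Nat.card_Icc, add_tsub_cancel_right, smul_eq_mul, mul_one]
  · intro d _; have := h1 d; split_ifs <;> omega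
lemma Ideal.out_mo {k : ℕ} {B : Mat (ZMod n)} (h : Ideal k B) (hk : k < n) (v : ZMod n) :
    out B v + mo B 1 k v = k := by
  rw [out_eq_range]
  exact aux_miss hk (fun d => B v (v + d)) (fun _ => (h _ _).1) fun d hd h0 => by
    have := (h _ _).2 h0; rwa [lam_add_nat v hd] at this
lemma Ideal.inn_mi {k : ℕ} {B : Mat (ZMod n)} (h : Ideal k B) (hk : k < n) (v : ZMod n) :
    inn B v + mi B 1 k v = k := by
  rw [inn_eq_range]
  exact aux_miss hk (fun d => B (v - d) v) (fun _ => (h _ _).1) fun d hd h0 => by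
    have := (h _ _).2 h0; rwa [lam_sub_nat v hd] at this
omit [NeZero n] in
lemma Ideal.anti {k : ℕ} {B B' : Mat (ZMod n)} (h : Ideal k B) (hB : B' ≤ B) : Ideal k B' :=
  fun u v => ⟨(hB u v).trans (h u v).1, fun h0 => (h u v).2 (ne_of_le hB h0)⟩
omit [NeZero n] in
lemma Off.anti {M N : Mat (ZMod n)} {Ω : Finset (ZMod n)} (h : Off N Ω) (hM : M ≤ N) : Off M Ω :=
  fun u v h0 => h u v (ne_of_le hM h0)
omit [NeZero n] in
lemma Off.add {M N : Mat (ZMod n)} {Ω : Finset (ZMod n)} (h : Off M Ω) (h' : Off N Ω) :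
    Off (M + N) Ω := fun u v h0 => by
  by_cases h1 : M u v = 0
  · exact h' u v (by simpa [h1] using h0)
  · exact h u v h1
omit [NeZero n] in
lemma mo_sub (B : Mat (ZMod n)) {p q p' q' : ℕ} (hp : p' ≤ p) (hq : q ≤ q') (v : ZMod n) :
    mo B p q v ≤ mo B p' q' v :=
  card_le_card (filter_subset_filter _ (Icc_subset_Icc hp hq))
omit [NeZero n] in
lemma mi_sub (B : Mat (ZMod n)) {p q p' q' : ℕ} (hp : p' ≤ p) (hq : q ≤ q') (v : ZMod n) :
    mi B p q v ≤ mi B p' q' v :=
  card_le_card (filter_subset_filter _ (Icc_subset_Icc hp hq))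
omit [NeZero n] in
lemma aux_rem {p q : ℕ} (hq : q < n) (f g : ℕ → ℕ) :
    ((Icc p q).filter fun d => f d = 0).card ≤
      ((Icc p q).filter fun d => f d + g d = 0).card + ∑ i ∈ range n, g i := by
  have : ∑ i ∈ Icc p q, g i ≤ ∑ i ∈ range n, g i :=
    sum_le_sum_of_subset fun i hi => mem_range.2 (by have := mem_Icc.1 hi; omega)
  refine le_trans ?_ (Nat.add_le_add_left this _)
  rw [card_filter, card_filter, ← sum_add_distrib]
  exact sum_le_sum fun d _ => by split_ifs <;> omega
lemma mo_rem (B P : Mat (ZMod n)) (p : ℕ) {q : ℕ} (hq : q < n) (v : ZMod n) :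
    mo B p q v ≤ mo (B + P) p q v + out P v := by
  rw [out_eq_range]; exact aux_rem hq (fun d => B v (v + d)) fun d => P v (v + d)
lemma mi_rem (B P : Mat (ZMod n)) (p : ℕ) {q : ℕ} (hq : q < n) (v : ZMod n) :
    mi B p q v ≤ mi (B + P) p q v + inn P v := by
  rw [inn_eq_range]; exact aux_rem hq (fun d => B (v - d) v) fun d => P (v - d) v

/-- ballot condition at a vertex of a locally optimal order -/
lemma ballot {M : Mat (ZMod n)} (hl : ∀ v, M v v = 0) {v : ZMod n} {j : ℕ} (hj : j < n)
    (h : OptAt M v (j + 1)) : ∑ y ∈ win (v + 1) j, M y v ≤ ∑ x ∈ win (v + 1) j, M v x := by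
  have key := h fun u => if u = v then n else lam v u
  have hw : win v (j + 1) = insert v (win (v + 1) j) := by
    ext u
    rw [mem_insert, mem_win, mem_win]
    by_cases hu : u = v
    · simp [hu, lam_self]
    · have h1 : n ≠ 1 := by rintro rfl; exact hu (Subsingleton.elim _ _)
      have h2 : lam v (v + 1) = 1 := by
        simpa using lam_add_nat v (d := 1) (by have := NeZero.pos n; omega)
      have h3 := lam_coord v (v + 1) u
      have h4 : lam v u ≠ 0 := fun h0 => hu (lam_eq_zero.1 h0).symm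
      simp only [hu, false_or]; omega
  have hv : v ∉ win (v + 1) j := by
    intro hv
    have := card_win v (m := j + 1) hj
    rw [hw, insert_eq_of_mem hv] at this
    have := card_win_le (v + 1) j
    omega
  have e : ∀ ρ : ZMod n → ℕ, back (res M (win v (j + 1))) ρ =
      ∑ u ∈ win v (j + 1), ∑ x ∈ win v (j + 1), if ρ x ≤ ρ u then M u x else 0 := by
    intro ρ
    unfold back res
    symm
    refine (sum_congr rfl fun u hu => ?_).trans (sum_subset (subset_univ _) fun u _ hu => ?_)
    · refine (sum_congr rfl fun x hx => by simp [hu, hx]).trans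
        (sum_subset (subset_univ _) fun x _ hx => by simp [hx])
    · simp [hu]
  rw [e, e, hw] at key
  simp only [sum_insert hv, sum_add_distrib, hl, ite_self, zero_add, lam_self, Nat.zero_le,
    if_true] at key
  have a1 : ∀ u ∈ win (v + 1) j, u ≠ v := fun u hu he => hv (he ▸ hu)
  have e1 : ∑ x ∈ win (v + 1) j, (if (if x = v then n else lam v x) ≤ n then M v x else 0) =
      ∑ x ∈ win (v + 1) j, M v x := sum_congr rfl fun x hx => by
    rw [if_neg (a1 x hx), if_pos (lam_lt v x).le]
  have e2 : ∑ u ∈ win (v + 1) j, (if n ≤ (if u = v then n else lam v u) then M u v else 0) = 0 :=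
    sum_eq_zero fun u hu => by rw [if_neg (a1 u hu), if_neg (not_le.2 (lam_lt v u))]
  have e3 : ∑ u ∈ win (v + 1) j, ∑ x ∈ win (v + 1) j, (if (if x = v then n else lam v x) ≤
      (if u = v then n else lam v u) then M u x else 0) =
      ∑ u ∈ win (v + 1) j, ∑ x ∈ win (v + 1) j, (if lam v x ≤ lam v u then M u x else 0) :=
    sum_congr rfl fun u hu => sum_congr rfl fun x hx => by rw [if_neg (a1 u hu), if_neg (a1 x hx)]
  rw [e1, e2, e3] at key
  omega

end cyc

end Pool.Agent.MP_2634a8_co.X
end
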