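import Mathlib
import Pool.Agent.MP_2634a8_co.Y.Core

attribute [-instance] Fintype.decidableForallFintype DivisionRing.toRing AddQuantale.instAddLeftMono
  instCharZeroOfIsSemireal Finset.decidableDforallFinset Pi.addCommGroup littleWedderburn
  Multiset.decidableDforallMultiset Int.decidableLTLE
  Vector.instDecidableForallForallMemOfDecidablePred
  Array.instDecidableForallForallMemOfDecidablePred Group.IsPerfect.subsingleton_of_isMulCommutative
  Option.decidableForallMem NumberField.to_charZero Pi.addGroup RCLike.charZero_rclike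
  RKHS.instFunLike IdemSemiring.toCanonicallyOrderedAdd Int.decidableLTLT Int.decidableLELE
  Int.decidableLELT NeZero.of_gt' IdemSemiring.toSemiring

section
namespace Pool.Agent.MP_2634a8_co.X.CLEAN

open Finset

variable {n : ℕ} [NeZero n]

/-- weight of the missing ideal out-pairs at `u` -/
def msO (sm : Bool) (k : ℕ) (G : Mat (ZMod n)) (u : ZMod n) : ℕ :=
  ∑ d ∈ (Icc 1 k : Finset ℕ),
    if nc sm u (u + (d : ZMod n)) ∧ G u (u + (d : ZMod n)) = 0 then k - d else 0
/-- weight of the missing ideal in-pairs at `v` -/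
def msI (sm : Bool) (k : ℕ) (G : Mat (ZMod n)) (v : ZMod n) : ℕ :=
  ∑ d ∈ (Icc 1 k : Finset ℕ),
    if nc sm (v - (d : ZMod n)) v ∧ G (v - (d : ZMod n)) v = 0 then k - d else 0
/-- the item of a pair in `Miss` -/
def ms (sm : Bool) (k : ℕ) (G : Mat (ZMod n)) (u v : ZMod n) : ℕ :=
  if u ≠ v ∧ nc sm u v ∧ G u v = 0 then k - lam u v else 0
def Miss (sm : Bool) (k : ℕ) (G : Mat (ZMod n)) : ℕ := ∑ u, ∑ v, ms sm k G u v
def Far (k : ℕ) (G : Mat (ZMod n)) : ℕ := wsum G fun u v => lam u v - k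

lemma wt_eq (sm : Bool) (k : ℕ) (G : Mat (ZMod n)) (v : ZMod n) :
    wt sm k G v = msO sm k G v + msI sm k G v + ∑ x, G v x * min (lam v x - k) k +
      ∑ x, G x v * min (lam x v - k) k := by
  simp only [wt, msO, msI, sum_add_distrib, add_assoc]

omit [NeZero n] in
lemma aux_Icc {k : ℕ} (hk : k < n) (f : ℕ → ℕ) (h0 : f 0 = 0)
    (h1 : ∀ d, k < d → d < n → f d = 0) : ∑ d ∈ Icc 1 k, f d = ∑ d ∈ range n, f d := by
  refine sum_subset (fun i hi => mem_range.2 (by have := mem_Icc.1 hi; omega)) ?_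
  intro i hi hi'
  rw [mem_Icc] at hi'
  rcases Nat.eq_zero_or_pos i with rfl | h
  · exact h0
  · exact h1 i (by omega) (mem_range.1 hi)

lemma msO_eq (sm : Bool) {k : ℕ} (hk : k < n) (G : Mat (ZMod n)) (u : ZMod n) :
    msO sm k G u = ∑ v, ms sm k G u v := by
  rw [sum_lam u, ← aux_Icc hk (fun d => ms sm k G u (u + d)) (by simp [ms])
    (fun d hd h => by unfold ms; rw [lam_add_nat u h]; split_ifs <;> omega)]
  refine sum_congr rfl fun d hd => ?_
  have h := mem_Icc.1 hd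
  have h1 : d < n := by omega
  have h2 : u ≠ u + d := fun he => by
    have := lam_add_nat u h1
    rw [← he, lam_self] at this; omega
  simp only [ms, lam_add_nat u h1, h2, ne_eq, not_false_eq_true, true_and]

lemma msI_eq (sm : Bool) {k : ℕ} (hk : k < n) (G : Mat (ZMod n)) (v : ZMod n) :
    msI sm k G v = ∑ u, ms sm k G u v := by
  rw [sum_lam' v, ← aux_Icc hk (fun d => ms sm k G (v - d) v) (by simp [ms])
    (fun d hd h => by unfold ms; rw [lam_sub_nat v h]; split_ifs <;> omega)]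
  refine sum_congr rfl fun d hd => ?_
  have h := mem_Icc.1 hd
  have h1 : d < n := by omega
  have h2 : v - d ≠ v := fun he => by
    have := lam_sub_nat v h1
    rw [he, lam_self] at this; omega
  simp only [ms, lam_sub_nat v h1, h2, ne_eq, not_false_eq_true, true_and]

lemma Miss_eqO (sm : Bool) {k : ℕ} (hk : k < n) (G : Mat (ZMod n)) :
    Miss sm k G = ∑ u, msO sm k G u := sum_congr rfl fun u _ => (msO_eq sm hk G u).symm

lemma Miss_eqI (sm : Bool) {k : ℕ} (hk : k < n) (G : Mat (ZMod n)) :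
    Miss sm k G = ∑ v, msI sm k G v := by
  rw [Miss, sum_comm]; exact sum_congr rfl fun v _ => (msI_eq sm hk G v).symm

omit [NeZero n] in
lemma aux_row {k : ℕ} (hk : k < n) (g : ℕ → ℕ) (h0 : g 0 = 0) (h1 : ∀ d, g d ≤ 1) :
    ∑ d ∈ range n, g d * d + k * k = ∑ d ∈ Icc 1 k, d +
      ∑ d ∈ Icc 1 k, (if g d = 0 then k - d else 0) + ∑ d ∈ range n, g d * (d - k) +
      k * ∑ d ∈ range n, g d := by
  have e1 : k * k = ∑ d ∈ range n, if 1 ≤ d ∧ d ≤ k then k else 0 := by
    rw [← aux_Icc hk (fun d => if 1 ≤ d ∧ d ≤ k then k else 0) (by simp)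
      (fun d hd _ => if_neg (by omega)), sum_congr rfl fun d hd => if_pos (mem_Icc.1 hd)]
    simp only [sum_const, Nat.card_Icc, add_tsub_cancel_right, smul_eq_mul]
  have e2 : ∑ d ∈ Icc 1 k, d + ∑ d ∈ Icc 1 k, (if g d = 0 then k - d else 0) =
      ∑ d ∈ range n, if 1 ≤ d ∧ d ≤ k then d + (if g d = 0 then k - d else 0) else 0 := by
    rw [← aux_Icc hk (fun d => if 1 ≤ d ∧ d ≤ k then d + (if g d = 0 then k - d else 0) else 0)
      (by simp) (fun d hd _ => if_neg (by omega)),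
      sum_congr rfl fun d hd => if_pos (mem_Icc.1 hd), sum_add_distrib]
  rw [e1, e2, mul_sum, ← sum_add_distrib, ← sum_add_distrib, ← sum_add_distrib]
  refine sum_congr rfl fun d _ => ?_
  rcases Nat.eq_zero_or_pos d with rfl | hd
  · simp [h0]
  · clear e1 e2
    rcases Nat.le_one_iff_eq_zero_or_eq_one.1 (h1 d) with h | h <;>
      simp only [h, zero_mul, one_mul, mul_zero, mul_one] <;> by_cases hc : d ≤ k <;>
      simp only [show 1 ≤ d from hd, hc, and_self, ↓ reduceIte, zero_add, add_tsub_cancel_of_le, add_zero, and_false, one_ne_zero, Nat.sub_eq_zero_of_le, Nat.add_left_cancel_iff] <;> omega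

lemma two_sum_Icc (k : ℕ) : 2 * ∑ d ∈ Icc 1 k, d = k * (k + 1) := by
  induction k with
  | zero => simp
  | succ k ih => rw [sum_Icc_succ_top (by omega), mul_add, ih]; ring

lemma CC_eq (k : ℕ) : CC k = (∑ d ∈ Icc 1 k, d : ℕ) := by
  have := congrArg (Nat.cast : ℕ → ℝ) (two_sum_Icc k)
  push_cast at this
  unfold CC; push_cast; linarith

lemma row (sm : Bool) {k : ℕ} (hk : k < n) {G : Mat (ZMod n)} (hs : Simple G) (u : ZMod n)
    (hd : out G u ≤ k) : ∑ d ∈ Icc 1 k, d + ∑ v, ms sm k G u v + ∑ v, G u v * (lam u v - k) ≤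
      ∑ v, G u v * lam u v + k * (k - out G u) := by
  have h := aux_row hk (fun d => G u (u + d)) (by simpa using hs.2 u) fun d => hs.1 _ _
  have e1 : ∑ v, G u v * lam u v = ∑ d ∈ range n, G u (u + d) * d := by
    rw [sum_lam u]; exact sum_congr rfl fun d hd => by rw [lam_add_nat u (mem_range.1 hd)]
  have e2 : ∑ v, G u v * (lam u v - k) = ∑ d ∈ range n, G u (u + d) * (d - k) := by
    rw [sum_lam u]; exact sum_congr rfl fun d hd => by rw [lam_add_nat u (mem_range.1 hd)]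
  have e3 : msO sm k G u ≤ ∑ d ∈ Icc 1 k, if G u (u + (d : ℕ)) = 0 then k - d else 0 :=
    sum_le_sum fun d _ => by split_ifs <;> simp_all
  rw [← out_eq_range] at h
  rw [e1, e2, ← msO_eq sm hk]
  obtain ⟨c, hc⟩ := Nat.exists_eq_add_of_le hd
  have e4 : k * k = k * out G u + k * (k - out G u) := by
    rw [← mul_add]; congr 1; omega
  omega

lemma card_not_deep (k : ℕ) : (univ.filter fun v : ZMod n => ¬ deep true k v).card ≤ 2 * k := by
  have h : (univ.filter fun v : ZMod n => ¬ deep true k v) ⊆ win 0 k ∪ win (0 - (k : ZMod n)) k := by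
    intro v hv
    rw [mem_filter] at hv
    rw [mem_union, mem_win, mem_win, lam_zero]
    by_contra hc
    push Not at hc
    apply hv.2
    intro _
    refine ⟨hc.1, ?_⟩
    have hv := ZMod.val_lt v
    have hk : k < n := by omega
    have h1 := lam_tri (0 - (k : ZMod n)) 0 v
    rw [lam_sub_nat 0 hk, lam_zero] at h1
    have h2 := lam_lt (0 - (k : ZMod n)) v
    omega
  have := card_win_le (0 : ZMod n) k
  have := card_win_le (0 - (k : ZMod n)) k
  have := (card_le_card h).trans (card_union_le _ _)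
  omega

/-- the budget, natural number form -/
lemma budget_nat (sm : Bool) {k : ℕ} (hk : k < n) {G : Mat (ZMod n)} (hs : Simple G)
    (hd : ∀ u, out G u ≤ k) : n * ∑ d ∈ Icc 1 k, d + Miss sm k G + Far k G ≤
      Lam G + k * dfc k G (univ.filter (deep sm k)) + if sm = true then 2 * k ^ 3 else 0 := by
  have h := sum_le_sum fun u (_ : u ∈ univ) => row sm hk hs u (hd u)
  simp only [sum_add_distrib, sum_const, card_univ, ZMod.card, smul_eq_mul, ← mul_sum] at h
  rw [← sum_filter_add_sum_filter_not univ (deep sm k) fun u => k - out G u, mul_add] at h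
  have h2 : k * ∑ u ∈ univ.filter (fun v : ZMod n => ¬ deep sm k v), (k - out G u) ≤
      if sm = true then 2 * k ^ 3 else 0 := by
    cases sm with
    | false => simp [deep]
    | true =>
      have h3 := sum_le_card_nsmul (univ.filter fun v : ZMod n => ¬ deep true k v)
        (fun u => k - out G u) k fun u _ => Nat.sub_le _ _
      have h4 := Nat.mul_le_mul_right k (card_not_deep (n := n) k)
      rw [smul_eq_mul] at h3
      rw [if_pos rfl]
      calc _ ≤ k * (2 * k * k) := Nat.mul_le_mul_left _ (h3.trans h4)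
        _ = _ := by ring
  have e1 : Far k G = ∑ x, ∑ v, G x v * (lam x v - k) := rfl
  have e2 : Lam G = ∑ x, ∑ v, G x v * lam x v := rfl
  have e3 : Miss sm k G = ∑ x, ∑ v, ms sm k G x v := rfl
  have e4 : dfc k G (univ.filter (deep sm k)) =
      ∑ u ∈ univ.filter (fun x => deep sm k x), (k - out G u) := rfl
  rw [e1, e2, e3, e4]
  omega

/-- the budget -/
theorem budget (sm : Bool) {k : ℕ} (hk : k < n) {G : Mat (ZMod n)} (hs : Simple G)
    (hd : ∀ u, out G u ≤ k) : n * CC k - k * dfc k G (univ.filter (deep sm k)) -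
      (if sm = true then 2 * (k : ℝ) ^ 3 else 0) + Miss sm k G + Far k G ≤ Lam G := by
  have h : ((n * ∑ d ∈ Icc 1 k, d + Miss sm k G + Far k G : ℕ) : ℝ) ≤
      (Lam G + k * dfc k G (univ.filter (deep sm k)) + if sm = true then 2 * k ^ 3 else 0 : ℕ) :=
    Nat.cast_le.2 (budget_nat sm hk hs hd)
  rw [CC_eq]
  rw [Nat.cast_add, Nat.cast_add, Nat.cast_add, Nat.cast_add, Nat.cast_mul, Nat.cast_mul,
    Nat.cast_ite] at h
  push_cast at h ⊢
  linarith only [h]

/-! ### tame vertices -/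

omit [NeZero n] in
lemma aux_cnt (k j : ℕ) (p : ℕ → Prop) [DecidablePred p] :
    j * ((Icc 1 (k - j)).filter p).card ≤ ∑ d ∈ Icc 1 k, if p d then k - d else 0 := by
  rw [card_filter, mul_sum]
  refine le_trans (sum_le_sum fun d hd => ?_)
    (sum_le_sum_of_subset (Icc_subset_Icc le_rfl (Nat.sub_le k j)))
  have := mem_Icc.1 hd
  split_ifs <;> omega

omit [NeZero n] in
lemma aux_cnt' (k j : ℕ) (p : ℕ → Prop) [DecidablePred p] :
    ((Icc 1 k).filter p).card ≤ ((Icc 1 (k - j)).filter p).card + j := by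
  have h : (Icc 1 k).filter p ⊆ (Icc 1 (k - j)).filter p ∪ Ioc (k - j) k := by
    intro d hd
    simp only [mem_filter, mem_union, mem_Icc, mem_Ioc] at hd ⊢
    by_cases h : d ≤ k - j
    · exact Or.inl ⟨⟨hd.1.1, h⟩, hd.2⟩
    · exact Or.inr ⟨by omega, hd.1.2⟩
  have := (card_le_card h).trans (card_union_le _ _)
  rw [Nat.card_Ioc] at this
  omega

variable (sm : Bool) (k : ℕ) (G : Mat (ZMod n)) (v : ZMod n)

lemma tameO (j : ℕ) : j * ((Icc 1 (k - j)).filter fun d : ℕ =>
    nc sm v (v + (d : ZMod n)) ∧ G v (v + (d : ZMod n)) = 0).card ≤ wt sm k G v := by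
  have := aux_cnt k j fun d : ℕ => nc sm v (v + (d : ZMod n)) ∧ G v (v + (d : ZMod n)) = 0
  rw [wt_eq]; unfold msO; omega

lemma tameI (j : ℕ) : j * ((Icc 1 (k - j)).filter fun d : ℕ =>
    nc sm (v - (d : ZMod n)) v ∧ G (v - (d : ZMod n)) v = 0).card ≤ wt sm k G v := by
  have := aux_cnt k j fun d : ℕ => nc sm (v - (d : ZMod n)) v ∧ G (v - (d : ZMod n)) v = 0
  rw [wt_eq]; unfold msI; omega

lemma tameO' (j : ℕ) : j * ((Icc 1 k).filter fun d : ℕ =>
    nc sm v (v + (d : ZMod n)) ∧ G v (v + (d : ZMod n)) = 0).card ≤ wt sm k G v + j * j :=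
  (Nat.mul_le_mul_left j (aux_cnt' k j _)).trans (by
    rw [mul_add]; exact Nat.add_le_add_right (tameO sm k G v j) _)

lemma tameI' (j : ℕ) : j * ((Icc 1 k).filter fun d : ℕ =>
    nc sm (v - (d : ZMod n)) v ∧ G (v - (d : ZMod n)) v = 0).card ≤ wt sm k G v + j * j :=
  (Nat.mul_le_mul_left j (aux_cnt' k j _)).trans (by
    rw [mul_add]; exact Nat.add_le_add_right (tameI sm k G v j) _)

lemma longO {j : ℕ} (hj : j ≤ k) :
    j * ∑ x, (if k + j ≤ lam v x then G v x else 0) ≤ wt sm k G v := by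
  have : j * ∑ x, (if k + j ≤ lam v x then G v x else 0) ≤ ∑ x, G v x * min (lam v x - k) k := by
    rw [mul_sum]
    refine sum_le_sum fun x _ => ?_
    split_ifs with h
    · rw [mul_comm]; exact Nat.mul_le_mul_left _ (by omega)
    · simp only [mul_zero, zero_le]
  rw [wt_eq]; omega

lemma longI {j : ℕ} (hj : j ≤ k) :
    j * ∑ x, (if k + j ≤ lam x v then G x v else 0) ≤ wt sm k G v := by
  have : j * ∑ x, (if k + j ≤ lam x v then G x v else 0) ≤ ∑ x, G x v * min (lam x v - k) k := by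
    rw [mul_sum]
    refine sum_le_sum fun x _ => ?_
    split_ifs with h
    · rw [mul_comm]; exact Nat.mul_le_mul_left _ (by omega)
    · simp only [mul_zero, zero_le]
  rw [wt_eq]; omega

/-! ### global counts -/

lemma sum_far_aux (u x : ZMod n) :
    ∑ t, (if k ≤ lam u t ∧ lam u t < lam u x then 1 else 0) = lam u x - k := by
  rw [sum_lam u, sum_congr rfl fun d hd => by rw [lam_add_nat u (mem_range.1 hd)],
    ← card_filter, ← Nat.card_Ico]
  congr 1
  ext d
  have := lam_lt u x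
  simp only [mem_filter, mem_range, mem_Ico]
  omega

lemma Far_eq : Far k G = ∑ t, far k G t := by
  unfold Far far
  rw [← wsum_fsum]
  exact wsum_congr fun u x _ => (sum_far_aux k u x).symm

lemma Far_le {x : ℝ} (h : ∀ t, (far k G t : ℝ) ≤ x) : (Far k G : ℝ) ≤ n * x := by
  rw [Far_eq]; push_cast
  simpa only [card_univ, ZMod.card, nsmul_eq_mul] using sum_le_card_nsmul univ (fun t => (far k G t : ℝ)) x fun t _ => h t

/-- arcs of length at least `k + j` -/
lemma long_cnt (j : ℕ) :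
    j * wsum G (fun u x => if k + j ≤ lam u x then 1 else 0) ≤ Far k G := by
  unfold Far wsum
  rw [mul_sum]
  refine sum_le_sum fun u _ => ?_
  rw [mul_sum]
  refine sum_le_sum fun x _ => ?_
  beta_reduce
  split_ifs with h
  · rw [mul_one, mul_comm]; exact Nat.mul_le_mul_left _ (by omega)
  · simp

/-- the budget item of an ordered pair -/
def item (u x : ZMod n) : ℕ := ms sm k G u x + G u x * (lam u x - k)

lemma sum_item : ∑ u, ∑ x, item sm k G u x = Miss sm k G + Far k G := by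
  simp only [item, sum_add_distrib, Miss, Far, wsum]

lemma wt_le_item (hk : k < n) : wt sm k G v ≤ ∑ x, item sm k G v x + ∑ x, item sm k G x v := by
  have h1 : ∑ x, G v x * min (lam v x - k) k ≤ ∑ x, G v x * (lam v x - k) :=
    sum_le_sum fun x _ => Nat.mul_le_mul_left _ (min_le_left _ _)
  have h2 : ∑ x, G x v * min (lam x v - k) k ≤ ∑ x, G x v * (lam x v - k) :=
    sum_le_sum fun x _ => Nat.mul_le_mul_left _ (min_le_left _ _)
  rw [wt_eq, msO_eq sm hk, msI_eq sm hk]
  simp only [item, sum_add_distrib]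
  omega

/-- the weights in `S` are paid twice at most by the items that touch `S` -/
lemma sum_wt (hk : k < n) (S : Finset (ZMod n)) : ∑ v ∈ S, wt sm k G v ≤
    2 * ∑ u, ∑ x, if u ∈ S ∨ x ∈ S then item sm k G u x else 0 := by
  have h1 : ∑ v ∈ S, ∑ x, item sm k G v x ≤
      ∑ u, ∑ x, if u ∈ S ∨ x ∈ S then item sm k G u x else 0 :=
    le_trans (sum_le_sum fun u hu => sum_le_sum fun x _ => by rw [if_pos (Or.inl hu)])
      (sum_le_sum_of_subset (subset_univ S))
  have h2 : ∑ v ∈ S, ∑ x, item sm k G x v ≤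
      ∑ u, ∑ x, if u ∈ S ∨ x ∈ S then item sm k G u x else 0 := by
    rw [sum_comm]
    exact sum_le_sum fun u _ => le_trans (sum_le_sum fun x hx => by rw [if_pos (Or.inr hx)])
      (sum_le_sum_of_subset (subset_univ S))
  have h3 := sum_le_sum fun v (_ : v ∈ S) => wt_le_item sm k G v hk
  rw [sum_add_distrib] at h3
  omega

lemma card_inter_win (W : Finset (ZMod n)) (a : ZMod n) (p q : ℕ) :
    (W ∩ win a (p + q)).card ≤ (W ∩ win a p).card + (W ∩ win (a + (p : ZMod n)) q).card := by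
  refine le_trans (card_le_card ?_) (card_union_le _ _)
  intro x hx
  simp only [mem_union, mem_inter, mem_win] at hx ⊢
  by_cases h : lam a x < p
  · exact Or.inl ⟨hx.1, h⟩
  · have h1 := lam_lt a x
    have h2 := lam_tri a (a + (p : ZMod n)) x
    have h3 := lam_lt (a + (p : ZMod n)) x
    rw [lam_add_nat a (by omega)] at h2
    exact Or.inr ⟨hx.1, by omega⟩

/-- arcs from `v` into `W` -/
lemma toW (hs : ∀ u x, G u x ≤ 1) (W : Finset (ZMod n)) (L : ℕ) : ∑ x ∈ W, G v x ≤
    ∑ x, (if L ≤ lam v x then G v x else 0) + (W ∩ win v L).card := by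
  have h : ∀ x ∈ W, G v x ≤ (if L ≤ lam v x then G v x else 0) +
      if x ∈ win v L then 1 else 0 := fun x _ => by
    have := hs v x
    simp only [mem_win]; split_ifs <;> omega
  refine (sum_le_sum h).trans ?_
  rw [sum_add_distrib, ← card_filter, filter_mem_eq_inter]
  exact Nat.add_le_add_right (sum_le_sum_of_subset (subset_univ W)) _

/-- arcs from `W` into `v` -/
lemma fromW (hs : ∀ u x, G u x ≤ 1) (W : Finset (ZMod n)) {L : ℕ} (hL : L ≤ n) :
    ∑ x ∈ W, G x v ≤ ∑ x, (if L ≤ lam x v then G x v else 0) +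
      (W ∩ win (v + 1 - (L : ZMod n)) L).card := by
  have h : ∀ x ∈ W, G x v ≤ (if L ≤ lam x v then G x v else 0) +
      if x ∈ win (v + 1 - (L : ZMod n)) L then 1 else 0 := fun x _ => by
    have := hs x v
    simp only [mem_win]
    split_ifs with h1 h2 h2 <;> try omega
    exfalso
    have e : v + 1 - (L : ZMod n) = v - ((L - 1 : ℕ) : ZMod n) := by
      rw [Nat.cast_sub (by omega)]; push_cast; ring
    have h3 := lam_tri (v - ((L - 1 : ℕ) : ZMod n)) x v
    have h4 := lam_lt (v - ((L - 1 : ℕ) : ZMod n)) x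
    rw [lam_sub_nat v (by omega)] at h3
    rw [e] at h2
    omega
  refine (sum_le_sum h).trans ?_
  rw [sum_add_distrib, ← card_filter, filter_mem_eq_inter]
  exact Nat.add_le_add_right (sum_le_sum_of_subset (subset_univ W)) _

/-- wild vertices in a window -/
lemma wild_win {Ω0 W : Finset (ZMod n)} {x y : ℝ} (a : ZMod n)
    (h1 : (∑ v ∈ win a k \ Ω0, (wt sm k G v : ℝ)) ≤ y)
    (hW : ∀ v ∈ W, v ∉ Ω0 ∧ x ≤ wt sm k G v) : x * (W ∩ win a k).card ≤ y := by
  have h := card_nsmul_le_sum (W ∩ win a k) (fun v => (wt sm k G v : ℝ)) x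
    fun v hv => (hW v (mem_inter.1 hv).1).2
  rw [nsmul_eq_mul, mul_comm] at h
  refine h.trans (le_trans (sum_le_sum_of_subset_of_nonneg ?_ fun _ _ _ => by positivity) h1)
  intro v hv
  rw [mem_inter] at hv
  exact mem_sdiff.2 ⟨hv.2, (hW v hv.1).1⟩

end Pool.Agent.MP_2634a8_co.X.CLEAN
end

section
namespace Pool.Agent.MP_2634a8_co.X.CLEAN.A

open Finset

section gen
variable {V : Type} [Fintype V] [DecidableEq V]

def tr (M : Mat V) : Mat V := fun u v => M v u

lemma pack_tr : ∀ (s : ℕ) (M : Mat V), size M = s → Pack s (M + tr M)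
  | 0, _, _ => trivial
  | s + 1, M, h => by
    obtain ⟨a, b, hab⟩ : ∃ a b, M a b ≠ 0 := by
      by_contra h0
      push Not at h0
      simp only [size, out, h0, sum_const_zero, reduceCtorEq] at h
    obtain ⟨N, rfl⟩ := exists_add_E hab
    rw [size_add, size_E] at h
    refine ⟨E a b + E b a, N + tr N, ?_, fun h0 => ?_, fun u => ?_, pack_tr s N (by omega)⟩
    · funext u v
      simp only [tr, E, Pi.add_apply, and_comm (a := v = a)]; omega
    · have := congrFun (congrFun h0 a) b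
      simp [E] at this
    · simp only [out_add, inn_add, out_E, inn_E]; omega

omit [DecidableEq V] in
lemma wsum_tr (M : Mat V) (f : V → V → ℕ) : wsum (tr M) f = wsum M fun u v => f v u := sum_comm

omit [DecidableEq V] in
lemma bal_tr (M : Mat V) : Bal (M + tr M) := fun v => by
  rw [out_add, inn_add]; exact add_comm _ _

omit [DecidableEq V] in
lemma size_eq (M : Mat V) : size M = wsum M fun _ _ => 1 := (wsum_one M).symm

omit [DecidableEq V] in
lemma mul_size_le {M : Mat V} {c : ℕ} {f : V → V → ℕ} (h : ∀ u v, M u v ≠ 0 → c ≤ f u v) :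
    c * size M ≤ wsum M f := by
  rw [mul_comm, ← wsum_const]; exact wsum_le_wsum _ h

/-- vertices outside `U` are placed last -/
lemma back_last (G G2 R : Mat V) (hG : G = G2 + R) (h1 : ∀ u v, G u v ≤ 1) {J U : Finset V}
    (ρ : V → ℕ) : ∃ ρ' : V → ℕ, back (res G J) ρ' ≤
      back (res G2 U) ρ + ∑ u ∈ J, out R u + #J * #(J \ U) := by
  refine ⟨fun v => if v ∈ U then ρ v else univ.sup ρ + 1, ?_⟩
  have e1 : ∑ u ∈ J, out R u = ∑ u, ∑ v, if u ∈ J then R u v else 0 := by
    rw [← sum_filter_add_sum_filter_not univ (· ∈ J), filter_mem_eq_inter, univ_inter,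
      sum_eq_zero (s := filter _ _) fun u hu => by simp only [(mem_filter.1 hu).2, ↓ reduceIte, sum_const_zero], add_zero]
    exact sum_congr rfl fun u hu => by simp only [out, hu, ↓ reduceIte]
  have e2 : #J * #(J \ U) = ∑ u, ∑ v, if u ∈ J \ U ∧ v ∈ J then 1 else 0 := by
    simp only [ite_and, sum_ite_irrel, sum_const_zero, sum_ite_mem, univ_inter, sum_const,
      smul_eq_mul, mul_one, mul_comm]
  rw [e1, e2, back, back, ← sum_add_distrib, ← sum_add_distrib]
  refine sum_le_sum fun u _ => ?_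
  rw [← sum_add_distrib, ← sum_add_distrib]
  refine sum_le_sum fun v _ => ?_
  have a1 := h1 u v
  have a2 : G u v = G2 u v + R u v := by rw [hG]; rfl
  have a3 : ρ u ≤ univ.sup ρ := le_sup (mem_univ u)
  simp only [res, mem_sdiff]
  by_cases c1 : u ∈ J <;> by_cases c2 : v ∈ J <;> by_cases c3 : u ∈ U <;> by_cases c4 : v ∈ U <;>
    simp only [c1, c2, c3, c4, and_self, and_true, and_false, not_true, not_false_iff, if_true,
      if_false] <;> (try split_ifs) <;> omega

omit [DecidableEq V] in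
lemma sym_le (M : Mat V) {J U : Finset V} (h : U ⊆ J) :
    ∑ p ∈ U, ∑ q ∈ U, (M p q + M q p) ≤ 2 * ∑ p ∈ J, out M p := by
  have : ∑ p ∈ U, ∑ q ∈ U, M p q ≤ ∑ p ∈ J, out M p :=
    (sum_le_sum fun p _ => sum_le_sum_of_subset (subset_univ U)).trans
      (sum_le_sum_of_subset (f := fun p => out M p) h)
  simp only [sum_add_distrib]
  rw [sum_comm (s := U) (t := U) (f := fun p q => M q p)]
  omega

end gen

variable {n : ℕ} [NeZero n]

/-- a family of `r` local triangles -/
structure Val (m cap : ℕ) (T : Finset (ZMod n)) (G0 Tr : Mat (ZMod n)) (r : ℕ) : Prop where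
  le : Tr ≤ G0
  bal : Bal Tr
  pack : Pack r Tr
  sz : size Tr = 3 * r
  loc : ∀ u v, Tr u v ≠ 0 → u ∈ T ∧ v ∈ T ∧ (lam u v < m ∨ lam v u < m)
  cp : ∀ v, out Tr v ≤ cap
  bud : Lam Tr + (n - 2 * m) * r ≤
    n * r + wsum Tr fun y x => if lam x y < m then n - 2 * lam x y else 0
  cnt : r ≤ wsum Tr fun y x => if lam x y < m then 1 else 0

lemma max_tri (m cap : ℕ) (hm : 2 * m ≤ n) (T : Finset (ZMod n)) (G0 : Mat (ZMod n))
    (h0 : ∀ v, G0 v v = 0) : ∃ G2 Tr r, G0 = G2 + Tr ∧ Val m cap T G0 Tr r ∧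
      ∀ a, ∀ x ∈ win a m ∩ T, ∀ y ∈ win a m ∩ T, ∀ z ∈ win a m ∩ T, out Tr x < cap →
        out Tr y < cap → out Tr z < cap → G2 x y = 0 ∨ G2 y z = 0 ∨ G2 z x = 0 := by
  classical
  have hz : ∃ Tr, Val m cap T G0 Tr 0 := ⟨0, zero_le, bal_zero, trivial, size_zero, by simp,
    by simp [out_zero], by simp only [Lam, wsum_zero, mul_zero, add_zero, Std.le_refl], zero_le⟩
  obtain ⟨Tr, h⟩ := Nat.findGreatest_spec (P := fun r => ∃ Tr, Val m cap T G0 Tr r)
    (Nat.zero_le (size G0)) hz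
  set r := Nat.findGreatest (fun r => ∃ Tr, Val m cap T G0 Tr r) (size G0) with hr
  obtain ⟨G2, hG⟩ := exists_add h.le
  refine ⟨G2, Tr, r, hG, h, fun a x hx y hy z hz cx cy cz => ?_⟩
  by_contra hc
  simp only [not_or] at hc
  obtain ⟨c1, c2, c3⟩ := hc
  have hap : ∀ u v, G0 u v = G2 u v + Tr u v := fun u v => by rw [hG]; rfl
  have xy : x ≠ y := by rintro rfl; have := hap x x; have := h0 x; omega
  have yz : y ≠ z := by rintro rfl; have := hap y y; have := h0 y; omega
  have zx : z ≠ x := by rintro rfl; have := hap z z; have := h0 z; omega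
  simp only [mem_inter, mem_win] at hx hy hz
  have l1 := lam_coord a x y
  have l2 := lam_coord a y z
  have l3 := lam_coord a z x
  have r1 := lam_rev xy
  have r2 := lam_rev yz
  have r3 := lam_rev zx
  have n1 : lam a x ≠ lam a y := fun h => xy (lam_inj h)
  have n2 : lam a y ≠ lam a z := fun h => yz (lam_inj h)
  have n3 : lam a z ≠ lam a x := fun h => zx (lam_inj h)
  have hb : Bal (E x y + E y z + E z x) := fun u => by
    simp only [out_add, inn_add, out_E, inn_E]; omega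
  have hle : Tr + (E x y + E y z + E z x) ≤ G0 := fun u v => by
    have := hap u v
    simp only [Pi.add_apply, E]
    by_cases d1 : u = x ∧ v = y
    · obtain ⟨rfl, rfl⟩ := d1
      rw [if_pos ⟨rfl, rfl⟩, if_neg (by tauto), if_neg (by tauto)]; omega
    by_cases d2 : u = y ∧ v = z
    · obtain ⟨rfl, rfl⟩ := d2
      rw [if_neg d1, if_pos ⟨rfl, rfl⟩, if_neg (by tauto)]; omega
    by_cases d3 : u = z ∧ v = x
    · obtain ⟨rfl, rfl⟩ := d3
      rw [if_neg d1, if_neg d2, if_pos ⟨rfl, rfl⟩]; omega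
    rw [if_neg d1, if_neg d2, if_neg d3]; omega
  have hv : Val m cap T G0 (Tr + (E x y + E y z + E z x)) (r + 1) := by
    refine ⟨hle, bal_add h.bal hb, ⟨_, _, add_comm _ _, fun h => ?_, hb, h.pack⟩, ?_,
      fun u v h0 => ?_, fun v => ?_, ?_, ?_⟩
    · have := congrFun (congrFun h x) y
      simp [E] at this
    · simp only [size_add, size_E, h.sz]; ring
    · by_cases d : Tr u v = 0
      · have : E x y u v ≠ 0 ∨ E y z u v ≠ 0 ∨ E z x u v ≠ 0 := by
          simp only [Pi.add_apply] at h0; omega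
        rcases this with d | d | d <;> obtain ⟨rfl, rfl⟩ := E_ne_zero.1 d
        · exact ⟨hx.2, hy.2, by omega⟩
        · exact ⟨hy.2, hz.2, by omega⟩
        · exact ⟨hz.2, hx.2, by omega⟩
      · exact h.loc u v d
    · have := h.cp v
      simp only [out_add, out_E]
      by_cases d1 : v = x
      · subst d1; rw [if_pos rfl, if_neg xy, if_neg zx.symm]; omega
      by_cases d2 : v = y
      · subst d2; rw [if_neg d1, if_pos rfl, if_neg yz]; omega
      by_cases d3 : v = z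
      · subst d3; rw [if_neg d1, if_neg d2, if_pos rfl]; omega
      rw [if_neg d1, if_neg d2, if_neg d3]; omega
    · have := h.bud
      simp only [Lam_add, Lam_E, wsum_add, wsum_E, mul_add, mul_one]
      split_ifs <;> omega
    · have := h.cnt
      simp only [wsum_add, wsum_E]
      split_ifs <;> omega
  have h1 := size_mono hle
  rw [hv.sz] at h1
  have := Nat.le_findGreatest (P := fun r => ∃ Tr, Val m cap T G0 Tr r) (m := r + 1)
    (n := size G0) (by omega) ⟨_, hv⟩
  omega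

/-- the count of the short back arcs that survive -/
lemma count (hcss : CSS_s) (δ : ℕ) (hδ : 1 ≤ δ) (hm : 2 * δ ≤ n) (G G2 R DA N : Mat (ZMod n))
    (T U : Finset (ZMod n)) (hU : U ⊆ T) (hs : Simple G) (hG : G = G2 + R) (hDA : DA ≤ G)
    (hD : ∀ y x, DA y x ≠ 0 → y ∈ T ∧ lam x y < δ)
    (hN : ∀ x ∈ T, ∀ y ∈ T, x ≠ y → lam x y < 2 * δ → G x y = 0 → G y x = 0 → N x y ≠ 0)
    (h2 : ∀ a, ∀ x ∈ win a (2 * δ) ∩ U, ∀ y ∈ win a (2 * δ) ∩ U, G2 x y = 0 ∨ G2 y x = 0)
    (h3 : ∀ a, ∀ x ∈ win a (2 * δ) ∩ U, ∀ y ∈ win a (2 * δ) ∩ U, ∀ z ∈ win a (2 * δ) ∩ U,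
      G2 x y = 0 ∨ G2 y z = 0 ∨ G2 z x = 0)
    (hopt : ∀ a, (win a (2 * δ) ∩ T).Nonempty → ∀ ρ, back (res G (win a (2 * δ))) (lam a) ≤
      back (res G (win a (2 * δ))) ρ + 2 * δ * #(win a (2 * δ) \ T)) :
    size DA ≤ 2 * size N + 4 * size R + 4 * δ * (#Uᶜ + #Tᶜ) := by
  have hap : ∀ u v, G u v = G2 u v + R u v := fun u v => by rw [hG]; rfl
  have key : ∀ a, ∑ x ∈ win a δ, inn DA x ≤ ∑ p ∈ win a (2 * δ), (out N p + 2 * out R p +
      2 * δ * ((if p ∈ Uᶜ then 1 else 0) + if p ∈ Tᶜ then 1 else 0)) := by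
    intro a
    set J := win a (2 * δ) with hJ
    have pos : ∀ x ∈ win a δ, ∀ y, DA y x ≠ 0 → y ∈ J ∧ x ∈ J ∧ lam a x ≤ lam a y := by
      intro x hx y h0
      have := hD y x h0
      have := lam_tri a x y
      have := lam_lt a y
      simp only [hJ, mem_win] at hx ⊢
      omega
    by_cases h0 : ∑ x ∈ win a δ, inn DA x = 0
    · omega
    obtain ⟨x0, hx0, h0⟩ := exists_ne_zero_of_sum_ne_zero h0
    obtain ⟨y0, -, h0⟩ := exists_ne_zero_of_sum_ne_zero h0
    have b1 : ∑ x ∈ win a δ, inn DA x ≤ back (res G J) (lam a) := by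
      rw [back, sum_comm]
      refine (sum_le_sum fun x hx => sum_le_sum fun y _ => ?_).trans
        (sum_le_sum_of_subset (subset_univ _))
      by_cases h : DA y x = 0
      · omega
      · obtain ⟨c1, c2, c3⟩ := pos x hx y h
        simp only [res, c1, c2, c3, and_self, if_true]
        exact hDA y x
    obtain ⟨ρ, hρ⟩ := hcss _ G2 (J ∩ U) (simple_mono (le_iff_add.2 ⟨R, by rw [hG, add_comm]⟩) hs)
      (h2 a) (h3 a)
    obtain ⟨ρ', hρ'⟩ := back_last G G2 R hG hs.1 (J := J) (U := J ∩ U) ρ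
    have b2 := hopt a ⟨y0, mem_inter.2 ⟨(pos x0 hx0 y0 h0).1, (hD y0 x0 h0).1⟩⟩ ρ'
    have b3 : (∑ p ∈ J ∩ U, ∑ q ∈ J ∩ U, if p ≠ q ∧ G2 p q = 0 ∧ G2 q p = 0 then 1 else 0) ≤
        ∑ p ∈ J ∩ U, ∑ q ∈ J ∩ U, ((N + R) p q + (N + R) q p) := by
      refine sum_le_sum fun p hp => sum_le_sum fun q hq => ?_
      split_ifs with c
      · simp only [hJ, mem_inter, mem_win] at hp hq
        have := hN p (hU hp.2) q (hU hq.2) c.1
        have := hN q (hU hq.2) p (hU hp.2) c.1.symm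
        have := lam_coord a p q
        have := lam_rev c.1
        have := hap p q
        have := hap q p
        simp only [Pi.add_apply]
        omega
      · omega
    have b4 := b3.trans (sym_le (N + R) (J := J) (U := J ∩ U) inter_subset_left)
    have b5 : #J * #(J \ (J ∩ U)) ≤ 2 * δ * ∑ p ∈ J, if p ∈ Uᶜ then 1 else 0 := by
      refine Nat.mul_le_mul (card_win_le _ _) ?_
      rw [← card_filter]
      refine card_le_card fun p hp => ?_
      simp only [mem_sdiff, mem_inter, mem_filter, mem_compl] at hp ⊢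
      tauto
    have b6 : #(J \ T) = ∑ p ∈ J, if p ∈ Tᶜ then 1 else 0 := by
      rw [← card_filter]
      congr 1
      ext p; simp only [mem_sdiff, mem_filter, mem_compl]
    rw [← hJ, b6] at b2
    simp only [out_add, sum_add_distrib, ← mul_sum, mul_add] at b4 ⊢
    omega
  have h := sum_le_sum fun a (_ : a ∈ univ) => key a
  rw [sum_sum_win δ (by omega), sum_sum_win _ hm, ← size_inn] at h
  simp only [sum_add_distrib, ← mul_sum, ← card_filter, filter_mem_eq_inter, univ_inter] at h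
  refine Nat.le_of_mul_le_mul_left (h.trans (le_of_eq ?_)) (show 0 < δ by omega)
  unfold size
  ring

/-- STEP A: local digons and triangles are removed, the remaining short back arcs are paid -/
theorem stepA (hcss : CSS_s) (k δ cap : ℕ) (hk : 2 * k + 1 ≤ n) (hδ : 1 ≤ δ) (h52 : 52 * δ ≤ k)
    (h48 : 48 * δ ^ 2 ≤ k * cap) (G : Mat (ZMod n)) (T : Finset (ZMod n)) (hs : Simple G)
    (hopt : ∀ a, (win a (2 * δ) ∩ T).Nonempty → ∀ ρ, back (res G (win a (2 * δ))) (lam a) ≤
      back (res G (win a (2 * δ))) ρ + 2 * δ * #(win a (2 * δ) \ T)) :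
    ∃ G1 TT DA r, G = G1 + TT + DA ∧ Bal TT ∧ Pack r TT ∧ size TT ≤ 3 * r ∧
      r ≤ wsum TT (fun y x => if lam x y < 2 * δ then 1 else 0) ∧
      (∀ u v, TT u v ≠ 0 → u ∈ T ∧ v ∈ T ∧ (lam u v < 2 * δ ∨ lam v u < 2 * δ)) ∧
      (∀ y x, DA y x ≠ 0 → y ∈ T ∧ x ∈ T ∧ 1 ≤ lam x y ∧ lam x y < δ) ∧
      (∀ y ∈ T, ∀ x ∈ T, G1 y x ≠ 0 → δ ≤ lam x y) ∧
      (∀ v, out TT v ≤ cap + ∑ x, (if lam x v < 2 * δ then G v x else 0) +
        ∑ x, if lam v x < 2 * δ then G x v else 0) ∧
      Lam TT + n * size DA ≤ n * r + wsum (TT + DA) (fun u v => lam u v - k) +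
        (∑ u ∈ T, ∑ v ∈ T, if u ≠ v ∧ G u v = 0 ∧ lam u v < 2 * δ then k - lam u v else 0) +
        16 * δ ^ 2 * #Tᶜ := by
  have ne : ∀ u v, G u v ≠ 0 → u ≠ v := by rintro u v h rfl; exact h (hs.2 u)
  set Bk := part G fun y x => y ∈ T ∧ x ∈ T ∧ lam x y < 2 * δ ∧ G x y ≠ 0 with hBk
  have bk : ∀ y x, Bk y x ≠ 0 ↔ (y ∈ T ∧ x ∈ T ∧ lam x y < 2 * δ ∧ G x y ≠ 0) ∧ G y x ≠ 0 :=
    fun y x => part_ne_zero
  have bl : ∀ y x, Bk y x ≤ G y x := fun y x => by simp only [hBk, part]; split_ifs <;> omega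
  obtain ⟨G0, hG0⟩ : ∃ G0, G = G0 + (Bk + tr Bk) := by
    refine exists_add fun u v => ?_
    have := bl u v; have := bl v u; have := hs.1 u v; have := hs.1 v u
    have a1 := (bk u v).1; have a2 := (bk v u).1
    simp only [Pi.add_apply, tr]
    by_cases c : Bk v u = 0
    · omega
    · have := a2 c
      have := lam_rev (ne _ _ this.2)
      have : Bk u v = 0 := by
        by_contra c'
        have := a1 c'
        omega
      omega
  have ap0 : ∀ u v, G u v = G0 u v + (Bk u v + Bk v u) := fun u v => by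
    conv_lhs => rw [hG0]
    rfl
  have nod : ∀ u ∈ T, ∀ v ∈ T, lam u v < 2 * δ ∨ lam v u < 2 * δ → G0 u v ≠ 0 → G v u = 0 := by
    intro u hu v hv hl h0
    by_contra hc
    have := ap0 u v; have := hs.1 u v
    have a1 := (bk u v).2; have a2 := (bk v u).2
    have : G u v ≠ 0 := by omega
    rcases hl with hl | hl
    · have := a2 (by tauto); omega
    · have := a1 (by tauto); omega
  obtain ⟨G2, Tr, r, hG2, hv, hmax⟩ := max_tri (2 * δ) cap (by omega) T G0
    fun v => by have := ap0 v v; have := hs.2 v; omega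
  have ap2 : ∀ u v, G0 u v = G2 u v + Tr u v := fun u v => by rw [hG2]; rfl
  set DA := part G2 fun y x => y ∈ T ∧ x ∈ T ∧ lam x y < δ with hDA
  have da : ∀ y x, DA y x ≠ 0 ↔ (y ∈ T ∧ x ∈ T ∧ lam x y < δ) ∧ G2 y x ≠ 0 :=
    fun y x => part_ne_zero
  have dl : ∀ y x, DA y x ≤ G2 y x := fun y x => by simp only [hDA, part]; split_ifs <;> omega
  obtain ⟨G1, hG1⟩ := exists_add dl
  have ap1 : ∀ u v, G2 u v = G1 u v + DA u v := fun u v => by
    conv_lhs => rw [hG1]
    rfl
  set N : Mat (ZMod n) := fun x y => if x ∈ T ∧ y ∈ T ∧ x ≠ y ∧ lam x y < 2 * δ ∧ G x y = 0 ∧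
    G y x = 0 then 1 else 0 with hN
  set U := {v ∈ T | out Tr v < cap} with hU
  have hc := count hcss δ hδ (by omega) G G2 (Tr + (Bk + tr Bk)) DA N T U (filter_subset _ _) hs
    (by rw [← add_assoc, ← hG2, ← hG0])
    (fun u v => by have := ap0 u v; have := ap2 u v; have := dl u v; show DA u v ≤ G u v; omega)
    (fun y x h => ⟨((da y x).1 h).1.1, ((da y x).1 h).1.2.2⟩)
    (fun x hx y hy a b c d => by simp [hN, hx, hy, a, b, c, d])
    (fun a x hx y hy => by
      simp only [hU, mem_inter, mem_filter, mem_win] at hx hy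
      have := lam_coord a x y
      have := lam_coord a y x
      have := nod x hx.2.1 y hy.2.1 (by omega)
      have := ap0 y x; have := ap2 y x; have := ap2 x y
      omega)
    (fun a x hx y hy z hz => by
      simp only [hU, mem_inter, mem_filter] at hx hy hz
      exact hmax a x (mem_inter.2 ⟨hx.1, hx.2.1⟩) y (mem_inter.2 ⟨hy.1, hy.2.1⟩) z
        (mem_inter.2 ⟨hz.1, hz.2.1⟩) hx.2.2 hy.2.2 hz.2.2) hopt
  have szt : size (tr Bk) = size Bk := by rw [size_eq, wsum_tr, ← size_eq]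
  refine ⟨G1, Tr + (Bk + tr Bk), DA, size Bk + r, ?_, bal_add hv.bal (bal_tr _),
    pack_add _ _ _ _ hv.pack (pack_tr _ _ rfl), ?_, ?_, fun u v h0 => ?_, fun y x h => ?_,
    fun y hy x hx h => ?_, fun v => ?_, ?_⟩
  · conv_lhs => rw [hG0, hG2, hG1]
    abel
  · simp only [size_add, hv.sz, szt]; omega
  · have a1 := hv.cnt
    have a2 : 1 * size Bk ≤ wsum Bk fun y x => if lam x y < 2 * δ then 1 else 0 :=
      mul_size_le fun u v h => by rw [if_pos ((bk u v).1 h).1.2.2.1]
    simp only [wsum_add]; omega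
  · by_cases c : Tr u v = 0
    · have a1 := (bk u v).1; have a2 := (bk v u).1
      have : Bk u v ≠ 0 ∨ Bk v u ≠ 0 := by simp only [Pi.add_apply, tr] at h0; omega
      tauto
    · exact hv.loc u v c
  · obtain ⟨⟨a, b, c⟩, d⟩ := (da y x).1 h
    have := ap0 y x; have := ap2 y x
    have : lam x y ≠ 0 := fun h => ne y x (by omega) (lam_eq_zero.1 h).symm
    exact ⟨a, b, by omega, c⟩
  · by_contra hc
    have := ap1 y x
    have : DA y x = G2 y x := if_pos ⟨hy, hx, by omega⟩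
    omega
  · have a1 := hv.cp v
    have a2 : out Bk v ≤ ∑ x, (if lam x v < 2 * δ then G v x else 0) := sum_le_sum fun x _ => by
      have := (bk v x).1; have := bl v x
      split_ifs
      · omega
      · by_contra hc
        have : Bk v x ≠ 0 := by omega
        tauto
    have a3 : out (tr Bk) v ≤ ∑ x, (if lam v x < 2 * δ then G x v else 0) :=
      sum_le_sum fun x _ => by
        have := (bk x v).1; have := bl x v
        show Bk x v ≤ _
        split_ifs
        · omega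
        · by_contra hc
          have : Bk x v ≠ 0 := by omega
          tauto
    simp only [out_add]; omega
  set g : ZMod n → ZMod n → ℕ := fun y x => if lam x y < 2 * δ then k - lam x y else 0 with hg
  have lne : ∀ u v, G u v ≠ 0 → lam u v + lam v u = n := fun u v h => lam_rev (ne u v h)
  have e1 : Lam (Bk + tr Bk) = n * size Bk := by
    rw [Lam_add, Lam, Lam, wsum_tr, ← wsum_fadd, mul_comm, ← wsum_const]
    exact wsum_congr fun u v h => lne u v ((bk u v).1 h).2
  have e2 : (k - 2 * δ) * size Bk ≤ wsum Bk fun u v => lam u v - k := mul_size_le fun u v h => by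
    have := (bk u v).1 h; have := lne u v this.2; omega
  have e3 : (wsum Tr fun y x => if lam x y < 2 * δ then n - 2 * lam x y else 0) ≤
      wsum Tr (fun u v => lam u v - k) + wsum Tr g := by
    rw [← wsum_fadd]
    refine wsum_le fun u v h => ?_
    have := ap0 u v; have := ap2 u v
    have := lne u v (by omega)
    simp only [hg]; split_ifs <;> omega
  have e4 : n * size DA ≤ wsum DA (fun u v => lam u v - k) + wsum DA g + size DA * (2 * δ) := by
    rw [← wsum_fadd, ← wsum_const, ← wsum_fadd]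
    refine mul_size_le fun u v h => ?_
    have := (da u v).1 h
    have := ap0 u v; have := ap2 u v
    have := lne u v (by omega)
    simp only [hg]; split_ifs <;> omega
  have e5 : (k - 2 * δ) * size N ≤ wsum N fun u v => k - lam u v := mul_size_le fun u v h => by
    simp only [hN] at h
    split_ifs at h with c
    · omega
    · exact absurd rfl h
  have e6 : wsum N (fun u v => k - lam u v) + wsum (Tr + DA) g ≤
      ∑ u ∈ T, ∑ v ∈ T, if u ≠ v ∧ G u v = 0 ∧ lam u v < 2 * δ then k - lam u v else 0 := by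
    have : (∑ u ∈ T, ∑ v ∈ T, if u ≠ v ∧ G u v = 0 ∧ lam u v < 2 * δ then k - lam u v else 0) =
        ∑ u, ∑ v, if u ∈ T ∧ v ∈ T then
          (if u ≠ v ∧ G u v = 0 ∧ lam u v < 2 * δ then k - lam u v else 0) else 0 := by
      simp only [ite_and (_ ∈ T), sum_ite_irrel, sum_const_zero, sum_ite_mem, univ_inter]
    rw [this, wsum, wsum, sum_comm (f := fun u v => (Tr + DA) u v * g u v), ← sum_add_distrib]
    refine sum_le_sum fun x _ => ?_
    rw [← sum_add_distrib]
    refine sum_le_sum fun y _ => ?_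
    have a0 := ap0 y x; have a2 := ap2 y x; have a1 := ap1 y x; have a3 := hs.1 y x
    by_cases c : Tr y x + DA y x = 0
    · simp only [Pi.add_apply, c, hN, zero_mul, add_zero]
      split_ifs <;> first | omega | tauto
    · have b1 : y ∈ T ∧ x ∈ T := by
        have := hv.loc y x; have := (da y x).1
        have : Tr y x ≠ 0 ∨ DA y x ≠ 0 := by omega
        tauto
      have b2 : G y x ≠ 0 := by omega
      have b3 : Tr y x + DA y x = 1 := by omega
      have b4 := nod y b1.1 x b1.2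
      have b5 := (ne _ _ b2).symm
      simp only [Pi.add_apply, b3, hN, hg, b2, b1.1, b1.2, and_false, if_false, zero_mul,
        zero_add, one_mul, and_self, if_true]
      split_ifs with d1 d2
      · omega
      · exact absurd ⟨b5, b4 (Or.inr d1) (by omega), d1⟩ d2
      · omega
      · omega
  have s1 : #Uᶜ ≤ #Tᶜ + #{v | cap ≤ out Tr v} := (card_le_card fun v hv => by
    simp only [hU, mem_compl, mem_filter, mem_union, mem_univ, true_and] at hv ⊢
    by_cases c : v ∈ T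
    · exact Or.inr (by by_contra h; exact hv ⟨c, by omega⟩)
    · exact Or.inl c).trans (card_union_le _ _)
  have s2 : #{v | cap ≤ out Tr v} * cap ≤ 3 * r := by
    rw [← hv.sz, ← smul_eq_mul]
    exact (card_nsmul_le_sum _ _ _ fun v hv => (mem_filter.1 hv).2).trans
      (sum_le_sum_of_subset (subset_univ _))
  have e0 := hv.bud
  simp only [size_add, hv.sz, szt] at hc
  rw [Lam_add, e1]
  simp only [wsum_add] at e6 ⊢
  generalize #{v | cap ≤ out Tr v} = S at s1 s2
  have f1 : 16 * (δ ^ 2 * S) ≤ k * r := by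
    have := Nat.mul_le_mul_right S h48
    have := Nat.mul_le_mul_left k s2
    nlinarith
  have f2 : size DA * (2 * δ) ≤ 4 * (δ * size N) + 24 * (δ * r) + 16 * (δ * size Bk) +
      8 * (δ ^ 2 * S) + 16 * δ ^ 2 * #Tᶜ := by
    have := Nat.mul_le_mul_right (2 * δ) (hc.trans (Nat.add_le_add_left
      (Nat.mul_le_mul_left (4 * δ) (Nat.add_le_add_right s1 _)) _))
    refine this.trans (le_of_eq ?_)
    ring
  have f3 : 4 * δ * size N ≤ (k - 2 * δ) * size N := Nat.mul_le_mul_right _ (by omega)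
  have f4 : 16 * δ * size Bk ≤ (k - 2 * δ) * size Bk := Nat.mul_le_mul_right _ (by omega)
  have f5 : (48 * δ + k) * r ≤ 2 * (n - 2 * (2 * δ)) * r := Nat.mul_le_mul_right _ (by omega)
  rw [add_mul] at f5
  simp only [mul_assoc, mul_add] at f2 f3 f4 f5 e0 ⊢
  omega

end Pool.Agent.MP_2634a8_co.X.CLEAN.A
end

section
namespace Pool.Agent.MP_2634a8_co.X.CLEAN.B

open Finset

/-- Hall's theorem with deficiency for a nearly complete chain graph -/
lemma match1 {α : Type} [DecidableEq α] (Y A : Finset α) (p : α → ℕ) (good : α → α → Prop)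
    (b e : ℕ)
    (hb : ∀ j, #{y ∈ Y | p y ≤ j} ≤ #{x ∈ A | p x ≤ j} + e)
    (hbad : ∀ A' ⊆ A, ∀ S ⊆ Y, (∀ x ∈ A', ∀ y ∈ S, p x ≤ p y ∧ ¬ good y x) → b ≤ #A' →
      b ≤ #S → False) :
    ∃ Y' ⊆ Y, ∃ f : α → α, Set.InjOn f Y' ∧
      (∀ y ∈ Y', f y ∈ A ∧ p (f y) ≤ p y ∧ good y (f y)) ∧ #Y ≤ #Y' + (2 * b + e) := by
  classical
  set N : α → Finset α := fun y => {x ∈ A | p x ≤ p y ∧ good y x} with hN
  have hall : ∀ S ⊆ Y, #S ≤ #(S.biUnion N) + (2 * b + e) := by
    intro S hS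
    by_contra hc
    have hb0 : 1 ≤ b := by
      by_contra h0
      exact hbad ∅ (empty_subset _) ∅ (empty_subset _) (by simp) (by simp; omega)
        (by simp; omega)
    have hex : ∃ j, #{y ∈ S | j < p y} < b := ⟨S.sup p, by
      rw [filter_false_of_mem fun y hy => not_lt.2 (le_sup hy)]; simp; omega⟩
    have hj := Nat.find_spec hex
    set j := Nat.find hex with hjd
    have htop : b ≤ #{y ∈ S | j ≤ p y} := by
      rcases Nat.eq_zero_or_pos j with h0 | h0
      · rw [filter_true_of_mem fun y _ => by omega]; omega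
      · have := Nat.find_min hex (m := j - 1) (by omega)
        rw [not_lt] at this
        refine this.trans (card_le_card fun y hy => ?_)
        simp only [mem_filter] at hy ⊢
        exact ⟨hy.1, by omega⟩
    have h1 : #{y ∈ S | p y ≤ j} + #{y ∈ S | j < p y} = #S := by
      have := card_filter_add_card_filter_not (s := S) (fun y => p y ≤ j)
      simpa only [not_le] using this
    have h2 : #{y ∈ S | p y ≤ j} ≤ #{y ∈ Y | p y ≤ j} :=
      card_le_card (filter_subset_filter _ hS)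
    have h3 := hb j
    have h4 := le_card_sdiff (S.biUnion N) {x ∈ A | p x ≤ j}
    refine hbad ({x ∈ A | p x ≤ j} \ S.biUnion N) (sdiff_subset.trans (filter_subset _ _))
      {y ∈ S | j ≤ p y} ((filter_subset _ _).trans hS) (fun x hx y hy => ?_) (by omega) htop
    simp only [mem_sdiff, mem_filter, mem_biUnion, hN, not_exists, not_and] at hx hy
    exact ⟨by omega, hx.2 y hy.1 hx.1.1 (by omega)⟩
  set D := 2 * b + e with hD
  obtain ⟨g, hg, hg2⟩ := (all_card_le_biUnion_card_iff_exists_injective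
    (fun y : Y => (N y).disjSum (range D))).1 (fun s => by
      rcases s.eq_empty_or_nonempty with rfl | ⟨y0, hy0⟩
      · simp
      have h1 := hall (s.map (Function.Embedding.subtype _)) (fun y hy => by
        obtain ⟨z, -, rfl⟩ := mem_map.1 hy; exact z.2)
      rw [card_map] at h1
      refine h1.trans ?_
      rw [← card_range D, ← card_disjSum, card_range]
      refine card_le_card fun z hz => ?_
      rcases z with x | i
      · simp only [inl_mem_disjSum, mem_biUnion, mem_map] at hz ⊢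
        obtain ⟨y, ⟨z, hz1, rfl⟩, hz2⟩ := hz
        exact ⟨z, hz1, hz2⟩
      · simp only [inr_mem_disjSum, mem_biUnion] at hz ⊢
        exact ⟨y0, hy0, hz⟩)
  set f : α → α := fun y => if h : y ∈ Y then (g ⟨y, h⟩).elim id (fun _ => y) else y with hf
  set c : α → ℕ := fun y => if h : y ∈ Y then (g ⟨y, h⟩).elim (fun _ => D) id else D with hc
  have key : ∀ y (h : y ∈ Y), (c y = D ∧ g ⟨y, h⟩ = Sum.inl (f y) ∧ f y ∈ N y) ∨
      (c y < D ∧ g ⟨y, h⟩ = Sum.inr (c y)) := by
    intro y h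
    have := hg2 ⟨y, h⟩
    simp only [hf, hc, dif_pos h]
    rcases hz : g ⟨y, h⟩ with x | i
    · rw [hz] at this; left; simpa using this
    · rw [hz] at this; right; simpa using this
  refine ⟨{y ∈ Y | c y = D}, filter_subset _ _, f, fun y hy z hz h => ?_, fun y hy => ?_, ?_⟩
  · simp only [coe_filter, Set.mem_ofPred_eq] at hy hz
    have h1 := (key y hy.1).resolve_right (by omega)
    have h2 := (key z hz.1).resolve_right (by omega)
    have := hg (h1.2.1.trans (h ▸ h2.2.1.symm))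
    simpa using this
  · rw [mem_filter] at hy
    have h1 := ((key y hy.1).resolve_right (by omega)).2.2
    simpa only [hN, mem_filter] using h1
  · have h1 := card_filter_add_card_filter_not (s := Y) (fun y => c y = D)
    have h2 : #{y ∈ Y | ¬ c y = D} ≤ #(range D) := by
      refine card_le_card_of_injOn c (fun y hy => ?_) fun y hy z hz h => ?_
      · simp only [coe_filter, Set.mem_ofPred_eq] at hy
        have := (key y hy.1).resolve_left (fun h => hy.2 h.1)
        simpa using this.1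
      · simp only [coe_filter, Set.mem_ofPred_eq] at hy hz
        have h1 := (key y hy.1).resolve_left (fun h => hy.2 h.1)
        have h2 := (key z hz.1).resolve_left (fun h => hz.2 h.1)
        have := hg (h1.2.trans (by rw [h]; exact h2.2.symm))
        simpa using this
    rw [card_range] at h2
    omega

variable {n : ℕ} [NeZero n]

/-- `P` is contracted to `Q` without loss, `Cw + Z` consists of `r` cycles of winding one -/
structure Pt (δ : ℕ) (S T : Finset (ZMod n)) (P Cw Z Q : Mat (ZMod n)) (r : ℕ) : Prop where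
  rt : Rt P Q
  lam_eq : Lam Q = Lam P
  qs : ∀ y x, Q y x ≠ 0 → y ∈ T ∧ x ∈ T ∧ δ ≤ lam x y
  ps : ∀ u v, (P + Cw) u v ≠ 0 → (u ∈ S ∧ v ∈ T) ∨ (u ∈ T ∧ v ∈ S)
  zs : ∀ x y, Z x y ≠ 0 → x ∈ T ∧ y ∈ T ∧ 1 ≤ lam x y ∧ lam x y < δ
  bal : Bal (Cw + Z)
  pack : Pack r (Cw + Z)
  lamc : Lam (Cw + Z) = n * r
  zsz : size Z ≤ wsum Cw fun u v => if n ≤ 2 * lam u v + δ then 1 else 0
  zo : ∀ u, out Z u ≤ inn Cw u
  zi : ∀ u, inn Z u ≤ out Cw u
  fr : ∀ L, wsum Q (fun u v => lam u v - 2 * L) ≤ wsum P fun u v => lam u v - L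

variable {δ : ℕ} {S S' T : Finset (ZMod n)}

lemma Pt.zero : Pt δ S T 0 0 0 0 0 :=
  ⟨Rt.refl _, rfl, by simp, by simp, by simp, by simpa using bal_zero, trivial,
    by simp [Lam, wsum_zero], by simp [size_zero], by simp [out_zero], by simp [inn_zero],
    fun _ => by simp [wsum_zero]⟩

omit [NeZero n] in
lemma add_ne {M N : Mat (ZMod n)} {u v : ZMod n} (h : (M + N) u v ≠ 0) :
    M u v ≠ 0 ∨ N u v ≠ 0 := by
  simp only [Pi.add_apply] at h; omega

lemma Pt.add {P Cw Z Q P' Cw' Z' Q' : Mat (ZMod n)} {r r' : ℕ} (h : Pt δ S T P Cw Z Q r)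
    (h' : Pt δ S T P' Cw' Z' Q' r') :
    Pt δ S T (P + P') (Cw + Cw') (Z + Z') (Q + Q') (r + r') := by
  have e1 : Cw + Cw' + (Z + Z') = (Cw' + Z') + (Cw + Z) := by abel
  refine ⟨h.rt.add h'.rt, by rw [Lam_add, Lam_add, h.lam_eq, h'.lam_eq],
    fun y x h0 => (add_ne h0).elim (h.qs y x) (h'.qs y x), fun u v h0 => ?_,
    fun y x h0 => (add_ne h0).elim (h.zs y x) (h'.zs y x), e1 ▸ bal_add h'.bal h.bal,
    e1 ▸ pack_add _ _ _ _ h'.pack h.pack, ?_, ?_, fun u => ?_, fun u => ?_, fun L => ?_⟩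
  · rw [add_add_add_comm] at h0
    exact (add_ne h0).elim (h.ps u v) (h'.ps u v)
  · rw [e1, Lam_add, h.lamc, h'.lamc]; ring
  · rw [size_add, wsum_add]; exact add_le_add h.zsz h'.zsz
  · rw [out_add, inn_add]; exact add_le_add (h.zo u) (h'.zo u)
  · rw [out_add, inn_add]; exact add_le_add (h.zi u) (h'.zi u)
  · rw [wsum_add, wsum_add]; exact add_le_add (h.fr L) (h'.fr L)

lemma Pt.mono {P Cw Z Q : Mat (ZMod n)} {r : ℕ} (h : Pt δ S T P Cw Z Q r) (hS : S ⊆ S') :
    Pt δ S' T P Cw Z Q r :=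
  { h with ps := fun u v h0 => (h.ps u v h0).imp (fun a => ⟨hS a.1, a.2⟩) fun a => ⟨a.1, hS a.2⟩ }

omit [NeZero n] in
lemma two_supp {v y x : ZMod n} (hv : v ∈ S) (hy : y ∈ T) (hx : x ∈ T) (a b : ZMod n)
    (h0 : (E y v + E v x) a b ≠ 0) : (a ∈ S ∧ b ∈ T) ∨ (a ∈ T ∧ b ∈ S) := by
  rcases add_ne h0 with h | h <;> obtain ⟨rfl, rfl⟩ := E_ne_zero.1 h
  · exact Or.inr ⟨hy, hv⟩
  · exact Or.inl ⟨hv, hx⟩

/-- one matched pair -/
lemma Pt.one {v y x : ZMod n} (hv : v ∈ S) (hy : y ∈ T) (hx : x ∈ T) (hyv : y ≠ v)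
    (hp : lam v x ≤ lam v y) : ∃ P Cw Q r, P + Cw = E y v + E v x ∧
      Pt δ S T P Cw (if x ≠ y ∧ lam x y < δ then E x y else 0) Q r := by
  have h1 := lam_rev hyv
  have h2 := lam_coord v x y
  by_cases hxy : x = y
  · subst hxy
    have hb : Bal (E x v + E v x + 0) := fun u => by
      simp only [out_add, inn_add, out_E, inn_E, add_zero]; omega
    refine ⟨0, E x v + E v x, 0, 1, zero_add _, ?_⟩
    rw [if_neg (by simp)]
    refine ⟨Rt.refl _, rfl, by simp, fun a b h0 => two_supp hv hy hx a b (by simpa using h0),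
      by simp, hb, pack_one (fun h => ?_) hb, ?_, by simp [size_zero], by simp [out_zero],
      by simp [inn_zero], fun _ => by simp [wsum_zero]⟩
    · have := congrFun (congrFun h x) v
      simp [E] at this
    · rw [add_zero, Lam_add, Lam_E, Lam_E]; omega
  have h3 := lam_rev hxy
  have h4 : lam x y ≠ 0 := fun h => hxy (lam_eq_zero.1 h)
  by_cases hc : lam x y < δ
  · have hb : Bal (E y v + E v x + E x y) := fun u => by
      simp only [out_add, inn_add, out_E, inn_E]; omega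
    refine ⟨0, E y v + E v x, 0, 1, zero_add _, ?_⟩
    rw [if_pos ⟨hxy, hc⟩]
    refine ⟨Rt.refl _, rfl, by simp, fun a b h0 => two_supp hv hy hx a b (by simpa using h0),
      fun a b h0 => ?_, hb, pack_one (fun h => ?_) hb, ?_, ?_, fun u => ?_, fun u => ?_,
      fun _ => by simp [wsum_zero]⟩
    · obtain ⟨rfl, rfl⟩ := E_ne_zero.1 h0
      exact ⟨hx, hy, by omega, hc⟩
    · have := congrFun (congrFun h y) v
      simp [E] at this
    · rw [Lam_add, Lam_add, Lam_E, Lam_E, Lam_E]; omega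
    · rw [size_E, wsum_add, wsum_E, wsum_E]; split_ifs <;> omega
    · simp only [inn_add, out_E, inn_E]; omega
    · simp only [out_add, out_E, inn_E]; omega
  · refine ⟨E y v + E v x, 0, E y x, 0, add_zero _, ?_⟩
    rw [if_neg (by tauto)]
    refine ⟨Rt.short y v x, ?_, fun a b h0 => ?_,
      fun a b h0 => two_supp hv hy hx a b (by simpa using h0), by simp,
      by simpa using bal_zero, trivial, by simp [Lam, wsum_zero], by simp [size_zero],
      by simp [out_zero], by simp [inn_zero], fun L => ?_⟩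
    · rw [Lam_add, Lam_E, Lam_E, Lam_E]; omega
    · obtain ⟨rfl, rfl⟩ := E_ne_zero.1 h0
      exact ⟨hy, hx, by omega⟩
    · rw [wsum_add, wsum_E, wsum_E, wsum_E]; omega

/-- all pairs matched at one vertex -/
lemma Pt.many {v : ZMod n} (hv : v ∈ S) (f : ZMod n → ZMod n) (Y : Finset (ZMod n))
    (hY : ∀ y ∈ Y, y ∈ T ∧ f y ∈ T ∧ y ≠ v ∧ lam v (f y) ≤ lam v y) :
    ∃ P Cw Q r, P + Cw = ∑ y ∈ Y, E y v + ∑ y ∈ Y, E v (f y) ∧
      Pt δ S T P Cw (∑ y ∈ Y, if f y ≠ y ∧ lam (f y) y < δ then E (f y) y else 0) Q r := by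
  induction Y using Finset.induction_on with
  | empty => exact ⟨0, 0, 0, 0, by simp, by simpa using Pt.zero⟩
  | insert y Y hy ih =>
    obtain ⟨P, Cw, Q, r, h1, h2⟩ := ih fun z hz => hY z (mem_insert_of_mem hz)
    obtain ⟨a, b, c, d⟩ := hY y (mem_insert_self _ _)
    obtain ⟨P', Cw', Q', r', h3, h4⟩ := Pt.one (δ := δ) hv a b c d
    refine ⟨P' + P, Cw' + Cw, Q' + Q, r' + r, ?_, ?_⟩
    · rw [add_add_add_comm, h1, h3, sum_insert hy, sum_insert hy, add_add_add_comm]
    · rw [sum_insert hy]; exact h4.add h2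

lemma lam_succ {v y : ZMod n} (h : y ≠ v) : lam v y = lam (v + 1) y + 1 := by
  have h0 : lam v y ≠ 0 := fun h0 => h (lam_eq_zero.1 h0).symm
  have h1 := lam_lt v y
  have h2 := lam_lt (v + 1) y
  have h3 := lam_add_nat v (d := 1) (by omega)
  have h4 := lam_tri v (v + 1) y
  rw [Nat.cast_one] at h3
  omega

lemma card_pos_eq {v : ZMod n} (hv : v ∉ T) (g : ZMod n → ℕ) (hg : ∀ y, g y ≤ 1) (j : ℕ) :
    #{y ∈ {y ∈ T | g y ≠ 0} | lam v y ≤ j} = ∑ y ∈ win (v + 1) j ∩ T, g y := by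
  rw [← sum_filter_ne_zero, card_eq_sum_ones]
  refine sum_congr ?_ fun y hy => ?_
  · ext y
    simp only [mem_filter, mem_inter, mem_win]
    by_cases hy : y ∈ T
    · rw [lam_succ (v := v) (y := y) (fun h => hv (h ▸ hy))]
      constructor
      · rintro ⟨⟨a, b⟩, c⟩; exact ⟨⟨by omega, a⟩, b⟩
      · rintro ⟨⟨a, b⟩, c⟩; exact ⟨⟨b, c⟩, by omega⟩
    · tauto
  · have := (mem_filter.1 hy).2
    have := hg y
    omega

/-- STEP B: the arcs at the wild vertices are matched without loss -/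
theorem stepB (δ b A0 A1 : ℕ) (H : Mat (ZMod n)) (W T : Finset (ZMod n)) (e : ZMod n → ℕ)
    (hH : ∀ u v, H u v ≤ 1) (hWT : Disjoint W T)
    (hball : ∀ v ∈ W, ∀ j < n, ∑ y ∈ win (v + 1) j ∩ T, H y v ≤
      ∑ x ∈ win (v + 1) j ∩ T, H v x + e v)
    (hmiss : ∀ a, ∑ x ∈ win a δ ∩ T, ∑ y ∈ win a δ ∩ T,
      (if lam a x < lam a y ∧ H x y = 0 then 1 else 0) ≤ A0)
    (hlong : wsum H (fun u v => if ((u ∈ W ∧ v ∈ T) ∨ (u ∈ T ∧ v ∈ W)) ∧ n ≤ 2 * lam u v + δ
      then 1 else 0) ≤ A1)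
    (hb : A0 + A1 < b ^ 2) :
    ∃ H1 P Cw Z Q r, H = H1 + (P + Cw) + Z ∧ Pt δ W T P Cw Z Q r ∧ size Z ≤ A1 ∧
      ∀ v ∈ W, ∑ y ∈ T, H1 y v ≤ 2 * b + e v := by
  have hZ : ∀ W' ⊆ W, ∀ H1 P Cw Z Q r, H = H1 + (P + Cw) + Z → Pt δ W' T P Cw Z Q r →
      size Z ≤ A1 := by
    intro W' hW' H1 P Cw Z Q r h1 h2
    have hle : Cw ≤ H := fun u v => by rw [h1]; simp only [Pi.add_apply]; omega
    refine h2.zsz.trans (le_trans (wsum_le_wsum _ fun u v h0 => ?_)
      ((wsum_mono hle _).trans hlong))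
    have := (h2.mono hW').ps u v (by simp only [Pi.add_apply]; omega)
    simp only [this, true_and, le_refl]
  suffices ∀ W' ⊆ W, ∃ H1 P Cw Z Q r, H = H1 + (P + Cw) + Z ∧ Pt δ W' T P Cw Z Q r ∧
      ∀ v ∈ W', ∑ y ∈ T, H1 y v ≤ 2 * b + e v by
    obtain ⟨H1, P, Cw, Z, Q, r, h1, h2, h3⟩ := this W subset_rfl
    exact ⟨H1, P, Cw, Z, Q, r, h1, h2, hZ W subset_rfl _ _ _ _ _ _ h1 h2, h3⟩
  intro W'
  induction W' using Finset.induction_on with
  | empty => exact fun _ => ⟨H, 0, 0, 0, 0, 0, by simp, Pt.zero, by simp⟩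
  | insert v W' hv ih =>
  intro hW
  have hW' : W' ⊆ W := (subset_insert _ _).trans hW
  have hvW : v ∈ W := hW (mem_insert_self _ _)
  have hvT : v ∉ T := disjoint_left.1 hWT hvW
  obtain ⟨H1, P, Cw, Z, Q, r, h1, h2, h3⟩ := ih hW'
  have hz := hZ W' hW' _ _ _ _ _ _ h1 h2
  have hap : ∀ a c, H a c = H1 a c + (P + Cw) a c + Z a c := fun a c => by rw [h1]; rfl
  have hin : ∀ y, H1 y v = H y v := fun y => by
    have a1 := h2.ps y v; have a2 := h2.zs y v; have := hap y v
    have : (P + Cw) y v = 0 := by tauto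
    have : Z y v = 0 := by tauto
    omega
  have hout : ∀ x, H1 v x = H v x := fun x => by
    have a1 := h2.ps v x; have a2 := h2.zs v x; have := hap v x
    have : (P + Cw) v x = 0 := by tauto
    have : Z v x = 0 := by tauto
    omega
  obtain ⟨Y, hY, f, hf, hf2, hcard⟩ := match1 {y ∈ T | H y v ≠ 0} {x ∈ T | H v x ≠ 0} (lam v)
    (fun y x => x = y ∨ δ ≤ lam x y ∨ H1 x y ≠ 0) b (e v) (fun j => by
      have hn := NeZero.pos n
      have : ∀ (s : Finset (ZMod n)), {y ∈ s | lam v y ≤ j} = {y ∈ s | lam v y ≤ min j (n - 1)} :=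
        fun s => filter_congr fun y _ => by have := lam_lt v y; omega
      rw [this, this, card_pos_eq hvT _ (fun y => hH y v), card_pos_eq hvT _ (hH v)]
      exact hball v hvW _ (by omega)) (fun A' hA' S hS hp c1 c2 => by
      have hb0 : b ≠ 0 := by rintro rfl; simp at hb
      obtain ⟨x0, hx0, hmin⟩ := exists_min_image A' (lam v) (card_pos.1 (by omega))
      obtain ⟨y0, hy0⟩ := card_pos.1 (show 0 < #S by omega)
      have key : ∀ x ∈ A', ∀ y ∈ S, lam x0 x < lam x0 y ∧ lam x0 y < δ ∧ H1 x y = 0 := by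
        intro x hx y hy
        have a1 := hp x hx y hy
        have a2 := hp x0 hx0 y hy
        have a3 := hmin x hx
        have a4 := lam_coord v x0 x
        have a5 := lam_coord v x0 y
        have a6 : lam v x ≠ lam v y := fun h => a1.2 (Or.inl (lam_inj h))
        simp only [not_or, not_le, not_not] at a1 a2
        exact ⟨by omega, a2.2.2.1, a1.2.2.2⟩
      have s1 : A' ⊆ win x0 δ ∩ T := fun x hx => mem_inter.2 ⟨mem_win.2 (by
        have := key x hx y0 hy0; omega), (mem_filter.1 (hA' hx)).1⟩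
      have s2 : S ⊆ win x0 δ ∩ T := fun y hy => mem_inter.2 ⟨mem_win.2
        (key x0 hx0 y hy).2.1, (mem_filter.1 (hS hy)).1⟩
      have c3 : #A' * #S ≤ ∑ x ∈ A', ∑ y ∈ S,
          ((if lam x0 x < lam x0 y ∧ H x y = 0 then 1 else 0) + Z x y) := by
        rw [card_eq_sum_ones A', sum_mul, one_mul]
        refine sum_le_sum fun x hx => ?_
        rw [card_eq_sum_ones S]
        refine sum_le_sum fun y hy => ?_
        have a1 := key x hx y hy
        have a2 := hap x y
        have a3 := h2.ps x y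
        have a4 : x ∉ W' := fun h => disjoint_left.1 hWT (hW' h) (mem_inter.1 (s1 hx)).2
        have a5 : y ∉ W' := fun h => disjoint_left.1 hWT (hW' h) (mem_inter.1 (s2 hy)).2
        have : (P + Cw) x y = 0 := by tauto
        split_ifs <;> omega
      simp only [sum_add_distrib] at c3
      have c4 : ∑ x ∈ A', ∑ y ∈ S, Z x y ≤ size Z :=
        (sum_le_sum fun x _ => sum_le_sum_of_subset (subset_univ S)).trans
          (sum_le_sum_of_subset (f := fun x => out Z x) (subset_univ A'))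
      have c5 := ((sum_le_sum fun x _ => sum_le_sum_of_subset s2).trans
        (sum_le_sum_of_subset (f := fun x => ∑ y ∈ win x0 δ ∩ T,
          (if lam x0 x < lam x0 y ∧ H x y = 0 then 1 else 0)) s1)).trans (hmiss x0)
      have c6 := Nat.mul_le_mul c1 c2
      rw [sq] at hb
      omega)
  have hYT : ∀ y ∈ Y, y ∈ T ∧ H y v ≠ 0 := fun y hy => mem_filter.1 (hY hy)
  have hfT : ∀ y ∈ Y, f y ∈ T ∧ H v (f y) ≠ 0 := fun y hy => mem_filter.1 (hf2 y hy).1
  obtain ⟨P', Cw', Q', r', h4, h5⟩ := Pt.many (δ := δ) (T := T) (mem_insert_self v W') f Y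
    fun y hy => ⟨(hYT y hy).1, (hfT y hy).1, fun h => hvT (h ▸ (hYT y hy).1), (hf2 y hy).2.1⟩
  rw [← sum_filter] at h5
  set Z' := ∑ y ∈ Y with f y ≠ y ∧ lam (f y) y < δ, E (f y) y with hZ'
  obtain ⟨H2, h6⟩ : ∃ H2, H1 = H2 + ((P' + Cw') + Z') := by
    refine exists_add fun a c => ?_
    rw [h4]
    have b1 : (∑ y ∈ Y, E y v) a c ≤ 1 ∧
        ((∑ y ∈ Y, E y v) a c ≠ 0 → a ∈ T ∧ c = v ∧ H1 a c ≠ 0) := by
      refine ⟨?_, fun h => ?_⟩
      · rw [sum_E_apply Y (fun y => y) (fun _ => v)]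
        exact card_le_one.2 fun y hy z hz =>
          (mem_filter.1 hy).2.1.symm.trans (mem_filter.1 hz).2.1
      · obtain ⟨y, hy, rfl, rfl⟩ := (sum_E_ne_zero (u := fun y => y) (w := fun _ => v)).1 h
        exact ⟨(hYT _ hy).1, rfl, hin _ ▸ (hYT _ hy).2⟩
    have b2 : (∑ y ∈ Y, E v (f y)) a c ≤ 1 ∧
        ((∑ y ∈ Y, E v (f y)) a c ≠ 0 → a = v ∧ c ∈ T ∧ H1 a c ≠ 0) := by
      refine ⟨?_, fun h => ?_⟩
      · rw [sum_E_apply Y (fun _ => v) f]
        exact card_le_one.2 fun y hy z hz => hf (mem_filter.1 hy).1 (mem_filter.1 hz).1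
          ((mem_filter.1 hy).2.2.symm.trans (mem_filter.1 hz).2.2)
      · obtain ⟨y, hy, rfl, rfl⟩ := (sum_E_ne_zero (u := fun _ => v) (w := f)).1 h
        exact ⟨rfl, (hfT _ hy).1, hout _ ▸ (hfT _ hy).2⟩
    have b3 : Z' a c ≤ 1 ∧ (Z' a c ≠ 0 → a ∈ T ∧ c ∈ T ∧ H1 a c ≠ 0) := by
      refine ⟨?_, fun h => ?_⟩
      · rw [hZ', sum_E_apply _ f (fun y => y)]
        exact card_le_one.2 fun y hy z hz =>
          (mem_filter.1 hy).2.2.symm.trans (mem_filter.1 hz).2.2
      · obtain ⟨y, hy, rfl, rfl⟩ := (sum_E_ne_zero (u := f) (w := fun y => y)).1 h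
        obtain ⟨a1, a2, a3⟩ := mem_filter.1 hy
        refine ⟨(hfT _ a1).1, (hYT _ a1).1, ?_⟩
        rcases (hf2 _ a1).2.2 with h | h | h
        · exact absurd h a2
        · omega
        · exact h
    simp only [Pi.add_apply]
    by_cases a1 : a = v
    · have : a ∉ T := a1 ▸ hvT
      have : (∑ y ∈ Y, E y v) a c = 0 := by tauto
      have : Z' a c = 0 := by tauto
      omega
    · have : (∑ y ∈ Y, E v (f y)) a c = 0 := by tauto
      by_cases a2 : c = v
      · have : c ∉ T := a2 ▸ hvT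
        have : Z' a c = 0 := by tauto
        omega
      · have : (∑ y ∈ Y, E y v) a c = 0 := by tauto
        omega
  refine ⟨H2, P + P', Cw + Cw', Z + Z', Q + Q', r + r', by rw [h1, h6]; abel,
    (h2.mono (subset_insert _ _)).add h5, fun u hu => ?_⟩
  have hle : ∀ a c, H1 a c = H2 a c + ((P' + Cw') a c + Z' a c) := fun a c => by rw [h6]; rfl
  rcases mem_insert.1 hu with rfl | hu
  · have d1 : #{y ∈ T | H y u ≠ 0} = ∑ y ∈ T, H y u := by
      rw [← sum_filter_ne_zero, card_eq_sum_ones]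
      refine sum_congr rfl fun y hy => ?_
      have := (mem_filter.1 hy).2
      have := hH y u
      omega
    have d2 : ∑ y ∈ T, (H2 y u + if y ∈ Y then 1 else 0) ≤ ∑ y ∈ T, H y u := by
      refine sum_le_sum fun y _ => ?_
      have a1 := hle y u
      rw [h4, hin] at a1
      split_ifs with a2
      · have := (sum_E_ne_zero (s := Y) (u := fun y => y) (w := fun _ => u) (a := y)
          (b := u)).2 ⟨y, a2, rfl, rfl⟩
        simp only [Pi.add_apply] at a1
        omega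
      · omega
    rw [sum_add_distrib, ← card_filter, filter_mem_eq_inter,
      inter_eq_right.2 fun y hy => (hYT y hy).1] at d2
    omega
  · exact (sum_le_sum fun y _ => by have := hle y u; omega).trans (h3 u hu)

end Pool.Agent.MP_2634a8_co.X.CLEAN.B
end

section
namespace Pool.Agent.MP_2634a8_co.X.CLEAN.C

open Finset

variable {n : ℕ} [NeZero n]

/-- arcs with an end in `W` -/
def atW (M : Mat (ZMod n)) (W : Finset (ZMod n)) : Mat (ZMod n) :=
  fun u v => if u ∈ W ∨ v ∈ W then M u v else 0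
/-- arcs with no end in `W` -/
def offW (M : Mat (ZMod n)) (W : Finset (ZMod n)) : Mat (ZMod n) :=
  fun u v => if u ∈ W ∨ v ∈ W then 0 else M u v

variable (M : Mat (ZMod n)) (W : Finset (ZMod n))

omit [NeZero n] in
lemma split : M = offW M W + atW M W := by
  funext u v; simp only [offW, atW, Pi.add_apply]; split_ifs <;> simp
omit [NeZero n] in
lemma atW_le : atW M W ≤ M := fun u v => by unfold atW; split_ifs <;> simp
omit [NeZero n] in
lemma offW_le : offW M W ≤ M := fun u v => by unfold offW; split_ifs <;> simp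
omit [NeZero n] in
lemma atW_add (N : Mat (ZMod n)) : atW (M + N) W = atW M W + atW N W := by
  funext u v; simp only [atW, Pi.add_apply]; split_ifs <;> simp
omit [NeZero n] in
lemma offW_add (N : Mat (ZMod n)) : offW (M + N) W = offW M W + offW N W := by
  funext u v; simp only [offW, Pi.add_apply]; split_ifs <;> simp
omit [NeZero n] in
lemma atW_mono {M N : Mat (ZMod n)} (h : M ≤ N) : atW M W ≤ atW N W := fun u v => by
  unfold atW; split_ifs
  · exact h u v
  · exact le_rfl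
omit [NeZero n] in
lemma atW_ne {u v : ZMod n} (h : atW M W u v ≠ 0) : (u ∈ W ∨ v ∈ W) ∧ M u v ≠ 0 := by
  unfold atW at h; split_ifs at h with h1
  · exact ⟨h1, h⟩
  · exact absurd rfl h
omit [NeZero n] in
lemma off_offW : Off (offW M W) W := fun u v h => by
  unfold offW at h; split_ifs at h with h1
  · exact absurd rfl h
  · exact not_or.1 h1
omit [NeZero n] in
lemma offW_of_off {M : Mat (ZMod n)} {W : Finset (ZMod n)} (h : Off M W) : offW M W = M := by
  funext u v; unfold offW; split_ifs with h1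
  · by_contra h0
    have := h u v (Ne.symm h0); tauto
  · rfl
omit [NeZero n] in
lemma atW_of_off {M : Mat (ZMod n)} {W : Finset (ZMod n)} (h : Off M W) : atW M W = 0 := by
  funext u v; unfold atW; split_ifs with h1
  · by_contra h0
    have := h u v h0; tauto
  · rfl

lemma out_atW {v : ZMod n} (h : v ∈ W) : out (atW M W) v = out M v := by simp [out, atW, h]
lemma inn_atW {v : ZMod n} (h : v ∈ W) : inn (atW M W) v = inn M v := by simp [inn, atW, h]
lemma out_atW' {v : ZMod n} (h : v ∉ W) : out (atW M W) v = ∑ x ∈ W, M v x := by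
  simp [out, atW, h]
lemma inn_atW' {v : ZMod n} (h : v ∉ W) : inn (atW M W) v = ∑ x ∈ W, M x v := by
  simp [inn, atW, h]

lemma size_atW : size (atW M W) ≤ ∑ v ∈ W, out M v + ∑ v ∈ W, inn M v := by
  have h1 : size (atW M W) = ∑ v ∈ W, out (atW M W) v + ∑ v ∈ Wᶜ, out (atW M W) v :=
    (sum_add_sum_compl W _).symm
  rw [h1, sum_congr rfl fun v hv => out_atW M W hv,
    sum_congr rfl fun v hv => out_atW' M W (mem_compl.1 hv), sum_comm]
  exact Nat.add_le_add_left (sum_le_sum fun x _ => sum_le_sum_of_subset (subset_univ _)) _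

/-- step C: the arcs at `W` are replaced by virtual arcs outside `W` -/
theorem stepC (hb : ∀ v ∈ W, out M v = inn M v) : ∃ Q : Mat (ZMod n), Rt (atW M W) Q ∧ Off Q W ∧
    Rt M (offW M W + Q) ∧
    (∀ a ∉ W, out Q a = ∑ x ∈ W, M a x ∧ inn Q a = ∑ x ∈ W, M x a) ∧
    size Q ≤ ∑ v ∈ W, inn M v ∧ size (atW M W) ≤ 2 * ∑ v ∈ W, inn M v := by
  obtain ⟨Q, h1, h2, h3⟩ := fd _ (atW M W) W fun u hu => by
    rw [out_atW M W hu, inn_atW M W hu, hb u hu]
  have h4 : ∀ a ∉ W, out Q a = ∑ x ∈ W, M a x ∧ inn Q a = ∑ x ∈ W, M x a := fun a ha => by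
    rw [← out_atW' M W ha, ← inn_atW' M W ha]; exact h3 a ha
  refine ⟨Q, h1, h2, ?_, h4, ?_, ?_⟩
  · have := h1.add_left (offW M W)
    rwa [← split] at this
  · have h5 : size Q = ∑ v ∈ W, out Q v + ∑ v ∈ Wᶜ, out Q v := (sum_add_sum_compl W _).symm
    have h6 : ∑ v ∈ W, out Q v = 0 := sum_eq_zero fun v hv => sum_eq_zero fun x _ => by
      by_contra h0; exact (h2 v x h0).1 hv
    rw [h5, h6, zero_add, sum_congr rfl fun v hv => (h4 v (mem_compl.1 hv)).1, sum_comm]
    exact sum_le_sum fun x _ => sum_le_sum_of_subset (subset_univ _)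
  · have := size_atW M W
    have e : ∑ v ∈ W, out M v = ∑ v ∈ W, inn M v := sum_congr rfl hb
    omega

/-- an arc of short co-length crosses one of two cuts at distance `k` -/
lemma two_cuts (Q : Mat (ZMod n)) {k L : ℕ} (hL : L ≤ k) (hk : k + L ≤ n) (t : ZMod n) :
    wsum Q (fun y x => if y ≠ x ∧ lam x y < L then 1 else 0) ≤
      cross Q t + cross Q (t + (k : ZMod n)) := by
  unfold cross
  rw [← wsum_fadd]
  refine wsum_le_wsum _ fun y x _ => ?_
  split_ifs with h
  · have h1 := crs_rev t h.1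
    have h2 := crs_rev (t + (k : ZMod n)) h.1
    have h3 := lam_tri x t (t + (k : ZMod n))
    rw [lam_add_nat t (by omega)] at h3
    have h4 : crs t x y + crs (t + (k : ZMod n)) x y ≤ 1 := by
      unfold crs; split_ifs <;> omega
    omega
  · exact Nat.zero_le _

lemma two_cuts_rt {P Q : Mat (ZMod n)} (h : Rt P Q) {k L : ℕ} (hL : L ≤ k) (hk : k + L ≤ n)
    (t : ZMod n) : wsum Q (fun y x => if y ≠ x ∧ lam x y < L then 1 else 0) ≤
      cross P t + cross P (t + (k : ZMod n)) :=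
  (two_cuts Q hL hk t).trans (Nat.add_le_add (h.sub _ (subAdd_crs _)) (h.sub _ (subAdd_crs _)))

lemma mem_win_back {x v : ZMod n} {L : ℕ} (hL : L ≤ n) (h : lam x v < L) :
    x ∈ win (v + 1 - (L : ZMod n)) L := by
  have e : v + 1 - (L : ZMod n) = v - ((L - 1 : ℕ) : ZMod n) := by
    rw [Nat.cast_sub (by omega)]; push_cast; ring
  have h3 := lam_tri (v - ((L - 1 : ℕ) : ZMod n)) x v
  have h4 := lam_lt (v - ((L - 1 : ℕ) : ZMod n)) x
  rw [lam_sub_nat v (by omega)] at h3
  rw [e, mem_win]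
  omega

lemma cross_le_far {k : ℕ} (hk : k ≤ n) (P : Mat (ZMod n)) (t : ZMod n) :
    cross P t ≤ far k P t + ∑ u ∈ win (t + 1 - (k : ZMod n)) k, out P u := by
  have e : ∑ u ∈ win (t + 1 - (k : ZMod n)) k, out P u =
      wsum P fun u _ => if u ∈ win (t + 1 - (k : ZMod n)) k then 1 else 0 := by
    rw [wsum_tail]; simp
  rw [e]
  unfold cross far
  rw [← wsum_fadd]
  refine wsum_le_wsum _ fun u v _ => ?_
  unfold crs
  by_cases h : lam u t < k
  · rw [if_pos (mem_win_back hk h)]; split_ifs <;> omega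
  · split_ifs <;> omega

lemma far_mono (k : ℕ) {P G : Mat (ZMod n)} (h : P ≤ G) (t : ZMod n) : far k P t ≤ far k G t :=
  wsum_mono h _

/-- arcs at `W` over a cut -/
lemma cross_atW {k p τ : ℕ} (hk : k ≤ n) {G : Mat (ZMod n)} (hd : ∀ u ∈ W, out G u ≤ k)
    (hp : ∀ a, (W ∩ win a k).card ≤ p) (hτ : ∀ u ∉ W, ∑ x ∈ W, G u x ≤ τ) (t : ZMod n) :
    cross (atW G W) t ≤ far k G t + p * k + k * τ := by
  refine (cross_le_far hk _ t).trans ?_
  rw [add_assoc]
  refine Nat.add_le_add (far_mono k (atW_le G W) t) ?_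
  have h : ∀ u ∈ win (t + 1 - (k : ZMod n)) k, out (atW G W) u ≤ (if u ∈ W then k else 0) + τ := by
    intro u _
    split_ifs with hu
    · rw [out_atW G W hu]; have := hd u hu; omega
    · rw [out_atW' G W hu]; have := hτ u hu; omega
  refine (sum_le_sum h).trans ?_
  rw [sum_add_distrib, ← sum_filter, filter_mem_eq_inter, inter_comm, sum_const, sum_const,
    smul_eq_mul, smul_eq_mul]
  exact Nat.add_le_add (Nat.mul_le_mul_right _ (hp _))
    (Nat.mul_le_mul_right _ (card_win_le _ _))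

/-- arcs inside `W` over a cut -/
lemma cross_res {k p : ℕ} (hk : k ≤ n) {G : Mat (ZMod n)} (hd : ∀ u ∈ W, out G u ≤ k)
    (hp : ∀ a, (W ∩ win a k).card ≤ p) (t : ZMod n) :
    cross (res G W) t ≤ far k G t + p * k := by
  refine (cross_le_far hk _ t).trans (Nat.add_le_add (far_mono k (res_le G W) t) ?_)
  have h : ∀ u ∈ win (t + 1 - (k : ZMod n)) k, out (res G W) u ≤ if u ∈ W then k else 0 := by
    intro u _
    split_ifs with hu
    · exact (out_mono (res_le G W) u).trans (hd u hu)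
    · simp [out, res, hu]
  refine (sum_le_sum h).trans ?_
  rw [← sum_filter, filter_mem_eq_inter, inter_comm, sum_const, smul_eq_mul]
  exact Nat.mul_le_mul_right _ (hp _)

/-- number of points of `W` passed on the way from `u` to `v` -/
def rk (u v : ZMod n) : ℕ := (W.filter fun t => lam u t < lam u v).card

omit [NeZero n] in
lemma rk_lt {u v v' : ZMod n} (hv : v ∈ W) (h : lam u v < lam u v') : rk W u v < rk W u v' := by
  refine card_lt_card ⟨fun t ht => ?_, fun hc => ?_⟩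
  · rw [mem_filter] at ht ⊢; exact ⟨ht.1, by omega⟩
  · have := hc (mem_filter.2 ⟨hv, h⟩)
    rw [mem_filter] at this; omega

lemma card_rk (u : ZMod n) (j : ℕ) : (W.filter fun v => rk W u v < j).card ≤ j := by
  refine le_trans (card_le_card_of_injOn (t := range j) (rk W u) (fun v hv => ?_) ?_)
    (card_range j).le
  · exact mem_coe.2 (mem_range.2 (mem_filter.1 (mem_coe.1 hv)).2)
  · intro v hv v' hv' h
    have h1 := (mem_filter.1 (mem_coe.1 hv)).1
    have h2 := (mem_filter.1 (mem_coe.1 hv')).1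
    rcases lt_trichotomy (lam u v) (lam u v') with h3 | h3 | h3
    · have := rk_lt W h1 h3; omega
    · exact lam_inj h3
    · have := rk_lt W h2 h3; omega

/-- arcs inside `W` -/
theorem ww {G : Mat (ZMod n)} (hs : ∀ u v, G u v ≤ 1) (j c : ℕ)
    (hc : ∀ t ∈ W, cross (res G W) t ≤ c) : j * eb G W W ≤ W.card * (j * j + c) := by
  have h1 : ∑ t ∈ W, cross (res G W) t = ∑ u ∈ W, ∑ v ∈ W, G u v * rk W u v := by
    unfold cross
    rw [← wsum_fsum]
    unfold wsum
    rw [← sum_subset (subset_univ W) fun u _ hu => by simp [res, hu]]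
    refine sum_congr rfl fun u hu => ?_
    rw [← sum_subset (subset_univ W) fun v _ hv => by simp [res, hv]]
    refine sum_congr rfl fun v hv => ?_
    simp only [res, hu, hv, and_self, if_true, rk, card_filter, crs]
  have h2 : ∀ u ∈ W, j * ∑ v ∈ W, G u v ≤ j * j + ∑ v ∈ W, G u v * rk W u v := by
    intro u _
    refine le_trans ?_ (Nat.add_le_add_right (Nat.mul_le_mul_left j (card_rk W u j)) _)
    rw [card_filter, mul_sum, mul_sum, ← sum_add_distrib]
    refine sum_le_sum fun v _ => ?_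
    rcases Nat.le_one_iff_eq_zero_or_eq_one.1 (hs u v) with h | h <;> rw [h] <;>
      split_ifs <;> omega
  have h3 : ∑ t ∈ W, cross (res G W) t ≤ W.card • c := sum_le_card_nsmul W _ c hc
  have h4 := sum_le_sum h2
  rw [sum_add_distrib, sum_const, ← mul_sum] at h4
  rw [smul_eq_mul] at h3 h4
  unfold eb
  rw [mul_add]
  omega

theorem ww' {k p f : ℕ} (hk : k ≤ n) {G : Mat (ZMod n)} (hs : ∀ u v, G u v ≤ 1)
    (hd : ∀ u ∈ W, out G u ≤ k) (hp : ∀ a, (W ∩ win a k).card ≤ p) (hf : ∀ t, far k G t ≤ f)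
    (j : ℕ) : j * eb G W W ≤ W.card * (j * j + (f + p * k)) :=
  ww W hs j _ fun t _ => (cross_res W hk hd hp t).trans (Nat.add_le_add_right (hf t) _)

/-! ### more on tame vertices -/

variable (sm : Bool) (k : ℕ) (G : Mat (ZMod n)) (v : ZMod n)

/-- the four counts share one budget -/
lemma joint {j : ℕ} (hj : j ≤ k) :
    j * (((Icc 1 (k - j)).filter fun d : ℕ =>
        nc sm v (v + (d : ZMod n)) ∧ G v (v + (d : ZMod n)) = 0).card +
      ((Icc 1 (k - j)).filter fun d : ℕ =>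
        nc sm (v - (d : ZMod n)) v ∧ G (v - (d : ZMod n)) v = 0).card +
      ∑ x, (if k + j ≤ lam v x then G v x else 0) + ∑ x, (if k + j ≤ lam x v then G x v else 0)) ≤
      wt sm k G v := by
  have h1 := aux_cnt k j fun d : ℕ => nc sm v (v + (d : ZMod n)) ∧ G v (v + (d : ZMod n)) = 0
  have h2 := aux_cnt k j fun d : ℕ => nc sm (v - (d : ZMod n)) v ∧ G (v - (d : ZMod n)) v = 0
  have h3 : j * ∑ x, (if k + j ≤ lam v x then G v x else 0) ≤
      ∑ x, G v x * min (lam v x - k) k := by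
    rw [mul_sum]
    refine sum_le_sum fun x _ => ?_
    split_ifs with h
    · rw [mul_comm]; exact Nat.mul_le_mul_left _ (by omega)
    · simp only [mul_zero, zero_le]
  have h4 : j * ∑ x, (if k + j ≤ lam x v then G x v else 0) ≤
      ∑ x, G x v * min (lam x v - k) k := by
    rw [mul_sum]
    refine sum_le_sum fun x _ => ?_
    split_ifs with h
    · rw [mul_comm]; exact Nat.mul_le_mul_left _ (by omega)
    · simp only [mul_zero, zero_le]
  rw [wt_eq, mul_add, mul_add, mul_add]; unfold msO msI; omega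

omit [NeZero n] in
lemma aux_len (g : ℕ → ℕ) (hg : ∀ d, g d ≤ 1) (j : ℕ) :
    ∑ d ∈ range n, (if k < d then g d else 0) ≤
      j + ∑ d ∈ range n, if k + j ≤ d then g d else 0 := by
  have h : ∀ d ∈ range n, (if k < d then g d else 0) ≤
      (if d ∈ Ico k (k + j) then 1 else 0) + if k + j ≤ d then g d else 0 := fun d _ => by
    have := hg d
    simp only [mem_Ico]; split_ifs <;> omega
  refine (sum_le_sum h).trans ?_
  rw [sum_add_distrib, ← card_filter, filter_mem_eq_inter]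
  refine Nat.add_le_add_right ((card_le_card inter_subset_right).trans ?_) _
  rw [Nat.card_Ico]; omega

/-- arcs longer than `k` have distinct lengths -/
lemma nonidO (hs : ∀ u x, G u x ≤ 1) {j : ℕ} (hj : j ≤ k) :
    j * ∑ x, (if k < lam v x then G v x else 0) ≤ j * j + wt sm k G v := by
  have h := aux_len (n := n) k (fun d => G v (v + d)) (fun _ => hs _ _) j
  have e : ∀ L, ∑ x, (if L ≤ lam v x then G v x else 0) =
      ∑ d ∈ range n, if L ≤ d then G v (v + d) else 0 := fun L => by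
    rw [sum_lam v]; exact sum_congr rfl fun d hd => by rw [lam_add_nat v (mem_range.1 hd)]
  have h1 := longO sm k G v hj
  have h2 := Nat.mul_le_mul_left j h
  rw [e] at h1
  rw [mul_add] at h2
  exact le_trans (le_of_eq (congrArg _ (e (k + 1)))) (h2.trans (Nat.add_le_add_left h1 _))

lemma nonidI (hs : ∀ u x, G u x ≤ 1) {j : ℕ} (hj : j ≤ k) :
    j * ∑ x, (if k < lam x v then G x v else 0) ≤ j * j + wt sm k G v := by
  have h := aux_len (n := n) k (fun d => G (v - d) v) (fun _ => hs _ _) j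
  have e : ∀ L, ∑ x, (if L ≤ lam x v then G x v else 0) =
      ∑ d ∈ range n, if L ≤ d then G (v - d) v else 0 := fun L => by
    rw [sum_lam' v]; exact sum_congr rfl fun d hd => by rw [lam_sub_nat v (mem_range.1 hd)]
  have h1 := longI sm k G v hj
  have h2 := Nat.mul_le_mul_left j h
  rw [e] at h1
  rw [mul_add] at h2
  exact le_trans (le_of_eq (congrArg _ (e (k + 1)))) (h2.trans (Nat.add_le_add_left h1 _))

end Pool.Agent.MP_2634a8_co.X.CLEAN.C
end

section
namespace Pool.Agent.MP_2634a8_co.X.CLEAN.DE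

open Finset

section gen
variable {V : Type} [Fintype V] [DecidableEq V]

/-- reversed matrix -/
def tr (M : Mat V) : Mat V := fun u v => M v u

omit [DecidableEq V] in
lemma out_tr (M : Mat V) (v : V) : out (tr M) v = inn M v := rfl
omit [DecidableEq V] in
lemma inn_tr (M : Mat V) (v : V) : inn (tr M) v = out M v := rfl
omit [DecidableEq V] in
lemma size_tr (M : Mat V) : size (tr M) = size M := (size_inn M).symm
omit [DecidableEq V] in
lemma bal_tr (M : Mat V) : Bal (M + tr M) := fun v => by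
  rw [out_add, inn_add, out_tr, inn_tr, add_comm]

lemma pack_tr : ∀ (m : ℕ) (M : Mat V), size M = m → Pack m (M + tr M)
  | 0, _, _ => trivial
  | m + 1, M, h => by
    have h0 : M ≠ 0 := by rintro rfl; rw [size_zero] at h; omega
    obtain ⟨a, b, hab⟩ : ∃ a b, M a b ≠ 0 := by
      by_contra hc
      push Not at hc
      exact h0 (funext fun a => funext fun b => hc a b)
    obtain ⟨N, rfl⟩ := exists_add_E hab
    rw [size_add, size_E] at h
    have e : N + E a b + tr (N + E a b) = (E a b + tr (E a b)) + (N + tr N) := by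
      funext u v; simp only [tr, Pi.add_apply]; omega
    rw [e]
    refine pack_cyc (fun hz => ?_) (bal_tr _) (pack_tr m N (by omega))
    have := congrFun (congrFun hz a) b
    simp [E] at this

lemma pack_loops' : ∀ (m : ℕ) (L : Mat V), size L = m → (∀ u v, L u v ≠ 0 → u = v) → Pack m L
  | 0, _, _, _ => trivial
  | m + 1, L, h, hL => by
    have h0 : L ≠ 0 := by rintro rfl; rw [size_zero] at h; omega
    obtain ⟨a, b, hab⟩ : ∃ a b, L a b ≠ 0 := by
      by_contra hc
      push Not at hc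
      exact h0 (funext fun a => funext fun b => hc a b)
    obtain rfl := hL a b hab
    obtain ⟨N, rfl⟩ := exists_add_E hab
    rw [size_add, size_E] at h
    exact pack_loop a m N (pack_loops' m N (by omega) fun u v h1 =>
      hL u v (by simp only [Pi.add_apply]; omega))

omit [DecidableEq V] in
lemma bal_loops {L : Mat V} (hL : ∀ u v, L u v ≠ 0 → u = v) : Bal L := fun v =>
  sum_congr rfl fun u _ => by
    by_cases h : u = v
    · rw [h]
    · have h1 : L v u = 0 := by by_contra h0; exact h (hL _ _ h0).symm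
      have h2 : L u v = 0 := by by_contra h0; exact h (hL _ _ h0)
      rw [h1, h2]

end gen

variable {n : ℕ} [NeZero n]

lemma Lam_loops {L : Mat (ZMod n)} (hL : ∀ u v, L u v ≠ 0 → u = v) : Lam L = 0 := by
  have : Lam L = wsum L fun _ _ => 0 := wsum_congr fun u v h => by rw [hL u v h, lam_self]
  rw [this, wsum_const, mul_zero]

lemma Lam_tr {F : Mat (ZMod n)} (h : ∀ y x, F y x ≠ 0 → x ≠ y) :
    Lam F + Lam (tr F) = n * size F := by
  have e : Lam (tr F) = wsum F fun u v => lam v u := by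
    unfold Lam wsum tr; exact sum_comm
  rw [e, Lam, ← wsum_fadd, mul_comm, ← wsum_const]
  exact wsum_congr fun u v h0 => lam_rev (h u v h0).symm

lemma nc_inside {sm : Bool} {x y u v : ZMod n} (h : nc sm x y)
    (hl : lam x u + lam u v ≤ lam x y) : nc sm u v := fun hs => by
  have h0 := h hs
  have h1 := lam_val x y
  have h2 := lam_val x u
  have h3 := lam_val u v
  have h4 := ZMod.val_lt y
  omega

/-- step E: junk arcs `y → x` are closed to cycles by hops of length in `[2 w1, 4 w1]` -/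
theorem stepE (hgc : GC_s) (sm : Bool) (B F : Mat (ZMod n)) (Ω : Finset (ZMod n)) (w1 : ℕ)
    (hw : 10 ≤ w1) (hB : ∀ u v, B u v ≤ 1)
    (hop : ∀ v ∉ Ω, 10 * ((Icc (2 * w1) (4 * w1)).filter fun d : ℕ =>
        nc sm v (v + d) ∧ (B v (v + d) = 0 ∨ v + d ∈ Ω)).card ≤ w1 ∧
      10 * ((Icc (2 * w1) (4 * w1)).filter fun d : ℕ =>
        nc sm (v - (d : ZMod n)) v ∧ (B (v - (d : ZMod n)) v = 0 ∨ v - (d : ZMod n) ∈ Ω)).card ≤ w1)
    (hoff : Off F Ω) (hF : ∀ y x, F y x ≠ 0 → 8 * w1 ≤ lam x y ∧ nc sm x y)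
    (hld : ∀ v, 10 * out F v ≤ w1 ∧ 10 * inn F v ≤ w1) (hs : 200 * size F ≤ w1 ^ 2) :
    ∃ P : Mat (ZMod n), P ≤ B ∧ Bal (P + F) ∧ Pack (size F) (P + F) ∧
      Lam (P + F) = n * size F ∧
      (∀ u v, P u v ≠ 0 → 2 * w1 ≤ lam u v ∧ lam u v ≤ 4 * w1) ∧
      ∀ v, out P v ≤ w1 ∧ inn P v ≤ w1 := by
  obtain ⟨P, h1, h2, h3, -, h5, h6⟩ := hgc n B (tr F) Ω (fun u v => decide (nc sm u v)) w1 hw hB
    (fun v hv => by simpa only [decide_eq_true_eq] using hop v hv)
    (fun x y h0 => ⟨(hoff y x h0).2, (hoff y x h0).1, (hF y x h0).1, fun u v hl =>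
      decide_eq_true (nc_inside (hF y x h0).2 hl)⟩)
    (fun v => ⟨(hld v).2, (hld v).1⟩) (by rw [size_tr]; exact hs)
  have hr : Rt (P + F) (F + tr F) := by
    rw [add_comm P]; exact h2.add_left F
  refine ⟨P, h1, hr.bal_iff.2 (bal_tr F), hr.pack' (pack_tr _ F rfl), ?_,
    fun u v h0 => ⟨(h5 u v h0).1, (h5 u v h0).2.1⟩, fun v => ?_⟩
  · rw [Lam_add, h3, add_comm]
    refine Lam_tr fun y x h0 hxy => ?_
    have := (hF y x h0).1
    rw [hxy, lam_self] at this
    omega
  · have := h6 v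
    have := hld v
    rw [out_tr, inn_tr] at *
    omega

/-- steps D and E together, given the closing arcs `P2` of step E (or `P2 = F = 0`) -/
theorem stepD (hsac : SAC_s) (B0 L D F P2 : Mat (ZMod n)) (Ω : Finset (ZMod n)) (w w1 τ : ℕ)
    (hn : 24 * w < n) (hB : ∀ u v, B0 u v ≤ 1) (hoff : Off B0 Ω)
    (hL : ∀ u v, L u v ≠ 0 → u = v) (hD : Off D Ω)
    (hD2 : ∀ y x, D y x ≠ 0 → 1 ≤ lam x y ∧ lam x y < 8 * w)
    (hD3 : ∀ v, out D v ≤ τ ∧ inn D v ≤ τ) (hτ : 2 * τ ≤ w) (hD4 : size D ≤ τ * w)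
    (hm : ∀ v ∉ Ω, mo B0 (4 * w) (8 * w) v + w1 ≤ w ∧ mi B0 (4 * w) (8 * w) v + w1 ≤ w)
    (e1 : P2 ≤ B0) (e2 : Bal (P2 + F)) (e3 : Pack (size F) (P2 + F))
    (e4 : Lam (P2 + F) = n * size F) (e5 : ∀ v, out P2 v ≤ w1 ∧ inn P2 v ≤ w1) :
    ∃ B P Q : Mat (ZMod n), B0 = B + P ∧ Off Q Ω ∧ (∀ y x, Q y x ≠ 0 → 8 * w ≤ lam x y) ∧
      (∀ v, out Q v ≤ τ ∧ inn Q v ≤ τ ∧ out P v ≤ 2 * τ + w1 ∧ inn P v ≤ 2 * τ + w1) ∧
      Rt (B0 + L + D + F) (B + Q) ∧
      (∀ N t, Pack t (N + (B + Q)) → Pack (t + (size L + size F)) (N + (B0 + L + D + F))) ∧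
      Lam (B + Q) + n * (size L + size F) + n * size D = Lam (B0 + L + D + F) + n * size L := by
  obtain ⟨B1, rfl⟩ := le_iff_add.1 e1
  have hle : B1 ≤ B1 + P2 := le_self_add
  obtain ⟨P1, Q, h1, h2, h3, -, h5, h6, -, h8⟩ := hsac n B1 D Ω w τ hn
    (fun u v => (hle u v).trans (hB u v)) (hoff.anti hle) hD
    (fun v hv => by
      have := mo_rem B1 P2 (4 * w) (q := 8 * w) (by omega) v
      have := mi_rem B1 P2 (4 * w) (q := 8 * w) (by omega) v
      have := hm v hv
      have := e5 v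
      omega) hD2 hD3 hτ hD4
  obtain ⟨B, rfl⟩ := le_iff_add.1 h1
  have e : B + P1 + P2 + L + D + F = (L + (P2 + F)) + (B + (P1 + D)) := by abel
  have hr : Rt (B + (P1 + D)) (B + Q) := h2.add_left B
  refine ⟨B, P1 + P2, Q, add_assoc _ _ _, h5, fun y x h0 => ?_, fun v => ?_, ?_, fun N t hp => ?_,
    ?_⟩
  · have h7 := h6 y x h0
    have hne : y ≠ x := fun he => by rw [he, lam_self] at h7; omega
    have := lam_rev hne
    omega
  · have := h8 v
    have := e5 v
    rw [out_add, inn_add]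
    omega
  · rw [e, add_comm]
    exact (Rt.drop _ (bal_add (bal_loops hL) e2)).trans hr
  · have h9 := pack_plus _ _ _ _ (pack_plus _ _ _ _ (pack_loops' _ L rfl hL) e3) (hr.pack N t hp)
    rw [e, add_comm (size L), add_left_comm N]
    exact h9
  · rw [e]
    have := Lam_loops hL
    rw [Lam_add (L + _), Lam_add L, Lam_add B, Lam_add B, Lam_add P1, mul_add]
    omega

/-- steps D and E -/
theorem stepDE (hgc : GC_s) (hsac : SAC_s) (sm : Bool) (B0 L D F : Mat (ZMod n))
    (Ω : Finset (ZMod n)) (w w1 τ : ℕ)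
    (hn : 24 * w < n) (hB : ∀ u v, B0 u v ≤ 1) (hoff : Off B0 Ω)
    (hL : ∀ u v, L u v ≠ 0 → u = v) (hD : Off D Ω)
    (hD2 : ∀ y x, D y x ≠ 0 → 1 ≤ lam x y ∧ lam x y < 8 * w)
    (hD3 : ∀ v, out D v ≤ τ ∧ inn D v ≤ τ) (hτ : 2 * τ ≤ w) (hD4 : size D ≤ τ * w)
    (hm : ∀ v ∉ Ω, mo B0 (4 * w) (8 * w) v + w1 ≤ w ∧ mi B0 (4 * w) (8 * w) v + w1 ≤ w)
    (hE : F = 0 ∨ (10 ≤ w1 ∧
      (∀ v ∉ Ω, 10 * ((Icc (2 * w1) (4 * w1)).filter fun d : ℕ =>
          nc sm v (v + d) ∧ (B0 v (v + d) = 0 ∨ v + d ∈ Ω)).card ≤ w1 ∧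
        10 * ((Icc (2 * w1) (4 * w1)).filter fun d : ℕ =>
          nc sm (v - (d : ZMod n)) v ∧ (B0 (v - (d : ZMod n)) v = 0 ∨ v - (d : ZMod n) ∈ Ω)).card ≤ w1) ∧
      Off F Ω ∧ (∀ y x, F y x ≠ 0 → 8 * w1 ≤ lam x y ∧ nc sm x y) ∧
      (∀ v, 10 * out F v ≤ w1 ∧ 10 * inn F v ≤ w1) ∧ 200 * size F ≤ w1 ^ 2)) :
    ∃ B P Q : Mat (ZMod n), B0 = B + P ∧ Off Q Ω ∧ (∀ y x, Q y x ≠ 0 → 8 * w ≤ lam x y) ∧
      (∀ v, out Q v ≤ τ ∧ inn Q v ≤ τ ∧ out P v ≤ 2 * τ + w1 ∧ inn P v ≤ 2 * τ + w1) ∧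
      Rt (B0 + L + D + F) (B + Q) ∧
      (∀ N t, Pack t (N + (B + Q)) → Pack (t + (size L + size F)) (N + (B0 + L + D + F))) ∧
      Lam (B + Q) + n * (size L + size F) + n * size D = Lam (B0 + L + D + F) + n * size L := by
  rcases hE with rfl | ⟨a1, a2, a3, a4, a5, a6⟩
  · exact stepD hsac B0 L D 0 0 Ω w w1 τ hn hB hoff hL hD hD2 hD3 hτ hD4 hm (fun _ _ => Nat.zero_le _)
      (bal_add bal_zero bal_zero) (by rw [size_zero]; trivial)
      (by rw [add_zero, size_zero]; exact wsum_zero _)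
      (fun v => by rw [out_zero, inn_zero]; omega)
  · obtain ⟨P2, b1, b2, b3, b4, -, b6⟩ := stepE hgc sm B0 F Ω w1 a1 hB a2 a3 a4 a5 a6
    exact stepD hsac B0 L D F P2 Ω w w1 τ hn hB hoff hL hD hD2 hD3 hτ hD4 hm b1 b2 b3 b4 b6

end Pool.Agent.MP_2634a8_co.X.CLEAN.DE
end

section
namespace Pool.Agent.MP_2634a8_co.X.CLEAN.F

open Finset

variable {n : ℕ} [NeZero n]

/-- the ideal part -/
def idl (k : ℕ) (H : Mat (ZMod n)) : Mat (ZMod n) :=
  fun u v => if 1 ≤ lam u v ∧ lam u v ≤ k then H u v else 0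
/-- the rest -/
def nid (k : ℕ) (H : Mat (ZMod n)) : Mat (ZMod n) :=
  fun u v => if 1 ≤ lam u v ∧ lam u v ≤ k then 0 else H u v
/-- missing ideal out-pairs of length at most `j` that do not cross the seam -/
def mO (sm : Bool) (G : Mat (ZMod n)) (j : ℕ) (v : ZMod n) : ℕ :=
  ((Icc 1 j).filter fun d : ℕ => nc sm v (v + (d : ZMod n)) ∧ G v (v + (d : ZMod n)) = 0).card
/-- missing ideal in-pairs of length at most `j` that do not cross the seam -/
def mI (sm : Bool) (G : Mat (ZMod n)) (j : ℕ) (v : ZMod n) : ℕ :=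
  ((Icc 1 j).filter fun d : ℕ => nc sm (v - (d : ZMod n)) v ∧ G (v - (d : ZMod n)) v = 0).card

omit [NeZero n] in
lemma idl_add_nid (k : ℕ) (H : Mat (ZMod n)) : H = idl k H + nid k H := by
  funext u v; simp only [idl, nid, Pi.add_apply]; split_ifs <;> omega
omit [NeZero n] in
lemma idl_le (k : ℕ) (H : Mat (ZMod n)) : idl k H ≤ H := fun u v => by
  show (if _ then _ else _) ≤ H u v
  split_ifs <;> omega
omit [NeZero n] in
lemma nid_le (k : ℕ) (H : Mat (ZMod n)) : nid k H ≤ H := fun u v => by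
  show (if _ then _ else _) ≤ H u v
  split_ifs <;> omega
omit [NeZero n] in
lemma idl_ne {k : ℕ} {H : Mat (ZMod n)} {u v : ZMod n} :
    idl k H u v ≠ 0 ↔ (1 ≤ lam u v ∧ lam u v ≤ k) ∧ H u v ≠ 0 := by
  unfold idl; split_ifs with h <;> simp [h]
omit [NeZero n] in
lemma nid_ne {k : ℕ} {H : Mat (ZMod n)} {u v : ZMod n} :
    nid k H u v ≠ 0 ↔ ¬ (1 ≤ lam u v ∧ lam u v ≤ k) ∧ H u v ≠ 0 := by
  unfold nid; split_ifs with h
  · simp [h]
  · exact ⟨fun h0 => ⟨h, h0⟩, fun h0 => h0.2⟩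

omit [NeZero n] in
lemma lam_succ {k d : ℕ} (hk : k < n) (v : ZMod n) (h1 : 1 ≤ d) (h2 : d ≤ k) :
    lam (v + 1) (v + (d : ZMod n)) = d - 1 := by
  have e : v + (d : ZMod n) = v + 1 + ((d - 1 : ℕ) : ZMod n) := by
    rw [Nat.cast_sub h1]; push_cast; ring
  rw [e, lam_add_nat _ (by omega)]

omit [NeZero n] in
lemma lam_pred {k d : ℕ} (hk : k < n) (v : ZMod n) (h2 : d ≤ k) :
    lam (v - (k : ZMod n)) (v - (d : ZMod n)) = k - d := by
  have e : v - (d : ZMod n) = v - (k : ZMod n) + ((k - d : ℕ) : ZMod n) := by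
    rw [Nat.cast_sub h2]; ring
  rw [e, lam_add_nat _ (by omega)]

lemma holesO {k : ℕ} (hk : k < n) (Ω : Finset (ZMod n)) (v : ZMod n) :
    ((Icc 1 k).filter fun d : ℕ => v + (d : ZMod n) ∈ Ω).card ≤ (Ω ∩ win (v + 1) k).card := by
  refine card_le_card_of_injOn (fun d : ℕ => v + (d : ZMod n)) (fun d hd => ?_)
    fun d hd d' hd' h => ?_
  · simp only [coe_filter, mem_Icc, Set.mem_ofPred_eq] at hd
    simp only [coe_inter, Set.mem_inter_iff, mem_coe, mem_win]
    rw [lam_succ hk v hd.1.1 hd.1.2]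
    exact ⟨hd.2, by omega⟩
  · simp only [coe_filter, mem_Icc, Set.mem_ofPred_eq] at hd hd'
    have h' : v + (d : ZMod n) = v + (d' : ZMod n) := h
    rw [← lam_add_nat v (d := d) (by omega), h', lam_add_nat v (by omega)]

lemma holesI {k : ℕ} (hk : k < n) (Ω : Finset (ZMod n)) (v : ZMod n) :
    ((Icc 1 k).filter fun d : ℕ => v - (d : ZMod n) ∈ Ω).card ≤
      (Ω ∩ win (v - (k : ZMod n)) k).card := by
  refine card_le_card_of_injOn (fun d : ℕ => v - (d : ZMod n)) (fun d hd => ?_)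
    fun d hd d' hd' h => ?_
  · simp only [coe_filter, mem_Icc, Set.mem_ofPred_eq] at hd
    simp only [coe_inter, Set.mem_inter_iff, mem_coe, mem_win]
    rw [lam_pred hk v hd.1.2]
    exact ⟨hd.2, by omega⟩
  · simp only [coe_filter, mem_Icc, Set.mem_ofPred_eq] at hd hd'
    have h' : v - (d : ZMod n) = v - (d' : ZMod n) := h
    rw [← lam_sub_nat v (d := d) (by omega), h', lam_sub_nat v (by omega)]

omit [NeZero n] in
lemma cnt3 {S : Finset ℕ} {j k : ℕ} (hk : k < n) (a b : ℕ → Prop) [DecidablePred a]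
    [DecidablePred b] (r : ℕ → ℕ) (h : ∀ d ∈ S, 1 ≤ d ∧ d ≤ j ∧ d ≤ k ∧ (a d ∨ b d ∨ r d ≠ 0)) :
    S.card ≤ ((Icc 1 j).filter a).card + ((Icc 1 k).filter b).card + ∑ i ∈ range n, r i := by
  have h1 : S ⊆ ((Icc 1 j).filter a ∪ (Icc 1 k).filter b) ∪ (range n).filter fun d => r d ≠ 0 := by
    intro d hd
    obtain ⟨h1, h2, h3, h4⟩ := h d hd
    simp only [mem_union, mem_filter, mem_Icc, mem_range]
    rcases h4 with h4 | h4 | h4
    · exact Or.inl (Or.inl ⟨⟨h1, h2⟩, h4⟩)
    · exact Or.inl (Or.inr ⟨⟨h1, h3⟩, h4⟩)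
    · exact Or.inr ⟨by omega, h4⟩
  have h2 : ((range n).filter fun d => r d ≠ 0).card ≤ ∑ i ∈ range n, r i := by
    rw [card_filter]
    exact sum_le_sum fun i _ => by split_ifs <;> omega
  have h3 := card_union_le ((Icc 1 j).filter a) ((Icc 1 k).filter b)
  have h4 := (card_le_card h1).trans (card_union_le _ _)
  omega

section cnt
variable {sm : Bool} {k : ℕ} {G H R Lad : Mat (ZMod n)} {Ω : Finset (ZMod n)}

/-- generic count, out-side -/
lemma cntO (hk : k < n)
    (hR : ∀ u ∉ Ω, ∀ v ∉ Ω, 1 ≤ lam u v → lam u v ≤ k → G u v ≤ H u v + R u v)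
    {v : ZMod n} (hv : v ∉ Ω) {j : ℕ} (hj : j ≤ k) (S : Finset ℕ)
    (hS : ∀ d ∈ S, 1 ≤ d ∧ d ≤ j ∧ ((idl k H + Lad) v (v + d) = 0 ∨ v + (d : ZMod n) ∈ Ω) ∧
      (nc sm v (v + d) ∨ v + (d : ZMod n) ∈ Ω ∨ Lad v (v + d) ≠ 0)) :
    S.card ≤ mO sm G j v + (Ω ∩ win (v + 1) k).card + out R v := by
  refine (cnt3 (j := j) hk (fun d : ℕ => nc sm v (v + (d : ZMod n)) ∧ G v (v + (d : ZMod n)) = 0)
    (fun d : ℕ => v + (d : ZMod n) ∈ Ω) (fun d => R v (v + d)) fun d hd => ?_).trans ?_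
  · obtain ⟨h1, h2, h3, h4⟩ := hS d hd
    refine ⟨h1, h2, h2.trans hj, ?_⟩
    by_cases ho : v + (d : ZMod n) ∈ Ω
    · exact Or.inr (Or.inl ho)
    have h5 := h3.resolve_right ho
    have hl : lam v (v + (d : ZMod n)) = d := lam_add_nat v (by omega)
    have h6 := hR v hv _ ho (by omega) (by omega)
    simp only [Pi.add_apply, idl, hl] at h5
    rw [if_pos ⟨h1, h2.trans hj⟩] at h5
    by_cases hr : R v (v + d) = 0
    · rcases h4 with h4 | h4 | h4
      · exact Or.inl ⟨h4, by omega⟩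
      · exact absurd h4 ho
      · omega
    · exact Or.inr (Or.inr hr)
  · have := holesO hk Ω v
    rw [out_eq_range R v]
    unfold mO; omega

/-- generic count, in-side -/
lemma cntI (hk : k < n)
    (hR : ∀ u ∉ Ω, ∀ v ∉ Ω, 1 ≤ lam u v → lam u v ≤ k → G u v ≤ H u v + R u v)
    {v : ZMod n} (hv : v ∉ Ω) {j : ℕ} (hj : j ≤ k) (S : Finset ℕ)
    (hS : ∀ d ∈ S, 1 ≤ d ∧ d ≤ j ∧
      ((idl k H + Lad) (v - (d : ZMod n)) v = 0 ∨ v - (d : ZMod n) ∈ Ω) ∧
      (nc sm (v - (d : ZMod n)) v ∨ v - (d : ZMod n) ∈ Ω ∨ Lad (v - (d : ZMod n)) v ≠ 0)) :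
    S.card ≤ mI sm G j v + (Ω ∩ win (v - (k : ZMod n)) k).card + inn R v := by
  refine (cnt3 (j := j) hk
    (fun d : ℕ => nc sm (v - (d : ZMod n)) v ∧ G (v - (d : ZMod n)) v = 0)
    (fun d : ℕ => v - (d : ZMod n) ∈ Ω) (fun d => R (v - (d : ZMod n)) v) fun d hd => ?_).trans ?_
  · obtain ⟨h1, h2, h3, h4⟩ := hS d hd
    refine ⟨h1, h2, h2.trans hj, ?_⟩
    by_cases ho : v - (d : ZMod n) ∈ Ω
    · exact Or.inr (Or.inl ho)
    have h5 := h3.resolve_right ho
    have hl : lam (v - (d : ZMod n)) v = d := lam_sub_nat v (by omega)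
    have h6 := hR _ ho v hv (by omega) (by omega)
    simp only [Pi.add_apply, idl, hl] at h5
    rw [if_pos ⟨h1, h2.trans hj⟩] at h5
    by_cases hr : R (v - (d : ZMod n)) v = 0
    · rcases h4 with h4 | h4 | h4
      · exact Or.inl ⟨h4, by omega⟩
      · exact absurd h4 ho
      · omega
    · exact Or.inr (Or.inr hr)
  · have := holesI hk Ω v
    rw [inn_eq_range R v]
    unfold mI; omega

lemma deep_ncO (hk : k < n) {v : ZMod n} (h : deep sm k v) {d : ℕ} (hd : d ≤ k) :
    nc sm v (v + (d : ZMod n)) := fun hs => by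
  have h1 := h hs
  have h2 := lam_val v (v + (d : ZMod n))
  rw [lam_add_nat v (by omega)] at h2
  omega

lemma deep_ncI (hk : k < n) {v : ZMod n} (h : deep sm k v) {d : ℕ} (hd : d ≤ k) :
    nc sm (v - (d : ZMod n)) v := fun hs => by
  have h1 := h hs
  have h2 := lam_val (v - (d : ZMod n)) v
  have h3 := ZMod.val_lt (v - (d : ZMod n))
  rw [lam_sub_nat v (by omega)] at h2
  omega

/-- hop sets for the greedy connector with `ok = nc sm` -/
theorem hopE (hk : k < n)
    (hR : ∀ u ∉ Ω, ∀ v ∉ Ω, 1 ≤ lam u v → lam u v ≤ k → G u v ≤ H u v + R u v)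
    {v : ZMod n} (hv : v ∉ Ω) {p q j : ℕ} (hp : 1 ≤ p) (hq : q ≤ j) (hj : j ≤ k) :
    ((Icc p q).filter fun d : ℕ => nc sm v (v + d) ∧
        ((idl k H + Lad) v (v + d) = 0 ∨ v + (d : ZMod n) ∈ Ω)).card ≤
      mO sm G j v + (Ω ∩ win (v + 1) k).card + out R v ∧
    ((Icc p q).filter fun d : ℕ => nc sm (v - (d : ZMod n)) v ∧
        ((idl k H + Lad) (v - (d : ZMod n)) v = 0 ∨ v - (d : ZMod n) ∈ Ω)).card ≤
      mI sm G j v + (Ω ∩ win (v - (k : ZMod n)) k).card + inn R v := by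
  refine ⟨cntO (Lad := Lad) hk hR hv hj _ fun d hd => ?_,
    cntI (Lad := Lad) hk hR hv hj _ fun d hd => ?_⟩ <;>
  · rw [mem_filter, mem_Icc] at hd
    exact ⟨by omega, by omega, hd.2.2, Or.inl hd.2.1⟩

/-- tameness of the base at deep vertices -/
theorem tameB (hk : k < n)
    (hR : ∀ u ∉ Ω, ∀ v ∉ Ω, 1 ≤ lam u v → lam u v ≤ k → G u v ≤ H u v + R u v)
    {v : ZMod n} (hv : v ∉ Ω) (hd : deep sm k v) :
    mo (idl k H + Lad) 1 k v ≤ mO sm G k v + (Ω ∩ win (v + 1) k).card + out R v ∧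
    mi (idl k H + Lad) 1 k v ≤ mI sm G k v + (Ω ∩ win (v - (k : ZMod n)) k).card + inn R v := by
  refine ⟨cntO (Lad := Lad) hk hR hv le_rfl _ fun d h => ?_,
    cntI (Lad := Lad) hk hR hv le_rfl _ fun d h => ?_⟩
  · rw [mem_filter, mem_Icc] at h
    exact ⟨h.1.1, h.1.2, Or.inl h.2, Or.inl (deep_ncO hk hd h.1.2)⟩
  · rw [mem_filter, mem_Icc] at h
    exact ⟨h.1.1, h.1.2, Or.inl h.2, Or.inl (deep_ncI hk hd h.1.2)⟩

variable {κ s : ℝ} {V X : Mat (ZMod n)} {Ω0 : Finset (ZMod n)}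

lemma lad_or (hin : IN sm k κ s G Lad V X Ω0) (h0 : Ω0 ⊆ Ω) {u v : ZMod n} (hu : u ∉ Ω)
    (hv : v ∉ Ω) (h1 : 2 * (k / 500) ≤ lam u v) (h2 : lam u v ≤ 8 * (k / 500)) :
    nc sm u v ∨ Lad u v ≠ 0 := by
  by_cases h : nc sm u v
  · exact Or.inl h
  · unfold nc at h
    push Not at h
    rw [hin.lad2 h.1 u (fun h' => hu (h0 h')) v (fun h' => hv (h0 h')) h.2 h1 h2]
    exact Or.inr one_ne_zero

/-- hop lengths in `[2 w, 8 w]` at every vertex outside the holes -/
theorem hopB (hin : IN sm k κ s G Lad V X Ω0) (h0 : Ω0 ⊆ Ω) (hk : k < n) (hk0 : 500 ≤ k)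
    (hR : ∀ u ∉ Ω, ∀ v ∉ Ω, 1 ≤ lam u v → lam u v ≤ k → G u v ≤ H u v + R u v)
    {v : ZMod n} (hv : v ∉ Ω) {p q j : ℕ} (hp : 2 * (k / 500) ≤ p) (hq : q ≤ 8 * (k / 500))
    (hqj : q ≤ j) (hj : j ≤ k) :
    mo (idl k H + Lad) p q v ≤ mO sm G j v + (Ω ∩ win (v + 1) k).card + out R v ∧
    mi (idl k H + Lad) p q v ≤ mI sm G j v + (Ω ∩ win (v - (k : ZMod n)) k).card + inn R v := by
  refine ⟨cntO (Lad := Lad) hk hR hv hj _ fun d h => ?_,
    cntI (Lad := Lad) hk hR hv hj _ fun d h => ?_⟩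
  · rw [mem_filter, mem_Icc] at h
    refine ⟨by omega, by omega, Or.inl h.2, ?_⟩
    by_cases ho : v + (d : ZMod n) ∈ Ω
    · exact Or.inr (Or.inl ho)
    have hl : lam v (v + (d : ZMod n)) = d := lam_add_nat v (by omega)
    exact (lad_or hin h0 hv ho (by omega) (by omega)).imp id Or.inr
  · rw [mem_filter, mem_Icc] at h
    refine ⟨by omega, by omega, Or.inl h.2, ?_⟩
    by_cases ho : v - (d : ZMod n) ∈ Ω
    · exact Or.inr (Or.inl ho)
    have hl : lam (v - (d : ZMod n)) v = d := lam_sub_nat v (by omega)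
    exact (lad_or hin h0 ho hv (by omega) (by omega)).imp id Or.inr

/-- the base is ideal -/
theorem idealB (hin : IN sm k κ s G Lad V X Ω0) (hk0 : 500 ≤ k) (hH : H ≤ G) :
    Ideal k (idl k H + Lad) := fun u v => by
  have h1 := hin.lad1 u v
  have h2 : idl k H u v ≤ G u v := (idl_le k H u v).trans (hH u v)
  have h3 := hin.simple.1 u v
  simp only [Pi.add_apply]
  by_cases hl : Lad u v = 0
  · rw [hl, add_zero]
    exact ⟨by omega, fun h0 => (idl_ne.1 h0).1⟩
  · have h4 := h1.2 hl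
    have h5 : idl k H u v = 0 := by
      by_contra h0
      have hs : sm = true := by
        by_contra hs
        rw [(hin.nos (by simpa using hs)).1] at hl
        exact hl rfl
      have := hin.gnc u v (by omega) (idl_ne.1 h0).1.2 hs
      omega
    exact ⟨by omega, fun _ => by omega⟩

/-- ladder arcs and `X`-arcs have both ends in the zone -/
lemma lad_zone (hin : IN sm k κ s G Lad V X Ω0) {u v : ZMod n} (h : Lad u v ≠ 0) :
    sm = true ∧ zone k u ∧ zone k v := by
  have h1 := (hin.lad1 u v).2 h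
  have h2 := lam_val u v
  have h3 := ZMod.val_lt u
  refine ⟨?_, ?_, ?_⟩
  · by_contra hs
    rw [(hin.nos (by simpa using hs)).1] at h
    exact h rfl
  · unfold zone; omega
  · unfold zone; omega

end cnt

end Pool.Agent.MP_2634a8_co.X.CLEAN.F
end
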