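import Mathlib
import Pool.Agent.MP_2634a8_co.Y.CleanA

attribute [-instance] Fintype.decidableForallFintype AddQuantale.instAddLeftMono Pi.addCommGroup
  Finset.decidableDforallFinset Multiset.decidableDforallMultiset
  Vector.instDecidableForallForallMemOfDecidablePred Int.decidableLTLE
  Array.instDecidableForallForallMemOfDecidablePred Option.decidableForallMem RKHS.instFunLike
  Int.decidableLTLT Int.decidableLELE CompletePartialOrder.toPartialOrder Int.decidableLELT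
  littleWedderburn AddQuantale.instAddRightMono DivisionRing.toRing NumberField.to_charZero
  IdemSemiring.toCanonicallyOrderedAdd forall_prop_decidable

section
namespace Pool.Agent.MP_2634a8_co.X.CLEAN.S

open Finset

section gen
variable {V : Type} [Fintype V] [DecidableEq V]

open Classical in
/-- the arcs of `M` whose ends satisfy `p` -/
noncomputable def flt (M : Mat V) (p : V → V → Prop) : Mat V :=
  fun u v => if p u v then M u v else 0
/-- rerouting that also sets `r` cycles aside -/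
def RtR (P Q : Mat V) (r : ℕ) : Prop := Rt P Q ∧ ∀ N t, Pack t (N + Q) → Pack (t + r) (N + P)

omit [Fintype V] [DecidableEq V] in
lemma flt_pos {M : Mat V} {p : V → V → Prop} {u v : V} (h : p u v) : flt M p u v = M u v := by
  simp [flt, h]
omit [Fintype V] [DecidableEq V] in
lemma flt_neg {M : Mat V} {p : V → V → Prop} {u v : V} (h : ¬ p u v) : flt M p u v = 0 := by
  simp [flt, h]
omit [Fintype V] [DecidableEq V] in
lemma flt_le (M : Mat V) (p : V → V → Prop) (u v : V) : flt M p u v ≤ M u v := by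
  by_cases h : p u v
  · rw [flt_pos h]
  · rw [flt_neg h]; exact Nat.zero_le _
omit [Fintype V] [DecidableEq V] in
lemma flt_ne {M : Mat V} {p : V → V → Prop} {u v : V} :
    flt M p u v ≠ 0 ↔ p u v ∧ M u v ≠ 0 := by
  by_cases h : p u v
  · rw [flt_pos h]; simp [h]
  · rw [flt_neg h]; simp [h]
omit [Fintype V] [DecidableEq V] in
lemma flt_split (M : Mat V) (p : V → V → Prop) :
    M = flt M p + flt M fun u v => ¬ p u v := by
  funext u v
  by_cases h : p u v
  · rw [Pi.add_apply, Pi.add_apply, flt_pos h, flt_neg (not_not.2 h)]; rfl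
  · rw [Pi.add_apply, Pi.add_apply, flt_neg h, flt_pos (p := fun u v => ¬ p u v) h, zero_add]

end gen

section cyc
variable {n : ℕ} [NeZero n]

/-- missing out-pairs of length at most `q` that do not cross the seam -/
def mno (sm : Bool) (G : Mat (ZMod n)) (q : ℕ) (v : ZMod n) : ℕ :=
  ((Icc 1 q).filter fun d : ℕ => nc sm v (v + (d : ZMod n)) ∧ G v (v + (d : ZMod n)) = 0).card
def mni (sm : Bool) (G : Mat (ZMod n)) (q : ℕ) (v : ZMod n) : ℕ :=
  ((Icc 1 q).filter fun d : ℕ => nc sm (v - (d : ZMod n)) v ∧ G (v - (d : ZMod n)) v = 0).card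
/-- out-arcs of length at least `q` -/
def lo (G : Mat (ZMod n)) (q : ℕ) (v : ZMod n) : ℕ := ∑ x, if q ≤ lam v x then G v x else 0
def li (G : Mat (ZMod n)) (q : ℕ) (v : ZMod n) : ℕ := ∑ x, if q ≤ lam x v then G x v else 0
def Tm (sm : Bool) (G : Mat (ZMod n)) (q1 q2 a : ℕ) (v : ZMod n) : Prop :=
  mno sm G q1 v ≤ a ∧ mni sm G q1 v ≤ a ∧ lo G q2 v ≤ a ∧ li G q2 v ≤ a
def Mis (sm : Bool) (k : ℕ) (G : Mat (ZMod n)) (U : Finset (ZMod n)) : ℕ :=
  ∑ u ∈ U, ∑ v ∈ U, ms sm k G u v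
def dl (sm : Bool) (u : ℕ) : ℕ := if sm = true then 1 else 20000000 * u
def thr (sm : Bool) (k u : ℕ) : ℕ := if sm = true then 8 * (k / 500) else 20000000 * u
/-- back arcs that step A leaves for the sacrifice -/
noncomputable def DA (sm : Bool) (u : ℕ) (H : Mat (ZMod n)) (Ω : Finset (ZMod n)) :
    Mat (ZMod n) := flt H fun y x => y ∉ Ω ∧ x ∉ Ω ∧ lam x y < dl sm u
/-- arcs of co-length in `[p, q)` -/
noncomputable def co (M : Mat (ZMod n)) (p q : ℕ) : Mat (ZMod n) :=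
  flt M fun y x => p ≤ lam x y ∧ lam x y < q
/-- the base -/
noncomputable def B0 (k : ℕ) (H1 Lad : Mat (ZMod n)) : Mat (ZMod n) :=
  (flt H1 fun x y => lam x y ≤ k) + Lad
/-- non-ideal real arcs and matched virtual arcs -/
noncomputable def NI (k : ℕ) (H1 Q : Mat (ZMod n)) : Mat (ZMod n) :=
  (flt H1 fun x y => ¬ lam x y ≤ k) + Q

/-- the input in natural numbers -/
structure PR (sm : Bool) (k u b h : ℕ) (G Lad V X : Mat (ZMod n))
    (Ω0 Ω1 : Finset (ZMod n)) : Prop where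
  hn : 2 * k + 1 ≤ n
  hu : 1 ≤ u
  huk : 10 ^ 17 * u ≤ k
  hb : 10 ^ 4 * b ≤ k
  hh : h * k ≤ u ^ 2
  hhu : h ≤ u
  simple : Simple G
  bal : Bal (G + Lad + V + X)
  deg : ∀ v, out (G + Lad + V + X) v ≤ k
  nos : sm = false → Lad = 0 ∧ V = 0 ∧ X = 0 ∧ Ω0 = ∅
  gnc : ∀ u v, G u v ≠ 0 → lam u v ≤ k → nc sm u v
  h2 : ∀ a, mis sm k G a ≤ u ^ 2
  h4 : sm = false → ∀ a m, m ≤ k → OptAt G a m
  h5 : ∀ v j, j < n → ∑ y ∈ win (v + 1) j, G y v ≤
    ∑ x ∈ win (v + 1) j, G v x + (out (Lad + V + X) v + inn (Lad + V + X) v)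
  off0 : Off (G + Lad + V) Ω0
  lad1 : ∀ u v, Lad u v ≤ 1 ∧
    (Lad u v ≠ 0 → v.val < u.val ∧ 2 * (k / 500) ≤ lam u v ∧ lam u v ≤ 8 * (k / 500))
  lad2 : sm = true → ∀ u ∉ Ω0, ∀ v ∉ Ω0, v.val < u.val → 2 * (k / 500) ≤ lam u v →
    lam u v ≤ 8 * (k / 500) → Lad u v = 1
  /-- `Lad` and `X` do not touch the wild vertices -/
  off1 : Off (Lad + X) Ω1
  hw : ∀ a, ((Ω0 ∪ Ω1) ∩ win a k).card ≤ h
  wild : ∀ v ∈ Ω1, 10 ^ 4 * u * k ≤ wt sm k G v
  t1 : ∀ v ∉ Ω0 ∪ Ω1, Tm sm G (k - k / 2) (k + k / 2) (60000 * u) v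
  tb : ∀ v ∉ Ω0 ∪ Ω1, Tm sm G k (k + 1) b v ∧ out V v ≤ b ∧ inn V v ≤ b
  far : ∀ t, far k G t ≤ u ^ 2
  sv : size V ≤ u ^ 2

/-- after step A -/
structure AO (u : ℕ) (G H Cy : Mat (ZMod n)) (Ω : Finset (ZMod n)) (r : ℕ) : Prop where
  eq : G = H + Cy
  bal : Bal Cy
  pack : Pack r Cy
  off : Off Cy Ω
  load : ∀ v, out Cy v ≤ 120001 * u
  sz : size Cy ≤ 24 * u ^ 2

/-- after steps B and C -/
structure MID (sm : Bool) (u b : ℕ) (H V H1 Z Q R : Mat (ZMod n)) (Ω : Finset (ZMod n))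
    (r : ℕ) : Prop where
  rtr : RtR (H + V) (H1 + Q + R) r
  off : Off (H1 + Q + R) Ω
  hz : ∀ x ∉ Ω, ∀ y ∉ Ω, H x y = H1 x y + Z x y
  zs : ∀ x y, Z x y ≠ 0 → lam x y < dl sm u
  zl : ∀ v, out Z v ≤ 60002 * u ∧ inn Z v ≤ 60002 * u
  qs : ∀ y x, Q y x ≠ 0 → dl sm u ≤ lam x y
  q1 : ∀ v, out Q v ≤ 60002 * u ∧ inn Q v ≤ 60002 * u
  r1 : ∀ v, out R v ≤ 60002 * u + b ∧ inn R v ≤ 60002 * u + b
  cr : ∀ t, cross (Q + R) t ≤ 5 * u ^ 2

/-- the clean state in natural numbers -/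
structure CSN (sm : Bool) (k f : ℕ) (B J : Mat (ZMod n)) (Ω : Finset (ZMod n)) : Prop where
  ideal : Ideal k B
  off : Off (B + J) Ω
  hop : ∀ v ∉ Ω, mo B (2 * (k / 500)) (4 * (k / 500)) v ≤ f ∧
    mi B (2 * (k / 500)) (4 * (k / 500)) v ≤ f
  tame : ∀ v ∉ Ω, deep sm k v → mo B 1 k v ≤ f ∧ mi B 1 k v ≤ f
  junk : ∀ y x, J y x ≠ 0 → 8 * (k / 500) ≤ lam x y
  load : ∀ v, out J v ≤ f ∧ inn J v ≤ f

end cyc

def WT_s : Prop := ∀ (n : ℕ) [NeZero n] (sm : Bool) (k : ℕ) (G : Mat (ZMod n))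
  (S U : Finset (ZMod n)), k < n → Disjoint S U →
  ∑ v ∈ S, wt sm k G v + 2 * Mis sm k G U ≤ 2 * Miss sm k G +
    2 * wsum (flt G fun u v => u ∈ S ∨ v ∈ S) fun u v => min (lam u v - k) k

def CRA_s : Prop := ∀ (n : ℕ) [NeZero n] (k h : ℕ) (G : Mat (ZMod n)) (S : Finset (ZMod n)),
  2 * k + 1 ≤ n → Simple G → (∀ v, out G v ≤ k ∧ inn G v ≤ k) →
  (∀ a, (S ∩ win a k).card ≤ h) →
  (∀ t, cross (flt G fun u v => u ∈ S ∨ v ∈ S) t ≤
    far k G t + far k G (t + (k : ZMod n)) + 2 * h * k) ∧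
  ∀ v q, q ≤ 2 * k → ∑ x ∈ S, G v x ≤ lo G q v + 2 * h ∧ ∑ x ∈ S, G x v ≤ li G q v + 2 * h

def CRB_s : Prop := ∀ (n : ℕ) [NeZero n] (k : ℕ) (M : Mat (ZMod n)), 2 * k + 1 ≤ n →
  size (co M 1 (k + 1)) ≤ cross M 0 + cross M (k : ZMod n) ∧
  (∀ z, (∀ t, far k M t ≤ z) → size (co M 1 (k / 2)) ≤ 4 * z) ∧
  ∀ z δ, (∀ t, cross M t ≤ z) → 3 * δ ≤ n →
    wsum M (fun u v => if n ≤ 2 * lam u v + δ then 1 else 0) ≤ 3 * z

def WW_s : Prop := ∀ (n : ℕ) [NeZero n] (k h z l : ℕ) (G : Mat (ZMod n)) (S : Finset (ZMod n)),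
  Simple G → (∀ a, (S ∩ win a k).card ≤ h) → (∀ t, far k G t ≤ z) →
  2 * l * eb G S S ≤ S.card * (2 * l * (h + 1) + l ^ 2 + 2 * z)

/-- step A -/
def LOCA_s : Prop := ∀ (n : ℕ) [NeZero n] (sm : Bool) (k u b h : ℕ) (G Lad V X : Mat (ZMod n))
  (Ω0 Ω1 : Finset (ZMod n)), PR sm k u b h G Lad V X Ω0 Ω1 →
  ∃ (H Cy : Mat (ZMod n)) (r : ℕ), AO u G H Cy (Ω0 ∪ Ω1) r ∧
    Lam Cy + n * size (DA sm u H (Ω0 ∪ Ω1)) ≤ n * r + Far k Cy + Far k (DA sm u H (Ω0 ∪ Ω1)) +
      Mis sm k G (Ω0 ∪ Ω1)ᶜ + 16 * (20000000 * u) ^ 2 * Ω1.card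

/-- step B applied: the hypotheses of `stepB` and the number of unmatched arcs -/
def WB_s : Prop := ∀ (n : ℕ) [NeZero n] (sm : Bool) (k u b h : ℕ)
  (G Lad V X H Cy : Mat (ZMod n)) (Ω0 Ω1 : Finset (ZMod n)) (r : ℕ),
  PR sm k u b h G Lad V X Ω0 Ω1 → AO u G H Cy (Ω0 ∪ Ω1) r →
  ∃ (H' P Cw Z Q : Mat (ZMod n)) (r2 : ℕ), H = H' + (P + Cw) + Z ∧
    B.Pt (dl sm u) Ω1 (Ω0 ∪ Ω1)ᶜ P Cw Z Q r2 ∧
    ∑ v ∈ Ω1, inn (H' + V) v ≤ 22 * u * Ω1.card + 3 * size V

/-- steps B and C -/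
def WST_s : Prop := ∀ (n : ℕ) [NeZero n] (sm : Bool) (k u b h : ℕ)
  (G Lad V X H Cy : Mat (ZMod n)) (Ω0 Ω1 : Finset (ZMod n)) (r : ℕ),
  PR sm k u b h G Lad V X Ω0 Ω1 → AO u G H Cy (Ω0 ∪ Ω1) r →
  ∃ (H1 Z Q R : Mat (ZMod n)) (r2 : ℕ), MID sm u b H V H1 Z Q R (Ω0 ∪ Ω1) r2 ∧
    Lam H + 8 * (k / 500) * size R + 16 * (20000000 * u) ^ 2 * Ω1.card + Far k H1 +
        Mis sm k G (Ω0 ∪ Ω1)ᶜ + (if sm = true then n * size (co Q 0 (8 * (k / 500))) else 0) ≤
      Lam H1 + Lam Q + n * r2 + Miss sm k G + Far k H + if sm = true then k ^ 3 else 0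

/-- facts on the base -/
def R1_s : Prop := ∀ (n : ℕ) [NeZero n] (sm : Bool) (k u b h : ℕ)
  (G Lad V X H Cy H1 Z Q R : Mat (ZMod n)) (Ω0 Ω1 : Finset (ZMod n)) (r r2 : ℕ),
  PR sm k u b h G Lad V X Ω0 Ω1 → AO u G H Cy (Ω0 ∪ Ω1) r →
  MID sm u b H V H1 Z Q R (Ω0 ∪ Ω1) r2 →
  Ideal k (B0 k H1 Lad) ∧ Off (B0 k H1 Lad) (Ω0 ∪ Ω1) ∧ ∀ v ∉ Ω0 ∪ Ω1,
    (∀ p q, 2 * (k / 500) ≤ p → q ≤ 8 * (k / 500) →
      mo (B0 k H1 Lad) p q v ≤ 250000 * u ∧ mi (B0 k H1 Lad) p q v ≤ 250000 * u) ∧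
    (deep sm k v → mo (B0 k H1 Lad) 1 k v ≤ b + 200000 * u ∧
      mi (B0 k H1 Lad) 1 k v ≤ b + 200000 * u) ∧
    10 * ((Icc (2 * (2500000 * u)) (4 * (2500000 * u))).filter fun d : ℕ =>
      nc sm v (v + d) ∧ (B0 k H1 Lad v (v + d) = 0 ∨ v + d ∈ Ω0 ∪ Ω1)).card ≤ 2500000 * u ∧
    10 * ((Icc (2 * (2500000 * u)) (4 * (2500000 * u))).filter fun d : ℕ =>
      nc sm (v - (d : ZMod n)) v ∧
        (B0 k H1 Lad (v - (d : ZMod n)) v = 0 ∨ v - (d : ZMod n) ∈ Ω0 ∪ Ω1)).card ≤ 2500000 * u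

/-- facts on the junk -/
def R2_s : Prop := ∀ (n : ℕ) [NeZero n] (sm : Bool) (k u b h : ℕ)
  (G Lad V X H Cy H1 Z Q R : Mat (ZMod n)) (Ω0 Ω1 : Finset (ZMod n)) (r r2 : ℕ),
  PR sm k u b h G Lad V X Ω0 Ω1 → AO u G H Cy (Ω0 ∪ Ω1) r →
  MID sm u b H V H1 Z Q R (Ω0 ∪ Ω1) r2 →
  (∀ y x, NI k H1 Q y x ≠ 0 → 1 ≤ lam x y) ∧
  (∀ v, out (NI k H1 Q) v ≤ b + 60002 * u ∧ inn (NI k H1 Q) v ≤ b + 60002 * u) ∧
  (∀ v, out (co (NI k H1 Q) 0 (8 * (k / 500))) v ≤ 120002 * u ∧
    inn (co (NI k H1 Q) 0 (8 * (k / 500))) v ≤ 120002 * u) ∧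
  size (co (NI k H1 Q) 0 (8 * (k / 500))) ≤ 14 * u ^ 2 ∧
  size (co R 1 (8 * (k / 500))) ≤ 10 * u ^ 2 ∧
  n * size (co (NI k H1 Q) 0 (thr sm k u)) + Far k (DA sm u H (Ω0 ∪ Ω1)) ≤
    n * size (DA sm u H (Ω0 ∪ Ω1)) + Far k H1 +
      if sm = true then n * size (co Q 0 (8 * (k / 500))) + k ^ 3 else 0

/-- steps D and E -/
def RS_s : Prop := ∀ (n : ℕ) [NeZero n] (sm : Bool) (k u b h : ℕ)
  (G Lad V X H Cy H1 Z Q R : Mat (ZMod n)) (Ω0 Ω1 : Finset (ZMod n)) (r r2 : ℕ),
  PR sm k u b h G Lad V X Ω0 Ω1 → AO u G H Cy (Ω0 ∪ Ω1) r →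
  MID sm u b H V H1 Z Q R (Ω0 ∪ Ω1) r2 →
  ∃ (B J : Mat (ZMod n)) (r3 : ℕ), CSN sm k (5 * b + 10 ^ 7 * u) B J (Ω0 ∪ Ω1) ∧
    RtR (H1 + Q + R + Lad) (B + J) r3 ∧
    Lam H1 + Lam Q ≤ Lam (B + J) + n * r3 + n * size (co (NI k H1 Q) 0 (thr sm k u)) +
      8 * (k / 500) * size R

def CLN_s : Prop := ∀ (n : ℕ) [NeZero n] (sm : Bool) (k u b h : ℕ) (G Lad V X : Mat (ZMod n))
  (Ω0 Ω1 : Finset (ZMod n)), PR sm k u b h G Lad V X Ω0 Ω1 →
  ∃ (B J : Mat (ZMod n)) (r : ℕ), CSN sm k (5 * b + 10 ^ 7 * u) B J (Ω0 ∪ Ω1) ∧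
    RtR (G + Lad + V + X) (B + J + X) r ∧
    n * ∑ d ∈ Icc 1 k, d ≤ Lam (B + J + X) + n * r +
      k * dfc k G (univ.filter (deep sm k)) + if sm = true then 4 * k ^ 3 else 0

end Pool.Agent.MP_2634a8_co.X.CLEAN.S
end

section
namespace Pool.Agent.MP_2634a8_co.X.CLEAN.S

open Finset

theorem cra : CRA_s := by
  intro n _ k h G S hn hs hd hw
  refine ⟨fun t => ?_, fun v q hq => ?_⟩
  · obtain ⟨a, ha⟩ : ∃ a : ZMod n, a = t - ((k - 1 : ℕ) : ZMod n) := ⟨_, rfl⟩
    obtain ⟨b, hb⟩ : ∃ b : ZMod n, b = t + ((1 : ℕ) : ZMod n) := ⟨_, rfl⟩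
    have a1 : lam a t = k - 1 := by rw [ha]; exact lam_sub_nat t (by omega)
    have a3 : lam t (t + (k : ZMod n)) = k := lam_add_nat t (by omega)
    have h1 : cross (flt G fun u v => u ∈ S ∨ v ∈ S) t ≤ wsum G fun u v =>
        (if k ≤ lam u t ∧ lam u t < lam u v then 1 else 0) +
        (if k ≤ lam u (t + (k : ZMod n)) ∧ lam u (t + (k : ZMod n)) < lam u v then 1 else 0) +
        (if u ∈ S ∩ win a k then 1 else 0) + (if v ∈ S ∩ win b k then 1 else 0) := by
      refine sum_le_sum fun u _ => sum_le_sum fun v _ => ?_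
      by_cases hp : u ∈ S ∨ v ∈ S
      · rw [flt_pos (p := fun u v => u ∈ S ∨ v ∈ S) hp]
        refine Nat.mul_le_mul_left _ ?_
        unfold crs
        beta_reduce
        by_cases c1 : lam u t < lam u v
        · rw [if_pos c1]
          by_cases c2 : k ≤ lam u t
          · rw [if_pos (show k ≤ lam u t ∧ _ from ⟨c2, c1⟩)]; omega
          · have e1 := lam_tri u t (t + (k : ZMod n))
            by_cases c3 : lam u (t + (k : ZMod n)) < lam u v
            · rw [if_pos (show k ≤ lam u (t + (k : ZMod n)) ∧ _ from ⟨by omega, c3⟩)]; omega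
            · rcases hp with hp | hp
              · have e2 := lam_tri a u t
                have e3 := lam_lt a u
                rw [if_pos (show u ∈ S ∩ win a k from mem_inter.2 ⟨hp, mem_win.2 (by omega)⟩)]
                omega
              · have a2 : lam t b = 1 := by rw [hb]; exact lam_add_nat t (by omega)
                have e2 := lam_tri u t b
                have e3 := lam_tri u b v
                have e4 := lam_lt b v
                rw [if_pos (show v ∈ S ∩ win b k from mem_inter.2 ⟨hp, mem_win.2 (by omega)⟩)]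
                omega
        · rw [if_neg c1]; omega
      · rw [flt_neg (p := fun u v => u ∈ S ∨ v ∈ S) hp]; omega
    rw [wsum_fadd, wsum_fadd, wsum_fadd, wsum_tail, wsum_head] at h1
    simp only [mul_ite, mul_one, mul_zero, sum_ite_mem, univ_inter] at h1
    have h2 := sum_le_card_nsmul (S ∩ win a k) (fun x => out G x) k fun v _ => (hd v).1
    have h3 := sum_le_card_nsmul (S ∩ win b k) (fun x => inn G x) k fun v _ => (hd v).2
    rw [smul_eq_mul] at h2 h3
    have h4 := Nat.mul_le_mul_right k (hw a)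
    have h5 := Nat.mul_le_mul_right k (hw b)
    unfold far
    rw [mul_assoc]
    omega
  · have key : ∀ a : ZMod n, (S ∩ win a q).card ≤ 2 * h := fun a => by
      have e1 : (S ∩ win a q).card ≤ (S ∩ win a (k + k)).card :=
        card_le_card (inter_subset_inter_left fun x hx =>
          mem_win.2 ((mem_win.1 hx).trans_le (by omega)))
      have e2 := card_inter_win S a k k
      have e3 := hw a
      have e4 := hw (a + (k : ZMod n))
      omega
    have e1 := toW G v hs.1 S q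
    have e2 := fromW G v hs.1 S (L := q) (by omega)
    have e3 := key v
    have e4 := key (v + 1 - (q : ZMod n))
    unfold lo li
    omega

end Pool.Agent.MP_2634a8_co.X.CLEAN.S
end

section
namespace Pool.Agent.MP_2634a8_co.X.CLEAN.S

open Finset

theorem crb : CRB_s := by
  intro n _ k M hn
  have hp : 0 < n := by omega
  have co_ap : ∀ p q y x, co M p q y x = if p ≤ lam x y ∧ lam x y < q then M y x else 0 := by
    intro p q y x
    unfold co
    split_ifs with c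
    · exact flt_pos (p := fun y x => p ≤ lam x y ∧ lam x y < q) c
    · exact flt_neg (p := fun y x => p ≤ lam x y ∧ lam x y < q) c
  have sz : ∀ p q, size (co M p q) =
      wsum M fun y x => if p ≤ lam x y ∧ lam x y < q then 1 else 0 := fun p q =>
    sum_congr rfl fun y _ => sum_congr rfl fun x _ => by
      rw [co_ap]; beta_reduce; split_ifs <;> omega
  have mul : ∀ (c : ℕ) (f : ZMod n → ZMod n → ℕ),
      c * wsum M f = wsum M fun y x => c * f y x := fun c f => by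
    simp only [wsum, mul_sum, mul_left_comm]
  refine ⟨?_, fun z hz => ?_, fun z δ hz hδ => ?_⟩
  · rw [sz]
    unfold cross
    rw [← wsum_fadd]
    refine wsum_le fun y x _ => ?_
    split_ifs with h
    · have hne : y ≠ x := fun e => by rw [e, lam_self] at h; omega
      have h1 := crs_rev 0 hne
      have h2 := crs_rev (k : ZMod n) hne
      have h3 := lam_tri x 0 (k : ZMod n)
      have h5 : lam (0 : ZMod n) (k : ZMod n) = k := by
        simpa using lam_add_nat (0 : ZMod n) (d := k) (by omega)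
      have h4 : crs 0 x y + crs (k : ZMod n) x y ≤ 1 := by
        unfold crs; split_ifs <;> omega
      omega
    · exact Nat.zero_le _
  · have h1 : Far k M ≤ n * z := by
      rw [Far_eq]
      simpa only [card_univ, ZMod.card, smul_eq_mul] using sum_le_card_nsmul univ (fun t => far k M t) z fun t _ => hz t
    have h2 : n * size (co M 1 (k / 2)) ≤ 4 * Far k M := by
      rw [sz, Far, mul, mul]
      refine wsum_le fun y x _ => ?_
      split_ifs with h
      · have hne : y ≠ x := fun e => by rw [e, lam_self] at h; omega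
        have := lam_rev hne
        omega
      · omega
    refine Nat.le_of_mul_le_mul_left ?_ hp
    rw [mul_left_comm]; omega
  · have h1 : Lam M ≤ n * z := by
      rw [Lam_eq_sum]
      simpa only [card_univ, ZMod.card, smul_eq_mul] using sum_le_card_nsmul univ (fun t => cross M t) z fun t _ => hz t
    have h2 : n * wsum M (fun u v => if n ≤ 2 * lam u v + δ then 1 else 0) ≤ 3 * Lam M := by
      rw [Lam, mul, mul]
      refine wsum_le fun y x _ => ?_
      split_ifs <;> omega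
    refine Nat.le_of_mul_le_mul_left ?_ hp
    rw [mul_left_comm]; omega

end Pool.Agent.MP_2634a8_co.X.CLEAN.S
end

section
namespace Pool.Agent.MP_2634a8_co.X.CLEAN.S

open Finset

theorem loca (hcss : CSS_s) (hcrb : CRB_s) : LOCA_s := by
  intro n _ sm k u b h G Lad V X Ω0 Ω1 pr
  have hs := pr.simple
  have ne : ∀ u v, G u v ≠ 0 → u ≠ v := by rintro u v h rfl; exact h (hs.2 u)
  cases sm with
  | true =>
    have e : DA true u G (Ω0 ∪ Ω1) = 0 := by
      funext y x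
      by_contra h0
      have h1 := flt_ne.1 h0
      have h2 : lam x y = 0 := by have := h1.1.2.2; simp only [dl, if_true] at this; omega
      exact ne _ _ h1.2 (lam_eq_zero.1 h2).symm
    refine ⟨G, 0, 0, ⟨by simp, bal_zero, trivial, fun _ _ h0 => absurd rfl h0,
      fun v => by simp [out_zero], by simp [size_zero]⟩, ?_⟩
    rw [e, size_zero, Lam, wsum_zero]
    omega
  | false =>
    have hn := pr.hn
    have hu := pr.hu
    have huk := pr.huk
    have h0 : Ω0 = ∅ := (pr.nos rfl).2.2.2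
    obtain ⟨G1, TT, D, r, a1, a2, a3, a4, a5, a6, a7, a8, a9, a10⟩ :=
      A.stepA hcss k (20000000 * u) u hn (by omega) (by omega)
        (by nlinarith only [Nat.mul_le_mul_right u huk]) G (Ω0 ∪ Ω1)ᶜ hs
        (fun a _ ρ => (pr.h4 rfl a _ (by omega) ρ).trans (Nat.le_add_right _ _))
    have hap : ∀ y x, G y x = G1 y x + TT y x + D y x := fun y x => by rw [a1]; rfl
    have e : DA false u (G1 + D) (Ω0 ∪ Ω1) = D := by
      funext y x
      unfold DA
      by_cases c : y ∉ Ω0 ∪ Ω1 ∧ x ∉ Ω0 ∪ Ω1 ∧ lam x y < dl false u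
      · rw [flt_pos (p := fun y x => y ∉ Ω0 ∪ Ω1 ∧ x ∉ Ω0 ∪ Ω1 ∧ lam x y < dl false u) c]
        have : G1 y x = 0 := by
          by_contra c1
          have := a8 y (mem_compl.2 c.1) x (mem_compl.2 c.2.1) c1
          have := c.2.2
          simp only [dl, Bool.false_eq_true, if_false] at this
          omega
        simp [this]
      · rw [flt_neg (p := fun y x => y ∉ Ω0 ∪ Ω1 ∧ x ∉ Ω0 ∪ Ω1 ∧ lam x y < dl false u) c]
        by_contra c1
        have := a7 y x (Ne.symm c1)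
        exact c ⟨mem_compl.1 this.1, mem_compl.1 this.2.1, by
          simpa only [dl, Bool.false_eq_true, if_false] using this.2.2.2⟩
    refine ⟨G1 + D, TT, r, ⟨by rw [a1]; abel, a2, a3, fun y x c =>
      ⟨mem_compl.1 (a6 y x c).1, mem_compl.1 (a6 y x c).2.1⟩, fun v => ?_, ?_⟩, ?_⟩
    · by_cases hv : v ∈ Ω0 ∪ Ω1
      · have : out TT v = 0 := sum_eq_zero fun x _ => by
          by_contra c; exact mem_compl.1 (a6 v x c).1 hv
        omega
      · obtain ⟨-, -, t1, t2⟩ := pr.t1 v hv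
        have b1 : ∑ x, (if lam x v < 2 * (20000000 * u) then G v x else 0) ≤
            lo G (k + k / 2) v := sum_le_sum fun x _ => by
          by_cases c : G v x = 0
          · simp [c]
          · have := lam_rev (ne _ _ c)
            split_ifs <;> omega
        have b2 : ∑ x, (if lam v x < 2 * (20000000 * u) then G x v else 0) ≤
            li G (k + k / 2) v := sum_le_sum fun x _ => by
          by_cases c : G x v = 0
          · simp [c]
          · have := lam_rev (ne _ _ c)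
            split_ifs <;> omega
        have := a9 v
        omega
    · have b1 := (hcrb n k G hn).2.1 _ pr.far
      have b2 : wsum TT (fun y x => if lam x y < 2 * (20000000 * u) then 1 else 0) ≤
          size (co G 1 (k / 2)) := by
        refine sum_le_sum fun y _ => sum_le_sum fun x _ => ?_
        by_cases c : TT y x = 0
        · simp [c]
        have := hap y x
        have c1 : lam x y ≠ 0 := fun c2 => ne y x (by omega) (lam_eq_zero.1 c2).symm
        beta_reduce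
        split_ifs with c2
        · unfold co
          rw [flt_pos (p := fun y x => 1 ≤ lam x y ∧ lam x y < k / 2) ⟨by omega, by omega⟩]
          omega
        · omega
      omega
    · rw [e]
      rw [wsum_add, compl_compl] at a10
      have b1 : (∑ x ∈ (Ω0 ∪ Ω1)ᶜ, ∑ y ∈ (Ω0 ∪ Ω1)ᶜ,
          if x ≠ y ∧ G x y = 0 ∧ lam x y < 2 * (20000000 * u) then k - lam x y else 0) ≤
          Mis false k G (Ω0 ∪ Ω1)ᶜ := sum_le_sum fun x _ => sum_le_sum fun y _ => by
        unfold ms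
        split_ifs with c1 c2
        · exact le_rfl
        · exact absurd ⟨c1.1, fun hh => absurd hh (by simp), c1.2.1⟩ c2
        · exact Nat.zero_le _
        · exact le_rfl
      have b2 : (Ω0 ∪ Ω1).card = Ω1.card := by rw [h0, empty_union]
      rw [b2] at a10
      unfold Far
      omega

end Pool.Agent.MP_2634a8_co.X.CLEAN.S
end

section
namespace Pool.Agent.MP_2634a8_co.X.CLEAN.S

open Finset

namespace R1

variable {n : ℕ} [NeZero n] {sm : Bool} {k u b h : ℕ} {G Lad V X H1 R : Mat (ZMod n)}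
  {Ω0 Ω1 : Finset (ZMod n)}

lemma lad_or (hp : PR sm k u b h G Lad V X Ω0 Ω1) {x y : ZMod n} (hx : x ∉ Ω0 ∪ Ω1)
    (hy : y ∉ Ω0 ∪ Ω1) (h1 : 2 * (k / 500) ≤ lam x y) (h2 : lam x y ≤ 8 * (k / 500)) :
    nc sm x y ∨ Lad x y ≠ 0 := by
  by_cases h : nc sm x y
  · exact Or.inl h
  · unfold nc at h
    push Not at h
    rw [hp.lad2 h.1 x (fun h' => hx (mem_union_left _ h')) y (fun h' => hy (mem_union_left _ h'))
      h.2 h1 h2]
    exact Or.inr one_ne_zero

lemma hopB (hp : PR sm k u b h G Lad V X Ω0 Ω1) (hk : k < n) (hk0 : 500 ≤ k)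
    (hR : ∀ x ∉ Ω0 ∪ Ω1, ∀ y ∉ Ω0 ∪ Ω1, 1 ≤ lam x y → lam x y ≤ k → G x y ≤ H1 x y + R x y)
    {v : ZMod n} (hv : v ∉ Ω0 ∪ Ω1) {p q j : ℕ} (h1 : 2 * (k / 500) ≤ p) (hq : q ≤ 8 * (k / 500))
    (hqj : q ≤ j) (hj : j ≤ k) :
    mo (F.idl k H1 + Lad) p q v ≤
      F.mO sm G j v + ((Ω0 ∪ Ω1) ∩ win (v + 1) k).card + out R v ∧
    mi (F.idl k H1 + Lad) p q v ≤
      F.mI sm G j v + ((Ω0 ∪ Ω1) ∩ win (v - (k : ZMod n)) k).card + inn R v := by
  refine ⟨F.cntO (Lad := Lad) hk hR hv hj _ fun d h => ?_,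
    F.cntI (Lad := Lad) hk hR hv hj _ fun d h => ?_⟩
  · rw [mem_filter, mem_Icc] at h
    refine ⟨by omega, by omega, Or.inl h.2, ?_⟩
    by_cases ho : v + (d : ZMod n) ∈ Ω0 ∪ Ω1
    · exact Or.inr (Or.inl ho)
    have hl : lam v (v + (d : ZMod n)) = d := lam_add_nat v (by omega)
    exact (lad_or hp hv ho (by omega) (by omega)).imp id Or.inr
  · rw [mem_filter, mem_Icc] at h
    refine ⟨by omega, by omega, Or.inl h.2, ?_⟩
    by_cases ho : v - (d : ZMod n) ∈ Ω0 ∪ Ω1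
    · exact Or.inr (Or.inl ho)
    have hl : lam (v - (d : ZMod n)) v = d := lam_sub_nat v (by omega)
    exact (lad_or hp ho hv (by omega) (by omega)).imp id Or.inr

lemma idealB (hp : PR sm k u b h G Lad V X Ω0 Ω1) (hk0 : 500 ≤ k) (hH : H1 ≤ G) :
    Ideal k (F.idl k H1 + Lad) := fun x y => by
  have h1 := hp.lad1 x y
  have h2 : F.idl k H1 x y ≤ G x y := (F.idl_le k H1 x y).trans (hH x y)
  have h3 := hp.simple.1 x y
  simp only [Pi.add_apply]
  by_cases hl : Lad x y = 0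
  · rw [hl, add_zero]
    exact ⟨by omega, fun h0 => (F.idl_ne.1 h0).1⟩
  · have h4 := h1.2 hl
    have h5 : F.idl k H1 x y = 0 := by
      by_contra h0
      have hs : sm = true := by
        by_contra hs
        rw [(hp.nos (by simpa using hs)).1] at hl
        exact hl rfl
      have := hp.gnc x y (by omega) (F.idl_ne.1 h0).1.2 hs
      omega
    exact ⟨by omega, fun _ => by omega⟩

end R1

theorem r1 : R1_s := by
  intro n _ sm k u b h G Lad V X H Cy H1 Z Q R Ω0 Ω1 r r2 hp ha hm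
  have hn := hp.hn
  have hu := hp.hu
  have huk := hp.huk
  have hhu := hp.hhu
  have hk : k < n := by omega
  have hk0 : 500 ≤ k := by omega
  have hG : ∀ x y, G x y = H x y + Cy x y := fun x y => by rw [ha.eq]; rfl
  have o1 : Off H1 (Ω0 ∪ Ω1) := fun x y h0 => hm.off x y (by simp only [Pi.add_apply]; omega)
  have hH : H1 ≤ G := fun x y => by
    show H1 x y ≤ G x y
    by_cases h0 : H1 x y = 0
    · omega
    · have := hm.hz x (o1 x y h0).1 y (o1 x y h0).2
      have := hG x y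
      omega
  have e : B0 k H1 Lad = F.idl k H1 + Lad := by
    unfold B0
    congr 1
    funext x y
    by_cases h1 : lam x y ≤ k
    · rw [flt_pos (p := fun x y => lam x y ≤ k) h1]
      unfold F.idl
      split_ifs with h2
      · rfl
      · have hxy : x = y := lam_eq_zero.1 (by omega)
        have h3 : H1 x y ≤ G x y := hH x y
        rw [hxy, hp.simple.2] at h3
        rw [hxy]; omega
    · rw [flt_neg (p := fun x y => lam x y ≤ k) h1]
      unfold F.idl
      rw [if_neg (by omega)]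
  have hR : ∀ x ∉ Ω0 ∪ Ω1, ∀ y ∉ Ω0 ∪ Ω1, 1 ≤ lam x y → lam x y ≤ k →
      G x y ≤ H1 x y + (Cy + Z) x y := fun x hx y hy _ _ => by
    have := hm.hz x hx y hy
    have := hG x y
    simp only [Pi.add_apply]; omega
  rw [e]
  refine ⟨R1.idealB hp hk0 hH, fun x y h0 => ?_, fun v hv => ?_⟩
  · by_cases hl : Lad x y = 0
    · refine o1 x y (ne_of_le (F.idl_le k H1) ?_)
      simp only [Pi.add_apply] at h0; omega
    · have a0 := hp.off0 x y (by simp only [Pi.add_apply]; omega)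
      have a1 := hp.off1 x y (by simp only [Pi.add_apply]; omega)
      simp only [mem_union, not_or]
      exact ⟨⟨a0.1, a1.1⟩, a0.2, a1.2⟩
  have l1 : out (Cy + Z) v ≤ 180003 * u ∧ inn (Cy + Z) v ≤ 180003 * u := by
    have := ha.load v
    have := ha.bal v
    have := hm.zl v
    rw [out_add, inn_add]; omega
  have w1 := hp.hw (v + 1)
  have w2 := hp.hw (v - (k : ZMod n))
  have t1 : F.mO sm G (k - k / 2) v ≤ 60000 * u := (hp.t1 v hv).1
  have t2 : F.mI sm G (k - k / 2) v ≤ 60000 * u := (hp.t1 v hv).2.1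
  have t3 : F.mO sm G k v ≤ b := (hp.tb v hv).1.1
  have t4 : F.mI sm G k v ≤ b := (hp.tb v hv).1.2.1
  have hE := F.hopE (sm := sm) (Lad := Lad) hk hR hv (p := 2 * (2500000 * u))
    (q := 4 * (2500000 * u)) (j := k - k / 2) (by omega) (by omega) (by omega)
  refine ⟨fun p q h1 h2 => ?_, fun hd => ?_, ?_, ?_⟩
  · have := R1.hopB hp hk hk0 hR hv h1 h2 (j := k - k / 2) (by omega) (by omega)
    omega
  · have := F.tameB (Lad := Lad) hk hR hv hd
    omega
  · have := hE.1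
    omega
  · have := hE.2
    omega

end Pool.Agent.MP_2634a8_co.X.CLEAN.S
end

section
namespace Pool.Agent.MP_2634a8_co.X.CLEAN.S

open Finset

namespace R2

section gen
variable {V : Type} [Fintype V] [DecidableEq V]

omit [Fintype V] [DecidableEq V] in
lemma flt_add (M N : Mat V) (p : V → V → Prop) : flt (M + N) p = flt M p + flt N p := by
  funext u v
  by_cases h : p u v
  · simp only [Pi.add_apply, flt_pos h]
  · simp only [Pi.add_apply, flt_neg h]

omit [Fintype V] [DecidableEq V] in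
lemma le_flt {M N : Mat V} {p : V → V → Prop} (h : M ≤ N) (hp : ∀ u v, M u v ≠ 0 → p u v) :
    M ≤ flt N p := fun u v => by
  by_cases h0 : M u v = 0
  · exact h0.le.trans (Nat.zero_le _)
  · rw [flt_pos (hp u v h0)]; exact h u v

omit [Fintype V] [DecidableEq V] in
lemma flt_le' (M : Mat V) (p : V → V → Prop) : flt M p ≤ M := fun u v => flt_le M p u v

end gen

variable {n : ℕ} [NeZero n]

lemma out_lo {M G : Mat (ZMod n)} {Ω : Finset (ZMod n)} {q a : ℕ} (h : M ≤ G) (ho : Off M Ω)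
    (hq : ∀ u v, M u v ≠ 0 → q ≤ lam u v) (ha : ∀ v ∉ Ω, lo G q v ≤ a ∧ li G q v ≤ a)
    (v : ZMod n) : out M v ≤ a ∧ inn M v ≤ a := by
  by_cases hv : v ∈ Ω
  · constructor
    · refine (sum_eq_zero fun x _ => ?_).trans_le (Nat.zero_le _)
      by_contra h0; exact (ho _ _ h0).1 hv
    · refine (sum_eq_zero fun x _ => ?_).trans_le (Nat.zero_le _)
      by_contra h0; exact (ho _ _ h0).2 hv
  · refine ⟨le_trans (sum_le_sum fun x _ => ?_) (ha v hv).1,
      le_trans (sum_le_sum fun x _ => ?_) (ha v hv).2⟩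
    · by_cases h0 : M v x = 0
      · exact h0.le.trans (Nat.zero_le _)
      · rw [if_pos (hq _ _ h0)]; exact h v x
    · by_cases h0 : M x v = 0
      · exact h0.le.trans (Nat.zero_le _)
      · rw [if_pos (hq _ _ h0)]; exact h x v

end R2

open R2 in
theorem r2 (crb : CRB_s) : R2_s := by
  intro n _ sm k u b h G Lad V X H Cy H1 Z Q R Ω0 Ω1 r r2 P A M
  have hn := P.hn
  have hu := P.hu
  have huk := P.huk
  have o1 : Off H1 (Ω0 ∪ Ω1) := M.off.anti (le_self_add.trans le_self_add)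
  have l1 : H1 ≤ H := fun x y => by
    by_cases h0 : H1 x y = 0
    · exact h0.le.trans (Nat.zero_le _)
    · rw [M.hz x (o1 x y h0).1 y (o1 x y h0).2]; exact Nat.le_add_right _ _
  have l2 : H ≤ G := by rw [A.eq]; exact le_self_add
  have ne : ∀ {x y}, G x y ≠ 0 → x ≠ y := fun {x y} h0 e => h0 (e ▸ P.simple.2 x)
  have hd : 1 ≤ dl sm u := by unfold dl; split_ifs <;> omega
  set F : Mat (ZMod n) := flt H1 fun x y => ¬ lam x y ≤ k with hF
  have f1 : F ≤ H1 := flt_le' _ _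
  have f2 : F ≤ G := f1.trans (l1.trans l2)
  have eNI : NI k H1 Q = F + Q := rfl
  have eco : ∀ p q, co (NI k H1 Q) p q = co F p q + co Q p q := fun p q => flt_add _ _ _
  have c1 : ∀ (N : Mat (ZMod n)) p q, co N p q ≤ N := fun N p q => flt_le' _ _
  have c2 : ∀ {N : Mat (ZMod n)} {p q y x}, co N p q y x ≠ 0 →
      p ≤ lam x y ∧ lam x y < q ∧ N y x ≠ 0 := fun h0 => by
    have := flt_ne.1 h0; exact ⟨this.1.1, this.1.2, this.2⟩
  have s1 : size (co F 0 (8 * (k / 500))) ≤ 4 * u ^ 2 := by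
    refine le_trans (size_mono ?_) ((crb n k G hn).2.1 _ P.far)
    refine le_flt ((c1 _ _ _).trans f2) fun y x h0 => ?_
    obtain ⟨-, h2, h3⟩ := c2 h0
    have : lam x y ≠ 0 := fun e => ne (ne_of_le f2 h3) (lam_eq_zero.1 e).symm
    omega
  have s2 : ∀ N : Mat (ZMod n), N ≤ Q + R → size (co N 1 (k + 1)) ≤ 10 * u ^ 2 := fun N hN => by
    have h1 := (crb n k N hn).1
    have h2 : ∀ t, cross N t ≤ 5 * u ^ 2 := fun t => (wsum_mono hN _).trans (M.cr t)
    have := h2 0
    have := h2 k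
    omega
  refine ⟨fun y x h0 => ?_, fun v => ?_, fun v => ?_, ?_, ?_, ?_⟩
  · rw [eNI] at h0
    rcases B.add_ne h0 with h0 | h0
    · exact Nat.pos_of_ne_zero fun e => ne (ne_of_le f2 h0) (lam_eq_zero.1 e).symm
    · exact hd.trans (M.qs y x h0)
  · have h1 := out_lo (q := k + 1) (a := b) f2 (o1.anti f1)
      (fun x y h0 => by have := (flt_ne.1 h0).1; omega)
      (fun v hv => ⟨(P.tb v hv).1.2.2.1, (P.tb v hv).1.2.2.2⟩) v
    have h2 := M.q1 v
    rw [eNI, out_add, inn_add]; omega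
  · have h1 := out_lo (q := k + k / 2) (a := 60000 * u) ((c1 F 0 (8 * (k / 500))).trans f2)
      (o1.anti ((c1 _ _ _).trans f1))
      (fun y x h0 => by
        obtain ⟨-, h2, h3⟩ := c2 h0
        have := lam_rev (ne (ne_of_le f2 h3))
        omega)
      (fun v hv => ⟨(P.t1 v hv).2.2.1, (P.t1 v hv).2.2.2⟩) v
    have h2 := M.q1 v
    have h3 := out_mono (c1 Q 0 (8 * (k / 500))) v
    have h4 := inn_mono (c1 Q 0 (8 * (k / 500))) v
    rw [eco, out_add, inn_add]; omega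
  · have h1 : size (co Q 0 (8 * (k / 500))) ≤ size (co Q 1 (k + 1)) := by
      refine size_mono (le_flt (c1 _ _ _) fun y x h0 => ?_)
      obtain ⟨-, h2, h3⟩ := c2 h0
      have := M.qs y x h3
      omega
    have h2 := s2 Q le_self_add
    rw [eco, size_add]; omega
  · refine le_trans (size_mono (le_flt (c1 _ _ _) fun y x h0 => ?_)) (s2 R le_add_self)
    obtain ⟨h1, h2, -⟩ := c2 h0
    omega
  · have hDA : DA sm u H (Ω0 ∪ Ω1) ≤ H1 := fun y x => by
      by_cases h0 : DA sm u H (Ω0 ∪ Ω1) y x = 0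
      · exact h0.le.trans (Nat.zero_le _)
      obtain ⟨⟨hy, hx, hl⟩, h1⟩ := flt_ne.1 h0
      have h2 := lam_rev (ne (ne_of_le l2 h1))
      have h3 : Z y x = 0 := by
        by_contra h3
        have := M.zs y x h3
        unfold dl at this hl
        split_ifs at this hl <;> omega
      have h4 := M.hz y hy x hx
      exact (flt_le _ _ _ _).trans (by omega)
    cases sm with
    | false =>
      have e1 : thr false k u = dl false u := rfl
      have h1 : co (NI k H1 Q) 0 (thr false k u) ≤ DA false u H (Ω0 ∪ Ω1) := by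
        have h2 : co Q 0 (dl false u) = 0 := by
          funext y x
          by_contra h0
          obtain ⟨-, h2, h3⟩ := c2 h0
          have := M.qs y x h3
          omega
        rw [eco, e1, h2, add_zero]
        refine le_flt ((c1 _ _ _).trans (f1.trans l1)) fun y x h0 => ?_
        obtain ⟨-, h2, h3⟩ := c2 h0
        have := o1 y x (ne_of_le f1 h3)
        exact ⟨this.1, this.2, h2⟩
      have h2 := Nat.mul_le_mul_left n (size_mono h1)
      have h3 : Far k (DA false u H (Ω0 ∪ Ω1)) ≤ Far k H1 := wsum_mono hDA _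
      omega
    | true =>
      have e1 : thr true k u = 8 * (k / 500) := rfl
      have h0 : DA true u H (Ω0 ∪ Ω1) = 0 := by
        funext y x
        by_contra h0
        obtain ⟨⟨-, -, hl⟩, h1⟩ := flt_ne.1 h0
        have h2 : lam x y = 0 := by simpa [dl] using hl
        exact ne (ne_of_le l2 h1) (lam_eq_zero.1 h2).symm
      have h1 : size (co F 0 (8 * (k / 500))) * n ≤ Far k (co F 0 (8 * (k / 500))) +
          size (co F 0 (8 * (k / 500))) * (2 * k) := by
        rw [← wsum_const, ← wsum_const, Far, ← wsum_fadd]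
        refine wsum_le fun y x h0 => ?_
        obtain ⟨-, h2, h3⟩ := c2 h0
        have := lam_rev (ne (ne_of_le f2 h3))
        omega
      have h2 : Far k (co F 0 (8 * (k / 500))) ≤ Far k H1 := wsum_mono ((c1 _ _ _).trans f1) _
      have h3 : size (co F 0 (8 * (k / 500))) * (2 * k) ≤ k ^ 3 := by
        have h4 : (4 * u) ^ 2 ≤ k ^ 2 := Nat.pow_le_pow_left (by omega) 2
        calc _ ≤ 4 * u ^ 2 * (2 * k) := Nat.mul_le_mul_right _ s1
          _ ≤ (4 * u) ^ 2 * k := by linarith only [Nat.zero_le (u ^ 2 * k)]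
          _ ≤ k ^ 2 * k := Nat.mul_le_mul_right _ h4
          _ = k ^ 3 := by ring
      have h4 : Far k (0 : Mat (ZMod n)) = 0 := wsum_zero _
      rw [h0, h4, size_zero, eco, e1, size_add, if_pos rfl, mul_add, mul_comm n]
      omega

end Pool.Agent.MP_2634a8_co.X.CLEAN.S
end

section
namespace Pool.Agent.MP_2634a8_co.X.CLEAN.S

open Finset

namespace RS

variable {n : ℕ} [NeZero n]

omit [NeZero n] in
lemma co_ne {M : Mat (ZMod n)} {p q : ℕ} {y x : ZMod n} :
    co M p q y x ≠ 0 ↔ (p ≤ lam x y ∧ lam x y < q) ∧ M y x ≠ 0 := flt_ne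

omit [NeZero n] in
lemma co_le (M : Mat (ZMod n)) (p q : ℕ) : co M p q ≤ M := fun u v => flt_le M _ u v

omit [NeZero n] in
lemma co_mono (M : Mat (ZMod n)) {p q p' q' : ℕ} (hp : p' ≤ p) (hq : q ≤ q') :
    co M p q ≤ co M p' q' := fun y x => by
  unfold co
  by_cases h : p ≤ lam x y ∧ lam x y < q
  · rw [flt_pos (p := fun y x => p ≤ lam x y ∧ lam x y < q) h,
      flt_pos (p := fun y x => p' ≤ lam x y ∧ lam x y < q') (by omega)]
  · rw [flt_neg (p := fun y x => p ≤ lam x y ∧ lam x y < q) h]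
    exact Nat.zero_le _

lemma co_split (M : Mat (ZMod n)) {p q : ℕ} (hpq : p ≤ q) :
    M = co M 0 p + co M p q + co M q n := by
  funext y x
  have h := lam_lt x y
  simp only [Pi.add_apply]
  unfold co
  by_cases h1 : lam x y < p
  · rw [flt_pos (p := fun y x => 0 ≤ lam x y ∧ lam x y < p) (by omega),
      flt_neg (p := fun y x => p ≤ lam x y ∧ lam x y < q) (by omega),
      flt_neg (p := fun y x => q ≤ lam x y ∧ lam x y < n) (by omega)]
    rfl
  · by_cases h2 : lam x y < q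
    · rw [flt_neg (p := fun y x => 0 ≤ lam x y ∧ lam x y < p) (by omega),
        flt_pos (p := fun y x => p ≤ lam x y ∧ lam x y < q) (by omega),
        flt_neg (p := fun y x => q ≤ lam x y ∧ lam x y < n) (by omega)]
      omega
    · rw [flt_neg (p := fun y x => 0 ≤ lam x y ∧ lam x y < p) (by omega),
        flt_neg (p := fun y x => p ≤ lam x y ∧ lam x y < q) (by omega),
        flt_pos (p := fun y x => q ≤ lam x y ∧ lam x y < n) (by omega)]
      omega

lemma co_Lam (M : Mat (ZMod n)) (q : ℕ) : n * size (co M 1 q) ≤ Lam M + q * size M := by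
  have h1 : wsum (co M 1 q) (fun _ _ => n) ≤ wsum (co M 1 q) fun u v => lam u v + q :=
    wsum_le fun y x h0 => by
      have h := (co_ne.1 h0).1
      have hne : x ≠ y := fun he => by rw [he, lam_self] at h; omega
      have := lam_rev hne
      omega
  rw [wsum_fadd, wsum_const, wsum_const] at h1
  have h2 : wsum (co M 1 q) lam ≤ Lam M := wsum_mono (co_le M 1 q) _
  have h3 : size (co M 1 q) * q ≤ size M * q := Nat.mul_le_mul_right _ (size_mono (co_le M 1 q))
  rw [mul_comm n, mul_comm q]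
  omega

omit [NeZero n] in
lemma split (k : ℕ) (H1 Q R Lad : Mat (ZMod n)) :
    H1 + Q + R + Lad = B0 k H1 Lad + NI k H1 Q + R := by
  have h := flt_split H1 fun x y => lam x y ≤ k
  unfold B0 NI
  funext u v
  have := congrFun (congrFun h u) v
  simp only [Pi.add_apply] at this ⊢
  omega

omit [NeZero n] in
lemma NI_le (k : ℕ) (H1 Q R : Mat (ZMod n)) : NI k H1 Q ≤ H1 + Q + R := fun u v => by
  have := flt_le H1 (fun x y => ¬ lam x y ≤ k) u v
  unfold NI
  simp only [Pi.add_apply]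
  omega

end RS

open RS in
theorem rs (hgc : GC_s) (hsac : SAC_s) (h1 : R1_s) (h2 : R2_s) : RS_s := by
  intro n _ sm k u b h G Lad V X H Cy H1 Z Q R Ω0 Ω1 r r2 hP hA hM
  obtain ⟨a1, a2, a3⟩ := h1 n sm k u b h G Lad V X H Cy H1 Z Q R Ω0 Ω1 r r2 hP hA hM
  obtain ⟨c1, c2, c3, c4, c5, -⟩ := h2 n sm k u b h G Lad V X H Cy H1 Z Q R Ω0 Ω1 r r2 hP hA hM
  have hn := hP.hn
  have hu := hP.hu
  have huk := hP.huk
  have hb := hP.hb
  have hr1 := hM.r1
  have hoN : Off (NI k H1 Q) (Ω0 ∪ Ω1) := hM.off.anti (NI_le k H1 Q R)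
  have hoR : Off R (Ω0 ∪ Ω1) := hM.off.anti le_add_self
  have hθ : thr sm k u ≤ 8 * (k / 500) := by
    unfold thr
    split_ifs <;> omega
  have e0 := split k H1 Q R Lad
  have hLam : Lam H1 + Lam Q + Lam R ≤ Lam (H1 + Q + R + Lad) := by
    rw [Lam_add, Lam_add, Lam_add]; omega
  have hE : co (NI k H1 Q) (thr sm k u) (8 * (k / 500)) = 0 ∨
      20000000 * u ≤ thr sm k u ∧ sm = false := by
    cases sm
    · exact Or.inr ⟨by simp [thr], rfl⟩
    · refine Or.inl (funext fun y => funext fun x => ?_)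
      by_contra hc
      have := (co_ne.1 hc).1
      simp only [thr, if_true] at this
      omega
  generalize thr sm k u = θ at *
  generalize NI k H1 Q = N at *
  generalize B0 k H1 Lad = B1 at *
  have l1 : co N 0 θ ≤ co N 0 (8 * (k / 500)) := co_mono N le_rfl hθ
  have l2 : co N θ (8 * (k / 500)) ≤ co N 0 (8 * (k / 500)) := co_mono N (Nat.zero_le _) le_rfl
  have hw : u ≤ k / 500 := by omega
  obtain ⟨B, P, Q3, d1, d2, d3, d4, d5, d6, d7⟩ := DE.stepDE hgc hsac sm B1 (co R 0 1)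
    (co N 0 θ + co R 1 (8 * (k / 500))) (co N θ (8 * (k / 500))) (Ω0 ∪ Ω1) (k / 500)
    (2500000 * u) (180004 * u + b) (by omega) (fun x y => (a1 x y).1) a2
    (fun y x h0 => by
      have := (co_ne.1 h0).1
      exact (lam_eq_zero.1 (by omega : lam x y = 0)).symm)
    ((hoN.anti (co_le _ _ _)).add (hoR.anti (co_le _ _ _)))
    (fun y x h0 => by
      by_cases h3 : co N 0 θ y x = 0
      · have h4 : co R 1 (8 * (k / 500)) y x ≠ 0 := by
          simp only [Pi.add_apply] at h0; omega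
        exact (co_ne.1 h4).1
      · have h4 := co_ne.1 h3
        have := c1 y x h4.2
        omega)
    (fun v => by
      have := c3 v
      have := hr1 v
      have := out_mono l1 v
      have := inn_mono l1 v
      have := out_mono (co_le R 1 (8 * (k / 500))) v
      have := inn_mono (co_le R 1 (8 * (k / 500))) v
      rw [out_add, inn_add]
      omega)
    (by omega)
    (by
      have := size_mono l1
      have e : 24 * u * u ≤ (180004 * u + b) * (k / 500) := Nat.mul_le_mul (by omega) hw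
      have e' : 24 * u * u = 24 * u ^ 2 := by ring
      rw [size_add]
      omega)
    (fun v hv => by
      have := (a3 v hv).1 (4 * (k / 500)) (8 * (k / 500)) (by omega) le_rfl
      omega)
    (by
      rcases hE with hE | ⟨hE, hs⟩
      · exact Or.inl hE
      · refine Or.inr ⟨by omega, fun v hv => (a3 v hv).2.2, hoN.anti (co_le _ _ _),
          fun y x h0 => ⟨?_, fun h3 => absurd h3 (by simp [hs])⟩, fun v => ?_, ?_⟩
        · have := (co_ne.1 h0).1
          omega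
        · have := c3 v
          have := out_mono l2 v
          have := inn_mono l2 v
          omega
        · have := size_mono l2
          have e : (2500000 * u) ^ 2 = 6250000000000 * u ^ 2 := by ring
          omega)
  have s1 := co_split N hθ
  have s2 := co_split R (p := 1) (q := 8 * (k / 500)) (by omega)
  have s3 := co_Lam R (8 * (k / 500))
  have hK1 := co_le N (8 * (k / 500)) n
  have hK2 := co_le R (8 * (k / 500)) n
  have hK3 : ∀ y x, co N (8 * (k / 500)) n y x ≠ 0 → 8 * (k / 500) ≤ lam x y :=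
    fun y x h0 => (co_ne.1 h0).1.1
  have hK4 : ∀ y x, co R (8 * (k / 500)) n y x ≠ 0 → 8 * (k / 500) ≤ lam x y :=
    fun y x h0 => (co_ne.1 h0).1.1
  rw [size_add (co N 0 θ)] at d7
  generalize co N (8 * (k / 500)) n = K1 at *
  generalize co R (8 * (k / 500)) n = K2 at *
  have e1 : H1 + Q + R + Lad = B1 + co R 0 1 + (co N 0 θ + co R 1 (8 * (k / 500))) +
      co N θ (8 * (k / 500)) + (K1 + K2) := by
    rw [e0]
    funext y x
    have t1 := congrFun (congrFun s1 y) x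
    have t2 := congrFun (congrFun s2 y) x
    simp only [Pi.add_apply] at t1 t2 ⊢
    omega
  have e2 : B + (K1 + K2 + Q3) = B + Q3 + (K1 + K2) := by abel
  have hB : B ≤ B1 := by rw [d1]; exact le_self_add
  refine ⟨B, K1 + K2 + Q3, size (co R 0 1) + size (co N θ (8 * (k / 500))),
    ⟨a1.anti hB, (a2.anti hB).add (((hoN.anti hK1).add (hoR.anti hK2)).add d2), fun v hv => ?_,
      fun v hv hd => ?_, fun y x h0 => ?_, fun v => ?_⟩, ⟨?_, fun M t hp => ?_⟩, ?_⟩
  · have := (a3 v hv).1 (2 * (k / 500)) (4 * (k / 500)) le_rfl (by omega)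
    have := mo_rem B P (2 * (k / 500)) (q := 4 * (k / 500)) (by omega) v
    have := mi_rem B P (2 * (k / 500)) (q := 4 * (k / 500)) (by omega) v
    have := d4 v
    rw [← d1] at *
    omega
  · have := (a3 v hv).2.1 hd
    have := mo_rem B P 1 (q := k) (by omega) v
    have := mi_rem B P 1 (q := k) (by omega) v
    have := d4 v
    rw [← d1] at *
    omega
  · by_contra hc
    have t1 : K1 y x = 0 := by by_contra h3; exact hc (hK3 y x h3)
    have t2 : K2 y x = 0 := by by_contra h3; exact hc (hK4 y x h3)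
    have t3 : Q3 y x = 0 := by by_contra h3; exact hc (d3 y x h3)
    simp only [Pi.add_apply] at h0
    omega
  · have := c2 v
    have := hr1 v
    have := d4 v
    have := out_mono hK1 v
    have := inn_mono hK1 v
    have := out_mono hK2 v
    have := inn_mono hK2 v
    rw [out_add, out_add, inn_add, inn_add]
    omega
  · rw [e1, e2]
    exact d5.add_right _
  · rw [e2, add_comm (B + Q3), ← add_assoc] at hp
    rw [e1, add_comm _ (K1 + K2), ← add_assoc M]
    exact d6 _ t hp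
  · rw [e1, Lam_add] at hLam
    rw [e2, Lam_add (B + Q3)]
    rw [mul_add n (size (co N 0 θ))] at d7
    omega

end Pool.Agent.MP_2634a8_co.X.CLEAN.S
end

section
namespace Pool.Agent.MP_2634a8_co.X.CLEAN.S

open Finset

theorem wb (hA : CRA_s) (hB : CRB_s) (hW : WW_s) : WB_s := by
  intro n _ sm k u b h G Lad V X H Cy Ω0 Ω1 r pr ao
  have hu := pr.hu
  have huk := pr.huk
  have hn := pr.hn
  have eG : ∀ x y, G x y = H x y + Cy x y := fun x y => by rw [ao.eq]; rfl
  have c0 : ∀ x y, x ∈ Ω1 ∨ y ∈ Ω1 → H x y = G x y := fun x y hxy => by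
    have : Cy x y = 0 := by
      by_contra hc
      have := ao.off x y hc
      simp only [mem_union] at this
      tauto
    have := eG x y
    omega
  have g0 : ∀ x y, x ∈ Ω0 ∨ y ∈ Ω0 → G x y = 0 := fun x y hxy => by
    by_contra hc
    have := pr.off0 x y (by simp only [Pi.add_apply]; omega)
    tauto
  have sp : ∀ (f : ZMod n → ℕ) (S : Finset (ZMod n)), (∀ x ∈ Ω0, f x = 0) →
      ∑ x ∈ S, f x ≤ ∑ x ∈ S ∩ (Ω0 ∪ Ω1)ᶜ, f x + ∑ x ∈ Ω1, f x := by
    intro f S hf
    rw [← sum_inter_add_sum_sdiff S (Ω0 ∪ Ω1)ᶜ]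
    refine Nat.add_le_add_left (sum_le_sum_of_ne_zero fun x hx h0 => ?_) _
    exact (mem_union.1 (not_not.1 (mt mem_compl.2 (mem_sdiff.1 hx).2))).resolve_left
      fun h1 => h0 (hf x h1)
  have hw1 : ∀ a, (Ω1 ∩ win a k).card ≤ h := fun a =>
    (card_le_card (inter_subset_inter_right subset_union_right)).trans (pr.hw a)
  have dG : ∀ v, out G v ≤ k ∧ inn G v ≤ k := fun v => by
    have h1 := pr.deg v
    have h2 := pr.bal v
    simp only [out_add, inn_add] at h1 h2
    omega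
  have hd : dl sm u ≤ 20000000 * u := by unfold dl; split_ifs <;> omega
  obtain ⟨H', P, Cw, Z, Q, r2, s1, s2, -, s3⟩ := B.stepB (dl sm u) (7 * u) (25 * u ^ 2)
    (12 * u ^ 2) H Ω1 (Ω0 ∪ Ω1)ᶜ (fun v => ∑ x ∈ Ω1, G v x + out V v + inn V v)
    (fun x y => by have := eG x y; have := pr.simple.1 x y; omega)
    (disjoint_left.2 fun x hx hx' => mem_compl.1 hx' (mem_union_right _ hx))
    (fun v hv j hj => by
      have a1 := pr.h5 v j hj
      have a2 := sp (G v) (win (v + 1) j) fun x hx => g0 v x (Or.inr hx)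
      have a3 : out (Lad + X) v = 0 :=
        sum_eq_zero fun x _ => not_not.1 fun hc => (pr.off1 v x hc).1 hv
      have a4 : inn (Lad + X) v = 0 :=
        sum_eq_zero fun x _ => not_not.1 fun hc => (pr.off1 x v hc).2 hv
      have a5 : ∑ y ∈ win (v + 1) j ∩ (Ω0 ∪ Ω1)ᶜ, G y v ≤ ∑ y ∈ win (v + 1) j, G y v :=
        sum_le_sum_of_subset inter_subset_left
      simp only [out_add, inn_add] at a1 a3 a4
      simp only [fun y => c0 y v (Or.inr hv), fun y => c0 v y (Or.inl hv)]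
      omega)
    (fun a => by
      cases sm
      · have hs : win a (dl false u) ∩ (Ω0 ∪ Ω1)ᶜ ⊆ win a k := fun x hx =>
          mem_win.2 (by have := mem_win.1 (mem_inter.1 hx).1; omega)
        refine ((sum_le_sum fun x _ => sum_le_sum_of_subset hs).trans
          (sum_le_sum_of_subset (f := fun x => ∑ y ∈ win a k,
            if lam a x < lam a y ∧ H x y = 0 then 1 else 0) hs)).trans ?_
        have a1 : ∑ x ∈ win a k, ∑ y ∈ win a k, Cy x y ≤ size Cy :=
          (sum_le_sum fun x _ => sum_le_sum_of_subset (subset_univ _)).trans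
            (sum_le_sum_of_subset (f := fun x => out Cy x) (subset_univ _))
        have a2 := pr.h2 a
        have a3 := ao.sz
        have a4 : ∑ x ∈ win a k, ∑ y ∈ win a k, (if lam a x < lam a y ∧ H x y = 0 then 1 else 0) ≤
            mis false k G a + ∑ x ∈ win a k, ∑ y ∈ win a k, Cy x y := by
          rw [mis, ← sum_add_distrib]
          refine sum_le_sum fun x _ => ?_
          rw [← sum_add_distrib]
          refine sum_le_sum fun y _ => ?_
          have := eG x y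
          simp only [nc, Bool.false_eq_true, false_imp_iff, true_and]
          split_ifs <;> omega
        omega
      · refine le_trans (le_of_eq (sum_eq_zero fun x _ => sum_eq_zero fun y hy => if_neg ?_))
          (Nat.zero_le _)
        have := mem_win.1 (mem_inter.1 hy).1
        simp only [dl, if_true] at this
        omega)
    (by
      have a1 := (hB n k (flt G fun x y => x ∈ Ω1 ∨ y ∈ Ω1) hn).2.2 (4 * u ^ 2) (dl sm u)
        (fun t => by
          have := (hA n k h G Ω1 hn pr.simple dG hw1).1 t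
          have := pr.far t; have := pr.far (t + (k : ZMod n)); have := pr.hh
          rw [mul_assoc] at *
          omega) (by omega)
      refine le_trans (sum_le_sum fun x _ => sum_le_sum fun y _ => ?_) (a1.trans (by omega))
      beta_reduce
      by_cases hc : x ∈ Ω1 ∨ y ∈ Ω1
      · rw [flt_pos (p := fun x y => x ∈ Ω1 ∨ y ∈ Ω1) hc, c0 x y hc]
        refine Nat.mul_le_mul_left _ ?_
        split_ifs with h1 h2
        · exact le_rfl
        · exact absurd h1.2 h2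
        · exact Nat.zero_le _
        · exact le_rfl
      · rw [if_neg (by tauto), mul_zero]; exact Nat.zero_le _)
    (by have := pow_pos (show 0 < u from hu) 2; rw [mul_pow]; omega)
  refine ⟨H', P, Cw, Z, Q, r2, s1, s2, ?_⟩
  have le : ∀ x y, H' x y ≤ G x y := fun x y => by
    have := eG x y
    rw [s1] at this
    simp only [Pi.add_apply] at this
    omega
  have b1 : ∀ v ∈ Ω1, inn (H' + V) v ≤ 14 * u + ∑ x ∈ Ω1, G v x + ∑ x ∈ Ω1, G x v + out V v +
      inn V v + inn V v := by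
    intro v hv
    have a1 := sp (fun y => H' y v) univ fun x hx => by
      have := le x v; have := g0 x v (Or.inl hx); omega
    have a2 := s3 v hv
    have a3 : ∑ x ∈ Ω1, H' x v ≤ ∑ x ∈ Ω1, G x v := sum_le_sum fun x _ => le x v
    rw [univ_inter] at a1
    rw [inn_add, inn]
    omega
  have b2 := sum_le_sum b1
  simp only [sum_add_distrib, sum_const, smul_eq_mul] at b2
  have b3 : ∑ v ∈ Ω1, out V v ≤ size V := sum_le_sum_of_subset (subset_univ _)
  have b4 : ∑ v ∈ Ω1, inn V v ≤ size V :=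
    (sum_le_sum_of_subset (subset_univ _)).trans (size_inn V).ge
  have b5 : ∑ v ∈ Ω1, ∑ x ∈ Ω1, G x v = eb G Ω1 Ω1 := sum_comm
  have b6 : ∑ v ∈ Ω1, ∑ x ∈ Ω1, G v x = eb G Ω1 Ω1 := rfl
  have b7 : eb G Ω1 Ω1 ≤ 4 * u * Ω1.card := by
    have a1 := hW n k h (u ^ 2) u G Ω1 pr.simple hw1 pr.far
    have a2 : 2 * u * (h + 1) + u ^ 2 + 2 * u ^ 2 ≤ 2 * u * (4 * u) := by
      have := Nat.mul_le_mul_left (2 * u) (show h + 1 ≤ 2 * u by have := pr.hhu; omega)
      nlinarith only [this]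
    refine Nat.le_of_mul_le_mul_left (a1.trans ((Nat.mul_le_mul_left _ a2).trans (le_of_eq ?_)))
      (show 0 < 2 * u by omega)
    ring
  rw [b5, b6] at b2
  linarith only [b2, b3, b4, b7]

end Pool.Agent.MP_2634a8_co.X.CLEAN.S
end

section
namespace Pool.Agent.MP_2634a8_co.X.CLEAN.S

open Finset

namespace WST

variable {n : ℕ} [NeZero n]

lemma out_off {M : Mat (ZMod n)} {Ω : Finset (ZMod n)} (h : Off M Ω) {v : ZMod n} (hv : v ∈ Ω) :
    out M v = 0 := sum_eq_zero fun x _ => by by_contra h0; exact (h v x h0).1 hv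
lemma inn_off {M : Mat (ZMod n)} {Ω : Finset (ZMod n)} (h : Off M Ω) {v : ZMod n} (hv : v ∈ Ω) :
    inn M v = 0 := sum_eq_zero fun x _ => by by_contra h0; exact (h x v h0).2 hv

lemma out_le_W {P G : Mat (ZMod n)} {W : Finset (ZMod n)} (h : P ≤ G) {v : ZMod n}
    (hv : ∀ x, P v x ≠ 0 → x ∈ W) : out P v ≤ ∑ x ∈ W, G v x := by
  unfold out
  rw [← sum_subset (subset_univ W) fun x _ hx => by by_contra h0; exact hx (hv x h0)]
  exact sum_le_sum fun x _ => h v x
lemma inn_le_W {P G : Mat (ZMod n)} {W : Finset (ZMod n)} (h : P ≤ G) {v : ZMod n}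
    (hv : ∀ x, P x v ≠ 0 → x ∈ W) : inn P v ≤ ∑ x ∈ W, G x v := by
  unfold inn
  rw [← sum_subset (subset_univ W) fun x _ hx => by by_contra h0; exact hx (hv x h0)]
  exact sum_le_sum fun x _ => h x v

lemma Far_add (k : ℕ) (M N : Mat (ZMod n)) : Far k (M + N) = Far k M + Far k N := wsum_add _ _ _

lemma Lam_le_Far (k : ℕ) (M : Mat (ZMod n)) : Lam M ≤ Far k M + size M * k := by
  unfold Lam Far
  rw [← wsum_const, ← wsum_fadd]
  exact wsum_le_wsum _ fun u v _ => by omega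

lemma Far_split (k : ℕ) (M : Mat (ZMod n)) :
    Far k M = wsum M (fun u v => min (lam u v - k) k) + Far (2 * k) M := by
  unfold Far
  rw [← wsum_fadd]
  exact wsum_congr fun u v _ => by omega

lemma min_le_size (k : ℕ) (M : Mat (ZMod n)) :
    wsum M (fun u v => min (lam u v - k) k) ≤ size M * k := by
  rw [← wsum_const]
  exact wsum_le_wsum _ fun u v _ => min_le_right _ _

lemma co_cost {k L : ℕ} (hL : L ≤ k) {Q : Mat (ZMod n)} (hQ : ∀ y x, Q y x ≠ 0 → 1 ≤ lam x y) :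
    n * size (co Q 0 L) ≤
      wsum Q (fun u v => lam u v - 2 * (2 * k)) + size (co Q 1 (k + 1)) * (5 * k) := by
  have h1 : size (co Q 0 L) ≤ size (co Q 1 (k + 1)) := size_mono fun y x => by
    by_cases h : co Q 0 L y x = 0
    · rw [h]; exact Nat.zero_le _
    · have h2 := flt_ne.1 h
      have h3 := hQ y x h2.2
      have h4 : co Q 1 (k + 1) y x = Q y x :=
        flt_pos (p := fun y x => 1 ≤ lam x y ∧ lam x y < k + 1) ⟨h3, by omega⟩
      show co Q 0 L y x ≤ co Q 1 (k + 1) y x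
      rw [h4]; exact flt_le _ _ y x
  have h2 : n * size (co Q 0 L) ≤
      wsum (co Q 0 L) (fun u v => lam u v - 2 * (2 * k)) + size (co Q 0 L) * (5 * k) := by
    rw [mul_comm, ← wsum_const, ← wsum_const, ← wsum_fadd]
    refine wsum_le_wsum _ fun y x h => ?_
    have h2 := flt_ne.1 h
    have h3 := hQ y x h2.2
    have h4 : x ≠ y := fun he => by rw [he, lam_self] at h3; omega
    have h5 := lam_rev h4
    have h6 := h2.1.2
    omega
  exact h2.trans (Nat.add_le_add (wsum_mono (fun y x => flt_le _ _ y x) _)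
    (Nat.mul_le_mul_right _ h1))

omit [NeZero n] in
lemma arith {k u m sV sM sR S : ℕ} (huk : 10 ^ 17 * u ≤ k) (h1 : S ≤ 22 * u * m + 3 * sV)
    (h2 : sM ≤ 2 * S) (h3 : sR ≤ S + sV) :
    2 * (sM * k) + 8 * (k / 500) * sR + 16 * (20000000 * u) ^ 2 * m ≤
      5000 * (u * k * m) + 16 * (k * sV) := by
  have a1 : sM * k ≤ (2 * (22 * u * m + 3 * sV)) * k := Nat.mul_le_mul_right _ (by omega)
  have a2 : 8 * (k / 500) * sR ≤ k * (22 * u * m + 4 * sV) :=
    Nat.mul_le_mul (by omega) (by omega)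
  have a3 : 10 ^ 17 * u * (u * m) ≤ k * (u * m) := Nat.mul_le_mul_right _ huk
  nlinarith only [a1, a2, a3]

omit [NeZero n] in
lemma arith2 {k u a c : ℕ} (huk : 10 ^ 17 * u ≤ k) (h1 : a ≤ u ^ 2) (h2 : c ≤ 10 * u ^ 2) :
    16 * (k * a) + c * (5 * k) ≤ k ^ 3 := by
  have a1 : k * a ≤ k * u ^ 2 := Nat.mul_le_mul_left _ h1
  have a2 : c * (5 * k) ≤ 10 * u ^ 2 * (5 * k) := Nat.mul_le_mul_right _ h2
  have a3 : (10 * u) ^ 2 ≤ k ^ 2 := Nat.pow_le_pow_left (by omega) 2
  have a4 : k * (10 * u) ^ 2 ≤ k * k ^ 2 := Nat.mul_le_mul_left _ a3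
  nlinarith only [a1, a2, a4]

end WST

open WST C in
theorem wst (hWB : WB_s) (hWT : WT_s) (hCRA : CRA_s) (hCRB : CRB_s) : WST_s := by
  intro n _ sm k u b h G Lad V X H Cy Ω0 Ω1 r pr ao
  obtain ⟨H', P, Cw, Z, Q, r2, hH, pt, hin⟩ := hWB n sm k u b h G Lad V X H Cy Ω0 Ω1 r pr ao
  have hG := ao.eq
  have hn := pr.hn
  have hle : ∀ x y, H' x y + P x y + Cw x y + Z x y + Cy x y = G x y := fun x y => by
    rw [hG, hH]; simp only [Pi.add_apply]; omega
  have hH' : H' ≤ G := fun x y => by have := hle x y; show H' x y ≤ G x y; omega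
  have hP : P ≤ G := fun x y => by have := hle x y; show P x y ≤ G x y; omega
  have hCw : Cw ≤ G := fun x y => by have := hle x y; show Cw x y ≤ G x y; omega
  have hQo : Off Q (Ω0 ∪ Ω1) := fun y x h0 =>
    ⟨mem_compl.1 (pt.qs y x h0).1, mem_compl.1 (pt.qs y x h0).2.1⟩
  have hZo : Off Z (Ω0 ∪ Ω1) := fun y x h0 =>
    ⟨mem_compl.1 (pt.zs y x h0).1, mem_compl.1 (pt.zs y x h0).2.1⟩
  have hb : ∀ v ∈ Ω1, out (H' + V) v = inn (H' + V) v := by
    intro v hv
    have h1 := pr.bal v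
    have h2 := out_off pr.off1 hv
    have h3 := inn_off pr.off1 hv
    have h4 := ao.bal v
    have h5 := pt.bal v
    have h6 := pt.rt.bal v
    have h7 := out_off hQo (mem_union_right _ hv)
    have h8 := inn_off hQo (mem_union_right _ hv)
    rw [hG, hH] at h1
    simp only [out_add, inn_add] at h1 h2 h3 h5 ⊢
    omega
  obtain ⟨QC, c1, c2, c3, c4, c5, c6⟩ := stepC (H' + V) Ω1 hb
  rw [offW_add] at c3
  rw [atW_add] at c1 c6
  have hdeg : ∀ v, out G v ≤ k ∧ inn G v ≤ k := fun v => by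
    have h1 := pr.bal v
    have h2 := pr.deg v
    simp only [out_add, inn_add] at h1 h2
    omega
  have hw1 : ∀ a, (Ω1 ∩ win a k).card ≤ h := fun a =>
    (card_le_card (inter_subset_inter subset_union_right subset_rfl)).trans (pr.hw a)
  obtain ⟨a1, a2⟩ := hCRA n k h G Ω1 hn pr.simple hdeg hw1
  have hT : ∀ v ∉ Ω0 ∪ Ω1, ∑ x ∈ Ω1, G v x ≤ 60002 * u ∧ ∑ x ∈ Ω1, G x v ≤ 60002 * u := by
    intro v hv
    have h1 := a2 v (k + k / 2) (by omega)
    obtain ⟨-, -, h2, h3⟩ := pr.t1 v hv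
    have := pr.hhu
    omega
  have hPC : ∀ v ∉ Ω0 ∪ Ω1, (∀ x, (P + Cw) v x ≠ 0 → x ∈ Ω1) ∧
      ∀ x, (P + Cw) x v ≠ 0 → x ∈ Ω1 := fun v hv =>
    ⟨fun x h0 => (pt.ps v x h0).elim (fun h1 => absurd (mem_union_right _ h1.1) hv) (·.2),
      fun x h0 => (pt.ps x v h0).elim (·.1) fun h1 => absurd (mem_union_right _ h1.2) hv⟩
  have hPo : ∀ v ∉ Ω0 ∪ Ω1, out P v ≤ 60002 * u ∧ inn P v ≤ 60002 * u ∧
      out Cw v ≤ 60002 * u ∧ inn Cw v ≤ 60002 * u := fun v hv =>
    ⟨(out_le_W hP fun x h0 => (hPC v hv).1 x (by simp only [Pi.add_apply]; omega)).trans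
        (hT v hv).1,
      (inn_le_W hP fun x h0 => (hPC v hv).2 x (by simp only [Pi.add_apply]; omega)).trans
        (hT v hv).2,
      (out_le_W hCw fun x h0 => (hPC v hv).1 x (by simp only [Pi.add_apply]; omega)).trans
        (hT v hv).1,
      (inn_le_W hCw fun x h0 => (hPC v hv).2 x (by simp only [Pi.add_apply]; omega)).trans
        (hT v hv).2⟩
  have hfl : (flt G fun x y => x ∈ Ω1 ∨ y ∈ Ω1) = atW H' Ω1 + P + Cw := by
    funext x y
    have h1 := hle x y
    simp only [Pi.add_apply, atW]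
    split_ifs with h2
    · have h3 : Z x y = 0 := by
        by_contra h0
        have := hZo x y h0
        simp only [mem_union] at this; tauto
      have h4 : Cy x y = 0 := by
        by_contra h0
        have := ao.off x y h0
        simp only [mem_union] at this; tauto
      rw [flt_pos (p := fun x y => x ∈ Ω1 ∨ y ∈ Ω1) h2]; omega
    · have h3 : (P + Cw) x y = 0 := by
        by_contra h0
        have := pt.ps x y h0
        tauto
      rw [flt_neg (p := fun x y => x ∈ Ω1 ∨ y ∈ Ω1) h2]; simp only [Pi.add_apply] at h3; omega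
  have hHV0 : Off (H' + V) Ω0 := pr.off0.anti fun x y => by
    have := hH' x y
    simp only [Pi.add_apply] at this ⊢; omega
  have hun : ∀ M : Mat (ZMod n), Off M Ω0 → Off M Ω1 → Off M (Ω0 ∪ Ω1) := fun M h0 h1 x y hxy => by
    have := h0 x y hxy
    have := h1 x y hxy
    simp only [mem_union]; tauto
  have hQC0 : Off QC Ω0 := fun x y hxy => by
    have h1 := c2 x y hxy
    have h2 := le_out QC x y
    have h3 := le_inn QC x y
    rw [(c4 x h1.1).1] at h2
    rw [(c4 y h1.2).2] at h3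
    constructor
    · intro hx
      have : ∑ z ∈ Ω1, (H' + V) x z = 0 :=
        sum_eq_zero fun z _ => by by_contra h0; exact (hHV0 x z h0).1 hx
      omega
    · intro hy
      have : ∑ z ∈ Ω1, (H' + V) z y = 0 :=
        sum_eq_zero fun z _ => by by_contra h0; exact (hHV0 z y h0).2 hy
      omega
  have hRo : Off (QC + offW V Ω1) (Ω0 ∪ Ω1) := (hun _ hQC0 c2).add
    (hun _ (hHV0.anti ((offW_le V Ω1).trans le_add_self)) (off_offW V Ω1))
  have hcr : ∀ t, cross (Q + (QC + offW V Ω1)) t ≤ 5 * u ^ 2 := fun t => by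
    have h1 := a1 t
    have h2 : cross Q t ≤ cross P t := pt.rt.sub _ (subAdd_crs t)
    have h3 : cross QC t ≤ cross (atW H' Ω1 + atW V Ω1) t := c1.sub _ (subAdd_crs t)
    have h4 := cross_le_size V t
    have h5 := congrArg (fun M => cross M t) (split V Ω1)
    have h6 := pr.far t
    have h7 := pr.far (t + (k : ZMod n))
    have h8 := pr.hh
    have h9 := pr.sv
    rw [hfl, mul_assoc] at h1
    simp only [cross_add] at h1 h3 h5 ⊢
    omega
  have e0 : H + V = (H' + V + P) + (Cw + Z) := by rw [hH]; abel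
  have e1 : offW H' Ω1 + Q + (QC + offW V Ω1) = offW H' Ω1 + offW V Ω1 + QC + Q := by abel
  have hrt : Rt (H' + V + P) (offW H' Ω1 + Q + (QC + offW V Ω1)) := e1 ▸ c3.add pt.rt
  refine ⟨offW H' Ω1, Z, Q, QC + offW V Ω1, r2, ⟨⟨?_, fun N t hp => ?_⟩, ?_, fun x hx y hy => ?_,
    fun x y h0 => (pt.zs x y h0).2.2.2, fun v => ?_, fun y x h0 => (pt.qs y x h0).2.2,
    fun v => ?_, fun v => ?_, hcr⟩, ?_⟩
  · rw [e0]; exact (Rt.drop _ pt.bal).trans hrt
  · rw [e0, ← add_assoc, add_comm _ (Cw + Z)]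
    exact pack_plus _ _ _ _ pt.pack (hrt.pack N t hp)
  · exact ((hun _ (hHV0.anti ((offW_le H' Ω1).trans le_self_add)) (off_offW H' Ω1)).add hQo).add
      hRo
  · have h3 : (P + Cw) x y = 0 := by
      by_contra h0
      exact hy (mem_union_right _ ((hPC x hx).1 y h0))
    have h4 : offW H' Ω1 x y = H' x y := if_neg (by simp only [mem_union] at hx hy; tauto)
    rw [h4, hH]; simp only [Pi.add_apply] at h3 ⊢; omega
  · by_cases hv : v ∈ Ω0 ∪ Ω1
    · rw [out_off hZo hv, inn_off hZo hv]; omega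
    · exact ⟨(pt.zo v).trans (hPo v hv).2.2.2, (pt.zi v).trans (hPo v hv).2.2.1⟩
  · by_cases hv : v ∈ Ω0 ∪ Ω1
    · rw [out_off hQo hv, inn_off hQo hv]; omega
    · exact ⟨(pt.rt.out_le v).trans (hPo v hv).1, (pt.rt.inn_le v).trans (hPo v hv).2.1⟩
  · by_cases hv : v ∈ Ω0 ∪ Ω1
    · rw [out_off hRo hv, inn_off hRo hv]; omega
    · have hv1 : v ∉ Ω1 := fun h1 => hv (mem_union_right _ h1)
      obtain ⟨h1, h2⟩ := c4 v hv1
      obtain ⟨-, h3, h4⟩ := pr.tb v hv
      have h5 := congrArg (fun M => out M v) (split V Ω1)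
      have h6 := congrArg (fun M => inn M v) (split V Ω1)
      have h7 : ∑ x ∈ Ω1, H' v x ≤ ∑ x ∈ Ω1, G v x := sum_le_sum fun x _ => hH' v x
      have h8 : ∑ x ∈ Ω1, H' x v ≤ ∑ x ∈ Ω1, G x v := sum_le_sum fun x _ => hH' x v
      have h9 := hT v hv
      simp only [out_add, inn_add, out_atW' V Ω1 hv1, inn_atW' V Ω1 hv1, Pi.add_apply,
        sum_add_distrib] at h1 h2 h5 h6 ⊢
      omega
  · have b1 : Lam H = Lam (offW H' Ω1) + Lam (atW H' Ω1) + Lam Q + n * r2 := by
      have : H = offW H' Ω1 + atW H' Ω1 + P + (Cw + Z) := by rw [← split, hH]; abel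
      rw [this, Lam_add, Lam_add, Lam_add, pt.lamc, pt.lam_eq]
    have b2 : Far k H = Far k (offW H' Ω1) + Far k (atW H' Ω1) + Far k P + Far k Cw + Far k Z := by
      have : H = offW H' Ω1 + atW H' Ω1 + P + Cw + Z := by rw [← split, hH]; abel
      rw [this, Far_add, Far_add, Far_add, Far_add]
    have b3 := Lam_le_Far k (atW H' Ω1)
    have b4 := hWT n sm k G Ω1 (Ω0 ∪ Ω1)ᶜ (by omega)
      (disjoint_left.2 fun x hx hx' => mem_compl.1 hx' (mem_union_right _ hx))
    rw [hfl, wsum_add, wsum_add] at b4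
    have b5 := min_le_size k (atW H' Ω1)
    have b6 := Far_split k P
    have b7 := Far_split k Cw
    have b8 : Ω1.card • (10 ^ 4 * u * k) ≤ ∑ v ∈ Ω1, wt sm k G v :=
      card_nsmul_le_sum _ _ _ pr.wild
    have b9 : Ω1.card • (10 ^ 4 * u * k) = 10000 * (u * k * Ω1.card) := by
      rw [smul_eq_mul]; ring
    have b10 := arith (sM := size (atW H' Ω1)) (sR := size (QC + offW V Ω1)) pr.huk hin
      (by rw [size_add] at c6; omega)
      (by rw [size_add]; exact Nat.add_le_add c5 (size_mono (offW_le V Ω1)))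
    cases sm with
    | false =>
      have hV : size V = 0 := by rw [(pr.nos rfl).2.1, size_zero]
      rw [hV] at b10
      simp only [Bool.false_eq_true, if_false]
      omega
    | true =>
      have d1 := co_cost (k := k) (L := 8 * (k / 500)) (by omega) (Q := Q)
        fun y x h0 => (pt.qs y x h0).2.2
      have d2 : wsum Q (fun u v => lam u v - 2 * (2 * k)) ≤ Far (2 * k) P := pt.fr (2 * k)
      have d3 := (hCRB n k Q hn).1
      have d4 := hcr 0
      have d5 := hcr (k : ZMod n)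
      rw [cross_add] at d4 d5
      have d6 := arith2 (c := size (co Q 1 (k + 1))) pr.huk pr.sv (by omega)
      simp only [if_true]
      omega

end Pool.Agent.MP_2634a8_co.X.CLEAN.S
end

section
namespace Pool.Agent.MP_2634a8_co.X.CLEAN.S

open Finset

lemma wt_two {V : Type} [Fintype V] [DecidableEq V] (f : V → V → ℕ) (S : Finset V) :
    ∑ v ∈ S, (∑ x, f v x + ∑ x, f x v) ≤ 2 * ∑ u, ∑ x, if u ∈ S ∨ x ∈ S then f u x else 0 := by
  have h1 : ∑ v ∈ S, ∑ x, f v x ≤ ∑ u, ∑ x, if u ∈ S ∨ x ∈ S then f u x else 0 :=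
    le_trans (sum_le_sum fun u hu => sum_le_sum fun x _ => by rw [if_pos (Or.inl hu)])
      (sum_le_sum_of_subset (subset_univ S))
  have h2 : ∑ v ∈ S, ∑ x, f x v ≤ ∑ u, ∑ x, if u ∈ S ∨ x ∈ S then f u x else 0 := by
    rw [sum_comm]
    exact sum_le_sum fun u _ => le_trans (sum_le_sum fun x hx => by rw [if_pos (Or.inr hx)])
      (sum_le_sum_of_subset (subset_univ S))
  rw [sum_add_distrib]
  omega

theorem wt_bud : WT_s := by
  intro n _ sm k G S U hk hd
  have h1 := wt_two (ms sm k G) S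
  have h2 := wt_two (fun u v => G u v * min (lam u v - k) k) S
  have h3 : ∑ v ∈ S, wt sm k G v = ∑ v ∈ S, (∑ x, ms sm k G v x + ∑ x, ms sm k G x v) +
      ∑ v ∈ S, (∑ x, G v x * min (lam v x - k) k + ∑ x, G x v * min (lam x v - k) k) := by
    rw [← sum_add_distrib]
    refine sum_congr rfl fun v _ => ?_
    rw [wt_eq, msO_eq sm hk, msI_eq sm hk]
    omega
  have h4 : wsum (flt G fun u v => u ∈ S ∨ v ∈ S) (fun u v => min (lam u v - k) k) =
      ∑ u, ∑ x, if u ∈ S ∨ x ∈ S then G u x * min (lam u x - k) k else 0 := by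
    refine sum_congr rfl fun u _ => sum_congr rfl fun x _ => ?_
    by_cases h : u ∈ S ∨ x ∈ S
    · rw [flt_pos (p := fun u v => u ∈ S ∨ v ∈ S) h, if_pos h]
    · rw [flt_neg (p := fun u v => u ∈ S ∨ v ∈ S) h, if_neg h, zero_mul]
  have h5 : Mis sm k G U = ∑ u, ∑ x, if u ∈ U ∧ x ∈ U then ms sm k G u x else 0 := by
    unfold Mis
    rw [← sum_subset (subset_univ U) (by intro u _ hu; simp [hu])]
    refine sum_congr rfl fun u hu => ?_
    rw [← sum_subset (subset_univ U) (by intro w _ hw; simp [hw])]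
    exact sum_congr rfl fun w hw => by simp [hu, hw]
  have h6 : (∑ u, ∑ x, if u ∈ S ∨ x ∈ S then ms sm k G u x else 0) + Mis sm k G U ≤
      Miss sm k G := by
    rw [h5, Miss, ← sum_add_distrib]
    refine sum_le_sum fun u _ => ?_
    rw [← sum_add_distrib]
    refine sum_le_sum fun x _ => ?_
    by_cases h : u ∈ U ∧ x ∈ U
    · rw [if_pos h, if_neg, zero_add]
      rintro (h' | h')
      exacts [disjoint_left.1 hd h' h.1, disjoint_left.1 hd h' h.2]
    · rw [if_neg h, add_zero]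
      split_ifs <;> omega
  omega

end Pool.Agent.MP_2634a8_co.X.CLEAN.S
end

section
namespace Pool.Agent.MP_2634a8_co.X.CLEAN.S

open Finset

namespace WW

variable {n : ℕ} [NeZero n]

lemma pairs (A : Finset (ZMod n)) (u : ZMod n) :
    2 * ∑ v ∈ A, ∑ t ∈ A, (if lam u t < lam u v then 1 else 0) + A.card = A.card * A.card := by
  have e1 : ∑ v ∈ A, ∑ t ∈ A, (if lam u t < lam u v then 1 else 0) =
      ∑ v ∈ A, ∑ t ∈ A, (if lam u v < lam u t then 1 else 0) := sum_comm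
  have e2 : A.card = ∑ v ∈ A, ∑ t ∈ A, (if t = v then 1 else 0) := by
    rw [card_eq_sum_ones]
    exact sum_congr rfl fun v hv => by simp [hv]
  have e3 : A.card * A.card = ∑ v ∈ A, ∑ t ∈ A, 1 := by simp
  rw [e3, two_mul]
  nth_rewrite 2 [e1]
  rw [e2, ← sum_add_distrib, ← sum_add_distrib]
  refine sum_congr rfl fun v _ => ?_
  rw [← sum_add_distrib, ← sum_add_distrib]
  refine sum_congr rfl fun t _ => ?_
  by_cases h : t = v
  · simp [h]
  · have : lam u t ≠ lam u v := fun h' => h (lam_inj h')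
    rw [if_neg h]
    split_ifs <;> omega

omit [NeZero n] in
lemma arith {l a p : ℕ} (h : 2 * p + a = a * a) : 2 * l * a ≤ 2 * l + l ^ 2 + 2 * p := by
  rcases a with _ | a
  · simp
  · have h1 : 2 * p = a * a + a := by linarith only [h]
    rw [h1]
    linarith only [sq_nonneg ((l : ℤ) - a)]

lemma row {k h : ℕ} (l : ℕ) {G : Mat (ZMod n)} (hs : Simple G) {S : Finset (ZMod n)}
    (hh : ∀ a, (S ∩ win a k).card ≤ h) (u : ZMod n) :
    2 * l * ∑ v ∈ S, G u v ≤ 2 * l * (h + 1) + l ^ 2 +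
      2 * ∑ v, ∑ t ∈ S, G u v * if k ≤ lam u t ∧ lam u t < lam u v then 1 else 0 := by
  set A := S.filter fun v => G u v ≠ 0 ∧ k ≤ lam u v with hA
  have h1 : ∑ v ∈ S, G u v ≤ (S ∩ win u k).card + A.card := by
    rw [← filter_mem_eq_inter, hA, card_filter, card_filter, ← sum_add_distrib]
    refine sum_le_sum fun v _ => ?_
    have := hs.1 u v
    simp only [mem_win]
    split_ifs <;> omega
  have h2 : ∑ v ∈ A, ∑ t ∈ A, (if lam u t < lam u v then 1 else 0) ≤
      ∑ v, ∑ t ∈ S, G u v * if k ≤ lam u t ∧ lam u t < lam u v then 1 else 0 := by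
    refine le_trans (sum_le_sum fun v hv => ?_) (sum_le_sum_of_subset (subset_univ A))
    refine le_trans (sum_le_sum fun t ht => ?_) (sum_le_sum_of_subset (filter_subset _ S))
    have a1 := (mem_filter.1 hv).2
    have a2 := (mem_filter.1 ht).2
    split_ifs <;> omega
  have h3 := arith (l := l) (pairs A u)
  have h4 := Nat.mul_le_mul_left (2 * l) (h1.trans (Nat.add_le_add_right (hh u) _))
  rw [mul_add] at h4 ⊢
  omega

end WW

theorem ww : WW_s := by
  intro n _ k h z l G S hs hh hz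
  have h1 : ∑ t ∈ S, far k G t ≤ S.card * z := by
    simpa only [smul_eq_mul] using sum_le_card_nsmul S _ z fun t _ => hz t
  have h2 : ∑ u ∈ S, ∑ v, ∑ t ∈ S, (G u v * if k ≤ lam u t ∧ lam u t < lam u v then 1 else 0) ≤
      ∑ t ∈ S, far k G t := by
    refine (sum_le_sum_of_subset (subset_univ S)).trans (le_of_eq ?_)
    unfold far
    rw [← wsum_fsum]
    unfold wsum
    simp only [mul_sum]
  have h3 := sum_le_sum fun u (_ : u ∈ S) => WW.row l hs hh u
  rw [sum_add_distrib, sum_const, smul_eq_mul, ← mul_sum, ← mul_sum] at h3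
  unfold eb
  rw [mul_add, mul_left_comm S.card 2 z]
  omega

end Pool.Agent.MP_2634a8_co.X.CLEAN.S
end

section
namespace Pool.Agent.MP_2634a8_co.X.CLEAN.S

open Finset

section gen
variable {V : Type} [Fintype V]

lemma RtR.trans {P Q R : Mat V} {r s : ℕ} (h : RtR P Q r) (h' : RtR Q R s) : RtR P R (s + r) :=
  ⟨h.1.trans h'.1, fun N t hp => by rw [← add_assoc]; exact h.2 N _ (h'.2 N t hp)⟩

lemma RtR.add_right {P Q : Mat V} {r : ℕ} (h : RtR P Q r) (K : Mat V) : RtR (P + K) (Q + K) r :=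
  ⟨h.1.add_right K, fun N t hp => by
    rw [add_comm P, ← add_assoc]
    rw [add_comm Q, ← add_assoc] at hp
    exact h.2 _ t hp⟩

lemma RtR.cyc (K : Mat V) {C : Mat V} {r : ℕ} (hb : Bal C) (hp : Pack r C) : RtR (K + C) K r :=
  ⟨Rt.drop K hb, fun N t h => by
    rw [← add_assoc, add_comm (N + K)]; exact pack_plus r t C _ hp h⟩

end gen

theorem cln (h1 : LOCA_s) (h2 : WST_s) (h3 : R2_s) (h4 : RS_s) : CLN_s := by
  intro n _ sm k u b h G Lad V X Ω0 Ω1 pr
  obtain ⟨H, Cy, r, ao, bA⟩ := h1 n sm k u b h G Lad V X Ω0 Ω1 pr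
  obtain ⟨H1, Z, Q, R, r2, mid, bW⟩ := h2 n sm k u b h G Lad V X H Cy Ω0 Ω1 r pr ao
  obtain ⟨-, -, -, -, -, bR⟩ := h3 n sm k u b h G Lad V X H Cy H1 Z Q R Ω0 Ω1 r r2 pr ao mid
  obtain ⟨B, J, r3, cs, rt, bS⟩ := h4 n sm k u b h G Lad V X H Cy H1 Z Q R Ω0 Ω1 r r2 pr ao mid
  have hk : k < n := by have := pr.hn; omega
  have bB := budget_nat sm hk pr.simple fun v => by
    have := pr.deg v
    simp only [out_add] at this
    omega
  refine ⟨B, J, r3 + r2 + r, cs, ?_, ?_⟩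
  · have e1 : G + Lad + V + X = H + V + (Lad + X) + Cy := by rw [ao.eq]; abel
    have e2 : H1 + Q + R + (Lad + X) = H1 + Q + R + Lad + X := by abel
    have s1 := RtR.cyc (H + V + (Lad + X)) ao.bal ao.pack
    have s2 := mid.rtr.add_right (Lad + X)
    rw [e2] at s2
    rw [e1]
    exact s1.trans (s2.trans (rt.add_right X))
  · have e1 : Lam G = Lam H + Lam Cy := by rw [ao.eq, Lam_add]
    have e2 : Far k G = Far k H + Far k Cy := by
      conv_lhs => rw [ao.eq]
      exact wsum_add _ _ _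
    rw [Lam_add (B + J), mul_add, mul_add]
    generalize 16 * (20000000 * u) ^ 2 * Ω1.card = a1 at *
    generalize 8 * (k / 500) * size R = a2 at *
    generalize n * ∑ d ∈ Icc 1 k, d = a3 at *
    cases sm
    · simp only [Bool.false_eq_true, if_false] at *
      omega
    · simp only [if_true] at *
      omega

lemma le_of_half {k j c w a : ℕ} (hk : 1 ≤ k) (hj : k ≤ 3 * j) (h1 : j * c ≤ w)
    (h2 : w ≤ a * k) : c ≤ 3 * a := by
  have h3 : k * c ≤ 3 * j * c := Nat.mul_le_mul_right c hj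
  have h4 : k * c ≤ k * (3 * a) := by linarith only [h1, h2, h3]
  exact Nat.le_of_mul_le_mul_left h4 hk

lemma le_of_sq {q c w : ℕ} (hq : 1 ≤ q) (h1 : q * c ≤ w + q * q) (h2 : w ≤ q * q) : c ≤ 4 * q := by
  have h4 : q * c ≤ q * (4 * q) := by linarith only [h1, h2]
  exact Nat.le_of_mul_le_mul_left h4 hq

/-- the numerical facts on the parameters -/
structure Num (κ s η : ℝ) (k u q : ℕ) : Prop where
  hu : 1 ≤ u
  huk : 10 ^ 17 * u ≤ k
  hq : 1 ≤ q
  hb : 10 ^ 4 * (4 * q) ≤ k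
  lo : (10 ^ 4 * u * k : ℕ) ≤ κ * k ^ 2
  hi : κ * k ^ 2 ≤ (20000 * u * k : ℕ)
  sq : κ * k ^ 2 ≤ (q * q : ℕ)
  rq : √κ * k ≤ q
  su : s * k ^ 2 ≤ (u ^ 2 : ℕ)
  su2 : 2 * s * k ^ 2 ≤ κ * (u ^ 2 : ℕ)
  f : ((5 * (4 * q) + 10 ^ 7 * u : ℕ) : ℝ) ≤ η * k

lemma num (κ η : ℝ) (h0 : 0 < κ) (hη : 0 < η) (h1 : κ ≤ 1 / 10 ^ 14) (h2 : κ ≤ η ^ 2 / 10 ^ 4) :
    ∃ k0 : ℕ, ∀ k, k0 ≤ k → ∃ u q, Num κ (κ ^ 3 / 10 ^ 14) η k u q := by
  refine ⟨⌈10 ^ 4 / κ + 100 / η + 10 ^ 5⌉₊, fun k hk => ?_⟩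
  have hk' : 10 ^ 4 / κ + 100 / η + 10 ^ 5 ≤ (k : ℝ) := (Nat.le_ceil _).trans (Nat.cast_le.2 hk)
  have p1 : 0 < 10 ^ 4 / κ := by positivity
  have p2 : 0 < 100 / η := by positivity
  have k1 : 10 ^ 4 ≤ κ * k := by
    have : 10 ^ 4 / κ ≤ (k : ℝ) := by linarith only [hk', p2]
    rw [div_le_iff₀ h0] at this; linarith only [this]
  have k2 : 100 ≤ η * k := by
    have : 100 / η ≤ (k : ℝ) := by linarith only [hk', p1]
    rw [div_le_iff₀ hη] at this; linarith only [this]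
  have k3 : (10 : ℝ) ^ 5 ≤ k := by linarith only [hk', p1, p2]
  have kp : (0 : ℝ) < k := by linarith only [hk', p1, p2]
  set r := √κ with hr
  have r0 : 0 < r := Real.sqrt_pos.2 h0
  have r1 : r * r = κ := Real.mul_self_sqrt h0.le
  have r2 : r ≤ 1 / 10 ^ 7 := Real.sqrt_le_iff.2 ⟨by positivity, by linarith only [h1]⟩
  have r3 : r ≤ η / 100 := Real.sqrt_le_iff.2 ⟨by positivity, by rw [div_pow]; linarith only [h2]⟩
  obtain ⟨u, u1, u2⟩ : ∃ u : ℕ, (u : ℝ) ≤ κ * k / 10 ^ 4 ∧ κ * k / 10 ^ 4 < u + 1 :=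
    ⟨⌊κ * k / 10 ^ 4⌋₊, Nat.floor_le (by positivity), Nat.lt_floor_add_one _⟩
  obtain ⟨q, q1, q2⟩ : ∃ q : ℕ, (q : ℝ) ≤ r * k + 1 ∧ r * k < q :=
    ⟨⌊r * k⌋₊ + 1, by push_cast; linarith only [Nat.floor_le (a := r * k) (by positivity)],
      by push_cast; exact Nat.lt_floor_add_one _⟩
  have hu : 1 ≤ u := by
    have : (0 : ℝ) < u := by linarith only [k1, u2]
    exact_mod_cast this
  have hu' : (1 : ℝ) ≤ u := by exact_mod_cast hu
  have a1 : κ * k ≤ 20000 * u := by linarith only [u2, hu']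
  have a2 : κ * k ≤ 1 / 10 ^ 14 * k := mul_le_mul_of_nonneg_right h1 kp.le
  have a3 : r * k ≤ 1 / 10 ^ 7 * k := mul_le_mul_of_nonneg_right r2 kp.le
  have a4 : r * k ≤ η / 100 * k := mul_le_mul_of_nonneg_right r3 kp.le
  have a5 : (κ * k) ^ 2 ≤ (20000 * u) ^ 2 := pow_le_pow_left₀ (by positivity) a1 2
  have a6 : κ * k ≤ 1 / 10 ^ 7 * (r * k) := by
    rw [← r1, mul_assoc]; exact mul_le_mul_of_nonneg_right r2 (by positivity)
  have rk : 0 < r * k := by positivity
  have su2 : 2 * (κ ^ 3 / 10 ^ 14) * k ^ 2 ≤ κ * (u ^ 2 : ℕ) := by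
    have : 2 * (κ ^ 3 / 10 ^ 14) * k ^ 2 = κ * (2 / 10 ^ 14 * (κ * k) ^ 2) := by ring
    rw [this]; push_cast
    exact mul_le_mul_of_nonneg_left (by linarith only [sq_nonneg (u : ℝ), a5]) h0.le
  refine ⟨u, q, hu, ?_, ?_, ?_, ?_, ?_, ?_, q2.le, ?_, su2, ?_⟩
  · have : (10 : ℝ) ^ 17 * u ≤ k := by linarith only [u1, a2]
    exact_mod_cast this
  · have : (0 : ℝ) < q := by linarith only [k1, q2, a6]
    exact_mod_cast this
  · have : (10 : ℝ) ^ 4 * (4 * q) ≤ k := by linarith only [k1, q1, a2, a3]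
    exact_mod_cast this
  · push_cast
    have := mul_le_mul_of_nonneg_right u1 kp.le
    linarith only [this]
  · push_cast
    have := mul_le_mul_of_nonneg_right a1 kp.le
    linarith only [this]
  · push_cast
    have : κ * k ^ 2 = (r * k) * (r * k) := by rw [← r1]; ring
    rw [this]; exact mul_self_le_mul_self rk.le q2.le
  · have : κ * ((u ^ 2 : ℕ) : ℝ) ≤ 1 * (u ^ 2 : ℕ) :=
      mul_le_mul_of_nonneg_right (by linarith only [h0, h1]) (by positivity)
    have : 0 ≤ κ ^ 3 / 10 ^ 14 * (k : ℝ) ^ 2 := by positivity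
    linarith
  · push_cast
    linarith only [k1, u1, q1, a4, a6]

variable {n : ℕ} [NeZero n]

lemma pr_of {sm : Bool} {k u q : ℕ} {κ s η : ℝ} {G Lad V X : Mat (ZMod n)}
    {Ω0 : Finset (ZMod n)} (h0 : 0 < κ) (hn : 2 * k + 1 ≤ n) (nm : Num κ s η k u q)
    (hin : IN sm k κ s G Lad V X Ω0) :
    ∃ Ω1, PR sm k u (4 * q) (u ^ 2 / k) G Lad V X Ω0 Ω1 := by
  classical
  set Ω1 := univ.filter fun v => v ∉ Ω0 ∧ κ * k ^ 2 < (wt sm k G v : ℝ) with hΩ
  have m1 : ∀ v, v ∈ Ω1 ↔ v ∉ Ω0 ∧ κ * k ^ 2 < (wt sm k G v : ℝ) := fun v => by simp only [hΩ, mem_filter, mem_univ, true_and]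
  have m2 : ∀ v ∉ Ω0 ∪ Ω1, (wt sm k G v : ℝ) ≤ κ * k ^ 2 := fun v hv => by
    rw [mem_union, not_or, m1] at hv
    exact not_lt.1 fun h => hv.2 ⟨hv.1, h⟩
  have hu := nm.hu
  have huk := nm.huk
  have hb := nm.hb
  have kp : (0 : ℝ) < k := by exact_mod_cast (by omega : 0 < k)
  have hs := hin.simple.1
  have zn : ∀ v, sm = true → zone k v → v ∉ Ω1 := fun v h hz hv =>
    absurd (hin.h8 h v ((m1 v).1 hv).1 hz) (not_le.2 ((m1 v).1 hv).2)
  refine ⟨Ω1, hn, hu, huk, hb, Nat.div_mul_le_self _ _, ?_, hin.simple, hin.bal, hin.deg, hin.nos,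
    hin.gnc, fun a => Nat.cast_le.1 ((hin.h2 a).trans nm.su), fun h a m hm ρ => ?_, hin.h5,
    hin.off0, hin.lad1, hin.lad2, fun x y hxy => ?_, fun a => ?_,
    fun v hv => Nat.cast_le.1 (nm.lo.trans ((m1 v).1 hv).2.le), fun v hv => ?_, fun v hv => ?_,
    fun t => Nat.cast_le.1 ((hin.h3 t).trans nm.su), Nat.cast_le.1 (hin.h6.trans nm.su)⟩
  · refine Nat.div_le_of_le_mul ?_
    rw [sq]; exact Nat.mul_le_mul_right u (by omega)
  · have := hin.h4 a m hm (fun h' => by rw [h] at h'; cases h') ρ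
    rw [(hin.nos h).2.2.2] at this
    simpa using this
  · rcases B.add_ne hxy with h | h
    · obtain ⟨a, b, c⟩ := F.lad_zone hin h
      exact ⟨zn x a b, zn y a c⟩
    · have a : sm = true := by
        by_contra hs
        rw [(hin.nos (by simpa using hs)).2.2.1] at h
        exact h rfl
      exact ⟨zn x a (hin.xs x y h).2.1, zn y a (hin.xs x y h).2.2⟩
  · have h1 := wild_win sm k G (W := Ω1) (x := κ * k ^ 2) a (hin.h1 a)
      fun v hv => ⟨((m1 v).1 hv).1, ((m1 v).1 hv).2.le⟩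
    have h2 : ((Ω0 ∪ Ω1) ∩ win a k).card ≤ Ω0.card + (Ω1 ∩ win a k).card := by
      rw [union_inter_distrib_right]
      exact (card_union_le _ _).trans (Nat.add_le_add_right (card_le_card inter_subset_left) _)
    have h3 : κ * ((Ω1 ∩ win a k).card : ℝ) ≤ s * k :=
      le_of_mul_le_mul_right (by linarith only [h1]) (by positivity : (0 : ℝ) < k ^ 2)
    have h4 : (((Ω0 ∪ Ω1) ∩ win a k).card : ℝ) ≤ Ω0.card + (Ω1 ∩ win a k).card := by
      exact_mod_cast h2
    have h5 : κ * (((Ω0 ∪ Ω1) ∩ win a k).card : ℝ) ≤ 2 * s * k := by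
      have := mul_le_mul_of_nonneg_left h4 h0.le
      have := hin.h7
      linarith
    have h6 : κ * ((((Ω0 ∪ Ω1) ∩ win a k).card : ℝ) * k) ≤ κ * (u ^ 2 : ℕ) := by
      have := mul_le_mul_of_nonneg_right h5 kp.le
      have := nm.su2
      nlinarith
    rw [Nat.le_div_iff_mul_le (by omega)]
    exact_mod_cast le_of_mul_le_mul_left h6 h0
  · have hw : wt sm k G v ≤ 20000 * u * k := Nat.cast_le.1 ((m2 v hv).trans nm.hi)
    have e : 60000 * u = 3 * (20000 * u) := by ring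
    have j1 : k ≤ 3 * (k / 2) := by omega
    have j2 : k / 2 ≤ k := by omega
    rw [e]
    exact ⟨le_of_half (by omega) j1 (tameO sm k G v _) hw,
      le_of_half (by omega) j1 (tameI sm k G v _) hw,
      le_of_half (by omega) j1 (longO sm k G v j2) hw,
      le_of_half (by omega) j1 (longI sm k G v j2) hw⟩
  · have hw : wt sm k G v ≤ q * q := Nat.cast_le.1 ((m2 v hv).trans nm.sq)
    have j2 : q ≤ k := by omega
    have h6 := hin.h6' v (m2 v hv)
    have h7 := nm.rq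
    refine ⟨⟨le_of_sq nm.hq (tameO' sm k G v q) hw, le_of_sq nm.hq (tameI' sm k G v q) hw,
      le_of_sq nm.hq ((C.nonidO sm k G v hs j2).trans (add_comm _ _).le) hw,
      le_of_sq nm.hq ((C.nonidI sm k G v hs j2).trans (add_comm _ _).le) hw⟩, ?_, ?_⟩
    · have : (out V v : ℝ) ≤ 4 * q := by linarith only [h6.1, h7]
      exact_mod_cast this
    · have : (inn V v : ℝ) ≤ 4 * q := by linarith only [h6.2, h7]
      exact_mod_cast this

lemma sum_win_le {k h f : ℕ} {Ω : Finset (ZMod n)} (a : ZMod n) (g : ZMod n → ℕ)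
    (hw : (Ω ∩ win a k).card ≤ h) (h1 : ∀ v, g v ≤ k) (h2 : ∀ v ∈ win a k, v ∉ Ω → g v ≤ f) :
    ∑ v ∈ win a k, g v ≤ h * k + k * f := by
  have e : ∀ v ∈ win a k, g v ≤ (if v ∈ Ω then k else 0) + f := fun v hv => by
    split_ifs with h
    · exact (h1 v).trans (Nat.le_add_right _ _)
    · rw [zero_add]; exact h2 v hv h
  refine (sum_le_sum e).trans ?_
  rw [sum_add_distrib, sum_ite_mem, sum_const, sum_const, smul_eq_mul, smul_eq_mul, inter_comm]
  exact Nat.add_le_add (Nat.mul_le_mul_right _ hw) (Nat.mul_le_mul_right _ (card_win_le a k))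

theorem clean_of (hc : CLN_s) : CLEAN_s := by
  intro θ σ hθ hσ
  obtain ⟨η, e0, e1, e2⟩ : ∃ η : ℝ, 0 < η ∧ η ≤ θ ∧ η ≤ σ / 2 :=
    ⟨min θ (σ / 2), lt_min hθ (by linarith), min_le_left _ _, min_le_right _ _⟩
  refine ⟨min (min (1 / 10 ^ 14) (η ^ 2 / 10 ^ 4)) σ, by positivity, fun κ h0 h1 => ?_⟩
  have c1 : κ ≤ 1 / 10 ^ 14 := h1.trans ((min_le_left _ _).trans (min_le_left _ _))
  have c2 : κ ≤ η ^ 2 / 10 ^ 4 := h1.trans ((min_le_left _ _).trans (min_le_right _ _))
  have c3 : κ ≤ σ := h1.trans (min_le_right _ _)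
  have c4 : κ ^ 3 / 10 ^ 14 ≤ σ := by
    have : κ ^ 3 ≤ κ ^ 1 := pow_le_pow_of_le_one h0.le (by linarith only [h0, c1]) (by norm_num)
    have : 0 < κ ^ 3 := by positivity
    linarith
  obtain ⟨k0, hk0⟩ := num κ η h0 e0 c1 c2
  refine ⟨κ ^ 3 / 10 ^ 14, by positivity, k0, fun k hk n _ sm G Lad V X Ω0 hn _ hin => ?_⟩
  obtain ⟨u, q, nm⟩ := hk0 k hk
  obtain ⟨Ω1, pr⟩ := pr_of h0 hn nm hin
  obtain ⟨B, J, r, cs, rt, bd⟩ := hc n sm k u _ _ G Lad V X Ω0 Ω1 pr
  have kp : (0 : ℝ) ≤ k := Nat.cast_nonneg k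
  have f1 : ∀ x : ℕ, x ≤ 5 * (4 * q) + 10 ^ 7 * u → (x : ℝ) ≤ η * k := fun x hx =>
    (Nat.cast_le.2 hx).trans nm.f
  have f2 : ∀ x : ℕ, x ≤ 5 * (4 * q) + 10 ^ 7 * u → (x : ℝ) ≤ θ * k := fun x hx =>
    (f1 x hx).trans (mul_le_mul_of_nonneg_right e1 kp)
  have f3 : ∀ a (g : ZMod n → ℕ), (∀ v, g v ≤ k) →
      (∀ v ∈ win a k, v ∉ Ω0 ∪ Ω1 → g v ≤ 5 * (4 * q) + 10 ^ 7 * u) →
      ∑ v ∈ win a k, (g v : ℝ) ≤ σ * k ^ 2 := fun a g g1 g2 => by
    have h2 : ((∑ v ∈ win a k, g v : ℕ) : ℝ) ≤ (u ^ 2 / k * k + k * (5 * (4 * q) + 10 ^ 7 * u) : ℕ) :=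
      Nat.cast_le.2 (sum_win_le a g (pr.hw a) g1 g2)
    rw [Nat.cast_sum, Nat.cast_add, Nat.cast_mul, Nat.cast_mul] at h2
    have h3 := mul_le_mul_of_nonneg_right (f1 (u ^ 2 / k) (by have := pr.hhu; omega)) kp
    have h4 := mul_le_mul_of_nonneg_left nm.f kp
    have h5 := mul_le_mul_of_nonneg_right e2 (mul_nonneg kp kp)
    refine h2.trans ((add_le_add h3 h4).trans ?_)
    rw [sq]
    linarith only [h5]
  have g1 : ∀ p : ℕ → Prop, ∀ [DecidablePred p], ((Icc 1 k).filter p).card ≤ k := fun p _ =>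
    (card_filter_le _ _).trans (by simp only [Nat.card_Icc, add_tsub_cancel_right, Std.le_refl])
  refine ⟨B, J, X, Ω0 ∪ Ω1, r, ⟨cs.ideal, cs.off, rt.1.bal_iff.1 hin.bal,
    fun v => (rt.1.out_le v).trans (hin.deg v),
    fun v hv => ⟨f2 _ (cs.hop v hv).1, f2 _ (cs.hop v hv).2⟩,
    fun v hv hd => ⟨f2 _ (cs.tame v hv hd).1, f2 _ (cs.tame v hv hd).2⟩,
    fun a => f2 _ (by have := pr.hw a; have := pr.hhu; omega),
    fun a ha => ⟨f3 a _ (fun v => g1 _) fun v hv hv' => (cs.tame v hv' (ha v hv)).1,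
      f3 a _ (fun v => g1 _) fun v hv hv' => (cs.tame v hv' (ha v hv)).2⟩,
    cs.junk, fun v => ⟨f2 _ (cs.load v).1, f2 _ (cs.load v).2⟩, fun x y h => ⟨?_, hin.xs x y h⟩,
    ?_⟩, fun t ht => ?_, ?_⟩
  · by_contra hs
    rw [(hin.nos (by simpa using hs)).2.2.1] at h
    exact h rfl
  · have h2 : (Lam (B + J + X) : ℝ) ≤ Lam (G + Lad + V + X) :=
      Nat.cast_le.2 (rt.1.sub _ subAdd_lam)
    refine h2.trans (hin.lam_le.trans (mul_le_mul_of_nonneg_left ?_ (Nat.cast_nonneg n)))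
    have := mul_le_mul_of_nonneg_right c4 (sq_nonneg (k : ℝ))
    linarith only [this]
  · have := rt.2 0 t (by rwa [zero_add])
    rwa [zero_add] at this
  · have h2 := (Nat.cast_le (α := ℝ)).2 bd
    rw [CC_eq]
    have h3 : (0 : ℝ) ≤ (k : ℝ) ^ 3 := by positivity
    cases sm
    · simp only [Bool.false_eq_true, if_false] at h2 ⊢
      push_cast at h2 ⊢
      linarith only [h2]
    · simp only [if_true] at h2 ⊢
      push_cast at h2 ⊢
      linarith only [h3, h2]

end Pool.Agent.MP_2634a8_co.X.CLEAN.S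
end
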