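import Mathlib
import Pool.Agent.MP_2634a8_co.Y.Stm

attribute [-instance] IsOrderedRing.toIsStrictOrderedRing AddQuantale.instAddLeftMono
  IdemSemiring.toCanonicallyOrderedAdd Nontrivial.to_nonempty NumberField.to_charZero
  Zero.instNonempty bot_nonempty One.instNonempty LinearOrderedCommMonoidWithZero.toPosMulStrictMono
  AddTorsor.nonempty AddQuantale.instAddRightMono covariant_swap_mul_of_covariant_mul
  instCoeHTCTOfCoeHTC GrpTypeEquivalenceGrp.grpGroup Quantale.instMulRightMono RKHS.instFunLike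
  IdemSemiring.toMulLeftMono top_nonempty instCoeTOfCoeDep instCoeT ConnectedSpace.toNonempty
  IsOrderedMonoid.toMulLeftMono Quantale.instMulLeftMono
  LinearOrderedCommMonoidWithZero.toIsBotZeroClass

section
namespace Pool.Agent.MP_2634a8_co.X.D1

open Finset Pool.Agent.MP_2634a8_co.H32

variable {V : Type} [DecidableEq V] [Fintype V]

/-- local fractional packing from a lower bound on all covers -/
lemma loc_pack (B : Finset (V × V)) (P : ℝ)
    (h : ∀ w : V × V → ℝ, (∀ e, 0 ≤ w e) → Cyc B w 1 → P ≤ ∑ e ∈ B, w e) :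
    ∃ y : Finset (V × V) → ℝ, (∀ C, 0 ≤ y C) ∧ (∀ C, y C ≠ 0 → C.Nonempty ∧ Bl C ∧ C ⊆ B) ∧
      (∀ a, dg y a ≤ 1) ∧ P ≤ ∑ C, y C := by
  classical
  obtain ⟨y, h1, h2, h3, h4⟩ := lp_dual
    (univ.filter fun C : Finset (V × V) => C.Nonempty ∧ Bl C ∧ C ⊆ B) P (by
      intro w hw hC
      have hc : Cyc B w 1 := cyc_of_sets hw fun F f1 f2 f3 =>
        hC F (mem_filter.2 ⟨mem_univ _, f1, f2, f3⟩)
      exact (h w hw hc).trans
        (sum_le_sum_of_subset_of_nonneg (subset_univ _) fun e _ _ => hw e))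
  exact ⟨y, h1, fun C hC => (mem_filter.1 (h2 C hC)).2, h3, h4⟩

/-- generic spread lemma -/
lemma gen_spread {A : Finset (V × V)} (hl : Loopless A) (ho : ∀ e ∈ A, e.swap ∉ A)
    {ρ : ℝ} (ρ0 : 0 < ρ) (ρ1 : ρ ≤ 1) (P : Finset V → ℝ)
    (h : ∀ (S : Finset V) (w : V × V → ℝ), (∀ e, 0 ≤ w e) → Cyc (H32.res A S) w 1 →
      P S ≤ ∑ e ∈ H32.res A S, w e) :
    ∃ y : Finset (V × V) → ℝ, (∀ C, 0 ≤ y C) ∧ (∀ C, y C ≠ 0 → C.Nonempty ∧ Bl C ∧ C ⊆ A) ∧
      (∀ a, dg y a ≤ 1) ∧ (∀ a b, a ≠ b → cdg y a b ≤ ρ) ∧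
      (∑ S, mu (fun _ : V => ρ) S * P S) / ρ ^ 2 ≤ ∑ C, y C := by
  choose y y0 y1 y2 y3 using fun S => loc_pack (H32.res A S) (P S) (h S)
  have m0 : ∀ S, 0 ≤ mu (fun _ : V => ρ) S := mu_nonneg (fun _ => ρ0.le) (fun _ => ρ1)
  have hsum : ∀ T : Finset (Finset (V × V)), ∑ C ∈ T, (∑ S, mu (fun _ : V => ρ) S * y S C) / ρ ^ 2
      = (∑ S, mu (fun _ : V => ρ) S * ∑ C ∈ T, y S C) / ρ ^ 2 := by
    intro T
    rw [← sum_div, sum_comm]
    simp only [mul_sum]
  have hz : ∀ S a (T : Finset (Finset (V × V))), (∀ C ∈ T, a ∈ C) → a ∉ H32.res A S →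
      ∑ C ∈ T, y S C = 0 := by
    intro S a T hT ha
    apply sum_eq_zero
    intro C hC
    by_contra hc
    exact ha ((y1 S C hc).2.2 (hT C hC))
  refine ⟨fun C => (∑ S, mu (fun _ : V => ρ) S * y S C) / ρ ^ 2,
    fun C => div_nonneg (sum_nonneg fun S _ => mul_nonneg (m0 S) (y0 S C)) (by positivity),
    ?_, ?_, ?_, ?_⟩
  · intro C hC
    have : ∃ S, y S C ≠ 0 := by
      by_contra hc
      push Not at hc
      simp [hc] at hC
    obtain ⟨S, hS⟩ := this
    exact ⟨(y1 S C hS).1, (y1 S C hS).2.1, (y1 S C hS).2.2.trans (filter_subset _ _)⟩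
  · intro a
    unfold dg
    rw [hsum, div_le_one (by positivity)]
    by_cases ha : a ∈ A
    · have e : ρ ^ 2 = ∑ S, mu (fun _ : V => ρ) S * ins {a.1, a.2} S := by
        rw [exp_ins, card_pair (hl a ha)]
      rw [e]
      apply sum_le_sum; intro S _
      apply mul_le_mul_of_nonneg_left _ (m0 S)
      unfold ins
      split_ifs with h
      · exact y2 S a
      · apply le_of_eq
        apply hz S a _ (fun C hC => (mem_filter.1 hC).2)
        intro h'
        apply h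
        simpa [insert_subset_iff] using (mem_filter.1 h').2
    · have : ∀ S, ∑ C ∈ univ.filter (fun C => a ∈ C), y S C = 0 := fun S =>
        hz S a _ (fun C hC => (mem_filter.1 hC).2) (fun h => ha (mem_filter.1 h).1)
      simp only [this, mul_zero, sum_const_zero]
      positivity
  · intro a b hab
    unfold cdg
    rw [hsum, div_le_iff₀ (by positivity)]
    by_cases ha : a ∈ A ∧ b ∈ A
    · have e : ∑ S, mu (fun _ : V => ρ) S * ins ({a.1, a.2} ∪ {b.1, b.2}) S ≤ ρ * ρ ^ 2 := by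
        rw [exp_ins, ← pow_succ']
        exact pow_le_pow_of_le_one ρ0.le ρ1 (three_le hab (hl a ha.1) (hl b ha.2)
          (fun h => ho a ha.1 (h ▸ ha.2)))
      refine le_trans ?_ e
      apply sum_le_sum; intro S _
      apply mul_le_mul_of_nonneg_left _ (m0 S)
      unfold ins
      split_ifs with h
      · refine le_trans ?_ (y2 S a)
        apply sum_le_sum_of_subset_of_nonneg
        · intro C hC
          exact mem_filter.2 ⟨mem_univ _, (mem_filter.1 hC).2.1⟩
        · intro C _ _; exact y0 S C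
      · apply le_of_eq
        by_cases h1 : a ∈ H32.res A S
        · apply hz S b _ (fun C hC => (mem_filter.1 hC).2.2)
          intro h2
          apply h
          have := (mem_filter.1 h1).2
          have := (mem_filter.1 h2).2
          simp only [union_subset_iff, insert_subset_iff, singleton_subset_iff]
          tauto
        · exact hz S a _ (fun C hC => (mem_filter.1 hC).2.1) h1
    · have : ∀ S, ∑ C ∈ univ.filter (fun C => a ∈ C ∧ b ∈ C), y S C = 0 := by
        intro S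
        by_cases h1 : a ∈ A
        · exact hz S b _ (fun C hC => (mem_filter.1 hC).2.2)
            (fun h => ha ⟨h1, (mem_filter.1 h).1⟩)
        · exact hz S a _ (fun C hC => (mem_filter.1 hC).2.1) (fun h => h1 (mem_filter.1 h).1)
      simp only [this, mul_zero, sum_const_zero]
      positivity
  · rw [hsum]
    gcongr with S _
    · exact m0 S
    · exact y3 S

/-- generic packing theorem: local cover bounds give an integral packing -/
theorem gen_pack {η s : ℝ} (hη : 0 < η) (hs : 0 < s) : ∃ n0 : ℕ, s ≤ n0 ∧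
    ∀ (V : Type) [DecidableEq V] [Fintype V] (A : Finset (V × V)) (P : Finset V → ℝ),
    n0 ≤ Fintype.card V → Loopless A → (∀ e ∈ A, e.swap ∉ A) →
    (∀ (S : Finset V) (w : V × V → ℝ), (∀ e, 0 ≤ w e) → Cyc (H32.res A S) w 1 →
      P S ≤ ∑ e ∈ H32.res A S, w e) →
    ∃ t : ℕ, Pk t A ∧ (∑ S, mu (fun _ : V => s / Fintype.card V) S * P S) /
      (s / Fintype.card V) ^ 2 - η * (Fintype.card V : ℝ) ^ 2 ≤ t := by
  set γ := min (η / 3) 1 with hγ
  have γ0 : 0 < γ := lt_min (by positivity) one_pos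
  have γ1 : γ ≤ η / 3 := min_le_left _ _
  have γ2 : γ ≤ 1 := min_le_right _ _
  obtain ⟨L, hL⟩ := exists_nat_gt (1 / γ)
  have hL0 : (0 : ℝ) < L := lt_trans (by positivity) hL
  obtain ⟨δ, δ0, H⟩ := nibble L γ0
  obtain ⟨n0, hn0⟩ := exists_nat_gt (max s (s / δ))
  refine ⟨n0, by linarith only [le_max_left s (s / δ), hn0], fun V _ _ A P hn hl ho hP => ?_⟩
  set n : ℝ := (Fintype.card V : ℝ) with hn'
  have hn1 : (n0 : ℝ) ≤ n := by rw [hn']; exact_mod_cast hn
  have hsn : s ≤ n := by linarith only [le_max_left s (s / δ), hn0, hn1]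
  have n0' : 0 < n := by linarith only [hs, hsn]
  have hδ : s / n ≤ δ := by
    rw [div_le_iff₀ n0', mul_comm, ← div_le_iff₀ δ0]
    linarith only [le_max_right s (s / δ), hn0, hn1]
  obtain ⟨y, y0, y1, y2, y3, y4⟩ := gen_spread hl ho (ρ := s / n) (by positivity)
    (by rw [div_le_one n0']; exact hsn) P hP
  have hc := cut_long y0 y2 (L := L) (by exact_mod_cast hL0)
  have hle : ∀ C : Finset (V × V), (if C.card ≤ L then y C else 0) ≤ y C := by
    intro C; split_ifs
    · exact le_rfl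
    · exact y0 C
  have hne : ∀ C : Finset (V × V), (if C.card ≤ L then y C else 0) ≠ 0 →
      y C ≠ 0 ∧ C.card ≤ L := by
    intro C hC
    split_ifs at hC with h
    · exact ⟨hC, h⟩
    · exact absurd rfl hC
  obtain ⟨M, m1, m2, m3⟩ := H (V × V) (fun C => if C.card ≤ L then y C else 0)
    ⟨fun C => by split_ifs; exacts [y0 C, le_rfl],
      fun C hC => ⟨(y1 C (hne C hC).1).1, (hne C hC).2⟩,
      fun a => le_trans (sum_le_sum fun C _ => hle C) (y2 a),
      fun a b hab => le_trans (sum_le_sum fun C _ => hle C) ((y3 a b hab).trans hδ)⟩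
  refine ⟨M.card, ⟨M, rfl, fun F hF => y1 F (hne F (m1 F hF)).1, m2⟩, le_trans ?_ m3⟩
  have ec : (Fintype.card (V × V) : ℝ) = n ^ 2 := by
    rw [Fintype.card_prod, hn']; push_cast; ring
  rw [ec] at hc ⊢
  have hYn : ∑ C, y C ≤ n ^ 2 := by
    have e1 := sum_dg y (fun _ => 1)
    have e2 : ∑ C, y C ≤ ∑ C, y C * ∑ _a ∈ C, (1 : ℝ) := by
      apply sum_le_sum
      intro C _
      by_cases hC : y C = 0
      · simp [hC]
      · have : (1 : ℝ) ≤ C.card := by exact_mod_cast card_pos.2 (y1 C hC).1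
        rw [sum_const, nsmul_eq_mul, mul_one]
        exact le_mul_of_one_le_right (y0 C) this
    rw [e1] at e2
    refine e2.trans ((sum_le_sum fun a _ => (show 1 * dg y a ≤ 1 by linarith only [y2 a])).trans ?_)
    rw [sum_const, card_univ, nsmul_eq_mul, mul_one, ec]
  have e3 : n ^ 2 / L ≤ γ * n ^ 2 := by
    rw [div_le_iff₀ hL0]
    have : 1 ≤ γ * L := by rw [div_lt_iff₀ γ0] at hL; linarith only [hL]
    nlinarith only [this]
  set Y := ∑ C : Finset (V × V), if C.card ≤ L then y C else 0 with hY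
  have hY1 : Y ≤ n ^ 2 := (sum_le_sum fun C _ => hle C).trans hYn
  have n2 : 0 < n ^ 2 := pow_pos n0' 2
  have a4 : γ * Y ≤ γ * n ^ 2 := mul_le_mul_of_nonneg_left hY1 γ0.le
  have a5 : 3 * (γ * n ^ 2) ≤ η * n ^ 2 := by nlinarith only [γ1]
  linarith only [y4, e3, hc, a4, a5]

/-- first absolute moment of a sampled linear form -/
lemma exp_lin (b : V → ℝ) (v : V) (bv : b v = 0) (b2 : ∀ x, b x ^ 2 ≤ 1) {ρ lam : ℝ}
    (h0 : 0 ≤ ρ) (h1 : ρ ≤ 1) (hlam : 0 < lam) :
    ∑ S, mu (fun _ : V => ρ) S * |∑ x, b x * ins {v, x} S| ≤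
      ρ ^ 2 * |∑ x, b x| + (lam / 2 * ρ + ρ ^ 2 * Fintype.card V / (2 * lam)) := by
  set β := ∑ x, b x with hβ
  have m0 : ∀ S, 0 ≤ mu (fun _ : V => ρ) S := mu_nonneg (fun _ => h0) (fun _ => h1)
  have a1 : ∑ S, mu (fun _ : V => ρ) S * ins {v} S = ρ := by rw [exp_ins]; simp
  have a2 : ∑ S, mu (fun _ : V => ρ) S * (∑ x, b x * ins {v, x} S) = ρ ^ 2 * β := by
    simp only [mul_sum]
    rw [sum_comm, hβ, mul_sum]
    apply sum_congr rfl; intro x _
    by_cases hx : x = v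
    · subst hx; simp [bv]
    · rw [← card_pair (Ne.symm hx), ← exp_ins, sum_mul]
      apply sum_congr rfl; intro S _; ring
  have e5 : ∀ x y, b x * b y * ρ ^ (({v, x} ∪ {v, y} : Finset V)).card =
      ρ ^ 3 * (b x * b y) + if x = y then (ρ ^ 2 - ρ ^ 3) * b x ^ 2 else 0 := by
    intro x y
    by_cases hx : x = v
    · subst hx; simp [bv]
    by_cases hy : y = v
    · subst hy; simp [bv, hx]
    by_cases hxy : x = y
    · subst hxy
      rw [union_self, card_pair (Ne.symm hx), if_pos rfl]; ring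
    · have : (({v, x} ∪ {v, y} : Finset V)).card = 3 := by
        rw [card_eq_three]
        refine ⟨v, x, y, Ne.symm hx, Ne.symm hy, hxy, ?_⟩
        ext z; simp only [mem_union, mem_insert, mem_singleton]; tauto
      rw [this, if_neg hxy]; ring
  have a3 : ∑ S, mu (fun _ : V => ρ) S * (∑ x, b x * ins {v, x} S) ^ 2 =
      ρ ^ 3 * β ^ 2 + (ρ ^ 2 - ρ ^ 3) * ∑ x, b x ^ 2 := by
    have : ∑ S, mu (fun _ : V => ρ) S * (∑ x, b x * ins {v, x} S) ^ 2 =
        ∑ x, ∑ y, b x * b y * ρ ^ (({v, x} ∪ {v, y} : Finset V)).card := by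
      have q : ∀ S, mu (fun _ : V => ρ) S * (∑ x, b x * ins {v, x} S) ^ 2 = ∑ x, ∑ y,
          b x * b y * (mu (fun _ : V => ρ) S * ins ({v, x} ∪ {v, y}) S) := by
        intro S
        rw [sq, sum_mul_sum, mul_sum]
        apply sum_congr rfl; intro x _
        rw [mul_sum]
        apply sum_congr rfl; intro y _
        rw [← ins_mul]; ring
      simp only [q]
      rw [sum_comm]
      apply sum_congr rfl; intro x _
      rw [sum_comm]
      apply sum_congr rfl; intro y _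
      rw [← mul_sum, exp_ins]
    rw [this]
    simp only [e5, sum_add_distrib, ← mul_sum, ← sum_mul, sum_ite_eq, mem_univ, if_true]
    rw [← hβ]; ring
  have e2 : ∀ S, |∑ x, b x * ins {v, x} S| ≤ (ρ * |β| + lam / 2) * ins {v} S +
      ((∑ x, b x * ins {v, x} S) ^ 2 - 2 * ρ * β * (∑ x, b x * ins {v, x} S) +
        ρ ^ 2 * β ^ 2 * ins {v} S) / (2 * lam) := by
    intro S
    by_cases hv : v ∈ S
    · have : ins {v} S = 1 := by simp [ins, hv]
      rw [this]
      set X := ∑ x, b x * ins {v, x} S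
      have t1 : |X| ≤ |X - ρ * β| + ρ * |β| := by
        have := abs_add_le (X - ρ * β) (ρ * β)
        rwa [sub_add_cancel, abs_mul, abs_of_nonneg h0] at this
      have t2 : |X - ρ * β| ≤ lam / 2 + (X - ρ * β) ^ 2 / (2 * lam) := by
        rw [← sq_abs, ← sub_le_iff_le_add', le_div_iff₀ (by positivity)]
        linarith only [sq_nonneg (|X - ρ * β| - lam)]
      have t3 : X ^ 2 - 2 * ρ * β * X + ρ ^ 2 * β ^ 2 * 1 = (X - ρ * β) ^ 2 := by ring
      rw [t3]; linarith only [t1, t2]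
    · have : ∑ x, b x * ins {v, x} S = 0 := by
        apply sum_eq_zero; intro x _; simp [ins, insert_subset_iff, hv]
      rw [this]; simp [ins, hv]
  refine (sum_le_sum fun S _ => mul_le_mul_of_nonneg_left (e2 S) (m0 S)).trans ?_
  have e4 : ∑ S, mu (fun _ : V => ρ) S * ((ρ * |β| + lam / 2) * ins {v} S +
      ((∑ x, b x * ins {v, x} S) ^ 2 - 2 * ρ * β * (∑ x, b x * ins {v, x} S) +
        ρ ^ 2 * β ^ 2 * ins {v} S) / (2 * lam)) =
      (ρ * |β| + lam / 2) * (∑ S, mu (fun _ : V => ρ) S * ins {v} S) +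
      ((∑ S, mu (fun _ : V => ρ) S * (∑ x, b x * ins {v, x} S) ^ 2) -
        2 * ρ * β * (∑ S, mu (fun _ : V => ρ) S * (∑ x, b x * ins {v, x} S)) +
        ρ ^ 2 * β ^ 2 * (∑ S, mu (fun _ : V => ρ) S * ins {v} S)) / (2 * lam) := by
    clear_value β
    rw [mul_sum univ _ (ρ * |β| + lam / 2), mul_sum univ _ (2 * ρ * β),
      mul_sum univ _ (ρ ^ 2 * β ^ 2), ← sum_sub_distrib, ← sum_add_distrib, sum_div,
      ← sum_add_distrib]
    apply sum_congr rfl; intro S _
    ring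
  rw [e4, a1, a2, a3]
  have e6 : ∑ x, b x ^ 2 ≤ Fintype.card V := by
    refine (sum_le_sum fun x _ => b2 x).trans ?_
    simp only [sum_const, card_univ, nsmul_eq_mul, mul_one, Std.le_refl]
  have e7 : 0 ≤ ∑ x, b x ^ 2 := sum_nonneg fun x _ => sq_nonneg _
  have e8 : 0 ≤ ρ ^ 3 := by positivity
  have e9 : 0 ≤ ρ ^ 2 := by positivity
  have e10 : (ρ ^ 3 * β ^ 2 + (ρ ^ 2 - ρ ^ 3) * ∑ x, b x ^ 2 - 2 * ρ * β * (ρ ^ 2 * β) +
      ρ ^ 2 * β ^ 2 * ρ) / (2 * lam) ≤ ρ ^ 2 * Fintype.card V / (2 * lam) := by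
    gcongr
    linarith only [mul_nonneg e8 e7, mul_le_mul_of_nonneg_left e6 e9]
  linarith only [e10]

/-- imbalance of an arc set -/
def imbF (A : Finset (V × V)) : ℝ := ∑ v, |(idg A v : ℝ) - od A v|

lemma imbF_nonneg (A : Finset (V × V)) : 0 ≤ imbF A := sum_nonneg fun _ _ => abs_nonneg _

/-- expected imbalance of a sampled arc set, no balance assumed -/
lemma exp_imbF (A : Finset (V × V)) {ρ lam : ℝ} (h0 : 0 ≤ ρ) (h1 : ρ ≤ 1) (hlam : 0 < lam) :
    ∑ S, mu (fun _ : V => ρ) S * imbF (H32.res A S) ≤ ρ ^ 2 * imbF A +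
      Fintype.card V * (lam / 2 * ρ + ρ ^ 2 * Fintype.card V / (2 * lam)) := by
  unfold imbF
  simp only [mul_sum]
  rw [sum_comm, ← nsmul_eq_mul, ← card_univ, ← sum_const, ← sum_add_distrib]
  apply sum_le_sum
  intro v _
  set b : V → ℝ := fun x => (if (x, v) ∈ A then 1 else 0) - (if (v, x) ∈ A then 1 else 0) with hb'
  have bv : b v = 0 := by simp [hb']
  have bs : ∑ x, b x = (idg A v : ℝ) - od A v := by
    rw [hb', sum_sub_distrib, ← od_eq_sum, ← idg_eq_sum]
  have b2 : ∀ x, b x ^ 2 ≤ 1 := by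
    intro x; simp only [hb']; split_ifs <;> norm_num
  have e1 : ∀ S, (idg (H32.res A S) v : ℝ) - od (H32.res A S) v = ∑ x, b x * ins {v, x} S := by
    intro S
    rw [od_eq_sum, idg_eq_sum, ← sum_sub_distrib]
    apply sum_congr rfl
    intro x _
    simp only [hb', H32.res, ins, mem_filter, insert_subset_iff, singleton_subset_iff]
    by_cases hv : v ∈ S <;> by_cases hx : x ∈ S <;> simp [hv, hx]
  simp only [e1]
  rw [← bs, card_univ]
  exact exp_lin b v bv b2 h0 h1 hlam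

omit [DecidableEq V] [Fintype V] in
/-- truncated distance `d x y` from `x` to `y` with both triangle inequalities -/
lemma exists_dist {A : Finset (V × V)} {w : V × V → ℝ} (hw : ∀ e, 0 ≤ w e) (hc : Cyc A w 1) :
    ∃ d : V → V → ℝ, (∀ x y, 0 ≤ d x y) ∧ (∀ x y, d x y ≤ 1) ∧ (∀ x, d x x = 0) ∧
      (∀ z u v, (u, v) ∈ A → d u z ≤ w (u, v) + d v z) ∧
      (∀ z u v, (u, v) ∈ A → d z v ≤ w (u, v) + d z u) ∧
      (∀ x y, x ≠ y → 1 ≤ d x y + d y x) ∧ (∀ u v, (u, v) ∈ A → 1 ≤ w (u, v) + d v u) := by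
  set S : V → V → Set ℝ := fun u z => {t | t = 1 ∨ Wk A w u z t} with hS
  have hne : ∀ u z, (S u z).Nonempty := fun u z => ⟨1, Or.inl rfl⟩
  have hlb : ∀ u z, ∀ t ∈ S u z, (0 : ℝ) ≤ t := by
    rintro u z t (rfl | h)
    · exact zero_le_one
    · exact h.nonneg hw
  have hbd : ∀ u z, BddBelow (S u z) := fun u z => ⟨0, hlb u z⟩
  have h0 : ∀ u z, 0 ≤ sInf (S u z) := fun u z => le_csInf (hne u z) (hlb u z)
  have h1 : ∀ u z, sInf (S u z) ≤ 1 := fun u z => csInf_le (hbd u z) (Or.inl rfl)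
  have hW : ∀ u z t, Wk A w u z t → sInf (S u z) ≤ t := fun u z t h =>
    csInf_le (hbd u z) (Or.inr h)
  refine ⟨fun u z => sInf (S u z), h0, h1, fun z => le_antisymm (hW z z 0 (Wk.nil z)) (h0 z z),
    ?_, ?_, ?_, ?_⟩
  · intro z u v ha
    rw [← sub_le_iff_le_add']
    apply le_csInf (hne v z)
    rintro t (rfl | h)
    · linarith only [h1 u z, hw (u, v)]
    · linarith only [hW u z _ (Wk.cons ha h)]
  · intro z u v ha
    rw [← sub_le_iff_le_add']
    apply le_csInf (hne z u)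
    rintro t (rfl | h)
    · linarith [h1 z v, hw (u, v)]
    · linarith [hW z v _ (h.snoc ha)]
  · intro x y hxy
    rw [← sub_le_iff_le_add]
    apply le_csInf (hne x y)
    rintro t (rfl | h)
    · linarith [h0 y x]
    · rw [sub_le_comm]
      apply le_csInf (hne y x)
      rintro t' (rfl | h')
      · linarith [h.nonneg hw]
      · linarith [hc.closed hxy h h']
  · intro u v ha
    rw [← sub_le_iff_le_add']
    apply le_csInf (hne v u)
    rintro t (rfl | h)
    · linarith [hw (u, v)]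
    · linarith [hc u v t ha h]

/-- arc set of a matrix -/
def arcs (D : Mat V) : Finset (V × V) := univ.filter fun e => D e.1 e.2 ≠ 0

lemma mem_arcs {D : Mat V} {u v : V} : (u, v) ∈ arcs D ↔ D u v ≠ 0 := by simp only [arcs, ne_eq, mem_filter, mem_univ, true_and]

lemma arcs_loopless {D : Mat V} (h : Simple D) : Loopless (arcs D) := by
  rintro ⟨u, v⟩ he huv
  simp only at huv
  subst huv
  exact mem_arcs.1 he (h.2 u)

lemma od_arcs {D : Mat V} (h : Simple D) (v : V) : (od (arcs D) v : ℝ) = out D v := by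
  rw [od_eq_sum, out, Nat.cast_sum]
  apply sum_congr rfl
  intro x _
  have := h.1 v x
  simp only [mem_arcs]
  split_ifs with h1
  · have : D v x = 1 := by omega
    rw [this]; simp
  · have : D v x = 0 := by omega
    rw [this]; simp

lemma idg_arcs {D : Mat V} (h : Simple D) (v : V) : (idg (arcs D) v : ℝ) = inn D v := by
  rw [idg_eq_sum, inn, Nat.cast_sum]
  apply sum_congr rfl
  intro x _
  have := h.1 x v
  simp only [mem_arcs]
  split_ifs with h1
  · have : D x v = 1 := by omega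
    rw [this]; simp
  · have : D x v = 0 := by omega
    rw [this]; simp

lemma imbF_arcs {D : Mat V} (h : Simple D) : imbF (arcs D) = imb D := by
  unfold imbF imb
  apply sum_congr rfl
  intro v _
  rw [od_arcs h, idg_arcs h, abs_sub_comm]

/-- indicator matrix of an arc set -/
def mat (F : Finset (V × V)) : Mat V := fun u v => if (u, v) ∈ F then 1 else 0

lemma out_mat (F : Finset (V × V)) (v : V) : out (mat F) v = od F v := by
  have := od_eq_sum F v
  have h2 : ((out (mat F) v : ℕ) : ℝ) = od F v := by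
    rw [this, out, Nat.cast_sum]
    apply sum_congr rfl; intro x _; simp [mat]
  exact_mod_cast h2

lemma inn_mat (F : Finset (V × V)) (v : V) : inn (mat F) v = idg F v := by
  have := idg_eq_sum F v
  have h2 : ((inn (mat F) v : ℕ) : ℝ) = idg F v := by
    rw [this, inn, Nat.cast_sum]
    apply sum_congr rfl; intro x _; simp [mat]
  exact_mod_cast h2

lemma pack_of_pk {t : ℕ} {D : Mat V} (h : Pk t (arcs D)) : Pack t D := by
  obtain ⟨M, rfl, h1, h2⟩ := h
  induction M using Finset.induction_on generalizing D with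
  | empty => trivial
  | insert F M hF ih =>
    rw [card_insert_of_notMem hF]
    obtain ⟨f1, f2, f3⟩ := h1 F (mem_insert_self _ _)
    have hle : ∀ a b, mat F a b ≤ D a b := by
      intro a b
      unfold mat
      split_ifs with h
      · exact Nat.one_le_iff_ne_zero.2 (mem_arcs.1 (f3 h))
      · exact Nat.zero_le _
    obtain ⟨N, hN⟩ := exists_add hle
    refine ⟨mat F, N, by rw [hN, add_comm], ?_, fun v => by rw [out_mat, inn_mat, f2 v], ?_⟩
    · obtain ⟨⟨a, b⟩, he⟩ := f1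
      intro h0
      have := congrFun (congrFun h0 a) b
      simp [mat, he] at this
    · apply ih
      · intro G hG
        obtain ⟨g1, g2, g3⟩ := h1 G (mem_insert_of_mem hG)
        refine ⟨g1, g2, ?_⟩
        rintro ⟨a, b⟩ he
        have hd := h2 G (mem_insert_of_mem hG) F (mem_insert_self _ _)
          (fun h => hF (h ▸ hG))
        have h3 : (a, b) ∉ F := disjoint_left.1 hd he
        have h4 := mem_arcs.1 (g3 he)
        rw [hN] at h4
        simpa [mem_arcs, mat, h3] using h4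
      · intro G hG G' hG' hne
        exact h2 G (mem_insert_of_mem hG) G' (mem_insert_of_mem hG') hne

end Pool.Agent.MP_2634a8_co.X.D1
end

section
namespace Pool.Agent.MP_2634a8_co.X.D1

open Finset Pool.Agent.MP_2634a8_co.H32

variable {V : Type} [DecidableEq V] [Fintype V]

/-- weight of the out-cherry `u → a, u → b` -/
def co (A : Finset (V × V)) (u a b : V) : ℝ :=
  if (u, a) ∈ A ∧ (u, b) ∈ A ∧ a ≠ b then (if (a, b) ∉ A ∧ (b, a) ∉ A then 2 else 1) else 0
/-- weight of the in-cherry `a → u, b → u` -/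
def ci (A : Finset (V × V)) (u a b : V) : ℝ :=
  if (a, u) ∈ A ∧ (b, u) ∈ A ∧ a ≠ b then (if (a, b) ∉ A ∧ (b, a) ∉ A then 2 else 1) else 0
/-- total cherry weight -/
def Ch (A : Finset (V × V)) : ℝ := ∑ u, ∑ a, ∑ b, (co A u a b + ci A u a b)

omit [Fintype V] in
lemma co_bd (A : Finset (V × V)) (u a b : V) : 0 ≤ co A u a b ∧ co A u a b ≤ 2 := by
  unfold co; split_ifs <;> norm_num
omit [Fintype V] in
lemma ci_bd (A : Finset (V × V)) (u a b : V) : 0 ≤ ci A u a b ∧ ci A u a b ≤ 2 := by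
  unfold ci; split_ifs <;> norm_num

lemma Ch_nonneg (A : Finset (V × V)) : 0 ≤ Ch A :=
  sum_nonneg fun u _ => sum_nonneg fun a _ => sum_nonneg fun b _ =>
    add_nonneg (co_bd A u a b).1 (ci_bd A u a b).1

lemma Ch_le (A : Finset (V × V)) : Ch A ≤ 4 * (Fintype.card V : ℝ) ^ 3 := by
  have : Ch A ≤ ∑ _u : V, ∑ _a : V, ∑ _b : V, (4 : ℝ) :=
    sum_le_sum fun u _ => sum_le_sum fun a _ => sum_le_sum fun b _ => by
      linarith [(co_bd A u a b).2, (ci_bd A u a b).2]
  refine this.trans (le_of_eq ?_)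
  simp only [sum_const, card_univ, nsmul_eq_mul]; ring

omit [DecidableEq V] in
lemma half (c F : V → V → ℝ) (h : ∀ a b, c a b ≤ F a b + F b a) :
    ∑ a, ∑ b, c a b ≤ 2 * ∑ a, ∑ b, F a b := by
  have e : ∑ a, ∑ b, F b a = ∑ a, ∑ b, F a b := sum_comm
  have : ∑ a, ∑ b, c a b ≤ ∑ a, ∑ b, (F a b + F b a) :=
    sum_le_sum fun a _ => sum_le_sum fun b _ => h a b
  simp only [sum_add_distrib] at this
  linarith

lemma sum_arcs (A : Finset (V × V)) (g : V → V → ℝ) :
    ∑ e ∈ A, g e.1 e.2 = ∑ u, ∑ v, if (u, v) ∈ A then g u v else 0 := by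
  rw [← Fintype.sum_prod_type (f := fun e : V × V => if e ∈ A then g e.1 e.2 else 0),
    sum_ite_mem, univ_inter]

lemma pot_sum (A : Finset (V × V)) (p : V → ℝ) (h0 : ∀ v, 0 ≤ p v) (h1 : ∀ v, p v ≤ 1) :
    |∑ e ∈ A, (p e.2 - p e.1)| ≤ imbF A := by
  rw [sum_sub_distrib, sum_head A p, sum_tail A p, ← sum_sub_distrib]
  refine (abs_sum_le_sum_abs _ _).trans (sum_le_sum fun v _ => ?_)
  rw [← sub_mul, abs_mul, abs_of_nonneg (h0 v)]
  exact mul_le_of_le_one_right (abs_nonneg _) (h1 v)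

/-- two-sided dual bound with the bonus for non-adjacent cherries -/
lemma dual2 {A : Finset (V × V)} {W : Finset V} {w : V × V → ℝ} (hi : Ins A W)
    (hw : ∀ e, 0 ≤ w e) (hc : Cyc A w 1) :
    Ch A / 4 ≤ W.card * (∑ e ∈ A, w e + imbF A) := by
  obtain ⟨d, d0, d1, dz, dI, dO, dc, da⟩ := exists_dist hw hc
  set I : V → V → V → ℝ := fun z u v => w (u, v) + d v z - d u z with hI
  set O : V → V → V → ℝ := fun z u v => w (u, v) + d z u - d z v with hO
  have I0 : ∀ z u v, (u, v) ∈ A → 0 ≤ I z u v := fun z u v h => by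
    simp only [hI]; linarith [dI z u v h]
  have O0 : ∀ z u v, (u, v) ∈ A → 0 ≤ O z u v := fun z u v h => by
    simp only [hO]; linarith [dO z u v h]
  have wd : ∀ u v, (u, v) ∈ A → d u v ≤ w (u, v) := fun u v h => by
    have := dI v u v h; rw [dz] at this; linarith
  set F : V → V → V → ℝ := fun u v z => if (u, v) ∈ A ∧ (u, z) ∈ A ∧ v ≠ z then
    I z u v + (if (v, z) ∉ A ∧ (z, v) ∉ A then O z u v else 0) else 0 with hF
  set G : V → V → V → ℝ := fun v u z => if (u, v) ∈ A ∧ (z, v) ∈ A ∧ u ≠ z then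
    O z u v + (if (u, z) ∉ A ∧ (z, u) ∉ A then I z u v else 0) else 0 with hG
  have hco : ∀ u, ∑ a, ∑ b, co A u a b ≤ 2 * ∑ a, ∑ b, F u a b := by
    intro u
    apply half
    intro a b
    simp only [hF, co]
    by_cases h : (u, a) ∈ A ∧ (u, b) ∈ A ∧ a ≠ b
    · have h' : (u, b) ∈ A ∧ (u, a) ∈ A ∧ b ≠ a := ⟨h.2.1, h.1, h.2.2.symm⟩
      rw [if_pos h, if_pos h, if_pos h']
      have a1 := wd u a h.1
      have a2 := wd u b h.2.1
      have a3 := dc a b h.2.2
      have a4 := da u a h.1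
      have a5 := da u b h.2.1
      by_cases g : (a, b) ∉ A ∧ (b, a) ∉ A
      · rw [if_pos g, if_pos g, if_pos g.symm]; simp only [hI, hO]; linarith
      · rw [if_neg g, if_neg g, if_neg (fun g' => g g'.symm)]; simp only [hI]; linarith
    · have h' : ¬ ((u, b) ∈ A ∧ (u, a) ∈ A ∧ b ≠ a) := fun h' => h ⟨h'.2.1, h'.1, h'.2.2.symm⟩
      rw [if_neg h, if_neg h, if_neg h']; norm_num
  have hci : ∀ u, ∑ a, ∑ b, ci A u a b ≤ 2 * ∑ a, ∑ b, G u a b := by
    intro u
    apply half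
    intro a b
    simp only [hG, ci]
    by_cases h : (a, u) ∈ A ∧ (b, u) ∈ A ∧ a ≠ b
    · have h' : (b, u) ∈ A ∧ (a, u) ∈ A ∧ b ≠ a := ⟨h.2.1, h.1, h.2.2.symm⟩
      rw [if_pos h, if_pos h, if_pos h']
      have a1 := wd a u h.1
      have a2 := wd b u h.2.1
      have a3 := dc a b h.2.2
      have a4 := da a u h.1
      have a5 := da b u h.2.1
      by_cases g : (a, b) ∉ A ∧ (b, a) ∉ A
      · rw [if_pos g, if_pos g, if_pos g.symm]; simp only [hI, hO]; linarith
      · rw [if_neg g, if_neg g, if_neg (fun g' => g g'.symm)]; simp only [hO]; linarith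
    · have h' : ¬ ((b, u) ∈ A ∧ (a, u) ∈ A ∧ b ≠ a) := fun h' => h ⟨h'.2.1, h'.1, h'.2.2.symm⟩
      rw [if_neg h, if_neg h, if_neg h']; norm_num
  have hpt : ∀ u v z, F u v z + G v u z ≤
      if (u, v) ∈ A then (if z ∈ W then I z u v + O z u v else 0) else 0 := by
    intro u v z
    simp only [hF, hG]
    by_cases h : (u, v) ∈ A
    · have a1 := I0 z u v h
      have a2 := O0 z u v h
      have b1 : (u, z) ∈ A → z ∈ W := fun g => (hi _ g).2
      have b2 : (z, v) ∈ A → z ∈ W := fun g => (hi _ g).1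
      by_cases c1 : (u, z) ∈ A <;> by_cases c2 : (z, v) ∈ A <;> by_cases c3 : z ∈ W <;>
        simp only [h, c1, c2, c3, true_and, false_and, if_true, if_false, not_true, not_false_iff,
          and_false, and_true] <;>
        first
          | (exfalso; tauto)
          | linarith
          | (split_ifs <;> linarith)
    · simp [h]
  have e1 : Ch A ≤ 2 * ∑ u, ∑ v, ∑ z, (F u v z + G v u z) := by
    have q : ∑ u, ∑ v, ∑ z, G v u z = ∑ u, ∑ v, ∑ z, G u v z := sum_comm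
    simp only [Ch, sum_add_distrib]
    rw [q, mul_add, mul_sum, mul_sum]
    exact add_le_add (sum_le_sum fun u _ => hco u) (sum_le_sum fun u _ => hci u)
  have e2 : ∑ u, ∑ v, ∑ z, (F u v z + G v u z) ≤
      ∑ z ∈ W, ∑ e ∈ A, (I z e.1 e.2 + O z e.1 e.2) := by
    rw [sum_comm (s := W), sum_arcs A (fun u v => ∑ z ∈ W, (I z u v + O z u v))]
    refine sum_le_sum fun u _ => sum_le_sum fun v _ => ?_
    refine (sum_le_sum fun z _ => hpt u v z).trans (le_of_eq ?_)
    split_ifs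
    · rw [sum_ite_mem, univ_inter]
    · simp only [sum_const_zero]
  have e3 : ∀ z, ∑ e ∈ A, (I z e.1 e.2 + O z e.1 e.2) ≤ 2 * (∑ e ∈ A, w e + imbF A) := by
    intro z
    have p1 := (abs_le.1 (pot_sum A (fun x => d x z) (fun x => d0 x z) (fun x => d1 x z))).2
    have p2 := (abs_le.1 (pot_sum A (fun x => d z x) (fun x => d0 z x) (fun x => d1 z x))).1
    have : ∑ e ∈ A, (I z e.1 e.2 + O z e.1 e.2) = 2 * ∑ e ∈ A, w e +
        ∑ e ∈ A, (d e.2 z - d e.1 z) - ∑ e ∈ A, (d z e.2 - d z e.1) := by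
      rw [mul_sum, ← sum_add_distrib, ← sum_sub_distrib]
      apply sum_congr rfl; intro e _
      simp only [hI, hO]; ring
    rw [this]; linarith
  have e4 := e2.trans (sum_le_sum fun z _ => e3 z)
  rw [sum_const, nsmul_eq_mul] at e4
  linarith

omit [Fintype V] in
lemma ch_res (A : Finset (V × V)) (S : Finset V) (u a b : V) :
    co (H32.res A S) u a b + ci (H32.res A S) u a b =
      (co A u a b + ci A u a b) * ins {u, a, b} S := by
  simp only [co, ci, H32.res, ins, mem_filter, insert_subset_iff, singleton_subset_iff]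
  by_cases hu : u ∈ S <;> by_cases ha : a ∈ S <;> by_cases hb : b ∈ S <;> simp [hu, ha, hb]

lemma exp_Ch {A : Finset (V × V)} (hl : Loopless A) {s : ℝ} (hs : 0 < s)
    (hsn : s ≤ Fintype.card V) :
    (s / Fintype.card V) ^ 3 * (1 / s - 3 / s ^ 2) * Ch A ≤
      ∑ S, mu (fun _ : V => s / Fintype.card V) S *
        (Ch (H32.res A S) * (2 / s - S.card / s ^ 2)) := by
  simp only [Ch, ch_res, sum_mul, mul_sum]
  rw [sum_comm (s := (univ : Finset (Finset V)))]
  refine sum_le_sum fun u _ => ?_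
  rw [sum_comm (s := (univ : Finset (Finset V)))]
  refine sum_le_sum fun a _ => ?_
  rw [sum_comm (s := (univ : Finset (Finset V)))]
  refine sum_le_sum fun b _ => ?_
  by_cases h : co A u a b + ci A u a b = 0
  · simp only [one_div, h, mul_zero, zero_mul, sum_const_zero, Std.le_refl]
  have h3 : ({u, a, b} : Finset V).card = 3 := by
    rw [card_eq_three]
    by_cases c1 : (u, a) ∈ A ∧ (u, b) ∈ A ∧ a ≠ b
    · exact ⟨u, a, b, hl _ c1.1, hl _ c1.2.1, c1.2.2, rfl⟩
    by_cases c2 : (a, u) ∈ A ∧ (b, u) ∈ A ∧ a ≠ b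
    · exact ⟨u, a, b, (hl _ c2.1).symm, (hl _ c2.2.1).symm, c2.2.2, rfl⟩
    · exact absurd (by rw [co, ci, if_neg c1, if_neg c2, add_zero]) h
  have h4 := mul_le_mul_of_nonneg_left (exp_three hs hsn h3)
    (add_nonneg (co_bd A u a b).1 (ci_bd A u a b).1)
  rw [mul_sum] at h4
  rw [mul_comm]
  refine h4.trans (le_of_eq (sum_congr rfl fun S _ => by ring))

lemma loc_bound (A : Finset (V × V)) {s : ℝ} (hs : 0 < s) (S : Finset V) (w : V × V → ℝ)
    (hw : ∀ e, 0 ≤ w e) (hc : Cyc (H32.res A S) w 1) :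
    Ch (H32.res A S) * (2 / s - S.card / s ^ 2) / 4 - imbF (H32.res A S) ≤
      ∑ e ∈ H32.res A S, w e := by
  have h := dual2 (A := H32.res A S) (W := S) (fun e he => (mem_filter.1 he).2) hw hc
  have h1 : (S.card : ℝ) * (2 / s - S.card / s ^ 2) ≤ 1 := by
    have : (S.card : ℝ) * (2 / s - S.card / s ^ 2) = 1 - (1 - S.card / s) ^ 2 := by
      field_simp; ring
    rw [this]; nlinarith only []
  have h2 : 0 ≤ ∑ e ∈ H32.res A S, w e + imbF (H32.res A S) :=
    add_nonneg (sum_nonneg fun e _ => hw e) (imbF_nonneg _)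
  have h3 := Ch_nonneg (H32.res A S)
  set g := 2 / s - S.card / s ^ 2
  rcases le_or_gt g 0 with hg | hg
  · linarith only [mul_nonneg h3 (neg_nonneg.2 hg), h2]
  · linarith only [mul_le_mul_of_nonneg_left h hg.le, mul_le_mul_of_nonneg_left h1 h2]

/-- oriented version, no degree or balance assumption -/
theorem d1_or {η : ℝ} (hη : 0 < η) : ∃ n0 : ℕ, 1 ≤ n0 ∧ ∀ (V : Type) [DecidableEq V] [Fintype V]
    (A : Finset (V × V)), n0 ≤ Fintype.card V → Loopless A → (∀ e ∈ A, e.swap ∉ A) →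
    ∃ t : ℕ, Pk t A ∧ Ch A / (4 * Fintype.card V) - imbF A -
      η * (Fintype.card V : ℝ) ^ 2 ≤ t := by
  set γ := min (η / 4) 1 with hγ
  have γ0 : 0 < γ := lt_min (by positivity) one_pos
  have γ1 : γ ≤ η / 4 := min_le_left _ _
  have γ2 : γ ≤ 1 := min_le_right _ _
  set s := 3 / γ ^ 2 with hs
  have s0 : 0 < s := by positivity
  obtain ⟨n0, hn0, H⟩ := gen_pack γ0 s0
  refine ⟨n0, Nat.one_le_iff_ne_zero.2 (by rintro rfl; simp at hn0; linarith only [s0, hn0]),
    fun V _ _ A hn hl ho => ?_⟩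
  have hsn : s ≤ Fintype.card V := hn0.trans (by exact_mod_cast hn)
  obtain ⟨t, t1, t2⟩ := H V A (fun S => Ch (H32.res A S) * (2 / s - S.card / s ^ 2) / 4 -
    imbF (H32.res A S)) hn hl ho (loc_bound A s0)
  refine ⟨t, t1, le_trans ?_ t2⟩
  have ec := exp_Ch hl s0 hsn
  have hC := Ch_le A
  set n : ℝ := (Fintype.card V : ℝ) with hn'
  have n0' : 0 < n := by linarith only [s0, hsn]
  set ρ := s / n with hρ
  have ρ0 : 0 < ρ := by positivity
  have ρ1 : ρ ≤ 1 := by rw [hρ, div_le_one n0']; exact hsn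
  have ei := exp_imbF A ρ0.le ρ1 (lam := γ * s) (by positivity)
  rw [← hn'] at ei
  have e1 : ∑ S, mu (fun _ : V => ρ) S * (Ch (H32.res A S) * (2 / s - S.card / s ^ 2) / 4 -
      imbF (H32.res A S)) = (∑ S, mu (fun _ : V => ρ) S *
        (Ch (H32.res A S) * (2 / s - S.card / s ^ 2))) / 4 -
        ∑ S, mu (fun _ : V => ρ) S * imbF (H32.res A S) := by
    rw [sum_div, ← sum_sub_distrib]
    apply sum_congr rfl; intro S _; ring
  have e3 : ((1 - γ ^ 2) * (Ch A / (4 * n)) - imbF A - n ^ 2 * (γ / 2 + γ / 6)) * ρ ^ 2 =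
      ρ ^ 3 * (1 / s - 3 / s ^ 2) * Ch A / 4 - (ρ ^ 2 * imbF A +
        n * (γ * s / 2 * ρ + ρ ^ 2 * n / (2 * (γ * s)))) := by
    rw [hρ, hs]; field_simp; ring
  have e4 : (1 - γ ^ 2) * (Ch A / (4 * n)) - imbF A - n ^ 2 * (γ / 2 + γ / 6) ≤
      (∑ S, mu (fun _ : V => ρ) S * (Ch (H32.res A S) * (2 / s - S.card / s ^ 2) / 4 -
      imbF (H32.res A S))) / ρ ^ 2 := by
    rw [le_div_iff₀ (by positivity), e1, e3]; linarith only [ec, ei]
  have hQ : Ch A / (4 * n) ≤ n ^ 2 := by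
    rw [div_le_iff₀ (by positivity)]; linarith only [hC]
  have n2 : 0 < n ^ 2 := pow_pos n0' 2
  have g2 : γ ^ 2 ≤ γ := by nlinarith only [γ0, γ2]
  have a1 : γ ^ 2 * (Ch A / (4 * n)) ≤ γ * n ^ 2 :=
    (mul_le_mul_of_nonneg_left hQ (sq_nonneg γ)).trans (mul_le_mul_of_nonneg_right g2 n2.le)
  have a5 : 4 * (γ * n ^ 2) ≤ η * n ^ 2 := by nlinarith only [γ1]
  have a6 : 0 < γ * n ^ 2 := mul_pos γ0 n2
  linarith only [e4, a1, a5, a6]

lemma pair_sum (χ : V → Prop) [DecidablePred χ] :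
    ∑ a, ∑ b, (if χ a ∧ χ b ∧ a ≠ b then (1 : ℝ) else 0) =
      (∑ a, if χ a then (1 : ℝ) else 0) * ((∑ a, if χ a then (1 : ℝ) else 0) - 1) := by
  rw [mul_sub, mul_one, sum_mul_sum, ← sum_sub_distrib]
  apply sum_congr rfl; intro a _
  have : (if χ a then (1 : ℝ) else 0) = ∑ b, if a = b then (if χ a then (1 : ℝ) else 0) else 0 := by
    rw [sum_ite_eq]; simp only [mem_univ, ↓ reduceIte]
  conv_rhs => rw [sub_eq_add_neg, ← neg_one_mul]; arg 2; rw [this, mul_sum]
  rw [← sum_add_distrib]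
  apply sum_congr rfl; intro b _
  by_cases h : a = b
  · subst h; by_cases h1 : χ a <;> simp [h1]
  · by_cases h1 : χ a <;> by_cases h2 : χ b <;> simp [h, h1, h2]

/-- the cherry weight of a simple matrix -/
lemma Ch_arcs {D : Mat V} (h : Simple D) : Ch (arcs D) =
    ∑ v, ((out D v : ℝ) * (out D v - 1) + (inn D v : ℝ) * (inn D v - 1)) +
      nco D univ + nci D univ := by
  simp only [← od_arcs h, ← idg_arcs h, od_eq_sum, idg_eq_sum, ← pair_sum, nci, nco, Ch,
    Nat.cast_sum, ← sum_add_distrib]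
  refine sum_congr rfl fun u _ => sum_congr rfl fun a _ => sum_congr rfl fun b _ => ?_
  simp only [co, ci, mem_arcs]
  by_cases h0 : a = b <;> by_cases h1 : D u a = 0 <;> by_cases h2 : D u b = 0 <;>
    by_cases h3 : D a u = 0 <;> by_cases h4 : D b u = 0 <;> by_cases h5 : D a b = 0 <;>
    by_cases h6 : D b a = 0 <;> simp [*] <;> norm_num

/-- removing a set of arcs lowers the cherry weight by at most `8 k` per arc -/
lemma Ch_sdiff {A F : Finset (V × V)} {k : ℝ} (ho : ∀ v, (od A v : ℝ) ≤ k)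
    (hi : ∀ v, (idg A v : ℝ) ≤ k) : Ch A ≤ Ch (A \ F) + 8 * k * F.card := by
  set x : V → V → ℝ := fun u v => if (u, v) ∈ A then 1 else 0 with hx
  set f : V → V → ℝ := fun u v => if (u, v) ∈ F then 1 else 0 with hf
  have f0 : ∀ u v, 0 ≤ f u v := fun u v => by simp only [hf]; split_ifs <;> norm_num
  have p1 : ∀ u a b, co A u a b ≤ co (A \ F) u a b + 2 * (f u a * x u b + f u b * x u a) := by
    intro u a b
    simp only [co, hx, hf, mem_sdiff]
    by_cases h1 : (u, a) ∈ A <;> by_cases h2 : (u, b) ∈ A <;> by_cases h3 : (u, a) ∈ F <;>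
      by_cases h4 : (u, b) ∈ F <;> by_cases h5 : a = b <;> simp only [h5, h2, ne_eq, not_true_eq_false, and_false, ↓ reduceIte, h4, and_self, mul_one, zero_add, Nat.ofNat_pos, mul_nonneg_iff_of_pos_left, nonneg_add_self_iff, zero_le_one, h1, not_false_eq_true, h3, and_true, add_zero, mul_zero, Std.le_refl, not_and, Decidable.not_not, Nat.ofNat_nonneg] <;>
      split_ifs <;> first | (exfalso; tauto) | norm_num
  have p2 : ∀ u a b, ci A u a b ≤ ci (A \ F) u a b + 2 * (f a u * x b u + f b u * x a u) := by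
    intro u a b
    simp only [ci, hx, hf, mem_sdiff]
    by_cases h1 : (a, u) ∈ A <;> by_cases h2 : (b, u) ∈ A <;> by_cases h3 : (a, u) ∈ F <;>
      by_cases h4 : (b, u) ∈ F <;> by_cases h5 : a = b <;> simp only [h5, h2, ne_eq, not_true_eq_false, and_false, ↓ reduceIte, h4, and_self, mul_one, zero_add, Nat.ofNat_pos, mul_nonneg_iff_of_pos_left, nonneg_add_self_iff, zero_le_one, h1, not_false_eq_true, h3, and_true, add_zero, mul_zero, Std.le_refl, not_and, Decidable.not_not, Nat.ofNat_nonneg] <;>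
      split_ifs <;> first | (exfalso; tauto) | norm_num
  have q1 : ∑ u, ∑ a, ∑ b, f u a * x u b ≤ k * ∑ u, ∑ a, f u a := by
    simp only [mul_sum univ _ k]
    refine sum_le_sum fun u _ => sum_le_sum fun a _ => ?_
    rw [← mul_sum, ← od_eq_sum, mul_comm]
    exact mul_le_mul_of_nonneg_right (ho u) (f0 u a)
  have q2 : ∑ u, ∑ a, ∑ b, f a u * x b u ≤ k * ∑ u, ∑ a, f a u := by
    simp only [mul_sum univ _ k]
    refine sum_le_sum fun u _ => sum_le_sum fun a _ => ?_
    rw [← mul_sum, ← idg_eq_sum, mul_comm]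
    exact mul_le_mul_of_nonneg_right (hi u) (f0 a u)
  have q3 : ∑ u, ∑ a, ∑ b, f u b * x u a = ∑ u, ∑ a, ∑ b, f u a * x u b :=
    sum_congr rfl fun u _ => sum_comm
  have q4 : ∑ u, ∑ a, ∑ b, f b u * x a u = ∑ u, ∑ a, ∑ b, f a u * x b u :=
    sum_congr rfl fun u _ => sum_comm
  have q5 : ∑ u, ∑ a, f u a = F.card := by
    have := sum_arcs F (fun _ _ => 1)
    rw [sum_const, nsmul_eq_mul, mul_one] at this
    exact this.symm
  have q6 : ∑ u, ∑ a, f a u = F.card := by rw [← q5]; exact sum_comm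
  have : Ch A ≤ ∑ u, ∑ a, ∑ b, ((co (A \ F) u a b + ci (A \ F) u a b) +
      2 * (f u a * x u b + f u b * x u a) + 2 * (f a u * x b u + f b u * x a u)) :=
    sum_le_sum fun u _ => sum_le_sum fun a _ => sum_le_sum fun b _ => by
      linarith only [p1 u a b, p2 u a b]
  simp only [sum_add_distrib, ← mul_sum univ _ (2 : ℝ)] at this
  rw [q3, q4] at this
  rw [q5] at q1
  rw [q6] at q2
  simp only [Ch, sum_add_distrib] at this ⊢
  linarith only [q1, q2, this]

end Pool.Agent.MP_2634a8_co.X.D1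

namespace Pool.Agent.MP_2634a8_co.X

open Finset Pool.Agent.MP_2634a8_co.H32 D1

theorem d1 : D1_s := by
  intro η hη
  obtain ⟨n0, h1, H⟩ := d1_or hη
  refine ⟨n0, fun V _ _ D k hn hk hs hd => ?_⟩
  set A := arcs D with hA
  set F := A.filter fun e => e.swap ∈ A with hF
  have hFA : F ⊆ A := filter_subset _ _
  have hsym : ∀ e ∈ F, e.swap ∈ F := by
    intro e he
    obtain ⟨h1, h2⟩ := mem_filter.1 he
    exact mem_filter.2 ⟨h2, by simpa using h1⟩
  obtain ⟨t1, p1, p2⟩ := digons hsym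
  obtain ⟨t2, q1, q2⟩ := H V (A \ F) hn (fun e he => arcs_loopless hs e (mem_sdiff.1 he).1)
    (fun e he h => (mem_sdiff.1 he).2 (mem_filter.2 ⟨(mem_sdiff.1 he).1, (mem_sdiff.1 h).1⟩))
  refine ⟨t2 + t1, pack_of_pk ?_, ?_⟩
  · have := q1.union p1 sdiff_disjoint
    rwa [sdiff_union_of_subset hFA] at this
  rw [← Ch_arcs hs, ← imbF_arcs hs, ← hA]
  have e1 : imbF (A \ F) = imbF A := by
    unfold imbF
    apply sum_congr rfl; intro v _
    rw [← od_sdiff hFA v, ← idg_sdiff hFA v, bl_of_symm hsym v]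
    push_cast; congr 1; ring
  have e2 := Ch_sdiff (A := A) (F := F) (k := k)
    (fun v => by rw [hA, od_arcs hs]; exact_mod_cast (hd v).1)
    (fun v => by rw [hA, idg_arcs hs]; exact_mod_cast (hd v).2)
  set n : ℝ := (Fintype.card V : ℝ) with hn'
  have n0' : 0 < n := by rw [hn']; exact_mod_cast (by omega : 0 < Fintype.card V)
  have e3 : 4 * (k : ℝ) ≤ n := by rw [hn']; exact_mod_cast hk
  have e4 : (F.card : ℝ) ≤ 2 * t1 := by exact_mod_cast p2
  have e5 : Ch A / (4 * n) ≤ Ch (A \ F) / (4 * n) + t1 := by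
    rw [div_add' _ _ _ (by positivity)]
    gcongr
    have k0 : (0 : ℝ) ≤ k := by positivity
    have t0 : (0 : ℝ) ≤ t1 := by positivity
    linarith only [mul_le_mul_of_nonneg_left e4 k0, mul_le_mul_of_nonneg_left e3 t0, e2]
  rw [e1] at q2
  push_cast
  linarith only [q2, e5]

end Pool.Agent.MP_2634a8_co.X
end

section
namespace Pool.Agent.MP_2634a8_co.X.DS

open Finset H32

variable {V : Type}

structure Pot (A : Finset (V × V)) (w : V × V → ℝ) (p : V → V → ℝ) : Prop where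
  p0 : ∀ z u, 0 ≤ p z u
  p1 : ∀ z u, p z u ≤ 1
  self : ∀ z, p z z = 0
  fwd : ∀ z u v, (u, v) ∈ A → p z u ≤ w (u, v) + p z v
  bwd : ∀ z u v, (u, v) ∈ A → p v z ≤ w (u, v) + p u z
  two : ∀ v z, v ≠ z → 1 ≤ p z v + p v z
  arc : ∀ u v, (u, v) ∈ A → 1 ≤ w (u, v) + p u v

lemma exists_pot2 {A : Finset (V × V)} {w : V × V → ℝ} (hw : ∀ e, 0 ≤ w e) (hc : Cyc A w 1) :
    ∃ p : V → V → ℝ, Pot A w p := by
  obtain ⟨d, d0, d1, dz, dI, dO, dc, da⟩ := D1.exists_dist hw hc
  exact ⟨fun z u => d u z, fun _ _ => d0 _ _, fun _ _ => d1 _ _, dz, dI, dO, dc, da⟩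

variable [DecidableEq V]

/-- the reversed digraph -/
def rv (B : Finset (V × V)) : Finset (V × V) := B.image Prod.swap

lemma mem_rv {B : Finset (V × V)} {e : V × V} : e ∈ rv B ↔ e.swap ∈ B := by
  unfold rv
  constructor
  · intro h
    obtain ⟨a, ha, rfl⟩ := mem_image.1 h
    simpa using ha
  · intro h
    exact mem_image.2 ⟨_, h, Prod.swap_swap e⟩

lemma mk_rv {B : Finset (V × V)} {u v : V} : (u, v) ∈ rv B ↔ (v, u) ∈ B := mem_rv

lemma sum_rv (B : Finset (V × V)) (g : V × V → ℝ) : ∑ e ∈ rv B, g e = ∑ e ∈ B, g e.swap :=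
  sum_image fun _ _ _ _ h => Prod.swap_injective h

lemma Pot.rev {B : Finset (V × V)} {w : V × V → ℝ} {p : V → V → ℝ} (h : Pot B w p) :
    Pot (rv B) (fun e => w e.swap) (fun z u => p u z) :=
  ⟨fun _ _ => h.p0 _ _, fun _ _ => h.p1 _ _, h.self, fun z u v he => h.bwd z v u (mk_rv.1 he),
    fun z u v he => h.fwd z v u (mk_rv.1 he), fun v z hv => h.two z v hv.symm,
    fun u v he => h.arc v u (mk_rv.1 he)⟩

variable [Fintype V]

noncomputable def Phi (B : Finset (V × V)) : ℝ := ∑ u, (od B u : ℝ) * (od B u + 1) / 2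
noncomputable def imb (B : Finset (V × V)) : ℝ := ∑ v, |(idg B v : ℝ) - od B v|
noncomputable def tg (s : ℝ) (S : Finset V) : ℝ := 2 / s - S.card / s ^ 2
/-- ordered out-cherries -/
noncomputable def ch (B : Finset (V × V)) : ℝ := ∑ u, (od B u : ℝ) * (od B u - 1)

lemma od_rv (B : Finset (V × V)) (v : V) : od (rv B) v = idg B v := by
  have : (od (rv B) v : ℝ) = idg B v := by simp only [od_eq_sum, idg_eq_sum, mk_rv]
  exact_mod_cast this

lemma idg_rv (B : Finset (V × V)) (v : V) : idg (rv B) v = od B v := by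
  have : (idg (rv B) v : ℝ) = od B v := by simp only [od_eq_sum, idg_eq_sum, mk_rv]
  exact_mod_cast this

lemma imb_rv (B : Finset (V × V)) : imb (rv B) = imb B := by
  unfold imb
  simp only [od_rv, idg_rv]
  exact sum_congr rfl fun v _ => abs_sub_comm _ _

lemma master {B : Finset (V × V)} {S : Finset V} {w : V × V → ℝ} {p : V → V → ℝ}
    (hi : Ins B S) (hl : Loopless B) (h : Pot B w p) :
    Phi B + (∑ u, ∑ v, ∑ z, if (u, v) ∈ B ∧ (u, z) ∈ B ∧ v ≠ z then (p z v + p v z - 1) / 2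
      else 0) + (∑ u, ∑ v, ∑ z, if (u, v) ∈ B ∧ z ∈ S ∧ z ≠ u ∧ (u, z) ∉ B then
      w (u, v) + p z v - p z u else 0) ≤ S.card * (∑ e ∈ B, w e + imb B) := by
  have h1 : ∑ u, ∑ v ∈ nb B u, ∑ z ∈ S, (w (u, v) + p z v - p z u) ≤
      S.card * (∑ e ∈ B, w e + imb B) := by
    rw [← sum_nb B (fun e => ∑ z ∈ S, (w e + p z e.2 - p z e.1)), sum_comm, ← nsmul_eq_mul,
      ← sum_const]
    apply sum_le_sum
    intro z _
    rw [sum_sub_distrib, sum_add_distrib, sum_head B (p z), sum_tail B (p z), add_sub_assoc,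
      ← sum_sub_distrib]
    unfold imb
    gcongr with v _
    rw [← sub_mul]
    calc ((idg B v : ℝ) - od B v) * p z v ≤ |(idg B v : ℝ) - od B v| * p z v :=
          mul_le_mul_of_nonneg_right (le_abs_self _) (h.p0 z v)
      _ ≤ |(idg B v : ℝ) - od B v| * 1 := mul_le_mul_of_nonneg_left (h.p1 z v) (abs_nonneg _)
      _ = _ := mul_one _
  refine le_trans ?_ h1
  unfold Phi
  rw [← sum_add_distrib, ← sum_add_distrib]
  apply sum_le_sum
  intro u _
  set a : V → V → ℝ := fun v z =>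
    if (u, v) ∈ B ∧ (u, z) ∈ B then w (u, v) + p z v - p z u else 0 with ha
  have e1 : ∑ v ∈ nb B u, ∑ z ∈ S, (w (u, v) + p z v - p z u) =
      ∑ v, ∑ z, ((if (u, v) ∈ B ∧ z ∈ S then w (u, v) + p z v - p z u else 0) - a v z / 2 +
        a z v / 2) := by
    simp only [sum_add_distrib, sum_sub_distrib (f := fun z => if _ ∧ z ∈ S then _ else _)]
    rw [sum_sub_distrib, sum_comm (f := fun v z => a z v / 2), sub_add_cancel]
    rw [← univ_inter (nb B u), ← sum_ite_mem]
    apply sum_congr rfl; intro v _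
    by_cases hv : (u, v) ∈ B
    · simp only [mem_nb, hv, true_and, if_true, sum_ite_mem, univ_inter]
    · simp only [mem_nb, hv, ↓ reduceIte, false_and, sum_const_zero]
  have e2 : (od B u : ℝ) * (od B u + 1) / 2 = ∑ v, ∑ z,
      ((if (u, v) ∈ B then (1 : ℝ) else 0) * (if (u, z) ∈ B then 1 else 0) / 2 -
        (if v = z then (if (u, v) ∈ B then 1 else 0) else 0) / 2 +
        (if u = z then (if (u, v) ∈ B then 1 else 0) else 0)) := by
    simp only [sum_add_distrib, sum_sub_distrib, ← sum_div, ← mul_sum, ← sum_mul, sum_ite_eq,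
      mem_univ, if_true, ← od_eq_sum]
    ring
  rw [e1, e2, ← sum_add_distrib, ← sum_add_distrib]
  apply sum_le_sum; intro v _
  rw [← sum_add_distrib, ← sum_add_distrib]
  apply sum_le_sum; intro z _
  simp only [ha]
  by_cases hv : (u, v) ∈ B
  · have b1 := h.fwd z u v hv
    have b2 := h.fwd v u v hv
    rw [h.self] at b2
    by_cases hz : (u, z) ∈ B
    · have hzS := (hi _ hz).2
      have huz : u ≠ z := hl _ hz
      have b3 := h.fwd z u z hz
      rw [h.self] at b3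
      by_cases hvz : v = z
      · subst hvz
        simp only [hv, hzS, huz, h.self]
        simp
        linarith only [b2]
      · simp only [hv, hz, hzS, huz, hvz]
        simp only [↓ reduceIte, mul_one, one_div, zero_div, sub_zero, add_zero, ne_eq, hvz, not_false_eq_true, and_self, not_true_eq_false, and_false, ge_iff_le]
        linarith only [b2, b3]
    · have hvz : v ≠ z := by rintro rfl; exact hz hv
      by_cases huz : u = z
      · subst huz
        have b4 := h.arc u v hv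
        simp [hv, hz, hvz, (hi _ hv).1, h.self]
        linarith only [b4]
      · by_cases hzS : z ∈ S
        · simp [hv, hz, hvz, huz, Ne.symm huz, hzS]
        · simp [hv, hz, hvz, huz, hzS]
  · simp [hv]

omit [Fintype V] in
lemma ins_res (A : Finset (V × V)) (S : Finset V) : Ins (H32.res A S) S :=
  fun _ he => (mem_filter.1 he).2

omit [Fintype V] in
lemma Loopless.res {A : Finset (V × V)} (hl : Loopless A) (S : Finset V) : Loopless (H32.res A S) :=
  fun e he => hl e (mem_filter.1 he).1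

lemma imb_nonneg (B : Finset (V × V)) : 0 ≤ imb B := sum_nonneg fun _ _ => abs_nonneg _

lemma master_rv {B : Finset (V × V)} {S : Finset V} {w : V × V → ℝ} {p : V → V → ℝ}
    (hi : Ins B S) (hl : Loopless B) (h : Pot B w p) :
    Phi (rv B) + (∑ u, ∑ v, ∑ z, if (v, u) ∈ B ∧ (z, u) ∈ B ∧ v ≠ z then (p v z + p z v - 1) / 2
      else 0) + (∑ u, ∑ v, ∑ z, if (u, v) ∈ B ∧ z ∈ S ∧ z ≠ v ∧ (z, v) ∉ B then
      w (u, v) + p u z - p v z else 0) ≤ S.card * (∑ e ∈ B, w e + imb B) := by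
  have h1 := master (B := rv B) (S := S) (fun e he => (hi _ (mem_rv.1 he)).symm)
    (fun e he => (hl _ (mem_rv.1 he)).symm) h.rev
  rw [imb_rv, sum_rv, sum_comm (f := fun u v => ∑ z, if (u, v) ∈ rv B ∧ z ∈ S ∧ _ then _ else _)]
    at h1
  simp only [mk_rv, Prod.swap_swap, Prod.swap_prod_mk] at h1
  exact h1

/-- `H` is a bonus in the dual bound of every induced subdigraph -/
def Bonus (A : Finset (V × V)) (H : Finset V → ℝ) : Prop :=
  (∀ S, 0 ≤ H S) ∧ ∀ (S : Finset V) (w : V × V → ℝ), (∀ e, 0 ≤ w e) → Cyc (H32.res A S) w 1 →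
    (Phi (H32.res A S) + Phi (rv (H32.res A S))) / 2 + H S ≤ S.card * (∑ e ∈ H32.res A S, w e + imb (H32.res A S))

lemma ch_nonneg (B : Finset (V × V)) : 0 ≤ ch B := by
  apply sum_nonneg; intro u _
  rcases Nat.eq_zero_or_pos (od B u) with h | h
  · rw [h]; simp
  · have : (1 : ℝ) ≤ od B u := by exact_mod_cast h
    nlinarith only [this]

lemma ch_le (B : Finset (V × V)) : ch B / 2 ≤ Phi B := by
  unfold ch; rw [sum_div]
  apply sum_le_sum; intro u _
  have : (0 : ℝ) ≤ od B u := by positivity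
  linarith

lemma local2 {A : Finset (V × V)} {H : Finset V → ℝ} (hH : Bonus A H) {s : ℝ} (hs : 0 < s)
    (S : Finset V) (w : V × V → ℝ) (hw : ∀ e, 0 ≤ w e) (hc : Cyc (H32.res A S) w 1) :
    ((ch (H32.res A S) + ch (rv (H32.res A S))) / 4 + H S) * tg s S - imb (H32.res A S) ≤
      ∑ e ∈ H32.res A S, w e := by
  have h5 := hH.2 S w hw hc
  set X := ∑ e ∈ H32.res A S, w e + imb (H32.res A S) with hX
  set Z := (ch (H32.res A S) + ch (rv (H32.res A S))) / 4 + H S with hZ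
  have hX0 : 0 ≤ X := add_nonneg (sum_nonneg fun e _ => hw e) (imb_nonneg _)
  have hZ0 : 0 ≤ Z := by
    linarith only [ch_nonneg (H32.res A S), ch_nonneg (rv (H32.res A S)), hH.1 S, hZ]
  have hZX : Z ≤ S.card * X := by linarith [ch_le (H32.res A S), ch_le (rv (H32.res A S))]
  have h1 : (S.card : ℝ) * tg s S ≤ 1 := by
    have : (S.card : ℝ) * tg s S = 1 - (1 - S.card / s) ^ 2 := by
      unfold tg; field_simp; ring
    rw [this]; linarith only [sq_nonneg (1 - S.card / s)]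
  have h9 : Z * tg s S ≤ X := by
    rcases le_total 0 (tg s S) with h | h
    · linarith only [mul_le_mul_of_nonneg_right hZX h, mul_le_mul_of_nonneg_left h1 hX0]
    · linarith only [mul_nonneg hZ0 (neg_nonneg.2 h), hX0]
  linarith only [h9]

lemma Pot.cover {B F : Finset (V × V)} {w : V × V → ℝ} {p : V → V → ℝ} (h : Pot B w p)
    (f1 : F.Nonempty) (f2 : Bl F) (f3 : F ⊆ B) : 1 ≤ ∑ e ∈ F, w e := by
  obtain ⟨⟨u, v⟩, he⟩ := f1
  have e : ∑ e ∈ F, w e = ∑ e ∈ F, (w e + p u e.2 - p u e.1) := by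
    rw [sum_sub_distrib, sum_add_distrib, sum_head, sum_tail]
    simp only [f2 _]; ring
  have := single_le_sum (f := fun e => w e + p u e.2 - p u e.1)
    (fun e he => by linarith [h.fwd u e.1 e.2 (f3 he)]) he
  simp only [h.self] at this
  linarith [h.arc u v (f3 he)]

omit [Fintype V] in
lemma res_rv (A : Finset (V × V)) (S : Finset V) : H32.res (rv A) S = rv (H32.res A S) := by
  ext e; simp only [H32.res, mem_filter, mem_rv, Prod.fst_swap, Prod.snd_swap]; tauto

lemma ch_bd (B : Finset (V × V)) : ch B ≤ (Fintype.card V : ℝ) * (Fintype.card V : ℝ) ^ 2 := by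
  have : ∀ u, (od B u : ℝ) * (od B u - 1) ≤ (Fintype.card V : ℝ) ^ 2 := by
    intro u
    have h1 : (od B u : ℝ) ≤ Fintype.card V := by
      rw [← card_nb]; exact_mod_cast card_le_univ _
    have h2 : (0 : ℝ) ≤ od B u := by positivity
    nlinarith only [h1]
  refine (sum_le_sum fun u _ => this u).trans ?_
  rw [sum_const, card_univ, nsmul_eq_mul]

theorem gen_round {η : ℝ} (hη : 0 < η) : ∃ s0 : ℝ, 0 < s0 ∧ ∀ s, s0 ≤ s → ∃ n0 : ℕ, s ≤ n0 ∧
    ∀ (V : Type) [DecidableEq V] [Fintype V] (A : Finset (V × V)), n0 ≤ Fintype.card V →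
    Loopless A → Bl A → (∀ e ∈ A, e.swap ∉ A) → ∀ (H : Finset V → ℝ) (b : ℝ), Bonus A H →
    (s / Fintype.card V) ^ 2 * b ≤
      ∑ S, mu (fun _ : V => s / Fintype.card V) S * (H S * tg s S) →
    ∃ t : ℕ, Pk t A ∧ ch A / (2 * Fintype.card V) + b - η * (Fintype.card V : ℝ) ^ 2 ≤ t := by
  set γ := min (η / 4) 1 with hγ
  have γ0 : 0 < γ := lt_min (by positivity) one_pos
  have γ1 : γ ≤ η / 4 := min_le_left _ _
  have γ2 : γ ≤ 1 := min_le_right _ _
  refine ⟨3 / γ ^ 2, by positivity, fun s hs => ?_⟩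
  have s0 : 0 < s := lt_of_lt_of_le (by positivity) hs
  obtain ⟨n0, hn0, G⟩ := D1.gen_pack γ0 s0
  refine ⟨n0, hn0, fun V _ _ A hn hl hb ho H b hH hE => ?_⟩
  have hsn : s ≤ Fintype.card V := hn0.trans (by exact_mod_cast hn)
  obtain ⟨t, t1, t2⟩ := G V A _ hn hl ho (local2 hH s0)
  refine ⟨t, t1, le_trans ?_ t2⟩
  have ec := exp_cher hl s0 hsn
  have ec' := exp_cher (A := rv A) (fun e he => (hl _ (mem_rv.1 he)).symm) s0 hsn
  simp only [res_rv] at ec'
  have e0 : ∑ u, (od (rv A) u : ℝ) * (od (rv A) u - 1) = ch A := by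
    unfold ch; simp only [od_rv, hb _]
  have hQ := ch_bd A
  have hQ0 := ch_nonneg A
  rw [e0] at ec'
  set n : ℝ := (Fintype.card V : ℝ) with hn'
  have n0 : 0 < n := by linarith only [s0, hsn]
  set ρ := s / n with hρ
  have ρ0 : 0 < ρ := by positivity
  have ρ1 : ρ ≤ 1 := by rw [hρ, div_le_one n0]; exact hsn
  have e2 := D1.exp_imbF A ρ0.le ρ1 (show 0 < γ * s by positivity)
  have e2' : D1.imbF A = 0 := by unfold D1.imbF; simp [hb _]
  rw [e2', ← hn'] at e2
  have e1 : ∑ S, mu (fun _ : V => ρ) S *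
      (((ch (H32.res A S) + ch (rv (H32.res A S))) / 4 + H S) * tg s S - imb (H32.res A S)) =
      (∑ S, mu (fun _ : V => ρ) S * (ch (H32.res A S) * tg s S)) / 4 +
      (∑ S, mu (fun _ : V => ρ) S * (ch (rv (H32.res A S)) * tg s S)) / 4 +
      ∑ S, mu (fun _ : V => ρ) S * (H S * tg s S) -
      ∑ S, mu (fun _ : V => ρ) S * D1.imbF (H32.res A S) := by
    rw [sum_div, sum_div, ← sum_add_distrib, ← sum_add_distrib, ← sum_sub_distrib]
    apply sum_congr rfl; intro S _
    unfold imb D1.imbF; ring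
  have hs' : 3 ≤ s * γ ^ 2 := by rwa [div_le_iff₀ (by positivity)] at hs
  have a1 : 3 / s ≤ γ := by rw [div_le_iff₀ s0]; linarith only [mul_le_mul_of_nonneg_left γ2 (mul_pos s0 γ0).le, hs']
  have a2 : 1 / (γ * s) ≤ γ := by rw [div_le_iff₀ (by positivity)]; linarith only [hs']
  have a3 : ch A / (2 * n) ≤ n ^ 2 := by
    rw [div_le_iff₀ (by positivity)]; linarith only [hQ0, hQ]
  have a4 : (1 - 3 / s) * (ch A / (2 * n)) + b - n ^ 2 * (γ + 1 / (γ * s)) / 2 ≤
      (∑ S, mu (fun _ : V => ρ) S *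
      (((ch (H32.res A S) + ch (rv (H32.res A S))) / 4 + H S) * tg s S - imb (H32.res A S))) / ρ ^ 2 := by
    have e3 : ((1 - 3 / s) * (ch A / (2 * n)) + b - n ^ 2 * (γ + 1 / (γ * s)) / 2) * ρ ^ 2 =
        (ρ ^ 3 * (1 / s - 3 / s ^ 2) * ch A) / 2 + ρ ^ 2 * b -
          n * (γ * s / 2 * ρ + ρ ^ 2 * n / (2 * (γ * s))) := by
      rw [hρ]; field_simp
    rw [le_div_iff₀ (by positivity), e1, e3]
    unfold ch tg at *
    linarith only [hE, ec, ec', e2]
  have n2 : 0 < n ^ 2 := pow_pos n0 2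
  have a5 : 3 / s * (ch A / (2 * n)) ≤ γ * n ^ 2 :=
    (mul_le_mul_of_nonneg_left a3 (by positivity)).trans (mul_le_mul_of_nonneg_right a1 n2.le)
  have a6 := mul_le_mul_of_nonneg_left a2 n2.le
  have a7 := mul_le_mul_of_nonneg_right γ1 n2.le
  have a8 := mul_pos γ0 n2
  rw [sub_mul, one_mul, mul_add] at a4
  linarith only [a4, a5, a6, a7, a8]

lemma extra_nonneg {B : Finset (V × V)} {w : V × V → ℝ} {p : V → V → ℝ} (h : Pot B w p) :
    (0 ≤ ∑ u, ∑ v, ∑ z, if (u, v) ∈ B ∧ (u, z) ∈ B ∧ v ≠ z then (p z v + p v z - 1) / 2 else 0) ∧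
    0 ≤ ∑ u, ∑ v, ∑ z, if (v, u) ∈ B ∧ (z, u) ∈ B ∧ v ≠ z then (p v z + p z v - 1) / 2 else 0 := by
  constructor <;>
  · refine sum_nonneg fun u _ => sum_nonneg fun v _ => sum_nonneg fun z _ => ?_
    split_ifs with hc
    · linarith only [h.two v z hc.2.2]
    · exact le_rfl

/-- open out-cherry -/
def Op (A : Finset (V × V)) (u v z : V) : Prop :=
  (u, v) ∈ A ∧ (u, z) ∈ A ∧ v ≠ z ∧ (v, z) ∉ A ∧ (z, v) ∉ A

instance (A : Finset (V × V)) (u v z : V) : Decidable (Op A u v z) := by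
  unfold Op; infer_instance

lemma Ch_ge {A : Finset (V × V)} (hb : Bl A) :
    2 * ch A + (∑ u, ∑ v, ∑ z, if Op A u v z then (1 : ℝ) else 0) ≤ D1.Ch A := by
  have e : 2 * ch A = ∑ u, ((od A u : ℝ) * (od A u - 1) + (idg A u : ℝ) * (idg A u - 1)) := by
    unfold ch; rw [mul_sum]; exact sum_congr rfl fun u _ => by rw [← hb u]; ring
  rw [e]
  simp only [od_eq_sum, idg_eq_sum, ← D1.pair_sum, D1.Ch, ← sum_add_distrib]
  refine sum_le_sum fun u _ => sum_le_sum fun a _ => sum_le_sum fun b _ => ?_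
  have h1 : (if (a, u) ∈ A ∧ (b, u) ∈ A ∧ a ≠ b then (1 : ℝ) else 0) ≤ D1.ci A u a b := by
    unfold D1.ci; split_ifs <;> norm_num
  have h2 : (if (u, a) ∈ A ∧ (u, b) ∈ A ∧ a ≠ b then (1 : ℝ) else 0) +
      (if Op A u a b then (1 : ℝ) else 0) ≤ D1.co A u a b := by
    unfold D1.co
    by_cases c : Op A u a b
    · rw [if_pos c, if_pos ⟨c.1, c.2.1, c.2.2.1⟩, if_pos ⟨c.1, c.2.1, c.2.2.1⟩, if_pos c.2.2.2]
      norm_num
    · rw [if_neg c]; split_ifs <;> norm_num
  linarith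

/-- a nonempty set in which every vertex has an out-neighbour -/
def Gd (A : Finset (V × V)) (U : Finset V) : Prop := U.Nonempty ∧ ∀ v ∈ U, ∃ x ∈ U, (v, x) ∈ A

lemma Gd.cyc {A : Finset (V × V)} (hl : Loopless A) {U : Finset V} (h : Gd A U) :
    ∃ F : Finset (V × V), F.Nonempty ∧ Bl F ∧ F ⊆ H32.res A U := by
  by_contra hc
  push Not at hc
  have := two_n (A := H32.res A U) (W := U) (a := fun _ => 0) (L := 2 * U.card + 1) (ε := 1) h.1
    (ins_res A U) (Loopless.res hl U)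
    (cyc_of_sets (tw_nonneg _) fun F f1 f2 f3 => absurd f3 (hc F f1 f2)) (by positivity) (by
      intro u hu
      obtain ⟨x, hx, hx'⟩ := h.2 u hu
      refine ⟨?_, by simp⟩
      rw [← card_nb]
      exact card_pos.2 ⟨x, mem_nb.2 (mem_filter.2 ⟨hx', hu, hx⟩)⟩)
  linarith

open Classical in
noncomputable def pg (A : Finset (V × V)) (β : ℝ) (U : Finset V) : ℝ :=
  ∑ T, mu (fun _ : V => β) T * if Gd A (U ∩ T) then 1 else 0

lemma pg_nonneg (A : Finset (V × V)) {β : ℝ} (h0 : 0 ≤ β) (h1 : β ≤ 1) (U : Finset V) :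
    0 ≤ pg A β U :=
  sum_nonneg fun T _ => mul_nonneg (mu_nonneg (fun _ => h0) (fun _ => h1) T)
    (by split_ifs <;> norm_num)

lemma pg_le {A : Finset (V × V)} (hl : Loopless A) {β : ℝ} (h0 : 0 ≤ β) (h1 : β ≤ 1)
    {S W : Finset V} {w : V × V → ℝ} {q : V → ℝ}
    (hc : ∀ F : Finset (V × V), F.Nonempty → Bl F → F ⊆ H32.res A S → 1 ≤ ∑ e ∈ F, w e)
    (hq : ∀ u v, (u, v) ∈ H32.res A S → q u ≤ w (u, v) + q v) :
    pg A β (W ∩ S) ≤ β ^ 2 * ∑ u, ∑ v, if (u, v) ∈ H32.res A S ∧ u ∈ W ∧ v ∈ W then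
      w (u, v) + q v - q u else 0 := by
  set σ : V × V → ℝ := fun e => if e ∈ H32.res A S ∧ e.1 ∈ W ∧ e.2 ∈ W then
      w e + q e.2 - q e.1 else 0 with hσ
  have σ0 : ∀ e, 0 ≤ σ e := by
    rintro ⟨u, v⟩; simp only [hσ]; split_ifs with h
    · linarith [hq u v h.1]
    · exact le_rfl
  rw [← Fintype.sum_prod_type' (f := fun u v => σ (u, v))]
  have e : β ^ 2 * ∑ e : V × V, σ (e.1, e.2) =
      ∑ T, mu (fun _ : V => β) T * ∑ e : V × V, σ e * ins {e.1, e.2} T := by
    simp only [mul_sum]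
    rw [sum_comm]
    apply sum_congr rfl; intro e _
    by_cases he : e ∈ H32.res A S
    · rw [← card_pair (Loopless.res hl S e he), ← exp_ins, sum_mul]
      apply sum_congr rfl; intro T _; ring
    · simp [hσ, he]
  rw [e]
  apply sum_le_sum; intro T _
  apply mul_le_mul_of_nonneg_left _ (mu_nonneg (fun _ => h0) (fun _ => h1) T)
  have n0 : ∀ e : V × V, 0 ≤ σ e * ins {e.1, e.2} T := fun e =>
    mul_nonneg (σ0 e) (by unfold ins; split_ifs <;> norm_num)
  split_ifs with hg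
  · obtain ⟨F, f1, f2, f3⟩ := hg.cyc hl
    have f4 : ∀ e ∈ F, e ∈ H32.res A S ∧ (e.1 ∈ W ∧ e.2 ∈ W) ∧ e.1 ∈ T ∧ e.2 ∈ T := by
      intro e he
      have := f3 he
      simp only [H32.res, mem_filter, mem_inter] at this ⊢
      tauto
    refine (hc F f1 f2 fun e he => (f4 e he).1).trans ?_
    have e2 : ∑ e ∈ F, w e = ∑ e ∈ F, (w e + q e.2 - q e.1) := by
      rw [sum_sub_distrib, sum_add_distrib, sum_head, sum_tail]
      simp only [f2 _]; ring
    rw [e2]
    refine le_trans (le_of_eq (sum_congr rfl fun e he => ?_))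
      (sum_le_sum_of_subset_of_nonneg (subset_univ F) fun e _ _ => n0 e)
    obtain ⟨a, b, c⟩ := f4 e he
    simp [hσ, ins, a, b, c, insert_subset_iff]
  · exact sum_nonneg fun e _ => n0 e

lemma bonus_far {A : Finset (V × V)} (hl : Loopless A) {β : ℝ} (h0 : 0 < β) (h1 : β ≤ 1)
    (Z : Finset V) {W : V → Finset V} (hW : (∀ z, ∀ u ∈ W z, u ≠ z ∧ (u, z) ∉ A) ∨
      ∀ z, ∀ u ∈ W z, u ≠ z ∧ (z, u) ∉ A) :
    Bonus A fun S => (∑ z ∈ Z, ins {z} S * pg A β (W z ∩ S)) / β ^ 2 / 2 := by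
  refine ⟨fun S => div_nonneg (div_nonneg (sum_nonneg fun z _ => mul_nonneg
    (by unfold ins; split_ifs <;> norm_num) (pg_nonneg A h0.le h1 _)) (by positivity))
    zero_le_two, fun S w hw hc => ?_⟩
  obtain ⟨p, h⟩ := exists_pot2 hw hc
  replace hc := fun F => h.cover (F := F)
  have hi : Ins (H32.res A S) S := ins_res A S
  have key : ∀ (q : V → V → ℝ) (c : V → V → V → Prop) [∀ u v z, Decidable (c u v z)],
      (∀ z u v, (u, v) ∈ H32.res A S → q z u ≤ w (u, v) + q z v) →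
      (∀ z u v, u ∈ W z → v ∈ W z → c u v z) →
      (∑ z ∈ Z, ins {z} S * pg A β (W z ∩ S)) / β ^ 2 ≤
      ∑ u, ∑ v, ∑ z, if (u, v) ∈ H32.res A S ∧ z ∈ S ∧ c u v z then w (u, v) + q z v - q z u
        else 0 := by
    intro q c _ hq hcW
    have n0 : ∀ u v z, 0 ≤ if (u, v) ∈ H32.res A S ∧ z ∈ S ∧ c u v z then w (u, v) + q z v - q z u
        else 0 := by
      intro u v z; split_ifs with h'
      · linarith [hq z u v h'.1]
      · exact le_rfl
    rw [sum_congr rfl fun u _ => sum_comm, sum_comm, div_le_iff₀' (by positivity), mul_sum]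
    refine le_trans (sum_le_sum fun z _ => ?_) (sum_le_sum_of_subset_of_nonneg (subset_univ Z)
      fun z _ _ => mul_nonneg (by positivity) (sum_nonneg fun u _ => sum_nonneg fun v _ =>
        n0 u v z))
    unfold ins
    split_ifs with hz
    · rw [one_mul]
      refine (pg_le hl h0.le h1 hc (hq z)).trans (mul_le_mul_of_nonneg_left
        (sum_le_sum fun u _ => sum_le_sum fun v _ => ?_) (by positivity))
      split_ifs with a b
      · exact le_rfl
      · exact absurd ⟨a.1, singleton_subset_iff.1 hz, hcW z u v a.2.1 a.2.2⟩ b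
      · rename_i b; linarith [hq z u v b.1]
      · exact le_rfl
    · rw [zero_mul]
      exact mul_nonneg (by positivity) (sum_nonneg fun u _ => sum_nonneg fun v _ => n0 u v z)
  have h2 := master hi (Loopless.res hl S) h
  have h2' := master_rv hi (Loopless.res hl S) h
  obtain ⟨x1, x2⟩ := extra_nonneg h
  have y1 : 0 ≤ ∑ u, ∑ v, ∑ z, if (u, v) ∈ H32.res A S ∧ z ∈ S ∧ z ≠ u ∧ (u, z) ∉ H32.res A S then
      w (u, v) + p z v - p z u else 0 := by
    refine sum_nonneg fun u _ => sum_nonneg fun v _ => sum_nonneg fun z _ => ?_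
    split_ifs with hc
    · linarith only [h.fwd z u v hc.1]
    · exact le_rfl
  have y2 : 0 ≤ ∑ u, ∑ v, ∑ z, if (u, v) ∈ H32.res A S ∧ z ∈ S ∧ z ≠ v ∧ (z, v) ∉ H32.res A S then
      w (u, v) + p u z - p v z else 0 := by
    refine sum_nonneg fun u _ => sum_nonneg fun v _ => sum_nonneg fun z _ => ?_
    split_ifs with hc
    · linarith only [h.bwd z u v hc.1]
    · exact le_rfl
  rcases hW with hW | hW
  · have h3 := key p (fun u v z => z ≠ u ∧ (u, z) ∉ H32.res A S) h.fwd fun z u v a _ =>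
      ⟨(hW z u a).1.symm, fun hh => (hW z u a).2 (mem_filter.1 hh).1⟩
    linarith
  · have h3 := key (fun z u => -p u z) (fun u v z => z ≠ v ∧ (z, v) ∉ H32.res A S)
      (fun z u v a => by linarith only [h.bwd z u v a]) fun z u v _ a =>
      ⟨(hW z v a).1.symm, fun hh => (hW z v a).2 (mem_filter.1 hh).1⟩
    have e : ∀ u v z, w (u, v) + -p v z - -p u z = w (u, v) + p u z - p v z := by
      intros; ring
    simp only [e] at h3
    linarith

lemma gf (ρ c : ℝ) {I N : Finset V} (hd : Disjoint I N) :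
    ∑ S, mu (fun _ : V => ρ) S * (ins I S * c ^ (N ∩ S).card) =
      ρ ^ I.card * (1 - ρ + ρ * c) ^ N.card := by
  have h := prod_add (fun i => ρ * if i ∈ N then c else 1) (fun i => if i ∈ I then 0 else 1 - ρ)
    (univ : Finset V)
  rw [powerset_univ] at h
  have e1 : ∏ i, ((ρ * if i ∈ N then c else 1) + if i ∈ I then 0 else 1 - ρ) =
      ρ ^ I.card * (1 - ρ + ρ * c) ^ N.card := by
    rw [← prod_const, ← prod_const, ← univ_inter I, ← univ_inter N, ← prod_ite_mem,
      ← prod_ite_mem, ← prod_mul_distrib]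
    simp only [univ_inter]
    apply prod_congr rfl
    intro i _
    by_cases h1 : i ∈ I
    · have h2 : i ∉ N := disjoint_left.1 hd h1
      simp [h1, h2]
    · by_cases h2 : i ∈ N <;> simp [h1, h2]
      ring
  rw [← e1, h]
  apply sum_congr rfl
  intro X _
  unfold ins
  split_ifs with hc
  · rw [one_mul, mu, prod_mul_distrib, prod_ite_mem, prod_const c, inter_comm X N,
      prod_congr rfl (s₂ := univ \ X) (f := fun i => if i ∈ I then 0 else 1 - ρ)
        (g := fun _ => 1 - ρ) fun i hi => if_neg fun h => (mem_sdiff.1 hi).2 (hc h)]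
    ring
  · obtain ⟨i, hi, hi'⟩ := not_subset.1 hc
    rw [prod_eq_zero (s := univ \ X) (i := i) (by simp only [mem_sdiff, mem_univ, hi', not_false_eq_true, and_self]) (by simp [hi])]
    ring

lemma pg_le_one (A : Finset (V × V)) {β : ℝ} (h0 : 0 ≤ β) (h1 : β ≤ 1) (U : Finset V) :
    pg A β U ≤ 1 := by
  rw [← sum_mu (fun _ : V => β)]
  refine sum_le_sum fun T _ => mul_le_of_le_one_right (mu_nonneg (fun _ => h0) (fun _ => h1) T) ?_
  split_ifs <;> norm_num

lemma pg_ge {A : Finset (V × V)} (hl : Loopless A) {β : ℝ} (h0 : 0 ≤ β) (h1 : β ≤ 1)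
    (W S : Finset V) : 1 - pg A β (W ∩ S) ≤ (1 - β) ^ (W ∩ S).card +
      ∑ v ∈ W, ins {v} S * (β * (1 - β) ^ (nb A v ∩ W ∩ S).card) := by
  classical
  have a1 := sum_mu_out (fun _ : V => β) (W ∩ S)
  have a2 : ∀ v, β * (1 - β) ^ (nb A v ∩ W ∩ S).card = ∑ T, mu (fun _ : V => β) T *
      if {v} ⊆ T ∧ Disjoint T (nb A v ∩ W ∩ S) then 1 else 0 := by
    intro v
    rw [sum_mu_gen, prod_const, prod_const, card_singleton, pow_one]
    rw [disjoint_singleton_left]
    exact fun h => hl _ (mem_nb.1 (mem_inter.1 (mem_inter.1 h).1).1) rfl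
  rw [prod_const] at a1
  simp only [a2, ← a1, mul_sum]
  rw [sum_comm, ← sum_add_distrib, sub_le_iff_le_add, pg, ← sum_add_distrib]
  nth_rewrite 1 [← sum_mu (fun _ : V => β)]
  apply sum_le_sum; intro T _
  simp only [mul_left_comm _ (mu (fun _ : V => β) T), ← mul_sum, ← mul_add]
  apply le_mul_of_one_le_right (mu_nonneg (fun _ => h0) (fun _ => h1) T)
  have n0 : ∀ v, 0 ≤ ins {v} S * if {v} ⊆ T ∧ Disjoint T (nb A v ∩ W ∩ S) then (1 : ℝ) else 0 := by
    intro v; unfold ins; split_ifs <;> norm_num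
  have n1 := sum_nonneg (s := W) fun v _ => n0 v
  by_cases hg : Gd A (W ∩ S ∩ T)
  · rw [if_pos hg]; split_ifs <;> linarith
  rw [if_neg hg]
  by_cases hd : Disjoint T (W ∩ S)
  · rw [if_pos hd]; linarith
  rw [if_neg hd]
  unfold Gd at hg
  push Not at hg
  obtain ⟨x, x1, x2⟩ := not_disjoint_iff.1 hd
  obtain ⟨v, hv, hv'⟩ := hg ⟨x, mem_inter.2 ⟨x2, x1⟩⟩
  simp only [mem_inter] at hv hv'
  have := single_le_sum (fun v _ => n0 v) hv.1.1
  rw [if_pos ⟨singleton_subset_iff.2 hv.2, disjoint_left.2 fun y y1 y2 => by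
    simp only [mem_inter, mem_nb] at y2
    exact hv' y ⟨⟨y2.1.2, y2.2⟩, y1⟩ y2.1.1⟩, ins, if_pos (singleton_subset_iff.2 hv.1.2)] at this
  linarith

/-- a set of minimum out-degree at least `d` -/
def Core (A : Finset (V × V)) (d : ℝ) (W : Finset V) : Prop :=
  W.Nonempty ∧ ∀ v ∈ W, d ≤ (nb A v ∩ W).card

lemma exp_far1 {A : Finset (V × V)} (hl : Loopless A) {s δ : ℝ} (hδ : 0 < δ) (hδ1 : δ ≤ 1)
    (hs : 32 / δ ^ 2 ≤ s) (hsn : s ≤ Fintype.card V) {W : Finset V} {z : V} (hz : z ∉ W)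
    (hW : Core A (δ * Fintype.card V) W) :
    1 / (2 * (Fintype.card V : ℝ)) ≤ ∑ S, mu (fun _ : V => s / Fintype.card V) S *
      (ins {z} S * pg A (32 / δ ^ 2 / s) (W ∩ S) * tg s S) := by
  set n : ℝ := (Fintype.card V : ℝ) with hn
  set a := 32 / δ ^ 2 with ha
  have a32 : 32 ≤ a := by rw [ha, le_div_iff₀ (by positivity)]; nlinarith only [hδ, hδ1]
  have s0 : 0 < s := by linarith only [hs, a32]
  have n0 : 0 < n := by linarith
  set ρ := s / n with hρ
  set β := a / s with hβ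
  have ρ0 : 0 < ρ := by positivity
  have ρ1 : ρ ≤ 1 := by rw [hρ, div_le_one n0]; exact hsn
  have β0 : 0 < β := by rw [hβ]; exact div_pos (by linarith only [a32]) s0
  have β1 : β ≤ 1 := by rw [hβ, div_le_one s0]; exact hs
  have m0 : ∀ S, 0 ≤ mu (fun _ : V => ρ) S := mu_nonneg (fun _ => ρ0.le) (fun _ => ρ1)
  have hq : ∀ m : ℕ, δ * n ≤ m → (1 - ρ + ρ * (1 - β)) ^ m ≤ 1 / (16 * a) := by
    intro m hm
    have e : 1 - ρ + ρ * (1 - β) = 1 - a / n := by rw [hρ, hβ]; field_simp; ring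
    have b0 : 0 ≤ 1 - a / n := by rw [sub_nonneg, div_le_one n0]; linarith only [hsn, hs]
    have b1 : (1 - a / n) ^ m ≤ Real.exp (-(a / n)) ^ m :=
      pow_le_pow_left₀ b0 (by linarith only [Real.add_one_le_exp (-(a / n))]) m
    rw [← Real.exp_nat_mul] at b1
    have b2 : δ * a ≤ m * (a / n) := by
      rw [← mul_div_assoc (m : ℝ), le_div_iff₀ n0]
      linarith only [mul_le_mul_of_nonneg_right hm (show 0 ≤ a by linarith only [a32])]
    have b3 := Real.quadratic_le_exp_of_nonneg (x := δ * a) (by positivity)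
    have b4 : (δ * a) ^ 2 / 2 = 16 * a := by rw [ha]; field_simp; norm_num
    have b5 : 0 ≤ δ * a := by positivity
    rw [e]
    refine b1.trans ((Real.exp_le_exp.2 (show _ ≤ -(δ * a) by linarith only [b2])).trans ?_)
    rw [Real.exp_neg, ← one_div]
    exact one_div_le_one_div_of_le (by linarith only [a32]) (by linarith only [b3, b4, b5])
  have p1 : ∀ S, ins {z} S * (2 / s) - (∑ x, ins ({z} ∪ {x}) S) / s ^ 2 - 2 / s *
      (ins {z} S * (1 - β) ^ (W ∩ S).card +
        ∑ v ∈ W, β * (ins ({z} ∪ {v}) S * (1 - β) ^ (nb A v ∩ W ∩ S).card)) ≤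
      ins {z} S * pg A β (W ∩ S) * tg s S := by
    intro S
    simp only [← ins_mul, ← mul_sum, ← card_eq_ins]
    by_cases h : {z} ⊆ S
    · have c1 := pg_ge hl β0.le β1 W S
      have c2 := pg_le_one A β0.le β1 (W ∩ S)
      have c3 : 0 ≤ (S.card : ℝ) / s ^ 2 := by positivity
      have c4 : 0 < 2 / s := by positivity
      simp only [mul_left_comm _ β, ← mul_sum] at c1
      simp only [ins, if_pos h, one_mul, tg] at c1 ⊢
      linarith only [mul_le_mul_of_nonneg_left c1 c4.le, mul_nonneg c3 (sub_nonneg.2 c2)]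
    · simp [ins, h]
  refine le_trans ?_ (sum_le_sum fun S _ => mul_le_mul_of_nonneg_left (p1 S) (m0 S))
  have e1 : ∑ S, mu (fun _ : V => ρ) S * (ins {z} S * (2 / s) - (∑ x, ins ({z} ∪ {x}) S) / s ^ 2 -
      2 / s * (ins {z} S * (1 - β) ^ (W ∩ S).card +
        ∑ v ∈ W, β * (ins ({z} ∪ {v}) S * (1 - β) ^ (nb A v ∩ W ∩ S).card))) =
      (∑ S, mu (fun _ : V => ρ) S * ins {z} S) * (2 / s) -
      (∑ x, ∑ S, mu (fun _ : V => ρ) S * ins ({z} ∪ {x}) S) / s ^ 2 -
      2 / s * (∑ S, mu (fun _ : V => ρ) S * (ins {z} S * (1 - β) ^ (W ∩ S).card) +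
        ∑ v ∈ W, β * ∑ S, mu (fun _ : V => ρ) S *
          (ins ({z} ∪ {v}) S * (1 - β) ^ (nb A v ∩ W ∩ S).card)) := by
    simp only [mul_sum (s := (univ : Finset (Finset V)))]
    rw [sum_comm (s := W), sum_comm (s := (univ : Finset V)), sum_mul, sum_div,
      ← sum_add_distrib, mul_sum, ← sum_sub_distrib, ← sum_sub_distrib]
    apply sum_congr rfl; intro S _
    simp only [mul_left_comm β, ← mul_sum]
    ring
  rw [e1, exp_ins, gf ρ (1 - β) (disjoint_singleton_left.2 hz), card_singleton, pow_one]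
  have e2 : ∑ x, ∑ S, mu (fun _ : V => ρ) S * ins ({z} ∪ {x}) S ≤ ρ + n * ρ ^ 2 := by
    have : ∀ x, ∑ S, mu (fun _ : V => ρ) S * ins ({z} ∪ {x}) S ≤
        (if z = x then ρ else 0) + ρ ^ 2 := by
      intro x
      rw [exp_ins]
      split_ifs with h
      · subst h; simp only [union_idempotent, card_singleton, pow_one, le_add_iff_nonneg_right]; positivity
      · rw [← insert_eq, card_pair h, zero_add]
    refine (sum_le_sum fun x _ => this x).trans (le_of_eq ?_)
    rw [sum_add_distrib, sum_ite_eq, if_pos (mem_univ _), sum_const, card_univ, nsmul_eq_mul]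
  have e3 : ∑ v ∈ W, β * ∑ S, mu (fun _ : V => ρ) S *
      (ins ({z} ∪ {v}) S * (1 - β) ^ (nb A v ∩ W ∩ S).card) ≤
      n * (β * (ρ ^ 2 * (1 / (16 * a)))) := by
    have : ∀ v ∈ W, β * ∑ S, mu (fun _ : V => ρ) S *
        (ins ({z} ∪ {v}) S * (1 - β) ^ (nb A v ∩ W ∩ S).card) ≤ β * (ρ ^ 2 * (1 / (16 * a))) := by
      intro v hv
      have hzv : z ≠ v := by rintro rfl; exact hz hv
      rw [gf ρ (1 - β) (by
        rw [disjoint_union_left, disjoint_singleton_left, disjoint_singleton_left]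
        exact ⟨fun h => hz (mem_inter.1 h).2, fun h => hl _ (mem_nb.1 (mem_inter.1 h).1) rfl⟩),
        ← insert_eq, card_pair hzv]
      have := hq _ (hW.2 v hv)
      gcongr
    refine (sum_le_card_nsmul _ _ _ this).trans ?_
    rw [nsmul_eq_mul]
    gcongr
    rw [hn]; exact_mod_cast card_le_univ W
  have e4 : (1 - ρ + ρ * (1 - β)) ^ W.card ≤ 1 / (16 * a) := by
    obtain ⟨v, hv⟩ := hW.1
    exact hq _ ((hW.2 v hv).trans (by exact_mod_cast card_le_card inter_subset_right))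
  have e5 : n * (β * (ρ ^ 2 * (1 / (16 * a)))) = ρ / 16 := by
    rw [hβ, hρ]; field_simp
  have e6 : ρ * (1 - ρ + ρ * (1 - β)) ^ W.card ≤ ρ / 16 := by
    have : 1 / (16 * a) ≤ 1 / 16 := one_div_le_one_div_of_le (by norm_num) (by linarith only [a32])
    linarith only [mul_le_mul_of_nonneg_left (e4.trans this) ρ0.le]
  have e7 : (ρ + n * ρ ^ 2) / s ^ 2 ≤ 5 / 4 * (1 / n) := by
    have : (ρ + n * ρ ^ 2) / s ^ 2 = (1 + 1 / s) * (1 / n) := by rw [hρ]; field_simp; ring
    have : 1 / s ≤ 1 / 4 := one_div_le_one_div_of_le (by norm_num) (by linarith only [hs, a32])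
    rw [‹(ρ + n * ρ ^ 2) / s ^ 2 = _›]
    gcongr
    linarith only [this]
  have e8 := div_le_div_of_nonneg_right e2 (sq_nonneg s)
  have e9 : ρ * (2 / s) = 2 * (1 / n) := by rw [hρ]; field_simp
  have e10 : 2 / s * (ρ / 16 + ρ / 16) = 1 / 4 * (1 / n) := by rw [hρ]; field_simp; ring
  have e11 := mul_le_mul_of_nonneg_left (add_le_add e6 (e3.trans e5.le))
    (show 0 ≤ 2 / s by positivity)
  have e12 : 1 / (2 * n) = 1 / 2 * (1 / n) := by field_simp
  linarith only [e7, e8, e9, e11, e12]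

lemma exp_far {A : Finset (V × V)} (hl : Loopless A) {s δ : ℝ} (hδ : 0 < δ) (hδ1 : δ ≤ 1)
    (hs : 32 / δ ^ 2 ≤ s) (hsn : s ≤ Fintype.card V) {Z : Finset V} {W : V → Finset V}
    (hW : ∀ z ∈ Z, z ∉ W z ∧ Core A (δ * Fintype.card V) (W z)) :
    (s / Fintype.card V) ^ 2 * (Z.card * Fintype.card V * δ ^ 4 / 4096) ≤
      ∑ S, mu (fun _ : V => s / Fintype.card V) S *
      ((∑ z ∈ Z, ins {z} S * pg A (32 / δ ^ 2 / s) (W z ∩ S)) / (32 / δ ^ 2 / s) ^ 2 / 2 *
        tg s S) := by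
  have s0 : 0 < s := lt_of_lt_of_le (by positivity) hs
  have n0 : (0 : ℝ) < Fintype.card V := by linarith
  have h := card_nsmul_le_sum _ _ _ fun z hz => exp_far1 hl hδ hδ1 hs hsn (hW z hz).1 (hW z hz).2
  rw [sum_comm, nsmul_eq_mul] at h
  have h2 := div_le_div_of_nonneg_right h (show 0 ≤ (32 / δ ^ 2 / s) ^ 2 * 2 by positivity)
  refine le_trans (le_of_eq ?_) (h2.trans (le_of_eq ?_))
  · field_simp; ring
  · rw [sum_div]
    apply sum_congr rfl; intro S _
    rw [← mul_sum, ← sum_mul]; field_simp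

lemma glue (S : Finset V) (r1 r2 : V → ℕ) : ∃ r : V → ℕ, ∀ a b, r b ≤ r a →
    (a ∈ S ∧ b ∈ S ∧ r1 b ≤ r1 a) ∨ (a ∉ S ∧ b ∉ S ∧ r2 b ≤ r2 a) ∨ (a ∉ S ∧ b ∈ S) := by
  refine ⟨fun v => if v ∈ S then r1 v else univ.sup r1 + 1 + r2 v, fun a b h => ?_⟩
  have := le_sup (f := r1) (mem_univ a)
  by_cases ha : a ∈ S <;> by_cases hb : b ∈ S <;> simp only [ha, hb, if_true, if_false] at h
  · exact Or.inl ⟨ha, hb, h⟩
  · omega
  · exact Or.inr (Or.inr ⟨ha, hb⟩)
  · exact Or.inr (Or.inl ⟨ha, hb, by omega⟩)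

/-- back arcs inside `R` -/
def bk (A : Finset (V × V)) (R : Finset V) (r : V → ℕ) : Finset (V × V) :=
  A.filter fun e => e.1 ∈ R ∧ e.2 ∈ R ∧ r e.2 ≤ r e.1

lemma core (A : Finset (V × V)) (d : ℝ) (R : Finset V) :
    (∃ W ⊆ R, Core A d W) ∨ ∃ r, ((bk A R r).card : ℝ) ≤ d * R.card := by
  induction R using Finset.strongInduction with
  | H R ih =>
    rcases R.eq_empty_or_nonempty with rfl | hR
    · exact Or.inr ⟨0, by simp [bk]⟩
    by_cases h : ∀ v ∈ R, d ≤ (nb A v ∩ R).card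
    · exact Or.inl ⟨R, subset_rfl, hR, h⟩
    push Not at h
    obtain ⟨v, hv, hd⟩ := h
    rcases ih _ (erase_ssubset hv) with ⟨W, h1, h2⟩ | ⟨r1, h1⟩
    · exact Or.inl ⟨W, h1.trans (erase_subset _ _), h2⟩
    obtain ⟨r, hr⟩ := glue (R.erase v) r1 0
    refine Or.inr ⟨r, ?_⟩
    have hs : bk A R r ⊆ bk A (R.erase v) r1 ∪ (nb A v ∩ R).image fun x => (v, x) := by
      rintro ⟨a, b⟩ he
      obtain ⟨e1, e2, e3, e4⟩ := mem_filter.1 he
      have key : a ∉ R.erase v → (a, b) ∈ (nb A v ∩ R).image fun x => (v, x) := by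
        intro ha
        obtain rfl : a = v := by by_contra hc; exact ha (mem_erase.2 ⟨hc, e2⟩)
        exact mem_image.2 ⟨b, mem_inter.2 ⟨mem_nb.2 e1, e3⟩, rfl⟩
      rcases hr a b e4 with h | h | h
      · exact mem_union_left _ (mem_filter.2 ⟨e1, h⟩)
      · exact mem_union_right _ (key h.1)
      · exact mem_union_right _ (key h.1)
    have c1 := (card_le_card hs).trans ((card_union_le _ _).trans
      (Nat.add_le_add_left card_image_le _))
    have c2 : ((bk A R r).card : ℝ) ≤ (bk A (R.erase v) r1).card + (nb A v ∩ R).card := by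
      exact_mod_cast c1
    have c3 : ((R.erase v).card : ℝ) + 1 = R.card := by exact_mod_cast card_erase_add_one hv
    rw [← c3]; linarith only [hd, h1, c2]

lemma order {A : Finset (V × V)} {k : ℕ} (hk : ∀ v, od A v ≤ k ∧ idg A v ≤ k)
    (z : V) (r1 r2 : V → ℕ) : ∃ r, ((bk A univ r).card : ℝ) ≤ CC k + (bk A (nb A z) r1).card +
      (bk A (univ.filter fun u => u ≠ z ∧ (z, u) ∉ A) r2).card +
      (∑ v, ∑ x, if Op A z v x then (1 : ℝ) else 0) / 2 := by
  set Y := nb A z with hY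
  set R := univ.filter fun u => u ≠ z ∧ (z, u) ∉ A with hR
  obtain ⟨r3, h3⟩ := glue R r2 0
  obtain ⟨r, hr⟩ := glue Y r1 r3
  refine ⟨r, ?_⟩
  set I := A.filter fun e => e.1 ∉ Y ∧ e.2 ∈ Y with hI
  have hs : bk A univ r ⊆ bk A Y r1 ∪ bk A R r2 ∪ I := by
    rintro ⟨a, b⟩ he
    obtain ⟨e1, -, -, e4⟩ := mem_filter.1 he
    rcases hr a b e4 with h | h | h
    · exact mem_union_left _ (mem_union_left _ (mem_filter.2 ⟨e1, h⟩))
    · have hz : a ∉ R → False := by
        intro ha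
        obtain rfl : a = z := by
          by_contra hc; exact ha (mem_filter.2 ⟨mem_univ _, hc, fun hh => h.1 (mem_nb.2 hh)⟩)
        exact h.2.1 (mem_nb.2 e1)
      rcases h3 a b h.2.2 with h' | h' | h'
      · exact mem_union_left _ (mem_union_right _ (mem_filter.2 ⟨e1, h'⟩))
      · exact (hz h'.1).elim
      · exact (hz h'.1).elim
    · exact mem_union_right _ (mem_filter.2 ⟨e1, h⟩)
  have c1 := (card_le_card hs).trans ((card_union_le _ _).trans
    (Nat.add_le_add_right (card_union_le _ _) _))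
  have c2 : ((bk A univ r).card : ℝ) ≤ (bk A Y r1).card + (bk A R r2).card + I.card := by
    exact_mod_cast c1
  have c3 : (I.card : ℝ) = ∑ a, ∑ b, if (a, b) ∈ A ∧ a ∉ Y ∧ b ∈ Y then (1 : ℝ) else 0 := by
    rw [← Fintype.sum_prod_type' (f := fun a b => if (a, b) ∈ A ∧ a ∉ Y ∧ b ∈ Y then (1 : ℝ)
      else 0), sum_boole]
    congr 2; ext e; simp only [hI, mem_filter, Prod.mk.eta, mem_univ, true_and]
  have y1 : (Y.card : ℝ) = ∑ a, if a ∈ Y then (1 : ℝ) else 0 := by simp only [sum_ite_mem, univ_inter, sum_const, nsmul_eq_mul, mul_one]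
  have y2 : (Y.card : ℝ) ≤ k := by rw [hY, card_nb]; exact_mod_cast (hk z).1
  set j : V → V → ℝ := fun a b => if (a, b) ∈ A ∧ a ∈ Y ∧ b ∈ Y then 1 else 0 with hj
  have c4 : (I.card : ℝ) + ∑ a, ∑ b, j a b ≤ Y.card * k := by
    rw [c3, ← sum_add_distrib, y1, sum_mul]
    simp only [← sum_add_distrib]
    rw [sum_comm]
    apply sum_le_sum; intro b _
    by_cases hb : b ∈ Y
    · have : (idg A b : ℝ) ≤ k := by exact_mod_cast (hk b).2
      rw [if_pos hb, one_mul]
      refine le_trans (sum_le_sum fun a _ => ?_) ((idg_eq_sum A b).symm.le.trans this)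
      by_cases h1 : (a, b) ∈ A <;> by_cases h2 : a ∈ Y <;> simp [hj, h1, h2, hb]
    · simp only [hb, and_false, ↓ reduceIte, hj, add_zero, sum_const_zero, zero_mul, Std.le_refl]
  have c5 : (Y.card : ℝ) * Y.card ≤ Y.card + ∑ a, ∑ b, j a b + ∑ a, ∑ b, j a b +
      ∑ v, ∑ x, if Op A z v x then (1 : ℝ) else 0 := by
    nth_rewrite 2 [sum_comm (f := j)]
    rw [y1, sum_mul_sum, ← sum_add_distrib, ← sum_add_distrib, ← sum_add_distrib]
    apply sum_le_sum; intro a _
    have : (if a ∈ Y then (1 : ℝ) else 0) = ∑ b, if a = b then (if a ∈ Y then (1 : ℝ) else 0)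
      else 0 := by simp only [sum_ite_eq, mem_univ, ↓ reduceIte]
    nth_rewrite 2 [this]
    rw [← sum_add_distrib, ← sum_add_distrib, ← sum_add_distrib]
    apply sum_le_sum; intro b _
    simp only [hj, Op, hY, mem_nb]
    by_cases h1 : (z, a) ∈ A <;> by_cases h2 : (z, b) ∈ A <;> by_cases h3 : (a, b) ∈ A <;>
      by_cases h4 : (b, a) ∈ A <;> by_cases h5 : a = b <;> simp [h1, h2, h3, h4, h5] <;>
      split_ifs <;> norm_num
  unfold CC
  linarith only [sq_nonneg ((k : ℝ) - Y.card), c2, y2, c4, c5]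

theorem stab {δ : ℝ} (hδ : 0 < δ) (hδ1 : δ ≤ 1) {η : ℝ} (hη : 0 < η) : ∃ n0 : ℕ,
    ∀ (V : Type) [DecidableEq V] [Fintype V] (A : Finset (V × V)) (k : ℕ), n0 ≤ Fintype.card V →
    Loopless A → Bl A → (∀ e ∈ A, e.swap ∉ A) → (∀ v, od A v ≤ k) →
    ∃ t : ℕ, Pk t A ∧ ch A / (2 * Fintype.card V) - η * (Fintype.card V : ℝ) ^ 2 ≤ t ∧
      ((∃ r, ((bk A univ r).card : ℝ) ≤ CC k + 2 * δ * (Fintype.card V : ℝ) ^ 2) ∨
      ch A / (2 * Fintype.card V) + (δ ^ 4 / 12288 - η) * (Fintype.card V : ℝ) ^ 2 ≤ t) := by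
  obtain ⟨s0, -, H⟩ := gen_round hη
  set s := max s0 (32 / δ ^ 2) with hs
  have sδ : 32 / δ ^ 2 ≤ s := le_max_right _ _
  have s6 : 0 < s := lt_of_lt_of_le (by positivity) sδ
  obtain ⟨n0, hn0, H⟩ := H s (le_max_left _ _)
  obtain ⟨n1, -, H1⟩ := D1.d1_or hη
  refine ⟨max n0 n1, fun V _ _ A k hn hl hb ho hk => ?_⟩
  classical
  have H := H V A ((le_max_left _ _).trans hn) hl hb ho
  have hsn : s ≤ Fintype.card V := hn0.trans (by exact_mod_cast (le_max_left _ _).trans hn)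
  have h1 : ∃ t : ℕ, Pk t A ∧ ch A / (2 * Fintype.card V) + (∑ u, ∑ v, ∑ z, if Op A u v z then
      (1 : ℝ) else 0) / (4 * Fintype.card V) - η * (Fintype.card V : ℝ) ^ 2 ≤ t := by
    obtain ⟨t, t1, t2⟩ := H1 V A ((le_max_right _ _).trans hn) hl ho
    have e2 : D1.imbF A = 0 := by unfold D1.imbF; simp only [hb _, sub_self, abs_zero, sum_const_zero]
    have e3 := div_le_div_of_nonneg_right (Ch_ge hb)
      (show (0 : ℝ) ≤ 4 * Fintype.card V by positivity)
    have e4 : 2 * ch A / (4 * Fintype.card V) = ch A / (2 * Fintype.card V) := by ring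
    rw [add_div, e4] at e3
    exact ⟨t, t1, by linarith only [t2, e2, e3]⟩
  have hβ : 0 < 32 / δ ^ 2 / s := by positivity
  have hβ1 : 32 / δ ^ 2 / s ≤ 1 := by rw [div_le_one (by linarith only [s6])]; exact sδ
  have h2 := fun Z W (hW : _) hW' => H _ _ (bonus_far hl hβ hβ1 Z (W := W) hW)
    (exp_far hl hδ hδ1 sδ hsn hW')
  set n : ℝ := (Fintype.card V : ℝ) with hn'
  have n0' : 0 < n := by linarith only [s6, hsn]
  set o : V → ℝ := fun z => ∑ v, ∑ x, if Op A z v x then (1 : ℝ) else 0 with ho'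
  have o0 : ∀ z, 0 ≤ o z := fun z => sum_nonneg fun _ _ => sum_nonneg fun _ _ => by
    split_ifs <;> norm_num
  have d4 : 0 < δ ^ 4 := by positivity
  have far : ∀ (R : V → Finset V), ((∀ z, ∀ u ∈ R z, u ≠ z ∧ (u, z) ∉ A) ∨
      ∀ z, ∀ u ∈ R z, u ≠ z ∧ (z, u) ∉ A) →
      n ≤ 3 * (univ.filter fun z => ∃ W ⊆ R z, Core A (δ * n) W).card →
      ∃ t : ℕ, Pk t A ∧ ch A / (2 * n) + δ ^ 4 / 12288 * n ^ 2 - η * n ^ 2 ≤ t := by
    intro R hR hc
    have : ∀ z, ∃ W ⊆ R z, (∃ W ⊆ R z, Core A (δ * n) W) → Core A (δ * n) W := by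
      intro z
      by_cases h : ∃ W ⊆ R z, Core A (δ * n) W
      · obtain ⟨W, a, b⟩ := h; exact ⟨W, a, fun _ => b⟩
      · exact ⟨∅, empty_subset _, fun h' => absurd h' h⟩
    choose W w1 w2 using this
    obtain ⟨t, t1, t2⟩ := h2 (univ.filter fun z => ∃ W ⊆ R z, Core A (δ * n) W) W
      (hR.imp (fun h z u hu => h z u (w1 z hu)) fun h z u hu => h z u (w1 z hu))
      fun z hz => ⟨fun h => hR.elim (fun g => (g z z (w1 z h)).1 rfl)
        fun g => (g z z (w1 z h)).1 rfl, w2 z (mem_filter.1 hz).2⟩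
    refine ⟨t, t1, le_trans ?_ t2⟩
    linarith only [mul_le_mul_of_nonneg_right hc (mul_pos n0' d4).le]
  have win : (∃ t : ℕ, Pk t A ∧ ch A / (2 * n) + δ ^ 4 / 12288 * n ^ 2 - η * n ^ 2 ≤ t) ∨
      ∃ r, ((bk A univ r).card : ℝ) ≤ CC k + 2 * δ * n ^ 2 := by
    set R1 : V → Finset V := fun z => nb A z with hR1
    set R2 : V → Finset V := fun z => univ.filter fun u => u ≠ z ∧ (z, u) ∉ A with hR2
    by_contra hc
    rw [not_or] at hc
    have f1 := mt (far R1 (Or.inl fun z u hu =>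
      ⟨(hl _ (mem_nb.1 hu)).symm, ho _ (mem_nb.1 hu)⟩)) hc.1
    have f2 := mt (far R2 (Or.inr fun z u hu => (mem_filter.1 hu).2)) hc.1
    set Z0 := univ.filter fun z => δ * n ^ 2 ≤ o z with hZ0
    have f0 : ¬ n ≤ 3 * Z0.card := by
      intro h
      obtain ⟨t, t1, t2⟩ := h1
      refine hc.1 ⟨t, t1, le_trans ?_ t2⟩
      have a1 := card_nsmul_le_sum Z0 o _ fun z hz => (mem_filter.1 hz).2
      have a2 : ∑ z ∈ Z0, o z ≤ ∑ z, o z :=
        sum_le_sum_of_subset_of_nonneg (subset_univ _) fun z _ _ => o0 z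
      rw [nsmul_eq_mul] at a1
      have a3 : δ ^ 4 / 12288 * n ^ 2 ≤ (∑ z, o z) / (4 * n) := by
        rw [le_div_iff₀ (by positivity)]
        have := pow_le_of_le_one hδ.le hδ1 (n := 4) (by norm_num)
        linarith only [mul_le_mul_of_nonneg_right h (mul_pos hδ (pow_pos n0' 2)).le, mul_le_mul_of_nonneg_right this (pow_pos n0' 3).le, mul_pos hδ (pow_pos n0' 3), a1, a2]
      linarith only [a3]
    have : ∃ z, z ∉ Z0 ∪ (univ.filter fun z => ∃ W ⊆ R1 z, Core A (δ * n) W) ∪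
        univ.filter fun z => ∃ W ⊆ R2 z, Core A (δ * n) W := by
      by_contra hz
      push Not at hz
      have c1 := (card_le_card (fun z _ => hz z : univ ⊆ _)).trans ((card_union_le _ _).trans
        (Nat.add_le_add_right (card_union_le _ _) _))
      rw [card_univ] at c1
      have c2 := (Nat.cast_le (α := ℝ)).2 c1
      push_cast at c2
      linarith only [f1, f2, f0, c2]
    obtain ⟨z, hz⟩ := this
    simp only [hZ0, mem_union, mem_filter, mem_univ, true_and, not_or] at hz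
    obtain ⟨r1, g1⟩ := (core A (δ * n) (R1 z)).resolve_left hz.1.2
    obtain ⟨r2, g2⟩ := (core A (δ * n) (R2 z)).resolve_left hz.2
    obtain ⟨r, g⟩ := order (fun v => ⟨hk v, hb v ▸ hk v⟩) z r1 r2
    refine hc.2 ⟨r, g.trans ?_⟩
    have g3 : ((R1 z).card : ℝ) + (R2 z).card ≤ n := by
      rw [hn']
      have : Disjoint (R1 z) (R2 z) :=
        disjoint_left.2 fun u h h' => (mem_filter.1 h').2.2 (mem_nb.1 h)
      exact_mod_cast (card_union_of_disjoint this).symm.le.trans (card_le_univ _)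
    have g4 := mul_le_mul_of_nonneg_left g3 (mul_pos hδ n0').le
    have g5 := not_le.1 hz.1.1
    have g6 := mul_pos hδ (pow_pos n0' 2)
    simp only [hR1, hR2, ho'] at g1 g2 g4 g5
    linarith only [hz, g1, g2, g4]
  rcases win with ⟨t, t1, t2⟩ | h
  · exact ⟨t, t1, by linarith only [mul_pos d4 (pow_pos n0' 2), t2], Or.inr (by linarith only [t2])⟩
  · obtain ⟨t, t1, t2⟩ := h1
    have : 0 ≤ (∑ z, o z) / (4 * n) := div_nonneg (sum_nonneg fun z _ => o0 z) (by positivity)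
    exact ⟨t, t1, by linarith only [t2, this], Or.inl h⟩

end Pool.Agent.MP_2634a8_co.X.DS

namespace Pool.Agent.MP_2634a8_co.X

open Finset H32

theorem ds : DS_s := by
  intro ε L hε
  set δ := min 1 (ε / (3 * (L + 1) ^ 2)) with hδ
  have δ0 : 0 < δ := lt_min one_pos (by positivity)
  have δ1 : δ ≤ 1 := min_le_left _ _
  have δ2 : δ * (3 * (L + 1) ^ 2) ≤ ε := by
    rw [← le_div_iff₀ (by positivity)]; exact min_le_right _ _
  set g := δ ^ 4 / 24576 with hg
  have g0 : 0 < g := by positivity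
  obtain ⟨n0, H⟩ := DS.stab δ0 δ1 g0
  obtain ⟨k1, hk1⟩ := exists_nat_gt (1 / g)
  refine ⟨max n0 k1, fun k hk V _ _ M h1 h2 hs hb ho => ?_⟩
  set A : Finset (V × V) := univ.filter fun e => M e.1 e.2 ≠ 0 with hA
  have mA : ∀ e, e ∈ A ↔ M e.1 e.2 ≠ 0 := by simp only [hA, ne_eq, mem_filter, mem_univ, true_and, implies_true]
  have eM : ∀ a b, (M a b : ℝ) = if (a, b) ∈ A then 1 else 0 := by
    intro a b
    have := hs.1 a b
    split_ifs with h
    · have := (mA _).1 h
      exact_mod_cast (show M a b = 1 by simp only at this; omega)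
    · exact_mod_cast not_not.1 (mt (mA (a, b)).2 h)
  have oA : ∀ v, (od A v : ℝ) = k := by
    intro v; rw [od_eq_sum, ← ho v, out, Nat.cast_sum]; simp only [eM]
  have bA : Bl A := by
    intro v
    have : (od A v : ℝ) = idg A v := by
      rw [oA, idg_eq_sum, ← ho v, hb v, inn, Nat.cast_sum]; simp only [eM]
    exact_mod_cast this
  set D := A.filter fun e => e.swap ∈ A with hD
  have hDA : D ⊆ A := filter_subset _ _
  have hsym : ∀ e ∈ D, e.swap ∈ D := by
    intro e he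
    obtain ⟨h1, h2⟩ := mem_filter.1 he
    exact mem_filter.2 ⟨h2, by simpa using h1⟩
  obtain ⟨t1, p1, p2⟩ := digons hsym
  have od2 : ∀ u, (od (A \ D) u : ℝ) = k - od D u := by
    intro u; rw [← oA u, ← od_sdiff hDA u]; push_cast; ring
  obtain ⟨t, q1, q2, q3⟩ := H V (A \ D) k (by omega)
    (fun e he h => (mA e).1 (mem_sdiff.1 he).1 (h ▸ hs.2 e.1)) (bA.sdiff (bl_of_symm hsym) hDA)
    (fun e he h => (mem_sdiff.1 he).2 (mem_filter.2 ⟨(mem_sdiff.1 he).1, (mem_sdiff.1 h).1⟩))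
    (fun v => by
      have : (od (A \ D) v : ℝ) ≤ k := by rw [od2]; simp only [tsub_le_iff_right, le_add_iff_nonneg_right, Nat.cast_nonneg]
      exact_mod_cast this)
  have pk : Pack (t + t1) M := by
    have := q1.union p1 sdiff_disjoint
    rw [sdiff_union_of_subset hDA] at this
    exact D1.pack_of_pk this
  set n : ℝ := (Fintype.card V : ℝ) with hn
  have n1 : 2 * (k : ℝ) + 1 ≤ n := by rw [hn]; exact_mod_cast h1
  have n2 : n ≤ L * k := by rw [hn]; exact_mod_cast h2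
  have k0 : (0 : ℝ) ≤ k := by positivity
  have n0' : 0 < n := by linarith only [n1]
  have k2 : (k : ℝ) ≤ g * n ^ 2 := by
    have : (k1 : ℝ) ≤ k := by exact_mod_cast (le_max_right _ _).trans hk
    rw [div_lt_iff₀ g0] at hk1
    have : 1 ≤ g * n := by
      linarith only [mul_le_mul_of_nonneg_left (show (k1 : ℝ) ≤ n by linarith only [n1, this]) g0.le, hk1]
    linarith only [mul_le_mul_of_nonneg_right this n0'.le, n1]
  have e3 : ∑ u, (od D u : ℝ) = D.card := by simpa only [mul_one, sum_const, nsmul_eq_mul] using (sum_tail D (fun _ => 1)).symm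
  have e4 : (D.card : ℝ) ≤ 2 * t1 := by exact_mod_cast p2
  have e5 : ∀ c : ℝ, k * (k - 1) / 2 + (c * D.card / n - c ^ 2 / 2) ≤
      DS.ch (A \ D) / (2 * n) + t1 := by
    intro c
    have : ∑ u, ((k : ℝ) * (k - 1) - c ^ 2 + (2 * c - n) * od D u) ≤ DS.ch (A \ D) := by
      apply sum_le_sum; intro u _
      have : (0 : ℝ) ≤ od D u := by positivity
      rw [od2]
      linarith only [sq_nonneg (c - od D u), mul_le_mul_of_nonneg_right n1 this]
    rw [sum_add_distrib, sum_const, card_univ, nsmul_eq_mul, ← mul_sum, e3, ← hn] at this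
    have e : k * (k - 1) / 2 + (c * D.card / n - c ^ 2 / 2) =
      (n * (k * (k - 1) - c ^ 2) + (2 * c - n) * D.card) / (2 * n) + D.card / 2 := by
      field_simp; ring
    have := div_le_div_of_nonneg_right this (show 0 ≤ 2 * n by positivity)
    linarith only [e4, e, this]
  have fin : k * (k - 1) / 2 + g * n ^ 2 ≤ t + t1 → Pack ((k + 1).choose 2) M := by
    intro h
    refine pack_le ?_ pk
    have : (((k + 1).choose 2 : ℕ) : ℝ) ≤ ((t + t1 : ℕ) : ℝ) := by
      rw [Nat.cast_choose_two]; push_cast; linarith only [k2, h]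
    exact_mod_cast this
  rcases le_total (δ * n ^ 2) D.card with hd | hd
  · refine Or.inr (fin ?_)
    have a1 := e5 (δ * n)
    have a2 : δ * n * D.card / n = δ * D.card := by field_simp
    have a3 : δ ^ 4 ≤ δ ^ 2 := pow_le_pow_of_le_one δ0.le δ1 (by norm_num)
    have a4 := mul_le_mul_of_nonneg_left hd δ0.le
    have a5 := mul_le_mul_of_nonneg_right a3 (pow_pos n0' 2).le
    have a6 := mul_pos (pow_pos δ0 2) (pow_pos n0' 2)
    rw [a2] at a1
    rw [hg] at q2 ⊢
    linarith only [q2, a1, a4, a5, a6]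
  rcases q3 with ⟨r, hr⟩ | q3
  · refine Or.inl ⟨r, ?_⟩
    have b1 : (back M r : ℝ) = (DS.bk A univ r).card := by
      unfold back DS.bk
      push_cast
      rw [← Fintype.sum_prod_type' (f := fun u v => if r v ≤ r u then (M u v : ℝ) else 0)]
      simp only [eM, ← ite_and, sum_boole]
      congr 2; ext e; simp only [Prod.mk.eta, mem_filter, mem_univ, true_and, and_comm]
    have b2 : (DS.bk A univ r).card ≤ (DS.bk (A \ D) univ r).card + D.card := by
      refine (card_le_card fun e he => ?_).trans (card_union_le _ _)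
      by_cases h : e ∈ D
      · exact mem_union_right _ h
      · exact mem_union_left _ (mem_filter.2 ⟨mem_sdiff.2 ⟨(mem_filter.1 he).1, h⟩,
          (mem_filter.1 he).2⟩)
    have b3 := (Nat.cast_le (α := ℝ)).2 b2
    push_cast at b3
    have b4 : n ^ 2 ≤ (L + 1) ^ 2 * k ^ 2 := by
      rw [← mul_pow]; gcongr; linarith only [n2]
    linarith only [mul_le_mul_of_nonneg_left b4 δ0.le, mul_le_mul_of_nonneg_right δ2 (sq_nonneg (k : ℝ)), hd, hr, b1, b3]
  · refine Or.inr (fin ?_)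
    have a1 := e5 0
    rw [hg] at q3 ⊢
    simp only [zero_mul, zero_div] at a1
    linarith only [q3, a1]

end Pool.Agent.MP_2634a8_co.X
end
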