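import Mathlib
import Pool.Agent.MP_2634a8_co.Y.Stm

attribute [-instance] Unique.instInhabited forall_prop_decidable AddQuantale.instAddLeftMono
  Nontrivial.to_nonempty IdemSemiring.toCanonicallyOrderedAdd Finset.decidableDforallFinset
  DivisionRing.toRing instNonemptyOfMonad Zero.instNonempty bot_nonempty
  Multiset.decidableDforallMultiset instInhabitedOfMonad
  Vector.instDecidableForallForallMemOfDecidablePred AddTorsor.nonempty One.instNonempty
  Array.instDecidableForallForallMemOfDecidablePred Option.decidableForallMem RKHS.instFunLike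
  Pi.addCommGroup Torsor.nonempty covariant_swap_mul_of_covariant_mul ConnectedSpace.toNonempty
  top_nonempty CategoryTheory.IsConnected.is_nonempty Int.decidableLTLE supSet_to_nonempty
  NumberField.to_charZero infSet_to_nonempty AddQuantale.instAddRightMono instIsEmptyForallOfNonempty
  DivisionSemiring.toSemiring IrreducibleSpace.toNonempty Int.decidableLTLT Int.decidableLELE
  instCoeTOfCoeDep Int.decidableLELT CompletePartialOrder.toPartialOrder
  Group.IsPerfect.subsingleton_of_isMulCommutative Quantale.instMulRightMono instCharZeroOfIsSemireal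
  LinearOrderedCommMonoidWithZero.toPosMulStrictMono IsOrderedMonoid.toMulLeftMono

section
namespace Pool.Agent.MP_2634a8_co.X

open Finset

namespace GC

section gen
variable {V : Type} [Fintype V] [DecidableEq V]

omit [DecidableEq V] in
lemma wsum_add (M N : Mat V) (f : V → V → ℕ) : wsum (M + N) f = wsum M f + wsum N f := by
  simp only [wsum, Pi.add_apply, add_mul, sum_add_distrib, Nat.add_left_cancel_iff]

lemma wsum_E (a b : V) (f : V → V → ℕ) : wsum (E a b) f = f a b := by
  unfold wsum E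
  rw [sum_eq_single a, sum_eq_single b]
  · simp
  · intro v _ hv; simp [hv]
  · simp only [mem_univ, not_true_eq_false, and_self, ↓ reduceIte, one_mul, IsEmpty.forall_iff]
  · intro u _ hu; simp only [hu, false_and, ↓ reduceIte, zero_mul, sum_const_zero]
  · simp only [mem_univ, not_true_eq_false, true_and, ite_mul, one_mul, zero_mul, sum_ite_eq', ↓ reduceIte, IsEmpty.forall_iff]

omit [DecidableEq V] in
lemma rt_refl (P : Mat V) : Rt P P :=
  ⟨fun _ _ h => h, fun _ => add_comm _ _, fun _ => le_rfl, fun _ _ => le_rfl⟩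

omit [DecidableEq V] in
lemma rt_add {P Q P' Q' : Mat V} (h : Rt P Q) (h' : Rt P' Q') : Rt (P + P') (Q + Q') := by
  refine ⟨fun N t ht => ?_, fun v => ?_, fun v => ?_, fun f hf => ?_⟩
  · have h1 := h.pack (N + Q') t (by rwa [add_right_comm, add_assoc])
    have h2 := h'.pack (N + P) t (by rwa [add_right_comm])
    rwa [add_assoc] at h2
  · have := h.bal v; have := h'.bal v; simp only [out_add, inn_add]; omega
  · have := h.out_le v; have := h'.out_le v; simp only [out_add]; omega
  · have := h.sub f hf; have := h'.sub f hf; simp only [wsum_add]; omega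

omit [DecidableEq V] in
lemma rt_trans {P Q R : Mat V} (h : Rt P Q) (h' : Rt Q R) : Rt P R :=
  ⟨fun N t ht => h.pack N t (h'.pack N t ht),
    fun v => by have := h.bal v; have := h'.bal v; omega,
    fun v => (h'.out_le v).trans (h.out_le v), fun f hf => (h'.sub f hf).trans (h.sub f hf)⟩

lemma rt_two (a u b : V) : Rt (E a u + E u b) (E a b) := by
  refine ⟨fun N t ht => pack_split a u b t N ht, fun v => ?_, fun v => ?_, fun f hf => ?_⟩
  · simp only [out_add, inn_add, out_E, inn_E]; omega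
  · simp only [out_add, out_E]; omega
  · rw [wsum_add, wsum_E, wsum_E, wsum_E]; exact hf a u b

omit [Fintype V] in
lemma E_ne {a b u v : V} (h : E a b u v ≠ 0) : u = a ∧ v = b := by
  unfold E at h
  by_contra hc
  exact h (if_neg hc)

omit [Fintype V] in
lemma E_le {a b : V} {B : Mat V} (h : B a b ≠ 0) : E a b ≤ B := by
  intro u v
  show E a b u v ≤ B u v
  unfold E
  split_ifs with h'
  · obtain ⟨rfl, rfl⟩ := h'; omega
  · omega

omit [DecidableEq V] in
lemma out_mono {M N : Mat V} (h : M ≤ N) (v : V) : out M v ≤ out N v :=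
  sum_le_sum fun u _ => h v u

omit [DecidableEq V] in
lemma inn_mono {M N : Mat V} (h : M ≤ N) (v : V) : inn M v ≤ inn N v :=
  sum_le_sum fun u _ => h u v

omit [DecidableEq V] in
lemma size_mono {M N : Mat V} (h : M ≤ N) : size M ≤ size N :=
  sum_le_sum fun v _ => out_mono h v

omit [DecidableEq V] in
lemma card_supp (g : V → ℕ) (S : Finset ℕ) (φ : ℕ → V) (hφ : Set.InjOn φ S) :
    (S.filter fun d => g (φ d) ≠ 0).card ≤ ∑ u, g u := by
  classical
  calc (S.filter fun d => g (φ d) ≠ 0).card ≤ (univ.filter fun u => g u ≠ 0).card := by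
        apply card_le_card_of_injOn φ
        · intro d hd
          simp only [coe_filter, mem_univ, true_and, Set.mem_ofPred_eq] at hd ⊢
          exact hd.2
        · exact hφ.mono fun d hd => (mem_filter.1 hd).1
    _ ≤ ∑ u, g u := by
        rw [card_filter]
        exact sum_le_sum fun u _ => by split_ifs with h <;> omega

end gen

lemma pick (a m : ℕ) (S : Finset ℕ) (h : S.card ≤ m) : ∃ d, a ≤ d ∧ d ≤ a + m ∧ d ∉ S := by
  obtain ⟨d, h1, h2⟩ := exists_mem_notMem_of_card_lt_card (s := S) (t := Icc a (a + m))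
    (by rw [Nat.card_Icc]; omega)
  exact ⟨d, (mem_Icc.1 h1).1, (mem_Icc.1 h1).2, h2⟩

section cyc
variable {n : ℕ} [NeZero n]

lemma lam_lt (u v : ZMod n) : lam u v < n := ZMod.val_lt _

lemma add_lam (u v : ZMod n) : u + (lam u v : ZMod n) = v := by
  unfold lam; simp

lemma lam_add (x : ZMod n) {p : ℕ} (hp : p < n) : lam x (x + p) = p := by
  unfold lam; rw [add_sub_cancel_left, ZMod.val_natCast, Nat.mod_eq_of_lt hp]

lemma lam_off (x : ZMod n) {p d : ℕ} (hd : d < n) :
    lam (x + (p : ZMod n)) (x + ((p + d : ℕ) : ZMod n)) = d := by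
  rw [Nat.cast_add, ← add_assoc, lam_add _ hd]

lemma eq_iff (x v : ZMod n) {p : ℕ} (hp : p < n) : v = x + p ↔ lam x v = p := by
  constructor
  · rintro rfl; exact lam_add x hp
  · intro h; rw [← h, add_lam]

/-- a path of hops from `x + p` to `x + L` with inner offsets `I` -/
structure PO (B : Mat (ZMod n)) (Ω F : Finset (ZMod n)) (w : ℕ) (x : ZMod n) (L p : ℕ)
    (P : Mat (ZMod n)) (I : Finset ℕ) : Prop where
  rt : Rt P (E (x + p) (x + L))
  len : Lam P + p = L
  arcs : ∀ a b, P a b ≠ 0 → p ≤ lam x a ∧ lam x a + lam a b ≤ L ∧ 2 * w ≤ lam a b ∧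
    lam a b ≤ 4 * w ∧ a ∉ Ω ∧ b ∉ Ω
  le : P ≤ B
  outP : ∀ v, out P v = (if v = x + p then 1 else 0) + (if lam x v ∈ I then 1 else 0)
  innP : ∀ v, inn P v = (if v = x + L then 1 else 0) + (if lam x v ∈ I then 1 else 0)
  mem : ∀ i ∈ I, p + 2 * w ≤ i ∧ i + 2 * w ≤ L ∧ x + (i : ZMod n) ∉ F
  sep : ∀ i ∈ I, ∀ j ∈ I, i < j → i + 2 * w ≤ j

variable {B : Mat (ZMod n)} {Ω F : Finset (ZMod n)} {w L : ℕ} {x : ZMod n}

lemma PO.last {p d : ℕ} (hL : L < n) (hp : p + d = L) (h1 : 2 * w ≤ d) (h2 : d ≤ 4 * w)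
    (hB : B (x + p) (x + L) ≠ 0) (ha : x + (p : ZMod n) ∉ Ω) (hb : x + (L : ZMod n) ∉ Ω) :
    PO B Ω F w x L p (E (x + p) (x + L)) ∅ := by
  have e1 : lam (x + (p : ZMod n)) (x + (L : ZMod n)) = d := by
    rw [← hp]; exact lam_off x (by omega)
  have e2 : lam x (x + (p : ZMod n)) = p := lam_add x (by omega)
  refine ⟨rt_refl _, ?_, ?_, E_le hB, fun v => ?_, fun v => ?_, by simp, by simp⟩
  · unfold Lam; rw [wsum_E, e1]; omega
  · intro a b h
    obtain ⟨rfl, rfl⟩ := E_ne h
    rw [e1, e2]
    exact ⟨le_rfl, by omega, h1, h2, ha, hb⟩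
  · simp [out_E]
  · simp [inn_E]

lemma PO.step {p d : ℕ} {P : Mat (ZMod n)} {I : Finset ℕ} (h : PO B Ω F w x L (p + d) P I)
    (hw : 0 < w) (hL : L < n) (hp : p + d + 2 * w ≤ L) (h1 : 2 * w ≤ d) (h2 : d ≤ 4 * w)
    (hB : B (x + p) (x + ((p + d : ℕ) : ZMod n)) ≠ 0) (ha : x + (p : ZMod n) ∉ Ω)
    (hb : x + ((p + d : ℕ) : ZMod n) ∉ Ω) (hF : x + ((p + d : ℕ) : ZMod n) ∉ F) :
    PO B Ω F w x L p (E (x + p) (x + ((p + d : ℕ) : ZMod n)) + P) (insert (p + d) I) := by
  have e1 : lam (x + (p : ZMod n)) (x + ((p + d : ℕ) : ZMod n)) = d := lam_off x (by omega)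
  have e2 : lam x (x + (p : ZMod n)) = p := lam_add x (by omega)
  have hI : p + d ∉ I := fun hc => by have := (h.mem _ hc).1; omega
  have key : ∀ v, (if lam x v ∈ insert (p + d) I then 1 else 0 : ℕ) =
      (if v = x + ((p + d : ℕ) : ZMod n) then 1 else 0) + (if lam x v ∈ I then 1 else 0) := by
    intro v
    simp only [eq_iff x v (show p + d < n by omega), mem_insert]
    by_cases c1 : lam x v = p + d
    · simp [c1, hI]
    · simp [c1]
  refine ⟨rt_trans (rt_add (rt_refl _) h.rt) (rt_two _ _ _), ?_, ?_, ?_, fun v => ?_, fun v => ?_,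
    ?_, ?_⟩
  · have := h.len
    unfold Lam at this ⊢
    rw [wsum_add, wsum_E, e1]; omega
  · intro a b hab
    by_cases c : P a b = 0
    · have : E (x + (p : ZMod n)) (x + ((p + d : ℕ) : ZMod n)) a b ≠ 0 := by
        simpa [c] using hab
      obtain ⟨rfl, rfl⟩ := E_ne this
      rw [e1, e2]
      exact ⟨le_rfl, by omega, h1, h2, ha, hb⟩
    · obtain ⟨q1, q2⟩ := h.arcs a b c
      exact ⟨by omega, q2⟩
  · intro a b
    show E _ _ a b + P a b ≤ B a b
    by_cases c : E (x + (p : ZMod n)) (x + ((p + d : ℕ) : ZMod n)) a b = 0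
    · rw [c, zero_add]; exact h.le a b
    · have c0 : P a b = 0 := by
        by_contra c'
        have := (h.arcs a b c').1
        rw [(E_ne c).1, e2] at this
        omega
      rw [c0, add_zero]; exact E_le hB a b
  · rw [out_add, out_E, h.outP, key]
  · rw [inn_add, inn_E, h.innP, key]; omega
  · intro i hi
    rcases mem_insert.1 hi with rfl | hi
    · exact ⟨by omega, hp, hF⟩
    · obtain ⟨q1, q2⟩ := h.mem i hi
      exact ⟨by omega, q2⟩
  · intro i hi j hj hij
    rcases mem_insert.1 hi with rfl | hi <;> rcases mem_insert.1 hj with rfl | hj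
    · omega
    · exact (h.mem j hj).1
    · have := (h.mem i hi).1; omega
    · exact h.sep i hi j hj hij

lemma path (hw : 10 ≤ w) (hL : L < n) (hy : x + (L : ZMod n) ∉ Ω)
    (hout : ∀ p : ℕ, x + (p : ZMod n) ∉ Ω → 10 * ((Icc (2 * w) (4 * w)).filter fun d =>
      p + d ≤ L ∧ (B (x + p) (x + ((p + d : ℕ) : ZMod n)) = 0 ∨ x + ((p + d : ℕ) : ZMod n) ∈ Ω ∨
        x + ((p + d : ℕ) : ZMod n) ∈ F)).card ≤ 4 * w + 9)
    (hin : 10 * ((Icc (2 * w) (4 * w)).filter fun e =>
      e ≤ L ∧ B (x + ((L - e : ℕ) : ZMod n)) (x + L) = 0).card ≤ 3 * w + 9) :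
    ∀ (l p : ℕ), p + l = L → x + (p : ZMod n) ∉ Ω → (5 * w ≤ l ∧ l ≤ 7 * w ∨ 8 * w ≤ l) →
      ∃ P I, PO B Ω F w x L p P I := by
  intro l
  induction l using Nat.strong_induction_on with
  | _ l ih =>
  intro p hp ha hl
  have ho := hout p ha
  set S1 := (Icc (2 * w) (4 * w)).filter fun d =>
      p + d ≤ L ∧ (B (x + p) (x + ((p + d : ℕ) : ZMod n)) = 0 ∨ x + ((p + d : ℕ) : ZMod n) ∈ Ω ∨
        x + ((p + d : ℕ) : ZMod n) ∈ F) with hS1
  have good : ∀ d, 2 * w ≤ d → d ≤ 4 * w → p + d ≤ L → d ∉ S1 →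
      B (x + p) (x + ((p + d : ℕ) : ZMod n)) ≠ 0 ∧ x + ((p + d : ℕ) : ZMod n) ∉ Ω ∧
        x + ((p + d : ℕ) : ZMod n) ∉ F := by
    intro d d1 d2 d3 hd
    rw [hS1, mem_filter, mem_Icc] at hd
    by_contra hc
    apply hd
    refine ⟨⟨d1, d2⟩, d3, ?_⟩
    tauto
  rcases hl with hl | hl
  · set S2 := (Icc (2 * w) (4 * w)).filter fun e =>
      e ≤ L ∧ B (x + ((L - e : ℕ) : ZMod n)) (x + L) = 0 with hS2
    have hc : (S1 ∪ S2.image fun e => l - e).card ≤ w := by
      have := card_union_le S1 (S2.image fun e => l - e)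
      have := card_image_le (s := S2) (f := fun e => l - e)
      omega
    obtain ⟨d, d1, d2, hd⟩ := pick (if l ≤ 6 * w then 2 * w else 3 * w) w _ hc
    have d3 : 2 * w ≤ d ∧ d ≤ 4 * w ∧ d + 2 * w ≤ l ∧ l ≤ d + 4 * w := by
      split_ifs at d1 d2 <;> omega
    rw [mem_union, not_or] at hd
    obtain ⟨g1, g2, g3⟩ := good d d3.1 d3.2.1 (by omega) hd.1
    have g4 : B (x + ((p + d : ℕ) : ZMod n)) (x + L) ≠ 0 := by
      intro hc
      apply hd.2
      refine mem_image.2 ⟨l - d, ?_, by omega⟩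
      rw [hS2, mem_filter, mem_Icc, show L - (l - d) = p + d by omega]
      exact ⟨⟨by omega, by omega⟩, by omega, hc⟩
    exact ⟨_, _, (PO.last (d := l - d) hL (by omega) (by omega) (by omega) g4 g2 hy).step
      (by omega) hL (by omega) d3.1 d3.2.1 g1 ha g2 g3⟩
  · obtain ⟨d, d1, d2, hd⟩ := pick
      (if l ≤ 9 * w then l - 6 * w else if 2 * l ≤ 21 * w then l - 7 * w else 2 * w) (w / 2) S1
      (by omega)
    have d3 : 2 * w ≤ d ∧ d ≤ 4 * w ∧ (d + 5 * w ≤ l ∧ l ≤ d + 7 * w ∨ d + 8 * w ≤ l) := by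
      split_ifs at d1 d2 <;> omega
    obtain ⟨g1, g2, g3⟩ := good d d3.1 d3.2.1 (by omega) hd
    obtain ⟨P, I, h⟩ := ih (l - d) (by omega) (p + d) (by omega) g2 (by omega)
    exact ⟨_, _, h.step (by omega) hL (by omega) d3.1 d3.2.1 g1 ha g2 g3⟩

lemma PO.win {P : Mat (ZMod n)} {I : Finset ℕ} (h : PO B Ω F w x L 0 P I) (hL : L < n)
    (a : ZMod n) :
    ∑ d ∈ Icc (2 * w) (4 * w), (if lam x (a + (d : ZMod n)) ∈ I then 1 else 0 : ℕ) ≤ 2 := by
  rw [← card_filter]
  set T := (Icc (2 * w) (4 * w)).filter fun d : ℕ => lam x (a + (d : ZMod n)) ∈ I with hT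
  have aux : ∀ d ∈ T, ∀ d' ∈ T, d < d' → d + 2 * w ≤ d' := by
    intro d hd d' hd' hlt
    by_contra hc
    have i1 := (mem_filter.1 hd).2
    have i2 := (mem_filter.1 hd').2
    have m1 := (h.mem _ i1).2.1
    have e : a + (d' : ZMod n) = x + ((lam x (a + (d : ZMod n)) + (d' - d) : ℕ) : ZMod n) := by
      rw [Nat.cast_add, ← add_assoc, add_lam, add_assoc, ← Nat.cast_add,
        show d + (d' - d) = d' by omega]
    rw [e, lam_add x (by omega)] at i2
    have := h.sep _ i1 _ i2 (by omega)
    omega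
  have h1 : (T.erase (4 * w)).card ≤ 1 := by
    rw [card_le_one]
    intro d hd d' hd'
    obtain ⟨n1, t1⟩ := mem_erase.1 hd
    obtain ⟨n2, t2⟩ := mem_erase.1 hd'
    have b1 := mem_Icc.1 (mem_filter.1 t1).1
    have b2 := mem_Icc.1 (mem_filter.1 t2).1
    rcases lt_trichotomy d d' with c | c | c
    · have := aux d t1 d' t2 c; omega
    · exact c
    · have := aux d' t2 d t1 c; omega
  have := pred_card_le_card_erase (s := T) (a := 4 * w)
  omega

/-- invariant of the greedy process -/
structure Inv (B Rq : Mat (ZMod n)) (Ω : Finset (ZMod n)) (w : ℕ) (R P : Mat (ZMod n))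
    (c : ZMod n → ℕ) : Prop where
  le : P ≤ B
  rt : Rt P R
  len : Lam P = Lam R
  arcs : ∀ u v, P u v ≠ 0 → (u ∉ Ω ∧ v ∉ Ω) ∧ 2 * w ≤ lam u v ∧ lam u v ≤ 4 * w ∧
    ∃ x y, Rq x y ≠ 0 ∧ lam x u + lam u v ≤ lam x y
  outP : ∀ v, out P v = out R v + c v
  innP : ∀ v, inn P v = inn R v + c v
  cle : ∀ v, 10 * c v ≤ w + 9
  win : ∀ a, ∑ d ∈ Icc (2 * w) (4 * w), c (a + (d : ZMod n)) ≤ 2 * size R

lemma full {c : ZMod n → ℕ} {s : ℕ} (hw : 0 < w) (hs : 200 * s ≤ w ^ 2) (a : ZMod n)
    (h : ∑ d ∈ Icc (2 * w) (4 * w), c (a + (d : ZMod n)) ≤ 2 * s) :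
    10 * ((Icc (2 * w) (4 * w)).filter fun d : ℕ => w ≤ 10 * c (a + (d : ZMod n))).card ≤ w := by
  set T := (Icc (2 * w) (4 * w)).filter fun d : ℕ => w ≤ 10 * c (a + (d : ZMod n)) with hT
  have h1 : T.card * w ≤ ∑ d ∈ T, 10 * c (a + (d : ZMod n)) := by
    rw [← smul_eq_mul, ← sum_const]
    exact sum_le_sum fun d hd => (mem_filter.1 hd).2
  have h2 : ∑ d ∈ T, c (a + (d : ZMod n)) ≤ 2 * s :=
    (sum_le_sum_of_subset (filter_subset _ _)).trans h
  rw [← mul_sum] at h1
  apply Nat.le_of_mul_le_mul_right _ hw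
  rw [mul_assoc, ← sq]
  omega

lemma Inv.step {Rq R P : Mat (ZMod n)} {c : ZMod n → ℕ} {ok : ZMod n → ZMod n → Bool}
    {y : ZMod n} (h : Inv B Rq Ω w R P c) (hw : 10 ≤ w)
    (h1 : ∀ v ∉ Ω, 10 * ((Icc (2 * w) (4 * w)).filter fun d : ℕ =>
      ok v (v + d) = true ∧ (B v (v + d) = 0 ∨ v + d ∈ Ω)).card ≤ w ∧
      10 * ((Icc (2 * w) (4 * w)).filter fun d : ℕ =>
      ok (v - d) v = true ∧ (B (v - d) v = 0 ∨ v - d ∈ Ω)).card ≤ w)
    (hxy : Rq x y ≠ 0) (hx : x ∉ Ω) (hy : y ∉ Ω) (hl : 8 * w ≤ lam x y)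
    (hok : ∀ u v, lam x u + lam u v ≤ lam x y → ok u v = true)
    (h3 : ∀ v, 10 * out Rq v ≤ w ∧ 10 * inn Rq v ≤ w) (h4 : 200 * size Rq ≤ w ^ 2)
    (hR : R ≤ Rq) : ∃ P' c', Inv B Rq Ω w (R + E x y) P' c' := by
  have hL := lam_lt x y
  have ey := add_lam x y
  have hs : 200 * size R ≤ w ^ 2 := by have := size_mono hR; omega
  obtain ⟨Q, I, hQ⟩ := path (B := fun a b => B a b - P a b) (Ω := Ω)
    (F := univ.filter fun v => w ≤ 10 * c v) (x := x) (L := lam x y) hw hL (by rwa [ey])
    (fun p hp => by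
      have a1 := (h1 _ hp).1
      have a2 := card_supp (P (x + p)) (Icc (2 * w) (4 * w)) (fun d => x + (p : ZMod n) + d)
        (fun d hd d' hd' e => by
          have b1 := (mem_Icc.1 hd).2
          have b2 := (mem_Icc.1 hd').2
          have := congrArg (lam (x + (p : ZMod n))) e
          simp only at this
          rwa [lam_add _ (by omega), lam_add _ (by omega)] at this)
      have a3 := full (by omega) hs _ (h.win (x + p))
      have a4 : ∑ u, P (x + p) u = out R (x + p) + c (x + p) := h.outP _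
      have a5 := h.cle (x + p)
      have a6 := out_mono hR (x + p)
      have a7 := (h3 (x + p)).1
      refine le_trans (Nat.mul_le_mul_left 10 (card_le_card (t := _ ∪ _ ∪ _) ?_)) (le_trans
        (Nat.mul_le_mul_left 10 ((card_union_le _ _).trans
          (Nat.add_le_add_right (card_union_le _ _) _))) (by
            rw [mul_add, mul_add]
            exact le_trans (add_le_add (add_le_add a1 (Nat.mul_le_mul_left 10 a2)) a3) (by omega)))
      intro d hd
      simp only [mem_filter, mem_union, mem_univ, true_and, Nat.cast_add, ← add_assoc] at hd ⊢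
      obtain ⟨d1, d2, d3⟩ := hd
      have hk : ok (x + p) (x + p + d) = true :=
        hok _ _ (by rw [lam_add x (by omega), lam_add _ (by omega)]; exact d2)
      rcases d3 with d3 | d3 | d3
      · by_cases e : P (x + p) (x + p + d) = 0
        · exact Or.inl (Or.inl ⟨d1, hk, Or.inl (by omega)⟩)
        · exact Or.inl (Or.inr ⟨d1, e⟩)
      · exact Or.inl (Or.inl ⟨d1, hk, Or.inr d3⟩)
      · exact Or.inr ⟨d1, d3⟩)
    (by
      have a1 := (h1 _ hy).2
      have a2 := card_supp (fun u => P u y) (Icc (2 * w) (4 * w)) (fun d => y - (d : ZMod n))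
        (fun d hd d' hd' e => by
          have b1 := (mem_Icc.1 hd).2
          have b2 := (mem_Icc.1 hd').2
          have e' : y + (d : ZMod n) = y + (d' : ZMod n) := by rw [sub_right_inj.1 e]
          have := congrArg (lam y) e'
          rwa [lam_add _ (by omega), lam_add _ (by omega)] at this)
      have a4 : ∑ u, P u y = inn R y + c y := h.innP _
      have a5 := h.cle y
      have a6 := inn_mono hR y
      have a7 := (h3 y).2
      refine le_trans (Nat.mul_le_mul_left 10 (card_le_card (t := _ ∪ _) ?_)) (le_trans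
        (Nat.mul_le_mul_left 10 (card_union_le _ _)) (by
            rw [mul_add]
            exact le_trans (add_le_add a1 (Nat.mul_le_mul_left 10 a2)) (by omega)))
      intro d hd
      simp only [mem_filter, mem_union] at hd ⊢
      obtain ⟨d1, d2, d3⟩ := hd
      have e1 : x + ((lam x y - d : ℕ) : ZMod n) = y - d := by
        rw [Nat.cast_sub d2, ← add_sub_assoc, ey]
      have e2 : lam (y - (d : ZMod n)) y = d := by
        have := lam_add (y - (d : ZMod n)) (p := d) (by omega)
        rwa [sub_add_cancel] at this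
      have hk : ok (y - d) y = true :=
        hok _ _ (by rw [e2, ← e1, lam_add x (by omega)]; omega)
      rw [e1, ey] at d3
      by_cases e : P (y - d) y = 0
      · exact Or.inl ⟨d1, hk, Or.inl (by omega)⟩
      · exact Or.inr ⟨d1, e⟩)
    (lam x y) 0 (by omega) (by simpa using hx) (Or.inr hl)
  have q1 := hQ.rt
  have q2 := hQ.outP
  have q3 := hQ.innP
  simp only [Nat.cast_zero, add_zero, ey] at q1 q2 q3
  refine ⟨P + Q, fun v => c v + if lam x v ∈ I then 1 else 0, ?_, rt_add h.rt q1, ?_, ?_,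
    fun v => ?_, fun v => ?_, fun v => ?_, fun a => ?_⟩
  · intro a b
    have := hQ.le a b
    have := h.le a b
    show P a b + Q a b ≤ B a b
    simp only at *
    omega
  · have := hQ.len
    have := h.len
    unfold Lam at *
    rw [wsum_add, wsum_add, wsum_E]; omega
  · intro u v huv
    by_cases e : P u v = 0
    · obtain ⟨-, b2, b3, b4, b5⟩ := hQ.arcs u v (by simpa [e] using huv)
      exact ⟨b5, b3, b4, x, y, hxy, b2⟩
    · exact h.arcs u v e
  · rw [out_add, out_add, out_E, q2, h.outP]; omega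
  · rw [inn_add, inn_add, inn_E, q3, h.innP]; omega
  · have := h.cle v
    split_ifs with hv
    · have := (hQ.mem _ hv).2.2
      rw [add_lam] at this
      simp only [mem_filter, mem_univ, true_and] at this
      omega
    · omega
  · have := hQ.win hL a
    have := h.win a
    rw [sum_add_distrib, size_add, size_E]; omega

end cyc
end GC

theorem gc : GC_s := by
  intro n _ B Rq Ω ok w hw _ h1 h2 h3 h4
  have main : ∀ (m : ℕ) (R : Mat (ZMod n)), size R = m → R ≤ Rq →
      ∃ P c, GC.Inv B Rq Ω w R P c := by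
    intro m
    induction m with
    | zero =>
      intro R hR _
      have h0 : R = 0 := by
        funext a b
        exact sum_eq_zero_iff.1 (sum_eq_zero_iff.1 hR a (mem_univ a)) b (mem_univ b)
      subst h0
      exact ⟨0, 0, fun _ _ => Nat.zero_le _, GC.rt_refl _, rfl, fun u v h => absurd rfl h,
        fun v => rfl, fun v => rfl, fun v => Nat.zero_le _, fun a => by simp only [Pi.zero_apply, sum_const_zero, zero_le]⟩
    | succ m ih =>
      intro R hR hle
      obtain ⟨x, y, hxy⟩ : ∃ x y, R x y ≠ 0 := by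
        by_contra hc
        push Not at hc
        simp [size, out, hc] at hR
      obtain ⟨R', rfl⟩ := exists_add_E hxy
      have hle' : R' ≤ Rq := fun a b => le_trans (Nat.le_add_right _ _) (hle a b)
      obtain ⟨P, c, h⟩ := ih R' (by rw [size_add, size_E] at hR; omega) hle'
      have hq : Rq x y ≠ 0 := by
        have : (R' + E x y) x y ≤ Rq x y := hle x y
        omega
      obtain ⟨b1, b2, b3, b4⟩ := h2 x y hq
      exact h.step hw h1 hq b1 b2 b3 b4 h3 h4 hle'
  obtain ⟨P, c, h⟩ := main _ Rq rfl le_rfl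
  refine ⟨P, h.le, h.rt, h.len, fun u v huv => (h.arcs u v huv).1,
    fun u v huv => (h.arcs u v huv).2, fun v => ?_⟩
  have := h.cle v
  rw [h.outP, h.innP]
  omega

end Pool.Agent.MP_2634a8_co.X
end

section
namespace Pool.Agent.MP_2634a8_co.X

open Finset

namespace SAC

section gen
variable {V : Type} [Fintype V] [DecidableEq V]

omit [DecidableEq V] in
lemma wsum_add (M N : Mat V) (f : V → V → ℕ) : wsum (M + N) f = wsum M f + wsum N f := by
  simp only [wsum, Pi.add_apply, add_mul, sum_add_distrib, Nat.add_left_cancel_iff]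

lemma wsum_E (a b : V) (f : V → V → ℕ) : wsum (E a b) f = f a b := by
  simp only [wsum, E, ite_and, ite_mul, one_mul, zero_mul, sum_ite_irrel, sum_ite_eq', mem_univ, ↓ reduceIte, sum_const_zero]

omit [Fintype V] in
lemma E_ne {a b x y : V} (h : E a b x y ≠ 0) : x = a ∧ y = b := by
  unfold E at h
  by_contra h'
  exact h (if_neg h')

omit [Fintype V] in
lemma add_E_ne {P : Mat V} {a b x y : V} (h : (P + E a b) x y ≠ 0) :
    P x y ≠ 0 ∨ (x = a ∧ y = b) := by
  by_cases h0 : P x y = 0
  · right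
    apply E_ne
    intro h1
    apply h
    simp only [Pi.add_apply]
    omega
  · exact Or.inl h0

omit [Fintype V] in
lemma add_E_le {P B : Mat V} {a b : V} (h : P ≤ B) (h0 : P a b = 0) (h1 : B a b ≠ 0) :
    P + E a b ≤ B := by
  intro x y
  have := h x y
  simp only [Pi.add_apply, E]
  split_ifs with h'
  · obtain ⟨rfl, rfl⟩ := h'
    omega
  · omega

lemma step {P D Q : Mat V} (h : Rt (P + D) Q) (a y x b : V) :
    Rt ((P + E a y + E x b) + (D + E y x)) (Q + E a b) := by
  refine ⟨fun N t hp => ?_, fun v => ?_, fun v => ?_, fun f hf => ?_⟩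
  · rw [← add_assoc] at hp
    have h1 := pack_split a x b t _ hp
    have e1 : N + Q + (E a x + E x b) = (N + Q + E x b) + E a x := by abel
    rw [e1] at h1
    have h2 := pack_split a y x t _ h1
    have e2 : N + Q + E x b + (E a y + E y x) = (N + E x b + E a y + E y x) + Q := by abel
    rw [e2] at h2
    have h3 := h.pack _ _ h2
    have e3 : N + E x b + E a y + E y x + (P + D) =
        N + ((P + E a y + E x b) + (D + E y x)) := by abel
    rwa [e3] at h3
  · have := h.bal v
    simp only [out_add, inn_add, out_E, inn_E] at this ⊢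
    omega
  · have := h.out_le v
    simp only [out_add, out_E] at this ⊢
    omega
  · have := h.sub f hf
    have h1 := hf a y b
    have h2 := hf y x b
    simp only [wsum_add, wsum_E] at this ⊢
    omega

omit [DecidableEq V] in
lemma pick (φ : ℕ → V) (w τ : ℕ) (hφ : Set.InjOn φ (Icc (4 * w) (8 * w) : Finset ℕ))
    (b p g : V → ℕ) (hb : ((Icc (4 * w) (8 * w)).filter fun d : ℕ => b (φ d) = 0).card ≤ w)
    (hp : ∑ v, p v ≤ w) (hτ : 0 < τ) (hg : ∑ v, g v ≤ τ * w) :
    ∃ d, 4 * w ≤ d ∧ d ≤ 8 * w ∧ b (φ d) ≠ 0 ∧ p (φ d) = 0 ∧ g (φ d) < τ := by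
  have key : ∀ (q : V → ℕ) (c : ℕ), 0 < c → ∑ v, q v ≤ c * w →
      ((Icc (4 * w) (8 * w)).filter fun d : ℕ => c ≤ q (φ d)).card ≤ w := by
    intro q c hc hq
    have h1 : ((Icc (4 * w) (8 * w)).filter fun d : ℕ => c ≤ q (φ d)).card ≤
        (univ.filter fun v => c ≤ q v).card := by
      apply card_le_card_of_injOn φ
      · intro d hd
        simp only [coe_filter, Set.mem_ofPred_eq, mem_univ, true_and] at hd ⊢
        exact hd.2
      · exact hφ.mono (by intro d hd; exact (mem_filter.1 hd).1)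
    have h2 : (univ.filter fun v => c ≤ q v).card * c ≤ ∑ v, q v := by
      refine le_trans ?_ (sum_le_sum_of_subset (filter_subset (fun v => c ≤ q v) univ))
      rw [← smul_eq_mul]
      exact card_nsmul_le_sum _ _ _ fun v hv => (mem_filter.1 hv).2
    have h3 : (univ.filter fun v => c ≤ q v).card * c ≤ w * c := by
      rw [mul_comm w c]; exact h2.trans hq
    exact h1.trans (Nat.le_of_mul_le_mul_right h3 hc)
  have k1 := key p 1 one_pos (by omega)
  have k2 := key g τ hτ hg
  by_contra hne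
  have hsub : Icc (4 * w) (8 * w) ⊆
      ((Icc (4 * w) (8 * w)).filter fun d : ℕ => b (φ d) = 0) ∪
      ((Icc (4 * w) (8 * w)).filter fun d : ℕ => 1 ≤ p (φ d)) ∪
      ((Icc (4 * w) (8 * w)).filter fun d : ℕ => τ ≤ g (φ d)) := by
    intro d hd
    simp only [mem_union, mem_filter]
    by_contra hc
    apply hne
    have hd' := mem_Icc.1 hd
    refine ⟨d, hd'.1, hd'.2, fun h => hc (Or.inl (Or.inl ⟨hd, h⟩)), ?_, ?_⟩
    · by_contra h
      exact hc (Or.inl (Or.inr ⟨hd, by omega⟩))
    · by_contra h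
      exact hc (Or.inr ⟨hd, by omega⟩)
  have c1 := card_le_card hsub
  have c2 := card_union_le
    (((Icc (4 * w) (8 * w)).filter fun d : ℕ => b (φ d) = 0) ∪
      ((Icc (4 * w) (8 * w)).filter fun d : ℕ => 1 ≤ p (φ d)))
    ((Icc (4 * w) (8 * w)).filter fun d : ℕ => τ ≤ g (φ d))
  have c3 := card_union_le
    ((Icc (4 * w) (8 * w)).filter fun d : ℕ => b (φ d) = 0)
    ((Icc (4 * w) (8 * w)).filter fun d : ℕ => 1 ≤ p (φ d))
  rw [Nat.card_Icc] at c1
  omega

end gen

section cyc
variable {n : ℕ} [NeZero n]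

omit [NeZero n] in
lemma cast_inj {d e : ℕ} (hd : d < n) (he : e < n) (h : (d : ZMod n) = e) : d = e := by
  have := congrArg ZMod.val h
  rwa [ZMod.val_cast_of_lt hd, ZMod.val_cast_of_lt he] at this

omit [NeZero n] in
lemma lam_in (y : ZMod n) {d : ℕ} (hd : d < n) : lam (y - (d : ZMod n)) y = d := by
  unfold lam
  rw [sub_sub_cancel, ZMod.val_cast_of_lt hd]

omit [NeZero n] in
lemma lam_out (x : ZMod n) {d : ℕ} (hd : d < n) : lam x (x + (d : ZMod n)) = d := by
  unfold lam
  rw [add_sub_cancel_left, ZMod.val_cast_of_lt hd]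

lemma lam_rev {x y : ZMod n} (h : 1 ≤ lam x y) : lam y x + lam x y = n := by
  unfold lam at h ⊢
  have h0 : y - x ≠ 0 := by
    intro h0
    rw [h0, ZMod.val_zero] at h
    omega
  have h1 := ZMod.val_lt (y - x)
  rw [← neg_sub y x, ZMod.neg_val, if_neg h0]
  omega

lemma lam_new (x y : ZMod n) {d e : ℕ} (h1 : lam x y ≤ d + e) (h2 : d + e < n) :
    lam (y - (d : ZMod n)) (x + (e : ZMod n)) + lam x y = d + e := by
  have h3 : x + e - (y - d) = ((d + e - lam x y : ℕ) : ZMod n) := by
    rw [Nat.cast_sub h1]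
    unfold lam
    rw [ZMod.natCast_zmod_val]
    push_cast
    ring
  have h4 : lam (y - (d : ZMod n)) (x + (e : ZMod n)) = d + e - lam x y := by
    conv_lhs => unfold lam
    rw [h3, ZMod.val_cast_of_lt (by omega)]
  omega

lemma main (B : Mat (ZMod n)) (Ω : Finset (ZMod n)) (w τ : ℕ) (hn : 24 * w < n)
    (hB : Off B Ω)
    (hm : ∀ v ∉ Ω, mo B (4 * w) (8 * w) v ≤ w ∧ mi B (4 * w) (8 * w) v ≤ w) (hτ : 2 * τ ≤ w) :
    ∀ (m : ℕ) (D : Mat (ZMod n)), size D = m → Off D Ω →
      (∀ y x, D y x ≠ 0 → 1 ≤ lam x y ∧ lam x y < 8 * w) →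
      (∀ v, out D v ≤ τ ∧ inn D v ≤ τ) → size D ≤ τ * w →
      ∃ P Q : Mat (ZMod n), P ≤ B ∧ Rt (P + D) Q ∧ Lam Q + n * size D = Lam P + Lam D ∧
        size P = 2 * size D ∧ size Q = size D ∧ Off Q Ω ∧
        (∀ a b, Q a b ≠ 0 → 1 ≤ lam a b ∧ lam a b ≤ 16 * w) ∧
        (∀ u v, P u v ≠ 0 → 4 * w ≤ lam u v ∧ lam u v ≤ 8 * w) ∧
        ∀ v, out P v = out Q v + inn D v ∧ inn P v = inn Q v + out D v ∧
          out Q v ≤ τ ∧ inn Q v ≤ τ := by
  intro m
  induction m with
  | zero =>
    intro D hD _ _ _ _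
    have h0 : D = 0 := by
      funext u v
      have h1 := (sum_eq_zero_iff.1 hD) u (mem_univ _)
      exact (sum_eq_zero_iff.1 h1) v (mem_univ _)
    subst h0
    refine ⟨0, 0, fun _ _ => Nat.zero_le _, ?_, ?_, ?_, rfl, fun _ _ h => absurd rfl h,
      fun _ _ h => absurd rfl h, fun _ _ h => absurd rfl h, fun v => ?_⟩
    · rw [add_zero]
      exact ⟨fun _ _ h => h, fun v => add_comm _ _, fun _ => le_rfl, fun _ _ => le_rfl⟩
    · simp [Lam, wsum, size, out]
    · simp [size, out]
    · simp [out, inn]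
  | succ m ih =>
    intro D hD hoff hlen hdeg hsz
    obtain ⟨y, hy⟩ : ∃ y, out D y ≠ 0 := by
      by_contra h
      push Not at h
      have : size D = 0 := sum_eq_zero fun v _ => h v
      omega
    obtain ⟨x, hx⟩ := exists_out hy
    have hτ0 : 0 < τ := by have := (hdeg y).1; omega
    obtain ⟨hyΩ, hxΩ⟩ := hoff y x hx
    obtain ⟨c1, c2⟩ := hlen y x hx
    obtain ⟨D0, rfl⟩ := exists_add_E hx
    have hle : ∀ u v, D0 u v ≠ 0 → (D0 + E y x) u v ≠ 0 := by
      intro u v h
      simp only [Pi.add_apply]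
      omega
    rw [size_add, size_E] at hD hsz
    have hdeg' : ∀ v, out D0 v + (if v = y then 1 else 0) ≤ τ ∧
        inn D0 v + (if v = x then 1 else 0) ≤ τ := by
      intro v
      have := hdeg v
      rwa [out_add, inn_add, out_E, inn_E] at this
    obtain ⟨P, Q, p1, p2, p3, p4, p5, p6, p7, p8, p9⟩ := ih D0 (by omega)
      (fun u v h => hoff u v (hle u v h)) (fun u v h => hlen u v (hle u v h))
      (fun v => ⟨by have := (hdeg' v).1; omega, by have := (hdeg' v).2; omega⟩) (by omega)
    obtain ⟨d, d1, d2, d3, d4, d5⟩ := pick (fun d : ℕ => y - (d : ZMod n)) w τ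
      (by
        intro d hd e he h
        have hd' := mem_Icc.1 hd
        have he' := mem_Icc.1 he
        exact cast_inj (n := n) (by omega) (by omega) (sub_right_injective h))
      (fun u => B u y) (fun u => P u y) (out Q) (hm y hyΩ).2
      (by
        have h1 := p9 y
        have h2 := (hdeg' y).1
        change inn P y ≤ w
        omega) hτ0 (by change size Q ≤ _; omega)
    obtain ⟨e, e1, e2, e3, e4, e5⟩ := pick (fun d : ℕ => x + (d : ZMod n)) w τ
      (by
        intro d hd e he h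
        have hd' := mem_Icc.1 hd
        have he' := mem_Icc.1 he
        exact cast_inj (n := n) (by omega) (by omega) (add_left_cancel h))
      (fun v => B x v) (fun v => (P + E (y - (d : ZMod n)) y) x v) (inn Q) (hm x hxΩ).1
      (by
        have h1 := p9 x
        have h2 := (hdeg' x).2
        change out (P + E (y - (d : ZMod n)) y) x ≤ w
        rw [out_add, out_E]
        rw [if_pos rfl] at h2
        split_ifs <;> omega) hτ0
      (by
        have : ∑ v, inn Q v = size Q := sum_comm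
        omega)
    have l1 := lam_in y (show d < n by omega)
    have l2 := lam_out x (show e < n by omega)
    have l3 := lam_rev c1
    have l4 := lam_new x y (show lam x y ≤ d + e by omega) (show d + e < n by omega)
    refine ⟨P + E (y - (d : ZMod n)) y + E x (x + (e : ZMod n)), Q + E (y - (d : ZMod n)) (x + (e : ZMod n)),
      add_E_le (add_E_le p1 d4 d3) e4 e3, step p2 _ _ _ _, ?_, ?_, ?_, ?_, ?_, ?_, ?_⟩
    · unfold Lam at p3 ⊢
      simp only [wsum_add, wsum_E, size_add, size_E, mul_add, mul_one]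
      omega
    · simp only [size_add, size_E]
      omega
    · simp only [size_add, size_E]
      omega
    · intro u v h
      rcases add_E_ne h with h | ⟨rfl, rfl⟩
      · exact p6 u v h
      · exact ⟨(hB _ _ d3).1, (hB _ _ e3).2⟩
    · intro u v h
      rcases add_E_ne h with h | ⟨rfl, rfl⟩
      · exact p7 u v h
      · omega
    · intro u v h
      rcases add_E_ne h with h | ⟨rfl, rfl⟩
      · rcases add_E_ne h with h | ⟨rfl, rfl⟩
        · exact p8 u v h
        · omega
      · omega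
    · intro v
      obtain ⟨q1, q2, q3, q4⟩ := p9 v
      simp only [out_add, inn_add, out_E, inn_E]
      refine ⟨by omega, by omega, ?_, ?_⟩
      · split_ifs with h
        · subst h
          exact d5
        · omega
      · split_ifs with h
        · subst h
          exact e5
        · omega

end cyc

end SAC

theorem sac : SAC_s := by
  intro n _ B D Ω w τ hn _ hB hD hm hlen hdeg hτ hsz
  obtain ⟨P, Q, p1, p2, p3, p4, -, p6, p7, p8, p9⟩ :=
    SAC.main B Ω w τ hn hB hm hτ _ D rfl hD hlen hdeg hsz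
  refine ⟨P, Q, p1, p2, p3, p4, p6, p7, p8, fun v => ?_⟩
  have := p9 v
  have := hdeg v
  omega

end Pool.Agent.MP_2634a8_co.X
end

section
namespace Pool.Agent.MP_2634a8_co.X

open Finset

namespace CSS
variable {V : Type} [Fintype V] [DecidableEq V]

/-- induced two-path `x, y, z` inside `U` -/
def tp (M : Mat V) (U : Finset V) (x y z : V) : ℕ :=
  if (x ∈ U ∧ y ∈ U ∧ z ∈ U) ∧ M x y ≠ 0 ∧ M y z ≠ 0 ∧ M x z = 0 ∧ M z x = 0 then 1 else 0

def na (M : Mat V) (U : Finset V) : ℕ :=
  ∑ a, ∑ b, if (a ∈ U ∧ b ∈ U) ∧ a ≠ b ∧ M a b = 0 ∧ M b a = 0 then 1 else 0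

lemma na_eq (M : Mat V) (U : Finset V) :
    ∑ a ∈ U, ∑ b ∈ U, (if a ≠ b ∧ M a b = 0 ∧ M b a = 0 then 1 else 0) = na M U := by
  unfold na
  rw [← Finset.sum_subset (Finset.subset_univ U) (fun a _ ha => by simp only [ha, false_and, ne_eq, ↓ reduceIte, sum_const_zero])]
  refine Finset.sum_congr rfl fun a ha => ?_
  rw [← Finset.sum_subset (Finset.subset_univ U) (fun b _ hb => by simp [hb])]
  refine Finset.sum_congr rfl fun b hb => ?_
  simp [ha, hb]

lemma pick (M : Mat V) (U : Finset V) (hU : U.Nonempty) :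
    ∃ v ∈ U, ∑ y, ∑ z, tp M U v y z ≤ ∑ x, ∑ z, tp M U x v z := by
  refine Finset.exists_le_of_sum_le hU (le_of_eq ?_)
  rw [Finset.sum_subset (Finset.subset_univ U) (fun a _ ha => by simp only [tp, ha, false_and, ne_eq, ↓ reduceIte, sum_const_zero]),
    Finset.sum_subset (Finset.subset_univ U) (fun a _ ha => by simp only [tp, ha, false_and, and_false, ne_eq, ↓ reduceIte, sum_const_zero])]
  exact Finset.sum_comm

lemma main (M : Mat V) (hM : Simple M) : ∀ (n : ℕ) (U : Finset V), U.card ≤ n →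
    (∀ a ∈ U, ∀ b ∈ U, M a b = 0 ∨ M b a = 0) →
    (∀ a ∈ U, ∀ b ∈ U, ∀ c ∈ U, M a b = 0 ∨ M b c = 0 ∨ M c a = 0) →
    ∃ ρ : V → ℕ, 2 * back (res M U) ρ ≤ na M U := by
  intro n
  induction n with
  | zero =>
    intro U hU _ _
    have : U = ∅ := Finset.card_eq_zero.mp (by omega)
    exact ⟨fun _ => 0, by simp only [back, Std.le_refl, ↓ reduceIte, res, this, notMem_empty, and_self, sum_const_zero, mul_zero, zero_le]⟩
  | succ n ih =>
    intro U hU h2 h3
    rcases U.eq_empty_or_nonempty with rfl | hne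
    · exact ⟨fun _ => 0, by simp only [back, Std.le_refl, ↓ reduceIte, res, notMem_empty, and_self, sum_const_zero, mul_zero, zero_le]⟩
    obtain ⟨v, hv, hfg⟩ := pick M U hne
    have hvv : M v v = 0 := hM.2 v
    set U1 := U.filter (fun x => x ≠ v ∧ M v x = 0) with hU1
    set U2 := U.filter (fun x => M v x ≠ 0) with hU2
    have m1 : ∀ x, x ∈ U1 ↔ x ∈ U ∧ x ≠ v ∧ M v x = 0 := fun x => by simp [hU1]
    have m2 : ∀ x, x ∈ U2 ↔ x ∈ U ∧ M v x ≠ 0 := fun x => by simp [hU2]
    have c : ∀ W : Finset V, W ⊆ U → v ∉ W → W.card ≤ n := fun W hW hvW => by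
      have := Finset.card_lt_card (Finset.ssubset_iff_of_subset hW |>.mpr ⟨v, hv, hvW⟩)
      omega
    have s1 : U1 ⊆ U := Finset.filter_subset _ _
    have s2 : U2 ⊆ U := Finset.filter_subset _ _
    obtain ⟨ρ1, e1⟩ := ih U1 (c _ s1 (by simp [m1])) (fun a ha b hb => h2 a (s1 ha) b (s1 hb))
      (fun a ha b hb d hd => h3 a (s1 ha) b (s1 hb) d (s1 hd))
    obtain ⟨ρ2, e2⟩ := ih U2 (c _ s2 (by simp [m2, hvv])) (fun a ha b hb => h2 a (s2 ha) b (s2 hb))
      (fun a ha b hb d hd => h3 a (s2 ha) b (s2 hb) d (s2 hd))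
    obtain ⟨K, hK⟩ : ∃ K, ∀ x, ρ1 x < K :=
      ⟨univ.sup ρ1 + 1, fun x => Nat.lt_succ_of_le (Finset.le_sup (Finset.mem_univ x))⟩
    refine ⟨fun x => if x ∈ U1 then ρ1 x else if x ∈ U2 then K + 1 + ρ2 x else K, ?_⟩
    have hb : back (res M U)
        (fun x => if x ∈ U1 then ρ1 x else if x ∈ U2 then K + 1 + ρ2 x else K) ≤
        back (res M U1) ρ1 + back (res M U2) ρ2 + ∑ y, ∑ z, tp M U v y z := by
      unfold back
      simp only [← Finset.sum_add_distrib]
      refine Finset.sum_le_sum fun u _ => Finset.sum_le_sum fun w _ => ?_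
      unfold res tp
      by_cases hu : u ∈ U
      swap
      · simp only [hu, false_and, ↓ reduceIte, ite_self, and_false, ne_eq, add_zero, zero_le]
      by_cases hw : w ∈ U
      swap
      · simp only [hw, and_false, ↓ reduceIte, ite_self, ne_eq, false_and, add_zero, zero_le]
      by_cases h0 : M u w = 0
      · simp [h0]
      have k1 := hK u
      have k2 := hK w
      have k3 := hM.1 u w
      have k4 := h2 u hu v hv
      have k5 := h3 v hv u hu w hw
      have k6 := h2 u hu w hw
      by_cases a1 : u = v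
      · subst a1
        have : w ∉ U1 := by simp [m1, h0]
        have : w ∈ U2 := by simp [m2, h0, hw]
        have : u ∉ U1 := by simp [m1]
        have : u ∉ U2 := by simp [m2, hvv]
        simp only [hU1, ne_eq, mem_filter, hw, h0, and_false, ↓ reduceIte, hU2, not_false_eq_true, and_self, hu, not_true_eq_false, hvv, and_true, ite_self, add_zero, false_and, nonpos_iff_eq_zero, ite_eq_right_iff, imp_false, not_le, gt_iff_lt]
        omega
      by_cases a2 : w = v
      · subst a2
        have h7 : M w u = 0 := by tauto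
        have : u ∈ U1 := by simp [m1, h7, hu, a1]
        have : w ∉ U1 := by simp [m1]
        have : w ∉ U2 := by simp [m2, hvv]
        simp only [hU1, ne_eq, mem_filter, hw, not_true_eq_false, hvv, and_true, and_false, ↓ reduceIte, hU2, hu, a1, not_false_eq_true, h7, and_self, ite_self, add_zero, h0, nonpos_iff_eq_zero, ite_eq_right_iff, imp_false, not_le, hK]
      by_cases b1 : M v u = 0 <;> by_cases b2 : M v w = 0
      · have : u ∈ U1 := by simp [*]
        have : w ∈ U1 := by simp [*]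
        simp [*]
      · have : u ∈ U1 := by simp [*]
        have : w ∉ U1 := by simp [*]
        have : w ∈ U2 := by simp [*]
        simp only [hU1, ne_eq, mem_filter, hw, a2, not_false_eq_true, b2, and_false, ↓ reduceIte, hU2, and_self, hu, a1, b1, ite_self, not_true_eq_false, and_true, add_zero, hv, h0, false_and, nonpos_iff_eq_zero, ite_eq_right_iff, imp_false, not_le, gt_iff_lt]
        omega
      · have : u ∉ U1 := by simp [*]
        have : w ∈ U1 := by simp [*]
        have : w ∉ U2 := by simp [*]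
        have h7 : M w v = 0 := by tauto
        simp only [hU1, ne_eq, mem_filter, hw, a2, not_false_eq_true, b2, and_self, ↓ reduceIte, hu, a1, b1, and_false, hU2, and_true, ite_self, not_true_eq_false, add_zero, hv, h0, h7, zero_add, ge_iff_le]
        split_ifs <;> omega
      · have : u ∉ U1 := by simp [*]
        have : w ∉ U1 := by simp [*]
        have : u ∈ U2 := by simp [*]
        have : w ∈ U2 := by simp [*]
        simp only [hU1, ne_eq, mem_filter, hw, a2, not_false_eq_true, b2, and_false, ↓ reduceIte, hU2, and_self, hu, a1, b1, add_le_add_iff_left, ite_self, zero_add, hv, h0, false_and, add_zero, Std.le_refl]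
    have hn : na M U1 + na M U2 + ∑ x, ∑ z, tp M U x v z + ∑ x, ∑ z, tp M U x v z ≤ na M U := by
      conv_lhs => rw [Finset.sum_comm (f := fun x z => tp M U x v z)]
      nth_rewrite 2 [Finset.sum_comm (f := fun z x => tp M U x v z)]
      unfold na
      simp only [← Finset.sum_add_distrib]
      refine Finset.sum_le_sum fun a _ => Finset.sum_le_sum fun b _ => ?_
      unfold tp
      simp only [m1, m2]
      by_cases ha : a ∈ U
      swap
      · simp [ha]
      by_cases hb : b ∈ U
      swap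
      · simp [hb]
      have k1 := h2 a ha v hv
      have k2 := h2 b hb v hv
      by_cases e : a = b
      · subst e
        rcases k1 with k | k <;> simp [k]
      by_cases b1 : M a b = 0 <;> by_cases b2 : M b a = 0 <;> by_cases b3 : M v a = 0 <;>
        by_cases b4 : M v b = 0 <;> simp_all <;> split_ifs <;> simp_all
    omega

end CSS

theorem css : CSS_s := by
  intro V _ _ M U hM h2 h3
  rw [CSS.na_eq]
  exact CSS.main M hM _ U le_rfl h2 h3

end Pool.Agent.MP_2634a8_co.X
end

section
namespace Pool.Agent.MP_2634a8_co.X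

open Finset

namespace DES

def Cov (n lo hi c : ℕ) : Prop := ∃ Gs : Finset (Finset ℕ),
  (∀ g ∈ Gs, g ⊆ Ioc lo hi ∧ ∑ d ∈ g, d = n) ∧ (∀ g ∈ Gs, ∀ g' ∈ Gs, g ≠ g' → Disjoint g g') ∧
    (Ioc lo hi \ Gs.biUnion id).card ≤ c

lemma Cov.mono {n lo hi c c' : ℕ} (h : Cov n lo hi c) (hc : c ≤ c') : Cov n lo hi c' := by
  obtain ⟨Gs, h1, h2, h3⟩ := h
  exact ⟨Gs, h1, h2, h3.trans hc⟩

lemma cov_waste (n lo hi : ℕ) : Cov n lo hi (hi - lo) :=
  ⟨∅, by simp, by simp, by simp⟩

lemma Cov.glue {n a b d c c' : ℕ} (h : Cov n a b c) (h' : Cov n b d c') (hab : a ≤ b)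
    (hbd : b ≤ d) : Cov n a d (c + c') := by
  obtain ⟨G, h1, h2, h3⟩ := h
  obtain ⟨G', h1', h2', h3'⟩ := h'
  have hd : ∀ g ∈ G, ∀ g' ∈ G', Disjoint g g' := fun g hg g' hg' => by
    rw [disjoint_left]
    intro x hx hx'
    have e1 := mem_Ioc.1 ((h1 g hg).1 hx)
    have e2 := mem_Ioc.1 ((h1' g' hg').1 hx')
    omega
  refine ⟨G ∪ G', fun g hg => ?_, fun g hg g' hg' hne => ?_, ?_⟩
  · rcases mem_union.1 hg with hg | hg
    · exact ⟨(h1 g hg).1.trans (Ioc_subset_Ioc_right hbd), (h1 g hg).2⟩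
    · exact ⟨(h1' g hg).1.trans (Ioc_subset_Ioc_left hab), (h1' g hg).2⟩
  · rcases mem_union.1 hg with hg | hg <;> rcases mem_union.1 hg' with hg' | hg'
    · exact h2 g hg g' hg' hne
    · exact hd g hg g' hg'
    · exact (hd g' hg' g hg).symm
    · exact h2' g hg g' hg' hne
  · refine le_trans (card_le_card ?_) ((card_union_le (Ioc a b \ G.biUnion id)
      (Ioc b d \ G'.biUnion id)).trans (add_le_add h3 h3'))
    intro x hx
    simp only [mem_sdiff, mem_union, mem_Ioc, mem_biUnion, id, not_exists, not_and] at hx ⊢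
    by_cases hxb : x ≤ b
    · exact Or.inl ⟨⟨hx.1.1, hxb⟩, fun g hg => hx.2 g (Or.inl hg)⟩
    · exact Or.inr ⟨⟨by omega, hx.1.2⟩, fun g hg => hx.2 g (Or.inr hg)⟩

lemma cov_of_inj (n lo hi H m : ℕ) (f : ℕ → ℕ → ℕ)
    (hinj : ∀ i < H, ∀ j < m, ∀ i' < H, ∀ j' < m, f i j = f i' j' → i = i' ∧ j = j')
    (hmem : ∀ i < H, ∀ j < m, lo < f i j ∧ f i j ≤ hi)
    (hsum : ∀ i < H, ∑ j ∈ range m, f i j = n) : Cov n lo hi (hi - lo - H * m) := by
  refine ⟨(range H).image fun i => (range m).image (f i), fun g hg => ?_,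
    fun g hg g' hg' hne => ?_, ?_⟩
  · obtain ⟨i, hi', rfl⟩ := mem_image.1 hg
    have hi2 := mem_range.1 hi'
    refine ⟨fun x hx => ?_, ?_⟩
    · obtain ⟨j, hj, rfl⟩ := mem_image.1 hx
      exact mem_Ioc.2 (hmem i hi2 j (mem_range.1 hj))
    · rw [sum_image fun j hj j' hj' h =>
        (hinj i hi2 j (mem_range.1 hj) i hi2 j' (mem_range.1 hj') h).2]
      exact hsum i hi2
  · obtain ⟨i, hi', rfl⟩ := mem_image.1 hg
    obtain ⟨i', hi'', rfl⟩ := mem_image.1 hg'
    rw [disjoint_left]
    intro x hx hx'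
    obtain ⟨j, hj, rfl⟩ := mem_image.1 hx
    obtain ⟨j', hj', h⟩ := mem_image.1 hx'
    have := (hinj i' (mem_range.1 hi'') j' (mem_range.1 hj') i (mem_range.1 hi') j
      (mem_range.1 hj) h).1
    exact hne (by rw [this])
  · have hc : ((range H ×ˢ range m).image fun x : ℕ × ℕ => f x.1 x.2).card = H * m := by
      rw [card_image_of_injOn, card_product, card_range, card_range]
      intro x hx y hy h
      simp only [coe_product, Set.mem_prod, coe_range, Set.mem_Iio] at hx hy
      exact Prod.ext (hinj _ hx.1 _ hx.2 _ hy.1 _ hy.2 h).1 (hinj _ hx.1 _ hx.2 _ hy.1 _ hy.2 h).2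
    have hsub : ((range H ×ˢ range m).image fun x : ℕ × ℕ => f x.1 x.2) ⊆ Ioc lo hi := by
      intro x hx
      obtain ⟨y, hy, rfl⟩ := mem_image.1 hx
      rw [mem_product, mem_range, mem_range] at hy
      exact mem_Ioc.2 (hmem _ hy.1 _ hy.2)
    have h2 := card_sdiff_of_subset hsub
    rw [hc, Nat.card_Ioc] at h2
    rw [← h2]
    refine card_le_card (sdiff_subset_sdiff Subset.rfl fun x hx => ?_)
    obtain ⟨y, hy, rfl⟩ := mem_image.1 hx
    rw [mem_product] at hy
    exact mem_biUnion.2 ⟨_, mem_image.2 ⟨y.1, hy.1, rfl⟩, mem_image.2 ⟨y.2, hy.2, rfl⟩⟩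

/-- permutations of `[0, 2p]` with constant sum -/
def off (p j i : ℕ) : ℕ :=
  if j = 1 then (if i ≤ p then i + p else i - p - 1)
  else if j = 2 then (if i ≤ p then 2 * p - 2 * i else 4 * p + 1 - 2 * i)
  else if j = 0 ∨ j % 2 = 1 then i else 2 * p - i

lemma off_le (p j i : ℕ) (hi : i < 2 * p + 1) : off p j i ≤ 2 * p := by
  unfold off; split_ifs <;> omega

lemma off_inj (p j i i' : ℕ) (hi : i < 2 * p + 1) (hi' : i' < 2 * p + 1)
    (h : off p j i = off p j i') : i = i' := by
  unfold off at h; split_ifs at h <;> omega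

lemma off_sum (p i : ℕ) (hi : i < 2 * p + 1) (r : ℕ) :
    ∑ j ∈ range (2 * r + 3), (j * (2 * p + 1) + off p j i) =
      (2 * r + 3) * ((r + 1) * (2 * p + 1) + p) := by
  induction r with
  | zero =>
    have : off p 0 i + off p 1 i + off p 2 i = 3 * p := by
      simp only [off]; norm_num only [or_false, ite_true, ite_false, or_true, or_self]; split_ifs <;> omega
    simp only [sum_range_succ, sum_range_zero]; omega
  | succ r ih =>
    have : off p (2 * r + 3) i + off p (2 * r + 3 + 1) i = 2 * p := by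
      rw [off, off, if_neg (by omega), if_neg (by omega), if_pos (by omega), if_neg (by omega),
        if_neg (by omega), if_neg (by omega)]
      omega
    rw [show 2 * (r + 1) + 3 = 2 * r + 3 + 1 + 1 by ring, sum_range_succ, sum_range_succ, ih]
    linarith only [this]

lemma round (n r k1 : ℕ) (h1 : n < (2 * r + 3) * k1) (h2 : k1 ≤ 2 * (n / (2 * r + 3))) :
    ∃ k2, k2 ≤ k1 ∧ Cov n k2 k1 (2 * r + 3) ∧ (2 * r + 3) * k2 ≤ n ∧
      2 * (n / (2 * r + 3)) ≤ k1 + k2 := by
  obtain ⟨m, hm⟩ : ∃ m, m = 2 * r + 3 := ⟨_, rfl⟩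
  have hm0 : 0 < m := by omega
  rw [← hm] at h1 h2 ⊢
  have hn := Nat.div_add_mod n m
  have he := Nat.mod_lt n hm0
  have hq : n / m < k1 := by rw [Nat.div_lt_iff_lt_mul hm0]; linarith only [h1]
  generalize n / m = q at *
  generalize n % m = e at *
  by_cases hc : k1 < q + r + 2
  · exact ⟨q, by omega, (cov_waste n q k1).mono (by omega), by omega, by omega⟩
  have hp := Nat.div_add_mod (k1 - q - r - 2) m
  have hp' := Nat.mod_lt (k1 - q - r - 2) hm0
  generalize (k1 - q - r - 2) / m = p at *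
  generalize (k1 - q - r - 2) % m = s at *
  obtain ⟨k2, hk2⟩ : ∃ k2, q = k2 + (m * p + r + 2) := ⟨q - (m * p + r + 2), by omega⟩
  have hH : (2 * p + 1) * m = 2 * (m * p) + m := by ring
  refine ⟨k2, by omega, ?_, ?_, by omega⟩
  · refine (cov_of_inj n k2 k1 (2 * p + 1) m (fun i j => k2 + 1 + (if m ≤ j + e then 1 else 0) +
      (j * (2 * p + 1) + off p j i)) ?_ ?_ ?_).mono (by omega)
    · have key : ∀ i < 2 * p + 1, ∀ i' j j', j < j' →
          k2 + 1 + (if m ≤ j + e then 1 else 0) + (j * (2 * p + 1) + off p j i) <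
          k2 + 1 + (if m ≤ j' + e then 1 else 0) + (j' * (2 * p + 1) + off p j' i') := by
        intro i hi i' j j' hj
        have a1 := off_le p j i hi
        have a2 : (j + 1) * (2 * p + 1) ≤ j' * (2 * p + 1) := Nat.mul_le_mul_right _ hj
        rw [add_mul] at a2
        split_ifs <;> omega
      intro i hi j _ i' hi' j' _ h
      rcases lt_trichotomy j j' with hj | rfl | hj
      · exact absurd h (key i hi i' j j' hj).ne
      · exact ⟨off_inj p j i i' hi hi' (by omega), rfl⟩
      · exact absurd h.symm (key i' hi' i j' j hj).ne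
    · intro i hi j hj
      have a1 := off_le p j i hi
      have a2 : (j + 1) * (2 * p + 1) ≤ m * (2 * p + 1) := Nat.mul_le_mul_right _ hj
      rw [add_mul, mul_comm m, hH] at a2
      constructor <;> split_ifs <;> omega
    · intro i hi
      have a1 := off_sum p i hi r
      rw [← hm] at a1
      have a2 : ∑ j ∈ range m, (if m ≤ j + e then 1 else 0) = e := by
        rw [← card_filter, show (range m).filter (fun j => m ≤ j + e) = Ico (m - e) m by
          ext j; simp only [mem_filter, mem_range, mem_Ico]; omega, Nat.card_Ico]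
        omega
      rw [sum_add_distrib, sum_add_distrib, a1, a2, sum_const, card_range, smul_eq_mul, ← hn, hk2]
      subst hm; ring
  · calc m * k2 ≤ m * q := Nat.mul_le_mul_left _ (by omega)
      _ ≤ n := by omega

lemma step (M n r k1 : ℕ) (hn : 100 * (M + 1) ≤ n) (h1 : n < (2 * r + 3) * k1)
    (hr : 2 * r + 2 ≤ M) (h2 : (2 * r + 1) * k1 ≤ n) (h3 : 2 * k1 ≤ n) :
    ∃ k2, k2 ≤ k1 ∧ Cov n k2 k1 (M + 1) ∧ (2 * r + 3) * k2 ≤ n ∧ n ≤ 5 * M * k2 := by
  have hq : n < (2 * r + 3) * (n / (2 * r + 3) + 1) := Nat.lt_mul_div_succ n (by omega)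
  have hr' := round n r k1 h1
  generalize n / (2 * r + 3) = q at *
  have a1 : n < (M + 1) * (q + 1) := hq.trans_le (Nat.mul_le_mul_right _ (by omega))
  have a2 : 99 ≤ q := by
    by_contra h
    have : (M + 1) * (q + 1) ≤ (M + 1) * 100 := Nat.mul_le_mul_left _ (by omega)
    omega
  have a3 : 3 * k1 ≤ 5 * (q + 1) := by
    rcases Nat.eq_zero_or_pos r with rfl | h
    · omega
    · by_contra hc
      have : (2 * r + 1) * (5 * (q + 1)) ≤ (2 * r + 1) * (3 * k1) :=
        Nat.mul_le_mul_left _ (by omega)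
      nlinarith only [h2, hq, h, this]
  obtain ⟨k2, b1, b2, b3, b4⟩ := hr' (by omega)
  refine ⟨k2, b1, b2.mono (by omega), b3, ?_⟩
  have c1 : M * (3 * (q + 1)) ≤ M * (10 * k2) := Nat.mul_le_mul_left _ (by omega)
  have c2 : 2 * (q + 1) ≤ M * (q + 1) := Nat.mul_le_mul_right _ (by omega)
  linarith only [a1, c1, c2]

end DES

theorem des : DES_s := by
  intro M
  refine ⟨(M + 1) * (M + 1), 50 * (M + 1), fun k n hk h1 h2 => ?_⟩
  have hM : 3 ≤ M := by
    by_contra h
    have : M * k ≤ 2 * k := Nat.mul_le_mul_right _ (by omega)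
    omega
  have inv : ∀ r, ∃ k', k' ≤ k ∧ DES.Cov n k' k (r * (M + 1)) ∧ n ≤ 5 * M * k' ∧
      (M * k' ≤ n ∨ (2 * r + 1) * k' ≤ n) := by
    intro r
    induction r with
    | zero => exact ⟨k, le_rfl, (DES.cov_waste n k k).mono (by omega), by linarith only [h2],
        Or.inr (by omega)⟩
    | succ r ih =>
      obtain ⟨k1, a1, a2, a3, a4⟩ := ih
      have hc : r * (M + 1) ≤ (r + 1) * (M + 1) := Nat.mul_le_mul_right _ (by omega)
      by_cases h3 : M * k1 ≤ n ∨ (2 * (r + 1) + 1) * k1 ≤ n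
      · exact ⟨k1, a1, a2.mono hc, a3, h3⟩
      rw [not_or, not_le, not_le] at h3
      have a5 : (2 * r + 1) * k1 ≤ n := a4.resolve_left (by omega)
      have a6 : 2 * r + 2 ≤ M := by
        by_contra h
        have : M * k1 ≤ (2 * r + 1) * k1 := Nat.mul_le_mul_right _ (by omega)
        omega
      obtain ⟨k2, b1, b2, b3, b4⟩ := DES.step M n r k1 (by omega) h3.2 a6 a5 (by omega)
      exact ⟨k2, b1.trans a1, (b2.glue a2 b1 a1).mono (le_of_eq (by ring)), b4, Or.inr b3⟩
  obtain ⟨k', a1, ⟨Gs, g1, g2, g3⟩, a3, a4⟩ := inv (M + 1)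
  refine ⟨k', Gs, a4.elim id fun h => le_trans (Nat.mul_le_mul_right _ (by omega)) h, a3, a1,
    g1, g2, g3⟩

end Pool.Agent.MP_2634a8_co.X
end

section
namespace Pool.Agent.MP_2634a8_co.X

open Finset

namespace NR

/-- relabelling keeps packings -/
lemma pack_equiv {V W : Type} [Fintype V] [Fintype W] (e : W ≃ V) :
    ∀ (t : ℕ) (M : V → V → ℕ), Pack t (fun u v => M (e u) (e v)) → Pack t M
  | 0, _, _ => trivial
  | t + 1, M, ⟨C, N, h1, h2, h3, h4⟩ => by
    refine ⟨fun a b => C (e.symm a) (e.symm b), fun a b => N (e.symm a) (e.symm b), ?_, ?_, ?_, ?_⟩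
    · funext a b
      have := congrFun (congrFun h1 (e.symm a)) (e.symm b)
      simpa using this
    · intro h0
      apply h2
      funext u v
      have := congrFun (congrFun h0 (e u)) (e v)
      simpa using this
    · intro v
      have := h3 (e.symm v)
      unfold out inn at this ⊢
      rw [Equiv.sum_comp e.symm (fun w => C (e.symm v) w),
        Equiv.sum_comp e.symm (fun w => C w (e.symm v))]
      exact this
    · apply pack_equiv e t
      simpa using h4

lemma out_equiv {V W : Type} [Fintype V] [Fintype W] (e : W ≃ V) (M : V → V → ℕ) (u : W) :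
    out (fun u v => M (e u) (e v)) u = out M (e u) :=
  Equiv.sum_comp e (fun w => M (e u) w)

lemma inn_equiv {V W : Type} [Fintype V] [Fintype W] (e : W ≃ V) (M : V → V → ℕ) (u : W) :
    inn (fun u v => M (e u) (e v)) u = inn M (e u) :=
  Equiv.sum_comp e (fun w => M w (e u))

lemma lam_nat {n : ℕ} [NeZero n] (u : ZMod n) {d : ℕ} (h : d < n) : lam u (u + d) = d := by
  unfold lam
  rw [add_sub_cancel_left, ZMod.val_natCast, Nat.mod_eq_of_lt h]

lemma add_lam' {n : ℕ} [NeZero n] (u v : ZMod n) : u + (lam u v : ZMod n) = v := by simp [lam]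

lemma sum_win' {n : ℕ} [NeZero n] (a : ZMod n) {m : ℕ} (hm : m ≤ n) (g : ZMod n → ℕ) :
    ∑ v ∈ win a m, g v = ∑ i ∈ range m, g (a + i) := by
  have hw : ∀ v, v ∈ win a m ↔ lam a v < m := fun v => by simp [win]
  symm
  refine sum_bij (fun i _ => a + (i : ZMod n)) ?_ ?_ ?_ (fun _ _ => rfl)
  · intro i hi
    have := mem_range.1 hi
    rw [hw, lam_nat a (by omega)]; exact this
  · intro i hi j hj h
    have := mem_range.1 hi
    have := mem_range.1 hj
    rw [← lam_nat a (d := i) (by omega), h, lam_nat a (by omega)]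
  · intro v hv
    exact ⟨lam a v, mem_range.2 ((hw v).1 hv), add_lam' a v⟩

/-- sum of `d` over the stretch of length `l` starting at `p` -/
def S (d : ℕ → ℕ) (p l : ℕ) : ℕ := ∑ i ∈ range l, d (p + i)

lemma S_add (d : ℕ → ℕ) (p a b : ℕ) : S d p (a + b) = S d p a + S d (p + a) b := by
  unfold S
  rw [sum_range_add]
  simp only [add_assoc]

/-- stretch selection -/
lemma stretch (d : ℕ → ℕ) (n k : ℕ) (hk : 1 ≤ k) (b ν K0 c : ℝ) (hν : 0 ≤ ν) (hc : 0 ≤ c)
    (hcb : K0 + k * ν ≤ c * b)
    (H : ∀ p l, p + l ≤ n → (∀ j, j + k ≤ l → (S d (p + j) k : ℝ) ≤ b) →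
      l * ν ≤ S d p l + K0) :
    ∀ l p, p + l ≤ n → l * ν ≤ S d p l * (1 + c) + (K0 + k * ν) := by
  intro l
  induction l using Nat.strong_induction_on with
  | _ l ih =>
    intro p hp
    have hkν : 0 ≤ (k : ℝ) * ν := by positivity
    by_cases hg : ∀ j, j + k ≤ l → (S d (p + j) k : ℝ) ≤ b
    · have h1 := H p l hp hg
      have h2 : 0 ≤ (S d p l : ℝ) * c := by positivity
      linarith only [hkν, h1, h2]
    · have hex : ∃ j, j + k ≤ l ∧ b < (S d (p + j) k : ℝ) := by
        by_contra hne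
        apply hg
        intro j hj
        by_contra hlt
        exact hne ⟨j, hj, lt_of_not_ge hlt⟩
      classical
      obtain ⟨hj1, hj2⟩ := Nat.find_spec hex
      set j := Nat.find hex with hj
      obtain ⟨m, hm⟩ : ∃ m, l = j + k + m := ⟨l - (j + k), by omega⟩
      have h1 := H p j (by omega) (fun i hi => by
        by_contra hlt
        exact Nat.find_min hex (m := i) (by omega) ⟨by omega, lt_of_not_ge hlt⟩)
      have h2 := ih m (by omega) (p + (j + k)) (by omega)
      have h3 : S d p l = S d p j + S d (p + j) k + S d (p + (j + k)) m := by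
        rw [hm, S_add, S_add]
      have h4 : c * b ≤ c * (S d (p + j) k : ℝ) := mul_le_mul_of_nonneg_left hj2.le hc
      have h5 : 0 ≤ (S d p j : ℝ) * c := by positivity
      have h6 : 0 ≤ (S d (p + j) k : ℝ) := by positivity
      have h7 : (l : ℝ) = j + k + m := by rw [hm]; push_cast; ring
      rw [h3, h7]
      push_cast
      linarith only [hcb, h1, h2, h4, h5]

/-- the last two steps -/
lemma finish {n : ℕ} [NeZero n] {A G : Mat (ZMod n)} {r t : ℕ} {x : ℝ}
    (hF : ∀ t, t * n ≤ Lam A → Pack t A) (hP : ∀ t, Pack t A → Pack (t + r) G)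
    (hx : x ≤ Lam A + n * r) (ht : (t : ℝ) * n ≤ x) : Pack t G := by
  have h1 : t * n ≤ Lam A + n * r := by exact_mod_cast ht.trans hx
  have h2 : (t - r) * n ≤ Lam A := by
    rw [Nat.sub_mul]
    rw [mul_comm n r] at h1
    omega
  exact pack_le (by omega) (hP _ (hF _ h2))

end NR

open NR in
theorem nr (hOPT : OPT_s) (hPREP : PREP_s) (hSEAM : SEAM_s) (hCLEAN : CLEAN_s) (hFIN : FIN_s) :
    NR_s := by
  obtain ⟨θ, σ, hθ, hσ, M1, kF, hF⟩ := hFIN
  obtain ⟨κ0, hκ0, hS⟩ := hSEAM
  obtain ⟨κ1, hκ1, hC⟩ := hCLEAN θ σ hθ hσ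
  have hκ : 0 < min κ0 κ1 := lt_min hκ0 hκ1
  obtain ⟨s, hs, kC, hC⟩ := hC _ hκ (min_le_right _ _)
  obtain ⟨ε0, hε0, kS, hS⟩ := hS _ s hκ (min_le_left _ _) hs
  obtain ⟨ε, hε, hε1, hε2, hε3⟩ : ∃ ε : ℝ, 0 < ε ∧ ε ≤ ε0 ∧ ε ≤ s / 40 ∧ ε ≤ 1 :=
    ⟨min ε0 (min (s / 40) 1), lt_min hε0 (lt_min (by positivity) one_pos), min_le_left _ _,
      (min_le_right _ _).trans (min_le_left _ _), (min_le_right _ _).trans (min_le_right _ _)⟩
  refine ⟨ε, ε / 20, ε / 20 / (M1 + 25), hε, by positivity, by linarith only [hε3], by positivity,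
    kF + kC + kS + 1, ?_⟩
  intro k hk V _ _ M hn hM hB hO hFas hD t ht
  set n := Fintype.card V with hnV
  have : NeZero n := ⟨by omega⟩
  obtain ⟨e, hL, hLam⟩ := hOPT V n M _ rfl hM hB hFas
  apply pack_equiv e
  have hDe : dfc k (fun u v => M (e u) (e v)) univ = dfc k M univ := by
    unfold dfc
    simp only [out_equiv]
    exact Equiv.sum_comp e (fun v => k - out M v)
  have hM' : Simple (fun u v => M (e u) (e v)) := ⟨fun a b => hM.1 _ _, fun a => hM.2 _⟩
  have hB' : Bal (fun u v => M (e u) (e v)) := fun v => by rw [out_equiv, inn_equiv]; exact hB _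
  have hO' : ∀ v, out (fun u v => M (e u) (e v)) v ≤ k := fun v => by rw [out_equiv]; exact hO _
  rw [← hDe] at hD ht
  generalize (fun u v => M (e u) (e v)) = G at hL hLam hDe hM' hB' hO' hD ht ⊢
  clear hDe
  have hn0 : (0 : ℝ) < n := by exact_mod_cast (by omega : 0 < n)
  have hk0 : (0 : ℝ) < k := by exact_mod_cast (by omega : 0 < k)
  have hk2 : (0 : ℝ) < (k : ℝ) ^ 2 := by positivity
  obtain ⟨ν, hνdef⟩ : ∃ ν : ℝ, ν = dfc k G univ / (ε / 20 * n) := ⟨_, rfl⟩
  have hν0 : 0 ≤ ν := by rw [hνdef]; positivity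
  have hνn : ν * (ε / 20 * n) = dfc k G univ := by rw [hνdef]; field_simp
  have ht' : (t : ℝ) ≤ CC k - k * ν := by
    rw [hνdef]; refine ht.trans (le_of_eq ?_); ring
  by_cases hall : ∀ a, (dfc k G (win a k) : ℝ) ≤ ε * k ^ 2
  · have hm : ε * (k : ℝ) ^ 2 ≤ s / 40 * k ^ 2 := mul_le_mul_of_nonneg_right hε2 hk2.le
    have hIN := hPREP (min κ0 κ1) (s / 40) k n G (by positivity) (by omega) hn hM' hB' hO' hL
      (hLam.trans (mul_le_mul_of_nonneg_left (by linarith only [hm]) hn0.le)) (fun a => (hall a).trans hm)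
    rw [show 40 * (s / 40) = s by ring] at hIN
    obtain ⟨B, J, X', Ω, r, hCS, hP, hx⟩ := hC k (by omega) n false G 0 0 0 ∅ hn (by simp) hIN
    have hU : (univ.filter (deep false k) : Finset (ZMod n)) = univ :=
      filter_true_of_mem fun v _ h => by simp at h
    rw [hU] at hx
    simp only [add_zero] at hP
    refine finish (hF k (by omega) n false B J X' Ω hn (by simp) hCS) hP hx ?_
    have h1 : (dfc k G univ : ℝ) ≤ ν * n := by
      rw [← hνn]
      have : 0 ≤ ν * n := by positivity
      nlinarith only [hε3, this]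
    have h2 : (t : ℝ) * n ≤ (CC k - k * ν) * n := mul_le_mul_of_nonneg_right ht' hn0.le
    have h3 : (k : ℝ) * dfc k G univ ≤ k * (ν * n) := mul_le_mul_of_nonneg_left h1 hk0.le
    simp only [Bool.false_eq_true, if_false]
    linarith only [h2, h3]
  · obtain ⟨a0, ha0⟩ := not_forall.1 hall
    have hDb : ε * (k : ℝ) ^ 2 < dfc k G univ := by
      refine (lt_of_not_ge ha0).trans_le ?_
      exact_mod_cast sum_le_sum_of_subset (subset_univ _)
    obtain ⟨d, hd⟩ : ∃ d : ℕ → ℕ, d = fun i : ℕ => k - out G (i : ZMod n) := ⟨_, rfl⟩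
    have hSd : ∀ p l : ℕ, l ≤ n → dfc k G (win (p : ZMod n) l) = S d p l := by
      intro p l hl
      unfold dfc S
      rw [sum_win' _ hl, hd]
      simp only [Nat.cast_add]
    have hSn : S d 0 n = dfc k G univ := by
      rw [← hSd 0 n le_rfl]
      congr 1
      exact filter_true_of_mem fun v _ => ZMod.val_lt _
    have hνk : (M1 + 25) * ν ≤ k := by
      have h1 : ν * (ε / 20 * n) ≤ ε / 20 / (M1 + 25) * k * n := hνn ▸ hD
      have h2 : (0 : ℝ) < ε / 20 * n := by positivity
      have h3 : (0 : ℝ) < M1 + 25 := by positivity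
      have h4 : ε / 20 / (M1 + 25) * k * n = k / (M1 + 25) * (ε / 20 * n) := by ring
      rw [h4] at h1
      have h5 := le_of_mul_le_mul_right h1 h2
      rw [le_div_iff₀ h3] at h5
      linarith only [h5]
    have hex : ∃ p l : ℕ, p + l ≤ n ∧ (M1 + 24) * k ≤ l ∧
        (∀ j, j + k ≤ l → (S d (p + j) k : ℝ) ≤ ε * k ^ 2) ∧
        (S d p l : ℝ) + 6 * k ^ 2 ≤ (l - 14 * k) * ν := by
      by_contra hne
      have hK : 6 * (k : ℝ) ^ 2 + (M1 + 24) * k * ν + k * ν ≤ 7 * k ^ 2 := by
        have := mul_le_mul_of_nonneg_left hνk hk0.le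
        linarith only [this]
      have h7 : 7 / ε * (ε * (k : ℝ) ^ 2) = 7 * k ^ 2 := by field_simp
      have key := stretch d n k (by omega) (ε * k ^ 2) ν (6 * k ^ 2 + (M1 + 24) * k * ν) (7 / ε)
        hν0 (by positivity) (by rw [h7]; exact hK) (fun p l hp hg => by
          have hS0 : 0 ≤ (S d p l : ℝ) := by positivity
          have hkν : 0 ≤ (k : ℝ) * ν := by positivity
          have hMν : 0 ≤ (M1 : ℝ) * (k * ν) := by positivity
          by_cases hl : (M1 + 24) * k ≤ l
          · have h1 : (l - 14 * k) * ν < (S d p l : ℝ) + 6 * k ^ 2 := by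
              by_contra h
              exact hne ⟨p, l, hp, hl, hg, le_of_not_gt h⟩
            linarith only [hkν, hMν, h1]
          · have h1 : (l : ℝ) ≤ (M1 + 24) * k := by exact_mod_cast (lt_of_not_ge hl).le
            have h2 := mul_le_mul_of_nonneg_right h1 hν0
            linarith only [hk2, h2]) n 0 (by omega)
      rw [hSn] at key
      have h8 : 7 * (k : ℝ) ^ 2 ≤ 7 / ε * dfc k G univ := by
        rw [← h7]; exact mul_le_mul_of_nonneg_left hDb.le (by positivity)
      have hD0 : (0 : ℝ) < dfc k G univ := lt_trans (by positivity) hDb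
      have h9 : (n : ℝ) * ν ≤ dfc k G univ * (1 + 14 / ε) := by
        have : (dfc k G univ : ℝ) * (1 + 14 / ε) =
            dfc k G univ * (1 + 7 / ε) + 7 / ε * dfc k G univ := by ring
        linarith only [hK, key, h8, this]
      have h10 : (n : ℝ) * ν * ε ≤ dfc k G univ * (1 + 14 / ε) * ε :=
        mul_le_mul_of_nonneg_right h9 hε.le
      have h11 : (dfc k G univ : ℝ) * (1 + 14 / ε) * ε = dfc k G univ * (ε + 14) := by
        field_simp
      have h12 : (n : ℝ) * ν * ε = 20 * dfc k G univ := by rw [← hνn]; ring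
      rw [h11, h12] at h10
      nlinarith only [hε3, hD0, h10]
    obtain ⟨p, l, hpl, hl, hg, hsum⟩ := hex
    have hMk : (M1 + 24) * k = M1 * k + 24 * k := by ring
    obtain ⟨n1, rfl⟩ : ∃ n1, l = n1 + 14 * k := ⟨l - 14 * k, by omega⟩
    have : NeZero n1 := ⟨by omega⟩
    have hm : ε * (k : ℝ) ^ 2 ≤ ε0 * k ^ 2 := mul_le_mul_of_nonneg_right hε1 hk2.le
    obtain ⟨G1, Lad, V1, X, Ω0, hIN, hP0, hdf⟩ := hS k (by omega) n G (p : ZMod n) n1 (by omega)
      (by omega) hM' hB' hO' hL
      (hLam.trans (mul_le_mul_of_nonneg_left (by linarith only [hm]) hn0.le)) (fun a ha => by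
        have h1 := hg _ ha
        rw [← hSd _ k (by omega), Nat.cast_add, add_lam'] at h1
        exact h1.trans hm)
    obtain ⟨B, J, X', Ω, r, hCS, hP, hx⟩ :=
      hC k (by omega) n1 true G1 Lad V1 X Ω0 (by omega) (fun _ => by omega) hIN
    apply hP0
    refine finish (hF k (by omega) n1 true B J X' Ω (by omega) (fun _ => by omega) hCS) hP hx ?_
    rw [hSd _ _ (by omega)] at hdf
    have hn1 : (0 : ℝ) ≤ n1 := by positivity
    have h2 : (t : ℝ) * n1 ≤ (CC k - k * ν) * n1 := mul_le_mul_of_nonneg_right ht' hn1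
    have h3 := mul_le_mul_of_nonneg_left hdf hk0.le
    have h4 : (S d p (n1 + 14 * k) : ℝ) + 6 * k ^ 2 ≤ n1 * ν := by
      refine hsum.trans (le_of_eq ?_)
      push_cast; ring
    have h5 := mul_le_mul_of_nonneg_left h4 hk0.le
    simp only [if_true]
    linarith only [h2, h3, h5]

end Pool.Agent.MP_2634a8_co.X
end

section
namespace Pool.Agent.MP_2634a8_co.X

open Finset

namespace BIG

variable {V : Type} [Fintype V] [DecidableEq V]

lemma choose_cast (k : ℕ) : (((k + 1).choose 2 : ℕ) : ℝ) = CC k := by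
  rw [Nat.cast_choose_two]; unfold CC; push_cast; ring

omit [DecidableEq V] in
lemma dfc_zero {k : ℕ} {M : Mat V} (h : ∀ v, out M v = k) : dfc k M univ = 0 := by
  unfold dfc; exact sum_eq_zero fun v _ => by rw [h v]; omega

omit [DecidableEq V] in
lemma dfc_add {k : ℕ} {N C : Mat V} (h : ∀ v, out (N + C) v ≤ k) :
    dfc k N univ = dfc k (N + C) univ + size C := by
  unfold dfc size
  rw [← sum_add_distrib]
  refine sum_congr rfl fun v _ => ?_
  have := h v
  rw [out_add] at this ⊢
  omega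

omit [DecidableEq V] in
lemma size_pos {C : Mat V} (h : C ≠ 0) : 0 < size C := by
  by_contra h0
  apply h
  funext a b
  have h1 : size C = 0 := by omega
  unfold size at h1
  have h2 := (sum_eq_zero_iff.1 h1) a (mem_univ _)
  unfold out at h2
  exact (sum_eq_zero_iff.1 h2) b (mem_univ _)

omit [DecidableEq V] in
lemma sum_lower {k : ℕ} {M : Mat V} (h : ∀ v, out M v ≤ k) :
    (Fintype.card V : ℝ) * CC k - k * dfc k M univ ≤
      ∑ v, (out M v : ℝ) * (out M v + 1) / 2 := by
  have h1 : (Fintype.card V : ℝ) * CC k - k * dfc k M univ =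
      ∑ v : V, (CC k - k * ((k - out M v : ℕ) : ℝ)) := by
    rw [sum_sub_distrib, ← mul_sum]
    unfold dfc
    simp only [Nat.cast_sum, sum_const, card_univ, nsmul_eq_mul]
  rw [h1]
  refine sum_le_sum fun v _ => ?_
  obtain ⟨d, hd⟩ := Nat.exists_eq_add_of_le (h v)
  have h2 : k - out M v = d := by omega
  have h3 : (k : ℝ) = out M v + d := by exact_mod_cast hd
  have h4 : (d : ℝ) ≤ d * d := by exact_mod_cast Nat.le_mul_self d
  rw [h2]
  unfold CC
  rw [h3]
  linarith only [h4]

/-- the greedy case -/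
lemma greedy_case (hgr : GR_s) {k : ℕ} {ζ η : ℝ} (hk : 1 ≤ k) (hζ : 0 < ζ) (hζ2 : ζ ≤ 1 / 2)
    (hη : 0 < η) {H : Mat V} (hn : (k : ℝ) ≤ Fintype.card V * (η / 44) ^ 2) (hs : Simple H)
    (hb : Bal H) (ho : ∀ v, out H v ≤ k)
    (hD : η * k * Fintype.card V ≤ dfc k H univ) (t : ℕ)
    (ht : (t : ℝ) ≤ CC k - dfc k H univ * k / (ζ * Fintype.card V)) : Pack t H := by
  obtain ⟨t', hp, hle⟩ := hgr V H k hs hb ho
  refine pack_le ?_ hp
  by_contra hlt
  have hlt' : (t' : ℝ) ≤ t := by exact_mod_cast (not_le.1 hlt).le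
  have hk' : (1 : ℝ) ≤ k := by exact_mod_cast hk
  set n : ℝ := (Fintype.card V : ℝ) with hn'
  set D : ℝ := (dfc k H univ : ℝ) with hD'
  have hn0 : 0 ≤ n := Nat.cast_nonneg _
  have hnpos : 0 < n := by
    rcases hn0.lt_or_eq with h | h
    · exact h
    · rw [← h] at hn; linarith only [hk', hn]
  have hD0 : 0 ≤ D := Nat.cast_nonneg _
  have hsq : √(n * k) ≤ n * (η / 44) := by
    apply Real.sqrt_le_iff.2
    refine ⟨by positivity, ?_⟩
    have := mul_le_mul_of_nonneg_left hn hn0
    linarith only [this]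
  have h1 := (sum_lower ho).trans hle
  have ht0 : (0 : ℝ) ≤ t' := Nat.cast_nonneg _
  have h2 : (t' : ℝ) * (n + 22 * √(n * k)) ≤ t' * (n + n * η / 2) :=
    mul_le_mul_of_nonneg_left (by linarith only [hsq]) ht0
  have h3 : 2 * (D * k) / n ≤ D * k / (ζ * n) := by
    rw [div_le_div_iff₀ hnpos (by positivity)]
    have : 0 ≤ D * k * n := by positivity
    nlinarith only [hζ2, this]
  have h4 : (t' : ℝ) * n ≤ CC k * n - 2 * (D * k) := by
    have h5 : (t' : ℝ) ≤ CC k - 2 * (D * k) / n := by linarith only [hlt', ht, h3]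
    have h6 := mul_le_mul_of_nonneg_right h5 hn0
    rwa [sub_mul, div_mul_cancel₀ _ hnpos.ne'] at h6
  have hC : CC k ≤ (k : ℝ) ^ 2 := by unfold CC; nlinarith only [hk']
  have hDk : 0 ≤ D * k := by positivity
  have h7 : (t' : ℝ) * n ≤ (k : ℝ) ^ 2 * n := by
    have := mul_le_mul_of_nonneg_right hC hn0
    linarith only [h4, hDk, this]
  have h8 : (t' : ℝ) * n * (η / 2) ≤ (k : ℝ) ^ 2 * n * (η / 2) :=
    mul_le_mul_of_nonneg_right h7 (by positivity)
  have h9 : η * k * n * k ≤ D * k := mul_le_mul_of_nonneg_right hD (by linarith only [hζ, hζ2, hk'])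
  have h10 : 0 < η * k * n * k := by positivity
  linarith only [h1, h2, h4, h8, h9, h10]

end BIG

open BIG in
theorem big (hnr : NR_s) (hds : DS_s) (hs2 : S2_s) (hgr : GR_s) : BIG_s := by
  obtain ⟨ε, ζ, η, hε, hζ, hζ2, hη, k1, hnr⟩ := hnr
  obtain ⟨η2, hη2, L2, k2, hs2⟩ := hs2 ε ζ hε hζ
  have hη' : 0 < min η η2 := lt_min hη hη2
  obtain ⟨L1, hL1⟩ := exists_nat_ge (1 / (min η η2 / 44) ^ 2)
  obtain ⟨k3, hds⟩ := hds ε (L1 + L2) hε
  refine ⟨k1 + k2 + k3 + 1, fun k hk V _ _ M hn hs hb ho => ?_⟩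
  have hch : (((k + 1).choose 2 : ℕ) : ℝ) ≤
      CC k - dfc k M univ * k / (ζ * Fintype.card V) := by
    rw [choose_cast, dfc_zero ho]; simp only [CharP.cast_eq_zero, zero_mul, zero_div, sub_zero, Std.le_refl]
  by_cases hL : Fintype.card V ≤ (L1 + L2) * k
  · rcases hds k (by omega) V M hn hL hs hb ho with h | h
    · refine hnr k (by omega) V M hn hs hb (fun v => (ho v).le) h ?_ _ hch
      rw [dfc_zero ho]; push_cast; positivity
    · exact h
  have hL' : (L1 + L2) * k ≤ Fintype.card V := (not_le.1 hL).le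
  have hk0 : (0 : ℝ) < k := by exact_mod_cast (by omega : 0 < k)
  have hn0 : (0 : ℝ) < Fintype.card V := by exact_mod_cast (by omega : 0 < Fintype.card V)
  have hkn : (k : ℝ) ≤ Fintype.card V * (min η η2 / 44) ^ 2 := by
    have h1 : (L1 : ℝ) * k ≤ Fintype.card V := by
      exact_mod_cast (by nlinarith only [hL] : L1 * k ≤ Fintype.card V)
    have h2 : (0 : ℝ) < (min η η2 / 44) ^ 2 := by positivity
    rw [div_le_iff₀ h2] at hL1
    have h3 := mul_le_mul_of_nonneg_right h1 h2.le
    nlinarith only [hL1, h3]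
  have key : ∀ (m : ℕ) (H : Mat V), size H = m → Simple H → Bal H → (∀ v, out H v ≤ k) →
      ∀ t : ℕ, (t : ℝ) ≤ CC k - dfc k H univ * k / (ζ * Fintype.card V) → Pack t H := by
    intro m
    induction m using Nat.strong_induction_on with
    | _ m ih =>
    intro H hm hs hb ho t ht
    by_cases hg : Girth H (ζ * Fintype.card V / k)
    · by_cases hD : (dfc k H univ : ℝ) ≤ min η η2 * k * Fintype.card V
      · have hD1 : (dfc k H univ : ℝ) ≤ η * k * Fintype.card V :=
          hD.trans (by gcongr; exact min_le_left _ _)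
        have hD2 : (dfc k H univ : ℝ) ≤ η2 * k * Fintype.card V :=
          hD.trans (by gcongr; exact min_le_right _ _)
        rcases hs2 k (by omega) V H (le_trans (by nlinarith only []) hL') hs hb ho hg hD2 with h | h
        · exact hnr k (by omega) V H hn hs hb ho h hD1 t ht
        · refine pack_le ?_ h
          have h0 : (0 : ℝ) ≤ dfc k H univ * k / (ζ * Fintype.card V) := by positivity
          have h1 : (t : ℝ) ≤ (((k + 1).choose 2 : ℕ) : ℝ) := by rw [choose_cast]; linarith only [ht, h0]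
          exact_mod_cast h1
      · exact greedy_case hgr (by omega) hζ hζ2 hη' hkn hs hb ho (not_le.1 hD).le t ht
    · unfold Girth at hg
      push Not at hg
      obtain ⟨C, hC, hC0, hCb, hCs⟩ := hg
      obtain ⟨N, rfl⟩ := exists_add (W := C) (M := H) (fun a b => hC a b)
      cases t with
      | zero => trivial
      | succ s =>
        have hsz := size_pos hC0
        have hN : Pack s N := by
          refine ih (size N) (by rw [← hm, size_add]; omega) N rfl ⟨fun a b => ?_, fun a => ?_⟩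
            (fun v => ?_) (fun v => ?_) s ?_
          · have := hs.1 a b; simp only [Pi.add_apply] at this; omega
          · have := hs.2 a; simp only [Pi.add_apply] at this; omega
          · have h1 := hb v; have h2 := hCb v
            rw [out_add, inn_add] at h1; omega
          · have h1 := ho v; rw [out_add] at h1; omega
          · rw [dfc_add ho]
            push_cast at ht ⊢
            have h1 : (size C : ℝ) * k / (ζ * Fintype.card V) ≤ 1 := by
              rw [div_le_one (by positivity)]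
              rwa [le_div_iff₀ hk0] at hCs
            rw [add_mul, add_div]
            linarith only [ht, h1]
        exact ⟨C, N, add_comm _ _, hC0, hCb, hN⟩
  exact key _ M rfl hs hb (fun v => (ho v).le) _ hch

end Pool.Agent.MP_2634a8_co.X
end

section
namespace Pool.Agent.MP_2634a8_co.X

open Finset

namespace ALL

variable {V : Type} [Fintype V] [DecidableEq V]

def mat (F : Finset (V × V)) : Mat V := fun u v => if (u, v) ∈ F then 1 else 0

lemma out_mat (F : Finset (V × V)) (v : V) : out (mat F) v = H32.od F v := by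
  unfold out mat H32.od
  rw [← card_filter]
  apply card_bij (fun w _ => (v, w))
  · intro w hw; simpa only [mem_filter, and_true, mem_univ, true_and] using hw
  · intro a _ b _ h; exact (Prod.mk.inj h).2
  · rintro ⟨a, b⟩ h
    obtain ⟨h1, h2⟩ := mem_filter.1 h
    obtain rfl : a = v := h2
    exact ⟨b, by simpa only [mem_filter, mem_univ, true_and] using h1, rfl⟩

lemma inn_mat (F : Finset (V × V)) (v : V) : inn (mat F) v = H32.idg F v := by
  unfold inn mat H32.idg
  rw [← card_filter]
  apply card_bij (fun w _ => (w, v))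
  · intro w hw; simpa only [mem_filter, and_true, mem_univ, true_and] using hw
  · intro a _ b _ h; exact (Prod.mk.inj h).1
  · rintro ⟨a, b⟩ h
    obtain ⟨h1, h2⟩ := mem_filter.1 h
    obtain rfl : b = v := h2
    exact ⟨a, by simpa only [mem_filter, mem_univ, true_and] using h1, rfl⟩

lemma pack_of_pk {t : ℕ} {A : Finset (V × V)} (h : H32.Pk t A) : Pack t (mat A) := by
  obtain ⟨M, rfl, h1, h2⟩ := h
  induction M using Finset.induction_on generalizing A with
  | empty => trivial
  | insert F M hF ih =>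
    rw [card_insert_of_notMem hF]
    obtain ⟨f1, f2, f3⟩ := h1 F (mem_insert_self _ _)
    refine ⟨mat F, mat (A \ F), ?_, ?_, fun v => by rw [out_mat, inn_mat, f2 v], ?_⟩
    · funext a b
      simp only [mat, Pi.add_apply, mem_sdiff]
      by_cases h : (a, b) ∈ F
      · simp [h, f3 h]
      · simp [h]
    · obtain ⟨⟨a, b⟩, he⟩ := f1
      intro h0
      have := congrFun (congrFun h0 a) b
      simp [mat, he] at this
    · apply ih
      · intro G hG
        obtain ⟨g1, g2, g3⟩ := h1 G (mem_insert_of_mem hG)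
        refine ⟨g1, g2, fun e he => mem_sdiff.2 ⟨g3 he, ?_⟩⟩
        exact disjoint_left.1 (h2 G (mem_insert_of_mem hG) F (mem_insert_self _ _)
          (fun h => hF (h ▸ hG))) he
      · intro G hG G' hG'
        exact h2 G (mem_insert_of_mem hG) G' (mem_insert_of_mem hG')

/-- an arc `b → a` may be replaced by anything that closes up with the arc `a → b` -/
lemma pack_swap {a b : V} (hab : a ≠ b) {P : Mat V} (hP : Bal (P + E a b)) :
    ∀ (t : ℕ) (K : Mat V), Pack t (K + E b a) → Pack t (K + P)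
  | 0, _, _ => trivial
  | t + 1, K, ⟨C, N, h1, h2, h3, h4⟩ => by
    by_cases hc : C b a = 0
    · have : N b a ≠ 0 := by
        have := congrFun (congrFun h1 b) a
        simp [E, hc] at this; omega
      obtain ⟨N0, rfl⟩ := exists_add_E this
      have h5 : K = C + N0 := by
        rw [← add_assoc] at h1; exact add_right_cancel h1
      exact ⟨C, N0 + P, by rw [h5, add_assoc], h2, h3, pack_swap hab hP t N0 h4⟩
    · obtain ⟨C0, rfl⟩ := exists_add_E hc
      have h5 : K = C0 + N := by
        rw [add_right_comm] at h1; exact add_right_cancel h1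
      refine ⟨C0 + P, N, by rw [h5, add_right_comm], ?_, ?_, h4⟩
      · intro h
        have hP0 : P = 0 := by
          funext x y
          have := congrFun (congrFun h x) y
          simp only [Pi.add_apply, Pi.zero_apply] at this ⊢
          omega
        have := hP a
        rw [hP0, zero_add, out_E, inn_E] at this
        simp [hab] at this
      · intro u
        have e1 := h3 u
        have e2 := hP u
        simp only [out_add, inn_add, out_E, inn_E] at e1 e2 ⊢
        omega

omit [Fintype V] in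
lemma exists_dg {a b : V} (hab : a ≠ b) {C : Mat V} (h1 : C a b ≠ 0) (h2 : C b a ≠ 0) :
    ∃ K, C = K + (E a b + E b a) := by
  apply exists_add
  intro x y
  simp only [Pi.add_apply, E]
  by_cases e1 : x = a ∧ y = b
  · obtain ⟨rfl, rfl⟩ := e1
    simp [hab]; omega
  · by_cases e2 : x = b ∧ y = a
    · obtain ⟨rfl, rfl⟩ := e2
      simp [hab, hab.symm]; omega
    · simp [e1, e2]

lemma pack_undg {a b : V} (hab : a ≠ b) : ∀ (t : ℕ) (N : Mat V),
    Pack (t + 1) (N + (E a b + E b a)) → Pack t N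
  | 0, _, _ => trivial
  | t + 1, N, ⟨C, N', h1, h2, h3, h4⟩ => by
    have e1 := congrFun (congrFun h1 a) b
    have e2 := congrFun (congrFun h1 b) a
    simp only [Pi.add_apply, E, and_self, if_true] at e1 e2
    by_cases c1 : C a b = 0
    · by_cases c2 : C b a = 0
      · obtain ⟨K, rfl⟩ := exists_dg hab (C := N') (by omega) (by omega)
        have h5 : N = C + K := by
          rw [← add_assoc C] at h1; exact add_right_cancel h1
        exact ⟨C, K, h5, h2, h3, pack_undg hab t K h4⟩
      · obtain ⟨P, rfl⟩ := exists_add_E c2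
        obtain ⟨K, rfl⟩ := exists_add_E (M := N') (a := a) (b := b) (by omega)
        have h5 : N = K + P := by
          apply add_right_cancel (b := E a b + E b a)
          rw [h1]; abel
        rw [h5]; exact pack_swap hab.symm h3 _ _ h4
    · by_cases c2 : C b a = 0
      · obtain ⟨P, rfl⟩ := exists_add_E c1
        obtain ⟨K, rfl⟩ := exists_add_E (M := N') (a := b) (b := a) (by omega)
        have h5 : N = K + P := by
          apply add_right_cancel (b := E a b + E b a)
          rw [h1]; abel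
        rw [h5]; exact pack_swap hab h3 _ _ h4
      · obtain ⟨K, rfl⟩ := exists_dg hab c1 c2
        have h5 : N = N' + K := by
          apply add_right_cancel (b := E a b + E b a)
          rw [h1]; abel
        rw [h5]; exact pack_mono _ _ _ h4

lemma sym_dg : ∀ (n : ℕ) (S : Mat V), size S ≤ n → (∀ u v, S u v = S v u) → (∀ u, S u u = 0) →
    ∃ a, size S = 2 * a ∧ (∀ t N, Pack (t + a) (N + S) → Pack t N) ∧
      ∀ t N, Pack t N → Pack (t + a) (N + S) := by
  intro n
  induction n with
  | zero =>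
    intro S h _ _
    refine ⟨0, by omega, fun t N hp => ?_, fun t N hp => pack_mono _ _ _ hp⟩
    have : S = 0 := by
      funext u v
      have h1 : out S u ≤ size S := single_le_sum (f := fun v => out S v)
        (fun _ _ => Nat.zero_le _) (mem_univ u)
      have h2 : S u v ≤ out S u := single_le_sum (f := fun w => S u w)
        (fun _ _ => Nat.zero_le _) (mem_univ v)
      simp only [Pi.zero_apply]; omega
    simpa [this] using hp
  | succ n ih =>
    intro S h hs hd
    by_cases h0 : ∀ u v, S u v = 0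
    · have : S = 0 := by funext u v; exact h0 u v
      subst this
      exact ⟨0, by simp only [size, out, Pi.zero_apply, sum_const_zero, mul_zero], fun t N hp => by simpa using hp,
        fun t N hp => by simpa using hp⟩
    · push Not at h0
      obtain ⟨a, b, h1⟩ := h0
      have hab : a ≠ b := fun e => h1 (e ▸ hd a)
      obtain ⟨K, rfl⟩ := exists_dg hab h1 (by rw [hs]; exact h1)
      rw [size_add, size_add, size_E, size_E] at h
      obtain ⟨c, c1, c2, c3⟩ := ih K (by omega)
        (fun u v => by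
          have := hs u v
          simp only [Pi.add_apply, E, and_comm (a := v = a), and_comm (a := v = b)] at this
          omega)
        (fun u => by have := hd u; simp only [Pi.add_apply] at this; omega)
      refine ⟨c + 1, by rw [size_add, size_add, size_E, size_E]; omega, fun t N hp => ?_,
        fun t N hp => ?_⟩
      · rw [← add_assoc N, ← add_assoc t] at hp
        exact c2 t N (pack_undg hab _ _ hp)
      · refine ⟨E a b + E b a, N + K, by abel, ?_, ?_, c3 t N hp⟩
        · intro h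
          have := congrFun (congrFun h a) b
          simp [E] at this
        · intro u
          simp only [out_add, inn_add, out_E, inn_E]; omega

lemma two_choose (k : ℕ) : 2 * (k + 1).choose 2 = k * (k + 1) := by
  induction k with
  | zero => rfl
  | succ k ih => rw [Nat.choose_succ_succ' (k + 1) 1, Nat.choose_one_right]; linarith only [ih]

/-- reversed complement -/
def rc (M : Mat V) : Mat V := fun u v => if u = v then 0 else 1 - M v u

lemma out_rc {M : Mat V} (h : Simple M) (u : V) :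
    out (rc M) u + inn M u + 1 = Fintype.card V := by
  have : ∑ v, (rc M u v + M v u + if u = v then 1 else 0) = ∑ _v : V, 1 := by
    apply sum_congr rfl
    intro v _
    have := h.1 v u
    unfold rc
    split_ifs with e
    · subst e; rw [h.2]
    · omega
  simpa only [out, inn, sum_add_distrib, sum_ite_eq, mem_univ, ↓ reduceIte, sum_const, card_univ, smul_eq_mul, mul_one] using this

lemma inn_rc {M : Mat V} (h : Simple M) (u : V) :
    inn (rc M) u + out M u + 1 = Fintype.card V := by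
  have : ∑ v, (rc M v u + M u v + if v = u then 1 else 0) = ∑ _v : V, 1 := by
    apply sum_congr rfl
    intro v _
    have := h.1 u v
    unfold rc
    split_ifs with e
    · subst e; rw [h.2]
    · omega
  simpa only [inn, out, sum_add_distrib, sum_ite_eq', mem_univ, ↓ reduceIte, sum_const, card_univ, smul_eq_mul, mul_one] using this

lemma pack_rc {M : Mat V} (h : Simple M) {k k' : ℕ} (hk : ∀ v, out M v = k)
    (hk' : ∀ v, out (rc M) v = k') (hn : Fintype.card V = k + k' + 1)
    (hp : Pack ((k' + 1).choose 2) (rc M)) : Pack ((k + 1).choose 2) M := by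
  set S : Mat V := fun u v => min (M u v) (M v u) with hS
  set O : Mat V := fun u v => M u v - M v u with hO
  set S' : Mat V := fun u v => if u = v then 0 else 1 - max (M u v) (M v u) with hS'
  have e1 : M = O + S := by
    funext u v; simp only [hS, hO, Pi.add_apply]; omega
  have e2 : rc M = O + S' := by
    funext u v
    have a1 := h.1 u v
    have a2 := h.1 v u
    simp only [hS', hO, Pi.add_apply, rc]
    split_ifs with e
    · subst e; omega
    · omega
  obtain ⟨a, a1, -, a3⟩ := sym_dg _ S le_rfl (fun u v => min_comm _ _)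
    (fun u => by simp only [hS, min_self, h.2])
  obtain ⟨b, b1, b2, -⟩ := sym_dg _ S' le_rfl
    (fun u v => by simp only [hS', eq_comm (a := u), max_comm (M u v)]) (fun u => by simp only [hS', ↓ reduceIte])
  have s1 : size M = (k + k' + 1) * k := by simp only [size, hk, sum_const, card_univ, hn, smul_eq_mul]
  have s2 : size (rc M) = (k + k' + 1) * k' := by simp only [size, hk', sum_const, card_univ, hn, smul_eq_mul]
  rw [e1, size_add, a1] at s1
  rw [e2, size_add, b1] at s2
  have t1 := two_choose k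
  have t2 := two_choose k'
  have key : (k + 1).choose 2 + b = (k' + 1).choose 2 + a := by linarith only [s1, s2, t1, t2]
  have hO' : Pack ((k' + 1).choose 2 - b) O := by
    by_cases hb : b ≤ (k' + 1).choose 2
    · apply b2
      rw [Nat.sub_add_cancel hb, ← e2]; exact hp
    · rw [Nat.sub_eq_zero_of_le (by omega)]; trivial
  rw [e1]
  exact pack_le (by omega) (a3 _ _ hO')

lemma large (hg : GR_s) {M : Mat V} (h : Simple M) (hb : Bal M) {k : ℕ} (hk : ∀ v, out M v = k)
    (hn : 200 * k ^ 5 ≤ Fintype.card V) : Pack ((k + 1).choose 2) M := by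
  rcases Nat.eq_zero_or_pos k with rfl | hk0
  · trivial
  obtain ⟨t, p1, p2⟩ := hg V M k h hb (fun v => (hk v).le)
  apply pack_le _ p1
  by_contra hcon
  push Not at hcon
  set n : ℝ := (Fintype.card V : ℝ) with hn'
  have hk' : (1 : ℝ) ≤ k := by exact_mod_cast hk0
  have hnk : 200 * (k : ℝ) ^ 5 ≤ n := by rw [hn']; exact_mod_cast hn
  simp only [hk, sum_const, card_univ, nsmul_eq_mul] at p2
  rw [← hn'] at p2
  have ht : (t : ℝ) + 1 ≤ k * (k + 1) / 2 := by
    have h1 : ((t + 1 : ℕ) : ℝ) ≤ ((k + 1).choose 2 : ℕ) := by exact_mod_cast hcon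
    rw [Nat.cast_choose_two] at h1
    push_cast at h1
    linarith only [h1]
  have hk5 : (1 : ℝ) ≤ (k : ℝ) ^ 5 := one_le_pow₀ hk'
  have hn0 : 0 < n := by linarith only [hnk, hk5]
  set s := √(n * k) with hs
  have hs0 : 0 < s := Real.sqrt_pos.2 (by positivity)
  have hs2 : s ^ 2 = n * k := Real.sq_sqrt (by positivity)
  have ht0 : (0 : ℝ) ≤ t := by positivity
  have h1 : n ≤ 22 * t * s := by nlinarith
  have h2 : 22 * (t : ℝ) ≤ 14 * k ^ 2 := by nlinarith only [ht]
  have h3 : n ≤ 14 * k ^ 2 * s := h1.trans (mul_le_mul_of_nonneg_right h2 hs0.le)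
  have h4 : n ^ 2 ≤ (14 * k ^ 2 * s) ^ 2 := pow_le_pow_left₀ hn0.le h3 2
  have h5 : (14 * (k : ℝ) ^ 2 * s) ^ 2 = n * (196 * k ^ 5) := by
    rw [mul_pow, hs2]; ring
  nlinarith only [hnk, hk5, h4, h5]

end ALL

open ALL

theorem gr : GR_s := by
  intro V _ _ M D hs hb hD
  set A : Finset (V × V) := univ.filter fun e => M e.1 e.2 ≠ 0 with hA
  have e : mat A = M := by
    funext u v
    have := hs.1 u v
    simp only [mat, hA, mem_filter, mem_univ, true_and]
    split_ifs <;> omega
  have ho : ∀ v, H32.od A v = out M v := fun v => by rw [← out_mat, e]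
  have hi : ∀ v, H32.idg A v = inn M v := fun v => by rw [← inn_mat, e]
  obtain ⟨t, p1, p2⟩ := H32.greedy D _ A rfl (fun v => by rw [ho, hi, hb v])
    (fun x hx hxx => (mem_filter.1 hx).2 (by rw [hxx]; exact hs.2 _))
    (fun v => by rw [ho]; exact hD v)
  refine ⟨t, e ▸ pack_of_pk p1, ?_⟩
  simpa only [ho] using p2

theorem all (hb : BIG_s) (hg : GR_s) : ALL_s := by
  obtain ⟨k1, hb⟩ := hb
  refine ⟨k1 + 200 * k1 ^ 5, fun k hk V _ _ _ M hs hbal ho => ?_⟩
  by_cases hn : 2 * k + 1 ≤ Fintype.card V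
  · exact hb k (by omega) V M hn hs hbal ho
  obtain ⟨v0⟩ := ‹Nonempty V›
  have h0 := out_rc hs v0
  rw [← hbal v0, ho] at h0
  set k' := out (rc M) v0 with hk'
  have ho' : ∀ v, out (rc M) v = k' := fun v => by
    have := out_rc hs v
    rw [← hbal v, ho] at this; omega
  have hb' : Bal (rc M) := fun v => by
    have := inn_rc hs v
    rw [ho] at this
    rw [ho']; omega
  have hs' : Simple (rc M) := ⟨fun a b => by unfold rc; split_ifs <;> omega, fun a => if_pos rfl⟩
  apply pack_rc hs ho ho' (by omega)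
  by_cases h1 : k1 ≤ k'
  · exact hb k' h1 V _ (by omega) hs' hb' ho'
  · apply large hg hs' hb' ho'
    have : k' ^ 5 ≤ k1 ^ 5 := Nat.pow_le_pow_left (by omega) 5
    omega

theorem final (h : ALL_s) : ∃ k₀ : ℕ, ∀ k : ℕ, k₀ ≤ k →
    ∀ (V : Type) [Finite V] [Nonempty V] (G : Digraph V), IsRegularDigraph G k →
      HasArcDisjointCycles G ((k + 1).choose 2) := by
  obtain ⟨k0, h⟩ := h
  refine ⟨k0, fun k hk V _ _ G hG => ?_⟩
  obtain ⟨t, rfl, ht⟩ := transfer G k hG (fun t => t = (k + 1).choose 2)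
    (fun M hM ho => ⟨_, h k hk V M hM.1 hM.2 ho, rfl⟩)
  exact ht

end Pool.Agent.MP_2634a8_co.X
end
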