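import Mathlib
import Pool.Agent.MP_2634a8_co.Y.Stm
import Pool.Agent.MP_2634a8_co.Y.Core

attribute [-instance] Fintype.decidableForallFintype Finset.decidableDforallFinset RKHS.instFunLike
  Multiset.decidableDforallMultiset instCoeTCOfCoe Vector.instDecidableForallForallMemOfDecidablePred
  Pi.addCommGroup Int.decidableLTLE Array.instDecidableForallForallMemOfDecidablePred
  Option.decidableForallMem AddQuantale.instAddLeftMono Int.decidableLTLT Int.decidableLELE
  DivisionRing.toRing Int.decidableLELT instCharZeroOfIsSemireal forall_prop_decidable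
  littleWedderburn Group.IsPerfect.subsingleton_of_isMulCommutative NumberField.to_charZero
  bot_nonempty TestFunctionClass.toDFunLike instCoeTOfCoeDep ContDiffMapSupportedInClass.toDFunLike

section
namespace Pool.Agent.MP_2634a8_co.X.RL

open Finset

/-- one period: the tokens `τ` and `ρ τ` exchange their classes; every pair of different classes
is available and used at most once -/
def Step {S T : Type} (Av : S → S → Prop) (x : T → S) (ρ : Equiv.Perm T) : Prop :=
  (∀ τ, ρ (ρ τ) = τ) ∧ (∀ τ, x (ρ τ) ≠ x τ → Av (x τ) (x (ρ τ))) ∧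
    ∀ τ τ', x (ρ τ) ≠ x τ → x τ = x τ' → x (ρ τ) = x (ρ τ') → τ = τ'

/-- the state `y` at time `b` is reached from the state `x` at time `a` -/
inductive Reach {S T : Type} (Av : ℕ → S → S → Prop) : ℕ → ℕ → (T → S) → (T → S) → Prop
  | refl (a : ℕ) (x : T → S) : Reach Av a a x x
  | step {a b : ℕ} {x y : T → S} {ρ : Equiv.Perm T} :
      Reach Av a b x y → Step (Av b) y ρ → Reach Av a (b + 1) x (y ∘ ρ)

/-- sorting by exchanges -/
def SORT_s : Prop := ∃ R c0 : ℕ, ∀ (c μ u : ℕ) (Av : ℕ → Fin c → Fin c → Prop), c0 ≤ c →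
  c ≤ 4 * μ → μ ≤ c → 9 * u ≤ c → (∀ j s s', Av j s s' → Av j s' s) →
  (∀ j s, ∃ Z : Finset (Fin c), Z.card ≤ u ∧ ∀ s' ∉ Z, Av j s s') →
  ∀ (j0 : ℕ) (π : Equiv.Perm (Fin c × Fin μ)),
    Reach Av j0 (j0 + R) Prod.fst (fun τ => (π τ).1)

/-- the router in rank coordinates, period `c = 2 m + 1` -/
def RLA_s : Prop := ∃ M e0 : ℕ, ∀ (V : Type) [Fintype V] [DecidableEq V] (D : Mat V)
  (P : ℕ → V) (pos : V → ℕ) (k e m : ℕ) (ι : Type) [Fintype ι] [DecidableEq ι] (b a : ι → V),
  e0 ≤ e → 99 * e ≤ 2 * m + 2 → k ≤ 2 * m + 2 + e →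
  (∀ r < M * (2 * m + 1), pos (P r) = r) →
  (∀ u v, D u v ≠ 0 → pos u < pos v ∧ pos v ≤ pos u + k ∧
    (pos v < M * (2 * m + 1) → P (pos v) = v)) →
  (∀ u v, D u v ≤ 1) → (∀ v, inn D v ≤ k) →
  (∀ r, r + (2 * m + 1) < M * (2 * m + 1) →
    ((Icc 1 (2 * m + 1)).filter fun d => D (P r) (P (r + d)) = 0).card ≤ e) →
  (∀ r, 2 * m + 1 ≤ r → r < M * (2 * m + 1) →
    ((Icc 1 (2 * m + 1)).filter fun d => D (P (r - d)) (P r) = 0).card ≤ e) →
  Flow D b a → (∀ i, pos (b i) < 2 * (2 * m + 1)) →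
  (∀ i, M * (2 * m + 1) ≤ pos (a i) + 2 * (2 * m + 1)) →
  Imm D (∑ i, E' (b i) (a i))

end Pool.Agent.MP_2634a8_co.X.RL
end

section
namespace Pool.Agent.MP_2634a8_co.X.RL

open Finset

variable {V : Type} [Fintype V] [DecidableEq V]

/-- the two-paths from port `r` to port `r + c` with first length in `L r` -/
def lk (P : ℕ → V) (L : ℕ → Finset ℕ) (c r : ℕ) : Mat V :=
  ∑ l ∈ L r, (E (P r) (P (r + l)) + E (P (r + l)) (P (r + c)))

/-- all links that start in the blocks `a, ..., b - 1` -/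
def ch (P : ℕ → V) (L : ℕ → Finset ℕ) (c a b : ℕ) : Mat V :=
  ∑ r ∈ Ico (a * c) (b * c), lk P L c r

def dl {c : ℕ} (s s' : Fin c) : ℕ := if s ≤ s' then s' - s else c + s' - s

def Av (L : ℕ → Finset ℕ) (c j : ℕ) (s s' : Fin c) : Prop :=
  dl s s' ∈ L (j * c + s) ∨ dl s' s ∈ L (j * c + s')

omit [Fintype V] in
lemma ch_add (P : ℕ → V) (L : ℕ → Finset ℕ) (c : ℕ) {a b d : ℕ} (h : a ≤ b) (h' : b ≤ d) :
    ch P L c a d = ch P L c a b + ch P L c b d :=
  (sum_Ico_consecutive _ (Nat.mul_le_mul_right c h) (Nat.mul_le_mul_right c h')).symm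

omit [Fintype V] in
lemma ch_one (P : ℕ → V) (L : ℕ → Finset ℕ) (c j : ℕ) :
    ch P L c j (j + 1) = ∑ s : Fin c, lk P L c (j * c + s) := by
  rw [ch, sum_Ico_eq_sum_range, add_mul, one_mul, Nat.add_sub_cancel_left,
    Fin.sum_univ_eq_sum_range (fun s => lk P L c (j * c + s))]

lemma imm_x1 (a b y v a' : V) : Imm ((E a v + E v a') + (E b y + E y v)) (E a v + E b a') := by
  have h : (E a v + E v a') + (E b y + E y v) = E a v + ((E b y + E y v) + E v a') := by abel
  rw [h]
  exact (Imm.refl _).add (((imm_EE _ _ _).add (Imm.refl _)).trans (imm_EE _ _ _))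

lemma imm_x0 (a b y b' a' : V) : Imm ((E a b + E b a') + (E b y + E y b')) (E a b' + E b a') := by
  have h : (E a b + E b a') + (E b y + E y b') = (E a b + (E b y + E y b')) + E b a' := by abel
  rw [h]
  exact (((Imm.refl _).add (imm_EE _ _ _)).trans (imm_EE _ _ _)).add (Imm.refl _)

lemma period {T : Type} [Fintype T] [DecidableEq T] (P : ℕ → V) (L : ℕ → Finset ℕ)
    {c μ j : ℕ} (hL : ∀ s : Fin c, (L (j * c + s)).card = μ)
    (hL1 : ∀ r, ∀ l ∈ L r, 2 * l < c) (x : T → Fin c) (ρ : Equiv.Perm T)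
    (hx : ∀ s, #{τ | x τ = s} = μ) (hs : Step (Av L c j) x ρ) :
    Imm (ch P L c j (j + 1)) (∑ τ, E (P (j * c + x τ)) (P ((j + 1) * c + x (ρ τ)))) := by
  classical
  obtain ⟨h1, h2, h3⟩ := hs
  let sp : T → Prop := fun τ => x (ρ τ) ≠ x τ ∧ dl (x τ) (x (ρ τ)) ∈ L (j * c + x τ)
  have hg : ∀ s : Fin c, ∃ g : {τ // x τ = s} ≃ L (j * c + s),
      ∀ τ : {τ // x τ = s}, sp τ → (g τ : ℕ) = dl (x τ) (x (ρ τ)) := by
    intro s
    refine Set.MapsTo.exists_equiv_extend_of_card_eq (s := {τ : {τ // x τ = s} | sp τ})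
      (f := fun τ => dl (x τ) (x (ρ τ))) (by rw [Fintype.card_subtype, hx, hL]) ?_ ?_
    · rintro ⟨τ, rfl⟩ h
      exact h.2
    · rintro ⟨τ, rfl⟩ h ⟨τ', h'⟩ - he
      refine Subtype.ext (h3 τ τ' h.1 h'.symm (Fin.ext ?_))
      have := (x τ).2; have := (x (ρ τ)).2; have := (x (ρ τ')).2
      simp only [dl, h', Fin.le_def] at he
      split_ifs at he <;> omega
  choose g hg using hg
  let len : T → ℕ := fun τ => g (x τ) ⟨τ, rfl⟩
  let f : T → Mat V := fun τ => E (P (j * c + x τ)) (P (j * c + x τ + len τ)) +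
    E (P (j * c + x τ + len τ)) (P (j * c + x τ + c))
  have e1 : ch P L c j (j + 1) = ∑ τ, f τ := by
    rw [ch_one, ← Fintype.sum_fiberwise x f]
    refine sum_congr rfl fun s _ => ?_
    rw [lk, ← sum_coe_sort, ← Equiv.sum_comp (g s)]
    refine sum_congr rfl ?_
    rintro ⟨τ, rfl⟩ -
    rfl
  let f' : T → Mat V := fun τ => E (P (j * c + x τ)) (P ((j + 1) * c + x (ρ τ)))
  have hex : ∀ τ, sp τ → ¬ sp (ρ τ) := by
    rintro τ ⟨a1, a2⟩ ⟨-, a3⟩
    rw [h1] at a3
    have b1 := hL1 _ _ a2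
    have b2 := hL1 _ _ a3
    have := (x τ).2; have := (x (ρ τ)).2
    have : (x (ρ τ) : ℕ) ≠ x τ := fun h => a1 (Fin.ext h)
    simp only [dl, Fin.le_def] at b1 b2
    split_ifs at b1 b2 <;> omega
  have key : ∀ F : T → Mat V, ∑ τ, F τ =
      ∑ τ, (if sp τ then F τ + F (ρ τ) else if sp (ρ τ) then 0 else F τ) := by
    intro F
    have e2 : ∑ τ, (if sp τ then F (ρ τ) else 0) = ∑ τ, (if sp (ρ τ) then F τ else 0) := by
      rw [← Equiv.sum_comp ρ]
      simp only [h1]
    have e3 : ∀ τ, (if sp τ then F τ + F (ρ τ) else if sp (ρ τ) then 0 else F τ) +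
        (if sp (ρ τ) then F τ else 0) = F τ + (if sp τ then F (ρ τ) else 0) := by
      intro τ
      by_cases a : sp τ
      · simp [a, hex τ a]
      · by_cases b : sp (ρ τ) <;> simp [a, b]
    have e4 := sum_congr rfl fun τ (_ : τ ∈ univ) => e3 τ
    rw [sum_add_distrib, sum_add_distrib, e2] at e4
    exact (add_right_cancel e4).symm
  rw [e1, key f, key f']
  refine Imm.sum _ fun τ _ => ?_
  have e5 : ∀ s : ℕ, j * c + s + c = (j + 1) * c + s := fun s => by ring
  by_cases a : sp τ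
  · rw [if_pos a, if_pos a]
    have b : len τ = dl (x τ) (x (ρ τ)) := hg (x τ) ⟨τ, rfl⟩ a
    simp only [f, f', h1, b, e5]
    have := (x τ).2; have := (x (ρ τ)).2
    by_cases d : x τ ≤ x (ρ τ)
    · have : j * c + x τ + dl (x τ) (x (ρ τ)) = j * c + x (ρ τ) := by
        simp only [dl, if_pos d]; rw [Fin.le_def] at d; omega
      rw [this]
      exact imm_x0 _ _ _ _ _
    · have : j * c + x τ + dl (x τ) (x (ρ τ)) = (j + 1) * c + x (ρ τ) := by
        simp only [dl, if_neg d]; rw [← e5]; omega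
      rw [this]
      exact imm_x1 _ _ _ _ _
  · rw [if_neg a, if_neg a]
    by_cases b : sp (ρ τ)
    · rw [if_pos b, if_pos b]
      exact Imm.refl _
    · rw [if_neg b, if_neg b]
      have d : x (ρ τ) = x τ := by
        by_contra d
        rcases h2 τ d with h | h
        · exact a ⟨d, h⟩
        · exact b ⟨by rw [h1]; exact fun h => d h.symm, by rw [h1]; exact h⟩
      simp only [f, f', d, e5]
      exact imm_EE _ _ _

lemma reach_imm {T : Type} [Fintype T] [DecidableEq T] (P : ℕ → V) (L : ℕ → Finset ℕ)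
    {c μ : ℕ} (A : ℕ → Fin c → Fin c → Prop)
    (hL1 : ∀ r, ∀ l ∈ L r, 2 * l < c) {a b : ℕ} {x y : T → Fin c}
    (h : Reach A a b x y) : (∀ s, #{τ | x τ = s} = μ) →
    (∀ j < b, a ≤ j → A j = Av L c j ∧ ∀ s : Fin c, (L (j * c + s)).card = μ) →
    a ≤ b ∧ (∀ s, #{τ | y τ = s} = μ) ∧ Imm (ch P L c a b)
      (∑ τ, E' (P (a * c + x τ)) (P (b * c + y τ))) := by
  induction h with
  | refl => exact fun hx _ => ⟨le_rfl, hx, by simpa only [E'_self, sum_const_zero] using Imm.of_le zero_le⟩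
  | @step b x y ρ _ hs ih =>
    intro hx hA
    obtain ⟨i1, i2, i3⟩ := ih hx fun j hj => hA j (by omega)
    obtain ⟨j1, j2⟩ := hA b (by omega) i1
    refine ⟨by omega, fun s => ?_, ?_⟩
    · rw [← i2 s]
      exact card_equiv ρ (by simp only [Function.comp_apply, mem_filter, mem_univ, true_and, implies_true])
    · rw [ch_add P L _ i1 (Nat.le_succ b)]
      refine (i3.add (period P L j2 hL1 y ρ i2 (j1 ▸ hs))).trans ?_
      rw [← sum_add_distrib]
      exact Imm.sum _ fun τ _ => (imm_E'E _ _ _).trans (Imm.of_le (E'_le _ _))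

end Pool.Agent.MP_2634a8_co.X.RL
end

section
namespace Pool.Agent.MP_2634a8_co.X.RL

open Finset Sum

variable {V : Type} [Fintype V] [DecidableEq V]

lemma exists_swap {T A : Type} (f : A → T) (hf : Function.Injective f) :
    ∃ ψ : Equiv.Perm (T ⊕ A), (∀ u, ψ (inr u) = inl (f u)) ∧ (∀ u, ψ (inl (f u)) = inr u) ∧
      ∀ τ, (∀ u, f u ≠ τ) → ψ (inl τ) = inl τ := by
  classical
  let g : T ⊕ A → T ⊕ A :=
    Sum.elim (fun τ => if h : ∃ u, f u = τ then inr h.choose else inl τ) fun u => inl (f u)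
  have g1 : ∀ u, g (inl (f u)) = inr u := fun u => by
    have h : ∃ v, f v = f u := ⟨u, rfl⟩
    simp only [g, elim_inl, dif_pos h, hf h.choose_spec]
  have g2 : ∀ τ, (∀ u, f u ≠ τ) → g (inl τ) = inl τ := fun τ h => by
    have h' : ¬ ∃ u, f u = τ := fun ⟨u, hu⟩ => h u hu
    simp only [g, elim_inl, dif_neg h']
  have g3 : Function.Involutive g := by
    rintro (τ | u)
    · by_cases h : ∃ u, f u = τ
      · obtain ⟨u, rfl⟩ := h
        rw [g1]; rfl
      · have h' : ∀ u, f u ≠ τ := fun u hu => h ⟨u, hu⟩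
        rw [g2 τ h', g2 τ h']
    · exact g1 u
  exact ⟨g3.toPerm, fun _ => rfl, g1, g2⟩

lemma grp {T A A' : Type} [Fintype T] [Fintype A] [Fintype A'] (Θ : T ⊕ A ≃ T ⊕ A')
    (β : A ≃ A') (f0 : A → T) (f1 : A' → T) (h0 : Function.Injective f0)
    (h1 : Function.Injective f1) (hc : 2 * Fintype.card A ≤ Fintype.card T)
    (ψ0 : Equiv.Perm (T ⊕ A)) (ψ1 : Equiv.Perm (T ⊕ A')) (a0 : ∀ u, ψ0 (inl (f0 u)) = inr u)
    (a1 : ∀ u, ψ1 (inl (f1 u)) = inr u) :
    ∃ π0 πa πb : Equiv.Perm T, ∀ u, Equiv.sumCongr πb (Equiv.refl A')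
      (ψ1 (Equiv.sumCongr πa β (ψ0 (Equiv.sumCongr π0 (Equiv.refl A) u)))) = Θ u := by
  classical
  have c1 : Fintype.card {τ : T // ¬ ∃ t, Θ (inl τ) = inl t} ≤ Fintype.card A' := by
    have : ∀ τ : {τ : T // ¬ ∃ t, Θ (inl τ) = inl t}, ∃ u, Θ (inl τ) = inr u := by
      rintro ⟨τ, h⟩
      rcases h' : Θ (inl τ) with t | u
      · exact absurd ⟨t, h'⟩ h
      · exact ⟨u, rfl⟩
    choose g hg using this
    refine Fintype.card_le_of_injective g fun τ τ' h => Subtype.ext ?_
    exact inl_injective (Θ.injective (by rw [hg, hg, h]))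
  have c2 : Fintype.card A ≤ Fintype.card {τ : T // ∃ t, Θ (inl τ) = inl t} := by
    have := Fintype.card_subtype_compl fun τ : T => ∃ t, Θ (inl τ) = inl t
    have := Fintype.card_congr β
    have := Fintype.card_subtype_le fun τ : T => ∃ t, Θ (inl τ) = inl t
    omega
  obtain ⟨r⟩ := Function.Embedding.nonempty_of_card_le c2
  obtain ⟨π0, p0⟩ := Equiv.Perm.exists_extending_pair (fun u => (r u : T)) f0
    (Subtype.val_injective.comp r.injective) h0
  let Φ0 : Equiv.Perm (T ⊕ A) := (Equiv.sumCongr π0 (Equiv.refl A)).trans ψ0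
  have b0 : ∀ u, Φ0 (inl (r u)) = inr u := fun u => by simp [Φ0, p0, a0]
  have : ∀ u' : A', ∃ τ, Φ0 (Θ.symm (inr u')) = inl τ := by
    intro u'
    rcases h : Φ0 (Θ.symm (inr u')) with τ | u
    · exact ⟨τ, rfl⟩
    · obtain ⟨t, ht⟩ := (r u).2
      rw [← b0 u] at h
      rw [← Φ0.injective h] at ht
      simp at ht
  choose g hg using this
  have g1 : Function.Injective g := fun u u' h =>
    inr_injective (Θ.symm.injective (Φ0.injective (by rw [hg, hg, h])))
  obtain ⟨πa, pa⟩ := Equiv.Perm.exists_extending_pair g f1 g1 h1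
  let Φ1 : T ⊕ A ≃ T ⊕ A' := (Φ0.trans (Equiv.sumCongr πa β)).trans ψ1
  have b1 : ∀ u', Φ1 (Θ.symm (inr u')) = inr u' := fun u' => by simp [Φ1, hg, pa, a1]
  let σ : Equiv.Perm (T ⊕ A') := Φ1.symm.trans Θ
  have s1 : ∀ u', σ (inr u') = inr u' := fun u' => by
    simp only [σ, Equiv.trans_apply]
    conv_lhs => rw [← b1 u']
    simp
  have s2 : ∀ τ, ∃ t, σ (inl τ) = inl t := by
    intro τ
    rcases h : σ (inl τ) with t | u
    · exact ⟨t, rfl⟩
    · rw [← s1 u] at h
      simpa only [reduceCtorEq, exists_false] using σ.injective h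
  choose p hp using s2
  have p1 : Function.Injective p := fun τ τ' h =>
    inl_injective (σ.injective (by rw [hp, hp, h]))
  refine ⟨π0, πa, Equiv.ofBijective p (Finite.injective_iff_bijective.1 p1), fun u => ?_⟩
  have e : ∀ z, Equiv.sumCongr (Equiv.ofBijective p (Finite.injective_iff_bijective.1 p1))
      (Equiv.refl A') z = σ z := by
    rintro (τ | u')
    · simp [hp]
    · simp [s1]
  rw [e]
  exact congrArg Θ (Φ1.symm_apply_apply u)

omit [Fintype V] in
lemma cnt_elim {T A : Type} [Fintype T] [Fintype A] (p : T → V) (q : A → V) (v : V) :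
    cnt (Sum.elim p q) v = cnt p v + cnt q v := by
  rw [cnt_eq, cnt_eq, cnt_eq, Fintype.sum_sum_type]
  rfl

lemma linkF {T T' : Type} [Fintype T] [DecidableEq T] [Fintype T'] (N : Mat V) (p : T → V)
    (q : T' → V) (h : ∀ v, out N v + cnt q v = inn N v + cnt p v) :
    ∃ e : T ≃ T', Imm N (∑ i, E' (p i) (q (e i))) := by
  have h1 : ∑ v, cnt p v = Fintype.card T :=
    (card_eq_sum_card_fiberwise (s := univ) (t := univ) (f := p) fun _ _ => mem_univ _).symm
  have h2 : ∑ v, cnt q v = Fintype.card T' :=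
    (card_eq_sum_card_fiberwise (s := univ) (t := univ) (f := q) fun _ _ => mem_univ _).symm
  have h3 := sum_congr rfl fun v (_ : v ∈ univ) => h v
  rw [sum_add_distrib, sum_add_distrib, h1, h2, ← size_eq_inn] at h3
  let e0 : T ≃ T' := Fintype.equivOfCardEq (by unfold size at h3; omega)
  have h4 : Flow N p (q ∘ e0) := fun v => by
    have : cnt (q ∘ e0) v = cnt q v := card_equiv e0 (by simp only [Function.comp_apply, mem_filter, mem_univ, true_and, implies_true])
    rw [this, h v]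
  obtain ⟨b, hb⟩ := link _ _ N p rfl h4
  exact ⟨b.trans e0, hb⟩

lemma comp {U U' : Type} [Fintype U] [Fintype U'] (x y : U → V) (y' z : U' → V) (ψ : U ≃ U')
    (h : ∀ u, y' (ψ u) = y u) :
    Imm (∑ u, E' (x u) (y u) + ∑ u, E' (y' u) (z u)) (∑ u, E' (x u) (z (ψ u))) := by
  rw [← Equiv.sum_comp ψ fun u => E' (y' u) (z u), ← sum_add_distrib]
  exact Imm.sum _ fun u _ => by rw [h]; exact imm_E'E' _ _ _

lemma cut (N : Mat V) (pos : V → ℕ) (hN : ∀ u v, N u v ≠ 0 → pos u < pos v) (th : ℕ) :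
    ∃ (N0 N1 : Mat V) (y : ℕ) (w : Fin y → V), N = N0 + N1 ∧ (∀ v, cnt w v ≤ inn N v) ∧
      (∀ i, th ≤ pos (w i) ∧ ∃ u, pos u < th ∧ N u (w i) ≠ 0) ∧
      (∀ v, pos v < th → out N1 v = 0 ∧ inn N1 v = 0 ∧ cnt w v = 0) ∧
      ∀ v, th ≤ pos v → out N0 v = 0 ∧ inn N0 v = cnt w v := by
  obtain ⟨u, w, e⟩ := enum _ (part N fun a b => pos a < th ∧ th ≤ pos b) rfl
  have c : ∀ v, cnt w v = inn (part N fun a b => pos a < th ∧ th ≤ pos b) v := fun v => by
    conv_rhs => rw [e]
    rw [inn_sum, cnt_eq]; simp only [inn_E]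
  refine ⟨part N fun a _ => pos a < th, part N fun a _ => ¬ pos a < th, _, w, ?_, fun v => ?_,
    fun i => ?_, fun v hv => ⟨?_, ?_, ?_⟩, fun v hv => ⟨?_, ?_⟩⟩
  · funext a b
    by_cases h : pos a < th <;> simp [part, h]
  · rw [c]
    exact sum_le_sum fun a _ => by unfold part; split_ifs <;> omega
  · have : (part N fun a b => pos a < th ∧ th ≤ pos b) (u i) (w i) ≠ 0 := by
      conv_lhs => rw [e]
      exact sum_E_ne_zero.2 ⟨i, mem_univ _, rfl, rfl⟩
    obtain ⟨⟨h1, h2⟩, h3⟩ := part_ne_zero.1 this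
    exact ⟨h2, u i, h1, h3⟩
  · simp only [out, part, hv, not_true_eq_false, ↓ reduceIte, sum_const_zero]
  · refine sum_eq_zero fun a _ => ?_
    by_contra h
    obtain ⟨h1, h2⟩ := part_ne_zero.1 h
    have := hN _ _ h2
    omega
  · rw [c]
    simp only [inn, part, not_le.2 hv, and_false, ↓ reduceIte, sum_const_zero]
  · simp only [out, part, not_lt.2 hv, ↓ reduceIte, sum_const_zero]
  · rw [c]
    simp only [inn, part, hv, and_true]

/-- the hub of a slot at time `j` -/
def hb (P : ℕ → V) (c μ j : ℕ) (τ : Fin c × Fin μ) : V := P (j * c + τ.1)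

lemma fib (c μ : ℕ) (s : Fin c) : #{τ : Fin c × Fin μ | τ.1 = s} = μ := by
  have : ({τ : Fin c × Fin μ | τ.1 = s} : Finset _) = {s} ×ˢ univ := by
    ext τ; simp only [mem_filter, mem_univ, true_and, mem_product, mem_singleton, and_true]
  rw [this]; simp only [singleton_product, card_map, card_univ, Fintype.card_fin]

lemma straight (P : ℕ → V) (L : ℕ → Finset ℕ) {c μ j : ℕ}
    (hL : ∀ s : Fin c, (L (j * c + s)).card = μ) (hL1 : ∀ r, ∀ l ∈ L r, 2 * l < c) :
    Imm (ch P L c j (j + 1)) (∑ τ, E (hb P c μ j τ) (hb P c μ (j + 1) τ)) :=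
  period P L hL hL1 Prod.fst 1 (fib c μ) ⟨fun _ => rfl, fun _ h => absurd rfl h,
    fun _ _ h => absurd rfl h⟩

lemma zone (P : ℕ → V) (L : ℕ → Finset ℕ) {c μ j : ℕ}
    (hL : ∀ s : Fin c, (L (j * c + s)).card = μ)
    (hL' : ∀ s : Fin c, (L ((j + 1) * c + s)).card = μ) (hL1 : ∀ r, ∀ l ∈ L r, 2 * l < c)
    (w : Fin c × Fin μ → V) (hw : ∀ τ, w τ = hb P c μ j τ ∨ w τ = hb P c μ (j + 1) τ) :
    Imm (ch P L c j (j + 2))
      (∑ τ, E' (hb P c μ j τ) (w τ) + ∑ τ, E' (w τ) (hb P c μ (j + 2) τ)) := by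
  rw [ch_add P L c (Nat.le_succ j) (Nat.le_succ (j + 1))]
  refine ((straight P L hL hL1).add (straight P L hL' hL1)).trans ?_
  rw [← sum_add_distrib, ← sum_add_distrib]
  refine Imm.sum _ fun τ _ => ?_
  rcases hw τ with h | h <;> rw [h]
  · rw [E'_self, zero_add]
    exact (imm_EE _ _ _).trans (Imm.of_le (E'_le _ _))
  · exact Imm.of_le (add_le_add (E'_le _ _) (E'_le _ _))

lemma ch_flow (P : ℕ → V) (L : ℕ → Finset ℕ) {c μ a : ℕ} : ∀ b, a ≤ b →
    (∀ j < b, a ≤ j → ∀ s : Fin c, (L (j * c + s)).card = μ) → ∀ v,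
    out (ch P L c a b) v + cnt (hb P c μ b) v = inn (ch P L c a b) v + cnt (hb P c μ a) v := by
  intro b hb'
  induction hb' with
  | refl => intro _ v; simp only [out, ch, Std.le_refl, Ico_eq_empty_of_le, Finset.sum_apply, sum_empty, sum_const_zero, zero_add, inn]
  | @step b h ih =>
    intro hL v
    have i1 := ih (fun j hj => hL j (by omega)) v
    have c1 : ∀ j, cnt (hb P c μ j) v = ∑ s : Fin c, μ * if v = P (j * c + s) then 1 else 0 := by
      intro j
      rw [cnt_eq, Fintype.sum_prod_type]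
      refine sum_congr rfl fun s _ => ?_
      show (∑ _y : Fin μ, if v = P (j * c + s) then 1 else 0) = _
      rw [sum_const, card_univ, Fintype.card_fin, smul_eq_mul]
    have i2 : out (ch P L c b (b + 1)) v + cnt (hb P c μ (b + 1)) v =
        inn (ch P L c b (b + 1)) v + cnt (hb P c μ b) v := by
      rw [ch_one, c1, c1, out_sum, inn_sum, ← sum_add_distrib, ← sum_add_distrib]
      refine sum_congr rfl fun s _ => ?_
      have e : (b + 1) * c + s = b * c + s + c := by ring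
      rw [lk, out_sum, inn_sum, e, ← hL b (Nat.lt_succ_self b) h s]
      simp only [out_add, inn_add, out_E, inn_E, sum_add_distrib, sum_const, smul_eq_mul]
      omega
    rw [ch_add P L c h (Nat.le_succ b), out_add, inn_add]
    have e : b.succ = b + 1 := rfl
    rw [e]
    omega

end Pool.Agent.MP_2634a8_co.X.RL
end

section
namespace Pool.Agent.MP_2634a8_co.X.RL

open Finset Sum

variable {V : Type} [Fintype V] [DecidableEq V]

def good (D : Mat V) (P : ℕ → V) (c r l : ℕ) : Prop :=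
  D (P r) (P (r + l)) ≠ 0 ∧ D (P (r + l)) (P (r + c)) ≠ 0

instance (D : Mat V) (P : ℕ → V) (c r l : ℕ) : Decidable (good D P c r l) := by
  unfold good; infer_instance

omit [Fintype V] [DecidableEq V] in
lemma bad_le {m e : ℕ} (p : ℕ → Prop) [DecidablePred p] {A B : Finset ℕ} (hA : #A ≤ e)
    (hB : #B ≤ e) (h : ∀ l, 1 ≤ l → l ≤ m → p l → l ∈ A ∨ 2 * m + 1 - l ∈ B) :
    #((Icc 1 m).filter p) ≤ 2 * e := by
  have : (Icc 1 m).filter p ⊆ A ∪ B.image fun d => 2 * m + 1 - d := by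
    intro l hl
    obtain ⟨h1, h2⟩ := mem_filter.1 hl
    rw [mem_Icc] at h1
    rcases h l h1.1 h1.2 h2 with h | h
    · exact mem_union_left _ h
    · exact mem_union_right _ (mem_image.2 ⟨_, h, by omega⟩)
  have := (card_le_card this).trans (card_union_le _ _)
  have := card_image_le (s := B) (f := fun d => 2 * m + 1 - d)
  omega

lemma sum_le_one {ι : Type} (s : Finset ι) (f : ι → ℕ) (h1 : ∀ i ∈ s, f i ≤ 1)
    (h2 : ∀ i ∈ s, ∀ j ∈ s, f i ≠ 0 → f j ≠ 0 → i = j) : ∑ i ∈ s, f i ≤ 1 := by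
  by_cases h : ∃ i ∈ s, f i ≠ 0
  · obtain ⟨i, hi, h⟩ := h
    rw [sum_eq_single_of_mem i hi fun j hj hne => by
      by_contra h'; exact hne (h2 j hj i hi h' h)]
    exact h1 i hi
  · push Not at h
    rw [sum_eq_zero h]; omega

omit [Fintype V] in
lemma ch_le (D : Mat V) (P : ℕ → V) (pos : V → ℕ) (L : ℕ → Finset ℕ) {c a b : ℕ}
    (hp : ∀ r < (b + 1) * c, pos (P r) = r)
    (hL : ∀ r, ∀ l ∈ L r, 1 ≤ l ∧ 2 * l < c ∧ good D P c r l) : ch P L c a b ≤ D := by
  intro x y
  have e : (b + 1) * c = b * c + c := by ring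
  simp only [ch, lk, Finset.sum_apply, Pi.add_apply]
  rw [sum_sigma']
  have key : ∀ z ∈ (Ico (a * c) (b * c)).sigma L,
      E (P z.1) (P (z.1 + z.2)) x y + E (P (z.1 + z.2)) (P (z.1 + c)) x y ≠ 0 → D x y ≠ 0 ∧
      ((pos x = z.1 ∧ pos y = z.1 + z.2) ∨ (pos x = z.1 + z.2 ∧ pos y = z.1 + c)) := by
    rintro ⟨r, l⟩ hz h
    obtain ⟨h1, h2⟩ := mem_sigma.1 hz
    obtain ⟨h3, h4, h5, h6⟩ := hL _ _ h2
    have h7 := (mem_Ico.1 h1).2
    dsimp only at *
    by_cases h' : E (P r) (P (r + l)) x y = 0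
    · obtain ⟨rfl, rfl⟩ := E_ne_zero.1 (by omega : E (P (r + l)) (P (r + c)) x y ≠ 0)
      exact ⟨h6, Or.inr ⟨hp _ (by omega), hp _ (by omega)⟩⟩
    · obtain ⟨rfl, rfl⟩ := E_ne_zero.1 h'
      exact ⟨h5, Or.inl ⟨hp _ (by omega), hp _ (by omega)⟩⟩
  by_cases h0 : D x y = 0
  · rw [sum_eq_zero fun z hz => by by_contra h; exact (key z hz h).1 h0]
    omega
  · refine (sum_le_one _ _ ?_ ?_).trans (by omega)
    · rintro ⟨r, l⟩ hz
      obtain ⟨h1, h2⟩ := mem_sigma.1 hz
      obtain ⟨h3, h4, -⟩ := hL _ _ h2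
      have h7 := (mem_Ico.1 h1).2
      dsimp only at *
      unfold E
      split_ifs with p q q
      · have := congrArg pos (p.1.symm.trans q.1)
        rw [hp _ (by omega), hp _ (by omega)] at this
        omega
      all_goals omega
    · rintro ⟨r, l⟩ hz ⟨r', l'⟩ hz' h h'
      have k1 := (key _ hz h).2
      have k2 := (key _ hz' h').2
      obtain ⟨h3, h4, -⟩ := hL _ _ (mem_sigma.1 hz).2
      obtain ⟨h5, h6, -⟩ := hL _ _ (mem_sigma.1 hz').2
      dsimp only at *
      obtain ⟨rfl, rfl⟩ : r = r' ∧ l = l' := by omega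
      rfl

lemma inn_ch (P : ℕ → V) (L : ℕ → Finset ℕ) {c a b r : ℕ} (G : Finset ℕ) (h1 : a * c + c ≤ r)
    (h2 : r < b * c) (hc : 0 < c) (hG : ∀ l ∈ G, 1 ≤ l ∧ l ≤ c ∧ l ∈ L (r - l)) :
    #G + #(L (r - c)) ≤ inn (ch P L c a b) (P r) := by
  simp only [ch, lk, inn_sum, inn_add, inn_E, sum_add_distrib]
  refine add_le_add ?_ ?_
  · have s1 : G.image (fun l => r - l) ⊆ Ico (a * c) (b * c) := by
      intro x hx
      obtain ⟨l, hl, rfl⟩ := mem_image.1 hx
      have := hG l hl
      rw [mem_Ico]; omega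
    refine le_trans ?_ (sum_le_sum_of_subset s1)
    rw [sum_image fun l hl l' hl' h => by
      have := hG l hl; have := hG l' hl'; omega, card_eq_sum_ones]
    refine sum_le_sum fun l hl => ?_
    obtain ⟨a1, a2, a3⟩ := hG l hl
    refine le_trans ?_ (single_le_sum (fun _ _ => Nat.zero_le _) a3)
    rw [if_pos (by congr 1; omega)]
  · refine le_trans ?_ (single_le_sum (f := fun r' => ∑ _l ∈ L r', if P r = P (r' + c) then 1 else 0)
      (fun _ _ => Nat.zero_le _) (a := r - c) (by rw [mem_Ico]; omega))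
    rw [if_pos (by congr 1; omega), ← card_eq_sum_ones]

omit [Fintype V] in
lemma touch (P : ℕ → V) (pos : V → ℕ) {c μ j y d : ℕ} (w : Fin y → V)
    (hd : 4 * d ≤ μ) (h1 : ∀ i, j * c ≤ pos (w i) ∧ pos (w i) < j * c + 2 * c ∧ P (pos (w i)) = w i)
    (h2 : ∀ r, j * c ≤ r → r < j * c + 2 * c → cnt w (P r) ≤ d) :
    ∃ (f : Fin y → Fin c × Fin μ) (W : Fin c × Fin μ → V) (ψ : Equiv.Perm (_ ⊕ Fin y)),
      Function.Injective f ∧ (∀ u, ψ (inl (f u)) = inr u) ∧
      (∀ u, Sum.elim W w (ψ u) = Sum.elim W w u) ∧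
      (∀ τ, W τ = hb P c μ j τ ∨ W τ = hb P c μ (j + 1) τ) ∧
      2 * Fintype.card (Fin y) ≤ Fintype.card (Fin c × Fin μ) := by
  classical
  have e : (j + 1) * c = j * c + c := by ring
  have : ∀ i, ∃ s : Fin c, w i = P (j * c + s) ∨ w i = P ((j + 1) * c + s) := by
    intro i
    obtain ⟨a1, a2, a3⟩ := h1 i
    by_cases h : pos (w i) < j * c + c
    · exact ⟨⟨pos (w i) - j * c, by omega⟩, Or.inl (a3.symm.trans (by congr 1; simp only; omega))⟩
    · exact ⟨⟨pos (w i) - (j * c + c), by omega⟩,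
        Or.inr (a3.symm.trans (by congr 1; simp only; omega))⟩
  choose cl hcl using this
  have c1 : ∀ s, #{i | cl i = s} ≤ 2 * d := by
    intro s
    have s1 : ({i | cl i = s} : Finset _) ⊆ (univ.filter fun i => w i = P (j * c + s)) ∪
        univ.filter fun i => w i = P ((j + 1) * c + s) := by
      intro i hi
      have := hcl i
      rw [(mem_filter.1 hi).2] at this
      simpa only [mem_union, mem_filter, mem_univ, true_and] using this
    have := (card_le_card s1).trans (card_union_le _ _)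
    have b1 := h2 (j * c + s) (by omega) (by have := s.2; omega)
    have b2 := h2 ((j + 1) * c + s) (by omega) (by have := s.2; omega)
    unfold cnt at b1 b2
    omega
  have : ∀ s, Nonempty ({i // cl i = s} ↪ Fin μ) := fun s =>
    Function.Embedding.nonempty_of_card_le (by
      rw [Fintype.card_subtype, Fintype.card_fin]; have := c1 s; omega)
  let g : ∀ s, {i // cl i = s} ↪ Fin μ := fun s => (this s).some
  let f : Fin y → Fin c × Fin μ := fun i => (cl i, g (cl i) ⟨i, rfl⟩)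
  have g1 : ∀ s i (h : cl i = s), f i = (s, g s ⟨i, h⟩) := by rintro s i rfl; rfl
  have f1 : Function.Injective f := by
    intro i i' h
    have h' : cl i' = cl i := (congrArg Prod.fst h).symm
    rw [g1 _ i rfl, g1 _ i' h'] at h
    exact congrArg Subtype.val ((g (cl i)).injective (congrArg Prod.snd h))
  obtain ⟨ψ, p1, p2, p3⟩ := exists_swap f f1
  refine ⟨f, Function.extend f w (hb P c μ j), ψ, f1, p2, ?_, fun τ => ?_, ?_⟩
  · rintro (τ | u)
    · by_cases h : ∃ u, f u = τ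
      · obtain ⟨u, rfl⟩ := h
        rw [p2, elim_inr, elim_inl, f1.extend_apply]
      · rw [p3 τ fun u hu => h ⟨u, hu⟩]
    · rw [p1, elim_inr, elim_inl, f1.extend_apply]
  · by_cases h : ∃ u, f u = τ
    · obtain ⟨u, rfl⟩ := h
      rw [f1.extend_apply]
      exact hcl u
    · exact Or.inl (Function.extend_apply' _ _ _ h)
  · rw [← card_univ, card_eq_sum_card_fiberwise (s := univ) (t := univ) (f := cl)
      fun _ _ => mem_univ _, Fintype.card_prod, Fintype.card_fin, Fintype.card_fin, mul_sum]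
    refine (sum_le_card_nsmul _ _ μ fun s _ => ?_).trans (by simp only [card_univ, Fintype.card_fin, smul_eq_mul, Std.le_refl])
    have := c1 s
    omega

omit [Fintype V] [DecidableEq V] in
lemma avail (D : Mat V) (P : ℕ → V) (L : ℕ → Finset ℕ) {m e j : ℕ} (s : Fin (2 * m + 1))
    (hL : ∀ s' : Fin (2 * m + 1), ∀ l, 2 * e < l → l ≤ m →
      good D P (2 * m + 1) (j * (2 * m + 1) + s') l → l ∈ L (j * (2 * m + 1) + s'))
    (b1 : #((Icc 1 m).filter fun l => ¬ good D P (2 * m + 1) (j * (2 * m + 1) + s) l) ≤ 2 * e)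
    (b2 : #((Icc 1 m).filter fun l =>
      ¬ good D P (2 * m + 1) (j * (2 * m + 1) + s - l) l) ≤ 2 * e)
    (b3 : #((Icc 1 m).filter fun l =>
      ¬ good D P (2 * m + 1) (j * (2 * m + 1) + s + (2 * m + 1) - l) l) ≤ 2 * e) :
    ∃ Z : Finset (Fin (2 * m + 1)), #Z ≤ 10 * e + 2 ∧ ∀ s' ∉ Z, Av L (2 * m + 1) j s s' := by
  generalize hA : ((Icc 1 m).filter fun l =>
    ¬ good D P (2 * m + 1) (j * (2 * m + 1) + s) l) = A at b1
  generalize hB : ((Icc 1 m).filter fun l =>
    ¬ good D P (2 * m + 1) (j * (2 * m + 1) + s - l) l) = B at b2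
  generalize hC : ((Icc 1 m).filter fun l =>
    ¬ good D P (2 * m + 1) (j * (2 * m + 1) + s + (2 * m + 1) - l) l) = C at b3
  have hs := s.2
  refine ⟨(univ.filter fun s' => dl s s' ∈ range (2 * e + 1) ∪ A) ∪
    univ.filter fun s' => dl s' s ∈ range (2 * e + 1) ∪ B ∪ C,
    (card_union_le _ _).trans ?_, fun s' h => ?_⟩
  · have c1 : #{s' | dl s s' ∈ range (2 * e + 1) ∪ A} ≤ #(range (2 * e + 1) ∪ A) := by
      refine card_le_card_of_injOn (fun s' => dl s s') (fun x hx => by simpa only [coe_union, coe_range, Set.mem_union, Set.mem_Iio, Order.lt_add_one_iff, SetLike.mem_coe, mem_union, mem_range, coe_filter, mem_univ, true_and, Set.mem_ofPred_eq] using hx) ?_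
      intro x _ z _ h
      have := x.2; have := z.2
      simp only [dl, Fin.le_def] at h
      refine Fin.ext ?_
      split_ifs at h <;> omega
    have c2 : #{s' | dl s' s ∈ range (2 * e + 1) ∪ B ∪ C} ≤ #(range (2 * e + 1) ∪ B ∪ C) := by
      refine card_le_card_of_injOn (fun s' => dl s' s) (fun x hx => by simpa only [union_assoc, coe_union, coe_range, Set.mem_union, Set.mem_Iio, Order.lt_add_one_iff, SetLike.mem_coe, mem_union, mem_range, coe_filter, mem_univ, true_and, Set.mem_ofPred_eq] using hx) ?_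
      intro x _ z _ h
      have := x.2; have := z.2
      simp only [dl, Fin.le_def] at h
      refine Fin.ext ?_
      split_ifs at h <;> omega
    have := card_union_le (range (2 * e + 1)) A
    have := card_union_le (range (2 * e + 1) ∪ B) C
    have := card_union_le (range (2 * e + 1)) B
    rw [card_range] at *
    omega
  · subst hA hB hC
    simp only [mem_union, mem_filter, mem_univ, true_and, mem_range, mem_Icc, not_or, not_and,
      not_not, not_lt, and_imp] at h
    obtain ⟨⟨h1, h2⟩, ⟨h3, h4⟩, h5⟩ := h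
    have hs' := s'.2
    by_cases h : dl s s' ≤ m
    · exact Or.inl (hL s _ h1 h (h2 (by omega) h))
    · have h6 : dl s' s ≤ m := by
        simp only [dl, Fin.le_def] at h h1 ⊢
        split_ifs at h h1 ⊢ <;> omega
      refine Or.inr (hL s' _ h3 h6 ?_)
      by_cases h7 : s' ≤ s
      · have := h4 (by omega) h6
        rwa [(by simp only [dl, if_pos h7]; rw [Fin.le_def] at h7; omega :
          j * (2 * m + 1) + s - dl s' s = j * (2 * m + 1) + s')] at this
      · have := h5 (by omega) h6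
        rwa [(by simp only [dl, if_neg h7]; omega :
          j * (2 * m + 1) + s + (2 * m + 1) - dl s' s = j * (2 * m + 1) + s')] at this

end Pool.Agent.MP_2634a8_co.X.RL
end

section
namespace Pool.Agent.MP_2634a8_co.X.RL

open Finset Sum

variable {V : Type} [Fintype V] [DecidableEq V]

lemma mid {T A A' : Type} [Fintype T] [Fintype A] [Fintype A'] (h0 h1 h2 h3 h4 h5 W0 W1 : T → V)
    (w0 : A → V) (w1 : A' → V) (R0 Z0 Ra Z1 Rb J : Mat V) (β : A ≃ A')
    (r0 : ∀ π : Equiv.Perm T, Imm R0 (∑ τ, E' (h0 τ) (h1 (π τ))))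
    (z0 : Imm Z0 (∑ τ, E' (h1 τ) (W0 τ) + ∑ τ, E' (W0 τ) (h2 τ)))
    (ra : ∀ π : Equiv.Perm T, Imm Ra (∑ τ, E' (h2 τ) (h3 (π τ))))
    (z1 : Imm Z1 (∑ τ, E' (h3 τ) (W1 τ) + ∑ τ, E' (W1 τ) (h4 τ)))
    (rb : ∀ π : Equiv.Perm T, Imm Rb (∑ τ, E' (h4 τ) (h5 (π τ))))
    (j1 : Imm J (∑ u, E' (w0 u) (w1 (β u)))) (f0 : A → T) (f1 : A' → T)
    (i0 : Function.Injective f0) (i1 : Function.Injective f1)
    (hc : 2 * Fintype.card A ≤ Fintype.card T)
    (ψ0 : Equiv.Perm (T ⊕ A)) (ψ1 : Equiv.Perm (T ⊕ A')) (a0 : ∀ u, ψ0 (inl (f0 u)) = inr u)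
    (a1 : ∀ u, ψ1 (inl (f1 u)) = inr u) (b0 : ∀ u, Sum.elim W0 w0 (ψ0 u) = Sum.elim W0 w0 u)
    (b1 : ∀ u, Sum.elim W1 w1 (ψ1 u) = Sum.elim W1 w1 u) (Θ : T ⊕ A ≃ T ⊕ A') :
    Imm (R0 + (Z0 + (Ra + (Z1 + Rb))) + J)
      (∑ u, E' (Sum.elim h0 w0 u) (Sum.elim h5 w1 (Θ u))) := by
  obtain ⟨π0, πa, πb, hπ⟩ := grp Θ β f0 f1 i0 i1 hc ψ0 ψ1 a0 a1
  have k0 : Imm (∑ τ, E' (h0 τ) (h1 (π0 τ)) + ∑ τ, E' (h1 τ) (W0 τ))
      (∑ u, E' (Sum.elim h0 w0 u) (Sum.elim W0 w0 (Equiv.sumCongr π0 (Equiv.refl A) u))) := by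
    simpa only [Equiv.sumCongr_apply, Equiv.coe_refl, Fintype.sum_sum_type, elim_inl, map_inl, elim_inr, map_inr, id_eq, E'_self, sum_const_zero, add_zero] using comp h0 _ h1 W0 π0 fun _ => rfl
  have k1 : Imm (∑ τ, E' (W0 τ) (h2 τ) + ∑ τ, E' (h2 τ) (h3 (πa τ)) + ∑ τ, E' (h3 τ) (W1 τ) +
      ∑ u, E' (w0 u) (w1 (β u)))
      (∑ u, E' (Sum.elim W0 w0 u) (Sum.elim W1 w1 (Equiv.sumCongr πa β u))) := by
    simpa only [Equiv.sumCongr_apply, Fintype.sum_sum_type, elim_inl, map_inl, elim_inr, map_inr] using (((comp W0 h2 h2 (fun τ => h3 (πa τ)) (Equiv.refl T) fun _ => rfl).add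
      (Imm.refl _)).trans (comp W0 _ h3 W1 πa fun _ => rfl)).add (Imm.refl _)
  have k2 : Imm (∑ τ, E' (W1 τ) (h4 τ) + ∑ τ, E' (h4 τ) (h5 (πb τ)))
      (∑ u, E' (Sum.elim W1 w1 u) (Sum.elim h5 w1 (Equiv.sumCongr πb (Equiv.refl A') u))) := by
    simpa only [Equiv.sumCongr_apply, Equiv.coe_refl, Fintype.sum_sum_type, elim_inl, map_inl, elim_inr, map_inr, id_eq, E'_self, sum_const_zero, add_zero, Equiv.refl_apply] using comp W1 h4 h4 (fun τ => h5 (πb τ)) (Equiv.refl T) fun _ => rfl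
  have k3 := ((((k0.add k1).trans (comp _ _ _ _ ((Equiv.sumCongr π0 (Equiv.refl A)).trans ψ0)
    fun u => b0 _)).add k2).trans (comp _ _ _ _ ((((Equiv.sumCongr π0 (Equiv.refl A)).trans
      ψ0).trans (Equiv.sumCongr πa β)).trans ψ1) fun u => b1 _))
  simp only [Equiv.trans_apply, hπ] at k3
  refine (((r0 π0).add (z0.add ((ra πa).add (z1.add (rb πb))))).add j1).trans ?_
  convert k3 using 1
  abel

lemma router {R c μ j : ℕ} (P : ℕ → V) (L : ℕ → Finset ℕ) (A : ℕ → Fin c → Fin c → Prop)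
    (hL1 : ∀ r, ∀ l ∈ L r, 2 * l < c)
    (hA : ∀ i < j + (R + 1), j ≤ i → A i = Av L c i ∧ ∀ s : Fin c, (L (i * c + s)).card = μ)
    (π : Equiv.Perm (Fin c × Fin μ)) (h : Reach A j (j + R) Prod.fst fun τ => (π τ).1) :
    Imm (ch P L c j (j + (R + 1))) (∑ τ, E' (hb P c μ j τ) (hb P c μ (j + (R + 1)) (π τ))) :=
  (reach_imm P L A hL1 (h.step (ρ := 1) ⟨fun _ => rfl, fun _ h => absurd rfl h,
    fun _ _ h => absurd rfl h⟩) (fib c μ) hA).2.2

omit [Fintype V] in
lemma cnt_zero {T : Type} [Fintype T] (p : T → V) (pos : V → ℕ) (v : V)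
    (h : ∀ i, pos (p i) ≠ pos v) : cnt p v = 0 :=
  card_eq_zero.2 (filter_eq_empty_iff.2 fun i _ e => h i (by rw [e]))

omit [Fintype V] [DecidableEq V] in
lemma mkL (D : Mat V) (P : ℕ → V) {m e N : ℕ}
    (ho : ∀ r, r + (2 * m + 1) < N →
      ((Icc 1 (2 * m + 1)).filter fun d => D (P r) (P (r + d)) = 0).card ≤ e)
    (hi : ∀ r, 2 * m + 1 ≤ r → r < N →
      ((Icc 1 (2 * m + 1)).filter fun d => D (P (r - d)) (P r) = 0).card ≤ e) :
    (∀ r, r + (2 * m + 1) < N →
      #((Icc 1 m).filter fun l => ¬ good D P (2 * m + 1) r l) ≤ 2 * e) ∧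
    (∀ r, 2 * m + 1 ≤ r → r + (2 * m + 1) < N →
      #((Icc 1 m).filter fun l => ¬ good D P (2 * m + 1) (r - l) l) ≤ 2 * e) ∧
    ∃ L : ℕ → Finset ℕ, (∀ r, ∀ l ∈ L r, 1 ≤ l ∧ 2 * l < 2 * m + 1 ∧ good D P (2 * m + 1) r l) ∧
      ∀ r, r + (2 * m + 1) < N → #(L r) = m - 2 * e ∧
        ∀ l, 2 * e < l → l ≤ m → good D P (2 * m + 1) r l → l ∈ L r := by
  have b1 : ∀ r, r + (2 * m + 1) < N →
      #((Icc 1 m).filter fun l => ¬ good D P (2 * m + 1) r l) ≤ 2 * e := by
    intro r hr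
    refine bad_le _ (ho r hr) (hi (r + (2 * m + 1)) (by omega) hr) fun l h1 h2 h => ?_
    simp only [good, not_and_or, not_not] at h
    simp only [mem_filter, mem_Icc]
    refine h.imp (fun h => ⟨by omega, h⟩) fun h => ⟨by omega, ?_⟩
    rwa [(by omega : r + (2 * m + 1) - (2 * m + 1 - l) = r + l)]
  refine ⟨b1, fun r h0 hr => ?_, ?_⟩
  · refine bad_le _ (hi r h0 (by omega)) (ho r hr) fun l h1 h2 h => ?_
    simp only [good, not_and_or, not_not] at h
    simp only [mem_filter, mem_Icc]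
    rw [(by omega : r - l + l = r), (by omega : r - l + (2 * m + 1) = r + (2 * m + 1 - l))] at h
    exact h.imp (fun h => ⟨by omega, h⟩) fun h => ⟨by omega, h⟩
  have : ∀ r, ∃ S : Finset ℕ, (∀ l ∈ S, 1 ≤ l ∧ 2 * l < 2 * m + 1 ∧ good D P (2 * m + 1) r l) ∧
      (r + (2 * m + 1) < N → #S = m - 2 * e ∧
        ∀ l, 2 * e < l → l ≤ m → good D P (2 * m + 1) r l → l ∈ S) := by
    intro r
    by_cases hr : r + (2 * m + 1) < N
    · obtain ⟨S, s1, s2, s3⟩ := exists_subsuperset_card_eq (n := m - 2 * e)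
        (s := (Icc (2 * e + 1) m).filter fun l => good D P (2 * m + 1) r l)
        (t := (Icc 1 m).filter fun l => good D P (2 * m + 1) r l)
        (filter_subset_filter _ (Icc_subset_Icc_left (by omega)))
        ((card_filter_le _ _).trans (by rw [Nat.card_Icc]; omega))
        (by
          have := card_filter_add_card_filter_not (s := Icc 1 m)
            fun l => good D P (2 * m + 1) r l
          have := b1 r hr
          rw [Nat.card_Icc] at *
          omega)
      refine ⟨S, fun l hl => ?_, fun _ => ⟨s3, fun l h1 h2 h3 => s1 ?_⟩⟩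
      · obtain ⟨h1, h2⟩ := mem_filter.1 (s2 hl)
        rw [mem_Icc] at h1
        exact ⟨h1.1, by omega, h2⟩
      · exact mem_filter.2 ⟨mem_Icc.2 ⟨h1, h2⟩, h3⟩
    · exact ⟨∅, by simp only [notMem_empty, Order.lt_add_one_iff, Order.lt_two_iff, zero_le, mul_le_mul_iff_right₀, IsEmpty.forall_iff, implies_true], fun h => absurd h hr⟩
  choose L h1 h2 using this
  exact ⟨L, h1, h2⟩

theorem rla (h : SORT_s) : RLA_s := by
  obtain ⟨R, c0, hs⟩ := h
  refine ⟨3 * R + 11, c0 + 3, ?_⟩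
  intro V _ _ D P pos k e m ι _ _ b a he hm hk hp hD h1 hin ho hi hf hb' ha
  obtain ⟨b1, b2, L, hL, hM⟩ := mkL D P ho hi
  clear ho hi
  have hc : ∀ s : Fin (2 * m + 1), (s : ℕ) < 2 * m + 1 := fun s => s.2
  have hj : ∀ i j, i ≤ j → i * (2 * m + 1) ≤ j * (2 * m + 1) := fun i j =>
    Nat.mul_le_mul_right _
  have hj' : ∀ j i, (j + i) * (2 * m + 1) = j * (2 * m + 1) + i * (2 * m + 1) := fun j i =>
    add_mul _ _ _
  have L1 : ∀ r, ∀ l ∈ L r, 2 * l < 2 * m + 1 := fun r l h => (hL r l h).2.1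
  have L2 : ∀ j, j + 2 ≤ 3 * R + 11 → ∀ s : Fin (2 * m + 1),
      #(L (j * (2 * m + 1) + s)) = m - 2 * e := fun j h s =>
    (hM _ (by have := hj _ _ h; have := hj' j 2; have := hc s; omega)).1
  have rt : ∀ j, 1 ≤ j → j + (R + 1) + 2 ≤ 3 * R + 11 → ∀ π : Equiv.Perm _,
      Imm (ch P L (2 * m + 1) j (j + (R + 1))) (∑ τ, E' (hb P (2 * m + 1) (m - 2 * e) j τ)
        (hb P (2 * m + 1) (m - 2 * e) (j + (R + 1)) (π τ))) := by
    intro j j1 j2 π
    refine router P L (fun i s s' => 1 ≤ i ∧ i + 3 ≤ 3 * R + 11 → Av L (2 * m + 1) i s s') L1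
      (fun i i1 i2 => ⟨?_, L2 i (by omega)⟩) π
      (hs _ _ (10 * e + 2) _ (by omega) (by omega) (by omega) (by omega)
        (fun i s s' h h' => (h h').symm) (fun i s => ?_) j π)
    · funext s s'
      exact propext ⟨fun h => h (by omega), fun h _ => h⟩
    · by_cases h : 1 ≤ i ∧ i + 3 ≤ 3 * R + 11
      · have := hj _ _ h.1
        have := hj _ _ h.2
        have := hj' i 3
        have := hc s
        obtain ⟨Z, z1, z2⟩ := avail D P L s (j := i) (e := e)
          (fun s' => (hM _ (by have := hc s'; omega)).2) (b1 _ (by omega))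
          (b2 _ (by omega) (by omega)) (b2 _ (by omega) (by omega))
        exact ⟨Z, z1, fun s' h' _ => z2 s' h'⟩
      · exact ⟨∅, by simp, fun _ _ h' => absurd h' h⟩
  obtain ⟨j0, e0⟩ : ∃ j0, j0 = 2 + (R + 1) := ⟨_, rfl⟩
  obtain ⟨j1, e1⟩ : ∃ j1, j1 = j0 + 2 + (R + 1) := ⟨_, rfl⟩
  obtain ⟨j2, e2⟩ : ∃ j2, j2 = j1 + 2 + (R + 1) := ⟨_, rfl⟩
  have n0 := hj 3 j0 (by omega)
  have n1 := hj (j0 + 2) j1 (by omega)
  have n2 := hj (j1 + 2) j2 (by omega)
  have n3 : (j2 + 2) * (2 * m + 1) = (3 * R + 11) * (2 * m + 1) := by congr 1; omega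
  have n4 := hj' j2 1
  rw [hj'] at n1 n2 n3
  obtain ⟨J, rfl⟩ := exists_add (ch_le D P pos L (a := 2) (b := j2) (fun r h => hp r (by omega)) hL)
  have hJ : ∀ u v, J u v ≠ 0 → pos u < pos v ∧ pos v ≤ pos u + k ∧
      (pos v < (3 * R + 11) * (2 * m + 1) → P (pos v) = v) := fun u v h =>
    hD u v (by simp only [Pi.add_apply]; omega)
  have dJ : ∀ r, j0 * (2 * m + 1) ≤ r → r < j2 * (2 * m + 1) → inn J (P r) ≤ 7 * e + 2 := by
    intro r r1 r2
    have := inn_ch P L (a := 2) (b := j2) (r := r) ((Icc (2 * e + 1) m).filter fun l =>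
      good (J + ch P L (2 * m + 1) 2 j2) P (2 * m + 1) (r - l) l) (by omega) r2 (by omega)
      fun l hl => by
        obtain ⟨h1, h2⟩ := mem_filter.1 hl
        rw [mem_Icc] at h1
        exact ⟨by omega, by omega, (hM _ (by omega)).2 l h1.1 h1.2 h2⟩
    rw [(hM _ (by omega)).1] at this
    have := hin (P r)
    have := card_filter_add_card_filter_not (s := Icc (2 * e + 1) m) fun l =>
      good (J + ch P L (2 * m + 1) 2 j2) P (2 * m + 1) (r - l) l
    have := (card_le_card (filter_subset_filter _ (Icc_subset_Icc_left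
      (by omega : 1 ≤ 2 * e + 1)))).trans (b2 r (by omega) (by omega))
    rw [inn_add, Nat.card_Icc] at *
    omega
  have fl := ch_flow P L (μ := m - 2 * e) (a := 2) j2 (by omega) fun j h _ => L2 j (by omega)
  obtain ⟨J0, J', y0, w0, rfl, c1, c2, c3, c4⟩ :=
    cut J pos (fun u v h => (hJ u v h).1) (j0 * (2 * m + 1))
  have hJ' : ∀ u v, J' u v ≠ 0 → (J0 + J') u v ≠ 0 := fun u v h => by
    simp only [Pi.add_apply]; omega
  obtain ⟨J1, J2, y1, w1, rfl, d1, d2, d3, d4⟩ :=
    cut J' pos (fun u v h => (hJ u v (hJ' u v h)).1) (j1 * (2 * m + 1))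
  obtain ⟨f0, W0, ψ0, p1, p2, p3, p4, p5⟩ := touch P pos (c := 2 * m + 1) (μ := m - 2 * e)
    (j := j0) (d := 7 * e + 2) w0 (by omega) (fun i => by
      obtain ⟨h1, u, h2, h3⟩ := c2 i
      obtain ⟨-, h4, h5⟩ := hJ _ _ h3
      exact ⟨h1, by omega, h5 (by omega)⟩) fun r r1 r2 => (c1 _).trans (dJ r r1 (by omega))
  obtain ⟨f1, W1, ψ1, q1, q2, q3, q4, -⟩ := touch P pos (c := 2 * m + 1) (μ := m - 2 * e)
    (j := j1) (d := 7 * e + 2) w1 (by omega) (fun i => by
      obtain ⟨h1, u, h2, h3⟩ := d2 i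
      obtain ⟨-, h4, h5⟩ := hJ _ _ (hJ' _ _ h3)
      exact ⟨h1, by omega, h5 (by omega)⟩) fun r r1 r2 => (d1 _).trans (le_trans
        (by rw [inn_add J0]; omega) (dJ r (by omega) (by omega)))
  have z : ∀ v, (pos v < j1 * (2 * m + 1) → cnt a v = 0 ∧
      cnt (hb P (2 * m + 1) (m - 2 * e) j2) v = 0) ∧ (j0 * (2 * m + 1) ≤ pos v → cnt b v = 0 ∧
      cnt (hb P (2 * m + 1) (m - 2 * e) 2) v = 0) := fun v =>
    ⟨fun h => ⟨cnt_zero _ pos _ fun i => by have := ha i; omega, cnt_zero _ pos _ fun i => by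
      have := hc i.1; rw [hb, hp _ (by omega)]; omega⟩,
    fun h => ⟨cnt_zero _ pos _ fun i => by have := hb' i; omega, cnt_zero _ pos _ fun i => by
      have := hc i.1; rw [hb, hp _ (by omega)]; omega⟩⟩
  have w : ∀ v, (out J0 v + cnt (Sum.elim (hb P (2 * m + 1) (m - 2 * e) 2) w0) v =
      inn J0 v + cnt b v) ∧ (out J1 v + cnt w1 v = inn J1 v + cnt w0 v) ∧
      out J2 v + cnt a v = inn J2 v + cnt (Sum.elim (hb P (2 * m + 1) (m - 2 * e) j2) w1) v := by
    intro v
    have t1 := hf v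
    have t2 := fl v
    simp only [out_add, inn_add, cnt_elim] at t1 c3 ⊢
    rcases lt_or_ge (pos v) (j0 * (2 * m + 1)) with h | h
    · have := c3 v h; have := d3 v (by omega); have := (z v).1 (by omega)
      omega
    have := c4 v h; have := (z v).2 h
    rcases lt_or_ge (pos v) (j1 * (2 * m + 1)) with h' | h'
    · have := d3 v h'; have := (z v).1 h'
      omega
    · have := d4 v h'
      have := cnt_zero w0 pos v fun i => by
        obtain ⟨-, u, h2, h3⟩ := c2 i
        have := hJ _ _ h3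
        omega
      omega
  obtain ⟨g0, k0⟩ := linkF J0 b _ fun v => (w v).1
  obtain ⟨β, k1⟩ := linkF J1 w0 w1 fun v => (w v).2.1
  obtain ⟨g1, k2⟩ := linkF J2 _ a fun v => (w v).2.2
  have r0 := rt 2 (by omega) (by omega)
  have ra := rt (j0 + 2) (by omega) (by omega)
  have rb := rt (j1 + 2) (by omega) (by omega)
  rw [← e0] at r0
  rw [← e1] at ra
  rw [← e2] at rb
  have k3 := mid _ _ _ _ _ _ W0 W1 w0 w1 _ _ _ _ _ _ β r0
    (zone P L (L2 j0 (by omega)) (L2 (j0 + 1) (by omega)) L1 W0 p4) ra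
    (zone P L (L2 j1 (by omega)) (L2 (j1 + 1) (by omega)) L1 W1 q4) rb k1 f0 f1 p1 q1 p5 ψ0 ψ1
    p2 q2 p3 q3 (g0.symm.trans g1.symm)
  rw [← ch_add P L _ (by omega) (by omega), ← ch_add P L _ (by omega) (by omega),
    ← ch_add P L _ (by omega) (by omega), ← ch_add P L _ (by omega) (by omega)] at k3
  have k4 := (((k0.add k3).trans (comp _ _ _ _ g0 fun _ => rfl)).add k2).trans
    (comp _ _ _ _ (g0.trans (g0.symm.trans g1.symm)) fun _ => rfl)
  simp only [Equiv.trans_apply, Equiv.symm_apply_apply, Equiv.apply_symm_apply] at k4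
  convert k4 using 1
  abel

end Pool.Agent.MP_2634a8_co.X.RL
end

section
namespace Pool.Agent.MP_2634a8_co.X.RL

open Finset

namespace Srt

/-- every permutation is a product of two involutions -/
theorem two_inv {T : Type} (σ : Equiv.Perm T) :
    ∃ a : T → T, (∀ y, a (a y) = y) ∧ ∀ y, σ (a (σ (a y))) = y := by
  classical
  let b : T → T := fun y => (Quotient.mk (Equiv.Perm.SameCycle.setoid σ) y).out
  have hb : ∀ y, σ.SameCycle (b y) y := fun y =>
    Quotient.exact (Quotient.out_eq (Quotient.mk (Equiv.Perm.SameCycle.setoid σ) y))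
  have hbb : ∀ y y', σ.SameCycle y y' → b y = b y' := fun y y' h => by
    have : Quotient.mk (Equiv.Perm.SameCycle.setoid σ) y =
      Quotient.mk (Equiv.Perm.SameCycle.setoid σ) y' := Quotient.sound h
    simp only [b, this]
  choose idx hidx using hb
  have key : ∀ y (i : ℤ), (σ ^ (-idx ((σ ^ i) (b y)))) (b ((σ ^ i) (b y))) = (σ ^ (-i)) (b y) := by
    intro y i
    have h1 : b ((σ ^ i) (b y)) = b y := by
      apply hbb
      exact (Equiv.Perm.SameCycle.symm ⟨i, rfl⟩).trans ⟨idx y, hidx y⟩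
    have h2 := hidx ((σ ^ i) (b y))
    rw [h1] at h2 ⊢
    set k := idx ((σ ^ i) (b y))
    have h3 : (σ ^ (-k - i)) ((σ ^ k) (b y)) = (σ ^ (-k - i)) ((σ ^ i) (b y)) := by rw [h2]
    rw [← Equiv.Perm.mul_apply, ← Equiv.Perm.mul_apply, ← zpow_add, ← zpow_add] at h3
    rw [show -k - i + k = -i by ring, show -k - i + i = -k by ring] at h3
    exact h3.symm
  refine ⟨fun y => (σ ^ (-idx y)) (b y), fun y => ?_, fun y => ?_⟩
  · show (σ ^ (-idx ((σ ^ (-idx y)) (b y)))) (b ((σ ^ (-idx y)) (b y))) = y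
    rw [key, neg_neg, hidx]
  · have e : σ ((σ ^ (-idx y)) (b y)) = (σ ^ (1 + -idx y)) (b y) := by
      rw [zpow_add, zpow_one, Equiv.Perm.mul_apply]
    show σ ((σ ^ (-idx (σ ((σ ^ (-idx y)) (b y))))) (b (σ ((σ ^ (-idx y)) (b y))))) = y
    rw [e, key]
    have e2 : σ ((σ ^ (-(1 + -idx y))) (b y)) = (σ ^ (1 + -(1 + -idx y))) (b y) := by
      rw [zpow_add σ 1, zpow_one, Equiv.Perm.mul_apply]
    rw [e2, show (1 : ℤ) + -(1 + -idx y) = idx y by ring, hidx]

/-- one period of exchanges `f t ↔ g t`, `t ∈ F` -/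
theorem one {S T : Type} {Av : ℕ → S → S → Prop} (hs : ∀ j s s', Av j s s' → Av j s' s)
    {a b : ℕ} {x y : T → S} (h : Reach Av a b x y) (A : S → Prop) (F : Finset T) (f g : T → T)
    (hA : ∀ t ∈ F, A (y (f t))) (hB : ∀ t ∈ F, ¬ A (y (g t)))
    (hf : ∀ t ∈ F, ∀ t' ∈ F, f t = f t' → t = t') (hg : ∀ t ∈ F, ∀ t' ∈ F, g t = g t' → t = t')
    (hav : ∀ t ∈ F, Av b (y (f t)) (y (g t)))
    (hu : ∀ t ∈ F, ∀ t' ∈ F, y (f t) = y (f t') → y (g t) = y (g t') → t = t') :
    ∃ z, Reach Av a (b + 1) x z ∧ (∀ t ∈ F, z (f t) = y (g t)) ∧ (∀ t ∈ F, z (g t) = y (f t)) ∧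
      ∀ τ, (∀ t ∈ F, f t ≠ τ) → (∀ t ∈ F, g t ≠ τ) → z τ = y τ := by
  classical
  have hd : ∀ t ∈ F, ∀ t' ∈ F, f t ≠ g t' := fun t ht t' ht' e => hB t' ht' (e ▸ hA t ht)
  let r : T → T := fun τ => if h : ∃ t ∈ F, f t = τ then g h.choose
    else if h : ∃ t ∈ F, g t = τ then f h.choose else τ
  have r1 : ∀ t ∈ F, r (f t) = g t := by
    intro t ht
    have h : ∃ t' ∈ F, f t' = f t := ⟨t, ht, rfl⟩
    simp only [r, dif_pos h]
    rw [hf _ h.choose_spec.1 _ ht h.choose_spec.2]
  have r2 : ∀ t ∈ F, r (g t) = f t := by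
    intro t ht
    have h : ∃ t' ∈ F, g t' = g t := ⟨t, ht, rfl⟩
    have h' : ¬ ∃ t' ∈ F, f t' = g t := fun ⟨t', ht', e⟩ => hd t' ht' t ht e
    simp only [r, dif_neg h', dif_pos h]
    rw [hg _ h.choose_spec.1 _ ht h.choose_spec.2]
  have r3 : ∀ τ, (∀ t ∈ F, f t ≠ τ) → (∀ t ∈ F, g t ≠ τ) → r τ = τ := by
    intro τ h1 h2
    have h1' : ¬ ∃ t ∈ F, f t = τ := fun ⟨t, ht, e⟩ => h1 t ht e
    have h2' : ¬ ∃ t ∈ F, g t = τ := fun ⟨t, ht, e⟩ => h2 t ht e
    simp only [r, dif_neg h1', dif_neg h2']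
  have tri : ∀ τ, (∃ t ∈ F, f t = τ) ∨ (∃ t ∈ F, g t = τ) ∨ r τ = τ := by
    intro τ
    by_cases h1 : ∃ t ∈ F, f t = τ
    · exact Or.inl h1
    by_cases h2 : ∃ t ∈ F, g t = τ
    · exact Or.inr (Or.inl h2)
    exact Or.inr (Or.inr (r3 τ (fun t ht e => h1 ⟨t, ht, e⟩) fun t ht e => h2 ⟨t, ht, e⟩))
  have rr : Function.Involutive r := by
    intro τ
    rcases tri τ with ⟨t, ht, rfl⟩ | ⟨t, ht, rfl⟩ | h
    · rw [r1 t ht, r2 t ht]
    · rw [r2 t ht, r1 t ht]
    · rw [h, h]
  have st : Step (Av b) y rr.toPerm := by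
    refine ⟨rr, fun τ hτ => ?_, fun τ τ' hτ e1 e2 => ?_⟩
    · change y (r τ) ≠ y τ at hτ
      change Av b (y τ) (y (r τ))
      rcases tri τ with ⟨t, ht, rfl⟩ | ⟨t, ht, rfl⟩ | h
      · rw [r1 t ht]; exact hav t ht
      · rw [r2 t ht]; exact hs _ _ _ (hav t ht)
      · exact absurd (by rw [h]) hτ
    · change y (r τ) ≠ y τ at hτ
      change y (r τ) = y (r τ') at e2
      rcases tri τ with ⟨t, ht, rfl⟩ | ⟨t, ht, rfl⟩ | h
      · rcases tri τ' with ⟨t', ht', rfl⟩ | ⟨t', ht', rfl⟩ | h'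
        · rw [r1 t ht, r1 t' ht'] at e2
          rw [hu t ht t' ht' e1 e2]
        · exact absurd (e1 ▸ hA t ht) (hB t' ht')
        · rw [h'] at e2
          exact absurd (e2.trans e1.symm) hτ
      · rcases tri τ' with ⟨t', ht', rfl⟩ | ⟨t', ht', rfl⟩ | h'
        · exact absurd (e1 ▸ hA t' ht') (hB t ht)
        · rw [r2 t ht, r2 t' ht'] at e2
          rw [hu t ht t' ht' e2 e1]
        · rw [h'] at e2
          exact absurd (e2.trans e1.symm) hτ
      · exact absurd (by rw [h]) hτ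
  refine ⟨y ∘ rr.toPerm, h.step st, fun t ht => ?_, fun t ht => ?_, fun τ h1 h2 => ?_⟩
  · show y (r (f t)) = _
    rw [r1 t ht]
  · show y (r (g t)) = _
    rw [r2 t ht]
  · show y (r τ) = _
    rw [r3 τ h1 h2]

/-- the sizes of the classes do not change -/
theorem fib {S T : Type} [Fintype T] [DecidableEq S] {Av : ℕ → S → S → Prop} {a b μ : ℕ}
    {x y : T → S} (h : Reach Av a b x y) (hx : ∀ s, (univ.filter fun τ => x τ = s).card ≤ μ) :
    ∀ s, (univ.filter fun τ => y τ = s).card ≤ μ := by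
  induction h with
  | refl => exact hx
  | step _ _ ih =>
    rename_i ρ _ _
    intro s
    refine le_trans (card_le_card_of_injOn ρ (fun τ hτ => ?_) ρ.injective.injOn) (ih hx s)
    simpa only [coe_filter, mem_univ, true_and, Set.mem_ofPred_eq, Function.comp_apply] using hτ

/-- greedy choice of the hub tokens -/
theorem hub {S T : Type} [Fintype T] [DecidableEq T] [DecidableEq S] {μ w v : ℕ} (y : T → S)
    (hy : ∀ s, (univ.filter fun τ => y τ = s).card ≤ μ) (p q : T → S) (Bad : T → Finset S)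
    (F0 : Finset T) (hB : ∀ t ∈ F0, (Bad t).card ≤ v)
    (hp : ∀ t ∈ F0, (F0.filter fun t' => p t' = p t).card ≤ w)
    (hq : ∀ t ∈ F0, (F0.filter fun t' => q t' = q t).card ≤ w)
    (hn : (v + 2 * w) * μ + F0.card < Fintype.card T) (F : Finset T) (hF : F ⊆ F0) :
    ∃ Z : T → T, (∀ t ∈ F, y (Z t) ∉ Bad t) ∧ (∀ t ∈ F, ∀ t' ∈ F, Z t = Z t' → t = t') ∧
      ∀ t ∈ F, ∀ t' ∈ F, p t = p t' ∨ q t = q t' → y (Z t) = y (Z t') → t = t' := by
  induction F using Finset.induction_on with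
  | empty => exact ⟨id, by simp, by simp, by simp⟩
  | insert t F htF ih =>
    have hF' : F ⊆ F0 := (subset_insert _ _).trans hF
    have ht : t ∈ F0 := hF (mem_insert_self _ _)
    obtain ⟨Z, h1, h2, h3⟩ := ih hF'
    set W : Finset S := Bad t ∪ ((F0.filter fun t' => p t' = p t).image (fun t' => y (Z t')) ∪
      (F0.filter fun t' => q t' = q t).image (fun t' => y (Z t'))) with hW
    have cW : W.card ≤ v + 2 * w := by
      have a1 := card_union_le (Bad t) ((F0.filter fun t' => p t' = p t).image (fun t' => y (Z t'))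
        ∪ (F0.filter fun t' => q t' = q t).image (fun t' => y (Z t')))
      have a2 := card_union_le ((F0.filter fun t' => p t' = p t).image (fun t' => y (Z t')))
        ((F0.filter fun t' => q t' = q t).image (fun t' => y (Z t')))
      have a3 := card_image_le (s := F0.filter fun t' => p t' = p t) (f := fun t' => y (Z t'))
      have a4 := card_image_le (s := F0.filter fun t' => q t' = q t) (f := fun t' => y (Z t'))
      have := hB t ht
      have := hp t ht
      have := hq t ht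
      rw [← hW] at a1
      omega
    have c1 : (W.biUnion fun s => univ.filter fun τ => y τ = s).card ≤ (v + 2 * w) * μ :=
      (card_biUnion_le_card_mul _ _ _ fun s _ => hy s).trans (Nat.mul_le_mul_right _ cW)
    have c2 : ((W.biUnion fun s => univ.filter fun τ => y τ = s) ∪ F0.image Z).card <
        (univ : Finset T).card := by
      have a1 := card_union_le (W.biUnion fun s => univ.filter fun τ => y τ = s) (F0.image Z)
      have a2 := card_image_le (s := F0) (f := Z)
      rw [card_univ]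
      omega
    obtain ⟨z, -, hz⟩ := exists_mem_notMem_of_card_lt_card c2
    rw [mem_union, not_or] at hz
    have z1 : y z ∉ W := fun h => hz.1 (mem_biUnion.2 ⟨_, h, by simp only [mem_filter, mem_univ, and_self]⟩)
    have z2 : ∀ t' ∈ F, Z t' ≠ z := fun t' h e => hz.2 (mem_image.2 ⟨t', hF' h, e⟩)
    have z3 : ∀ t' ∈ F, p t = p t' ∨ q t = q t' → y z ≠ y (Z t') := by
      intro t' h hpq e
      apply z1
      rw [hW, mem_union, mem_union]
      rcases hpq with h' | h'
      · exact Or.inr (Or.inl (mem_image.2 ⟨t', mem_filter.2 ⟨hF' h, h'.symm⟩, e.symm⟩))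
      · exact Or.inr (Or.inr (mem_image.2 ⟨t', mem_filter.2 ⟨hF' h, h'.symm⟩, e.symm⟩))
    have u1 : Function.update Z t z t = z := Function.update_self ..
    have u2 : ∀ t' ∈ F, Function.update Z t z t' = Z t' := fun t' h =>
      Function.update_of_ne (fun e : t' = t => htF (e ▸ h)) ..
    refine ⟨Function.update Z t z, fun a ha => ?_, fun a ha b hb e => ?_, fun a ha b hb hpq e => ?_⟩
    · rcases mem_insert.1 ha with rfl | ha
      · rw [u1]; exact fun h => z1 (mem_union_left _ h)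
      · rw [u2 a ha]; exact h1 a ha
    · rcases mem_insert.1 ha with ha' | ha' <;> rcases mem_insert.1 hb with hb' | hb'
      · rw [ha', hb']
      · rw [ha', u1, u2 b hb'] at e; exact absurd e.symm (z2 b hb')
      · rw [hb', u1, u2 a ha'] at e; exact absurd e (z2 a ha')
      · rw [u2 a ha', u2 b hb'] at e; exact h2 a ha' b hb' e
    · rcases mem_insert.1 ha with ha' | ha' <;> rcases mem_insert.1 hb with hb' | hb'
      · rw [ha', hb']
      · rw [ha', u1, u2 b hb'] at e; rw [ha'] at hpq; exact absurd e (z3 b hb' hpq)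
      · rw [hb', u1, u2 a ha'] at e; rw [hb'] at hpq
        exact absurd e.symm (z3 a ha' (hpq.imp Eq.symm Eq.symm))
      · rw [u2 a ha', u2 b hb'] at e; exact h3 a ha' b hb' hpq e

/-- three periods exchange the classes of `t` and `ι t` for all `t ∈ F` -/
theorem phase {S T : Type} [Fintype T] [DecidableEq T] [DecidableEq S] {Av : ℕ → S → S → Prop}
    {μ w u : ℕ} (hs : ∀ j s s', Av j s s' → Av j s' s)
    (hZ : ∀ j s, ∃ Z : Finset S, Z.card ≤ u ∧ ∀ s' ∉ Z, Av j s s') {a b : ℕ} {x y : T → S}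
    (h : Reach Av a b x y) (hy : ∀ s, (univ.filter fun τ => y τ = s).card ≤ μ) (ι : T → T)
    (hι : ∀ t, ι (ι t) = t) (A : Finset S) (F : Finset T) (hA : ∀ t ∈ F, y t ∈ A)
    (hA' : ∀ t ∈ F, y (ι t) ∈ A) (hF : ∀ t ∈ F, ι t ∉ F)
    (hp : ∀ t ∈ F, (F.filter fun t' => y t' = y t).card ≤ w)
    (hq : ∀ t ∈ F, (F.filter fun t' => y (ι t') = y (ι t)).card ≤ w)
    (hn : (A.card + 3 * u + 2 * w) * μ + F.card < Fintype.card T) :
    Reach Av a (b + 3) x fun τ => if τ ∈ F ∨ ι τ ∈ F then y (ι τ) else y τ := by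
  choose N hN hAv using hZ
  obtain ⟨Z, z1, z2, z3⟩ := hub y hy y (fun t => y (ι t))
    (fun t => A ∪ (N b (y t) ∪ (N (b + 1) (y (ι t)) ∪ N (b + 1 + 1) (y t)))) F (v := A.card + 3 * u)
    (fun t _ => by
      have a1 := card_union_le A (N b (y t) ∪ (N (b + 1) (y (ι t)) ∪ N (b + 1 + 1) (y t)))
      have a2 := card_union_le (N b (y t)) (N (b + 1) (y (ι t)) ∪ N (b + 1 + 1) (y t))
      have a3 := card_union_le (N (b + 1) (y (ι t))) (N (b + 1 + 1) (y t))
      have := hN b (y t)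
      have := hN (b + 1) (y (ι t))
      have := hN (b + 1 + 1) (y t)
      omega) hp hq hn F Subset.rfl
  simp only [mem_union, not_or] at z1
  have ii : ∀ t ∈ F, ∀ t' ∈ F, ι t = ι t' → t = t' := fun t _ t' _ e => by
    rw [← hι t, e, hι]
  have n1 : ∀ t ∈ F, ∀ t' ∈ F, t ≠ ι t' := fun t ht t' ht' e => hF t' ht' (e ▸ ht)
  have n2 : ∀ t ∈ F, ∀ t' ∈ F, Z t ≠ ι t' := fun t ht t' ht' e =>
    (z1 t ht).1 (e ▸ hA' t' ht')
  have n3 : ∀ t ∈ F, ∀ t' ∈ F, Z t ≠ t' := fun t ht t' ht' e => (z1 t ht).1 (e ▸ hA t' ht')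
  obtain ⟨y1, R1, a1, b1, c1⟩ := one hs h (· ∈ A) F id Z hA (fun t ht => (z1 t ht).1)
    (fun _ _ _ _ e => e) z2 (fun t ht => hAv _ _ _ (z1 t ht).2.1)
    (fun t ht t' ht' e e' => z3 t ht t' ht' (Or.inl e) e')
  simp only [id] at a1 b1 c1
  have d1 : ∀ t ∈ F, y1 (ι t) = y (ι t) := fun t ht =>
    c1 _ (fun t' ht' => n1 t' ht' t ht) fun t' ht' => n2 t' ht' t ht
  obtain ⟨y2, R2, a2, b2, c2⟩ := one hs R1 (· ∈ A) F ι id
    (fun t ht => by rw [d1 t ht]; exact hA' t ht)
    (fun t ht => by simp only [id]; rw [a1 t ht]; exact (z1 t ht).1) ii (fun _ _ _ _ e => e)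
    (fun t ht => by simp only [id]; rw [d1 t ht, a1 t ht]; exact hAv _ _ _ (z1 t ht).2.2.1)
    (fun t ht t' ht' e e' => by
      simp only [id] at e'
      rw [d1 t ht, d1 t' ht'] at e
      rw [a1 t ht, a1 t' ht'] at e'
      exact z3 t ht t' ht' (Or.inr e) e')
  simp only [id] at a2 b2 c2
  have d2 : ∀ t ∈ F, y2 (Z t) = y t := fun t ht =>
    (c2 _ (fun t' ht' => (n2 t ht t' ht').symm) fun t' ht' => (n3 t ht t' ht').symm).trans (b1 t ht)
  have e2 : ∀ t ∈ F, y2 (ι t) = y (Z t) := fun t ht => (a2 t ht).trans (a1 t ht)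
  obtain ⟨y3, R3, a3, b3, c3⟩ := one hs R2 (· ∈ A) F Z ι
    (fun t ht => by rw [d2 t ht]; exact hA t ht)
    (fun t ht => by rw [e2 t ht]; exact (z1 t ht).1) z2 ii
    (fun t ht => by rw [d2 t ht, e2 t ht]; exact hAv _ _ _ (z1 t ht).2.2.2)
    (fun t ht t' ht' e e' => by
      rw [d2 t ht, d2 t' ht'] at e
      rw [e2 t ht, e2 t' ht'] at e'
      exact z3 t ht t' ht' (Or.inl e) e')
  have fin : y3 = fun τ => if τ ∈ F ∨ ι τ ∈ F then y (ι τ) else y τ := by
    funext τ
    by_cases h1 : τ ∈ F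
    · rw [if_pos (Or.inl h1), c3 τ (fun t ht => n3 t ht τ h1) fun t ht => (n1 τ h1 t ht).symm,
        b2 τ h1, d1 τ h1]
    by_cases h2 : ι τ ∈ F
    · rw [if_pos (Or.inr h2)]
      have := b3 _ h2
      rw [hι] at this
      rw [this, d2 _ h2]
    rw [if_neg (not_or.2 ⟨h1, h2⟩)]
    by_cases h3 : ∃ t ∈ F, Z t = τ
    · obtain ⟨t, ht, rfl⟩ := h3
      rw [a3 t ht, e2 t ht]
    have k1 : ∀ t ∈ F, Z t ≠ τ := fun t ht e => h3 ⟨t, ht, e⟩
    have k2 : ∀ t ∈ F, ι t ≠ τ := fun t ht e => h2 (by rw [← e, hι]; exact ht)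
    have k3 : ∀ t ∈ F, t ≠ τ := fun t ht e => h1 (e ▸ ht)
    rw [c3 τ k1 k2, c2 τ k2 k3, c1 τ k3 k1]
  exact fin ▸ R3

theorem cdiv (n w p : ℕ) (hw : 0 < w) :
    (univ.filter fun i : Fin n => i.val / w = p).card ≤ w := by
  refine le_trans (card_le_card_of_injOn (t := range w) (fun i : Fin n => i.val % w)
    (fun i _ => by simpa using Nat.mod_lt _ hw) fun i hi j hj e => ?_) (card_range w).le
  simp only [coe_filter, mem_univ, true_and, Set.mem_ofPred_eq] at hi hj e
  apply Fin.ext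
  rw [← Nat.div_add_mod i.val w, ← Nat.div_add_mod j.val w, hi, hj, e]

/-- an involution is realised in a bounded number of periods -/
theorem invol {c μ u : ℕ} {Av : ℕ → Fin c → Fin c → Prop} (h0 : 100 ≤ c) (h1 : c ≤ 4 * μ)
    (h2 : μ ≤ c) (h3 : 9 * u ≤ c) (hs : ∀ j s s', Av j s s' → Av j s' s)
    (hZ : ∀ j s, ∃ Z : Finset (Fin c), Z.card ≤ u ∧ ∀ s' ∉ Z, Av j s s') {a b : ℕ}
    (σ ι : Fin c × Fin μ → Fin c × Fin μ) (hσ : Function.Injective σ) (hι : ∀ t, ι (ι t) = t)
    (h : Reach Av a b Prod.fst fun τ => (σ τ).1) :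
    Reach Av a (b + 3 * 4096) Prod.fst fun τ => (σ (ι τ)).1 := by
  set w := c / 8 + 1 with hw
  have w0 : 0 < w := by omega
  let lab : Fin c × Fin μ → (ℕ × ℕ) × ℕ × ℕ := fun t =>
    (((σ t).1.val / w, (σ t).2.val / w), (σ (ι t)).1.val / w, (σ (ι t)).2.val / w)
  let G : Finset ((ℕ × ℕ) × ℕ × ℕ) → Fin c × Fin μ → Prop := fun P t =>
    (σ t).1 < (σ (ι t)).1 ∧ lab t ∈ P
  have f0 : ∀ s : Fin c, (univ.filter fun τ : Fin c × Fin μ => τ.1 = s).card ≤ μ := by
    intro s
    refine le_trans (card_le_card_of_injOn (t := univ) Prod.snd (fun _ _ => by simp only [coe_univ, Set.mem_univ])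
      fun i hi j hj e => ?_) (by simp only [card_univ, Fintype.card_fin, Std.le_refl])
    simp only [coe_filter, mem_univ, true_and, Set.mem_ofPred_eq] at hi hj
    exact Prod.ext (hi.trans hj.symm) e
  have main : ∀ P : Finset ((ℕ × ℕ) × ℕ × ℕ), Reach Av a (b + 3 * P.card) Prod.fst
      fun τ => if G P τ ∨ G P (ι τ) then (σ (ι τ)).1 else (σ τ).1 := by
    intro P
    induction P using Finset.induction_on with
    | empty => simpa [G] using h
    | insert l P hl ih =>
      set y : Fin c × Fin μ → Fin c :=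
        fun τ => if G P τ ∨ G P (ι τ) then (σ (ι τ)).1 else (σ τ).1 with hy
      set F : Finset (Fin c × Fin μ) :=
        univ.filter fun t => (σ t).1 < (σ (ι t)).1 ∧ lab t = l with hF
      have mF : ∀ t, t ∈ F ↔ (σ t).1 < (σ (ι t)).1 ∧ lab t = l := fun t => by simp only [hF, mem_filter, mem_univ, true_and]
      have ng : ∀ t ∈ F, ¬ G P t ∧ ¬ G P (ι t) := by
        intro t ht
        obtain ⟨t1, t2⟩ := (mF t).1 ht
        refine ⟨fun g => hl (t2 ▸ g.2), fun g => ?_⟩
        have := g.1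
        rw [hι] at this
        exact lt_asymm t1 this
      have y1 : ∀ t ∈ F, y t = (σ t).1 := fun t ht => if_neg (not_or.2 (ng t ht))
      have y2 : ∀ t ∈ F, y (ι t) = (σ (ι t)).1 := fun t ht =>
        if_neg (by rw [hι]; exact not_or.2 (ng t ht).symm)
      have l1 : ∀ t ∈ F, (σ t).1.val / w = l.1.1 ∧ (σ t).2.val / w = l.1.2 ∧
          (σ (ι t)).1.val / w = l.2.1 ∧ (σ (ι t)).2.val / w = l.2.2 := by
        intro t ht
        rw [← ((mF t).1 ht).2]
        exact ⟨rfl, rfl, rfl, rfl⟩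
      set A : Finset (Fin c) := (univ.filter fun i : Fin c => i.val / w = l.1.1) ∪
        univ.filter fun i : Fin c => i.val / w = l.2.1 with hA
      have cA : A.card ≤ 2 * w := by
        have a1 := card_union_le (univ.filter fun i : Fin c => i.val / w = l.1.1)
          (univ.filter fun i : Fin c => i.val / w = l.2.1)
        have := cdiv c w l.1.1 w0
        have := cdiv c w l.2.1 w0
        rw [← hA] at a1
        omega
      have cF : F.card ≤ w * w := by
        refine le_trans (card_le_card_of_injOn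
          (t := (univ.filter fun i : Fin c => i.val / w = l.1.1) ×ˢ
            (univ.filter fun i : Fin μ => i.val / w = l.1.2)) σ (fun t ht => ?_) hσ.injOn) ?_
        · have := l1 t ht
          simp only [coe_product, coe_filter, mem_univ, true_and, Set.mem_prod, Set.mem_ofPred_eq, this.1, this.2.1, and_self]
        · rw [card_product]
          exact Nat.mul_le_mul (cdiv _ _ _ w0) (cdiv _ _ _ w0)
      have R := phase (w := w) hs hZ ih (fib ih f0) ι hι A F
        (fun t ht => by rw [y1 t ht]; simp only [hA, mem_union, mem_filter, mem_univ, (l1 t ht).1, and_self, true_and, true_or])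
        (fun t ht => by rw [y2 t ht]; simp only [hA, mem_union, mem_filter, mem_univ, (l1 t ht).2.2.1, true_and, and_self, or_true])
        (fun t ht ht' => by
          have := ((mF _).1 ht').1
          rw [hι] at this
          exact lt_asymm ((mF t).1 ht).1 this)
        (fun t ht => by
          refine le_trans (card_le_card_of_injOn
            (t := univ.filter fun i : Fin μ => i.val / w = l.1.2) (fun t => (σ t).2)
            (fun i hi => ?_) fun i hi j hj e => ?_) (cdiv _ _ _ w0)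
          · simp only [coe_filter, mem_univ, true_and, Set.mem_ofPred_eq, (l1 i (mem_filter.1 hi).1).2.1]
          · obtain ⟨i1, i2⟩ := mem_filter.1 hi
            obtain ⟨j1, j2⟩ := mem_filter.1 hj
            rw [y1 i i1] at i2
            rw [y1 j j1] at j2
            exact hσ (Prod.ext (i2.trans j2.symm) e))
        (fun t ht => by
          refine le_trans (card_le_card_of_injOn
            (t := univ.filter fun i : Fin μ => i.val / w = l.2.2) (fun t => (σ (ι t)).2)
            (fun i hi => ?_) fun i hi j hj e => ?_) (cdiv _ _ _ w0)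
          · simp [(l1 i (mem_filter.1 hi).1).2.2.2]
          · obtain ⟨i1, i2⟩ := mem_filter.1 hi
            obtain ⟨j1, j2⟩ := mem_filter.1 hj
            rw [y2 i i1] at i2
            rw [y2 j j1] at j2
            have : ι i = ι j := hσ (Prod.ext (i2.trans j2.symm) e)
            rw [← hι i, this, hι])
        (by
          rw [Fintype.card_prod, Fintype.card_fin, Fintype.card_fin]
          obtain ⟨d, hd⟩ : ∃ d, c = 4 * w + 3 * u + d := ⟨c - (4 * w + 3 * u), by omega⟩
          have d1 : w ≤ d := by omega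
          have d2 : w < μ := by omega
          have k1 : (A.card + 3 * u + 2 * w) * μ ≤ (4 * w + 3 * u) * μ :=
            Nat.mul_le_mul_right _ (by omega)
          have k2 : w * w < d * μ := lt_of_lt_of_le (Nat.mul_lt_mul_of_pos_left d2 w0)
            (Nat.mul_le_mul_right _ d1)
          have k3 : (4 * w + 3 * u + d) * μ = (4 * w + 3 * u) * μ + d * μ := Nat.add_mul ..
          rw [← hd] at k3
          omega)
      rw [card_insert_of_notMem hl, show b + 3 * (P.card + 1) = b + 3 * P.card + 3 by ring]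
      convert R using 1
      funext τ
      by_cases k : τ ∈ F ∨ ι τ ∈ F
      · rw [if_pos k]
        rcases k with k | k
        · rw [y2 τ k, if_pos (Or.inl ⟨((mF τ).1 k).1, by rw [((mF τ).1 k).2]; simp⟩)]
        · rw [y1 _ k, if_pos (Or.inr ⟨((mF _).1 k).1, by rw [((mF _).1 k).2]; simp⟩)]
      · rw [if_neg k]
        rw [not_or, mF, mF] at k
        have g : ∀ t, ¬ ((σ t).1 < (σ (ι t)).1 ∧ lab t = l) → (G (insert l P) t ↔ G P t) := by
          intro t ht
          simp only [G, mem_insert]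
          tauto
        simp only [hy, g _ k.1, g _ k.2]
  have lt8 : ∀ n, n < c → n / w < 8 := fun n hn =>
    (Nat.div_lt_iff_lt_mul w0).2 (by omega)
  have all : ∀ t, lab t ∈ (range 8 ×ˢ range 8) ×ˢ range 8 ×ˢ range 8 := by
    intro t
    simp only [lab, mem_product, mem_range]
    exact ⟨⟨lt8 _ (σ t).1.2, lt8 _ ((σ t).2.2.trans_le h2)⟩, lt8 _ (σ (ι t)).1.2,
      lt8 _ ((σ (ι t)).2.2.trans_le h2)⟩
  have cP : ((range 8 ×ˢ range 8) ×ˢ range 8 ×ˢ range 8).card = 4096 := by
    simp only [card_product, card_range]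
  generalize (range 8 ×ˢ range 8) ×ˢ range 8 ×ˢ range 8 = P at all cP
  have R := main P
  rw [cP] at R
  convert R using 1
  funext τ
  split_ifs with k
  · rfl
  · rw [not_or] at k
    have k1 : ¬ (σ τ).1 < (σ (ι τ)).1 := fun e => k.1 (And.intro e (all τ))
    have k2 : ¬ (σ (ι τ)).1 < (σ τ).1 := fun e =>
      k.2 (And.intro ((hι τ).symm ▸ e) (all (ι τ)))
    exact le_antisymm (not_lt.1 k1) (not_lt.1 k2)

end Srt

theorem sort : SORT_s := by
  refine ⟨3 * 4096 + 3 * 4096, 100, fun c μ u Av h0 h1 h2 h3 hs hZ j0 π => ?_⟩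
  obtain ⟨a, ha, hb⟩ := Srt.two_inv π
  have R1 := Srt.invol h0 h1 h2 h3 hs hZ id (fun y => π (a y)) Function.injective_id hb
    (Reach.refl j0 Prod.fst)
  have R2 := Srt.invol h0 h1 h2 h3 hs hZ (fun y => π (a y)) a
    (Function.Involutive.injective hb) ha R1
  simp only [ha] at R2
  rw [← Nat.add_assoc]
  exact R2

end Pool.Agent.MP_2634a8_co.X.RL
end

section
namespace Pool.Agent.MP_2634a8_co.X.RL

open Finset

namespace Geo

section rank
variable {p : ℕ → Prop} [DecidablePred p] {k f : ℕ}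

lemma count_mul (h : ∀ i, Nat.count p i + f ≤ Nat.count p (i + k)) (j : ℕ) :
    j * f ≤ Nat.count p (j * k) := by
  induction j with
  | zero => simp
  | succ j ih => have := h (j * k); rw [add_mul, add_mul, one_mul, one_mul]; omega

lemma nth_gap (hp : (Set.ofPred p).Infinite) (h : ∀ i, Nat.count p i + f ≤ Nat.count p (i + k))
    (r d : ℕ) (h1 : 1 ≤ d) (h2 : d ≤ f) :
    Nat.nth p r < Nat.nth p (r + d) ∧ Nat.nth p (r + d) ≤ Nat.nth p r + k := by
  refine ⟨Nat.nth_strictMono hp (by omega), ?_⟩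
  have a1 := h (Nat.nth p r + 1)
  have a2 : r < Nat.count p (Nat.nth p r + 1) := by
    have := Nat.count_strict_mono (Nat.nth_mem_of_infinite hp r) (Nat.lt_succ_self (Nat.nth p r))
    rwa [Nat.count_nth_of_infinite hp] at this
  have := Nat.nth_lt_of_lt_count (p := p) (k := r + d) (n := Nat.nth p r + 1 + k) (by omega)
  omega

end rank

variable {n : ℕ} [NeZero n]

lemma dens (Ω : Finset (ZMod n)) (c : ZMod n) (k e : ℕ)
    (h : ∀ a, (Ω ∩ win a k).card ≤ e) (hk : k ≤ n) (i : ℕ) :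
    Nat.count (fun i : ℕ => c + i ∉ Ω ∨ n ≤ i) i + (k - e) ≤
      Nat.count (fun i : ℕ => c + i ∉ Ω ∨ n ≤ i) (i + k) := by
  rw [Nat.count_add, Nat.add_le_add_iff_left, Nat.count_eq_card_filter_range]
  have a1 := card_filter_add_card_filter_not (s := range k)
    (fun j : ℕ => c + ((i + j : ℕ) : ZMod n) ∉ Ω ∨ n ≤ i + j)
  have a2 : ((range k).filter fun j : ℕ =>
      ¬ (c + ((i + j : ℕ) : ZMod n) ∉ Ω ∨ n ≤ i + j)).card ≤ (Ω ∩ win (c + i) k).card := by
    refine card_le_card_of_injOn (fun j : ℕ => c + i + j) (fun j hj => ?_) (fun j hj j' hj' e => ?_)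
    · rw [mem_coe, mem_filter, mem_range, not_or, not_not] at hj
      rw [mem_coe, mem_inter, mem_win, lam_add_nat _ (by omega)]
      exact ⟨by simpa only [Nat.cast_add, add_assoc] using hj.2.1, hj.1⟩
    · rw [mem_coe, mem_filter, mem_range] at hj hj'
      have := congrArg (lam (c + (i : ZMod n))) e
      rwa [lam_add_nat _ (by omega), lam_add_nat _ (by omega)] at this
  have := h (c + i)
  rw [card_range] at a1
  omega

end Geo

theorem geo (h : RLA_s) : RL_s := by
  obtain ⟨M, e0, H⟩ := h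
  refine ⟨M + 2, 100 * e0 + 100, fun k hk n _ B X Ω ρ hn hB hO hbal hX hmo hΩ => ?_⟩
  obtain ⟨e, he⟩ : ∃ e, e = k / 100 := ⟨_, rfl⟩
  obtain ⟨m, hm⟩ : ∃ m, m = (k - e - 1) / 2 := ⟨_, rfl⟩
  obtain ⟨c, rfl⟩ : ∃ c, ρ = c - 1 := ⟨ρ + 1, by ring⟩
  obtain ⟨K, hK⟩ : ∃ K, K = M * k := ⟨_, rfl⟩
  have e1 : (M + 2) * k = K + 2 * k := by rw [hK]; ring
  have e2 : (M + 2 + 1) * k = K + 3 * k := by rw [hK]; ring
  rw [e2] at hn
  rw [e1] at hX hmo
  clear e1 e2
  let p : ℕ → Prop := fun i => c + i ∉ Ω ∨ n ≤ i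
  have hp : (Set.ofPred p).Infinite :=
    (Set.Ici_infinite n).mono fun i hi => Or.inr hi
  have hd : ∀ i, Nat.count p i + (k - e) ≤ Nat.count p (i + k) :=
    Geo.dens Ω c k e (fun a => by have := hΩ a; omega) (by omega)
  have hN : M * (2 * m + 1) ≤ Nat.count p K := by
    rw [hK]
    exact (Nat.mul_le_mul_left _ (by omega)).trans (Geo.count_mul hd M)
  have hw : ∀ v, lam c v + 1 < K + 2 * k → v ∈ win (c - 1) (K + 2 * k) := fun v hv => by
    have a1 := subAdd_lam (c - 1) c v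
    have a2 := lam_sub_nat c (d := 1) (by omega)
    rw [Nat.cast_one] at a2
    rw [mem_win]; omega
  have hpv : ∀ v, v ∉ Ω → p (lam c v) := fun v hv => Or.inl (by rwa [add_lam])
  have hr : ∀ r < M * (2 * m + 1), Nat.nth p r < K ∧ lam c (c + (Nat.nth p r : ℕ)) = Nat.nth p r ∧
      c + (Nat.nth p r : ℕ) ∉ Ω := fun r hr => by
    have a1 : Nat.nth p r < K := Nat.nth_lt_of_lt_count (by omega)
    exact ⟨a1, lam_add_nat _ (by omega),
      (Nat.nth_mem_of_infinite hp r).resolve_right (by omega)⟩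
  have hBX : ∀ u v, lam c u + 1 < K + 2 * k ∨ lam c v + 1 < K + 2 * k → (B + X) u v = B u v := by
    intro u v huv
    have : X u v = 0 := by
      by_contra h0
      exact huv.elim (fun a => (hX u v h0).1 (hw u a)) (fun a => (hX u v h0).2 (hw v a))
    rw [Pi.add_apply, Pi.add_apply, this, add_zero]
  obtain ⟨q, a, s, s', b, h1, h2, h3⟩ :=
    contract hbal (fun v => K + 2 * k ≤ lam c v + 1)
  obtain ⟨D, hD⟩ : ∃ D, D = part (B + X)
    (fun x y => ¬ K + 2 * k ≤ lam c x + 1 ∧ ¬ K + 2 * k ≤ lam c y + 1) := ⟨_, rfl⟩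
  rw [← hD] at h3
  have hDB : ∀ u v, D u v ≤ B u v := fun u v => by
    rw [hD, part]; split_ifs with h
    · exact (hBX u v (Or.inl (by omega))).le
    · exact Nat.zero_le _
  have hDP : ∀ r < M * (2 * m + 1), ∀ r' < M * (2 * m + 1),
      D (c + (Nat.nth p r : ℕ)) (c + (Nat.nth p r' : ℕ)) =
        B (c + (Nat.nth p r : ℕ)) (c + (Nat.nth p r' : ℕ)) := fun r h r' h' => by
    have a1 := hr r h
    have a2 := hr r' h'
    rw [hD, part, if_pos ⟨by omega, by omega⟩, hBX _ _ (Or.inl (by omega))]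
  have key : Imm D (∑ i, E' (b i) (a i)) := by
    refine H (ZMod n) D (fun r => c + (Nat.nth p r : ℕ)) (fun v => Nat.count p (lam c v)) k e m
      (Fin q) b a (by omega) (by omega) (by omega) (fun r h => ?_) (fun u v h => ?_)
      (fun u v => (hDB u v).trans (hB u v).1) (fun v => ?_) (fun r h => ?_) (fun r h h' => ?_)
      (fun v => ?_) (fun i => ?_) (fun i => ?_)
    · show Nat.count p (lam c _) = r
      rw [(hr r h).2.1, Nat.count_nth_of_infinite hp]
    · have a0 : B u v ≠ 0 := fun h0 => h (by have := hDB u v; omega)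
      rw [hD, part_ne_zero] at h
      have a1 := (hB u v).2 a0
      have a2 := lam_coord c u v
      have a3 : lam c u + lam u v = lam c v := by omega
      refine ⟨Nat.count_strict_mono (hpv u (hO u v a0).1) (by omega), ?_, fun _ => ?_⟩
      · show Nat.count p (lam c v) ≤ Nat.count p (lam c u) + k
        rw [← a3, Nat.count_add]
        exact Nat.add_le_add_left ((Nat.count_le _).trans a1.2) _
      · show c + (Nat.nth p (Nat.count p (lam c v)) : ℕ) = v
        rw [Nat.nth_count (hpv v (hO u v a0).2), add_lam]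
    · have a1 := inn_mono (M := D) (N := B) hDB v
      have a2 := hB.inn_mi (by omega) v
      omega
    · have a1 := hr r (by omega)
      have a2 := (hmo _ (hw _ (by omega)) a1.2.2).1
      refine le_trans (b := mo B 1 k (c + (Nat.nth p r : ℕ))) ?_ (by omega)
      refine card_le_card_of_injOn (fun d => Nat.nth p (r + d) - Nat.nth p r) (fun d hd' => ?_)
        (fun d hd1 d' hd2 e => ?_)
      · rw [mem_coe, mem_filter, mem_Icc] at hd'
        have g := Geo.nth_gap hp hd r d hd'.1.1 (by omega)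
        rw [mem_coe, mem_filter, mem_Icc]
        beta_reduce
        refine ⟨⟨by omega, by omega⟩, ?_⟩
        rw [add_assoc, ← Nat.cast_add, Nat.add_sub_of_le g.1.le,
          ← hDP r (by omega) (r + d) (by omega)]
        exact hd'.2
      · rw [mem_coe, mem_filter, mem_Icc] at hd1 hd2
        have g := Geo.nth_gap hp hd r d hd1.1.1 (by omega)
        have g' := Geo.nth_gap hp hd r d' hd2.1.1 (by omega)
        have := (Nat.nth_strictMono hp).injective
          (show Nat.nth p (r + d) = Nat.nth p (r + d') by simp only at e; omega)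
        omega
    · have a1 := hr r h'
      have a2 := (hmo _ (hw _ (by omega)) a1.2.2).2
      have gap : ∀ d, 1 ≤ d → d ≤ 2 * m + 1 →
          Nat.nth p (r - d) < Nat.nth p r ∧ Nat.nth p r ≤ Nat.nth p (r - d) + k := fun d b1 b2 => by
        have g := Geo.nth_gap hp hd (r - d) d b1 (by omega)
        rwa [Nat.sub_add_cancel (by omega)] at g
      refine le_trans (b := mi B 1 k (c + (Nat.nth p r : ℕ))) ?_ (by omega)
      refine card_le_card_of_injOn (fun d => Nat.nth p r - Nat.nth p (r - d)) (fun d hd' => ?_)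
        (fun d hd1 d' hd2 e => ?_)
      · rw [mem_coe, mem_filter, mem_Icc] at hd'
        have g := gap d hd'.1.1 hd'.1.2
        rw [mem_coe, mem_filter, mem_Icc]
        beta_reduce
        refine ⟨⟨by omega, by omega⟩, ?_⟩
        rw [Nat.cast_sub g.1.le, add_sub_assoc, sub_sub_cancel, ← hDP (r - d) (by omega) r h']
        exact hd'.2
      · rw [mem_coe, mem_filter, mem_Icc] at hd1 hd2
        have g := gap d hd1.1.1 hd1.1.2
        have g' := gap d' hd2.1.1 hd2.1.2
        have := (Nat.nth_strictMono hp).injective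
          (show Nat.nth p (r - d) = Nat.nth p (r - d') by simp only at e; omega)
        omega
    · have c1 : cnt a v = out (∑ i, E (a i) (s i)) v := by
        rw [out_sum, cnt_eq]; simp only [out_E]
      have c2 : cnt b v = inn (∑ i, E (s' i) (b i)) v := by
        rw [inn_sum, cnt_eq]; simp only [inn_E]
      have c3 := hbal v
      rw [c1, c2, ← h1, ← h2, hD]
      unfold out inn at c3 ⊢
      rw [← sum_add_distrib, ← sum_add_distrib]
      by_cases hv : K + 2 * k ≤ lam c v + 1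
      · simp only [part, hv, not_true, false_and, and_false, if_false]
      · rw [sum_congr rfl (g := fun w => (B + X) v w), c3, sum_congr rfl]
        · intro w _
          simp only [part, hv, not_false_iff, and_true]
          split_ifs <;> omega
        · intro w _
          simp only [part, hv, not_false_iff, true_and]
          split_ifs <;> omega
    · have a0 := (sum_E_ne_zero (s := univ) (u := s') (w := b)).2 ⟨i, mem_univ _, rfl, rfl⟩
      rw [← h2, part_ne_zero] at a0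
      obtain ⟨⟨a1, a2⟩, a3⟩ := a0
      rw [hBX _ _ (Or.inr (by omega))] at a3
      have a4 := (hB _ _).2 a3
      have a5 := lam_coord c (s' i) (b i)
      have a6 := lam_lt c (s' i)
      have a7 : Nat.count p (lam c (b i)) ≤ lam c (b i) := Nat.count_le _
      show Nat.count p (lam c (b i)) < _
      omega
    · have a0 := (sum_E_ne_zero (s := univ) (u := a) (w := s)).2 ⟨i, mem_univ _, rfl, rfl⟩
      rw [← h1, part_ne_zero] at a0
      obtain ⟨⟨a1, a2⟩, a3⟩ := a0
      rw [hBX _ _ (Or.inl (by omega))] at a3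
      have a4 := (hB _ _).2 a3
      have a5 := lam_coord c (a i) (s i)
      have a7 : Nat.count p K ≤ Nat.count p (lam c (a i)) := Nat.count_monotone p (by omega)
      show _ ≤ Nat.count p (lam c (a i)) + _
      omega
  have hq : cross B (c - 1) ≤ q := by
    have a1 : size (∑ i, E (s' i) (b i)) = q := by
      rw [size_sum]; simp only [size_E, sum_const, card_univ, Fintype.card_fin, smul_eq_mul, mul_one]
    rw [← a1, ← h2]
    refine sum_le_sum fun u _ => sum_le_sum fun v _ => ?_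
    rw [crs_pred, part]
    by_cases h0 : B u v = 0
    · rw [h0, zero_mul]; exact Nat.zero_le _
    have a4 := (hB _ _).2 h0
    have a5 := lam_coord c u v
    have a6 := lam_lt c u
    by_cases h1 : lam c v < lam c u
    · rw [if_pos h1, if_pos ⟨by omega, by omega⟩, hBX _ _ (Or.inr (by omega)), mul_one]
    · rw [if_neg h1, mul_zero]; exact Nat.zero_le _
  refine pack_le hq ((h3.trans ((key.add (Imm.refl _)).trans ?_)).pack
    (N := ∑ i, E (b i) (b i)) (by simpa only [card_univ, Fintype.card_fin] using pack_loops univ b))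
  rw [← sum_add_distrib]
  exact Imm.sum _ fun i _ => imm_E'E _ _ _

end Pool.Agent.MP_2634a8_co.X.RL
end

section
namespace Pool.Agent.MP_2634a8_co.X

theorem rl : RL_s := RL.geo (RL.rla RL.sort)

end Pool.Agent.MP_2634a8_co.X
end

section
namespace Pool.Agent.MP_2634a8_co.X

open Finset

namespace LL

variable {n : ℕ} [NeZero n]

lemma lam_lt (u v : ZMod n) : lam u v < n := ZMod.val_lt _

lemma lam_sub {a u t : ZMod n} (h : lam a u ≤ lam a t) : lam u t = lam a t - lam a u := by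
  unfold lam at *
  rw [← ZMod.val_sub h]
  congr 1
  ring

lemma subAdd_crs (t : ZMod n) : SubAdd (crs t) := by
  intro a u b
  unfold crs
  by_cases h1 : lam a t < lam a b
  · by_cases h2 : lam a t < lam a u
    · rw [if_pos h1, if_pos h2]; omega
    · have e1 := lam_sub (a := a) (u := u) (t := t) (by omega)
      have e2 := lam_sub (a := a) (u := u) (t := b) (by omega)
      rw [if_pos h1, if_neg h2, if_pos (by omega)]
  · rw [if_neg h1]; omega

lemma crs_add (t u v : ZMod n) : crs t u v + crs t v u ≤ 1 := by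
  unfold crs
  by_cases h1 : lam u t < lam u v
  · by_cases h2 : lam v t < lam v u
    · exfalso
      have e1 := lam_sub (a := u) (u := t) (t := v) h1.le
      have e2 := lam_sub (a := v) (u := t) (t := u) h2.le
      by_cases h3 : lam t u ≤ lam t v
      · have e3 := lam_sub h3
        have e4 : lam u t = 0 := by omega
        have e5 : t = u := by
          have := (ZMod.val_eq_zero _).1 e4
          exact sub_eq_zero.1 this
        subst e5
        omega
      · have e3 := lam_sub (a := t) (u := v) (t := u) (by omega)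
        have e4 : lam v t = 0 := by omega
        have e5 : t = v := by
          have := (ZMod.val_eq_zero _).1 e4
          exact sub_eq_zero.1 this
        subst e5
        omega
    · rw [if_pos h1, if_neg h2]
  · rw [if_neg h1]; split_ifs <;> omega

omit [NeZero n] in
lemma lam_add (u : ZMod n) {d : ℕ} (hd : d < n) : lam u (u + d) = d := by
  unfold lam
  rw [add_sub_cancel_left, ZMod.val_natCast, Nat.mod_eq_of_lt hd]

lemma sum_crs (u v : ZMod n) : ∑ t, crs t u v = lam u v := by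
  unfold crs
  rw [← card_filter]
  conv_rhs => rw [← card_range (lam u v)]
  refine card_bij (fun t _ => lam u t) ?_ ?_ ?_
  · intro t ht
    simpa using ht
  · intro a _ b _ h
    exact sub_left_injective (ZMod.val_injective n h)
  · intro d hd
    have hd1 : d < lam u v := mem_range.1 hd
    have hd2 := lam_add u (hd1.trans (lam_lt u v))
    exact ⟨u + d, by simp only [mem_filter, mem_univ, true_and]; omega, hd2⟩

lemma sum_cross (M : Mat (ZMod n)) : ∑ t, cross M t = Lam M := by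
  unfold cross Lam wsum
  rw [sum_comm]
  refine sum_congr rfl fun u _ => ?_
  rw [sum_comm]
  refine sum_congr rfl fun v _ => ?_
  rw [← mul_sum, sum_crs]

lemma cross_add (M N : Mat (ZMod n)) (t : ZMod n) : cross (M + N) t = cross M t + cross N t := by
  simp only [cross, wsum, Pi.add_apply, add_mul, sum_add_distrib, Nat.add_left_cancel_iff]

lemma cross_eq {P Q : Mat (ZMod n)} (h : Rt P Q) (hl : Lam P = Lam Q) (t : ZMod n) :
    cross P t = cross Q t := by
  have h1 : ∀ s ∈ (univ : Finset (ZMod n)), cross Q s ≤ cross P s :=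
    fun s _ => h.sub _ (subAdd_crs s)
  exact ((sum_eq_sum_iff_of_le h1).1 (by rw [sum_cross, sum_cross, hl]) t (mem_univ t)).symm

lemma cross_tr (J : Mat (ZMod n)) (t : ZMod n) :
    cross J t + cross (fun u v => J v u) t ≤ size J := by
  unfold cross wsum size out
  rw [sum_comm (f := fun u v => J v u * crs t u v), ← sum_add_distrib]
  refine sum_le_sum fun u _ => ?_
  rw [← sum_add_distrib]
  refine sum_le_sum fun v _ => ?_
  rw [← mul_add]
  exact (Nat.mul_le_mul_left _ (crs_add t u v)).trans (mul_one _).le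

lemma pack_tr {V : Type} [Fintype V] [DecidableEq V] : ∀ (s : ℕ) (J : Mat V), size J = s →
    Pack s (J + fun u v => J v u)
  | 0, _, _ => trivial
  | s + 1, J, h => by
    obtain ⟨a, b, hab⟩ : ∃ a b, J a b ≠ 0 := by
      by_contra hc
      push Not at hc
      simp only [size, out, hc, sum_const_zero, reduceCtorEq] at h
    obtain ⟨N, rfl⟩ := exists_add_E hab
    rw [size_add, size_E] at h
    refine ⟨E a b + E b a, N + fun u v => N v u, ?_, ?_, ?_, pack_tr s N (by omega)⟩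
    · funext x y
      simp only [Pi.add_apply, E, and_comm (a := y = a)]
      omega
    · intro h0
      have := congrFun (congrFun h0 a) b
      simp [E] at this
    · intro v
      simp only [out_add, inn_add, out_E, inn_E]
      omega

lemma card_le {f : ℕ → ZMod n} {k : ℕ} (hf : Set.InjOn f (Icc 1 k : Finset ℕ))
    (b b' p : ZMod n → ℕ) (h : ∀ x, b x = b' x + p x) :
    ((Icc 1 k).filter fun d => b' (f d) = 0).card ≤
      ((Icc 1 k).filter fun d => b (f d) = 0).card + ∑ x, p x := by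
  rw [card_filter, card_filter]
  have h1 : ∑ d ∈ Icc 1 k, p (f d) ≤ ∑ x, p x := by
    rw [← sum_image hf]
    exact sum_le_sum_of_subset (subset_univ _)
  refine le_trans ?_ (Nat.add_le_add_left h1 _)
  rw [← sum_add_distrib]
  refine sum_le_sum fun d _ => ?_
  have := h (f d)
  split_ifs <;> omega

omit [NeZero n] in
lemma cast_inj {k : ℕ} (hk : k < n) {d e : ℕ} (hd : d ∈ ((Icc 1 k : Finset ℕ) : Set ℕ))
    (he : e ∈ ((Icc 1 k : Finset ℕ) : Set ℕ)) (h : (d : ZMod n) = e) : d = e := by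
  have h1 := (mem_Icc.1 (mem_coe.1 hd)).2
  have h2 := (mem_Icc.1 (mem_coe.1 he)).2
  have := congrArg ZMod.val h
  rwa [ZMod.val_natCast, ZMod.val_natCast, Nat.mod_eq_of_lt (by omega),
    Nat.mod_eq_of_lt (by omega)] at this

lemma mo_le {k : ℕ} (hk : k < n) (B' P : Mat (ZMod n)) (v : ZMod n) :
    mo (B' + P) 1 k v + out P v ≥ mo B' 1 k v :=
  card_le (f := fun d : ℕ => v + (d : ZMod n)) (fun _ hd _ he h => cast_inj hk hd he (add_left_cancel h))
    ((B' + P) v) (B' v) (P v) fun _ => rfl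

lemma mi_le {k : ℕ} (hk : k < n) (B' P : Mat (ZMod n)) (v : ZMod n) :
    mi (B' + P) 1 k v + inn P v ≥ mi B' 1 k v :=
  card_le (f := fun d : ℕ => v - (d : ZMod n)) (fun _ hd _ he h => cast_inj hk hd he (sub_right_injective h))
    (fun x => (B' + P) x v) (fun x => B' x v) (fun x => P x v) fun _ => rfl

end LL

open LL in
theorem ll (hgc : GC_s) (hrl : RL_s) : LL_s := by
  obtain ⟨M0, k0, hrl⟩ := hrl
  refine ⟨M0 + 1, max k0 5000, ?_⟩
  intro k hk n _ B J X Ω ρ hn hid hoff hbal hX hm hΩ hhop hJ hload hsz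
  have hk0 : k0 ≤ k := le_of_max_le_left hk
  have hk1 : 5000 ≤ k := le_of_max_le_right hk
  have hn1 : (M0 + 1) * k + k ≤ n := by rw [← Nat.succ_mul]; exact hn
  have hn2 : (M0 + 1) * k = M0 * k + k := Nat.succ_mul _ _
  have hkn : k < n := by omega
  have hoB : Off B Ω := fun u v h => hoff u v (by simp only [Pi.add_apply]; omega)
  have hoJ : Off J Ω := fun u v h => hoff u v (by simp only [Pi.add_apply]; omega)
  have hw : win ρ (M0 * k) ⊆ win ρ ((M0 + 1) * k) := by
    intro v hv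
    simp only [win, mem_filter, mem_univ, true_and] at hv ⊢
    omega
  obtain ⟨P, hPB, hRt, hLam, -, -, hP⟩ := hgc n B (fun u v => J v u) Ω (fun _ _ => true) (k / 500)
    (by omega) (fun u v => (hid u v).1)
    (fun v hv => by
      obtain ⟨h1, h2⟩ := hhop v hv
      refine ⟨le_trans (le_of_eq ?_) h1, le_trans (le_of_eq ?_) h2⟩
      · unfold mo
        congr 2
        refine filter_congr fun d _ => ⟨fun h => h.2.elim id fun h' => ?_, fun h => ⟨rfl, Or.inl h⟩⟩
        by_contra hc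
        exact (hoB _ _ hc).2 h'
      · unfold mi
        congr 2
        refine filter_congr fun d _ => ⟨fun h => h.2.elim id fun h' => ?_, fun h => ⟨rfl, Or.inl h⟩⟩
        by_contra hc
        exact (hoB _ _ hc).1 h')
    (fun x y h => ⟨(hoJ _ _ h).2, (hoJ _ _ h).1, hJ _ _ h, fun _ _ _ => rfl⟩)
    (fun v => ⟨(hload v).2, (hload v).1⟩)
    (by rw [size_eq_inn] at hsz; exact hsz)
  obtain ⟨B', rfl⟩ := exists_add (W := P) (M := B) hPB
  have hle : ∀ u v, B' u v ≤ (B' + P) u v := fun u v => Nat.le_add_right _ _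
  have h1 := hrl k hk0 n B' X Ω ρ (by omega)
    (fun u v => ⟨(hle u v).trans (hid u v).1, fun h => (hid u v).2 (by have := hle u v; omega)⟩)
    (fun u v h => hoB u v (by have := hle u v; omega))
    (fun v => by
      have e1 := hbal v
      have e2 : out P v + out J v = inn P v + inn J v := hRt.bal v
      simp only [out_add, inn_add] at e1 ⊢
      omega)
    (fun u v h => ⟨fun h' => (hX u v h).1 (hw h'), fun h' => (hX u v h).2 (hw h')⟩)
    (fun v hv hv' => by
      obtain ⟨a1, a2⟩ := hm v (hw hv) hv'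
      have a3 := mo_le hkn B' P v
      have a4 := mi_le hkn B' P v
      have a5 : 10 * out P v ≤ 10 * inn J v + k / 500 + 10 := (hP v).1
      have a6 : 10 * inn P v ≤ 10 * out J v + k / 500 + 10 := (hP v).2
      obtain ⟨a7, a8⟩ := hload v
      omega)
    hΩ
  have h2 := pack_add _ _ _ _ (pack_tr _ J rfl) h1
  have h3 := hRt.pack (B' + X + J) _ (by
    rw [show B' + X + J + (fun u v => J v u) = J + (fun u v => J v u) + (B' + X) by abel]
    exact h2)
  rw [show B' + P + J + X = B' + X + J + P by abel]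
  refine pack_le ?_ h3
  have e1 := cross_tr J ρ
  have e2 := cross_eq hRt hLam ρ
  rw [cross_add, cross_add]
  omega

end Pool.Agent.MP_2634a8_co.X
end

section
set_option autoImplicit false

namespace Pool.Agent.MP_2634a8_co.X

open Finset

namespace FIN

variable {n : ℕ} [NeZero n]

lemma le_wsum (M : Mat (ZMod n)) (f : ZMod n → ZMod n → ℕ) (u v : ZMod n) :
    M u v * f u v ≤ wsum M f :=
  (single_le_sum (f := fun w => M u w * f u w) (fun _ _ => Nat.zero_le _) (mem_univ v)).trans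
    (single_le_sum (f := fun x => ∑ w, M x w * f x w) (fun _ _ => Nat.zero_le _) (mem_univ u))

lemma out_le_cross {T : Mat (ZMod n)} (h : ∀ u v, T u v ≠ 0 → 1 ≤ lam u v) (a : ZMod n) :
    out T a ≤ cross T a := by
  refine le_trans (sum_le_sum fun w _ => ?_)
    (single_le_sum (f := fun x => ∑ w, T x w * crs a x w) (fun _ _ => Nat.zero_le _) (mem_univ a))
  by_cases h0 : T a w = 0
  · simp [h0]
  · have := h a w h0
    rw [crs, lam_self, if_pos (by omega), mul_one]

lemma out_le_card {M : Mat (ZMod n)} (v : ZMod n) (S : Finset ℕ)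
    (h : ∀ w, M v w ≤ if lam v w ∈ S then 1 else 0) : out M v ≤ S.card := by
  refine (sum_le_sum fun w _ => h w).trans ?_
  rw [← card_filter]
  exact card_le_card_of_injOn (lam v) (fun w hw => by simpa using hw) fun _ _ _ _ e => lam_inj e

lemma inn_le_card {M : Mat (ZMod n)} (v : ZMod n) (S : Finset ℕ)
    (h : ∀ w, M w v ≤ if lam w v ∈ S then 1 else 0) : inn M v ≤ S.card := by
  refine (sum_le_sum fun w _ => h w).trans ?_
  rw [← card_filter]
  exact card_le_card_of_injOn (fun w => lam w v) (fun w hw => by simpa using hw)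
    fun _ _ _ _ e => lam_inj' e

/-- `P` is replaced by `r` cycles and by virtual arcs `Q`, charged to the missing arcs `M` -/
def OK (D : ℕ) (P M : Mat (ZMod n)) : Prop :=
  ∃ (Q : Mat (ZMod n)) (r : ℕ), (∀ N t, Pack t (N + Q) → Pack (t + r) (N + P)) ∧
    (∀ v, out P v + inn Q v = inn P v + out Q v) ∧ Lam P ≤ Lam Q + n * r ∧
    (∀ a b, Q a b ≠ 0 → D ≤ lam b a ∧ out P a ≠ 0 ∧ inn P b ≠ 0) ∧
    ∀ a, out Q a ≤ inn M a ∧ inn Q a ≤ out M a

lemma OK.zero (D : ℕ) : OK D (0 : Mat (ZMod n)) 0 :=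
  ⟨0, 0, fun _ _ h => h, fun _ => add_comm _ _, by omega, fun _ _ h => absurd rfl h,
    fun a => by simp [out_zero, inn_zero]⟩

lemma OK.add {D : ℕ} {P M P' M' : Mat (ZMod n)} (h : OK D P M) (h' : OK D P' M') :
    OK D (P + P') (M + M') := by
  obtain ⟨Q, r, a1, a2, a3, a4, a5⟩ := h
  obtain ⟨Q', r', b1, b2, b3, b4, b5⟩ := h'
  refine ⟨Q + Q', r + r', fun N t hp => ?_, fun v => ?_, ?_, fun a b h0 => ?_, fun a => ?_⟩
  · rw [add_comm Q, ← add_assoc] at hp
    have h1 := a1 _ _ hp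
    rw [add_right_comm] at h1
    have h2 := b1 _ _ h1
    rwa [add_assoc, add_assoc] at h2
  · have := a2 v; have := b2 v
    simp only [out_add, inn_add]; omega
  · rw [Lam_add, Lam_add, mul_add]; omega
  · rw [out_add, inn_add]
    by_cases hq : Q a b = 0
    · have := b4 a b (by simpa [hq] using h0); omega
    · have := a4 a b hq; omega
  · have := a5 a; have := b5 a
    simp only [out_add, inn_add]; omega

lemma OK.sum {D : ℕ} {ι : Type} (s : Finset ι) {P M : ι → Mat (ZMod n)}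
    (h : ∀ i ∈ s, OK D (P i) (M i)) : OK D (∑ i ∈ s, P i) (∑ i ∈ s, M i) := by
  classical
  induction s using Finset.induction_on with
  | empty => exact OK.zero D
  | insert a s ha ih =>
    rw [sum_insert ha, sum_insert ha]
    exact (h a (mem_insert_self _ _)).add (ih fun i hi => h i (mem_insert_of_mem hi))

/-- one closed walk that winds once -/
lemma one (h3 : FD_s) {D : ℕ} (hD : 1 ≤ D) {P M : Mat (ZMod n)} (hb : Bal (P + M))
    (hl : Lam (P + M) = n) (hd : ∀ u v, (P + M) u v ≠ 0 → D ≤ lam u v) : OK D P M := by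
  have hn := NeZero.pos n
  have hc : ∀ t, cross P t + cross M t = 1 := fun t => by
    have := Lam_bal hb t
    rw [hl, cross_add] at this
    exact (Nat.eq_of_mul_eq_mul_left hn (by omega)).symm
  have ho : ∀ v, out P v + out M v ≤ 1 := fun v => by
    have := out_le_cross (fun u w h0 => hD.trans (hd u w h0)) v
    rw [out_add, cross_add, hc] at this; exact this
  have hb' : ∀ v, out P v + out M v = inn P v + inn M v := fun v => by
    have := hb v; rwa [out_add, inn_add] at this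
  by_cases hM : M = 0
  · subst hM
    rw [add_zero] at hb hl
    refine ⟨0, 1, fun N t hp => ?_, fun v => by rw [out_zero, inn_zero, hb v], by omega,
      fun _ _ h => absurd rfl h, fun a => by simp [out_zero, inn_zero]⟩
    rw [add_zero] at hp
    rw [add_comm N]
    refine pack_cyc (fun h0 => ?_) hb hp
    rw [h0, Lam, wsum_zero] at hl; omega
  obtain ⟨a0, b0, h0⟩ : ∃ a0 b0, M a0 b0 ≠ 0 := by
    by_contra hc
    push Not at hc
    exact hM (funext fun a => funext fun b => hc a b)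
  have hd0 : D ≤ lam a0 b0 := hd a0 b0 (by simp [h0])
  have hz : ∀ t, lam a0 t < lam a0 b0 → cross P t = 0 := fun t ht => by
    have h1 := le_wsum M (crs t) a0 b0
    rw [crs, if_pos ht, mul_one] at h1
    have h2 := hc t
    unfold cross at h2 ⊢
    omega
  have hz0 : cross P a0 = 0 := hz a0 (by rw [lam_self]; omega)
  obtain ⟨Q, hR, q1, q2⟩ := h3 (ZMod n) P (univ.filter fun v => out P v = inn P v)
    fun u hu => (mem_filter.1 hu).2
  simp only [mem_filter, mem_univ, true_and] at q1 q2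
  refine ⟨Q, 0, hR.pack, hR.bal, ?_, fun a b hq => ?_, fun a => ?_⟩
  · have e1 := Lam_coord P (a0 + 1)
    have e2 := Lam_coord Q (a0 + 1)
    rw [add_sub_cancel_right] at e1 e2
    have e3 : ∑ v, out P v * lam (a0 + 1) v + ∑ v, inn Q v * lam (a0 + 1) v =
        ∑ v, inn P v * lam (a0 + 1) v + ∑ v, out Q v * lam (a0 + 1) v := by
      rw [← sum_add_distrib, ← sum_add_distrib]
      exact sum_congr rfl fun v _ => by rw [← add_mul, ← add_mul, hR.bal v]
    rw [hz0] at e1
    omega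
  · obtain ⟨ha, hb2⟩ := q1 a b hq
    have o1 := le_out Q a b
    have o2 := le_inn Q a b
    have o3 := (q2 a ha).1
    have o4 := (q2 b hb2).2
    have hab : a ≠ b := by
      rintro rfl
      have := ho a; have := hb' a; omega
    have c1 : lam a b ≤ lam a a0 := by
      by_contra hlt
      have h1 := le_wsum Q (crs a0) a b
      rw [crs, if_pos (by omega), mul_one] at h1
      have h2 := hR.sub _ (subAdd_crs a0)
      unfold cross at hz0
      omega
    have c2 : lam a0 b0 ≤ lam a0 a := by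
      by_contra hlt
      have h1 := hz a (by omega)
      have h2 := out_le_cross (T := P)
        (fun u w hw => hD.trans (hd u w (by simp [hw]))) a
      omega
    have hne : a0 ≠ a := by
      rintro rfl
      rw [lam_self] at c2; omega
    have := lam_rev hne
    have := lam_rev hab
    omega
  · by_cases ha : out P a = inn P a
    · have e1 : out Q a = 0 := sum_eq_zero fun w _ => by
        by_contra hq; exact (q1 a w hq).1 ha
      have e2 : inn Q a = 0 := sum_eq_zero fun w _ => by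
        by_contra hq; exact (q1 w a hq).2 ha
      omega
    · have := q2 a ha; have := ho a; have := hb' a; omega

lemma enum_set (g : Finset ℕ) : ∃ d : ℕ → ℕ, ∀ F : ℕ → ℕ,
    ∑ i ∈ range g.card, F (d i) = ∑ e ∈ g, F e := by
  induction g using Finset.induction_on with
  | empty => exact ⟨id, fun _ => rfl⟩
  | insert a s ha ih =>
    obtain ⟨d, hd⟩ := ih
    refine ⟨fun i => if i < s.card then d i else a, fun F => ?_⟩
    rw [card_insert_of_notMem ha, sum_range_succ, sum_insert ha, ← hd F, add_comm]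
    simp only [lt_irrefl, if_false]
    exact congrArg _ (sum_congr rfl fun i hi => by rw [if_pos (mem_range.1 hi)])

/-- the closed walks with a given set of lengths -/
lemma walk (g : Finset ℕ) (hs : ∑ d ∈ g, d = n) (hlt : ∀ d ∈ g, d < n) :
    ∃ T : ZMod n → Mat (ZMod n), (∀ z, Bal (T z) ∧ Lam (T z) = n) ∧
      ∀ u v, ∑ z, T z u v = if lam u v ∈ g then 1 else 0 := by
  obtain ⟨d, hd⟩ := enum_set g
  have hm : ∀ i ∈ range g.card, d i < n := fun i hi => by
    by_contra hc
    have h1 := hd fun e => if e < n then 0 else 1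
    rw [sum_eq_zero (s := g) fun e he => if_pos (hlt e he)] at h1
    have h2 := sum_eq_zero_iff.1 h1 i hi
    rw [if_neg hc] at h2
    omega
  have hsum : ∑ i ∈ range g.card, d i = n := (hd id).trans hs
  have hstep : ∀ (z : ZMod n) i, z + ((∑ j ∈ range (i + 1), d j : ℕ) : ZMod n) =
      z + ((∑ j ∈ range i, d j : ℕ) : ZMod n) + (d i : ZMod n) := fun z i => by
    rw [sum_range_succ, Nat.cast_add, add_assoc]
  refine ⟨fun z => ∑ i ∈ range g.card, E (z + ((∑ j ∈ range i, d j : ℕ) : ZMod n))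
    (z + ((∑ j ∈ range (i + 1), d j : ℕ) : ZMod n)), fun z => ⟨fun v => ?_, ?_⟩, fun u v => ?_⟩
  · simp only [out_sum, inn_sum, out_E, inn_E]
    have e1 := sum_range_succ
      (fun i => if v = z + ((∑ j ∈ range i, d j : ℕ) : ZMod n) then 1 else 0) g.card
    have e2 := sum_range_succ'
      (fun i => if v = z + ((∑ j ∈ range i, d j : ℕ) : ZMod n) then 1 else 0) g.card
    rw [hsum, ZMod.natCast_self] at e1
    rw [sum_range_zero, Nat.cast_zero] at e2
    omega
  · rw [Lam, wsum_sum]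
    exact (sum_congr rfl fun i hi => by rw [wsum_E, hstep, lam_add_nat _ (hm i hi)]).trans hsum
  · simp only [Finset.sum_apply]
    rw [sum_comm, ← sum_ite_eq g (lam u v) fun _ => 1, ← hd fun e => if lam u v = e then 1 else 0]
    refine sum_congr rfl fun i hi => ?_
    rw [sum_eq_single (u - ((∑ j ∈ range i, d j : ℕ) : ZMod n))]
    · rw [hstep, sub_add_cancel, E]
      refine if_congr ⟨fun h => ?_, fun h => ⟨rfl, ?_⟩⟩ rfl rfl
      · rw [h.2, lam_add_nat _ (hm i hi)]
      · rw [← h, add_lam]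
    · intro z _ hz
      rw [E, if_neg]
      rintro ⟨h, -⟩
      exact hz (by rw [h, add_sub_cancel_right])
    · intro h; exact absurd (mem_univ _) h

lemma layer (h3 : FD_s) {D : ℕ} (hD : 1 ≤ D) {B : Mat (ZMod n)} (hB : ∀ u v, B u v ≤ 1)
    (g : Finset ℕ) (hs : ∑ d ∈ g, d = n) (hg : ∀ d ∈ g, D ≤ d ∧ d < n) :
    OK D (fun u v => if lam u v ∈ g then B u v else 0)
      fun u v => if lam u v ∈ g then 1 - B u v else 0 := by
  obtain ⟨T, h1, h2⟩ := walk g hs fun d hd => (hg d hd).2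
  have e : ∀ z, ((fun u v => T z u v * B u v) + fun u v => T z u v * (1 - B u v) : Mat (ZMod n)) =
      T z := fun z => by
    funext u v
    have := hB u v
    simp only [Pi.add_apply]
    rw [← mul_add, Nat.add_sub_cancel' this, mul_one]
  have key := OK.sum (D := D) univ (P := fun z u v => T z u v * B u v)
    (M := fun z u v => T z u v * (1 - B u v)) fun z _ => by
      refine one h3 hD ?_ ?_ ?_
      · rw [e]; exact (h1 z).1
      · rw [e]; exact (h1 z).2
      · rw [e]
        intro u v h0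
        have h4 := single_le_sum (f := fun z => T z u v) (fun _ _ => Nat.zero_le _) (mem_univ z)
        rw [h2] at h4
        by_cases hm : lam u v ∈ g
        · exact (hg _ hm).1
        · rw [if_neg hm] at h4; omega
  convert key using 1
  · funext u v
    simp only [Finset.sum_apply]
    rw [← sum_mul, h2]; split_ifs <;> simp
  · funext u v
    simp only [Finset.sum_apply]
    rw [← sum_mul, h2]; split_ifs <;> simp

lemma layers (h3 : FD_s) {D : ℕ} (hD : 1 ≤ D) {B : Mat (ZMod n)} (hB : ∀ u v, B u v ≤ 1)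
    (Gs : Finset (Finset ℕ)) (h1 : ∀ g ∈ Gs, ∑ d ∈ g, d = n ∧ ∀ d ∈ g, D ≤ d ∧ d < n)
    (h2 : ∀ g ∈ Gs, ∀ g' ∈ Gs, g ≠ g' → Disjoint g g') :
    OK D (fun u v => if lam u v ∈ Gs.biUnion id then B u v else 0)
      fun u v => if lam u v ∈ Gs.biUnion id then 1 - B u v else 0 := by
  have key := OK.sum (D := D) Gs fun g hg => layer h3 hD hB g (h1 g hg).1 (h1 g hg).2
  have e : ∀ x c : ℕ, (if x ∈ Gs.biUnion id then c else 0) =
      ∑ g ∈ Gs, if x ∈ g then c else 0 := fun x c => by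
    by_cases hx : x ∈ Gs.biUnion id
    · obtain ⟨g, hg, hxg⟩ := mem_biUnion.1 hx
      rw [if_pos hx, sum_eq_single_of_mem g hg, if_pos (show x ∈ g from hxg)]
      intro g' hg' hne
      exact if_neg fun hx' => disjoint_left.1 (h2 g' hg' g hg hne) hx' hxg
    · rw [if_neg hx]
      exact (sum_eq_zero fun g hg => if_neg fun hx' => hx (mem_biUnion.2 ⟨g, hg, hx'⟩)).symm
  convert key using 1
  · funext u v
    simp only [Finset.sum_apply]
    exact e _ _
  · funext u v
    simp only [Finset.sum_apply]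
    exact e _ _

lemma sum_win_mul (a : ZMod n) (k : ℕ) (f : ZMod n → ℕ) (S b : ℕ) : ∀ m : ℕ,
    (∀ j < m, S * ∑ v ∈ win (a + ((j * k : ℕ) : ZMod n)) k, f v ≤ b) →
    S * ∑ v ∈ win a (m * k), f v ≤ m * b
  | 0, _ => by simp [win]
  | m + 1, h => by
    have h1 := sum_win_mul a k f S b m fun j hj => h j (by omega)
    have h2 := h m (by omega)
    have h3 : win a ((m + 1) * k) ⊆ win a (m * k) ∪ win (a + ((m * k : ℕ) : ZMod n)) k := by
      intro v hv
      rw [mem_union, mem_win, mem_win]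
      rw [mem_win, add_mul, one_mul] at hv
      by_cases hc : lam a v < m * k
      · exact Or.inl hc
      · have h4 := lam_lt a v
        have h5 := lam_add_nat a (d := m * k) (by omega)
        have h6 := lam_coord a (a + ((m * k : ℕ) : ZMod n)) v
        omega
    have h4 := sum_le_sum_of_subset (f := f) h3
    have h5 := sum_union_inter (s₁ := win a (m * k)) (s₂ := win (a + ((m * k : ℕ) : ZMod n)) k)
      (f := f)
    have h6 : S * ∑ v ∈ win a ((m + 1) * k), f v ≤ S * (∑ v ∈ win a (m * k), f v +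
        ∑ v ∈ win (a + ((m * k : ℕ) : ZMod n)) k, f v) := Nat.mul_le_mul_left _ (by omega)
    rw [mul_add] at h6
    rw [add_mul m 1 b]
    omega

lemma val_win {a m : ℕ} (h : a + m ≤ n) {v : ZMod n} (hv : v ∈ win (a : ZMod n) m) :
    a ≤ v.val ∧ v.val < a + m := by
  rw [mem_win] at hv
  have h1 : (a : ZMod n).val = a := ZMod.val_cast_of_lt (by omega)
  have h2 := lam_val (a : ZMod n) v
  omega

/-- ideal arcs over a cut -/
lemma cross_ge {k : ℕ} {B : Mat (ZMod n)} (hB : Ideal k B) (hk : k < n) (a : ZMod n) :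
    k * (k + 1) ≤ 2 * (cross B (a + ((k - 1 : ℕ) : ZMod n)) + ∑ u ∈ win a k, mo B 1 k u) := by
  set ρ := a + ((k - 1 : ℕ) : ZMod n) with hρ
  have h1 : ∀ u, k ≤ ∑ v, B u v * crs ρ u v + lam u ρ + mo B 1 k u := fun u => by
    have e1 := hB.out_mo hk u
    have e2 := out_le_card (M := fun x y => if lam x y ∈ Icc 1 (lam u ρ) then 1 else 0) u
      (Icc 1 (lam u ρ)) fun w => le_rfl
    rw [Nat.card_Icc, out] at e2
    have e3 : out B u ≤ ∑ v, (B u v * crs ρ u v + if lam u v ∈ Icc 1 (lam u ρ) then 1 else 0) := by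
      refine sum_le_sum fun v _ => ?_
      obtain ⟨b1, b2⟩ := hB u v
      by_cases h0 : B u v = 0
      · omega
      · have := b2 h0
        rw [crs]
        by_cases hc : lam u ρ < lam u v
        · rw [if_pos hc]; omega
        · rw [if_pos (mem_Icc.2 ⟨by omega, by omega⟩)]; omega
    rw [sum_add_distrib] at e3
    omega
  have h2 : ∑ u ∈ win a k, k ≤
      ∑ u ∈ win a k, (∑ v, B u v * crs ρ u v + lam u ρ + mo B 1 k u) :=
    sum_le_sum fun u _ => h1 u
  rw [sum_const, card_win a hk.le, smul_eq_mul, sum_add_distrib, sum_add_distrib] at h2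
  have h3 : ∑ u ∈ win a k, ∑ v, B u v * crs ρ u v ≤ cross B ρ :=
    sum_le_sum_of_subset (subset_univ _)
  have h4 : ∑ u ∈ win a k, lam u ρ = ∑ i ∈ range k, (k - 1 - i) := by
    rw [sum_win a hk.le]
    refine sum_congr rfl fun i hi => ?_
    have := mem_range.1 hi
    have h5 := lam_add_nat a (d := i) (by omega)
    have h6 := lam_add_nat a (d := k - 1) (by omega)
    have h7 := lam_coord a (a + (i : ZMod n)) ρ
    rw [← hρ] at h6
    omega
  have h5 := sum_range_reflect (fun i => i) k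
  have h6 := sum_range_id_mul_two k
  rcases k with _ | k
  · omega
  · simp only [Nat.add_sub_cancel] at h4 h5 h6
    rw [h4, h5] at h2
    linarith only [h2, h3, h6]

/-- the clean state with integer constants -/
structure NS (sm : Bool) (k A S : ℕ) (B J X : Mat (ZMod n)) (Ω : Finset (ZMod n)) : Prop where
  ideal : Ideal k B
  off : Off (B + J) Ω
  bal : Bal (B + J + X)
  deg : ∀ v, out (B + J + X) v ≤ k
  hop : ∀ v ∉ Ω, A * mo B (2 * (k / 500)) (4 * (k / 500)) v ≤ k ∧
    A * mi B (2 * (k / 500)) (4 * (k / 500)) v ≤ k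
  tame : ∀ v ∉ Ω, deep sm k v → A * mo B 1 k v ≤ k ∧ A * mi B 1 k v ≤ k
  holes : ∀ a, A * (Ω ∩ win a k).card ≤ k
  wmiss : ∀ a, (∀ v ∈ win a k, deep sm k v) →
    S * ∑ v ∈ win a k, mo B 1 k v ≤ k ^ 2 ∧ S * ∑ v ∈ win a k, mi B 1 k v ≤ k ^ 2
  junk : ∀ y x, J y x ≠ 0 → 8 * (k / 500) ≤ lam x y
  load : ∀ v, A * out J v ≤ k ∧ A * inn J v ≤ k
  xs : ∀ u v, X u v ≠ 0 → sm = true ∧ lam u v ≤ 2 * k ∧ zone k u ∧ zone k v
  cross_le : ∀ t, S * (2 * cross (B + J + X) t) ≤ S * (k * (k + 1)) + 2 * k ^ 2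

lemma cv {x y A : ℕ} (hA : 0 < A) {z : ℝ} (hz : z = y) (h : (x : ℝ) ≤ 1 / (A : ℝ) * z) :
    A * x ≤ y := by
  have hA' : (0 : ℝ) < A := by exact_mod_cast hA
  rw [hz, one_div, inv_mul_eq_div, le_div_iff₀ hA', mul_comm] at h
  exact_mod_cast h

lemma ns_of {sm : Bool} {k A S : ℕ} (hA : 0 < A) (hS : 0 < S) {B J X : Mat (ZMod n)}
    {Ω : Finset (ZMod n)} (h : CS sm k (1 / (A : ℝ)) (1 / (S : ℝ)) B J X Ω) :
    NS sm k A S B J X Ω where
  ideal := h.ideal
  off := h.off
  bal := h.bal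
  deg := h.deg
  hop v hv := ⟨cv hA rfl (h.hop v hv).1, cv hA rfl (h.hop v hv).2⟩
  tame v hv hd := ⟨cv hA rfl (h.tame v hv hd).1, cv hA rfl (h.tame v hv hd).2⟩
  holes a := cv hA rfl (h.holes a)
  wmiss a ha := ⟨cv hS (Nat.cast_pow k 2).symm (by rw [Nat.cast_sum]; exact (h.wmiss a ha).1),
    cv hS (Nat.cast_pow k 2).symm (by rw [Nat.cast_sum]; exact (h.wmiss a ha).2)⟩
  junk := h.junk
  load v := ⟨cv hA rfl (h.load v).1, cv hA rfl (h.load v).2⟩
  xs := h.xs
  cross_le t := by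
    have h1 := h.lam_le
    have hn : (0 : ℝ) < n := by exact_mod_cast NeZero.pos n
    have hS' : (0 : ℝ) < S := by exact_mod_cast hS
    rw [Lam_bal h.bal t, Nat.cast_mul] at h1
    have h2 := mul_le_mul_of_nonneg_left (le_of_mul_le_mul_left h1 hn) hS'.le
    have h3 : (S : ℝ) * (CC k + 1 / (S : ℝ) * k ^ 2) = S * (k * (k + 1)) / 2 + k ^ 2 := by
      unfold CC; field_simp
    have h4 : (S : ℝ) * (2 * cross (B + J + X) t) ≤ S * (k * (k + 1)) + 2 * k ^ 2 := by
      rw [h3] at h2; linarith only [h2]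
    exact_mod_cast h4

lemma NS.jo {sm : Bool} {k A S : ℕ} {B J X : Mat (ZMod n)} {Ω : Finset (ZMod n)}
    (h : NS sm k A S B J X Ω) (hk : k < n) (v : ZMod n) :
    out J v ≤ mo B 1 k v ∧ inn J v ≤ mi B 1 k v := by
  have h1 := h.deg v
  have h2 := h.bal v
  have h3 := h.ideal.out_mo hk v
  have h4 := h.ideal.inn_mi hk v
  simp only [out_add, inn_add] at h1 h2
  omega

/-- the statement of `LL_s` at one scale -/
def LLat (M0 k : ℕ) (n : ℕ) [NeZero n] : Prop := ∀ (B J X : Mat (ZMod n))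
  (Ω : Finset (ZMod n)) (ρ : ZMod n), (M0 + 1) * k ≤ n → Ideal k B → Off (B + J) Ω →
  Bal (B + J + X) →
  (∀ u v, X u v ≠ 0 → u ∉ win ρ (M0 * k) ∧ v ∉ win ρ (M0 * k)) →
  (∀ v ∈ win ρ (M0 * k), v ∉ Ω → 200 * mo B 1 k v ≤ k ∧ 200 * mi B 1 k v ≤ k) →
  (∀ a, 100 * (Ω ∩ win a k).card ≤ k) →
  (∀ v ∉ Ω, 10 * mo B (2 * (k / 500)) (4 * (k / 500)) v ≤ k / 500 ∧
    10 * mi B (2 * (k / 500)) (4 * (k / 500)) v ≤ k / 500) →
  (∀ y x, J y x ≠ 0 → 8 * (k / 500) ≤ lam x y) →
  (∀ v, 10 * out J v ≤ k / 500 ∧ 10 * inn J v ≤ k / 500) → 200 * size J ≤ (k / 500) ^ 2 →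
  Pack (cross (B + J) ρ) (B + J + X)

lemma sh {A x k : ℕ} (c : ℕ) (hA : c ≤ A) (h : A * x ≤ k) : c * x ≤ k :=
  (Nat.mul_le_mul_right x hA).trans h

lemma caseA {sm : Bool} {M0 k A S : ℕ} {B J X : Mat (ZMod n)} {Ω : Finset (ZMod n)}
    (hL : LLat M0 k n) (h : NS sm k A S B J X Ω) (hA : 10000 ≤ A)
    (hS : 400000000 * (M0 + 1) ≤ S) (hk : 500 ≤ k) (hn : (M0 + 7) * k ≤ n) (t : ℕ)
    (ht : t * n ≤ Lam (B + J + X)) : Pack t (B + J + X) := by
  have hn' : M0 * k + 7 * k ≤ n := by rwa [add_mul] at hn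
  have hkn : k < n := by omega
  obtain ⟨ρ, hρ⟩ : ∃ ρ : ZMod n, ρ = ((4 * k : ℕ) : ZMod n) := ⟨_, rfl⟩
  have hρv : ρ.val = 4 * k := by rw [hρ]; exact ZMod.val_cast_of_lt (by omega)
  obtain ⟨R, hR⟩ : ∃ R, R = win ρ (M0 * k) := ⟨_, rfl⟩
  have hRv : ∀ v ∈ R, 4 * k ≤ v.val ∧ v.val < 4 * k + M0 * k := fun v hv =>
    val_win (by omega) (by rwa [hR, hρ] at hv)
  obtain ⟨J1, hJ1⟩ : ∃ J1 : Mat (ZMod n),
    J1 = fun u v => if u ∈ R ∨ v ∈ R ∨ crs ρ u v = 1 then J u v else 0 := ⟨_, rfl⟩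
  obtain ⟨J2, hJ2⟩ : ∃ J2 : Mat (ZMod n),
    J2 = fun u v => if u ∈ R ∨ v ∈ R ∨ crs ρ u v = 1 then 0 else J u v := ⟨_, rfl⟩
  have hJ : J = J1 + J2 := by
    funext u v
    simp only [hJ1, hJ2, Pi.add_apply]
    split_ifs <;> simp
  have hle : J1 ≤ J := by rw [hJ]; exact le_self_add
  have hG : B + J + X = B + J1 + (J2 + X) := by rw [hJ]; abel
  have hX : ∀ u v, (J2 + X) u v ≠ 0 → u ∉ R ∧ v ∉ R ∧ crs ρ u v = 0 := fun u v h0 => by
    by_cases hx : X u v = 0
    · have h1 : J2 u v ≠ 0 := by simpa [hx] using h0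
      have h2 : ¬ (u ∈ R ∨ v ∈ R ∨ crs ρ u v = 1) := fun hc => h1 (by simp only [hJ2, if_pos hc])
      have := crs_le ρ u v
      exact ⟨fun hc => h2 (Or.inl hc), fun hc => h2 (Or.inr (Or.inl hc)), by omega⟩
    · obtain ⟨-, x1, x2, x3⟩ := h.xs u v hx
      unfold zone at x2 x3
      refine ⟨fun hc => ?_, fun hc => ?_, ?_⟩
      · have := hRv u hc; omega
      · have := hRv v hc; omega
      · have := lam_val u ρ
        have := ZMod.val_lt u
        rw [crs, if_neg (by omega)]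
  have hX0 : cross (J2 + X) ρ = 0 := by
    rw [cross, wsum_congr (g := fun _ _ => 0) fun u v h0 => (hX u v h0).2.2, wsum_const, mul_zero]
  have hsz : size J1 ≤ ∑ v ∈ R, mo B 1 k v + ∑ v ∈ R, mi B 1 k v + cross J1 ρ := by
    have e1 : size J1 ≤ wsum J1 fun u v =>
        (if u ∈ R then 1 else 0) + (if v ∈ R then 1 else 0) + crs ρ u v := by
      rw [← wsum_one]
      refine wsum_le fun u v h0 => ?_
      have h2 : u ∈ R ∨ v ∈ R ∨ crs ρ u v = 1 := by
        by_contra hc
        exact h0 (by simp only [hJ1, if_neg hc])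
      rcases h2 with h2 | h2 | h2
      · rw [if_pos h2]; omega
      · rw [if_pos h2]; omega
      · omega
    rw [wsum_fadd, wsum_fadd, wsum_tail, wsum_head] at e1
    simp only [mul_ite, mul_one, mul_zero, sum_ite_mem, univ_inter] at e1
    have e2 : ∑ v ∈ R, out J1 v ≤ ∑ v ∈ R, mo B 1 k v :=
      sum_le_sum fun v _ => (out_mono hle v).trans (h.jo hkn v).1
    have e3 : ∑ v ∈ R, inn J1 v ≤ ∑ v ∈ R, mi B 1 k v :=
      sum_le_sum fun v _ => (inn_mono hle v).trans (h.jo hkn v).2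
    unfold cross
    omega
  have hw : ∀ a : ℕ, k ≤ a → a + 2 * k ≤ n → ∀ v ∈ win (a : ZMod n) k, deep sm k v :=
    fun a a1 a2 v hv _ => by
      have := val_win (by omega) hv
      omega
  have hw' : ∀ j < M0, ∀ v ∈ win (ρ + ((j * k : ℕ) : ZMod n)) k, deep sm k v := fun j hj => by
    have : (j + 1) * k ≤ M0 * k := Nat.mul_le_mul_right k hj
    rw [add_mul] at this
    rw [hρ, ← Nat.cast_add]
    exact hw _ (by omega) (by omega)
  have s1 := sum_win_mul ρ k (mo B 1 k) S (k ^ 2) M0 fun j hj => (h.wmiss _ (hw' j hj)).1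
  have s2 := sum_win_mul ρ k (mi B 1 k) S (k ^ 2) M0 fun j hj => (h.wmiss _ (hw' j hj)).2
  rw [← hR] at s1 s2
  have s3 := cross_ge h.ideal hkn ((3 * k + 1 : ℕ) : ZMod n)
  rw [← Nat.cast_add, show 3 * k + 1 + (k - 1) = 4 * k by omega, ← hρ] at s3
  have s4 := (h.wmiss _ (hw (3 * k + 1) (by omega) (by omega))).1
  have s5 := h.cross_le ρ
  rw [hG, cross_add, cross_add, hX0, add_zero] at s5
  have s6 : S * cross J1 ρ ≤ 2 * k ^ 2 := by
    have := Nat.mul_le_mul_left S s3
    simp only [mul_add, mul_left_comm S 2] at this s5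
    omega
  have s7 : S * size J1 ≤ (M0 + 1) * (2 * k ^ 2) := by
    have := Nat.mul_le_mul_left S hsz
    simp only [mul_add] at this
    rw [add_mul, mul_left_comm]
    omega
  have s8 : 200 * size J1 ≤ (k / 500) ^ 2 := by
    have e1 := sh _ hS s7
    rw [mul_comm 400000000, mul_assoc] at e1
    have e2 := Nat.le_of_mul_le_mul_left e1 (by omega)
    have e3 : k ^ 2 ≤ (1000 * (k / 500)) ^ 2 := Nat.pow_le_pow_left (by omega) 2
    rw [mul_pow] at e3
    omega
  have key := hL B J1 (J2 + X) Ω ρ (by rw [add_mul]; omega) h.ideal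
    (h.off.anti (add_le_add_right hle B)) (hG ▸ h.bal)
    (fun u v h0 => by rw [← hR]; exact ⟨(hX u v h0).1, (hX u v h0).2.1⟩)
    (fun v hv hΩ => by
      have e := h.tame v hΩ fun _ => by have := hRv v (hR ▸ hv); omega
      exact ⟨sh _ (by omega) e.1, sh _ (by omega) e.2⟩)
    (fun a => sh _ (by omega) (h.holes a))
    (fun v hv => by
      have e1 := sh _ hA (h.hop v hv).1
      have e2 := sh _ hA (h.hop v hv).2
      omega)
    (fun y x h0 => h.junk y x (ne_of_le hle h0))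
    (fun v => by
      have e1 := sh _ hA (h.load v).1
      have e2 := sh _ hA (h.load v).2
      have e3 := out_mono hle v
      have e4 := inn_mono hle v
      omega) s8
  rw [Lam_bal h.bal ρ, hG, cross_add, hX0, add_zero, mul_comm] at ht
  rw [hG]
  exact pack_le (Nat.le_of_mul_le_mul_left ht (NeZero.pos n)) key

lemma caseB (h3 : FD_s) {M0 M c k k' A S : ℕ} {B J X : Mat (ZMod n)} {Ω : Finset (ZMod n)}
    (hL : LLat M0 k' n) (h : NS false k A S B J X Ω) (hM : M0 + 1 ≤ M) (hA : 100000 * M ≤ A)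
    (hS : 5000000000 * M ^ 3 ≤ S) (hk : 2 * k + 1 ≤ n) (hn : n ≤ M * k)
    (hk' : 500 * (2000000 * (c * M) + 20 * c + 1) ≤ k') (Gs : Finset (Finset ℕ))
    (d1 : M * k' ≤ n) (d2 : n ≤ 5 * M * k') (d3 : k' ≤ k)
    (d4 : ∀ g ∈ Gs, g ⊆ Ioc k' k ∧ ∑ d ∈ g, d = n)
    (d5 : ∀ g ∈ Gs, ∀ g' ∈ Gs, g ≠ g' → Disjoint g g') (d6 : (Ioc k' k \ Gs.biUnion id).card ≤ c)
    (t : ℕ) (ht : t * n ≤ Lam (B + J + X)) : Pack t (B + J + X) := by
  have hkn : k < n := by omega
  have hX : X = 0 := by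
    funext u v
    by_contra h0
    exact absurd (h.xs u v h0).1 (by simp)
  subst hX
  have hdp : ∀ v : ZMod n, deep false k v := fun v hv => absurd hv (by simp)
  obtain ⟨Q, r, q1, q2, q3, q4, q5⟩ := layers h3 (D := k' + 1) (by omega)
    (fun u v => (h.ideal u v).1) Gs (fun g hg => ⟨(d4 g hg).2, fun d hd => by
      have := mem_Ioc.1 ((d4 g hg).1 hd); omega⟩) d5
  have hU : ∀ d ∈ Gs.biUnion id, k' < d ∧ d ≤ k := fun d hd => by
    obtain ⟨g, hg, hdg⟩ := mem_biUnion.1 hd
    exact mem_Ioc.1 ((d4 g hg).1 hdg)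
  generalize Gs.biUnion id = U at q1 q2 q3 q4 q5 d6 hU
  obtain ⟨P, hP⟩ : ∃ P : Mat (ZMod n), P = fun u v => if lam u v ∈ U then B u v else 0 := ⟨_, rfl⟩
  obtain ⟨N, hN⟩ : ∃ N : Mat (ZMod n), N = fun u v => if lam u v ∈ U then 1 - B u v else 0 :=
    ⟨_, rfl⟩
  rw [← hP] at q1 q2 q3 q4
  rw [← hN] at q5
  obtain ⟨B', hB'⟩ : ∃ B' : Mat (ZMod n), B' = fun u v => if lam u v ≤ k' then B u v else 0 :=
    ⟨_, rfl⟩
  obtain ⟨W, hW⟩ : ∃ W : Mat (ZMod n),
    W = fun u v => if lam u v ∈ Ioc k' k \ U then B u v else 0 := ⟨_, rfl⟩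
  have hB : B = B' + W + P := by
    funext u v
    simp only [hB', hW, hP, Pi.add_apply, mem_sdiff, mem_Ioc]
    by_cases h0 : B u v = 0
    · simp [h0]
    · have e1 := (h.ideal u v).2 h0
      by_cases e2 : lam u v ∈ U
      · have := hU _ e2
        rw [if_neg (by omega), if_neg (by tauto), if_pos e2]; omega
      · by_cases e3 : lam u v ≤ k'
        · rw [if_pos e3, if_neg (by omega), if_neg e2]; omega
        · rw [if_neg e3, if_pos ⟨by omega, e2⟩, if_neg e2]; omega
  have l1 : B' ≤ B := by rw [hB, add_assoc]; exact le_self_add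
  have l2 : W ≤ B := by rw [hB]; exact le_add_self.trans le_self_add
  have l3 : P ≤ B := by rw [hB]; exact le_add_self
  have oB : Off B Ω := h.off.anti le_self_add
  have oQ : Off Q Ω := fun a b h0 => by
    obtain ⟨-, e1, e2⟩ := q4 a b h0
    obtain ⟨x, hx⟩ := exists_out e1
    obtain ⟨y, hy⟩ := exists_inn e2
    exact ⟨(oB _ _ (ne_of_le l3 hx)).1, (oB _ _ (ne_of_le l3 hy)).2⟩
  have w1 : ∀ v, out W v ≤ c ∧ inn W v ≤ c := fun v => by
    refine ⟨(out_le_card v _ fun x => ?_).trans d6, (inn_le_card v _ fun x => ?_).trans d6⟩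
    · have := (h.ideal v x).1
      simp only [hW]; split_ifs <;> omega
    · have := (h.ideal x v).1
      simp only [hW]; split_ifs <;> omega
  have n1 : ∀ v, out Q v ≤ mi B 1 k v ∧ inn Q v ≤ mo B 1 k v := fun v => by
    refine ⟨(q5 v).1.trans (inn_le_card v _ fun x => ?_),
      (q5 v).2.trans (out_le_card v _ fun x => ?_)⟩
    · simp only [hN, mem_filter, mem_Icc, sub_lam]
      by_cases e : lam x v ∈ U
      · have := hU _ e
        by_cases h0 : B x v = 0
        · rw [if_pos e, if_pos ⟨by omega, h0⟩]; omega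
        · rw [if_pos e]; omega
      · rw [if_neg e]; omega
    · simp only [hN, mem_filter, mem_Icc, add_lam]
      by_cases e : lam v x ∈ U
      · have := hU _ e
        by_cases h0 : B v x = 0
        · rw [if_pos e, if_pos ⟨by omega, h0⟩]; omega
        · rw [if_pos e]; omega
      · rw [if_neg e]; omega
  have m1 : ∀ p q, 1 ≤ p → q ≤ k' → ∀ v, mo B' p q v ≤ mo B 1 k v ∧ mi B' p q v ≤ mi B 1 k v :=
    fun p q hp hq v => by
      refine ⟨card_le_card fun d hd => ?_, card_le_card fun d hd => ?_⟩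
      · rw [mem_filter, mem_Icc] at hd ⊢
        obtain ⟨e1, e2⟩ := hd
        simp only [hB'] at e2
        rw [lam_add_nat v (by omega), if_pos (by omega)] at e2
        exact ⟨by omega, e2⟩
      · rw [mem_filter, mem_Icc] at hd ⊢
        obtain ⟨e1, e2⟩ := hd
        simp only [hB'] at e2
        rw [lam_sub_nat v (by omega), if_pos (by omega)] at e2
        exact ⟨by omega, e2⟩
  obtain ⟨w, hw⟩ : ∃ w, w = k' / 500 := ⟨_, rfl⟩
  have hw1 : k' ≤ 1000 * w := by omega
  have hw2 : 2000000 * (c * M) + 20 * c + 1 ≤ w := by omega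
  have hnw : n ≤ M * (5000 * w) := by
    have := Nat.mul_le_mul_left (5 * M) hw1
    have e : 5 * M * (1000 * w) = M * (5000 * w) := by ring
    omega
  have hkw : k ≤ M * (2500 * w) := by
    have e : M * (5000 * w) = 2 * (M * (2500 * w)) := by ring
    omega
  have sm1 : ∀ x, A * x ≤ k → 40 * x ≤ w := fun x hx => by
    have e1 := (sh _ hA hx).trans hkw
    rw [mul_comm 100000, mul_assoc] at e1
    have := Nat.le_of_mul_le_mul_left e1 (by omega)
    omega
  have sm2 : ∀ f : ZMod n → ℕ, (∀ a, S * ∑ v ∈ win a k, f v ≤ k ^ 2) →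
      800 * ∑ v, f v ≤ w ^ 2 := fun f hf => by
    have e1 := sum_win_mul 0 k f S (k ^ 2) M fun j _ => hf _
    have e2 : win (0 : ZMod n) (M * k) = univ :=
      eq_univ_of_forall fun v => mem_win.2 ((lam_lt _ _).trans_le hn)
    rw [e2] at e1
    have e3 := (sh _ hS e1).trans (Nat.mul_le_mul_left M (Nat.pow_le_pow_left hkw 2))
    have e4 : M * (M * (2500 * w)) ^ 2 = M ^ 3 * (6250000 * w ^ 2) := by ring
    rw [e4, mul_comm 5000000000, mul_assoc] at e3
    have := Nat.le_of_mul_le_mul_left e3 (pow_pos (by omega) 3)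
    omega
  have z1 := sm2 _ fun a => (h.wmiss a fun v _ => hdp v).1
  have z2 := sm2 _ fun a => (h.wmiss a fun v _ => hdp v).2
  have z3 : size J ≤ ∑ v, mo B 1 k v := sum_le_sum fun v _ => (h.jo hkn v).1
  have z4 : size Q ≤ ∑ v, mi B 1 k v := sum_le_sum fun v _ => (n1 v).1
  have z5 : 400 * size W ≤ w ^ 2 := by
    have e1 : size W ≤ ∑ _v : ZMod n, c := sum_le_sum fun v _ => (w1 v).1
    rw [sum_const, card_univ, ZMod.card, smul_eq_mul] at e1
    have e2 := Nat.mul_le_mul_right c hnw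
    have e3 : 2000000 * (c * M) * w ≤ w * w := Nat.mul_le_mul_right w (by omega)
    have e4 : 400 * (M * (5000 * w) * c) = 2000000 * (c * M) * w := by ring
    rw [sq]
    omega
  have hG : B + J + 0 = B' + (J + W) + P := by
    conv_lhs => rw [hB]
    abel
  have hbal : Bal (B' + (J + W + Q) + 0) := fun v => by
    have e1 := h.bal v
    have e2 := q2 v
    rw [hG] at e1
    simp only [out_add, inn_add, out_zero, inn_zero] at e1 ⊢
    omega
  have key := hL B' (J + W + Q) 0 Ω 0 ((Nat.mul_le_mul_right k' hM).trans d1)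
    (fun u v => ⟨(l1 u v).trans (h.ideal u v).1, fun h0 => ⟨((h.ideal u v).2 (ne_of_le l1 h0)).1, by
      by_contra hc
      exact h0 (by simp only [hB', if_neg hc])⟩⟩)
    ((oB.anti l1).add (((h.off.anti le_add_self).add (oB.anti l2)).add oQ)) hbal
    (fun _ _ h0 => absurd rfl h0)
    (fun v _ hv => by
      have e := h.tame v hv (hdp v)
      have e1 := sm1 _ e.1
      have e2 := sm1 _ e.2
      have e3 := m1 1 k' le_rfl le_rfl v
      omega)
    (fun a => by
      have e1 := sm1 _ (h.holes a)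
      have e2 : (Ω ∩ win a k').card ≤ (Ω ∩ win a k).card :=
        card_le_card (inter_subset_inter_left fun v hv => mem_win.2 ((mem_win.1 hv).trans_le d3))
      omega)
    (fun v hv => by
      have e := h.tame v hv (hdp v)
      have e1 := sm1 _ e.1
      have e2 := sm1 _ e.2
      have e3 := m1 (2 * (k' / 500)) (4 * (k' / 500)) (by omega) (by omega) v
      omega)
    (fun y x h0 => by
      by_cases j0 : J y x = 0
      · by_cases w0 : W y x = 0
        · have := (q4 y x (by simpa [j0, w0] using h0)).1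
          omega
        · have e1 := (h.ideal y x).2 (ne_of_le l2 w0)
          have e2 := lam_tri y x y
          rw [lam_self] at e2
          omega
      · have := h.junk y x j0
        omega)
    (fun v => by
      have e1 := sm1 _ (h.load v).1
      have e2 := sm1 _ (h.load v).2
      have e3 := w1 v
      have e4 : 40 * out Q v ≤ w ∧ 40 * inn Q v ≤ w := by
        by_cases hv : v ∈ Ω
        · have o1 : out Q v = 0 := sum_eq_zero fun x _ => by
            by_contra hq; exact (oQ _ _ hq).1 hv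
          have o2 : inn Q v = 0 := sum_eq_zero fun x _ => by
            by_contra hq; exact (oQ _ _ hq).2 hv
          omega
        · have e := h.tame v hv (hdp v)
          have o1 := sm1 _ e.1
          have o2 := sm1 _ e.2
          have o3 := n1 v
          omega
      simp only [out_add, inn_add]
      omega)
    (by rw [size_add, size_add, ← hw]; omega)
  have hl := Lam_bal hbal 0
  rw [add_zero] at hl key
  rw [hG] at ht ⊢
  rw [← add_assoc B'] at key
  refine pack_le (Nat.le_of_mul_le_mul_left (c := n) ?_ (NeZero.pos n)) (q1 _ _ key)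
  rw [← add_assoc B'] at hl
  rw [mul_add, ← hl, mul_comm n t, Lam_add _ Q]
  rw [Lam_add _ P] at ht
  omega

end FIN

open FIN in
theorem fin (h1 : LL_s) (h2 : DES_s) (h3 : FD_s) : FIN_s := by
  obtain ⟨M0, k1, hL⟩ := h1
  obtain ⟨c, k2, hD⟩ := h2 (M0 + 7)
  obtain ⟨M, hM⟩ : ∃ M, M = M0 + 7 := ⟨_, rfl⟩
  rw [← hM] at hD
  obtain ⟨K, hK⟩ : ∃ K, K = k1 + 500 * (2000000 * (c * M) + 20 * c + 1) := ⟨_, rfl⟩
  have hM0 : 0 < M := by omega
  have hA : 0 < 100000 * M := by omega
  have hM3 : M ≤ M ^ 3 := Nat.le_self_pow (by omega) M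
  have hS : 0 < 5000000000 * M ^ 3 := by omega
  refine ⟨1 / ((100000 * M : ℕ) : ℝ), 1 / ((5000000000 * M ^ 3 : ℕ) : ℝ),
    one_div_pos.2 (Nat.cast_pos.2 hA), one_div_pos.2 (Nat.cast_pos.2 hS), M,
    k1 + k2 + 500 + 5 * M * K, ?_⟩
  intro k hk n _ sm B J X Ω hn hsm h t ht
  have h' := ns_of hA hS h
  by_cases hc : M * k ≤ n
  · exact caseA (hL k (by omega) n) h' (by omega) (by omega) (by omega) (hM ▸ hc) t ht
  · obtain rfl : sm = false := by
      cases sm
      · rfl
      · exact absurd (hsm rfl) hc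
    obtain ⟨k', Gs, d1, d2, d3, d4, d5, d6⟩ := hD k n (by omega) hn (by omega)
    have hk5 : 5 * M * K ≤ 5 * M * k' := by omega
    have hk' : K ≤ k' := Nat.le_of_mul_le_mul_left hk5 (by omega)
    exact caseB h3 (hL k' (by omega) n) h' (by omega) le_rfl le_rfl hn (by omega) (by omega) Gs
      d1 d2 d3 d4 d5 d6 t ht

end Pool.Agent.MP_2634a8_co.X
end
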