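import Mathlib
import Pool.Agent.MP_2634a8_co.Y.Stm

attribute [-instance] instCharZeroOfIsSemireal AddQuantale.instAddLeftMono DivisionRing.toRing
  NumberField.to_charZero List.instDecidableMemOfLawfulBEq RKHS.instFunLike RCLike.charZero_rclike
  littleWedderburn IdemSemiring.toCanonicallyOrderedAdd Finset.decidableDforallFinset
  Multiset.decidableDforallMultiset instCoeTOfCoeDep
  Vector.instDecidableForallForallMemOfDecidablePred
  Array.instDecidableForallForallMemOfDecidablePred Option.decidableForallMem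
  CompletePartialOrder.toPartialOrder Int.decidableLTLE
  Group.IsPerfect.subsingleton_of_isMulCommutative AddQuantale.instAddRightMono NeZero.of_gt'
  IdemSemiring.toSemiring LinearOrderedCommMonoidWithZero.toPosMulStrictMono Nontrivial.to_nonempty
  BooleanRing.toRing Int.decidableLELE Int.decidableLTLT TestFunctionClass.toDFunLike
  instCoeHTCTOfCoeTailOfCoeHTC Invertible.toNeZero DistribLattice.toLattice Int.decidableLELT
  ContDiffMapSupportedInClass.toDFunLike Quantale.instMulRightMono Zero.instNonempty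
  instCoeHTCOfCoeHeadOfCoeOTC

section
namespace Pool.Agent.MP_2634a8_co.X

open Finset

namespace OPT

section gen
variable {V : Type} [Fintype V] [DecidableEq V]

lemma back_split (M : Mat V) (U : Finset V) (ρ : V → ℕ) : back M ρ = back (res M U) ρ +
    ∑ u, ∑ v, if ¬ (u ∈ U ∧ v ∈ U) ∧ ρ v ≤ ρ u then M u v else 0 := by
  simp only [back, res, ← sum_add_distrib]
  refine sum_congr rfl fun u _ => sum_congr rfl fun v _ => ?_
  by_cases h : u ∈ U ∧ v ∈ U <;> by_cases g : ρ v ≤ ρ u <;> simp [h, g]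

/-- gluing of two orders: first the complement of `S`, then `S` -/
lemma fas_glue {M : Mat V} {S : Finset V} {a b : ℝ} (h1 : Fas (res M S) a)
    (h2 : Fas (res M Sᶜ) b) : Fas M (a + b + eb M S Sᶜ) := by
  obtain ⟨ρ, h1⟩ := h1
  obtain ⟨σ, h2⟩ := h2
  have hs : ∀ v, σ v ≤ ∑ w, σ w := fun v =>
    single_le_sum (f := σ) (fun _ _ => Nat.zero_le _) (mem_univ v)
  refine ⟨fun v => if v ∈ S then ∑ w, σ w + 1 + ρ v else σ v, le_trans ?_
    (add_le_add (add_le_add h1 h2) le_rfl)⟩
  have e : eb M S Sᶜ = ∑ u, ∑ v, if u ∈ S ∧ v ∉ S then M u v else 0 := by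
    simp only [eb, ite_and, sum_ite_irrel, sum_const_zero, sum_ite_mem, univ_inter, ← mem_compl]
  rw [e, ← Nat.cast_add, ← Nat.cast_add, Nat.cast_le]
  simp only [back, res, ← sum_add_distrib]
  refine sum_le_sum fun u _ => sum_le_sum fun v _ => ?_
  have := hs u
  by_cases hu : u ∈ S <;> by_cases hv : v ∈ S <;>
    simp only [hu, hv, mem_compl, not_true, not_false_iff, and_self, and_true, and_false,
      if_true, if_false] <;> split_ifs <;> omega

end gen

variable {n : ℕ} [NeZero n]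

lemma lam_lt (u v : ZMod n) : lam u v < n := ZMod.val_lt _

omit [NeZero n] in
lemma lam_eq_zero {u v : ZMod n} : lam u v = 0 ↔ v = u := by
  rw [lam, ZMod.val_eq_zero, sub_eq_zero]

omit [NeZero n] in
lemma lam_self (u : ZMod n) : lam u u = 0 := lam_eq_zero.2 rfl

lemma lam_inj {a u v : ZMod n} (h : lam a u = lam a v) : u = v :=
  sub_left_injective (ZMod.val_injective n h)

lemma lam_add (a u v : ZMod n) :
    lam a u + lam u v = lam a v + n * if lam a v < lam a u then 1 else 0 := by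
  have h := ZMod.val_add (u - a) (v - u)
  rw [sub_add_sub_cancel'] at h
  have h1 := lam_lt a u
  have h2 := lam_lt u v
  change lam a v = (lam a u + lam u v) % n at h
  by_cases g : lam a u + lam u v < n
  · rw [Nat.mod_eq_of_lt g] at h
    rw [if_neg (by omega)]; omega
  · rw [Nat.mod_eq_sub_mod (not_lt.1 g), Nat.mod_eq_of_lt (by omega)] at h
    rw [if_pos (by omega)]; omega

lemma Lam_eq {M : Mat (ZMod n)} (h0 : ∀ a, M a a = 0) (hb : Bal M) (a : ZMod n) :
    Lam M = n * back M (lam a) := by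
  have e : ∑ u, ∑ v, M u v * lam a u = ∑ u, ∑ v, M u v * lam a v := by
    rw [sum_comm (f := fun u v => M u v * lam a v)]
    simp only [← sum_mul]
    exact sum_congr rfl fun u _ => congrArg (· * lam a u) (hb u)
  have : ∑ u, ∑ v, M u v * lam a u + Lam M = ∑ u, ∑ v, M u v * lam a v + n * back M (lam a) := by
    simp only [Lam, wsum, back, mul_sum, ← sum_add_distrib]
    refine sum_congr rfl fun u _ => sum_congr rfl fun v _ => ?_
    rw [← mul_add, lam_add, mul_add]
    rcases lt_trichotomy (lam a v) (lam a u) with h | h | h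
    · simp [h, h.le, mul_comm]
    · simp [lam_inj h, h0]
    · simp [h.not_ge, h.not_gt]
  omega

lemma sort {V : Type} [Fintype V] (hn : Fintype.card V = n) (M : Mat V) (ρ : V → ℕ) :
    ∃ e : ZMod n ≃ V, back (fun u v => M (e u) (e v)) (lam 0) ≤ back M ρ := by
  let f := (Fintype.equivFinOfCardEq hn).symm
  let g : ZMod n ≃ Fin n := Equiv.ofBijective (fun u => ⟨lam 0 u, lam_lt _ _⟩)
    ((Fintype.bijective_iff_injective_and_card _).2
      ⟨fun u v h => lam_inj (congrArg Fin.val h), by simp⟩)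
  let e := g.trans ((Tuple.sort (ρ ∘ f)).trans f)
  refine ⟨e, ?_⟩
  unfold back
  rw [← e.sum_comp]
  refine sum_le_sum fun u _ => ?_
  rw [← e.sum_comp]
  refine sum_le_sum fun v _ => ?_
  split_ifs with h1 h2
  · exact le_rfl
  · exact absurd (Tuple.monotone_sort (ρ ∘ f) (show g v ≤ g u from h1)) h2
  · exact Nat.zero_le _
  · exact le_rfl

lemma mem_win {a v : ZMod n} {m : ℕ} : v ∈ win a m ↔ lam a v < m := by simp [win]

/-- sum over the pairs of a window, split at one vertex -/
lemma back_res (M : Mat (ZMod n)) (U : Finset (ZMod n)) {z : ZMod n} (hz : z ∈ U)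
    (ρ : ZMod n → ℕ) : back (res M U) ρ = M z z + ∑ x ∈ U.erase z, (if ρ x ≤ ρ z then M z x else 0) +
      ∑ y ∈ U.erase z, (if ρ z ≤ ρ y then M y z else 0) +
      ∑ u ∈ U.erase z, ∑ v ∈ U.erase z, if ρ v ≤ ρ u then M u v else 0 := by
  have e : back (res M U) ρ = ∑ u ∈ U, ∑ v ∈ U, if ρ v ≤ ρ u then M u v else 0 := by
    unfold back res
    rw [← sum_subset (subset_univ U) fun u _ hu => by simp [hu]]
    refine sum_congr rfl fun u hu => ?_
    rw [← sum_subset (subset_univ U) fun v _ hv => by simp [hv]]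
    exact sum_congr rfl fun v hv => by simp [hu, hv]
  rw [e, ← add_sum_erase U _ hz]
  simp only [← add_sum_erase U _ hz, sum_add_distrib, le_refl, if_true, add_assoc]

lemma win_erase (v : ZMod n) {j : ℕ} (hj : j < n) : (win v (j + 1)).erase v = win (v + 1) j := by
  ext x
  rw [mem_erase, mem_win, mem_win]
  rcases Nat.eq_zero_or_pos j with rfl | j0
  · simp only [zero_add, Nat.lt_one_iff, lam_eq_zero, Nat.not_lt_zero, not_and_self_iff]
  have : Fact (1 < n) := ⟨by omega⟩
  have h := lam_add v (v + 1) x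
  have h1 : lam v (v + 1) = 1 := by rw [lam, add_sub_cancel_left, ZMod.val_one]
  rw [h1] at h
  rw [ne_eq, ← lam_eq_zero (u := v)]
  split_ifs at h <;> omega

lemma move (M : Mat (ZMod n)) (U : Finset (ZMod n)) {z : ZMod n} (hz : z ∈ U) (ρ σ : ZMod n → ℕ)
    (h0 : ∀ u ∈ U.erase z, ∀ v ∈ U.erase z, ρ v ≤ ρ u ↔ σ v ≤ σ u)
    (h1 : ∀ x ∈ U.erase z, ρ z < ρ x) (h2 : ∀ x ∈ U.erase z, σ x < σ z) :
    back (res M U) ρ + ∑ x ∈ U.erase z, M z x = back (res M U) σ + ∑ y ∈ U.erase z, M y z := by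
  rw [back_res _ _ hz, back_res _ _ hz, sum_congr rfl fun x hx => if_neg (h1 x hx).not_ge,
    sum_congr rfl fun x hx => if_pos (h1 x hx).le, sum_congr rfl fun x hx => if_pos (h2 x hx).le,
    sum_congr rfl fun x hx => if_neg (h2 x hx).not_ge,
    sum_congr rfl fun u hu => sum_congr rfl fun v hv => if_congr (h0 u hu v hv) rfl rfl]
  simp only [sum_const_zero]
  ring

/-- ballot property: move the first vertex of the window to the end -/
lemma ballot {M : Mat (ZMod n)} {v : ZMod n} {j : ℕ} (hj : j < n) (h : OptAt M v (j + 1)) :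
    ∑ y ∈ win (v + 1) j, M y v ≤ ∑ x ∈ win (v + 1) j, M v x := by
  have hv : v ∈ win v (j + 1) := by rw [mem_win, lam_self]; omega
  have h1 := h fun x => if x = v then n else lam v x
  have h2 := move M _ hv (lam v) (fun x => if x = v then n else lam v x)
    (fun a ha b hb => by simp only [ne_of_mem_erase ha, ne_of_mem_erase hb, if_false])
    (fun x hx => by
      rw [lam_self, Nat.pos_iff_ne_zero, ne_eq, lam_eq_zero]; exact ne_of_mem_erase hx)
    (fun x hx => by simp only [ne_of_mem_erase hx, if_false, if_true]; exact lam_lt _ _)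
  rw [win_erase v hj] at h2
  omega

/-- mirror image: move the last vertex of the window to the front -/
lemma ballot' {M : Mat (ZMod n)} {a : ZMod n} {j : ℕ} (hj : j < n) (h : OptAt M a (j + 1)) :
    ∑ x ∈ win a j, M (a + j) x ≤ ∑ y ∈ win a j, M y (a + j) := by
  have e : lam a (a + j) = j := by rw [lam, add_sub_cancel_left, ZMod.val_cast_of_lt hj]
  have hv : a + j ∈ win a (j + 1) := by rw [mem_win, e]; omega
  have hw : (win a (j + 1)).erase (a + j) = win a j := by
    ext x
    rw [mem_erase, mem_win, mem_win]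
    refine ⟨fun ⟨g1, g2⟩ => lt_of_le_of_ne (by omega) fun g => g1 (lam_inj (g.trans e.symm)),
      fun g => ⟨fun g1 => by rw [g1, e] at g; omega, by omega⟩⟩
  have h1 := h fun x => if x = a + j then 0 else lam a x + 1
  have h2 := move M _ hv (fun x => if x = a + j then 0 else lam a x + 1) (lam a)
    (fun u hu w hw => by
      simp only [ne_of_mem_erase hu, ne_of_mem_erase hw, if_false, add_le_add_iff_right])
    (fun x hx => by simp only [ne_of_mem_erase hx, if_false, if_true]; omega)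
    (fun x hx => by rw [hw, mem_win] at hx; rwa [e])
  rw [hw] at h2
  omega

end OPT

open OPT in
theorem opt : OPT_s := by
  intro V _ _ n _ M x hn hs hb ⟨ρ, hρ⟩
  have key : ∀ (e : ZMod n ≃ V) (a : ZMod n), Lam (fun u v => M (e u) (e v)) =
      n * back (fun u v => M (e u) (e v)) (lam a) := fun e a =>
    Lam_eq (fun _ => hs.2 _) (fun v => ((e.sum_comp (M (e v))).trans (hb (e v))).trans
      (e.sum_comp fun w => M w (e v)).symm) a
  obtain ⟨e0, h0⟩ := sort hn M ρ
  obtain ⟨e, -, he⟩ := exists_min_image (univ : Finset (ZMod n ≃ V))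
    (fun e => Lam fun u v => M (e u) (e v)) ⟨e0, mem_univ _⟩
  refine ⟨e, fun a m _ σ => ?_, ?_⟩
  · have hσ : ∀ v, σ v ≤ ∑ w, σ w := fun v =>
      single_le_sum (f := σ) (fun _ _ => Nat.zero_le _) (mem_univ v)
    obtain ⟨d, hd⟩ := sort (ZMod.card n) (fun u v => M (e u) (e v))
      fun v => if v ∈ win a m then σ v else ∑ w, σ w + 1 + lam a v
    have h1 := he (d.trans e) (mem_univ _)
    rw [key e a, key (d.trans e) 0] at h1
    have h2 := (Nat.le_of_mul_le_mul_left h1 (Nat.pos_of_neZero n)).trans hd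
    rw [back_split _ (win a m), back_split _ (win a m) fun v => ite _ _ _] at h2
    refine Nat.le_of_add_le_add_right (h2.trans (add_le_add (le_of_eq ?_) (le_of_eq ?_)))
    · refine sum_congr rfl fun u _ => sum_congr rfl fun v _ => ?_
      by_cases hu : u ∈ win a m <;> by_cases hv : v ∈ win a m <;> simp [res, hu, hv]
    · refine sum_congr rfl fun u _ => sum_congr rfl fun v _ => if_congr ?_ rfl rfl
      have := hσ u
      have := hσ v
      by_cases hu : u ∈ win a m <;> by_cases hv : v ∈ win a m <;> simp only [hu, hv] <;>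
        rw [mem_win] at hu hv <;> simp <;> omega
  · have h1 := (he e0 (mem_univ _)).trans ((key e0 0).le.trans (Nat.mul_le_mul_left n h0))
    exact (Nat.cast_le.2 h1).trans (by
      rw [Nat.cast_mul]; exact mul_le_mul_of_nonneg_left hρ (Nat.cast_nonneg n))

end Pool.Agent.MP_2634a8_co.X
end

section
namespace Pool.Agent.MP_2634a8_co.X

open Finset

namespace POT

variable {V : Type} [Fintype V] [DecidableEq V]

def net (F : Mat V) (v : V) : ℤ := (out F v : ℤ) - inn F v

lemma net_E (F : Mat V) (a b x : V) :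
    net (F + E a b) x = net F x + (if x = a then 1 else 0) - (if x = b then 1 else 0) := by
  unfold net
  rw [out_add, inn_add, out_E, inn_E]
  split_ifs <;> push_cast <;> ring

/-- one unit can be sent from `s` to `v`, changing only pairs inside `S` -/
def Send (lo hi F : Mat V) (S : Finset V) (s v : V) : Prop :=
  ∃ G : Mat V, (∀ a b, lo a b ≤ G a b) ∧ (∀ a b, G a b ≤ hi a b) ∧
    (∀ a b, ¬ (a ∈ S ∧ b ∈ S) → G a b = F a b) ∧
    ∀ x, net G x = net F x + (if x = s then 1 else 0) - (if x = v then 1 else 0)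

lemma Send.mono {lo hi F : Mat V} {S T : Finset V} {s v : V} (h : Send lo hi F S s v)
    (hST : S ⊆ T) : Send lo hi F T s v := by
  obtain ⟨G, h1, h2, h3, h4⟩ := h
  exact ⟨G, h1, h2, fun a b hab => h3 a b fun h => hab ⟨hST h.1, hST h.2⟩, h4⟩

lemma Send.fwd {lo hi F : Mat V} {S : Finset V} {s u w : V} (h : Send lo hi F S s u)
    (hu : u ∈ S) (hw : w ∉ S) (hlt : F u w < hi u w) : Send lo hi F (insert w S) s w := by
  obtain ⟨G, h1, h2, h3, h4⟩ := h
  refine ⟨G + E u w, fun a b => (h1 a b).trans (Nat.le_add_right _ _), fun a b => ?_,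
    fun a b hab => ?_, fun x => ?_⟩
  · simp only [Pi.add_apply, E]
    split_ifs with hh
    · obtain ⟨rfl, rfl⟩ := hh
      have := h3 a b fun h => hw h.2
      omega
    · exact h2 a b
  · simp only [Pi.add_apply, E]
    rw [if_neg, add_zero]
    · exact h3 a b fun h => hab ⟨mem_insert_of_mem h.1, mem_insert_of_mem h.2⟩
    · rintro ⟨rfl, rfl⟩
      exact hab ⟨mem_insert_of_mem hu, mem_insert_self _ _⟩
  · rw [net_E, h4]; ring

lemma Send.bwd {lo hi F : Mat V} {S : Finset V} {s u w : V} (h : Send lo hi F S s u)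
    (hu : u ∈ S) (hw : w ∉ S) (hlt : lo w u < F w u) : Send lo hi F (insert w S) s w := by
  obtain ⟨G, h1, h2, h3, h4⟩ := h
  have hG : G w u = F w u := h3 w u fun h => hw h.1
  obtain ⟨N, rfl⟩ := exists_add_E (M := G) (a := w) (b := u) (by omega)
  refine ⟨N, fun a b => ?_, fun a b => (Nat.le_add_right _ _).trans (h2 a b),
    fun a b hab => ?_, fun x => ?_⟩
  · have := h1 a b
    simp only [Pi.add_apply, E] at this hG
    split_ifs at this with hh
    · obtain ⟨rfl, rfl⟩ := hh
      simp at hG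
      omega
    · exact this
  · have := h3 a b fun h => hab ⟨mem_insert_of_mem h.1, mem_insert_of_mem h.2⟩
    simp only [Pi.add_apply, E] at this
    rw [if_neg, add_zero] at this
    · exact this
    · rintro ⟨rfl, rfl⟩
      exact hab ⟨mem_insert_self _ _, mem_insert_of_mem hu⟩
  · have := h4 x
    rw [net_E] at this
    linarith only [this]

lemma closed (lo hi F : Mat V) (h1 : ∀ a b, lo a b ≤ F a b) (h2 : ∀ a b, F a b ≤ hi a b) (s : V) :
    ∃ S : Finset V, s ∈ S ∧ (∀ v ∈ S, Send lo hi F S s v) ∧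
      ∀ u ∈ S, ∀ w ∉ S, F u w = hi u w ∧ F w u = lo w u := by
  classical
  obtain ⟨S, hS, hmax⟩ := exists_max_image
    (univ.filter fun S : Finset V => s ∈ S ∧ ∀ v ∈ S, Send lo hi F S s v) card
    ⟨{s}, by
      simp only [mem_filter, mem_univ, true_and, mem_singleton, forall_eq]
      exact ⟨F, h1, h2, fun _ _ _ => rfl, fun x => by ring⟩⟩
  simp only [mem_filter, mem_univ, true_and] at hS hmax
  refine ⟨S, hS.1, hS.2, fun u hu w hw => ?_⟩
  have key : ¬ Send lo hi F (insert w S) s w := fun h => by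
    have := hmax (insert w S) ⟨mem_insert_of_mem hS.1, fun v hv => by
      rcases mem_insert.1 hv with rfl | hv
      · exact h
      · exact (hS.2 v hv).mono (subset_insert _ _)⟩
    rw [card_insert_of_notMem hw] at this
    omega
  constructor
  · by_contra hne
    exact key ((hS.2 u hu).fwd hu hw (lt_of_le_of_ne (h2 u w) hne))
  · by_contra hne
    exact key ((hS.2 u hu).bwd hu hw (lt_of_le_of_ne (h1 w u) (Ne.symm hne)))

def lo (D : Mat V) (p : V → ℕ) : Mat V := fun u v => if p v < 1 + p u then D u v else 0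
def hi (D : Mat V) (p : V → ℕ) : Mat V := fun u v => if p v ≤ 1 + p u then D u v else 0
def psi (D : Mat V) (p : V → ℕ) : ℕ := wsum D (fun u v => 1 + p u - p v)

omit [DecidableEq V] in
lemma psi_eq (D F : Mat V) (p : V → ℕ) (h1 : ∀ a b, lo D p a b ≤ F a b)
    (h2 : ∀ a b, F a b ≤ hi D p a b) :
    (psi D p : ℤ) = size F + ∑ v, (p v : ℤ) * net F v := by
  have e : ∀ u v, ((D u v * (1 + p u - p v) : ℕ) : ℤ) =
      F u v + (p u : ℤ) * F u v - (p v : ℤ) * F u v := fun u v => by
    have a1 := h1 u v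
    have a2 := h2 u v
    unfold lo at a1
    unfold hi at a2
    rcases lt_trichotomy (p v) (1 + p u) with h | h | h
    · rw [if_pos h] at a1
      rw [if_pos h.le] at a2
      rw [le_antisymm a2 a1, Nat.cast_mul, Nat.cast_sub h.le]
      push_cast; ring
    · rw [h, Nat.sub_self]
      push_cast; ring
    · rw [if_neg (by omega)] at a2
      rw [Nat.le_zero.1 a2, Nat.sub_eq_zero_of_le h.le]
      simp
  unfold psi wsum
  rw [Nat.cast_sum]
  simp only [Nat.cast_sum, e, sum_sub_distrib, sum_add_distrib, net, mul_sub, size, out, inn,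
    mul_sum]
  rw [sum_comm (f := fun u v => (p v : ℤ) * F u v)]
  ring

omit [DecidableEq V] in
lemma sum_net (F : Mat V) : ∑ v, net F v = 0 := by
  simp only [net, out, inn, Nat.cast_sum, sum_sub_distrib]
  rw [sum_comm, sub_self]

end POT

open POT in
theorem pot : POT_s := by
  intro V _ _ D
  classical
  obtain ⟨p, hp⟩ : ∃ p : V → ℕ, ∀ q, psi D p ≤ psi D q :=
    ⟨Function.argmin (psi D), fun q => Function.argmin_le (psi D) q⟩
  have hlh : ∀ a b, lo D p a b ≤ hi D p a b := fun a b => by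
    unfold lo hi
    split_ifs <;> omega
  obtain ⟨F, ⟨h1, h2⟩, hF⟩ : ∃ F : Mat V, ((∀ a b, lo D p a b ≤ F a b) ∧
      ∀ a b, F a b ≤ hi D p a b) ∧ ∀ G : Mat V, ((∀ a b, lo D p a b ≤ G a b) ∧
      ∀ a b, G a b ≤ hi D p a b) → ∑ v, (net F v).natAbs ≤ ∑ v, (net G v).natAbs := by
    obtain ⟨F, hF, hm⟩ := (InvImage.wf (fun F : Mat V => ∑ v, (net F v).natAbs)
      (wellFounded_lt (α := ℕ))).has_min {F | (∀ a b, lo D p a b ≤ F a b) ∧
      ∀ a b, F a b ≤ hi D p a b} ⟨lo D p, fun _ _ => le_rfl, hlh⟩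
    exact ⟨F, hF, fun G hG => not_lt.1 (hm G hG)⟩
  have hneg : ∀ s, 0 ≤ net F s := fun s => by
    by_contra hs
    have hs : net F s < 0 := not_le.1 hs
    obtain ⟨S, hsS, hsend, hcl⟩ := closed _ _ F h1 h2 s
    have hle : ∀ v ∈ S, net F v ≤ 0 := fun v hv => by
      by_contra hv0
      obtain ⟨G, g1, g2, -, g4⟩ := hsend v hv
      refine absurd (hF G ⟨g1, g2⟩) (not_le.2 (sum_lt_sum (fun x _ => ?_) ⟨s, mem_univ _, ?_⟩))
      · rw [g4]
        split_ifs with a1 a2 a2
        · omega
        · subst a1; omega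
        · subst a2; omega
        · omega
      · rw [g4, if_pos rfl, if_neg (by rintro rfl; omega)]
        omega
    have hsum : ∑ v ∈ S, net F v < 0 := by
      have := sum_lt_sum (s := S) (f := net F) (g := fun _ => 0) hle ⟨s, hsS, hs⟩
      simpa using this
    let q : V → ℕ := fun v => p v + if v ∈ S then 1 else 0
    have k1 : ∀ a b, lo D q a b ≤ F a b := fun a b => by
      have a1 := h1 a b
      have c1 := fun x y => (hcl a x b y).1
      unfold lo at a1 ⊢
      unfold hi at c1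
      by_cases ha : a ∈ S <;> by_cases hb : b ∈ S <;>
        simp only [q, ha, hb, if_true, if_false, not_true, not_false_iff, forall_true_left] at c1 ⊢ <;>
        split_ifs at * <;> omega
    have k2 : ∀ a b, F a b ≤ hi D q a b := fun a b => by
      have a1 := h2 a b
      have c1 := fun x y => (hcl b x a y).2
      unfold hi at a1 ⊢
      unfold lo at c1
      by_cases ha : a ∈ S <;> by_cases hb : b ∈ S <;>
        simp only [q, ha, hb, if_true, if_false, not_true, not_false_iff, forall_true_left] at c1 ⊢ <;>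
        split_ifs at * <;> omega
    have e1 := psi_eq D F p h1 h2
    have e2 := psi_eq D F q k1 k2
    have e3 : ∑ v, (q v : ℤ) * net F v = ∑ v, (p v : ℤ) * net F v + ∑ v ∈ S, net F v := by
      simp only [q, Nat.cast_add, add_mul, sum_add_distrib, Nat.cast_ite, Nat.cast_one,
        Nat.cast_zero, ite_mul, one_mul, zero_mul, sum_ite_mem, univ_inter]
    have := hp q
    omega
  have hz : ∀ v, net F v = 0 := fun v =>
    (sum_eq_zero_iff_of_nonneg fun x _ => hneg x).1 (sum_net F) v (mem_univ _)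
  refine ⟨F, p, fun a b => (h2 a b).trans ?_, fun v => ?_, ?_⟩
  · unfold hi
    split_ifs <;> omega
  · have := hz v
    unfold net at this
    omega
  · have e1 := psi_eq D F p h1 h2
    simp only [hz, mul_zero, sum_const_zero, add_zero] at e1
    exact (Nat.cast_injective e1).le

end Pool.Agent.MP_2634a8_co.X
end

section
namespace Pool.Agent.MP_2634a8_co.X.FKS

open Finset Pool.Agent.MP_2634a8_co.H32

variable {V : Type} [DecidableEq V]

/-- Arcs that leave `S`. -/
def lv (A : Finset (V × V)) (S : Finset V) : Finset (V × V) := A.filter fun e => e.1 ∈ S ∧ e.2 ∉ S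

/-- Breadth first balls. -/
def fkb (A : Finset (V × V)) (v : V) : ℕ → Finset V
  | 0 => {v}
  | i + 1 => fkb A v i ∪ (fkb A v i).biUnion (nb A)

lemma fkb_sub (A : Finset (V × V)) (v : V) (i : ℕ) : fkb A v i ⊆ fkb A v (i + 1) :=
  subset_union_left

lemma fkb_step {A : Finset (V × V)} {v x y : V} {i : ℕ} (hx : x ∈ fkb A v i) (h : (x, y) ∈ A) :
    y ∈ fkb A v (i + 1) := mem_union_right _ (mem_biUnion.2 ⟨x, hx, mem_nb.2 h⟩)

lemma fkb_wk {A : Finset (V × V)} {v : V} : ∀ (i : ℕ) (x : V), x ∈ fkb A v i →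
    ∃ t ≤ (i : ℝ), Wk A (fun _ => 1) v x t
  | 0, x, h => by
    rw [mem_singleton.1 h]; exact ⟨0, by simp, Wk.nil v⟩
  | i + 1, x, h => by
    rcases mem_union.1 h with h | h
    · obtain ⟨t, h1, h2⟩ := fkb_wk i x h
      exact ⟨t, by push_cast; linarith, h2⟩
    · obtain ⟨y, hy, h⟩ := mem_biUnion.1 h
      obtain ⟨t, h1, h2⟩ := fkb_wk i y hy
      exact ⟨t + 1, by push_cast; linarith, h2.snoc (mem_nb.1 h)⟩

lemma fkb_ins {A : Finset (V × V)} {W : Finset V} (hi : Ins A W) {v : V} (hv : v ∈ W) :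
    ∀ i, fkb A v i ⊆ W
  | 0 => singleton_subset_iff.2 hv
  | i + 1 => union_subset (fkb_ins hi hv i) fun _ h =>
    (mem_biUnion.1 h).elim fun _ hy => (hi _ (mem_nb.1 hy.2)).2

lemma fkb_ne (A : Finset (V × V)) (v : V) : ∀ i, v ∈ fkb A v i
  | 0 => mem_singleton_self v
  | i + 1 => fkb_sub A v i (fkb_ne A v i)

lemma fkb_lv (A : Finset (V × V)) (v : V) (i : ℕ) :
    ((lv A (fkb A v (i + 1))).card : ℝ) ≤ ((fkb A v (i + 1)).card - (fkb A v i).card) *
      ((fkb A v (i + 2)).card - (fkb A v (i + 1)).card) := by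
  have : lv A (fkb A v (i + 1)) ⊆
      (fkb A v (i + 1) \ fkb A v i) ×ˢ (fkb A v (i + 2) \ fkb A v (i + 1)) := by
    rintro ⟨x, y⟩ h
    obtain ⟨h1, h2, h3⟩ := mem_filter.1 h
    exact mem_product.2 ⟨mem_sdiff.2 ⟨h2, fun h => h3 (fkb_step h h1)⟩,
      mem_sdiff.2 ⟨fkb_step h2 h1, h3⟩⟩
  have h := card_le_card this
  rw [card_product, card_sdiff_of_subset (fkb_sub A v i),
    card_sdiff_of_subset (fkb_sub A v (i + 1))] at h
  rw [← Nat.cast_sub (card_le_card (fkb_sub A v i)),
    ← Nat.cast_sub (card_le_card (fkb_sub A v (i + 1)))]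
  exact_mod_cast h

lemma fkb_grow {A : Finset (V × V)} {W : Finset V} (hi : Ins A W) {v : V} (hv : v ∈ W) {μ : ℝ}
    (hμ : 0 ≤ μ)
    (h : ∀ S ⊆ W, S.Nonempty → 2 * S.card ≤ W.card → μ * S.card ≤ (lv A S).card) (i : ℕ) :
    W.card < 2 * (fkb A v (2 * i + 2)).card ∨
      4 / 9 * μ * (i + 1) ^ 2 ≤ (fkb A v (2 * i + 2)).card := by
  have mono : ∀ i, ((fkb A v i).card : ℝ) ≤ (fkb A v (i + 1)).card := fun i => by
    exact_mod_cast card_le_card (fkb_sub A v i)
  have key : ∀ i, W.card < 2 * (fkb A v (i + 2)).card ∨ 4 * (μ * (fkb A v (i + 1)).card) ≤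
      (((fkb A v (i + 2)).card : ℝ) - (fkb A v i).card) ^ 2 := fun i => by
    rcases lt_or_ge W.card (2 * (fkb A v (i + 2)).card) with c | c
    · exact Or.inl c
    have c' : _ ≤ (fkb A v (i + 2)).card := card_le_card (fkb_sub A v (i + 1))
    have h1 := (h _ (fkb_ins hi hv (i + 1)) ⟨v, fkb_ne A v _⟩ (by omega)).trans (fkb_lv A v i)
    exact Or.inr (by linarith only [sq_nonneg (((fkb A v (i + 1)).card - (fkb A v i).card : ℝ) -
      ((fkb A v (i + 2)).card - (fkb A v (i + 1)).card)), h1])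
  induction i with
  | zero =>
    rcases lt_or_ge W.card (2 * (fkb A v 2).card) with c | c
    · exact Or.inl c
    have c1 : _ ≤ (fkb A v 1).card := card_le_card (fkb_sub A v 0)
    have c2 : _ ≤ (fkb A v 2).card := card_le_card (fkb_sub A v 1)
    have h1 := h _ (fkb_ins hi hv 0) ⟨v, fkb_ne A v _⟩ (by omega)
    have h2 : (lv A (fkb A v 0)).card ≤ ({v} ×ˢ fkb A v 1).card := card_le_card fun e he =>
      mem_product.2 ⟨(mem_filter.1 he).2.1, fkb_step (mem_filter.1 he).2.1 (mem_filter.1 he).1⟩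
    rw [card_product, card_singleton, one_mul] at h2
    have h3 : ((lv A (fkb A v 0)).card : ℝ) ≤ (fkb A v 2).card := by exact_mod_cast h2.trans c2
    have h4 : ((fkb A v 0).card : ℝ) = 1 := by simp [fkb]
    rw [h4] at h1
    right
    simp only [Nat.mul_zero, Nat.zero_add, Nat.cast_zero]
    linarith only [h1, h3]
  | succ i ih =>
    have e : 2 * (i + 1) + 2 = 2 * i + 2 + 2 := by ring
    rw [e]
    have c1 := card_le_card (fkb_sub A v (2 * i + 2))
    have c2 : _ ≤ (fkb A v (2 * i + 2 + 2)).card := card_le_card (fkb_sub A v (2 * i + 2 + 1))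
    rcases ih with ih | ih
    · exact Or.inl (by omega)
    refine (key (2 * i + 2)).imp_right fun k => ?_
    have m1 := mono (2 * i + 2)
    have m2 : _ ≤ ((fkb A v (2 * i + 2 + 2)).card : ℝ) := mono (2 * i + 2 + 1)
    have i0 : (0 : ℝ) ≤ i := by positivity
    have h1 : 4 / 3 * μ * (i + 1) ≤
        ((fkb A v (2 * i + 2 + 2)).card : ℝ) - (fkb A v (2 * i + 2)).card :=
      (pow_le_pow_iff_left₀ (by positivity) (by linarith only [m1, m2]) two_ne_zero).1
        (by linarith only [mul_le_mul_of_nonneg_left (ih.trans m1) hμ, k])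
    push_cast
    linarith only [mul_nonneg hμ i0, ih, h1]

lemma wk_swap {A : Finset (V × V)} {u x : V} {t : ℝ}
    (h : Wk (A.image Prod.swap) (fun _ => 1) u x t) : Wk A (fun _ => 1) x u t := by
  induction h with
  | nil => exact Wk.nil _
  | cons ha _ ih =>
    obtain ⟨e, he, h⟩ := mem_image.1 ha
    rw [add_comm]
    exact ih.snoc (by rwa [← Prod.swap_prod_mk, ← h, Prod.swap_swap])

lemma fks_cut {A : Finset (V × V)} {W : Finset V} (hi : Ins A W) {j : ℕ}
    (hc : Cyc A (fun _ => 1) (4 * j + 2)) (hW : 2 ≤ W.card) :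
    ∃ S ⊆ W, S.Nonempty ∧ (W \ S).Nonempty ∧
      j ^ 2 * (lv A S).card ≤ 4 * (S.card * (W \ S).card) := by
  by_contra hn
  push Not at hn
  have ne : ∀ S ⊆ W, S.Nonempty → 2 * S.card ≤ W.card → (W \ S).Nonempty ∧
      2 * (W.card * S.card) ≤ 4 * (S.card * (W \ S).card) := fun S h1 h2 h3 => by
    have := card_sdiff_add_card_eq_card h1
    have := card_pos.2 h2
    exact ⟨card_pos.1 (by omega), by nlinarith⟩
  obtain ⟨x, hx⟩ := card_pos.1 (show 0 < W.card by omega)
  have hx' := singleton_subset_iff.2 hx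
  have h0 := hn {x} hx' (singleton_nonempty x) (ne _ hx' (singleton_nonempty x) (by simpa)).1
  obtain ⟨i, rfl⟩ : ∃ i, j = i + 1 := ⟨j - 1, by
    rcases Nat.eq_zero_or_pos j with rfl | h
    · simp at h0
    · omega⟩
  obtain ⟨⟨u, v⟩, he⟩ := card_pos.1 (show 0 < (lv A {x}).card by
    rcases Nat.eq_zero_or_pos (lv A {x}).card with h | h
    · simp [h] at h0
    · exact h)
  have he := (mem_filter.1 he).1
  have j0 : (0 : ℝ) < ((i : ℝ) + 1) ^ 2 := by positivity
  have big : ∀ (B : Finset (V × V)) (y : V), Ins B W → y ∈ W →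
      (∀ S ⊆ W, S.Nonempty → 2 * S.card ≤ W.card →
        2 * (W.card * S.card) ≤ (i + 1) ^ 2 * (lv B S).card) →
      W.card < 2 * (fkb B y (2 * i + 2)).card := fun B y h1 h2 h3 => by
    refine (fkb_grow h1 h2 (μ := 2 * W.card / ((i : ℝ) + 1) ^ 2) (by positivity)
      (fun S s1 s2 s3 => ?_) i).elim id fun h => ?_
    · rw [div_mul_eq_mul_div, div_le_iff₀ j0]
      have : ((2 * (W.card * S.card) : ℕ) : ℝ) ≤ ((i + 1) ^ 2 * (lv B S).card : ℕ) := by
        exact_mod_cast h3 S s1 s2 s3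
      push_cast at this
      linarith only [this]
    · rw [mul_assoc, div_mul_cancel₀ _ j0.ne'] at h
      have h2 : (2 : ℝ) ≤ W.card := by exact_mod_cast hW
      have : (W.card : ℝ) < 2 * (fkb B y (2 * i + 2)).card := by linarith only [h, h2]
      exact_mod_cast this
  have hi' : Ins (A.image Prod.swap) W := fun e he => by
    obtain ⟨e, h, rfl⟩ := mem_image.1 he
    exact (hi e h).symm
  have b1 := big A v hi (hi _ he).2 fun S s1 s2 s3 =>
    (ne S s1 s2 s3).2.trans (hn S s1 s2 (ne S s1 s2 s3).1).le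
  have b2 := big _ u hi' (hi _ he).1 fun S s1 s2 s3 => by
    have h1 := hn (W \ S) sdiff_subset (ne S s1 s2 s3).1 (by rwa [Finset.sdiff_sdiff_eq_self s1])
    rw [Finset.sdiff_sdiff_eq_self s1, mul_comm (W \ S).card] at h1
    refine ((ne S s1 s2 s3).2.trans h1.le).trans (Nat.mul_le_mul_left _ ?_)
    refine card_le_card_of_injOn Prod.swap (fun e he => ?_) Prod.swap_injective.injOn
    obtain ⟨e1, e2, e3⟩ := mem_filter.1 he
    exact mem_filter.2 ⟨mem_image_of_mem _ e1,
      by_contra fun h => e3 (mem_sdiff.2 ⟨(hi e e1).2, h⟩), (mem_sdiff.1 e2).2⟩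
  obtain ⟨z, hz⟩ : (fkb A v (2 * i + 2) ∩ fkb (A.image Prod.swap) u (2 * i + 2)).Nonempty := by
    have h1 := card_union_add_card_inter (fkb A v (2 * i + 2))
      (fkb (A.image Prod.swap) u (2 * i + 2))
    have h2 := card_le_card (union_subset (fkb_ins (v := v) hi (hi _ he).2 (2 * i + 2))
      (fkb_ins (v := u) hi' (hi _ he).1 (2 * i + 2)))
    exact card_pos.1 (by omega)
  obtain ⟨s, s1, s2⟩ := fkb_wk _ _ (mem_inter.1 hz).1
  obtain ⟨t, t1, t2⟩ := fkb_wk _ _ (mem_inter.1 hz).2
  have := hc u v _ he (s2.trans (wk_swap t2))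
  push_cast at this s1 t1
  linarith only [this, s1, t1]

/-- Fox, Keevash, Sudakov: a digraph of large girth has a small feedback arc set. -/
theorem fks0 (j : ℕ) : ∀ (N : ℕ) (W : Finset V) (A : Finset (V × V)), W.card = N → Ins A W →
    Cyc A (fun _ => 1) (4 * j + 2) → ∃ f : V → ℕ, (∀ x ∈ W, f x < N) ∧ Set.InjOn f W ∧
      j ^ 2 * (A.filter fun e => f e.2 ≤ f e.1).card ≤ 2 * N ^ 2 := by
  intro N
  induction N using Nat.strong_induction_on with
  | _ N ih =>
  intro W A hN hi hc
  rcases lt_or_ge N 2 with c | c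
  · refine ⟨fun _ => 0, fun x hx => hN ▸ card_pos.2 ⟨x, hx⟩,
      fun x hx y hy _ => card_le_one.1 (by omega) x hx y hy, ?_⟩
    have : A = ∅ := eq_empty_of_forall_notMem fun ⟨a, b⟩ he => by
      obtain rfl : a = b := card_le_one.1 (by omega) a (hi _ he).1 b (hi _ he).2
      have := hc a a 0 he (Wk.nil a)
      have : (0 : ℝ) ≤ j := by positivity
      linarith
    simp [this]
  obtain ⟨S, s1, s2, s3, s4⟩ := fks_cut hi hc (by omega)
  have e := card_sdiff_add_card_eq_card s1
  have p2 := card_pos.2 s2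
  have p3 := card_pos.2 s3
  obtain ⟨f, f1, f2, f3⟩ := ih S.card (by omega) S (A.filter fun e => e.1 ∈ S ∧ e.2 ∈ S) rfl
    (fun e he => (mem_filter.1 he).2) (hc.mono (filter_subset _ _))
  obtain ⟨g, g1, g2, g3⟩ := ih (W \ S).card (by omega) (W \ S)
    (A.filter fun e => e.1 ∈ W \ S ∧ e.2 ∈ W \ S) rfl
    (fun e he => (mem_filter.1 he).2) (hc.mono (filter_subset _ _))
  refine ⟨fun x => if x ∈ S then (W \ S).card + f x else g x, fun x hx => ?_,
    fun x hx y hy h => ?_, ?_⟩
  · by_cases h : x ∈ S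
    · have := f1 x h
      simp only [h, if_true]; omega
    · have := g1 x (mem_sdiff.2 ⟨hx, h⟩)
      simp only [h, if_false]; omega
  · by_cases h1 : x ∈ S <;> by_cases h2 : y ∈ S <;> simp only [h1, h2, if_true, if_false] at h
    · exact f2 h1 h2 (by omega)
    · have := g1 y (mem_sdiff.2 ⟨hy, h2⟩); omega
    · have := g1 x (mem_sdiff.2 ⟨hx, h1⟩); omega
    · exact g2 (mem_coe.2 (mem_sdiff.2 ⟨hx, h1⟩)) (mem_coe.2 (mem_sdiff.2 ⟨hy, h2⟩)) h
  · have h : (A.filter fun e => (if e.2 ∈ S then (W \ S).card + f e.2 else g e.2) ≤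
        if e.1 ∈ S then (W \ S).card + f e.1 else g e.1) ⊆
        ((A.filter fun e => e.1 ∈ S ∧ e.2 ∈ S).filter fun e => f e.2 ≤ f e.1) ∪
        ((A.filter fun e => e.1 ∈ W \ S ∧ e.2 ∈ W \ S).filter fun e => g e.2 ≤ g e.1) ∪ lv A S := by
      intro e he
      obtain ⟨h0, h⟩ := mem_filter.1 he
      have w := hi e h0
      by_cases h1 : e.1 ∈ S <;> by_cases h2 : e.2 ∈ S <;>
        simp only [h1, h2, if_true, if_false] at h
      · exact mem_union_left _ (mem_union_left _
          (mem_filter.2 ⟨mem_filter.2 ⟨h0, h1, h2⟩, by omega⟩))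
      · exact mem_union_right _ (mem_filter.2 ⟨h0, h1, h2⟩)
      · have := g1 e.1 (mem_sdiff.2 ⟨w.1, h1⟩); omega
      · exact mem_union_left _ (mem_union_right _ (mem_filter.2
          ⟨mem_filter.2 ⟨h0, mem_sdiff.2 ⟨w.1, h1⟩, mem_sdiff.2 ⟨w.2, h2⟩⟩, h⟩))
    have h' := Nat.mul_le_mul_left (j ^ 2) ((card_le_card h).trans ((card_union_le _ _).trans
      (Nat.add_le_add_right (card_union_le _ _) _)))
    rw [← hN, ← e]
    linarith only [s4, f3, g3, h']

lemma sum_ind [Fintype V] (F : Finset (V × V)) (p : V → V → Prop) [∀ u v, Decidable (p u v)] :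
    (∑ u, ∑ v, if (u, v) ∈ F ∧ p u v then 1 else 0) = (F.filter fun e => p e.1 e.2).card := by
  rw [← Fintype.sum_prod_type' (fun u v => if (u, v) ∈ F ∧ p u v then 1 else 0), card_filter,
    ← sum_subset (subset_univ F) (fun e _ he => by simp [he])]
  exact sum_congr rfl fun e he => by simp [he]

lemma cyc_of_girth [Fintype V] {M : Mat V} {g : ℝ} (h : Girth M g) {A : Finset (V × V)}
    (hA : ∀ e ∈ A, M e.1 e.2 ≠ 0) : Cyc A (fun _ => 1) g := by
  refine cyc_of_sets (fun _ => zero_le_one) fun F ⟨e, he⟩ f2 f3 => ?_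
  have h1 := h (fun u v => if (u, v) ∈ F then 1 else 0) (fun u v => ?_) (fun h0 => ?_) fun v => ?_
  · have := sum_ind F (fun _ _ => True)
    simp only [and_true, filter_true] at this
    simp only [size, out, this] at h1
    simpa only [sum_const, nsmul_eq_mul, mul_one, ge_iff_le] using h1.le
  · by_cases c : (u, v) ∈ F
    · simpa [c] using Nat.one_le_iff_ne_zero.2 (hA _ (f3 c))
    · simp [c]
  · simpa [he] using congrFun (congrFun h0 e.1) e.2
  · have h2 := sum_ind F (fun a _ => a = v)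
    have h3 := sum_ind F (fun _ b => b = v)
    have h4 := f2 v
    rw [sum_eq_single v (fun a _ ha => by simp only [ha, and_false, ↓ reduceIte, sum_const_zero]) (by simp)] at h2
    rw [sum_comm, sum_eq_single v (fun a _ ha => by simp only [ha, and_false, ↓ reduceIte, sum_const_zero]) (by simp)] at h3
    unfold od idg at h4
    rw [← h2, ← h3] at h4
    simpa only [and_true, out, inn] using h4

end Pool.Agent.MP_2634a8_co.X.FKS

namespace Pool.Agent.MP_2634a8_co.X

open Finset

theorem fks : FKS_s := by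
  intro V _ _ M g U hg hM hG
  set A : Finset (V × V) := (U ×ˢ U).filter fun e => M e.1 e.2 ≠ 0 with hA
  have hb : ∀ ρ : V → ℕ, back (res M U) ρ = (A.filter fun e => ρ e.2 ≤ ρ e.1).card := fun ρ => by
    rw [← FKS.sum_ind A (fun u v => ρ v ≤ ρ u)]
    refine sum_congr rfl fun u _ => sum_congr rfl fun v _ => ?_
    have := hM.1 u v
    simp only [res, hA, mem_filter, mem_product]
    by_cases c1 : ρ v ≤ ρ u <;> by_cases c2 : u ∈ U ∧ v ∈ U <;> by_cases c3 : M u v = 0 <;>
      simp [c1, c2, c3]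
    omega
  have g2 : 0 < g ^ 2 := by positivity
  have u0 : (0 : ℝ) ≤ (U.card : ℝ) ^ 2 := by positivity
  rcases lt_or_ge g 6 with c | c
  · refine ⟨fun _ => 0, ?_⟩
    have h1 : back (res M U) (fun _ => 0) ≤ U.card ^ 2 := by
      rw [hb, sq, ← card_product]
      exact card_le_card ((filter_subset _ _).trans (filter_subset _ _))
    have h2 : (back (res M U) (fun _ => 0) : ℝ) ≤ (U.card : ℝ) ^ 2 := by exact_mod_cast h1
    rw [le_div_iff₀ g2]
    have h3 : g ^ 2 ≤ 200 := by nlinarith only [hg, c]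
    exact (mul_le_mul h2 h3 g2.le u0).trans_eq (mul_comm _ _)
  · have j1 : (⌊(g - 2) / 4⌋₊ : ℝ) ≤ (g - 2) / 4 := Nat.floor_le (by linarith only [c])
    have j2 := Nat.lt_floor_add_one ((g - 2) / 4)
    have j3 : (1 : ℝ) ≤ ⌊(g - 2) / 4⌋₊ := by
      exact_mod_cast Nat.le_floor (show ((1 : ℕ) : ℝ) ≤ (g - 2) / 4 by push_cast; linarith only [c])
    generalize ⌊(g - 2) / 4⌋₊ = j at j1 j2 j3
    have hc := FKS.cyc_of_girth hG (A := A) fun e he => (mem_filter.1 he).2
    obtain ⟨f, -, -, h⟩ := FKS.fks0 j _ U A rfl (fun e he => mem_product.1 (mem_filter.1 he).1)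
      fun u v t h1 h2 => le_trans (by linarith only [j1]) (hc u v t h1 h2)
    refine ⟨f, ?_⟩
    rw [← hb] at h
    have h2 : (j : ℝ) ^ 2 * back (res M U) f ≤ 2 * (U.card : ℝ) ^ 2 := by exact_mod_cast h
    have h3 : g ^ 2 ≤ (10 * j) ^ 2 := pow_le_pow_left₀ hg.le (by linarith only [j2, j3]) 2
    have h4 := mul_le_mul_of_nonneg_left h3 (Nat.cast_nonneg (α := ℝ) (back (res M U) f))
    rw [le_div_iff₀ g2]
    linarith only [h2, h4]

end Pool.Agent.MP_2634a8_co.X
end

section
namespace Pool.Agent.MP_2634a8_co.X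

open Finset

namespace CIRC

set_option linter.unusedSectionVars false

variable {V : Type} [Fintype V] [DecidableEq V]

def bk (D : Mat V) (p : V → ℕ) (b : ℕ) : ℕ := ∑ u, ∑ v, if p v < b ∧ b ≤ p u then D u v else 0
def up (D : Mat V) (p : V → ℕ) (b : ℕ) : ℕ := ∑ u, ∑ v, if p u < b ∧ b ≤ p v then D u v else 0
def lv (p : V → ℕ) (b a : ℕ) : Finset V := univ.filter fun v => b ≤ p v ∧ p v < a

lemma up_le (D : Mat V) (p : V → ℕ) (b : ℕ) : (up D p b : ℝ) ≤ bk D p b + imb D := by
  have h1 : (up D p b : ℝ) - bk D p b =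
      ∑ u, if p u < b then ((out D u : ℝ) - inn D u) else 0 := by
    have e1 : ∑ u, (if p u < b then ((out D u : ℝ) - inn D u) else 0) =
        (∑ u, ∑ v, if p u < b then (D u v : ℝ) else 0) -
          ∑ u, ∑ v, if p v < b then (D u v : ℝ) else 0 := by
      rw [Finset.sum_comm (f := fun u v => if p v < b then (D u v : ℝ) else 0), ← sum_sub_distrib]
      refine sum_congr rfl fun u _ => ?_
      by_cases h : p u < b <;> simp only [h, ↓ reduceIte, out, Nat.cast_sum, inn, sum_const_zero, sub_self]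
    rw [e1]
    unfold up bk
    push_cast
    rw [← sum_sub_distrib, ← sum_sub_distrib]
    refine sum_congr rfl fun u _ => ?_
    rw [← sum_sub_distrib, ← sum_sub_distrib]
    refine sum_congr rfl fun v _ => ?_
    by_cases h : p u < b <;> by_cases h' : p v < b <;> simp [h, h', not_le.mpr, not_lt.mp]
  have h2 : (∑ u, if p u < b then ((out D u : ℝ) - inn D u) else 0) ≤ imb D := by
    unfold imb
    refine sum_le_sum fun u _ => ?_
    split_ifs
    · exact le_abs_self _
    · exact abs_nonneg _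
  linarith

lemma sum_bk (D : Mat V) (p : V → ℕ) (T : Finset ℕ) :
    ∑ b ∈ T, bk D p b ≤ wsum D (fun u v => 1 + p u - p v) := by
  unfold bk wsum
  rw [sum_comm]
  refine sum_le_sum fun u _ => ?_
  rw [sum_comm]
  refine sum_le_sum fun v _ => ?_
  rw [← sum_filter, sum_const, smul_eq_mul, mul_comm]
  refine Nat.mul_le_mul_left _ ?_
  have : (T.filter fun b => p v < b ∧ b ≤ p u) ⊆ Ioc (p v) (p u) := by
    intro b hb
    simp only [mem_filter] at hb
    exact mem_Ioc.mpr hb.2
  have h := card_le_card this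
  rw [Nat.card_Ioc] at h
  show _ ≤ 1 + p u - p v
  omega

lemma out_le (D : Mat V) (p : V → ℕ) (c e : ℕ) :
    ∑ u ∈ lv p c e, out D u ≤
      wsum D (fun u v => 1 + p u - p v) + ∑ b ∈ Icc (c + 1) e, up D p b := by
  unfold up wsum lv out
  rw [sum_comm (s := Icc (c + 1) e), ← sum_add_distrib, sum_filter]
  refine sum_le_sum fun u _ => ?_
  rw [sum_comm (s := Icc (c + 1) e), ← sum_add_distrib]
  split_ifs with h
  · refine sum_le_sum fun v _ => ?_
    by_cases h' : p v ≤ p u
    · have : 1 ≤ 1 + p u - p v := by omega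
      have := Nat.mul_le_mul_left (D u v) this
      show _ ≤ D u v * (1 + p u - p v) + _
      omega
    · have hm : p u + 1 ∈ Icc (c + 1) e := by
        rw [mem_Icc]; omega
      have := single_le_sum (f := fun b => if p u < b ∧ b ≤ p v then D u v else 0)
        (fun _ _ => Nat.zero_le _) hm
      have hc : p u < p u + 1 ∧ p u + 1 ≤ p v := by omega
      simp only [hc, and_self, if_true] at this
      omega
  · exact Nat.zero_le _

lemma k_le (D : Mat V) (k : ℕ) (U : Finset V) :
    k * U.card ≤ ∑ u ∈ U, out D u + dfc k D univ := by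
  have h1 : dfc k D U ≤ dfc k D univ := sum_le_sum_of_subset (subset_univ _)
  have h2 : k * U.card ≤ ∑ u ∈ U, out D u + dfc k D U := by
    unfold dfc
    rw [← sum_add_distrib, mul_comm, ← smul_eq_mul, ← sum_const]
    exact sum_le_sum fun u _ => by omega
  omega

lemma card_add (p : V → ℕ) {c b a : ℕ} (h1 : c ≤ b) (h2 : b ≤ a) :
    (lv p c a).card = (lv p c b).card + (lv p b a).card := by
  unfold lv
  rw [card_filter, card_filter, card_filter, ← sum_add_distrib]
  refine sum_congr rfl fun v _ => ?_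
  split_ifs <;> omega

lemma glue (D : Mat V) (p : V → ℕ) {b a : ℕ} {x y : ℝ}
    (h1 : Fas (res D (lv p 0 b)) x) (h2 : Fas (res D (lv p b a)) y) :
    Fas (res D (lv p 0 a)) (x + y + bk D p b) := by
  obtain ⟨r1, h1⟩ := h1
  obtain ⟨r2, h2⟩ := h2
  refine ⟨fun v => if p v < b then r1 v else (1 + ∑ w, r1 w) + r2 v, ?_⟩
  have key : back (res D (lv p 0 a)) (fun v => if p v < b then r1 v else (1 + ∑ w, r1 w) + r2 v) ≤
      back (res D (lv p 0 b)) r1 + back (res D (lv p b a)) r2 + bk D p b := by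
    unfold back bk
    rw [← sum_add_distrib, ← sum_add_distrib]
    refine sum_le_sum fun u _ => ?_
    rw [← sum_add_distrib, ← sum_add_distrib]
    refine sum_le_sum fun v _ => ?_
    have hu : r1 u ≤ ∑ w, r1 w := single_le_sum (f := r1) (fun _ _ => Nat.zero_le _) (mem_univ u)
    simp only [res, lv, mem_filter, mem_univ, true_and, zero_le]
    split_ifs <;> omega
  have : (back (res D (lv p 0 a)) (fun v => if p v < b then r1 v else (1 + ∑ w, r1 w) + r2 v) : ℝ) ≤
      back (res D (lv p 0 b)) r1 + back (res D (lv p b a)) r2 + bk D p b := by exact_mod_cast key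
  linarith only [h1, h2, this]

lemma fas_mono {M : Mat V} {x y : ℝ} (h : Fas M x) (hxy : x ≤ y) : Fas M y := by
  obtain ⟨r, hr⟩ := h
  exact ⟨r, hr.trans hxy⟩

lemma lv_self (p : V → ℕ) (a : ℕ) : (lv p a a).card = 0 := by
  unfold lv
  rw [card_eq_zero, filter_eq_empty_iff]
  intro v _
  omega

lemma cut (D : Mat V) (p : V → ℕ) (k : ℕ) (G Δ W I : ℝ) (hk : 1 ≤ k) (hG : 0 < G) (hΔ : 0 < Δ)
    (hW : (wsum D (fun u v => 1 + p u - p v) : ℝ) ≤ W) (hI : imb D ≤ I)
    (hc : dfc k D univ + 2 * W + (W / Δ + 1) * I ≤ 2 * G * k) (a : ℕ)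
    (ha : 3 * G < (lv p 0 a).card) :
    ∃ b, b < a ∧ G ≤ (lv p b a).card ∧ ((lv p b a).card : ℝ) ≤ 3 * G ∧ (bk D p b : ℝ) ≤ Δ := by
  by_contra hcon
  have ex1 : ∃ b, ((lv p b a).card : ℝ) ≤ 3 * G := ⟨a, by rw [lv_self]; push_cast; linarith only [hG]⟩
  have ex2 : ∃ b, ((lv p b a).card : ℝ) < G := ⟨a, by rw [lv_self]; push_cast; linarith only [hG]⟩
  have s1 := Nat.find_spec ex1
  have s2 := Nat.find_spec ex2
  have m1 : ∀ b, b < Nat.find ex1 → ¬ ((lv p b a).card : ℝ) ≤ 3 * G := fun b h => Nat.find_min ex1 h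
  have m2 : ∀ b, b < Nat.find ex2 → ¬ ((lv p b a).card : ℝ) < G := fun b h => Nat.find_min ex2 h
  have hea : Nat.find ex2 ≤ a := Nat.find_min' ex2 (by rw [lv_self]; push_cast; linarith only [hG])
  have h12 : Nat.find ex1 ≤ Nat.find ex2 := Nat.find_min' ex1 (by linarith only [hG, s2])
  generalize Nat.find ex1 = b1 at *
  generalize Nat.find ex2 = e at *
  have hb0 : b1 ≠ 0 := by
    rintro rfl
    linarith only [ha, s1]
  obtain ⟨c, rfl⟩ : ∃ c, b1 = c + 1 := ⟨b1 - 1, by omega⟩
  have hca := card_add p (show c ≤ e by omega) hea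
  have hbig := not_le.mp (m1 c (by omega))
  have hU : 2 * G < (lv p c e).card := by
    have : ((lv p c a).card : ℝ) = (lv p c e).card + (lv p e a).card := by exact_mod_cast hca
    linarith only [s2, hbig, this]
  have hall : ∀ b ∈ Ico (c + 1) e, Δ ≤ bk D p b := by
    intro b hb
    rw [mem_Ico] at hb
    by_contra hlt
    refine hcon ⟨b, by omega, not_lt.mp (m2 b hb.2), ?_, (not_le.mp hlt).le⟩
    have := card_add p hb.1 (show b ≤ a by omega)
    have h' : ((lv p (c + 1) a).card : ℝ) = (lv p (c + 1) b).card + (lv p b a).card := by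
      exact_mod_cast this
    have : (0 : ℝ) ≤ (lv p (c + 1) b).card := Nat.cast_nonneg _
    linarith only [s1, h']
  have hs1 : (∑ b ∈ Ico (c + 1) e, (bk D p b : ℝ)) ≤ W := by
    have := sum_bk D p (Ico (c + 1) e)
    have h' : (∑ b ∈ Ico (c + 1) e, (bk D p b : ℝ)) ≤ wsum D (fun u v => 1 + p u - p v) := by
      exact_mod_cast this
    linarith only [hW, h']
  have hs2 : (∑ b ∈ Icc (c + 1) e, (bk D p b : ℝ)) ≤ W := by
    have := sum_bk D p (Icc (c + 1) e)
    have h' : (∑ b ∈ Icc (c + 1) e, (bk D p b : ℝ)) ≤ wsum D (fun u v => 1 + p u - p v) := by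
      exact_mod_cast this
    linarith only [hW, h']
  have hn : ((Ico (c + 1) e).card : ℝ) * Δ ≤ W := by
    have := card_nsmul_le_sum (Ico (c + 1) e) (fun b => (bk D p b : ℝ)) Δ hall
    rw [nsmul_eq_mul] at this
    linarith only [hs1, this]
  have hn' : ((Ico (c + 1) e).card : ℝ) ≤ W / Δ := by rwa [le_div_iff₀ hΔ]
  have hcc : ((Icc (c + 1) e).card : ℝ) = (Ico (c + 1) e).card + 1 := by
    have : (Icc (c + 1) e).card = (Ico (c + 1) e).card + 1 := by
      rw [Nat.card_Icc, Nat.card_Ico]; omega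
    exact_mod_cast this
  have hI0 : 0 ≤ I := le_trans (sum_nonneg fun _ _ => abs_nonneg _) hI
  have hup : (∑ b ∈ Icc (c + 1) e, (up D p b : ℝ)) ≤ W + (W / Δ + 1) * I := by
    have h1 : (∑ b ∈ Icc (c + 1) e, (up D p b : ℝ)) ≤ ∑ b ∈ Icc (c + 1) e, ((bk D p b : ℝ) + I) :=
      sum_le_sum fun b _ => (up_le D p b).trans (by linarith only [hI])
    rw [sum_add_distrib, sum_const, nsmul_eq_mul, hcc] at h1
    have := mul_le_mul_of_nonneg_right (show ((Ico (c + 1) e).card : ℝ) + 1 ≤ W / Δ + 1 by linarith only [hn'])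
      hI0
    linarith only [hs2, h1, this]
  have ho : ((∑ u ∈ lv p c e, out D u : ℕ) : ℝ) ≤
      wsum D (fun u v => 1 + p u - p v) + ∑ b ∈ Icc (c + 1) e, (up D p b : ℝ) := by
    exact_mod_cast out_le D p c e
  have hkk : (k : ℝ) * (lv p c e).card ≤ ((∑ u ∈ lv p c e, out D u : ℕ) : ℝ) + dfc k D univ := by
    exact_mod_cast k_le D k (lv p c e)
  have hk' : (0 : ℝ) < k := by exact_mod_cast hk
  have := mul_lt_mul_of_pos_left hU hk'
  linarith only [hW, hc, hup, ho, hkk, this]

lemma core (hf : FKS_s) (D : Mat V) (p : V → ℕ) (k : ℕ) (g G Δ W I : ℝ) (hk : 1 ≤ k) (hg : 0 < g)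
    (hG : 0 < G) (hΔ : 0 < Δ) (hs : Simple D) (hgi : Girth D g)
    (hW : (wsum D (fun u v => 1 + p u - p v) : ℝ) ≤ W) (hI : imb D ≤ I)
    (hc : dfc k D univ + 2 * W + (W / Δ + 1) * I ≤ 2 * G * k) (a : ℕ) :
    Fas (res D (lv p 0 a)) ((600 * G / g ^ 2 + Δ / G) * (lv p 0 a).card) := by
  have small : ∀ U : Finset V, (U.card : ℝ) ≤ 3 * G → Fas (res D U) (600 * G / g ^ 2 * U.card) := by
    intro U hU
    refine fas_mono (hf V D g U hg hs hgi) ?_
    have h0 : (0 : ℝ) ≤ U.card := Nat.cast_nonneg _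
    rw [div_mul_eq_mul_div]
    refine div_le_div_of_nonneg_right ?_ (by positivity)
    have := mul_le_mul_of_nonneg_right hU h0
    linarith only [this]
  induction a using Nat.strong_induction_on with
  | _ a ih =>
    by_cases ha : ((lv p 0 a).card : ℝ) ≤ 3 * G
    · refine fas_mono (small _ ha) ?_
      have : (0 : ℝ) ≤ Δ / G * (lv p 0 a).card := by positivity
      linarith only [this]
    · obtain ⟨b, hb, h1, h2, h3⟩ := cut D p k G Δ W I hk hG hΔ hW hI hc a (not_le.mp ha)
      refine fas_mono (glue D p (ih b hb) (small _ h2)) ?_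
      have hca : ((lv p 0 a).card : ℝ) = (lv p 0 b).card + (lv p b a).card := by
        exact_mod_cast card_add p (Nat.zero_le b) hb.le
      have h4 : Δ ≤ Δ / G * (lv p b a).card := by
        have := mul_le_mul_of_nonneg_left h1 (show 0 ≤ Δ / G by positivity)
        rwa [div_mul_cancel₀ _ hG.ne'] at this
      rw [hca]
      linarith only [h3, h4]

end CIRC

theorem circ (hp : POT_s) (hf : FKS_s) : CIRC_s := by
  intro ε ζ hε hζ
  obtain ⟨γ, hγ, hγe⟩ : ∃ γ : ℝ, 0 < γ ∧ γ = ε * ζ ^ 2 / 1200 := ⟨_, by positivity, rfl⟩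
  obtain ⟨δ, hδ, hδe⟩ : ∃ δ : ℝ, 0 < δ ∧ δ = ε * γ / 2 := ⟨_, by positivity, rfl⟩
  obtain ⟨β, hβ, hβe⟩ : ∃ β : ℝ, 0 < β ∧ β * (3 + 4 / δ) = γ :=
    ⟨γ / (3 + 4 / δ), by positivity, div_mul_cancel₀ _ (by positivity)⟩
  refine ⟨β, hβ, ⌈4 / γ⌉₊, ?_⟩
  intro k hk V _ _ D hL hs hgi hd hI
  obtain ⟨F, p, hF, hB, hw⟩ := hp V D
  by_cases hbig : β * k * Fintype.card V ≤ size F
  · exact Or.inr ⟨F, hF, hB, hbig⟩
  left
  have hk' : (0 : ℝ) < k := by exact_mod_cast hk
  have hn : 4 / γ * k ≤ (Fintype.card V : ℝ) := by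
    have h1 : ((⌈4 / γ⌉₊ * k : ℕ) : ℝ) ≤ Fintype.card V := by exact_mod_cast hL
    push_cast at h1
    exact (mul_le_mul_of_nonneg_right (Nat.le_ceil _) hk'.le).trans h1
  have hn0 : (0 : ℝ) < Fintype.card V := lt_of_lt_of_le (by positivity) hn
  generalize hN : (Fintype.card V : ℝ) = n at *
  have hW : (wsum D (fun u v => 1 + p u - p v) : ℝ) ≤ β * k * n := by
    have : (wsum D (fun u v => 1 + p u - p v) : ℝ) ≤ size F := by exact_mod_cast hw
    linarith only [hbig, this]
  have h4 : 4 * (k : ℝ) ≤ γ * n := by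
    rw [div_mul_eq_mul_div, div_le_iff₀ hγ] at hn
    linarith only [hn]
  have hc : dfc k D univ + 2 * (β * k * n) + (β * k * n / (δ * k ^ 2) + 1) * (4 * k ^ 2) ≤
      2 * (γ * n) * k := by
    have e1 : (β * k * n / (δ * k ^ 2) + 1) * (4 * (k : ℝ) ^ 2) = β * (4 / δ) * (k * n) + 4 * k * k := by
      field_simp
    have e2 : β * (4 / δ) = γ - 3 * β := by linarith only [hβe]
    have e3 := mul_le_mul_of_nonneg_right h4 hk'.le
    rw [e1, e2]
    linarith only [hd, e3]
  have hcore := CIRC.core hf D p k (ζ * n / k) (γ * n) (δ * k ^ 2) (β * k * n) (4 * k ^ 2) hk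
    (by positivity) (by positivity) (by positivity) hs hgi hW hI hc (1 + ∑ w, p w)
  have hu : CIRC.lv p 0 (1 + ∑ w, p w) = univ := by
    unfold CIRC.lv
    rw [filter_eq_self]
    intro v _
    have : p v ≤ ∑ w, p w := single_le_sum (f := p) (fun _ _ => Nat.zero_le _) (mem_univ v)
    omega
  have hr : res D univ = D := by
    funext u v
    simp only [res, mem_univ, and_self, ↓ reduceIte]
  rw [hu, hr, card_univ, hN] at hcore
  refine CIRC.fas_mono hcore (le_of_eq ?_)
  rw [hδe, hγe]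
  field_simp
  ring

end Pool.Agent.MP_2634a8_co.X
end

section
namespace Pool.Agent.MP_2634a8_co.X

open Finset

namespace LR

variable {V : Type} [Fintype V] [DecidableEq V]

def Np (H : Mat V) (u : V) : Finset V := univ.filter fun v => H u v ≠ 0
def Nm (H : Mat V) (u : V) : Finset V := univ.filter fun v => H v u ≠ 0
def tr (H : Mat V) : Mat V := fun u v => H v u
def ch (H : Mat V) (u a b : V) : ℕ :=
  if a ≠ b ∧ H u a ≠ 0 ∧ H u b ≠ 0 ∧ H a b = 0 ∧ H b a = 0 then 1 else 0
def pp (H : Mat V) (z : V) : ℕ := ∑ a, ∑ b, ch H z a b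
def aa (H : Mat V) (z : V) : ℕ := ∑ y, ∑ x, ch H y z x
def dd (H : Mat V) (k : ℕ) (z : V) : ℕ := ∑ y, H z y * (k - out H y)
def bad (H : Mat V) (k : ℕ) (z : V) : ℕ :=
  pp H z + aa H z + aa (tr H) z + k * (k - out H z) + dd H k z

omit [DecidableEq V] in
lemma mem_Np {H : Mat V} {u v : V} : v ∈ Np H u ↔ H u v ≠ 0 := by simp only [Np, ne_eq, mem_filter, mem_univ, true_and]
omit [DecidableEq V] in
lemma mem_Nm {H : Mat V} {u v : V} : v ∈ Nm H u ↔ H v u ≠ 0 := by simp only [Nm, ne_eq, mem_filter, mem_univ, true_and]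

omit [Fintype V] [DecidableEq V] in
lemma simple_tr {H : Mat V} (h : Simple H) : Simple (tr H) := ⟨fun a b => h.1 b a, fun a => h.2 a⟩

omit [DecidableEq V] in
lemma card_Np {H : Mat V} (h : Simple H) (u : V) : (Np H u).card = out H u := by
  unfold Np out
  rw [card_filter]
  refine sum_congr rfl fun v _ => ?_
  have := h.1 u v
  split_ifs with h1 <;> omega

omit [DecidableEq V] in
lemma card_Nm {H : Mat V} (h : Simple H) (u : V) : (Nm H u).card = inn H u :=
  card_Np (simple_tr h) u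

lemma eb_comm {H : Mat V} (h : Bal H) (U : Finset V) : eb H Uᶜ U = eb H U Uᶜ := by
  have h1 : ∑ u ∈ U, out H u = eb H U U + eb H U Uᶜ := by
    unfold eb out
    rw [← sum_add_distrib]
    exact sum_congr rfl fun u _ => (sum_add_sum_compl U _).symm
  have h2 : ∑ u ∈ U, inn H u = eb H U U + eb H Uᶜ U := by
    unfold eb inn
    rw [sum_comm, sum_add_sum_compl]
  have h3 : ∑ u ∈ U, out H u = ∑ u ∈ U, inn H u := sum_congr rfl fun u _ => h u
  omega

omit [Fintype V] [DecidableEq V] in
lemma eb_tr (H : Mat V) (S T : Finset V) : eb (tr H) S T = eb H T S := by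
  unfold eb tr; exact sum_comm

omit [Fintype V] in
lemma ch_le {H : Mat V} (u a b : V) : ch H u a b ≤ H u a * H u b := by
  unfold ch
  split_ifs with h1
  · exact Nat.one_le_iff_ne_zero.2 (mul_ne_zero h1.2.1 h1.2.2.1)
  · exact Nat.zero_le _

lemma sum_pp {H : Mat V} {k : ℕ} (hk : ∀ v, out H v ≤ k) (U : Finset V) :
    ∑ z ∈ U, pp H z ≤ nco H U + 2 * (k * eb H U Uᶜ) := by
  have h1 : ∀ z, pp H z ≤ (∑ a ∈ U, ∑ b ∈ U, ch H z a b) + 2 * (k * ∑ a ∈ Uᶜ, H z a) := by
    intro z
    unfold pp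
    rw [← sum_add_sum_compl U]
    have e1 : ∑ a ∈ U, ∑ b, ch H z a b =
        (∑ a ∈ U, ∑ b ∈ U, ch H z a b) + ∑ a ∈ U, ∑ b ∈ Uᶜ, ch H z a b := by
      rw [← sum_add_distrib]
      exact sum_congr rfl fun u _ => (sum_add_sum_compl U _).symm
    have e2 : ∑ a ∈ U, ∑ b ∈ Uᶜ, ch H z a b ≤ k * ∑ a ∈ Uᶜ, H z a := by
      calc _ ≤ ∑ a ∈ U, ∑ b ∈ Uᶜ, H z a * H z b :=
            sum_le_sum fun a _ => sum_le_sum fun b _ => ch_le _ _ _
        _ = (∑ a ∈ U, H z a) * ∑ b ∈ Uᶜ, H z b := by rw [sum_mul_sum]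
        _ ≤ _ := Nat.mul_le_mul_right _
            ((sum_le_sum_of_subset (subset_univ U)).trans (hk z))
    have e3 : ∑ a ∈ Uᶜ, ∑ b, ch H z a b ≤ k * ∑ a ∈ Uᶜ, H z a := by
      calc _ ≤ ∑ a ∈ Uᶜ, ∑ b, H z a * H z b :=
            sum_le_sum fun a _ => sum_le_sum fun b _ => ch_le _ _ _
        _ = (∑ a ∈ Uᶜ, H z a) * ∑ b, H z b := by rw [sum_mul_sum]
        _ ≤ _ := by rw [mul_comm]; exact Nat.mul_le_mul_right _ (hk z)
    omega
  calc _ ≤ ∑ z ∈ U, ((∑ a ∈ U, ∑ b ∈ U, ch H z a b) + 2 * (k * ∑ a ∈ Uᶜ, H z a)) :=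
        sum_le_sum fun z _ => h1 z
    _ = _ := by rw [sum_add_distrib, ← mul_sum, ← mul_sum]; rfl

lemma sum_aa {H : Mat V} {k : ℕ} (hk : ∀ v, out H v ≤ k) (U : Finset V) :
    ∑ z ∈ U, aa H z ≤ nco H U + 2 * (k * eb H U Uᶜ) + k * eb H Uᶜ U := by
  unfold aa
  rw [sum_comm, ← sum_add_sum_compl U]
  have e1 : ∑ y ∈ U, ∑ z ∈ U, ∑ x, ch H y z x ≤ ∑ y ∈ U, pp H y :=
    sum_le_sum fun y _ => sum_le_sum_of_subset (subset_univ U)
  have e2 : ∑ y ∈ Uᶜ, ∑ z ∈ U, ∑ x, ch H y z x ≤ k * eb H Uᶜ U := by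
    unfold eb
    rw [mul_sum]
    refine sum_le_sum fun y _ => ?_
    rw [mul_sum]
    refine sum_le_sum fun z _ => ?_
    calc _ ≤ ∑ x, H y z * H y x := sum_le_sum fun x _ => ch_le _ _ _
      _ = H y z * out H y := by rw [← mul_sum]; rfl
      _ ≤ _ := by rw [mul_comm]; exact Nat.mul_le_mul_right _ (hk y)
  have := sum_pp hk U
  omega

lemma sum_dd {H : Mat V} {k : ℕ} (hk : ∀ v, inn H v ≤ k) (U : Finset V) :
    ∑ z ∈ U, dd H k z ≤ k * dfc k H U + k * eb H U Uᶜ := by
  have e0 : ∑ z ∈ U, dd H k z = (∑ z ∈ U, ∑ y ∈ U, H z y * (k - out H y)) +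
      ∑ z ∈ U, ∑ y ∈ Uᶜ, H z y * (k - out H y) := by
    rw [← sum_add_distrib]
    exact sum_congr rfl fun u _ => (sum_add_sum_compl U _).symm
  have e1 : ∑ z ∈ U, ∑ y ∈ U, H z y * (k - out H y) ≤ k * dfc k H U := by
    unfold dfc
    rw [sum_comm, mul_sum]
    refine sum_le_sum fun y _ => ?_
    rw [← sum_mul]
    exact Nat.mul_le_mul_right _ ((sum_le_sum_of_subset (subset_univ U)).trans (hk y))
  have e2 : ∑ z ∈ U, ∑ y ∈ Uᶜ, H z y * (k - out H y) ≤ k * eb H U Uᶜ := by
    unfold eb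
    rw [mul_sum]
    refine sum_le_sum fun z _ => ?_
    rw [mul_sum]
    refine sum_le_sum fun y _ => ?_
    rw [mul_comm]
    exact Nat.mul_le_mul_right _ (Nat.sub_le _ _)
  omega

lemma sum_bad {H : Mat V} {k : ℕ} (hb : Bal H) (hk : ∀ v, out H v ≤ k) (U : Finset V) :
    ∑ z ∈ U, bad H k z ≤
      2 * (nco H U + nci H U) + 2 * (k * dfc k H U) + 9 * (k * eb H U Uᶜ) := by
  have hi : ∀ v, inn H v ≤ k := fun v => hb v ▸ hk v
  have h1 := sum_pp hk U
  have h2 := sum_aa hk U
  have h3 := sum_aa (H := tr H) hi U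
  have h4 := sum_dd hi U
  have h5 : nco (tr H) U = nci H U := rfl
  rw [eb_tr, eb_tr, h5, eb_comm hb] at h3
  rw [eb_comm hb] at h2
  have h6 : ∑ z ∈ U, k * (k - out H z) = k * dfc k H U := by unfold dfc; rw [mul_sum]
  unfold bad
  simp only [sum_add_distrib]
  omega

/-- no short closed walk -/
lemma walk {H : Mat V} : ∀ (l : ℕ) (z : ℕ → V), 1 ≤ l →
    (∀ j < l, H (z j) (z (j + 1)) ≠ 0) → z l = z 0 →
    ∃ C : Mat V, C ≤ H ∧ C ≠ 0 ∧ Bal C ∧ size C ≤ l := by
  intro l
  induction l using Nat.strong_induction_on with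
  | _ l ih =>
    intro z hl hz h0
    by_cases hinj : ∀ i < l, ∀ j < l, z i = z j → i = j
    · refine ⟨fun a b => ∑ j ∈ range l, E (z j) (z (j + 1)) a b, ?_, ?_, ?_, ?_⟩
      · intro a b
        by_cases hex : ∃ j < l, z j = a ∧ z (j + 1) = b
        · obtain ⟨j, hj, rfl, rfl⟩ := hex
          show ∑ i ∈ range l, E (z i) (z (i + 1)) (z j) (z (j + 1)) ≤ _
          rw [sum_eq_single j]
          · have := hz j hj
            simp only [E, and_self, if_true]; omega
          · intro i hi hij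
            have : z j ≠ z i := fun h => hij (hinj j hj i (mem_range.1 hi) h).symm
            simp [E, this]
          · intro h; exact absurd (mem_range.2 hj) h
        · show ∑ i ∈ range l, E (z i) (z (i + 1)) a b ≤ _
          rw [sum_eq_zero]
          · exact Nat.zero_le _
          · intro i hi
            have : ¬ (a = z i ∧ b = z (i + 1)) := fun h =>
              hex ⟨i, mem_range.1 hi, h.1.symm, h.2.symm⟩
            simp only [E, this, if_false]
      · intro h
        have h1 := congrFun (congrFun h (z 0)) (z 1)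
        simp only [Pi.zero_apply, sum_eq_zero_iff] at h1
        have := h1 0 (mem_range.2 hl)
        simp [E] at this
      · intro v
        have e1 : out (fun a b => ∑ j ∈ range l, E (z j) (z (j + 1)) a b) v =
            ∑ j ∈ range l, if v = z j then 1 else 0 := by
          unfold out
          rw [sum_comm]
          exact sum_congr rfl fun j _ => out_E _ _ _
        have e2 : inn (fun a b => ∑ j ∈ range l, E (z j) (z (j + 1)) a b) v =
            ∑ j ∈ range l, if v = z (j + 1) then 1 else 0 := by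
          unfold inn
          rw [sum_comm]
          exact sum_congr rfl fun j _ => inn_E _ _ _
        have e3 := sum_range_succ (fun j => if v = z j then 1 else 0) l
        have e4 := sum_range_succ' (fun j => if v = z j then 1 else 0) l
        simp only [h0] at e3
        omega
      · have : size (fun a b => ∑ j ∈ range l, E (z j) (z (j + 1)) a b) =
            ∑ j ∈ range l, size (E (z j) (z (j + 1))) := by
          unfold size out
          rw [sum_comm (s := range l)]
          exact sum_congr rfl fun a _ => sum_comm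
        rw [this]
        simp [size_E]
    · have : ∃ i j, i < j ∧ j < l ∧ z i = z j := by
        by_contra hc
        refine hinj fun i hi j hj h => ?_
        by_contra hne
        rcases lt_or_gt_of_ne hne with h1 | h1
        · exact hc ⟨i, j, h1, hj, h⟩
        · exact hc ⟨j, i, h1, hi, h.symm⟩
      obtain ⟨i, j, hij, hj, h⟩ := this
      obtain ⟨C, h1, h2, h3, h4⟩ := ih (j - i) (by omega) (fun t => z (i + t)) (by omega)
        (fun t ht => hz (i + t) (by omega))
        (by show z (i + (j - i)) = z (i + 0); rw [show i + (j - i) = j by omega, add_zero, h])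
      exact ⟨C, h1, h2, h3, by omega⟩

omit [Fintype V] in
lemma last (A : Finset V) (ρ : V → ℕ) (d : ℕ) (hd : d ≤ A.card) :
    d ≤ (A.filter fun z => (A.filter fun x => ρ z < ρ x).card < d).card := by
  by_contra hc
  set B := A.filter fun z => (A.filter fun x => ρ z < ρ x).card < d with hB
  have hne : (A \ B).Nonempty := by
    rw [← card_pos]
    have := le_card_sdiff B A
    omega
  obtain ⟨z, hz, hmax⟩ := exists_max_image (A \ B) ρ hne
  have hsub : (A.filter fun x => ρ z < ρ x) ⊆ B := by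
    intro x hx
    by_contra hxB
    have h1 := mem_filter.1 hx
    have := hmax x (mem_sdiff.2 ⟨h1.1, hxB⟩)
    omega
  have := card_le_card hsub
  exact (mem_sdiff.1 hz).2 (mem_filter.2 ⟨(mem_sdiff.1 hz).1, by omega⟩)

lemma card_ind (B : Finset V) : B.card = ∑ x, if x ∈ B then 1 else 0 := by
  rw [sum_ite_mem, univ_inter, card_eq_sum_ones]

def top (H : Mat V) (d : ℕ) (u : V) : Finset V :=
  (Np H u).filter fun z => (Np H u \ Nm H z).card ≤ 2 * d

lemma top_card {H : Mat V} (hs : Simple H) {u : V} {d : ℕ} (ρ : V → ℕ) (hd : d ≤ out H u)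
    (hd0 : 1 ≤ d) (h : 2 * (pp H u + back (res H (Np H u)) ρ) ≤ d ^ 2) :
    d ≤ 2 * (top H d u).card := by
  set A := Np H u with hA
  set w : V → ℕ := fun z => (∑ x, ch H u z x) +
    ∑ x, if ρ x ≤ ρ z then res H A z x else 0 with hw
  set L := A.filter fun z => (A.filter fun x => ρ z < ρ x).card < d with hL
  have hLc : d ≤ L.card := last A ρ d (by rw [hA, card_Np hs]; exact hd)
  have hsum : ∑ z, w z = pp H u + back (res H A) ρ := by
    simp only [hw, sum_add_distrib]; rfl
  have key : ∀ z ∈ L, z ∉ top H d u → d ≤ w z := by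
    intro z hz hzt
    have hz1 := mem_filter.1 hz
    have h1 : 2 * d < (A \ Nm H z).card := by
      by_contra hc
      exact hzt (mem_filter.2 ⟨hz1.1, not_lt.1 hc⟩)
    have h2 : (A \ Nm H z).card ≤ 1 + (A.filter fun x => ρ z < ρ x).card + w z := by
      have e1 : (1 : ℕ) = ∑ x, if x = z then 1 else 0 := by simp only [sum_ite_eq', mem_univ, ↓ reduceIte]
      have e2 : (A.filter fun x => ρ z < ρ x).card =
          ∑ x, if x ∈ A.filter fun x => ρ z < ρ x then 1 else 0 := card_ind _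
      have e3 : (A \ Nm H z).card = ∑ x, if x ∈ A \ Nm H z then 1 else 0 := card_ind _
      rw [e3, e2]
      simp only [hw]
      nth_rewrite 2 [e1]
      simp only [← sum_add_distrib]
      refine sum_le_sum fun x _ => ?_
      by_cases hx : x ∈ A \ Nm H z
      · rw [if_pos hx]
        obtain ⟨hx1, hx2⟩ := mem_sdiff.1 hx
        have hx3 : H x z = 0 := by simpa [mem_Nm] using hx2
        by_cases c1 : x = z
        · rw [if_pos c1]; omega
        by_cases c2 : ρ z < ρ x
        · rw [if_pos (mem_filter.2 ⟨hx1, c2⟩)]; omega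
        by_cases c3 : H z x = 0
        · have : ch H u z x = 1 :=
            if_pos ⟨fun h => c1 h.symm, mem_Np.1 hz1.1, mem_Np.1 hx1, c3, hx3⟩
          omega
        · have : res H A z x = H z x := if_pos ⟨hz1.1, hx1⟩
          rw [if_pos (show ρ x ≤ ρ z by omega)]
          omega
      · rw [if_neg hx]; exact Nat.zero_le _
    omega
  have h3 : (L \ top H d u).card * d ≤ ∑ z, w z := by
    calc _ = ∑ _z ∈ L \ top H d u, d := by simp
      _ ≤ ∑ z ∈ L \ top H d u, w z :=
          sum_le_sum fun z hz => key z (mem_sdiff.1 hz).1 (mem_sdiff.1 hz).2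
      _ ≤ _ := sum_le_sum_of_subset (subset_univ _)
  have h4 : 2 * (L \ top H d u).card * d ≤ d * d := by linarith only [h, hsum, h3]
  have h5 : 2 * (L \ top H d u).card ≤ d := Nat.le_of_mul_le_mul_right h4 hd0
  have h6 := le_card_sdiff (top H d u) L
  omega

def Gd (H : Mat V) (d : ℕ) (G0 : Finset V) : ℕ → Finset V
  | 0 => G0
  | i + 1 => G0.filter fun u => 2 * (Np H u \ Gd H d G0 i).card < d

lemma chain {H : Mat V} {d : ℕ} {G0 : Finset V} (ht : ∀ u ∈ G0, d ≤ 2 * (top H d u).card) :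
    ∀ i, ∀ u ∈ Gd H d G0 i, ∃ z : ℕ → V, z 0 = u ∧ (∀ j ≤ i, z j ∈ G0) ∧
      ∀ j < i, z (j + 1) ∈ top H d (z j) := by
  intro i
  induction i with
  | zero => exact fun u hu => ⟨fun _ => u, rfl, fun _ _ => hu, fun j hj => by omega⟩
  | succ i ih =>
    intro u hu
    obtain ⟨h0, h1⟩ := mem_filter.1 hu
    have : ∃ w ∈ top H d u, w ∈ Gd H d G0 i := by
      by_contra hc
      have hsub : top H d u ⊆ Np H u \ Gd H d G0 i := fun w hw =>
        mem_sdiff.2 ⟨(mem_filter.1 hw).1, fun h => hc ⟨w, hw, h⟩⟩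
      have := card_le_card hsub
      have := ht u h0
      omega
    obtain ⟨w, hw, hw'⟩ := this
    obtain ⟨z, z0, z1, z2⟩ := ih w hw'
    refine ⟨fun j => match j with | 0 => u | j + 1 => z j, rfl, ?_, ?_⟩
    · intro j hj
      match j with
      | 0 => exact h0
      | j + 1 => exact z1 j (by omega)
    · intro j hj
      match j with
      | 0 => show z 0 ∈ top H d u; rw [z0]; exact hw
      | j + 1 => exact z2 j (by omega)

lemma Gd_step {H : Mat V} {k d : ℕ} (hi : ∀ v, inn H v ≤ k) (G0 U : Finset V)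
    (i : ℕ) : d * (U \ Gd H d G0 (i + 1)).card ≤
      d * (U \ G0).card + 2 * (eb H U Uᶜ + k * (U \ Gd H d G0 i).card) := by
  set G := Gd H d G0 i with hGi
  set W := U.filter fun u => d ≤ 2 * (Np H u \ G).card with hW
  have h1 : U \ Gd H d G0 (i + 1) ⊆ (U \ G0) ∪ W := by
    intro u hu
    obtain ⟨h1, h2⟩ := mem_sdiff.1 hu
    by_cases h0 : u ∈ G0
    · refine mem_union_right _ (mem_filter.2 ⟨h1, ?_⟩)
      by_contra hc
      exact h2 (mem_filter.2 ⟨h0, not_le.1 hc⟩)
    · exact mem_union_left _ (mem_sdiff.2 ⟨h1, h0⟩)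
  have h2 := (card_le_card h1).trans (card_union_le _ _)
  have h3 : ∀ u, (Np H u \ G).card ≤ (∑ v ∈ Uᶜ, H u v) + ∑ v ∈ U \ G, H u v := by
    intro u
    rw [← sum_union (by
      rw [disjoint_left]; intro a ha hb; exact (mem_compl.1 ha) (mem_sdiff.1 hb).1)]
    calc _ = ∑ _v ∈ Np H u \ G, 1 := by simp
      _ ≤ ∑ v ∈ Np H u \ G, H u v := sum_le_sum fun v hv =>
          Nat.one_le_iff_ne_zero.2 (mem_Np.1 (mem_sdiff.1 hv).1)
      _ ≤ _ := sum_le_sum_of_subset fun v hv => by
          by_cases h : v ∈ U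
          · exact mem_union_right _ (mem_sdiff.2 ⟨h, (mem_sdiff.1 hv).2⟩)
          · exact mem_union_left _ (mem_compl.2 h)
  have h4 : ∑ u ∈ U, ∑ v ∈ U \ G, H u v ≤ k * (U \ G).card := by
    rw [sum_comm]
    calc _ ≤ ∑ _v ∈ U \ G, k := sum_le_sum fun v _ =>
          (sum_le_sum_of_subset (subset_univ U)).trans (hi v)
      _ = _ := by simp [mul_comm]
  have h5 : d * W.card ≤ 2 * (eb H U Uᶜ + k * (U \ G).card) := by
    calc _ = ∑ _u ∈ W, d := by simp [mul_comm]
      _ ≤ ∑ u ∈ W, 2 * (Np H u \ G).card := sum_le_sum fun u hu => (mem_filter.1 hu).2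
      _ ≤ ∑ u ∈ U, 2 * (Np H u \ G).card := sum_le_sum_of_subset (filter_subset _ _)
      _ ≤ ∑ u ∈ U, 2 * ((∑ v ∈ Uᶜ, H u v) + ∑ v ∈ U \ G, H u v) :=
          sum_le_sum fun u _ => Nat.mul_le_mul_left _ (h3 u)
      _ = 2 * (eb H U Uᶜ + ∑ u ∈ U, ∑ v ∈ U \ G, H u v) := by
          rw [← mul_sum, sum_add_distrib]; rfl
      _ ≤ _ := by omega
  have h6 := Nat.mul_le_mul_left d h2
  rw [mul_add] at h6
  omega

lemma eb_out {H : Mat V} (hs : Simple H) {k : ℕ} (hi : ∀ v, inn H v ≤ k) {z : V}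
    {S : Finset V} (hS : S ⊆ Nm H z) (I : Finset V) :
    eb H S Iᶜ ≤ k + aa H z + k * (Np H z \ I).card + k * (Nm H z \ I).card := by
  have h1 : ∀ y ∈ S, ∑ x ∈ Iᶜ, H y x ≤ H y z + (∑ x, ch H y z x) + (∑ x ∈ Np H z \ I, H y x) +
      ∑ x ∈ Nm H z \ I, H y x := by
    intro y hy
    have e0 : ∀ B : Finset V, ∑ x ∈ B, H y x = ∑ x, if x ∈ B then H y x else 0 := by
      intro B; simp only [sum_ite_mem, univ_inter]
    have e1 : H y z = ∑ x, if x = z then H y x else 0 := by simp only [sum_ite_eq', mem_univ, ↓ reduceIte]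
    rw [e0 Iᶜ, e0 (Np H z \ I), e0 (Nm H z \ I), e1]
    simp only [← sum_add_distrib]
    refine sum_le_sum fun x _ => ?_
    by_cases hx : x ∈ Iᶜ
    · rw [if_pos hx]
      have hx' := mem_compl.1 hx
      by_cases c1 : x = z
      · rw [if_pos c1]; omega
      by_cases c2 : H z x = 0
      · by_cases c3 : H x z = 0
        · by_cases c4 : H y x = 0
          · omega
          · have : ch H y z x = 1 := if_pos ⟨fun h => c1 h.symm, mem_Nm.1 (hS hy), c4, c2, c3⟩
            have := hs.1 y x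
            omega
        · rw [if_pos (mem_sdiff.2 ⟨mem_Nm.2 c3, hx'⟩)]; omega
      · rw [if_pos (mem_sdiff.2 ⟨mem_Np.2 c2, hx'⟩)]; omega
    · rw [if_neg hx]; exact Nat.zero_le _
  have h2 : ∀ B : Finset V, ∑ y ∈ S, ∑ x ∈ B, H y x ≤ k * B.card := by
    intro B
    rw [sum_comm]
    calc _ ≤ ∑ _v ∈ B, k := sum_le_sum fun v _ =>
          (sum_le_sum_of_subset (subset_univ S)).trans (hi v)
      _ = _ := by simp [mul_comm]
  have h3 : ∑ y ∈ S, H y z ≤ k := (sum_le_sum_of_subset (subset_univ S)).trans (hi z)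
  have h4 : ∑ y ∈ S, ∑ x, ch H y z x ≤ aa H z := sum_le_sum_of_subset (subset_univ S)
  have h5 := sum_le_sum h1
  simp only [sum_add_distrib] at h5
  have h6 := h2 (Np H z \ I)
  have h7 := h2 (Nm H z \ I)
  unfold eb
  omega

lemma eb_self {H : Mat V} {k : ℕ} (hk : ∀ v, out H v ≤ k) {z : V} {T : Finset V}
    (hT : T ⊆ Np H z) (hc : T.card ≤ k) : 2 * eb H T Tᶜ ≤ k * (k + 1) + pp H z := by
  have h1 : eb H T T + eb H T Tᶜ ≤ k * T.card := by
    unfold eb
    rw [← sum_add_distrib]
    calc _ ≤ ∑ _v ∈ T, k := sum_le_sum fun v _ => by rw [sum_add_sum_compl]; exact hk v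
      _ = _ := by simp [mul_comm]
  have h2 : T.card * T.card ≤ T.card + 2 * eb H T T + pp H z := by
    have e1 : T.card * T.card = ∑ _a ∈ T, ∑ _b ∈ T, 1 := by simp
    have e2 : T.card = ∑ a ∈ T, ∑ b ∈ T, if a = b then 1 else 0 := by
      rw [card_eq_sum_ones]
      exact sum_congr rfl fun a ha => by simp [ha]
    have e3 : eb H T T = ∑ a ∈ T, ∑ b ∈ T, H b a := sum_comm
    have e4 : ∑ a ∈ T, ∑ b ∈ T, ch H z a b ≤ pp H z :=
      (sum_le_sum fun a _ => sum_le_sum_of_subset (subset_univ T)).trans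
        (sum_le_sum_of_subset (subset_univ T))
    have e5 : ∑ _a ∈ T, ∑ _b ∈ T, 1 ≤ ∑ a ∈ T, ∑ b ∈ T,
        ((if a = b then 1 else 0) + H a b + H b a + ch H z a b) := by
      refine sum_le_sum fun a ha => sum_le_sum fun b hb => ?_
      by_cases c1 : a = b
      · rw [if_pos c1]; omega
      by_cases c2 : H a b = 0
      · by_cases c3 : H b a = 0
        · have : ch H z a b = 1 := if_pos ⟨c1, mem_Np.1 (hT ha), mem_Np.1 (hT hb), c2, c3⟩
          omega
        · omega
      · omega
    simp only [sum_add_distrib] at e5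
    have e6 : eb H T T = ∑ a ∈ T, ∑ b ∈ T, H a b := rfl
    omega
  obtain ⟨r, rfl⟩ := Nat.exists_eq_add_of_le hc
  nlinarith [Nat.zero_le (r * r)]

omit [Fintype V] in
lemma sum_biUnion_le_sum' {ι : Type} (s : Finset ι) (S : ι → Finset V) (f : V → ℕ) :
    ∑ v ∈ s.biUnion S, f v ≤ ∑ i ∈ s, ∑ v ∈ S i, f v := by
  classical
  induction s using Finset.induction_on with
  | empty => simp
  | insert a s ha ih =>
    rw [biUnion_insert, sum_insert ha]
    have := sum_union_inter (s₁ := S a) (s₂ := s.biUnion S) (f := f)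
    omega

omit [Fintype V] in
lemma eb_cover (H : Mat V) {ι : Type} (s : Finset ι) (S : ι → Finset V) {A : Finset V}
    (hA : A ⊆ s.biUnion S) (B : Finset V) : eb H A B ≤ ∑ i ∈ s, eb H (S i) B := by
  unfold eb
  exact (sum_le_sum_of_subset hA).trans (sum_biUnion_le_sum' _ _ _)

/-- the structure built from a chain -/
lemma build {H : Mat V} (hs : Simple H) (hb : Bal H) {k d m : ℕ} (hk : ∀ v, out H v ≤ k)
    (hm : 2 ≤ m) (hd : 1 ≤ d) (hdk : d ≤ k)
    (hg : ∀ C : Mat V, C ≤ H → C ≠ 0 → Bal C → m < size C) (z : ℕ → V)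
    (h1 : ∀ j ≤ m, 4 * bad H k (z j) ≤ d ^ 2) (h2 : ∀ j < m, z (j + 1) ∈ top H d (z j)) :
    ∃ I T Hd : Finset V, T ⊆ I ∧ Hd ⊆ I ∧ Disjoint T Hd ∧ T.card ≤ k ∧ Hd.card ≤ k ∧
      m * k ≤ I.card + 3 * (m * d) ∧ I.card ≤ m * k ∧ eb H (I \ T) Iᶜ ≤ 7 * (m * (k * d)) ∧
      eb H Iᶜ (I \ Hd) ≤ 7 * (m * (k * d)) ∧
      2 * eb H I Iᶜ ≤ k * (k + 1) + 15 * (m * (k * d)) ∧ dfc k H I ≤ m * (k * d) := by
  have hi : ∀ v, inn H v ≤ k := fun v => hb v ▸ hk v
  set S : ℕ → Finset V := fun i => Np H (z i) ∩ Nm H (z (i + 1)) with hS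
  set I := (range m).biUnion S with hI
  have hdd : d ^ 2 ≤ k * d := by rw [sq]; exact Nat.mul_le_mul_right _ hdk
  have hkd : k ≤ k * d := Nat.le_mul_of_pos_right _ hd
  have hSI : ∀ i < m, S i ⊆ I := fun i h => subset_biUnion_of_mem S (mem_range.2 h)
  have hSk : ∀ i, (S i).card ≤ k := fun i =>
    (card_le_card inter_subset_left).trans (by rw [card_Np hs]; exact hk _)
  have hbad : ∀ j ≤ m, pp H (z j) ≤ k * d ∧ aa H (z j) ≤ k * d ∧ aa (tr H) (z j) ≤ k * d ∧
      k ≤ out H (z j) + d ∧ dd H k (z j) ≤ k * d := by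
    intro j hj
    have h := h1 j hj
    unfold bad at h
    have : k - out H (z j) ≤ d := Nat.le_of_mul_le_mul_left (by omega : k * _ ≤ k * d) (by omega)
    omega
  have hA : ∀ i < m, (Np H (z i) \ S i).card ≤ 2 * d := by
    intro i h
    rw [hS]
    simp only [sdiff_inter_self_left]
    exact (mem_filter.1 (h2 i h)).2
  have hSl : ∀ i < m, k ≤ (S i).card + 3 * d := by
    intro i h
    have e1 := le_card_sdiff (S i) (Np H (z i))
    have e2 := hA i h
    have e3 := (hbad i h.le).2.2.2.1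
    rw [card_Np hs] at e1
    omega
  have hB : ∀ i < m, (Nm H (z (i + 1)) \ S i).card ≤ 3 * d := by
    intro i h
    have e1 := card_sdiff_add_card_eq_card (show S i ⊆ Nm H (z (i + 1)) from inter_subset_right)
    have e2 := hSl i h
    have e3 := hi (z (i + 1))
    rw [card_Nm hs] at e1
    omega
  have hdis : ∀ i j, i < j → j < m → Disjoint (S i) (S j) := by
    intro i j hij hj
    rw [disjoint_left]
    intro y hy hy'
    have a1 := mem_Nm.1 (mem_inter.1 hy).2
    have a2 := mem_Np.1 (mem_inter.1 hy').1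
    obtain ⟨C, c1, c2, c3, c4⟩ := walk (H := H) (j - i + 1)
      (fun t => if t = 0 ∨ t = j - i + 1 then y else z (i + t)) (by omega) (by
        intro t ht
        by_cases t0 : t = 0
        · subst t0
          rw [if_pos (Or.inl rfl), if_neg (by omega)]
          exact a1
        · rw [if_neg (by omega)]
          by_cases t1 : t = j - i
          · rw [if_pos (Or.inr (by omega)), show i + t = j by omega]
            exact a2
          · rw [if_neg (by omega)]
            exact mem_Np.1 (mem_filter.1 (h2 (i + t) (by omega))).1) (by simp)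
    have := hg C c1 c2 c3
    omega
  have hcard : I.card = ∑ i ∈ range m, (S i).card := by
    refine card_biUnion fun i hi j hj hne => ?_
    rcases lt_or_gt_of_ne hne with h | h
    · exact hdis i j h (mem_range.1 (mem_coe.1 hj))
    · exact (hdis j i h (mem_range.1 (mem_coe.1 hi))).symm
  have hE1 : eb H (I \ S (m - 1)) Iᶜ ≤ 7 * (m * (k * d)) := by
    have hsub : I \ S (m - 1) ⊆ (range (m - 1)).biUnion S := by
      intro y hy
      obtain ⟨i, hi1, hi2⟩ := mem_biUnion.1 (mem_sdiff.1 hy).1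
      have : i ≠ m - 1 := fun h => (mem_sdiff.1 hy).2 (h ▸ hi2)
      exact mem_biUnion.2 ⟨i, mem_range.2 (by have := mem_range.1 hi1; omega), hi2⟩
    refine (eb_cover H _ S hsub _).trans ?_
    calc _ ≤ ∑ _i ∈ range (m - 1), 7 * (k * d) := by
          refine sum_le_sum fun i hi' => ?_
          have hi2 : i + 1 < m := by have := mem_range.1 hi'; omega
          have e1 := eb_out hs hi (show S i ⊆ Nm H (z (i + 1)) from inter_subset_right) I
          have e2 := Nat.mul_le_mul_left k ((card_le_card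
            (sdiff_subset_sdiff (Subset.refl _) (hSI (i + 1) hi2))).trans (hA (i + 1) hi2))
          have e3 := Nat.mul_le_mul_left k ((card_le_card
            (sdiff_subset_sdiff (Subset.refl _) (hSI i (by omega)))).trans (hB i (by omega)))
          have e4 := (hbad (i + 1) hi2.le).2.1
          rw [mul_left_comm] at e2 e3
          omega
      _ = 7 * ((m - 1) * (k * d)) := by simp only [sum_const, card_range, smul_eq_mul]; ring
      _ ≤ _ := Nat.mul_le_mul_left _ (Nat.mul_le_mul_right _ (Nat.sub_le _ _))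
  have hE2 : eb H Iᶜ (I \ S 0) ≤ 7 * (m * (k * d)) := by
    have hsub : I \ S 0 ⊆ (range (m - 1)).biUnion fun i => S (i + 1) := by
      intro y hy
      obtain ⟨i, hi1, hi2⟩ := mem_biUnion.1 (mem_sdiff.1 hy).1
      have : i ≠ 0 := fun h => (mem_sdiff.1 hy).2 (h ▸ hi2)
      refine mem_biUnion.2 ⟨i - 1, mem_range.2 (by have := mem_range.1 hi1; omega), ?_⟩
      rw [show i - 1 + 1 = i by omega]
      exact hi2
    rw [← eb_tr]
    refine (eb_cover (tr H) _ _ hsub _).trans ?_
    calc _ ≤ ∑ _i ∈ range (m - 1), 7 * (k * d) := by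
          refine sum_le_sum fun i hi' => ?_
          have hi2 : i + 1 < m := by have := mem_range.1 hi'; omega
          have e1 : eb (tr H) (S (i + 1)) Iᶜ ≤ k + aa (tr H) (z (i + 1)) +
              k * (Nm H (z (i + 1)) \ I).card + k * (Np H (z (i + 1)) \ I).card :=
            eb_out (simple_tr hs) hk
              (show S (i + 1) ⊆ Nm (tr H) (z (i + 1)) from inter_subset_left) I
          have e2 := Nat.mul_le_mul_left k ((card_le_card
            (sdiff_subset_sdiff (Subset.refl _) (hSI (i + 1) hi2))).trans (hA (i + 1) hi2))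
          have e3 := Nat.mul_le_mul_left k ((card_le_card
            (sdiff_subset_sdiff (Subset.refl _) (hSI i (by omega)))).trans (hB i (by omega)))
          have e4 := (hbad (i + 1) hi2.le).2.2.1
          rw [mul_left_comm] at e2 e3
          omega
      _ = 7 * ((m - 1) * (k * d)) := by simp only [sum_const, card_range, smul_eq_mul]; ring
      _ ≤ _ := Nat.mul_le_mul_left _ (Nat.mul_le_mul_right _ (Nat.sub_le _ _))
  have hm1 : k * d ≤ m * (k * d) := Nat.le_mul_of_pos_left _ (by omega)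
  refine ⟨I, S (m - 1), S 0, hSI _ (by omega), hSI _ (by omega),
    (hdis 0 (m - 1) (by omega) (by omega)).symm, hSk _, hSk _, ?_, ?_, hE1, hE2, ?_, ?_⟩
  · rw [hcard]
    calc m * k = ∑ _i ∈ range m, k := by simp
      _ ≤ ∑ i ∈ range m, ((S i).card + 3 * d) := sum_le_sum fun i h => hSl i (mem_range.1 h)
      _ = _ := by simp only [sum_add_distrib, sum_const, card_range, smul_eq_mul]; ring
  · rw [hcard]
    calc _ ≤ ∑ _i ∈ range m, k := sum_le_sum fun i _ => hSk i
      _ = _ := by simp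
  · have e1 : eb H I Iᶜ = eb H (I \ S (m - 1)) Iᶜ + eb H (S (m - 1)) Iᶜ :=
      (sum_sdiff (hSI _ (by omega))).symm
    have e2 : eb H (S (m - 1)) Iᶜ ≤ eb H (S (m - 1)) (S (m - 1))ᶜ :=
      sum_le_sum fun y _ => sum_le_sum_of_subset (compl_subset_compl.2 (hSI _ (by omega)))
    have e3 := eb_self hk (show S (m - 1) ⊆ Np H (z (m - 1)) from inter_subset_left) (hSk _)
    have e4 := (hbad (m - 1) (by omega)).1
    omega
  · unfold dfc
    refine (sum_biUnion_le_sum' _ _ _).trans ?_
    calc _ ≤ ∑ _i ∈ range m, k * d := by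
          refine sum_le_sum fun i h => le_trans ?_ (hbad i (mem_range.1 h).le).2.2.2.2
          refine le_trans (sum_le_sum fun y hy => ?_) (sum_le_sum_of_subset (subset_univ (S i)))
          exact Nat.le_mul_of_pos_left _ (Nat.pos_of_ne_zero (mem_Np.1 (mem_inter.1 hy).1))
      _ = _ := by simp

lemma exists_good {H : Mat V} (hb : Bal H) {k d D m : ℕ} (hk : ∀ v, out H v ≤ k) (hd : 1 ≤ d)
    (hD : 1 ≤ D) (hkD : k ≤ 2 * (D * d)) {U : Finset V} (hU : U.Nonempty) {c : ℝ} (hc : 0 < c)
    (hcm : 213 * (D : ℝ) ^ 2 * (5 * D) ^ m * c = 1)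
    (h1 : (nco H U + nci H U : ℝ) ≤ c * k ^ 2 * U.card) (h2 : (dfc k H U : ℝ) ≤ c * k * U.card)
    (h3 : (eb H U Uᶜ : ℝ) ≤ c * k * U.card) :
    (Gd H d (U.filter fun z => 4 * bad H k z ≤ d ^ 2) m).Nonempty := by
  have hi : ∀ v, inn H v ≤ k := fun v => hb v ▸ hk v
  set G0 := U.filter fun z => 4 * bad H k z ≤ d ^ 2 with hG0
  have hN : (0 : ℝ) < U.card := by exact_mod_cast hU.card_pos
  have hd' : (1 : ℝ) ≤ d := by exact_mod_cast hd
  have hD' : (1 : ℝ) ≤ D := by exact_mod_cast hD
  have hk' : (k : ℝ) ≤ 2 * (D * d) := by exact_mod_cast hkD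
  have hk0 : (0 : ℝ) ≤ k := Nat.cast_nonneg _
  set a : ℝ := c * U.card with ha
  have ha0 : 0 < a := mul_pos hc hN
  have x0 : ((U \ G0).card : ℝ) ≤ 208 * D ^ 2 * a := by
    have e1 : d ^ 2 * (U \ G0).card ≤ 4 * ∑ z ∈ U, bad H k z := by
      calc _ = ∑ _z ∈ U \ G0, d ^ 2 := by simp [mul_comm]
        _ ≤ ∑ z ∈ U \ G0, 4 * bad H k z := sum_le_sum fun z hz => by
            by_contra hc
            exact (mem_sdiff.1 hz).2 (mem_filter.2 ⟨(mem_sdiff.1 hz).1, by omega⟩)
        _ ≤ ∑ z ∈ U, 4 * bad H k z := sum_le_sum_of_subset sdiff_subset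
        _ = _ := by rw [mul_sum]
    have e2 := e1.trans (Nat.mul_le_mul_left 4 (sum_bad hb hk U))
    have e3 : (d : ℝ) ^ 2 * (U \ G0).card ≤
        4 * (2 * (nco H U + nci H U) + 2 * (k * dfc k H U) + 9 * (k * eb H U Uᶜ)) := by
      exact_mod_cast e2
    have e4 := mul_le_mul_of_nonneg_left h2 hk0
    have e5 := mul_le_mul_of_nonneg_left h3 hk0
    have e6 : (d : ℝ) ^ 2 * (U \ G0).card ≤ 52 * (k ^ 2 * a) := by rw [ha]; linarith only [h1, e3, e4, e5]
    have e7 : (k : ℝ) ^ 2 * a ≤ (2 * (D * d)) ^ 2 * a :=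
      mul_le_mul_of_nonneg_right (pow_le_pow_left₀ hk0 hk' 2) ha0.le
    refine le_of_mul_le_mul_left ?_ (show (0 : ℝ) < d ^ 2 by positivity)
    linarith only [h1, e3, e4, e5, e7]
  have hDD : (D : ℝ) * a ≤ D ^ 2 * a := mul_le_mul_of_nonneg_right (by nlinarith only [hD']) ha0.le
  have key : ∀ i, ((U \ Gd H d G0 i).card : ℝ) ≤ 212 * D ^ 2 * a * (5 * D) ^ i := by
    intro i
    induction i with
    | zero =>
      have : (0 : ℝ) ≤ D ^ 2 * a := by positivity
      simp only [Gd, pow_zero]; linarith only [x0]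
    | succ i ih =>
      have e1 : (d : ℝ) * (U \ Gd H d G0 (i + 1)).card ≤
          d * (U \ G0).card + 2 * (eb H U Uᶜ + k * (U \ Gd H d G0 i).card) := by
        exact_mod_cast Gd_step hi G0 U i
      set x : ℝ := ((U \ Gd H d G0 i).card : ℝ) with hx
      have hx0 : 0 ≤ x := Nat.cast_nonneg _
      have e2 : (k : ℝ) * (a + x) ≤ 2 * (D * d) * (a + x) :=
        mul_le_mul_of_nonneg_right hk' (by positivity)
      have e3 : ((U \ Gd H d G0 (i + 1)).card : ℝ) ≤ (U \ G0).card + 4 * D * (a + x) := by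
        refine le_of_mul_le_mul_left ?_ (show (0 : ℝ) < d by positivity)
        have : c * k * U.card = k * a := by rw [ha]; ring
        linarith only [h3, e1, e2]
      have e4 : (1 : ℝ) ≤ D * (5 * D) ^ i :=
        one_le_mul_of_one_le_of_one_le hD' (one_le_pow₀ (by linarith only [hD']))
      have e5 := mul_le_mul_of_nonneg_left ih (show (0 : ℝ) ≤ 4 * D by positivity)
      have e6 := mul_le_mul_of_nonneg_left e4 (show (0 : ℝ) ≤ 212 * D ^ 2 * a by positivity)
      rw [pow_succ (5 * (D : ℝ)) i]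
      generalize (5 * (D : ℝ)) ^ i = y at e5 e6 ⊢
      linarith only [x0, hDD, e3, e5, e6]
  by_contra hne
  rw [not_nonempty_iff_eq_empty] at hne
  have e := key m
  rw [hne, sdiff_empty] at e
  have : 212 * (D : ℝ) ^ 2 * a * (5 * D) ^ m = 212 / 213 * U.card := by
    rw [ha]
    linear_combination (212 / 213 * U.card : ℝ) * hcm
  linarith only [hN, e, this]

end LR

open LR in
theorem lr (hf : FKS_s) : LR_s := by
  intro β m hβ hm
  obtain ⟨D, hD1, hD2⟩ : ∃ D : ℕ, m + 1 ≤ D ∧ 8 * (m : ℝ) ≤ β * D := by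
    refine ⟨⌈8 * m / β⌉₊ + m + 1, by omega, ?_⟩
    have h1 := Nat.le_ceil (8 * m / β)
    rw [div_le_iff₀ hβ] at h1
    have h2 : 0 ≤ β * (m + 1) := by positivity
    push_cast
    linarith
  have hD0 : (0 : ℝ) < D := by exact_mod_cast (show 0 < D by omega)
  refine ⟨1 / (213 * (D : ℝ) ^ 2 * (5 * D) ^ m), 60 * D, by positivity, D, ?_⟩
  intro k hk0 V _ _ H U hs hb hk hg hU h1 h2 h3
  obtain ⟨d, hd, hdk, hkD⟩ : ∃ d : ℕ, 1 ≤ d ∧ D * d ≤ k ∧ k ≤ 2 * (D * d) := by
    have e1 : 1 ≤ k / D := (Nat.le_div_iff_mul_le (by omega)).2 (by omega)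
    have e2 := Nat.div_add_mod k D
    have e3 := Nat.mod_lt k (show 0 < D by omega)
    have e4 := Nat.mul_le_mul_left D e1
    exact ⟨k / D, e1, by omega, by omega⟩
  have hd2 : 2 * d ≤ k := (Nat.mul_le_mul_right d (by omega : 2 ≤ D)).trans hdk
  have hk' : (k : ℝ) ≤ 2 * (D * d) := by exact_mod_cast hkD
  obtain ⟨u, hu⟩ := exists_good (m := m) hb hk hd (by omega) hkD hU (by positivity)
    (by field_simp) h1 h2 h3
  obtain ⟨z, -, z1, z2⟩ := chain (H := H) (d := d) (by
    intro v hv
    have hv' := (mem_filter.1 hv).2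
    unfold bad at hv'
    obtain ⟨ρ, hρ⟩ := hf V H (60 * D) (Np H v) (by positivity) hs hg
    have e1 : d ^ 2 ≤ k * d := by rw [sq]; exact Nat.mul_le_mul_right _ (by omega)
    have e2 : k - out H v ≤ d := Nat.le_of_mul_le_mul_left (by omega : k * _ ≤ k * d) (by omega)
    have e3 : 4 * back (res H (Np H v)) ρ ≤ d ^ 2 := by
      have f1 : ((Np H v).card : ℝ) ≤ 2 * (D * d) := by
        rw [card_Np hs]
        exact le_trans (by exact_mod_cast hk v) hk'
      have f2 := pow_le_pow_left₀ (Nat.cast_nonneg _) f1 2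
      rw [le_div_iff₀ (by positivity)] at hρ
      have f3 : (4 * back (res H (Np H v)) ρ : ℝ) ≤ d ^ 2 := by
        refine le_of_mul_le_mul_right ?_ (show (0 : ℝ) < D ^ 2 by positivity)
        have : (0 : ℝ) ≤ (D * d) ^ 2 := by positivity
        linarith only [hρ, f2, this]
      exact_mod_cast f3
    exact top_card hs ρ (by omega) hd (by omega)) m u hu
  obtain ⟨I, T, Hd, a1, a2, a3, a4, a5, a6, a7, a8, a9, a10, a11⟩ :=
    build hs hb hk hm hd (by omega) (fun C c1 c2 c3 => by
      have e := hg C c1 c2 c3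
      have e' : 60 * D < size C := by exact_mod_cast e
      omega) z (fun j hj => (mem_filter.1 (z1 j hj)).2) z2
  have hkr : (0 : ℝ) ≤ k := Nat.cast_nonneg _
  have b1 : 8 * ((m : ℝ) * d) ≤ β * k := by
    have e1 : ((D : ℝ) * d) ≤ k := by exact_mod_cast hdk
    have e2 := mul_le_mul_of_nonneg_left e1 hβ.le
    have e3 := mul_le_mul_of_nonneg_right hD2 (Nat.cast_nonneg (α := ℝ) d)
    linarith only [e2, e3]
  have b2 : 8 * ((m : ℝ) * (k * d)) ≤ β * k ^ 2 := by
    have := mul_le_mul_of_nonneg_left b1 hkr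
    linarith only [this]
  have b3 : (0 : ℝ) ≤ m * (k * d) := by positivity
  refine ⟨I, T, Hd, a1, a2, a3, a4, a5, ?_, a7, ?_, ?_, ?_, ?_⟩
  · have e1 : (m : ℝ) * k ≤ I.card + 3 * (m * d) := by exact_mod_cast a6
    have e2 : (1 : ℝ) ≤ m := by exact_mod_cast (show 1 ≤ m by omega)
    have e3 := mul_le_mul_of_nonneg_right e2 (show 0 ≤ β * k by positivity)
    have e4 : (0 : ℝ) ≤ m * d := by positivity
    linarith only [b1, e1, e3, e4]
  · have e1 : (eb H (I \ T) Iᶜ : ℝ) ≤ 7 * (m * (k * d)) := by exact_mod_cast a8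
    linarith only [b2, b3, e1]
  · have e1 : (eb H Iᶜ (I \ Hd) : ℝ) ≤ 7 * (m * (k * d)) := by exact_mod_cast a9
    linarith only [b2, b3, e1]
  · have e1 : (2 * eb H I Iᶜ : ℝ) ≤ k * (k + 1) + 15 * (m * (k * d)) := by exact_mod_cast a10
    unfold CC
    linarith only [b2, b3, e1]
  · have e1 : (dfc k H I : ℝ) ≤ m * (k * d) := by exact_mod_cast a11
    linarith only [b2, b3, e1]

end Pool.Agent.MP_2634a8_co.X
end

section
namespace Pool.Agent.MP_2634a8_co.X

open Finset

namespace PREP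

variable {n : ℕ} [NeZero n]

lemma lam_lt (a v : ZMod n) : lam a v < n := ZMod.val_lt _

lemma add_lam (a v : ZMod n) : a + (lam a v : ZMod n) = v := by simp [lam]

omit [NeZero n] in
lemma lam_eq {x y : ZMod n} {j : ℕ} (hj : j < n) (h : x + (j : ZMod n) = y) : lam x y = j := by
  subst h
  simp [lam, ZMod.val_natCast, Nat.mod_eq_of_lt hj]

omit [NeZero n] in
lemma lam_self (a : ZMod n) : lam a a = 0 := by simp [lam]

lemma eq_of_lam {a v : ZMod n} (h : lam a v = 0) : v = a := by
  have := add_lam a v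
  rw [h] at this
  simpa using this.symm

lemma lam_tri (a u v : ZMod n) :
    lam a v = lam a u + lam u v ∨ lam a v + n = lam a u + lam u v := by
  have h : v - a = (u - a) + (v - u) := by ring
  have h1 := lam_lt a u
  have h2 := lam_lt u v
  have h3 : lam a v = (lam a u + lam u v) % n := by
    unfold lam; rw [h, ZMod.val_add]
  by_cases h4 : lam a u + lam u v < n
  · left; rw [h3, Nat.mod_eq_of_lt h4]
  · right
    rw [h3, Nat.mod_eq_sub_mod (by omega), Nat.mod_eq_of_lt (by omega)]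
    omega

lemma lam_succ (t : ZMod n) : lam (t + 1) t + 1 = n := by
  have h := NeZero.pos n
  have : lam (t + 1) t = n - 1 := by
    apply lam_eq (by omega)
    rw [Nat.cast_sub (by omega)]
    simp
  omega

lemma mem_win {a v : ZMod n} {m : ℕ} : v ∈ win a m ↔ lam a v < m := by simp [win]

lemma sum_win (a : ZMod n) {m : ℕ} (hm : m ≤ n) (f : ℕ → ℕ) :
    ∑ v ∈ win a m, f (lam a v) = ∑ i ∈ range m, f i := by
  refine sum_bij' (fun v _ => lam a v) (fun i _ => a + (i : ZMod n)) ?_ ?_ ?_ ?_ ?_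
  · intro v hv; exact mem_range.2 (mem_win.1 hv)
  · intro i hi
    have := mem_range.1 hi
    rw [mem_win, lam_eq (j := i) (by omega) rfl]; exact this
  · intro v _; exact add_lam a v
  · intro i hi
    have := mem_range.1 hi
    exact lam_eq (by omega) rfl
  · intro v _; rfl

lemma sum_ite_lt (a : ZMod n) {m : ℕ} (hm : m ≤ n) :
    ∑ v, (if lam a v < m then 1 else 0) = m := by
  have := sum_win a hm (fun _ => 1)
  rw [win, sum_filter] at this
  simpa using this

lemma sum_ite_lt' (v : ZMod n) {m : ℕ} (hm : m ≤ n) :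
    ∑ u, (if lam u v < m then 1 else 0) = m := by
  refine Eq.trans ?_ (sum_ite_lt v hm)
  refine sum_bij' (fun u _ => 2 * v - u) (fun u _ => 2 * v - u) (by simp) (by simp) (by simp)
    (by simp) ?_
  intro u _
  have : lam v (2 * v - u) = lam u v := by
    unfold lam; congr 1; ring
  rw [this]

lemma gauss (k : ℕ) : 2 * ∑ i ∈ range k, (i + 1) = k * (k + 1) := by
  induction k with
  | zero => simp
  | succ k ih => rw [sum_range_succ, mul_add, ih]; ring

/-- for a balanced matrix every cut is crossed equally often -/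
lemma cross_eq {M : Mat (ZMod n)} (hb : Bal M) (t : ZMod n) : n * cross M t = Lam M := by
  have h1 : ∀ u v : ZMod n, n * (M u v * crs t u v) + M u v * lam (t + 1) v =
      M u v * lam (t + 1) u + M u v * lam u v := by
    intro u v
    have h2 := lam_tri (t + 1) u v
    have h3 := lam_tri (t + 1) u t
    have h4 := lam_succ t
    have h5 := lam_lt u t
    have h6 := lam_lt (t + 1) u
    have h7 := lam_lt (t + 1) v
    have h8 : n * crs t u v + lam (t + 1) v = lam (t + 1) u + lam u v := by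
      unfold crs; split_ifs <;> omega
    rw [← mul_add, ← h8]; ring
  have h2 : ∑ u, ∑ v, M u v * lam (t + 1) v = ∑ u, ∑ v, M u v * lam (t + 1) u := by
    rw [sum_comm]
    refine sum_congr rfl fun v _ => ?_
    rw [← sum_mul, ← sum_mul]
    congr 1
    exact (hb v).symm
  have h3 : ∑ u, ∑ v, (n * (M u v * crs t u v) + M u v * lam (t + 1) v) =
      ∑ u, ∑ v, (M u v * lam (t + 1) u + M u v * lam u v) :=
    sum_congr rfl fun u _ => sum_congr rfl fun v _ => h1 u v
  simp only [sum_add_distrib, ← mul_sum] at h3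
  unfold cross Lam wsum
  simp only [mul_sum] at h2 h3 ⊢
  omega

/-- arcs crossing the cut after `t` whose head is not among the next `k` vertices -/
def farm (k : ℕ) (G : Mat (ZMod n)) (t : ZMod n) : ℕ :=
  wsum G fun u v => if k ≤ lam (t + 1) v ∧ lam u t < lam u v then 1 else 0

def H (sm : Bool) (k : ℕ) (G : Mat (ZMod n)) (b u w : ZMod n) : ℕ :=
  if lam b u < lam b w ∧ lam b w < k ∧ nc sm u w ∧ G u w = 0 then 1 else 0

lemma mis_eq (sm : Bool) (k : ℕ) (G : Mat (ZMod n)) (b : ZMod n) :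
    mis sm k G b = ∑ u, ∑ w, H sm k G b u w := by
  unfold mis win H
  rw [sum_filter]
  refine sum_congr rfl fun u _ => ?_
  split_ifs with h
  · rw [sum_filter]
    refine sum_congr rfl fun w _ => ?_
    by_cases h1 : lam b w < k <;> simp [h1]
  · symm
    refine sum_eq_zero fun w _ => if_neg ?_
    rintro ⟨h1, h2, -⟩
    omega

omit [NeZero n] in
lemma nc_false (u v : ZMod n) : nc false u v := by simp [nc]

/-- cut identity, tails: `a` is the first of the last `k` vertices before the cut after `t` -/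
theorem cut_id {k : ℕ} {M : Mat (ZMod n)} (hk : 1 ≤ k) (hn : k ≤ n) (hs : Simple M)
    (hd : ∀ v, out M v ≤ k) (a t : ZMod n) (ht : t + 1 = a + (k : ZMod n)) :
    2 * (cross M t + dfc k M (win a k)) = k * (k + 1) + 2 * (mis false k M a + far k M t) := by
  have hat : lam a t = k - 1 := by
    apply lam_eq (by omega)
    rw [Nat.cast_sub hk]
    linear_combination -ht
  have key : ∀ u, (∑ v, M u v * crs t u v) + (if lam a u < k then k - out M u else 0) =
      (if lam a u < k then lam a u + 1 else 0) + ((∑ w, H false k M a u w) +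
        ∑ v, M u v * (if k ≤ lam u t ∧ lam u t < lam u v then 1 else 0)) := by
    intro u
    have h1 := lam_tri a u t
    have h2 := lam_lt a u
    have h3 := lam_lt u t
    by_cases hu : lam a u < k
    · rw [if_pos hu, if_pos hu]
      have h4 : ∀ v, M u v * crs t u v + (if lam u v < lam u t + 1 then 1 else 0) =
          M u v + (if lam u v < 1 then 1 else 0) + (H false k M a u v +
          M u v * (if k ≤ lam u t ∧ lam u t < lam u v then 1 else 0)) := by
        intro v
        have h5 := lam_tri a u v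
        have h6 := lam_lt a v
        have h7 := lam_lt u v
        have h8 := hs.1 u v
        have h9 : lam u v = 0 → M u v = 0 := fun h => by rw [eq_of_lam h]; exact hs.2 u
        unfold crs H
        simp only [nc_false, true_and]
        split_ifs <;> omega
      have h5 := sum_congr (rfl : (univ : Finset (ZMod n)) = univ) fun v _ => h4 v
      simp only [sum_add_distrib] at h5
      rw [sum_ite_lt u (by omega), sum_ite_lt u (by omega)] at h5
      have h6 := hd u
      unfold out at h6 ⊢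
      omega
    · rw [if_neg hu, if_neg hu, add_zero, zero_add, ← sum_add_distrib]
      refine sum_congr rfl fun v _ => ?_
      unfold crs H
      split_ifs <;> omega
  have h5 := sum_congr (rfl : (univ : Finset (ZMod n)) = univ) fun u _ => key u
  simp only [sum_add_distrib] at h5
  have h6 := sum_win a hn (fun i => i + 1)
  rw [win, sum_filter] at h6
  have h7 := gauss k
  rw [mis_eq]
  simp only [cross, far, wsum, dfc, win]
  rw [sum_filter]
  omega

/-- cut identity, heads -/
theorem cut_id' {k : ℕ} {M : Mat (ZMod n)} (hn : k ≤ n) (hs : Simple M) (hb : Bal M)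
    (hd : ∀ v, out M v ≤ k) (t : ZMod n) :
    2 * (cross M t + dfc k M (win (t + 1) k)) =
      k * (k + 1) + 2 * (mis false k M (t + 1) + farm k M t) := by
  have hat := lam_succ t
  have key : ∀ v, (∑ u, M u v * crs t u v) + (if lam (t + 1) v < k then k - out M v else 0) =
      (if lam (t + 1) v < k then k - lam (t + 1) v else 0) + ((∑ u, H false k M (t + 1) u v) +
        ∑ u, M u v * (if k ≤ lam (t + 1) v ∧ lam u t < lam u v then 1 else 0)) := by
    intro v
    have h2 := lam_lt (t + 1) v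
    by_cases hv : lam (t + 1) v < k
    · rw [if_pos hv, if_pos hv]
      have h4 : ∀ u, M u v * crs t u v + (if lam u v < lam (t + 1) v + 1 then 1 else 0) =
          M u v + (if lam u v < 1 then 1 else 0) + (H false k M (t + 1) u v +
          M u v * (if k ≤ lam (t + 1) v ∧ lam u t < lam u v then 1 else 0)) := by
        intro u
        have h1 := lam_tri (t + 1) u t
        have h3 := lam_lt u t
        have h5 := lam_tri (t + 1) u v
        have h6 := lam_lt (t + 1) u
        have h7 := lam_lt u v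
        have h8 := hs.1 u v
        have h9 : lam u v = 0 → M u v = 0 := fun h => by rw [eq_of_lam h]; exact hs.2 u
        unfold crs H
        simp only [nc_false, true_and]
        split_ifs <;> omega
      have h5 := sum_congr (rfl : (univ : Finset (ZMod n)) = univ) fun u _ => h4 u
      simp only [sum_add_distrib] at h5
      rw [sum_ite_lt' v (by omega), sum_ite_lt' v (by omega)] at h5
      have h6 := hd v
      rw [hb v] at h6 ⊢
      unfold inn at h6 ⊢
      omega
    · rw [if_neg hv, if_neg hv, add_zero, zero_add, ← sum_add_distrib]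
      refine sum_congr rfl fun u _ => ?_
      unfold crs H
      split_ifs <;> omega
  have h5 := sum_congr (rfl : (univ : Finset (ZMod n)) = univ) fun v _ => key v
  simp only [sum_add_distrib] at h5
  have h6 := sum_win (t + 1) hn (fun i => k - i)
  rw [win, sum_filter] at h6
  have h7 := gauss k
  have h8 : ∑ i ∈ range k, (k - i) = ∑ i ∈ range k, (i + 1) := by
    rw [← sum_range_reflect]
    refine sum_congr rfl fun i hi => ?_
    have := mem_range.1 hi
    omega
  rw [mis_eq, sum_comm]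
  unfold cross farm wsum dfc win
  rw [sum_filter, sum_comm, sum_comm (f := fun u v => M u v *
    (if k ≤ lam (t + 1) v ∧ lam u t < lam u v then 1 else 0))]
  omega

/-- ballot inequality -/
theorem ballot {M : Mat (ZMod n)} {v : ZMod n} {j : ℕ} (hj : j < n) (h : OptAt M v (j + 1)) :
    ∑ y ∈ win (v + 1) j, M y v ≤ ∑ x ∈ win (v + 1) j, M v x := by
  set r := res M (win v (j + 1)) with hr
  have h1 := h fun x => if x = v then n else lam v x
  have h2 : ∀ u w, (if lam v w ≤ lam v u then r u w else 0) + (if u = v then r u w else 0) =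
      (if (if w = v then n else lam v w) ≤ (if u = v then n else lam v u) then r u w else 0) +
        (if w = v then r u w else 0) := by
    intro u w
    have h3 := lam_lt v u
    have h4 := lam_lt v w
    have h5 : lam v w = 0 → w = v := eq_of_lam
    by_cases hu : u = v <;> by_cases hw : w = v
    · simp [hu, hw]
    · have h6 := lam_self v
      have h7 : lam v w ≠ 0 := fun h0 => hw (h5 h0)
      rw [if_pos hu, if_neg hw, if_neg hw, if_pos hu, hu, if_neg (by omega), if_pos (by omega)]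
      simp
    · have := lam_self v
      rw [if_neg hu, if_pos hw, if_pos hw, if_neg hu, hw, if_pos (by omega), if_neg (by omega)]
      simp
    · simp [hu, hw]
  have h3 := sum_congr (rfl : (univ : Finset (ZMod n)) = univ) fun u _ =>
    sum_congr (rfl : (univ : Finset (ZMod n)) = univ) fun w _ => h2 u w
  simp only [sum_add_distrib] at h3
  have h4 : ∑ u, ∑ w, (if u = v then r u w else 0) = ∑ w, r v w := by
    rw [sum_comm]; simp
  have h5 : ∑ u, ∑ w, (if w = v then r u w else 0) = ∑ u, r u v := by simp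
  rw [h4, h5] at h3
  simp only [back, ← hr] at h1
  have h6 : ∑ u, r u v ≤ ∑ w, r v w := by omega
  have hv : v ∈ win v (j + 1) := by rw [mem_win, lam_self]; omega
  have hw : win v (j + 1) = insert v (win (v + 1) j) := by
    ext x
    rw [mem_insert, mem_win, mem_win]
    have h7 := lam_tri (v + 1) v x
    have h8 := lam_succ v
    have h9 := lam_lt (v + 1) x
    have h10 := lam_lt v x
    constructor
    · intro hx
      by_cases h0 : lam v x = 0
      · left; exact eq_of_lam h0
      · right; omega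
    · rintro (hx | hx)
      · rw [hx, lam_self]; omega
      · omega
  have hv' : v ∉ win (v + 1) j := by
    rw [mem_win]; have := lam_succ v; omega
  have h7 : ∑ u, r u v = ∑ u ∈ win v (j + 1), M u v := by
    simp only [hr, res, hv, and_true]
    rw [← sum_filter]; simp
  have h8 : ∑ w, r v w = ∑ w ∈ win v (j + 1), M v w := by
    simp only [hr, res, hv, true_and]
    rw [← sum_filter]; simp
  rw [h7, h8, hw, sum_insert hv', sum_insert hv'] at h6
  omega

lemma count_le (f : ℕ → ℕ) (N lo c : ℕ) (hN : lo + c ≤ N)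
    (h : ∀ i, lo ≤ i → i < lo + c → 1 ≤ f i) : c ≤ ∑ i ∈ range N, f i := by
  calc c = ∑ _i ∈ Ico lo (lo + c), 1 := by simp only [sum_const, Nat.card_Ico, add_tsub_cancel_left, smul_eq_mul, mul_one]
    _ ≤ ∑ i ∈ Ico lo (lo + c), f i :=
      sum_le_sum fun i hi => h i (mem_Ico.1 hi).1 (mem_Ico.1 hi).2
    _ ≤ _ := sum_le_sum_of_subset fun i hi => mem_range.2 (by have := mem_Ico.1 hi; omega)

lemma sum_off {k : ℕ} (hk : k < n) (v : ZMod n) (h : ZMod n → ℕ) :
    ∑ d ∈ (Icc 1 k : Finset ℕ), h (v + (d : ZMod n)) ≤ ∑ w, h w := by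
  rw [← sum_image (s := (Icc 1 k : Finset ℕ)) (g := fun d : ℕ => v + (d : ZMod n)) (f := h)]
  · exact sum_le_sum_of_subset (subset_univ _)
  · intro d hd e he hde
    have h1 := (mem_Icc.1 hd).2
    have h2 := (mem_Icc.1 he).2
    have h3 : lam v (v + (d : ZMod n)) = d := lam_eq (by omega) rfl
    have h4 : lam v (v + (d : ZMod n)) = e := lam_eq (by omega) (Eq.symm hde)
    omega

lemma sum_off' {k : ℕ} (hk : k < n) (v : ZMod n) (h : ZMod n → ℕ) :
    ∑ d ∈ (Icc 1 k : Finset ℕ), h (v - (d : ZMod n)) ≤ ∑ w, h w := by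
  rw [← sum_image (s := (Icc 1 k : Finset ℕ)) (g := fun d : ℕ => v - (d : ZMod n)) (f := h)]
  · exact sum_le_sum_of_subset (subset_univ _)
  · intro d hd e he hde
    have h1 := (mem_Icc.1 hd).2
    have h2 := (mem_Icc.1 he).2
    have h3 : lam (v - (d : ZMod n)) v = d := lam_eq (by omega) (by ring)
    have h4 : lam (v - (d : ZMod n)) v = e :=
      lam_eq (by omega) (by have : v - (d : ZMod n) = v - (e : ZMod n) := hde; rw [this]; ring)
    omega

variable {k : ℕ}

lemma part1 (hn : 2 * k + 1 ≤ n) (sm : Bool) (G : Mat (ZMod n)) (a : ZMod n) :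
    ∑ v ∈ win a k, ∑ d ∈ (Icc 1 k : Finset ℕ),
      (if nc sm v (v + (d : ZMod n)) ∧ G v (v + (d : ZMod n)) = 0 then k - d else 0) ≤
      ∑ i ∈ range (2 * k), mis sm k G (a - k + i) := by
  have h1 : ∀ v ∈ win a k, ∀ d ∈ (Icc 1 k : Finset ℕ),
      (if nc sm v (v + (d : ZMod n)) ∧ G v (v + (d : ZMod n)) = 0 then k - d else 0) ≤
      ∑ i ∈ range (2 * k), H sm k G (a - k + i) v (v + (d : ZMod n)) := by
    intro v hv d hd
    have h2 := mem_win.1 hv
    obtain ⟨h3, h4⟩ := mem_Icc.1 hd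
    split_ifs with h
    · refine count_le _ _ (lam a v + d + 1) _ (by omega) fun i h5 h6 => ?_
      have h7 := add_lam a v
      have h8 : lam (a - (k : ZMod n) + (i : ZMod n)) v = k + lam a v - i := by
        apply lam_eq (by omega)
        rw [Nat.cast_sub (by omega)]; push_cast; linear_combination h7
      have h9 : lam (a - (k : ZMod n) + (i : ZMod n)) (v + (d : ZMod n)) =
          k + lam a v + d - i := by
        apply lam_eq (by omega)
        rw [Nat.cast_sub (by omega)]; push_cast; linear_combination h7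
      unfold H
      rw [if_pos ⟨by omega, by omega, h⟩]
    · exact Nat.zero_le _
  calc _ ≤ ∑ v ∈ win a k, ∑ d ∈ (Icc 1 k : Finset ℕ),
        ∑ i ∈ range (2 * k), H sm k G (a - k + i) v (v + (d : ZMod n)) :=
      sum_le_sum fun v hv => sum_le_sum fun d hd => h1 v hv d hd
    _ ≤ ∑ v ∈ win a k, ∑ w, ∑ i ∈ range (2 * k), H sm k G (a - k + i) v w :=
      sum_le_sum fun v _ => sum_off (by omega) v fun w =>
        ∑ i ∈ range (2 * k), H sm k G (a - k + i) v w
    _ ≤ ∑ v, ∑ w, ∑ i ∈ range (2 * k), H sm k G (a - k + i) v w :=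
      sum_le_sum_of_subset (subset_univ _)
    _ = _ := by
      simp only [mis_eq]
      rw [sum_comm (s := range (2 * k))]
      exact sum_congr rfl fun v _ => sum_comm

lemma part2 (hn : 2 * k + 1 ≤ n) (sm : Bool) (G : Mat (ZMod n)) (a : ZMod n) :
    ∑ v ∈ win a k, ∑ d ∈ (Icc 1 k : Finset ℕ),
      (if nc sm (v - (d : ZMod n)) v ∧ G (v - (d : ZMod n)) v = 0 then k - d else 0) ≤
      ∑ i ∈ range (2 * k), mis sm k G (a - k + i) := by
  have h1 : ∀ v ∈ win a k, ∀ d ∈ (Icc 1 k : Finset ℕ),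
      (if nc sm (v - (d : ZMod n)) v ∧ G (v - (d : ZMod n)) v = 0 then k - d else 0) ≤
      ∑ i ∈ range (2 * k), H sm k G (a - k + i) (v - (d : ZMod n)) v := by
    intro v hv d hd
    have h2 := mem_win.1 hv
    obtain ⟨h3, h4⟩ := mem_Icc.1 hd
    split_ifs with h
    · refine count_le _ _ (lam a v + 1) _ (by omega) fun i h5 h6 => ?_
      have h7 := add_lam a v
      have h8 : lam (a - (k : ZMod n) + (i : ZMod n)) v = k + lam a v - i := by
        apply lam_eq (by omega)
        rw [Nat.cast_sub (by omega)]; push_cast; linear_combination h7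
      have h9 : lam (a - (k : ZMod n) + (i : ZMod n)) (v - (d : ZMod n)) =
          k + lam a v - (i + d) := by
        apply lam_eq (by omega)
        rw [Nat.cast_sub (by omega)]; push_cast; linear_combination h7
      unfold H
      rw [if_pos ⟨by omega, by omega, h⟩]
    · exact Nat.zero_le _
  calc _ ≤ ∑ v ∈ win a k, ∑ d ∈ (Icc 1 k : Finset ℕ),
        ∑ i ∈ range (2 * k), H sm k G (a - k + i) (v - (d : ZMod n)) v :=
      sum_le_sum fun v hv => sum_le_sum fun d hd => h1 v hv d hd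
    _ ≤ ∑ v ∈ win a k, ∑ w, ∑ i ∈ range (2 * k), H sm k G (a - k + i) w v :=
      sum_le_sum fun v _ => sum_off' (by omega) v fun w =>
        ∑ i ∈ range (2 * k), H sm k G (a - k + i) w v
    _ ≤ ∑ v, ∑ w, ∑ i ∈ range (2 * k), H sm k G (a - k + i) w v :=
      sum_le_sum_of_subset (subset_univ _)
    _ = _ := by
      simp only [mis_eq]
      rw [sum_comm, sum_comm (s := range (2 * k))]
      exact sum_congr rfl fun v _ => sum_comm

lemma part3 (hn : 2 * k + 1 ≤ n) (G : Mat (ZMod n)) (a : ZMod n) :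
    ∑ v ∈ win a k, ∑ x, G v x * min (lam v x - k) k ≤
      ∑ i ∈ range (2 * k), far k G (a + k + i) := by
  have h1 : ∀ v ∈ win a k, ∀ x, min (lam v x - k) k ≤ ∑ i ∈ range (2 * k),
      (if k ≤ lam v (a + k + i) ∧ lam v (a + k + i) < lam v x then 1 else 0) := by
    intro v hv x
    have h2 := mem_win.1 hv
    refine count_le _ _ (lam a v) _ (by omega) fun i h5 h6 => ?_
    have h7 := add_lam a v
    have h8 : lam v (a + k + i) = k + i - lam a v := by
      apply lam_eq (by omega)
      rw [Nat.cast_sub (by omega)]; push_cast; linear_combination -h7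
    rw [if_pos ⟨by omega, by omega⟩]
  calc _ ≤ ∑ v ∈ win a k, ∑ x, G v x * ∑ i ∈ range (2 * k),
        (if k ≤ lam v (a + k + i) ∧ lam v (a + k + i) < lam v x then 1 else 0) :=
      sum_le_sum fun v hv => sum_le_sum fun x _ => Nat.mul_le_mul_left _ (h1 v hv x)
    _ ≤ ∑ v, ∑ x, G v x * ∑ i ∈ range (2 * k),
        (if k ≤ lam v (a + k + i) ∧ lam v (a + k + i) < lam v x then 1 else 0) :=
      sum_le_sum_of_subset (subset_univ _)
    _ = _ := by
      simp only [far, wsum, mul_sum]
      rw [sum_comm (s := range (2 * k))]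
      exact sum_congr rfl fun v _ => sum_comm

lemma part4 (hn : 2 * k + 1 ≤ n) (G : Mat (ZMod n)) (a : ZMod n) :
    ∑ v ∈ win a k, ∑ x, G x v * min (lam x v - k) k ≤
      ∑ i ∈ range (2 * k), farm k G (a - 2 * k + i) := by
  have h1 : ∀ v ∈ win a k, ∀ x, min (lam x v - k) k ≤ ∑ i ∈ range (2 * k),
      (if k ≤ lam (a - 2 * (k : ZMod n) + (i : ZMod n) + 1) v ∧
          lam x (a - 2 * (k : ZMod n) + (i : ZMod n)) < lam x v then 1 else 0) := by
    intro v hv x
    have h2 := mem_win.1 hv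
    refine count_le _ _ (k + lam a v - min (lam x v - k) k) _ (by omega) fun i h5 h6 => ?_
    have h7 := add_lam a v
    have h8 : lam (a - 2 * (k : ZMod n) + (i : ZMod n)) v = 2 * k + lam a v - i := by
      apply lam_eq (by omega)
      rw [Nat.cast_sub (by omega)]; push_cast; linear_combination h7
    have h9 : lam (a - 2 * (k : ZMod n) + (i : ZMod n) + 1) v = 2 * k + lam a v - (i + 1) := by
      apply lam_eq (by omega)
      rw [Nat.cast_sub (by omega)]; push_cast; linear_combination h7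
    have h10 := lam_tri x (a - 2 * k + i) v
    have h11 := lam_lt x (a - 2 * k + i)
    rw [if_pos ⟨by omega, by omega⟩]
  calc _ ≤ ∑ v ∈ win a k, ∑ x, G x v * ∑ i ∈ range (2 * k),
        (if k ≤ lam (a - 2 * (k : ZMod n) + (i : ZMod n) + 1) v ∧
          lam x (a - 2 * (k : ZMod n) + (i : ZMod n)) < lam x v then 1 else 0) :=
      sum_le_sum fun v hv => sum_le_sum fun x _ => Nat.mul_le_mul_left _ (h1 v hv x)
    _ ≤ ∑ v, ∑ x, G x v * ∑ i ∈ range (2 * k),
        (if k ≤ lam (a - 2 * (k : ZMod n) + (i : ZMod n) + 1) v ∧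
          lam x (a - 2 * (k : ZMod n) + (i : ZMod n)) < lam x v then 1 else 0) :=
      sum_le_sum_of_subset (subset_univ _)
    _ = _ := by
      simp only [farm, wsum, mul_sum]
      rw [sum_comm, sum_comm (s := range (2 * k))]
      exact sum_congr rfl fun v _ => sum_comm

/-- the weight of a window is bounded by the defects of nearby cuts (any matrix, any `sm`) -/
theorem wt_sum (hn : 2 * k + 1 ≤ n) (sm : Bool) (G : Mat (ZMod n)) (a : ZMod n) :
    ∑ v ∈ win a k, wt sm k G v ≤ ∑ i ∈ range (2 * k),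
      (2 * mis sm k G (a - k + i) + far k G (a + k + i) + farm k G (a - 2 * k + i)) := by
  have h1 := part1 hn sm G a
  have h2 := part2 hn sm G a
  have h3 := part3 hn G a
  have h4 := part4 hn G a
  unfold wt
  simp only [sum_add_distrib, ← mul_sum]
  omega

variable {M : Mat (ZMod n)} {ε : ℝ}

lemma cross_le (hb : Bal M) (hL : (Lam M : ℝ) ≤ n * (CC k + ε * k ^ 2)) (t : ZMod n) :
    (cross M t : ℝ) ≤ CC k + ε * k ^ 2 := by
  have h1 : (n : ℝ) * cross M t = Lam M := by exact_mod_cast cross_eq hb t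
  have h2 : (0 : ℝ) < n := by exact_mod_cast NeZero.pos n
  exact le_of_mul_le_mul_left (h1 ▸ hL) h2

/-- local bound at a good cut, tails: window `win a k`, cut after `a + k - 1` -/
theorem loc_out (hk : 1 ≤ k) (hn : k ≤ n) (hs : Simple M) (hb : Bal M) (hd : ∀ v, out M v ≤ k)
    (hL : (Lam M : ℝ) ≤ n * (CC k + ε * k ^ 2)) (a t : ZMod n) (ht : t + 1 = a + (k : ZMod n))
    (ha : (dfc k M (win a k) : ℝ) ≤ ε * k ^ 2) :
    (mis false k M a : ℝ) + far k M t ≤ 2 * ε * k ^ 2 := by
  have h1 : (2 : ℝ) * (cross M t + dfc k M (win a k)) =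
      k * (k + 1) + 2 * (mis false k M a + far k M t) := by
    exact_mod_cast cut_id hk hn hs hd a t ht
  have h2 := cross_le hb hL t
  unfold CC at h2
  linarith only [ha, h1, h2]

/-- local bound at a good cut, heads: window `win (t + 1) k`, cut after `t` -/
theorem loc_in (hn : k ≤ n) (hs : Simple M) (hb : Bal M) (hd : ∀ v, out M v ≤ k)
    (hL : (Lam M : ℝ) ≤ n * (CC k + ε * k ^ 2)) (t : ZMod n)
    (ha : (dfc k M (win (t + 1) k) : ℝ) ≤ ε * k ^ 2) :
    (mis false k M (t + 1) : ℝ) + farm k M t ≤ 2 * ε * k ^ 2 := by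
  have h1 : (2 : ℝ) * (cross M t + dfc k M (win (t + 1) k)) =
      k * (k + 1) + 2 * (mis false k M (t + 1) + farm k M t) := by
    exact_mod_cast cut_id' hn hs hb hd t
  have h2 := cross_le hb hL t
  unfold CC at h2
  linarith only [ha, h1, h2]

/-- local bound for the weight of a window: only the windows starting in `(a - 2k, a + 2k]`
have to be good -/
theorem loc_wt (hk : 1 ≤ k) (hn : 2 * k + 1 ≤ n) (hs : Simple M) (hb : Bal M)
    (hd : ∀ v, out M v ≤ k) (hL : (Lam M : ℝ) ≤ n * (CC k + ε * k ^ 2)) (a : ZMod n)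
    (ha : ∀ i : ℕ, i ≤ 4 * k → (dfc k M (win (a - 2 * k + i) k) : ℝ) ≤ ε * k ^ 2) :
    (∑ v ∈ win a k, (wt false k M v : ℝ)) ≤ 16 * ε * k ^ 3 := by
  have h1 : (∑ v ∈ win a k, (wt false k M v : ℝ)) ≤ ∑ i ∈ range (2 * k),
      (2 * (mis false k M (a - k + i) : ℝ) + far k M (a + k + i) + farm k M (a - 2 * k + i)) := by
    exact_mod_cast wt_sum hn false M a
  have h2 : ∀ i ∈ range (2 * k), 2 * (mis false k M (a - k + i) : ℝ) + far k M (a + k + i) +
      farm k M (a - 2 * k + i) ≤ 8 * ε * k ^ 2 := by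
    intro i hi
    have hi' := mem_range.1 hi
    have h3 := loc_out hk (by omega) hs hb hd hL (a - k + i) (a + i - 1) (by ring) (by
      have := ha (k + i) (by omega)
      rwa [show a - 2 * (k : ZMod n) + ((k + i : ℕ) : ZMod n) = a - k + i by push_cast; ring]
        at this)
    have h4 := loc_out hk (by omega) hs hb hd hL (a + i + 1) (a + k + i) (by ring) (by
      have := ha (2 * k + i + 1) (by omega)
      rwa [show a - 2 * (k : ZMod n) + ((2 * k + i + 1 : ℕ) : ZMod n) = a + i + 1 by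
        push_cast; ring] at this)
    have h5 := loc_in (by omega) hs hb hd hL (a - 2 * k + i) (by
      have := ha (i + 1) (by omega)
      rwa [show a - 2 * (k : ZMod n) + ((i + 1 : ℕ) : ZMod n) = a - 2 * k + i + 1 by
        push_cast; ring] at this)
    have h6 : (0 : ℝ) ≤ far k M (a + i - 1) := Nat.cast_nonneg _
    have h7 : (0 : ℝ) ≤ mis false k M (a + i + 1) := Nat.cast_nonneg _
    have h8 : (0 : ℝ) ≤ mis false k M (a - 2 * k + i + 1) := Nat.cast_nonneg _
    linarith only [h3, h4, h5]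
  refine h1.trans ((sum_le_card_nsmul _ _ _ h2).trans (le_of_eq ?_))
  simp only [card_range, nsmul_eq_mul]
  push_cast; ring

end PREP

open PREP in
theorem prep : PREP_s := by
  intro κ ε k n _ M hε hk hn hs hb hd ho hL hw
  have e2 : (0 : ℝ) ≤ ε * k ^ 2 := by positivity
  have e3 : (0 : ℝ) ≤ ε * k ^ 3 := by positivity
  have e1 : (0 : ℝ) ≤ ε * k := by positivity
  refine ⟨hs, by simpa using hb, by simpa using hd, fun _ => ⟨rfl, rfl, rfl, rfl⟩,
    fun u v _ _ => nc_false u v, fun a => ?_, fun a => ?_, fun t => ?_,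
    fun a m hm _ ρ => (ho a m (by omega) ρ).trans (Nat.le_add_right _ _), fun v j hj => ?_, ?_, fun v _ => ?_, ?_, ?_,
    fun h => absurd h (by simp), ?_, fun h => absurd h (by simp), ?_, ?_⟩
  · rw [sdiff_empty]
    have := loc_wt hk hn hs hb hd hL a fun i _ => hw _
    linarith only [e3, this]
  · have h1 := loc_out hk (by omega) hs hb hd hL a (a + k - 1) (by ring) (hw a)
    have h2 : (0 : ℝ) ≤ far k M (a + k - 1) := Nat.cast_nonneg _
    linarith only [e2, h1]
  · have h1 := loc_out hk (by omega) hs hb hd hL (t + 1 - k) t (by ring) (hw _)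
    have h2 : (0 : ℝ) ≤ mis false k M (t + 1 - k) := Nat.cast_nonneg _
    linarith only [e2, h1]
  · exact (ballot hj (ho v (j + 1) hj)).trans (Nat.le_add_right _ _)
  · simp only [size, out, Pi.zero_apply, sum_const_zero, Nat.cast_zero]
    linarith only [e2]
  · simp only [inn, out, Pi.zero_apply, sum_const_zero, Nat.cast_zero]
    constructor <;> positivity
  · simp only [card_empty, Nat.cast_zero, mul_zero]
    linarith only [e1]
  · intro u v _; simp
  · intro u v; simp only [Pi.zero_apply, zero_le, ne_eq, not_true_eq_false, IsEmpty.forall_iff, and_self]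
  · intro u v h; simp at h
  · have h1 : (0 : ℝ) ≤ n := Nat.cast_nonneg _
    simp only [add_zero]
    refine hL.trans (mul_le_mul_of_nonneg_left (by linarith only [e2]) h1)

end Pool.Agent.MP_2634a8_co.X
end
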