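import Mathlib
import Pool.Agent.MP_2634a8_co.Y.Core
import Pool.Agent.MP_2634a8_co.Y.Tools

attribute [-instance] Fintype.decidableForallFintype AddQuantale.instAddLeftMono
  instCharZeroOfIsSemireal DivisionRing.toRing NumberField.to_charZero
  IdemSemiring.toCanonicallyOrderedAdd Finset.decidableDforallFinset
  Multiset.decidableDforallMultiset Vector.instDecidableForallForallMemOfDecidablePred
  Int.decidableLTLE littleWedderburn RCLike.charZero_rclike
  Array.instDecidableForallForallMemOfDecidablePred Option.decidableForallMem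
  covariant_swap_mul_of_covariant_mul Pi.addCommGroup RKHS.instFunLike Int.decidableLELE
  Int.decidableLTLT instCoeTOfCoeDep Int.decidableLELT AddQuantale.instAddRightMono
  CompletePartialOrder.toPartialOrder Group.IsPerfect.subsingleton_of_isMulCommutative
  Quantale.instMulRightMono forall_prop_decidable IdemSemiring.toSemiring
  NonUnitalNonAssocCommRing.toNonUnitalNonAssocCommSemiring

section
namespace Pool.Agent.MP_2634a8_co.X.SEAM

open Finset

section defs
variable {n : ℕ} [NeZero n]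

/-- vertices with coordinate in `[i, j)`, seen from `p` -/
def seg (p : ZMod n) (i j : ℕ) : Finset (ZMod n) := univ.filter fun v => i ≤ lam p v ∧ lam p v < j

/-- arcs crossing the cut before `a` whose head is not among the `k` vertices from `a` on -/
def farI (k : ℕ) (G : Mat (ZMod n)) (a : ZMod n) : ℕ :=
  wsum G fun u v => if k ≤ lam a v ∧ lam a v < lam a u then 1 else 0

/-- local estimates on the stretch of `l` vertices from `p` on -/
structure LOC (k : ℕ) (e : ℝ) (M : Mat (ZMod n)) (p : ZMod n) (l : ℕ) : Prop where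
  hmis : ∀ a, lam p a + k ≤ l → (mis false k M a : ℝ) ≤ e * k ^ 2
  hfar : ∀ t, k ≤ lam p t + 1 → lam p t < l → (far k M t : ℝ) ≤ e * k ^ 2
  hfarI : ∀ a, lam p a + k ≤ l → (farI k M a : ℝ) ≤ e * k ^ 2
  hwt : ∀ a, 3 * k ≤ lam p a → lam p a + 4 * k ≤ l →
    (∑ v ∈ win a k, (wt false k M v : ℝ)) ≤ e * k ^ 3

/-- the embedding of the contracted circle -/
def emb (p : ZMod n) (k n1 : ℕ) (i : ZMod n1) : ZMod n := p + ((7 * k + i.val : ℕ) : ZMod n)

/-- pull-back of a matrix -/
def pull (p : ZMod n) (k n1 : ℕ) (M : Mat (ZMod n)) : Mat (ZMod n1) :=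
  fun u v => M (emb p k n1 u) (emb p k n1 v)

/-- the ladder over the seam -/
def lad (k : ℕ) (W : Finset (ZMod n)) : Mat (ZMod n) := fun u v =>
  if u ∉ W ∧ v ∉ W ∧ v.val < u.val ∧ 2 * (k / 500) ≤ lam u v ∧ lam u v ≤ 8 * (k / 500) then 1 else 0

/-- remove the arcs at `W` and the arcs from the last `k` to the first `k` vertices -/
def cutG (k : ℕ) (A : Mat (ZMod n)) (W : Finset (ZMod n)) : Mat (ZMod n) := fun u v =>
  if u ∉ W ∧ v ∉ W ∧ ¬ (n ≤ u.val + k ∧ v.val < k) then A u v else 0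

/-- facts about the pulled-back digraph; `dg` is the old degree -/
structure PBs (k : ℕ) (e : ℝ) (A : Mat (ZMod n)) (dg : ZMod n → ℕ) : Prop where
  simple : Simple A
  h1 : ∀ a, (∑ v ∈ win a k, (wt true k A v : ℝ)) ≤ e * k ^ 3
  h2 : ∀ a, (mis true k A a : ℝ) ≤ e * k ^ 2
  h3 : ∀ t, (far k A t : ℝ) ≤ e * k ^ 2
  h4 : ∀ a m, m ≤ k → a.val + m ≤ n → OptAt A a m
  h5 : ∀ v j, j < n → ∑ y ∈ win (v + 1) j, A y v + out A v ≤ ∑ x ∈ win (v + 1) j, A v x + dg v

end defs

def LOC_s : Prop := ∀ (ε : ℝ) (k n : ℕ) [NeZero n] (M : Mat (ZMod n)) (p : ZMod n) (l : ℕ),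
  0 ≤ ε → 1 ≤ k → 2 * k + 1 ≤ n → l ≤ n → Simple M → Bal M → (∀ v, out M v ≤ k) →
  (Lam M : ℝ) ≤ n * (CC k + ε * k ^ 2) →
  (∀ a, lam p a + k ≤ l → (dfc k M (win a k) : ℝ) ≤ ε * k ^ 2) → LOC k (16 * ε) M p l

def TM_s : Prop := ∀ (n : ℕ) [NeZero n] (sm : Bool) (k : ℕ) (G : Mat (ZMod n)) (v : ZMod n)
  (x : ℝ), k < n → 0 ≤ x → 2 * (wt sm k G v : ℝ) ≤ x ^ 2 →
  ((sm = true → v.val + k < n) → (mo G 1 k v : ℝ) ≤ x + 1 ∧ k ≤ out G v + mo G 1 k v) ∧
  ((sm = true → k ≤ v.val) → (mi G 1 k v : ℝ) ≤ x + 1 ∧ k ≤ inn G v + mi G 1 k v)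

def WILD_s : Prop := ∀ (κ e : ℝ) (k n : ℕ) [NeZero n] (M : Mat (ZMod n)) (p : ZMod n) (n1 : ℕ)
  [NeZero n1] (Ω : Finset (ZMod n)) (W : Finset (ZMod n1)), 0 < κ → 0 ≤ e → 1 ≤ k → 10 * k ≤ n1 →
  n1 + 14 * k ≤ n → LOC k e M p (n1 + 14 * k) →
  (∀ v ∈ Ω, v ∈ seg p (3 * k) (n1 + 11 * k) ∧ κ * k ^ 2 ≤ 2 * (wt false k M v : ℝ)) →
  (∀ i ∈ W, zone k i ∧ emb p k n1 i ∈ Ω) →
  (∀ a, κ * (Ω ∩ win a k).card ≤ 2 * e * k) ∧ κ * W.card ≤ 8 * e * k

def BRI_s : Prop := ∀ (k n : ℕ) [NeZero n] (M : Mat (ZMod n)) (Ω : Finset (ZMod n)) (p : ZMod n)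
  (n1 m : ℕ), 1000 ≤ k → n1 + 14 * k ≤ n → Simple M → Bal M → (∀ v, out M v ≤ k) →
  (∀ v ∈ seg p (3 * k) (n1 + 11 * k), v ∉ Ω → 100 * mo M 1 k v ≤ k) →
  (∀ a, 100 * (Ω ∩ win a k).card ≤ k) → (∀ a, lam p a = 3 * k → 100 * farI k M a ≤ k ^ 2) →
  400 * m ≤ (k / 4) ^ 2 →
  ∃ Br R : Mat (ZMod n), Rt M (res M (seg p (3 * k) (n1 + 11 * k)) + Br + R) ∧
    (∀ a ∈ seg p (3 * k) (n1 + 11 * k),
      out (res M (seg p (3 * k) (n1 + 11 * k)) + Br + R) a = out M a) ∧
    size Br = m ∧ (∀ v, 10 * out Br v ≤ k / 4 ∧ 10 * inn Br v ≤ k / 4) ∧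
    ∀ y x, Br y x ≠ 0 → y ∉ Ω ∧ x ∉ Ω ∧ y ∈ seg p (n1 + 10 * k) (n1 + 11 * k) ∧
      x ∈ seg p (3 * k) (4 * k)

def LAD_s : Prop := ∀ (k n : ℕ) [NeZero n] (M L : Mat (ZMod n)) (Ω : Finset (ZMod n))
  (p : ZMod n) (n1 : ℕ), 1000 ≤ k → k ≤ n1 → n1 + 14 * k ≤ n → Simple M → Bal M →
  (∀ v, out M v ≤ k) →
  (∀ v ∈ seg p (3 * k) (n1 + 11 * k), v ∉ Ω → 100 * mo M 1 k v ≤ k ∧ 100 * mi M 1 k v ≤ k) →
  (∀ a, 100 * (Ω ∩ win a k).card ≤ k) → (∀ a, lam p a = 3 * k → 100 * farI k M a ≤ k ^ 2) →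
  (∀ a b, L a b ≠ 0 → a ∉ Ω ∧ b ∉ Ω ∧ a ∈ seg p (7 * k + n1 - k / 4) (7 * k + n1) ∧
    b ∈ seg p (7 * k) (7 * k + k / 4)) →
  (∀ v, 10 * out L v ≤ k / 4 ∧ 10 * inn L v ≤ k / 4) → 400 * size L ≤ (k / 4) ^ 2 →
  ∃ N : Mat (ZMod n), Rt M (L + N) ∧ res M (seg p (7 * k) (7 * k + n1)) ≤ N ∧
    ∀ a ∈ seg p (7 * k) (7 * k + n1), out (L + N) a = out M a

def PB_s : Prop := ∀ (e : ℝ) (k n : ℕ) [NeZero n] (M : Mat (ZMod n)) (p : ZMod n) (n1 : ℕ)
  [NeZero n1], 0 ≤ e → 1 ≤ k → 10 * k ≤ n1 → n1 + 14 * k ≤ n → Simple M → LocOpt M →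
  LOC k e M p (n1 + 14 * k) →
  PBs k (2 * e) (pull p k n1 M) (fun v => out M (emb p k n1 v)) ∧
    (∀ v, wt true k (pull p k n1 M) v ≤ wt false k M (emb p k n1 v)) ∧
    ∑ v, (k - out M (emb p k n1 v)) ≤ dfc k M (win p (n1 + 14 * k))

def CON_s : Prop := ∀ (k n : ℕ) [NeZero n] (M N : Mat (ZMod n)) (p : ZMod n) (n1 : ℕ) [NeZero n1]
  (Ld : Mat (ZMod n1)) (W : Finset (ZMod n1)) (y : ℕ), n1 + 14 * k ≤ n → Bal M →
  (∀ v, out M v ≤ k) → Off Ld W → Rt M (pushM (emb p k n1) Ld + N) →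
  res M (seg p (7 * k) (7 * k + n1)) ≤ N →
  (∀ a ∈ seg p (7 * k) (7 * k + n1), out (pushM (emb p k n1) Ld + N) a = out M a) →
  (∀ t, lam p t + 1 = 7 * k + n1 → far k M t ≤ y) → (∀ a, lam p a = 7 * k → farI k M a ≤ y) →
  ∃ Q : Mat (ZMod n1), Off Q W ∧ Bal (res (pull p k n1 M) Wᶜ + Ld + Q) ∧
    (∀ t, Pack t (res (pull p k n1 M) Wᶜ + Ld + Q) → Pack t M) ∧
    (∀ a ∉ W, out (res (pull p k n1 M) Wᶜ + Ld + Q) a = out M (emb p k n1 a)) ∧
    n * Lam (res (pull p k n1 M) Wᶜ + Ld + Q) ≤ n1 * Lam M ∧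
    ∑ a ∈ univ.filter (fun a : ZMod n1 => a.val + k < n1), out Q a ≤ y + k * W.card ∧
    ∑ b ∈ univ.filter (fun b : ZMod n1 => k ≤ b.val), inn Q b ≤ y + k * W.card

def HEA_s : Prop := ∀ (k n : ℕ) [NeZero n] (A Q : Mat (ZMod n)) (W : Finset (ZMod n))
  (T m D h : ℕ), 1 ≤ k → 10 * k ≤ n → Simple A → Off Q W → Bal (res A Wᶜ + lad k W + Q) →
  (∀ v, out (res A Wᶜ + lad k W + Q) v ≤ k) →
  (∀ v ∉ W, (n ≤ v.val + k → mi A 1 k v ≤ m) ∧ (v.val < k → mo A 1 k v ≤ m)) →
  ∑ a ∈ univ.filter (fun a : ZMod n => a.val + k < n), out Q a ≤ D →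
  ∑ b ∈ univ.filter (fun b : ZMod n => k ≤ b.val), inn Q b ≤ D →
  2 * D ≤ T * h → m + W.card + h ≤ T →
  ∃ (H : Finset (ZMod n)) (V X : Mat (ZMod n)), H.card ≤ h ∧ Off V (W ∪ H) ∧
    Rt (res A Wᶜ + lad k W + Q) (cutG k A (W ∪ H) + lad k (W ∪ H) + V + X) ∧
    (∀ v ∉ W ∪ H, out (cutG k A (W ∪ H) + lad k (W ∪ H) + V + X) v =
      out (res A Wᶜ + lad k W + Q) v) ∧
    size V ≤ 2 * D + 2 * k * h ∧ (∀ v, n ≤ v.val + k → out V v ≤ T + 2 * h) ∧
    (∀ v, v.val < k → inn V v ≤ T + 2 * h) ∧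
    (∀ u v, X u v ≠ 0 → lam u v ≤ 2 * k ∧ zone k u ∧ zone k v) ∧
    ∑ v ∈ univ.filter (deep true k), out X v ≤ k * h

def VER_s : Prop := ∀ (κ s δ : ℝ) (k n : ℕ) [NeZero n] (A V X : Mat (ZMod n))
  (Ω : Finset (ZMod n)) (dg : ZMod n → ℕ), 0 < κ → κ ≤ 1 → 0 ≤ δ → 4 * δ ≤ κ → 3 * δ ≤ s →
  1 ≤ √κ * k → 10 * k ≤ n → PBs k δ A dg → (Ω.card : ℝ) ≤ δ * k →
  Bal (cutG k A Ω + lad k Ω + V + X) → (∀ v, out (cutG k A Ω + lad k Ω + V + X) v ≤ k) →
  (∀ v ∉ Ω, out (cutG k A Ω + lad k Ω + V + X) v = dg v) → Off V Ω →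
  (size V : ℝ) ≤ s * k ^ 2 → (∀ v, n ≤ v.val + k → (out V v : ℝ) ≤ 4 * √κ * k) →
  (∀ v, v.val < k → (inn V v : ℝ) ≤ 4 * √κ * k) →
  (∀ v ∉ Ω, zone k v → 2 * (wt true k A v : ℝ) ≤ κ * k ^ 2) →
  (∀ u v, X u v ≠ 0 → lam u v ≤ 2 * k ∧ zone k u ∧ zone k v) →
  (Lam (cutG k A Ω + lad k Ω + V + X) : ℝ) ≤ n * (CC k + s * k ^ 2) →
  IN true k κ s (cutG k A Ω) (lad k Ω) V X Ω ∧
    dfc k (cutG k A Ω) (univ.filter (deep true k)) ≤
      ∑ v, (k - dg v) + size V + ∑ v ∈ univ.filter (deep true k), out X v + k * Ω.card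

def LF_s : Prop := ∀ (k n : ℕ) [NeZero n] (p : ZMod n) (n1 : ℕ) [NeZero n1]
  (W : Finset (ZMod n1)), 1000 ≤ k → 10 * k ≤ n1 → n1 + 14 * k ≤ n →
  (∀ a b, pushM (emb p k n1) (lad k W) a b ≠ 0 → ∃ u ∉ W, ∃ v ∉ W, a = emb p k n1 u ∧
    b = emb p k n1 v ∧ zone k u ∧ zone k v ∧ a ∈ seg p (7 * k + n1 - k / 4) (7 * k + n1) ∧
    b ∈ seg p (7 * k) (7 * k + k / 4)) ∧
  (∀ v, 10 * out (pushM (emb p k n1) (lad k W)) v ≤ k / 4 ∧
    10 * inn (pushM (emb p k n1) (lad k W)) v ≤ k / 4) ∧
  400 * size (pushM (emb p k n1) (lad k W)) ≤ (k / 4) ^ 2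

section basic
variable {n : ℕ} [NeZero n]

lemma mem_seg {p v : ZMod n} {i j : ℕ} : v ∈ seg p i j ↔ i ≤ lam p v ∧ lam p v < j := by
  simp only [seg, mem_filter, mem_univ, true_and]

omit [NeZero n] in
lemma lam_emb {p : ZMod n} {k n1 : ℕ} [NeZero n1] (h : 7 * k + n1 ≤ n) (i : ZMod n1) :
    lam p (emb p k n1 i) = 7 * k + i.val :=
  lam_add_nat p (by have := ZMod.val_lt i; omega)

omit [NeZero n] in
lemma emb_inj {p : ZMod n} {k n1 : ℕ} [NeZero n1] (h : 7 * k + n1 ≤ n) :
    Function.Injective (emb p k n1) := fun i j hij => by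
  have h1 := lam_emb (p := p) h i
  rw [hij, lam_emb h] at h1
  exact ZMod.val_injective n1 (by omega)

lemma emb_surj {p : ZMod n} {k n1 : ℕ} [NeZero n1] (h : 7 * k + n1 ≤ n) {v : ZMod n}
    (hv : v ∈ seg p (7 * k) (7 * k + n1)) : ∃ i, emb p k n1 i = v := by
  rw [mem_seg] at hv
  refine ⟨((lam p v - 7 * k : ℕ) : ZMod n1), lam_inj (a := p) ?_⟩
  rw [lam_emb h, ZMod.val_cast_of_lt (by omega)]
  omega

lemma emb_mem {p : ZMod n} {k n1 : ℕ} [NeZero n1] (h : 7 * k + n1 ≤ n) (i : ZMod n1) :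
    emb p k n1 i ∈ seg p (7 * k) (7 * k + n1) := by
  rw [mem_seg, lam_emb h]
  have := ZMod.val_lt i
  omega

end basic

end Pool.Agent.MP_2634a8_co.X.SEAM
end

section
namespace Pool.Agent.MP_2634a8_co.X

open Finset

namespace SEAM.Tr

variable {n n1 : ℕ} [NeZero n] [NeZero n1]

/-- the stretch of `n1` vertices starting at `q`, indexed by `ZMod n1` -/
def phi (q : ZMod n) (a : ZMod n1) : ZMod n := q + (a.val : ZMod n)

def pull (q : ZMod n) (M : Mat (ZMod n)) : Mat (ZMod n1) := fun a b => M (phi q a) (phi q b)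

omit [NeZero n] in
lemma lam_phi (h : n1 ≤ n) (q : ZMod n) (a : ZMod n1) : lam q (phi q a) = a.val :=
  PREP.lam_eq ((ZMod.val_lt a).trans_le h) rfl

omit [NeZero n] in
lemma phi_inj (h : n1 ≤ n) (q : ZMod n) : Function.Injective (phi (n1 := n1) q) := by
  intro a b hab
  apply ZMod.val_injective
  rw [← lam_phi h q a, ← lam_phi h q b, hab]

lemma phi_mem (h : n1 ≤ n) (q : ZMod n) (a : ZMod n1) : phi q a ∈ win q n1 := by
  rw [mem_win, lam_phi h]; exact ZMod.val_lt a

omit [NeZero n1] in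
lemma exists_phi {q v : ZMod n} (hv : v ∈ win q n1) : ∃ a : ZMod n1, phi q a = v := by
  refine ⟨(lam q v : ZMod n1), ?_⟩
  unfold phi
  rw [ZMod.val_natCast, Nat.mod_eq_of_lt (mem_win.1 hv), add_lam]

lemma lam_v (a b : ZMod n1) :
    (a.val ≤ b.val ∧ lam a b + a.val = b.val) ∨ (b.val < a.val ∧ lam a b + a.val = b.val + n1) := by
  have h1 := PREP.lam_tri 0 a b
  rw [lam_zero, lam_zero] at h1
  have h2 := ZMod.val_lt a
  have h3 := ZMod.val_lt b
  have h4 := lam_lt a b
  omega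

/-- lengths: equal without the seam, longer by `n - n1` over the seam -/
lemma lam_pp (h : n1 ≤ n) (q : ZMod n) (a b : ZMod n1) :
    (a.val ≤ b.val ∧ lam (phi q a) (phi q b) = lam a b) ∨
      (b.val < a.val ∧ lam (phi q a) (phi q b) + n1 = lam a b + n) := by
  have h1 := PREP.lam_tri q (phi q a) (phi q b)
  rw [lam_phi h, lam_phi h] at h1
  have h2 := lam_v a b
  have h3 := lam_lt (phi q a) (phi q b)
  have h4 := ZMod.val_lt a
  have h5 := ZMod.val_lt b
  omega

lemma lam_le_pp (h : n1 ≤ n) (q : ZMod n) (a b : ZMod n1) : lam a b ≤ lam (phi q a) (phi q b) := by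
  have := lam_pp h q a b
  omega

lemma sum_phi_le (h : n1 ≤ n) (q : ZMod n) (f : ZMod n → ℕ) :
    ∑ a : ZMod n1, f (phi q a) ≤ ∑ v, f v := by
  rw [← sum_image (s := univ) (g := phi q) (f := f) fun a _ b _ hab => phi_inj h q hab]
  exact sum_le_sum_of_subset (subset_univ _)

lemma sum_phi (h : n1 ≤ n) (q : ZMod n) {β : Type} [AddCommMonoid β] (f : ZMod n → β) :
    ∑ a : ZMod n1, f (phi q a) = ∑ v ∈ win q n1, f v := by
  rw [← sum_image (s := univ) (g := phi q) (f := f) fun a _ b _ hab => phi_inj h q hab]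
  congr 1
  ext v
  simp only [mem_image, mem_univ, true_and]
  exact ⟨fun ⟨a, ha⟩ => ha ▸ phi_mem h q a, exists_phi⟩

lemma sum2_phi_le (h : n1 ≤ n) (q : ZMod n) (f : ZMod n → ZMod n → ℕ) :
    ∑ a : ZMod n1, ∑ b : ZMod n1, f (phi q a) (phi q b) ≤ ∑ u, ∑ v, f u v :=
  (sum_le_sum fun a _ => sum_phi_le h q (f (phi q a))).trans
    (sum_phi_le h q fun u => ∑ v, f u v)

omit [NeZero n] [NeZero n1] in
lemma pull_add (q : ZMod n) (M N : Mat (ZMod n)) :
    pull (n1 := n1) q (M + N) = pull q M + pull q N := rfl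

lemma out_pull_le (h : n1 ≤ n) (q : ZMod n) (M : Mat (ZMod n)) (a : ZMod n1) :
    out (pull q M) a ≤ out M (phi q a) := sum_phi_le h q (M (phi q a))

lemma inn_pull_le (h : n1 ≤ n) (q : ZMod n) (M : Mat (ZMod n)) (a : ZMod n1) :
    inn (pull q M) a ≤ inn M (phi q a) := sum_phi_le h q fun u => M u (phi q a)

lemma size_pull_le (h : n1 ≤ n) (q : ZMod n) (M : Mat (ZMod n)) :
    size (pull (n1 := n1) q M) ≤ size M := sum2_phi_le h q M

lemma out_pull (h : n1 ≤ n) (q : ZMod n) {M : Mat (ZMod n)}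
    (hM : ∀ u v, M u v ≠ 0 → u ∈ win q n1 ∧ v ∈ win q n1) (a : ZMod n1) :
    out (pull q M) a = out M (phi q a) := by
  refine (sum_phi h q (M (phi q a))).trans (sum_subset (subset_univ _) fun v _ hv => ?_)
  by_contra h0
  exact hv (hM _ _ h0).2

lemma inn_pull (h : n1 ≤ n) (q : ZMod n) {M : Mat (ZMod n)}
    (hM : ∀ u v, M u v ≠ 0 → u ∈ win q n1 ∧ v ∈ win q n1) (a : ZMod n1) :
    inn (pull q M) a = inn M (phi q a) := by
  refine (sum_phi h q fun u => M u (phi q a)).trans
    (sum_subset (subset_univ _) fun v _ hv => ?_)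
  by_contra h0
  exact hv (hM _ _ h0).1

lemma bal_pull (h : n1 ≤ n) (q : ZMod n) {M : Mat (ZMod n)}
    (hM : ∀ u v, M u v ≠ 0 → u ∈ win q n1 ∧ v ∈ win q n1) (hb : Bal M) :
    Bal (pull (n1 := n1) q M) := fun a => by rw [out_pull h q hM, inn_pull h q hM, hb]

omit [NeZero n] [NeZero n1] in
lemma simple_pull (q : ZMod n) {M : Mat (ZMod n)} (hs : Simple M) :
    Simple (pull (n1 := n1) q M) := ⟨fun _ _ => hs.1 _ _, fun _ => hs.2 _⟩

lemma pack_pull (h : n1 ≤ n) (q : ZMod n) (M : Mat (ZMod n)) (t : ℕ)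
    (hp : Pack t (pull (n1 := n1) q M)) : Pack t M := by
  refine push _ _ (phi q) (pull q M) M (fun u v => ?_) t hp
  by_cases hu : ∃ a : ZMod n1, phi q a = u
  · by_cases hv : ∃ b : ZMod n1, phi q b = v
    · obtain ⟨a, rfl⟩ := hu
      obtain ⟨b, rfl⟩ := hv
      have h1 : ∀ c : ZMod n1, univ.filter (fun x => phi q x = phi q c) = {c} := fun c => by
        ext x; simp [(phi_inj h q).eq_iff]
      rw [h1, h1, sum_singleton, sum_singleton]
      exact le_rfl
    · have : univ.filter (fun b : ZMod n1 => phi q b = v) = ∅ :=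
        filter_eq_empty_iff.2 fun b _ hb => hv ⟨b, hb⟩
      simp [this]
  · have : univ.filter (fun a : ZMod n1 => phi q a = u) = ∅ :=
      filter_eq_empty_iff.2 fun a _ ha => hu ⟨a, ha⟩
    simp [this]

variable {k : ℕ} {q : ZMod n} {M : Mat (ZMod n)} {G R : Mat (ZMod n1)}

theorem far_le (h : n1 ≤ n) (hG : G ≤ pull q M) (t : ZMod n1) :
    far k G t ≤ far k M (phi q t) := by
  refine le_trans ?_ (sum2_phi_le h q fun u v => M u v *
    if k ≤ lam u (phi q t) ∧ lam u (phi q t) < lam u v then 1 else 0)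
  refine sum_le_sum fun a _ => sum_le_sum fun b _ => Nat.mul_le_mul (hG a b) ?_
  have h1 := lam_pp h q a t
  have h2 := lam_pp h q a b
  have h3 := lam_v a t
  have h4 := lam_v a b
  have h5 := ZMod.val_lt a
  have h6 := ZMod.val_lt b
  have h7 := ZMod.val_lt t
  dsimp only
  split_ifs <;> omega

/-- every cut of the contracted matrix is crossed at most as often as the real one -/
theorem cross_le (h : n1 ≤ n) (hG : G ≤ pull q M) (t : ZMod n1) :
    cross G t ≤ cross M (phi q t) := by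
  refine le_trans ?_ (sum2_phi_le h q fun u v => M u v * crs (phi q t) u v)
  refine sum_le_sum fun a _ => sum_le_sum fun b _ => Nat.mul_le_mul (hG a b) ?_
  have h1 := lam_pp h q a t
  have h2 := lam_pp h q a b
  have h3 := lam_v a t
  have h4 := lam_v a b
  have h5 := ZMod.val_lt a
  have h6 := ZMod.val_lt b
  have h7 := ZMod.val_lt t
  unfold crs
  split_ifs <;> omega

lemma crs_pp (h : n1 ≤ n) (q : ZMod n) (t a b : ZMod n1) :
    crs (phi q t) (phi q a) (phi q b) = crs t a b := by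
  have h1 := lam_pp h q a t
  have h2 := lam_pp h q a b
  have h3 := lam_v a t
  have h4 := lam_v a b
  have h5 := ZMod.val_lt a
  have h6 := ZMod.val_lt b
  have h7 := ZMod.val_lt t
  unfold crs
  split_ifs <;> omega

theorem mis_le (h : n1 ≤ n) (hG : pull q M ≤ G + R) (a : ZMod n1) :
    mis true k G a ≤ mis false k M (phi q a) + mis false k M q + size R := by
  rw [PREP.mis_eq, PREP.mis_eq, PREP.mis_eq]
  have h1 := sum2_phi_le h q (PREP.H false k M (phi q a))
  have h2 := sum2_phi_le h q (PREP.H false k M q)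
  have h3 : ∑ u, ∑ w, PREP.H true k G a u w ≤ ∑ u : ZMod n1, ∑ w : ZMod n1,
      (PREP.H false k M (phi q a) (phi q u) (phi q w) + PREP.H false k M q (phi q u) (phi q w) +
        R u w) := by
    refine sum_le_sum fun u _ => sum_le_sum fun w _ => ?_
    have h4 : M (phi q u) (phi q w) ≤ G u w + R u w := hG u w
    have h5 := lam_pp h q a u
    have h6 := lam_pp h q a w
    have h7 := lam_v a u
    have h8 := lam_v a w
    have h9 := lam_phi h q u
    have h10 := lam_phi h q w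
    have h11 := ZMod.val_lt a
    have h12 := ZMod.val_lt u
    have h13 := ZMod.val_lt w
    unfold PREP.H
    simp only [PREP.nc_false, true_and]
    simp only [nc, forall_const]
    split_ifs <;> omega
  simp only [sum_add_distrib] at h3
  unfold size out
  omega

lemma phi_add (h : n1 ≤ n) (q : ZMod n) (v : ZMod n1) {d : ℕ} (hd : d < n1)
    (hc : v.val ≤ (v + (d : ZMod n1)).val) : phi q (v + (d : ZMod n1)) = phi q v + d := by
  have h1 := lam_pp h q v (v + (d : ZMod n1))
  rw [lam_add_nat v hd] at h1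
  have h2 : lam (phi q v) (phi q (v + (d : ZMod n1))) = d := by omega
  rw [← add_lam (phi q v) (phi q (v + (d : ZMod n1))), h2]

lemma phi_sub (h : n1 ≤ n) (q : ZMod n) (v : ZMod n1) {d : ℕ} (hd : d < n1)
    (hc : (v - (d : ZMod n1)).val ≤ v.val) : phi q (v - (d : ZMod n1)) = phi q v - d := by
  have h1 := lam_pp h q (v - (d : ZMod n1)) v
  rw [lam_sub_nat v hd] at h1
  have h2 : lam (phi q (v - (d : ZMod n1))) (phi q v) = d := by omega
  rw [← sub_lam (phi q (v - (d : ZMod n1))) (phi q v), h2]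

theorem wt_le (h : n1 ≤ n) (hk : k < n1) (hG : G ≤ pull q M) (hR : pull q M ≤ G + R)
    (v : ZMod n1) : wt true k G v ≤ wt false k M (phi q v) + k * (out R v + inn R v) := by
  have h1 : ∑ d ∈ (Icc 1 k : Finset ℕ),
      ((if nc true v (v + (d : ZMod n1)) ∧ G v (v + (d : ZMod n1)) = 0 then k - d else 0) +
      (if nc true (v - (d : ZMod n1)) v ∧ G (v - (d : ZMod n1)) v = 0 then k - d else 0)) ≤
      ∑ d ∈ (Icc 1 k : Finset ℕ),
      (((if nc false (phi q v) (phi q v + (d : ZMod n)) ∧ M (phi q v) (phi q v + (d : ZMod n)) = 0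
        then k - d else 0) +
      (if nc false (phi q v - (d : ZMod n)) (phi q v) ∧ M (phi q v - (d : ZMod n)) (phi q v) = 0
        then k - d else 0)) + (k * R v (v + (d : ZMod n1)) + k * R (v - (d : ZMod n1)) v)) := by
    refine sum_le_sum fun d hd => ?_
    have hd' := (mem_Icc.1 hd).2
    rw [add_add_add_comm]
    refine add_le_add ?_ ?_
    · split_ifs with h2 h3
      · omega
      · have h4 : M (phi q v) (phi q (v + (d : ZMod n1))) ≤ _ := hR v (v + (d : ZMod n1))
        rw [phi_add h q v (by omega) (h2.1 rfl), Pi.add_apply, Pi.add_apply, h2.2] at h4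
        have h5 : M (phi q v) (phi q v + (d : ZMod n)) ≠ 0 := fun h0 => h3 ⟨PREP.nc_false _ _, h0⟩
        have : k * 1 ≤ k * R v (v + (d : ZMod n1)) := Nat.mul_le_mul_left _ (by omega)
        omega
      · omega
      · omega
    · split_ifs with h2 h3
      · omega
      · have h4 : M (phi q (v - (d : ZMod n1))) (phi q v) ≤ _ := hR (v - (d : ZMod n1)) v
        rw [phi_sub h q v (by omega) (h2.1 rfl), Pi.add_apply, Pi.add_apply, h2.2] at h4
        have h5 : M (phi q v - (d : ZMod n)) (phi q v) ≠ 0 := fun h0 => h3 ⟨PREP.nc_false _ _, h0⟩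
        have : k * 1 ≤ k * R (v - (d : ZMod n1)) v := Nat.mul_le_mul_left _ (by omega)
        omega
      · omega
      · omega
  have h2 : ∑ x, (G v x * min (lam v x - k) k + G x v * min (lam x v - k) k) ≤
      ∑ x, (M (phi q v) x * min (lam (phi q v) x - k) k +
        M x (phi q v) * min (lam x (phi q v) - k) k) := by
    refine le_trans (sum_le_sum fun x _ => ?_) (sum_phi_le h q _)
    have h3 := lam_le_pp h q v x
    have h4 := lam_le_pp h q x v
    exact add_le_add (Nat.mul_le_mul (hG v x) (by omega)) (Nat.mul_le_mul (hG x v) (by omega))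
  have h3 := PREP.sum_off hk v (R v)
  have h4 := PREP.sum_off' hk v fun x => R x v
  rw [sum_add_distrib (f := fun d : ℕ => _ + _) (g := fun d : ℕ => k * R v (v + (d : ZMod n1)) +
    k * R (v - (d : ZMod n1)) v), sum_add_distrib (f := fun d : ℕ => k * _), ← mul_sum,
    ← mul_sum] at h1
  have h5 := Nat.mul_le_mul_left k h3
  have h6 := Nat.mul_le_mul_left k h4
  unfold wt out inn
  rw [mul_add]
  omega

/-- a contracted window lies in two real windows -/
theorem sum_win_le (h : n1 ≤ n) (q : ZMod n) (a : ZMod n1) (f : ZMod n → ℕ) :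
    ∑ v ∈ win a k, f (phi q v) ≤ ∑ v ∈ win (phi q a) k, f v + ∑ v ∈ win q k, f v := by
  simp only [win, sum_filter]
  have h1 := sum_phi_le h q fun v => if lam (phi q a) v < k then f v else 0
  have h2 := sum_phi_le h q fun v => if lam q v < k then f v else 0
  refine le_trans ?_ (add_le_add h1 h2)
  rw [← sum_add_distrib]
  refine sum_le_sum fun v _ => ?_
  have h5 := lam_pp h q a v
  have h7 := lam_v a v
  have h9 := lam_phi h q v
  have h11 := ZMod.val_lt a
  split_ifs <;> omega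

/-- ballot inequality on a linear stretch: the `j` successors of `v` without passing the seam -/
theorem ballot_lin (h : n1 ≤ n) (q : ZMod n) (ho : LocOpt M) (v : ZMod n1) {j : ℕ}
    (hj : v.val + j < n1) :
    ∑ y ∈ win (v + 1) j, pull q M y v ≤ ∑ x ∈ win (v + 1) j, pull q M v x := by
  have h1 := PREP.ballot (M := M) (v := phi q v) (j := j) (by omega) (ho _ _ (by omega))
  have h2 : ∀ f : ZMod n → ℕ, ∑ y ∈ win (v + 1) j, f (phi q y) =
      ∑ y ∈ win (phi q v + 1) j, f y := by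
    intro f
    rw [sum_win _ (by omega), sum_win _ (by omega)]
    refine sum_congr rfl fun i hi => ?_
    have hi' := mem_range.1 hi
    have h3 : v + 1 + (i : ZMod n1) = v + ((i + 1 : ℕ) : ZMod n1) := by push_cast; ring
    have h4 := lam_v v (v + ((i + 1 : ℕ) : ZMod n1))
    rw [lam_add_nat v (by omega)] at h4
    rw [h3, phi_add h q v (by omega) (by omega)]
    congr 1
    push_cast; ring
  rw [← h2 fun y => M y (phi q v), ← h2 fun x => M (phi q v) x] at h1
  exact h1

/-- optimality of a window that does not pass the seam -/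
theorem opt_lin (h : n1 ≤ n) (q : ZMod n) (a : ZMod n1) {m : ℕ} (hm : a.val + m ≤ n1)
    (ho : OptAt M (phi q a) m) : OptAt (pull q M) a m := by
  intro ρ
  have hw : ∀ v : ZMod n1, phi q v ∈ win (phi q a) m ↔ v ∈ win a m := by
    intro v
    rw [mem_win, mem_win]
    have h5 := lam_pp h q a v
    have h7 := lam_v a v
    have h8 := ZMod.val_lt v
    omega
  have hsub : ∀ v ∈ win (phi q a) m, v ∈ win q n1 := by
    intro v hv
    rw [mem_win] at hv ⊢
    have h1 := PREP.lam_tri q (phi q a) v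
    rw [lam_phi h] at h1
    omega
  have key : ∀ (σ : ZMod n → ℕ), back (res M (win (phi q a) m)) σ =
      back (res (pull q M) (win a m)) fun v => σ (phi q v) := by
    intro σ
    unfold back
    rw [← sum_subset (subset_univ (win q n1)), ← sum_phi h]
    · refine sum_congr rfl fun u _ => ?_
      rw [← sum_subset (subset_univ (win q n1)), ← sum_phi h]
      · refine sum_congr rfl fun v _ => ?_
        simp only [res, hw, pull]
      · intro v _ hv
        have : v ∉ win (phi q a) m := fun h0 => hv (hsub v h0)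
        simp [res, this]
    · intro u _ hu
      have : u ∉ win (phi q a) m := fun h0 => hu (hsub u h0)
      simp [res, this]
  have h1 := ho fun v => ρ (lam q v : ZMod n1)
  rw [key, key] at h1
  simp only [lam_phi h, ZMod.natCast_val, ZMod.cast_id', id_eq] at h1
  refine le_trans (le_of_eq ?_) h1
  unfold back
  refine sum_congr rfl fun u _ => sum_congr rfl fun v _ => ?_
  by_cases huv : u ∈ win a m ∧ v ∈ win a m
  · have h2 := mem_win.1 huv.1
    have h3 := mem_win.1 huv.2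
    have h4 := lam_pp h q a u
    have h5 := lam_pp h q a v
    have h6 := lam_v a u
    have h7 := lam_v a v
    have h8 : lam (phi q a) (phi q u) = lam a u := by omega
    have h9 : lam (phi q a) (phi q v) = lam a v := by omega
    simp only [h8, h9]
  · simp [res, huv]

end SEAM.Tr

end Pool.Agent.MP_2634a8_co.X
end

section
namespace Pool.Agent.MP_2634a8_co.X.SEAM

open Finset

lemma LOC.farI_eq {n : ℕ} [NeZero n] (k : ℕ) (G : Mat (ZMod n)) (a : ZMod n) :
    farI k G a = PREP.farm k G (a - 1) := by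
  unfold farI PREP.farm
  congr 1
  funext u v
  have h := crs_pred a u v
  unfold crs at h
  rw [sub_add_cancel]
  split_ifs at h ⊢ <;> omega

theorem loc : LOC_s := by
  intro ε k n _ M p l hε hk hn hl hs hb hd hL hw
  have e2 : (0 : ℝ) ≤ ε * k ^ 2 := by positivity
  refine ⟨fun a ha => ?_, fun t h1 h2 => ?_, fun a ha => ?_, fun a h1 h2 => ?_⟩
  · have h1 := PREP.loc_out hk (by omega) hs hb hd hL a (a + k - 1) (by ring) (hw a ha)
    have h2 : (0 : ℝ) ≤ far k M (a + k - 1) := Nat.cast_nonneg _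
    linarith only [e2, h1]
  · have h3 : lam p (t + 1 - (k : ZMod n)) = lam p t + 1 - k := by
      apply PREP.lam_eq (by omega)
      rw [Nat.cast_sub h1]
      push_cast
      linear_combination add_lam p t
    have h4 := PREP.loc_out hk (by omega) hs hb hd hL (t + 1 - k) t (by ring) (hw _ (by omega))
    have h5 : (0 : ℝ) ≤ mis false k M (t + 1 - k) := Nat.cast_nonneg _
    linarith only [e2, h4]
  · have h1 := PREP.loc_in (by omega) hs hb hd hL (a - 1) (by rw [sub_add_cancel]; exact hw a ha)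
    have h2 : (0 : ℝ) ≤ mis false k M (a - 1 + 1) := Nat.cast_nonneg _
    rw [LOC.farI_eq]
    linarith only [e2, h1]
  · refine PREP.loc_wt hk hn hs hb hd hL a fun i hi => hw _ ?_
    have h3 : lam p (a - 2 * (k : ZMod n) + (i : ZMod n)) = lam p a + i - 2 * k := by
      apply PREP.lam_eq (by omega)
      rw [Nat.cast_sub (by omega)]
      push_cast
      linear_combination add_lam p a
    omega

end Pool.Agent.MP_2634a8_co.X.SEAM
end

section
namespace Pool.Agent.MP_2634a8_co.X.SEAM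

open Finset

namespace TM

lemma sq_le (T : Finset ℕ) : T.card * T.card ≤ 2 * ∑ x ∈ T, x + T.card := by
  induction T using Finset.induction_on_max with
  | empty => simp
  | insert a s ha ih =>
    have hn : a ∉ s := fun h => lt_irrefl _ (ha a h)
    have hc : s.card ≤ a := by
      simpa using Finset.card_le_card (show s ⊆ range a from fun x hx => mem_range.mpr (ha x hx))
    rw [card_insert_of_notMem hn, sum_insert hn]
    linarith only [ih, hc]

lemma core {k n : ℕ} (hk : k < n) (f : ℕ → ℕ) (x : ℝ) (hx : 0 ≤ x) (W : ℕ)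
    (hW : ∑ d ∈ Icc 1 k, (if f d = 0 then k - d else 0) ≤ W) (h : 2 * (W : ℝ) ≤ x ^ 2) :
    (((Icc 1 k).filter fun d => f d = 0).card : ℝ) ≤ x + 1 ∧
      k ≤ ∑ i ∈ range n, f i + ((Icc 1 k).filter fun d => f d = 0).card := by
  set S := (Icc 1 k).filter fun d => f d = 0 with hS
  constructor
  · have hi : Set.InjOn (fun d => k - d) (S : Set ℕ) := fun a ha b hb hab => by
      simp only [hS, coe_filter, mem_Icc, Set.mem_ofPred_eq] at ha hb hab
      omega
    have h1 := sq_le (S.image fun d => k - d)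
    rw [card_image_of_injOn hi, sum_image hi] at h1
    rw [← sum_filter, ← hS] at hW
    have h2 : S.card * S.card ≤ 2 * W + S.card := by omega
    have h3 : (S.card : ℝ) * S.card ≤ 2 * W + S.card := by exact_mod_cast h2
    by_contra hc
    rw [not_le] at hc
    nlinarith only [hx, h, h3, hc]
  · have h1 : ∑ i ∈ Icc 1 k, f i ≤ ∑ i ∈ range n, f i :=
      sum_le_sum_of_subset fun i hi => by simp only [mem_Icc, mem_range] at *; omega
    have h2 : ∑ i ∈ Icc 1 k, 1 ≤ ∑ i ∈ Icc 1 k, (f i + if f i = 0 then 1 else 0) :=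
      sum_le_sum fun i _ => by split_ifs <;> omega
    rw [sum_add_distrib, ← card_filter, ← hS] at h2
    simp only [sum_const, Nat.card_Icc, smul_eq_mul] at h2
    omega

variable {n : ℕ} [NeZero n]

lemma in_win {p v : ZMod n} {j k : ℕ} (hj : j < n) (h1 : j ≤ lam p v) (h2 : lam p v < j + k) :
    v ∈ win (p + (j : ZMod n)) k := by
  rw [mem_win]
  have := lam_coord p (p + (j : ZMod n)) v
  rw [lam_add_nat p hj] at this
  omega

lemma few {κ e : ℝ} {k l : ℕ} {M : Mat (ZMod n)} {p : ZMod n} (hk : 1 ≤ k) (hL : LOC k e M p l)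
    {S : Finset (ZMod n)} (hS : ∀ v ∈ S, κ * k ^ 2 ≤ 2 * (wt false k M v : ℝ)) (b : ZMod n)
    (h1 : 3 * k ≤ lam p b) (h2 : lam p b + 4 * k ≤ l) (hb : S ⊆ win b k) :
    κ * S.card ≤ 2 * e * k := by
  have a1 : ∑ _v ∈ S, κ * k ^ 2 ≤ ∑ v ∈ S, 2 * (wt false k M v : ℝ) := sum_le_sum hS
  have a2 : ∑ v ∈ S, (wt false k M v : ℝ) ≤ ∑ v ∈ win b k, (wt false k M v : ℝ) :=
    sum_le_sum_of_subset_of_nonneg hb fun _ _ _ => Nat.cast_nonneg _
  have a3 := hL.hwt b h1 h2
  rw [sum_const, nsmul_eq_mul, ← mul_sum] at a1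
  have a4 : (0 : ℝ) < (k : ℝ) ^ 2 := by positivity
  refine le_of_mul_le_mul_right ?_ a4
  linarith only [a1, a2, a3]

end TM

theorem tm : TM_s := by
  intro n _ sm k G v x hk hx h
  constructor
  · intro hv
    rw [out_eq_range]
    refine TM.core hk (fun d => G v (v + d)) x hx _ ?_ h
    refine le_trans (sum_le_sum fun d hd => ?_) (Nat.le_add_right _ _)
    have hd' := mem_Icc.mp hd
    have : nc sm v (v + (d : ZMod n)) := fun hs => by
      have h1 := lam_val v (v + (d : ZMod n))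
      rw [lam_add_nat v (by omega)] at h1
      have := hv hs
      omega
    simp [this]
  · intro hv
    rw [inn_eq_range]
    refine TM.core hk (fun d => G (v - d) v) x hx _ ?_ h
    refine le_trans (sum_le_sum fun d hd => ?_) (Nat.le_add_right _ _)
    have hd' := mem_Icc.mp hd
    have : nc sm (v - (d : ZMod n)) v := fun hs => by
      have h1 := lam_val (v - (d : ZMod n)) v
      rw [lam_sub_nat v (by omega)] at h1
      have := hv hs
      have := ZMod.val_lt (v - (d : ZMod n))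
      omega
    simp [this]

theorem wild : WILD_s := by
  intro κ e k n _ M p n1 _ Ω W hκ he hk h10 hn hL hΩ hW
  have key : ∀ (S : Finset (ZMod n)) (j : ℕ), S ⊆ Ω → 3 * k ≤ j → j ≤ n1 + 10 * k →
      (∀ v ∈ S, j ≤ lam p v ∧ lam p v < j + k) → κ * S.card ≤ 2 * e * k := fun S j hS h1 h2 h3 => by
    have hj : j < n := by omega
    refine TM.few hk hL (fun v hv => (hΩ v (hS hv)).2) (p + (j : ZMod n)) ?_ ?_
      fun v hv => TM.in_win hj (h3 v hv).1 (h3 v hv).2 <;> rw [lam_add_nat p hj] <;> omega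
  constructor
  · intro a
    refine key _ (if lam p a < 3 * k ∨ n1 + 11 * k ≤ lam p a then 3 * k
      else min (lam p a) (n1 + 10 * k)) inter_subset_left ?_ ?_ fun v hv => ?_
    · split_ifs <;> omega
    · split_ifs <;> omega
    · have h1 := mem_seg.mp (hΩ v (mem_inter.mp hv).1).1
      have h2 := mem_win.mp (mem_inter.mp hv).2
      have h3 := lam_coord p a v
      have h4 := lam_lt p a
      split_ifs <;> omega
  · have h7 : 7 * k + n1 ≤ n := by omega
    set S := W.image (emb p k n1) with hS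
    have hSΩ : S ⊆ Ω := fun v hv => by
      obtain ⟨i, hi, rfl⟩ := mem_image.mp hv
      exact (hW i hi).2
    have part : ∀ j, 3 * k ≤ j → j ≤ n1 + 10 * k →
        κ * (S.filter fun v => j ≤ lam p v ∧ lam p v < j + k).card ≤ 2 * e * k :=
      fun j h1 h2 => key _ j ((filter_subset _ _).trans hSΩ) h1 h2 fun v hv => (mem_filter.mp hv).2
    have c1 := part (7 * k) (by omega) (by omega)
    have c2 := part (8 * k) (by omega) (by omega)
    have c3 := part (5 * k + n1) (by omega) (by omega)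
    have c4 := part (6 * k + n1) (by omega) (by omega)
    have hc : W.card ≤ (S.filter fun v => 7 * k ≤ lam p v ∧ lam p v < 7 * k + k).card +
        (S.filter fun v => 8 * k ≤ lam p v ∧ lam p v < 8 * k + k).card +
        (S.filter fun v => 5 * k + n1 ≤ lam p v ∧ lam p v < 5 * k + n1 + k).card +
        (S.filter fun v => 6 * k + n1 ≤ lam p v ∧ lam p v < 6 * k + n1 + k).card := by
      rw [← card_image_of_injective W (emb_inj (p := p) h7), ← hS]
      simp only [card_filter, ← sum_add_distrib]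
      rw [card_eq_sum_ones]
      refine sum_le_sum fun v hv => ?_
      obtain ⟨i, hi, rfl⟩ := mem_image.mp hv
      have h1 := (hW i hi).1
      have h2 := ZMod.val_lt i
      unfold zone at h1
      rw [lam_emb h7]
      split_ifs <;> omega
    have hc' := mul_le_mul_of_nonneg_left (Nat.cast_le (α := ℝ).mpr hc) hκ.le
    push_cast at hc'
    linarith only [c1, c2, c3, c4, hc']

end Pool.Agent.MP_2634a8_co.X.SEAM
end

section
namespace Pool.Agent.MP_2634a8_co.X.SEAM

open Finset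

namespace BRI

lemma pick {V : Type} [Fintype V] [DecidableEq V] (D : Mat V) (k c : ℕ)
    (hd : ∀ v, out D v ≤ k ∧ inn D v ≤ k) : ∀ m, c * m + 2 * m * k ≤ c * size D → 0 < c →
    ∃ P : Mat V, P ≤ D ∧ size P = m ∧ ∀ v, out P v ≤ c ∧ inn P v ≤ c
  | 0, _, _ => ⟨0, zero_le, size_zero, fun v => by simp [out_zero, inn_zero]⟩
  | m + 1, h, hc => by
    obtain ⟨P, h1, h2, h3⟩ := pick D k c hd m (by linarith only [h]) hc
    by_cases hx : ∃ a b, out P a < c ∧ inn P b < c ∧ P a b < D a b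
    · obtain ⟨a, b, ha, hb, hab⟩ := hx
      refine ⟨P + E a b, fun x y => ?_, by rw [size_add, size_E, h2], fun v => ?_⟩
      · have : P x y ≤ D x y := h1 x y
        show P x y + E a b x y ≤ D x y
        unfold E
        split_ifs with h4
        · rw [h4.1, h4.2]; omega
        · omega
      · have := h3 v
        rw [out_add, inn_add, out_E, inn_E]
        constructor
        · split_ifs with h4
          · rw [h4]; omega
          · omega
        · split_ifs with h4
          · rw [h4]; omega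
          · omega
    · exfalso
      push Not at hx
      have e1 : size D ≤ size P + ∑ a, (if c ≤ out P a then out D a else 0) +
          ∑ b, (if c ≤ inn P b then inn D b else 0) := by
        have e2 : ∑ b, (if c ≤ inn P b then inn D b else 0) =
            ∑ a, ∑ b, if c ≤ inn P b then D a b else 0 := by
          rw [sum_comm]
          exact sum_congr rfl fun b _ => by split_ifs <;> simp only [inn, sum_const_zero]
        rw [e2, size, size, ← sum_add_distrib, ← sum_add_distrib]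
        refine sum_le_sum fun a _ => ?_
        by_cases ha : c ≤ out P a
        · rw [if_pos ha]; omega
        · rw [if_neg ha, add_zero, out, out, ← sum_add_distrib]
          refine sum_le_sum fun b _ => ?_
          by_cases hb : c ≤ inn P b
          · rw [if_pos hb]; omega
          · have := hx a b (by omega) (by omega)
            omega
      have e3 : ∀ f g : V → ℕ, (∀ v, g v ≤ k) →
          c * ∑ a, (if c ≤ f a then g a else 0) ≤ (∑ a, f a) * k := fun f g hg => by
        rw [mul_sum, sum_mul]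
        refine sum_le_sum fun a _ => ?_
        split_ifs with h4
        · exact Nat.mul_le_mul h4 (hg a)
        · simp
      have e4 := e3 (out P) (out D) fun v => (hd v).1
      have e5 := e3 (inn P) (inn D) fun v => (hd v).2
      rw [← size_inn, h2] at e5
      rw [show ∑ a, out P a = m from h2] at e4
      have e6 := Nat.mul_le_mul_left c e1
      rw [h2] at e6
      linarith only [h, hc, e4, e5, e6]

variable {n : ℕ} [NeZero n]

lemma out_ge (B : Mat (ZMod n)) (v : ZMod n) {p q : ℕ} (hq : q < n) :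
    q + 1 - p ≤ out B v + mo B p q v := by
  have h := mo_rem 0 B p hq v
  rw [zero_add] at h
  have : mo 0 p q v = q + 1 - p := by simp only [mo, Pi.zero_apply, filter_true, Nat.card_Icc]
  omega

end BRI

open BRI in
theorem bri : BRI_s := by
  intro k n _ M Ω p n1 m hk h14 hs hb hd ht hh hf hm
  obtain ⟨I, hI⟩ : ∃ I, I = seg p (3 * k) (n1 + 11 * k) := ⟨_, rfl⟩
  rw [← hI] at ht ⊢
  have mI : ∀ v, v ∈ I ↔ 3 * k ≤ lam p v ∧ lam p v < n1 + 11 * k := fun v => by rw [hI, mem_seg]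
  obtain ⟨MO, hMO⟩ := le_iff_add.1 (res_le M I)
  have eMO : ∀ u v, ¬ (u ∈ I ∧ v ∈ I) → MO u v = M u v := fun u v h => by
    have := congrFun (congrFun hMO u) v
    simp only [Pi.add_apply, res, if_neg h] at this
    omega
  have zMO : ∀ u v, u ∈ I → v ∈ I → MO u v = 0 := fun u v h h' => by
    have := congrFun (congrFun hMO u) v
    simp only [Pi.add_apply, res, if_pos (And.intro h h')] at this
    omega
  have lMO : MO ≤ M := by rw [hMO]; exact le_self_add
  obtain ⟨Q, q1, q2, q3⟩ := fd _ MO Iᶜ fun u hu => by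
    have h1 := hb u
    have h2 : out MO u = out M u := sum_congr rfl fun w _ => eMO u w fun h => mem_compl.1 hu h.1
    have h3 : inn MO u = inn M u := sum_congr rfl fun w _ => eMO w u fun h => mem_compl.1 hu h.2
    omega
  have qo : ∀ v, out Q v ≤ k := fun v => ((q1.out_le v).trans (out_mono lMO v)).trans (hd v)
  have qi : ∀ v, inn Q v ≤ k := fun v =>
    ((q1.inn_le v).trans (inn_mono lMO v)).trans (hb v ▸ hd v)
  obtain ⟨a0, ha0⟩ : ∃ a0, lam p a0 = n1 + 11 * k - k / 2 := ⟨_, lam_add_nat p (by omega)⟩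
  obtain ⟨b0, hb0⟩ : ∃ b0, lam p b0 = 3 * k := ⟨_, lam_add_nat p (by omega)⟩
  obtain ⟨T, hT⟩ : ∃ T, T = win a0 (k / 2) \ Ω := ⟨_, rfl⟩
  have mT : ∀ v ∈ T, v ∉ Ω ∧ n1 + 11 * k - k / 2 ≤ lam p v ∧ lam p v < n1 + 11 * k := fun v hv => by
    rw [hT, mem_sdiff, mem_win] at hv
    have := lam_coord p a0 v
    exact ⟨hv.2, by omega⟩
  have cT : 49 * k ≤ 100 * T.card + 50 := by
    have h1 : (win a0 (k / 2)).card ≤ T.card + (Ω ∩ win a0 k).card := by
      refine le_trans (card_le_card fun v hv => ?_) (card_union_le _ _)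
      rw [mem_union, hT, mem_sdiff, mem_inter]
      by_cases h : v ∈ Ω
      · exact Or.inr ⟨h, mem_win.2 ((mem_win.1 hv).trans_le (by omega))⟩
      · exact Or.inl ⟨hv, h⟩
    rw [card_win a0 (by omega)] at h1
    have := hh a0
    omega
  have oT : ∀ v ∈ T, 49 * k ≤ 100 * out Q v + 100 := fun v hv => by
    obtain ⟨h1, h2, h3⟩ := mT v hv
    have hvI : v ∈ I := (mI v).2 (by omega)
    have h4 := out_ge MO v (p := k / 2) (q := k) (by omega)
    have h5 : mo MO (k / 2) k v ≤ mo M 1 k v := card_le_card fun d hd' => by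
      simp only [mem_filter, mem_Icc] at hd' ⊢
      refine ⟨by omega, ?_⟩
      rw [← eMO v _ fun h => ?_]
      · exact hd'.2
      · have h6 := (mI _).1 h.2
        have h7 := lam_coord p v (v + d)
        rw [lam_add_nat v (by omega)] at h7
        omega
    have h6 := ht v hvI h1
    rw [(q3 v (by simpa using hvI)).1]
    omega
  obtain ⟨D, hD⟩ : ∃ D : Mat (ZMod n), D = fun y x => if y ∈ T ∧ x ∈ win b0 k \ Ω then Q y x else 0 :=
    ⟨_, rfl⟩
  have lD : D ≤ Q := fun y x => by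
    rw [hD]
    dsimp only
    split_ifs <;> omega
  have sD : ∑ y ∈ T, out Q y ≤ size D + (farI k M b0 + (Ω ∩ win b0 k).card * k) := by
    have e1 : ∑ y ∈ T, out Q y ≤ size D + ∑ x ∈ (win b0 k \ Ω)ᶜ, inn Q x := by
      rw [size_inn, ← sum_subset (subset_univ (win b0 k \ Ω)) fun x _ hx => ?_]
      · have : ∑ y ∈ T, out Q y = ∑ x, ∑ y ∈ T, Q y x := sum_comm
        rw [this, ← sum_add_sum_compl (win b0 k \ Ω)]
        refine add_le_add (sum_le_sum fun x hx => ?_) (sum_le_sum fun x _ => ?_)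
        · refine le_trans (le_of_eq ?_) (sum_le_sum_of_subset (subset_univ T))
          exact sum_congr rfl fun y hy => by rw [hD]; exact (if_pos ⟨hy, hx⟩).symm
        · exact sum_le_sum_of_subset (subset_univ T)
      · exact sum_eq_zero fun y _ => by rw [hD]; exact if_neg fun h => hx h.2
    have e2 : ∑ x ∈ (win b0 k \ Ω)ᶜ, inn Q x ≤
        ∑ x ∈ (win b0 k)ᶜ, inn Q x + ∑ x ∈ Ω ∩ win b0 k, inn Q x := by
      rw [← sum_union (disjoint_left.2 fun x h h' => mem_compl.1 h (mem_inter.1 h').2)]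
      refine sum_le_sum_of_subset fun x hx => ?_
      simp only [mem_compl, mem_sdiff, mem_union, mem_inter] at hx ⊢
      tauto
    have e3 : ∑ x ∈ Ω ∩ win b0 k, inn Q x ≤ (Ω ∩ win b0 k).card * k :=
      sum_le_card_nsmul _ _ k fun x _ => qi x
    have e4 : ∑ x ∈ (win b0 k)ᶜ, inn Q x ≤ farI k M b0 := by
      rw [farI, wsum, sum_comm]
      refine le_trans (sum_le_sum fun x hx => ?_) (sum_le_sum_of_subset (subset_univ _))
      by_cases hxI : x ∈ I
      · rw [(q3 x (by simpa using hxI)).2]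
        refine sum_le_sum fun u _ => ?_
        by_cases hu : u ∈ I
        · rw [zMO u x hu hxI]; exact Nat.zero_le _
        · rw [eMO u x fun h => hu h.1, if_pos, mul_one]
          rw [mem_compl, mem_win] at hx
          rw [mI] at hu hxI
          have h1 := lam_coord p b0 x
          have h2 := lam_coord p b0 u
          have h3 := lam_lt p u
          omega
      · refine (sum_eq_zero fun u _ => ?_).trans_le (Nat.zero_le _)
        by_contra h0
        exact (q2 u x h0).2 (mem_compl.2 hxI)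
    omega
  have sT : T.card * (49 * k) ≤ 100 * ∑ y ∈ T, out Q y + T.card * 100 := by
    rw [mul_sum, ← smul_eq_mul, ← smul_eq_mul T.card, ← sum_const, ← sum_const, ← sum_add_distrib]
    exact sum_le_sum oT
  have sz : k ^ 2 ≤ 5 * size D := by
    have h1 := hf b0 hb0
    have h2 := Nat.mul_le_mul_right k (hh b0)
    obtain ⟨j, rfl⟩ : ∃ j, k = j + 1000 := ⟨k - 1000, by omega⟩
    have h3 := Nat.mul_le_mul_right (49 * j + 48900) cT
    nlinarith only [sD, sT, h1, h2, h3]
  obtain ⟨Br, b1, b2, b3⟩ := pick D k (k / 4 / 10)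
    (fun v => ⟨(out_mono lD v).trans (qo v), (inn_mono lD v).trans (qi v)⟩) m (by
      have h1 : (4 * (k / 4)) ^ 2 ≤ k ^ 2 := Nat.pow_le_pow_left (by omega) 2
      have h2 : 1280 * m ≤ size D := by linarith only [hm, sz, h1]
      have h3 : 2 * k ≤ 100 * (k / 4 / 10) := by omega
      have h4 := Nat.mul_le_mul_left m h3
      have h5 := Nat.mul_le_mul_left (k / 4 / 10) h2
      nlinarith only [h4, h5]) (by omega)
  obtain ⟨R, hR⟩ := le_iff_add.1 (b1.trans lD)
  have eQ : res M I + Br + R = Q + res M I := by rw [hR]; abel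
  refine ⟨Br, R, ?_, fun a ha => ?_, b2, fun v => ?_, fun y x h => ?_⟩
  · rw [eQ]
    have := q1.add_right (res M I)
    rwa [← hMO] at this
  · rw [eQ, out_add, (q3 a (by simpa using ha)).1, ← out_add, ← hMO]
  · have := b3 v
    omega
  · have h1 := ne_of_le b1 h
    rw [hD] at h1
    dsimp only at h1
    split_ifs at h1 with h2
    · obtain ⟨h3, h4⟩ := h2
      rw [mem_sdiff, mem_win] at h4
      have h5 := mT y h3
      have h6 := lam_coord p b0 x
      exact ⟨h5.1, h4.2, mem_seg.2 (by omega), mem_seg.2 (by omega)⟩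
    · exact absurd rfl h1

end Pool.Agent.MP_2634a8_co.X.SEAM
end

section
namespace Pool.Agent.MP_2634a8_co.X.SEAM

open Finset

namespace LAD

section gen
variable {V : Type} [Fintype V] [DecidableEq V]

/-- the arcs of `L` are realised through the arcs of `Br`, given the requests `R1` (tail of `L`
to tail of `Br`) and `R2` (head of `Br` to head of `L`) -/
lemma pair (L Br : Mat V) (h : size L = size Br) :
    ∃ R1 R2 : Mat V, Rt (R1 + Br + R2) L ∧ size R1 = size L ∧ size R2 = size L ∧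
      (∀ v, out R1 v = out L v ∧ inn R1 v = out Br v ∧ out R2 v = inn Br v ∧
        inn R2 v = inn L v) ∧
      (∀ u v, R1 u v ≠ 0 → (∃ b, L u b ≠ 0) ∧ ∃ x, Br v x ≠ 0) ∧
      (∀ u v, R2 u v ≠ 0 → (∃ y, Br y u ≠ 0) ∧ ∃ a, L a v ≠ 0) := by
  obtain ⟨a, b, e1⟩ := enum _ L rfl
  obtain ⟨y, x, e2⟩ := enum _ Br h.symm
  refine ⟨∑ i, E (a i) (y i), ∑ i, E (x i) (b i), ?_, ?_, ?_, fun v => ?_, fun u v hv => ?_,
    fun u v hv => ?_⟩
  · have := Rt.sum univ (fun i _ => Rt.short3 (a i) (y i) (x i) (b i))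
    rw [sum_add_distrib, sum_add_distrib, ← e1, ← e2] at this
    exact this
  · simp only [size_sum, size_E, sum_const, card_univ, Fintype.card_fin, smul_eq_mul, mul_one]
  · simp only [size_sum, size_E, sum_const, card_univ, Fintype.card_fin, smul_eq_mul, mul_one]
  · have f1 := congrArg (fun M => out M v) e1
    have f2 := congrArg (fun M => inn M v) e1
    have f3 := congrArg (fun M => out M v) e2
    have f4 := congrArg (fun M => inn M v) e2
    simp only [out_sum, inn_sum, out_E, inn_E] at f1 f2 f3 f4 ⊢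
    exact ⟨f1.symm, f3.symm, f4.symm, f2.symm⟩
  · obtain ⟨i, -, rfl, rfl⟩ := sum_E_ne_zero.1 hv
    exact ⟨⟨b i, by rw [e1]; exact sum_E_ne_zero.2 ⟨i, mem_univ _, rfl, rfl⟩⟩,
      ⟨x i, by rw [e2]; exact sum_E_ne_zero.2 ⟨i, mem_univ _, rfl, rfl⟩⟩⟩
  · obtain ⟨i, -, rfl, rfl⟩ := sum_E_ne_zero.1 hv
    exact ⟨⟨y i, by rw [e2]; exact sum_E_ne_zero.2 ⟨i, mem_univ _, rfl, rfl⟩⟩,
      ⟨a i, by rw [e1]; exact sum_E_ne_zero.2 ⟨i, mem_univ _, rfl, rfl⟩⟩⟩

omit [DecidableEq V] in
lemma out_eq_zero {M : Mat V} {u : V} (h : ∀ v, M u v = 0) : out M u = 0 :=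
  sum_eq_zero fun v _ => h v

omit [DecidableEq V] in
lemma inn_eq_zero {M : Mat V} {v : V} (h : ∀ u, M u v = 0) : inn M v = 0 :=
  sum_eq_zero fun u _ => h u

end gen

variable {n : ℕ} [NeZero n]

/-- coordinates along a forward request -/
lemma coord (p : ZMod n) {x y u v : ZMod n} (hxy : lam p x ≤ lam p y)
    (h : lam x u + lam u v ≤ lam x y) :
    lam p x ≤ lam p u ∧ lam p u + lam u v = lam p v ∧ lam p v ≤ lam p y := by
  have h1 := lam_coord p x y
  have h2 := lam_coord p x u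
  have h3 := lam_coord p u v
  have h4 := lam_lt p y
  omega

lemma cnt_out (Ω : Finset (ZMod n)) (v : ZMod n) {k : ℕ} (hk : k < n) :
    ((Icc 1 k).filter fun d : ℕ => v + d ∈ Ω).card ≤ (Ω ∩ win (v + 1) k).card := by
  refine card_le_card_of_injOn (fun d : ℕ => v + d) (fun d hd => ?_) (fun d hd e he h => ?_)
  · simp only [coe_filter, mem_Icc, Set.mem_setOf_eq] at hd
    obtain ⟨⟨h1, h2⟩, h3⟩ := hd
    obtain ⟨e, rfl⟩ : ∃ e, d = e + 1 := ⟨d - 1, by omega⟩
    refine mem_coe.2 (mem_inter.2 ⟨h3, mem_win.2 ?_⟩)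
    have : v + ((e + 1 : ℕ) : ZMod n) = v + 1 + (e : ℕ) := by push_cast; ring
    show lam (v + 1) (v + ((e + 1 : ℕ) : ZMod n)) < k
    rw [this, lam_add_nat _ (by omega)]
    omega
  · simp only [coe_filter, mem_Icc, Set.mem_setOf_eq] at hd he
    have h' : v + (d : ZMod n) = v + (e : ZMod n) := h
    rw [← lam_add_nat v (d := d) (by omega), h', lam_add_nat v (by omega)]

lemma cnt_in (Ω : Finset (ZMod n)) (v : ZMod n) {k : ℕ} (hk : k < n) :
    ((Icc 1 k).filter fun d : ℕ => v - d ∈ Ω).card ≤ (Ω ∩ win (v - k) k).card := by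
  refine card_le_card_of_injOn (fun d : ℕ => v - d) (fun d hd => ?_) (fun d hd e he h => ?_)
  · simp only [coe_filter, mem_Icc, Set.mem_setOf_eq] at hd
    obtain ⟨⟨h1, h2⟩, h3⟩ := hd
    obtain ⟨e, rfl⟩ : ∃ e, k = e + d := ⟨k - d, by omega⟩
    refine mem_coe.2 (mem_inter.2 ⟨h3, mem_win.2 ?_⟩)
    have : v - (d : ZMod n) = v - ((e + d : ℕ) : ZMod n) + (e : ℕ) := by push_cast; ring
    show lam (v - ((e + d : ℕ) : ZMod n)) (v - (d : ZMod n)) < e + d
    rw [this, lam_add_nat _ (by omega)]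
    omega
  · simp only [coe_filter, mem_Icc, Set.mem_setOf_eq] at hd he
    have h' : v - (d : ZMod n) = v - (e : ZMod n) := h
    rw [← lam_sub_nat v (d := d) (by omega), h', lam_sub_nat v (by omega)]

lemma hop (M : Mat (ZMod n)) (Ω I : Finset (ZMod n)) {k : ℕ} (hk : k < n) (hk4 : 4 ≤ k)
    (v : ZMod n) (h1 : v ∈ I → 100 * mo M 1 k v ≤ k ∧ 100 * mi M 1 k v ≤ k)
    (h2 : ∀ a, 100 * (Ω ∩ win a k).card ≤ k) :
    10 * ((Icc (2 * (k / 4)) (4 * (k / 4))).filter fun d : ℕ =>
      decide (v ∈ I ∧ v + d ∈ I) = true ∧ (res M I v (v + d) = 0 ∨ v + d ∈ Ω)).card ≤ k / 5 ∧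
    10 * ((Icc (2 * (k / 4)) (4 * (k / 4))).filter fun d : ℕ =>
      decide (v - d ∈ I ∧ v ∈ I) = true ∧ (res M I (v - d) v = 0 ∨ v - d ∈ Ω)).card ≤ k / 5 := by
  by_cases hv : v ∈ I
  · obtain ⟨a1, a2⟩ := h1 hv
    have b1 := cnt_out Ω v hk
    have b2 := cnt_in Ω v hk
    have c1 := h2 (v + 1)
    have c2 := h2 (v - k)
    have e1 : ((Icc (2 * (k / 4)) (4 * (k / 4))).filter fun d : ℕ =>
        decide (v ∈ I ∧ v + d ∈ I) = true ∧ (res M I v (v + d) = 0 ∨ v + d ∈ Ω)).card ≤
        mo M 1 k v + ((Icc 1 k).filter fun d : ℕ => v + d ∈ Ω).card := by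
      refine le_trans (card_le_card fun d hd => ?_) (card_union_le _ _)
      simp only [mem_filter, mem_Icc, mem_union, decide_eq_true_eq] at hd ⊢
      obtain ⟨⟨d1, d2⟩, d3, d4⟩ := hd
      rcases d4 with d4 | d4
      · exact Or.inl ⟨⟨by omega, by omega⟩, by simpa [res, d3] using d4⟩
      · exact Or.inr ⟨⟨by omega, by omega⟩, d4⟩
    have e2 : ((Icc (2 * (k / 4)) (4 * (k / 4))).filter fun d : ℕ =>
        decide (v - d ∈ I ∧ v ∈ I) = true ∧ (res M I (v - d) v = 0 ∨ v - d ∈ Ω)).card ≤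
        mi M 1 k v + ((Icc 1 k).filter fun d : ℕ => v - d ∈ Ω).card := by
      refine le_trans (card_le_card fun d hd => ?_) (card_union_le _ _)
      simp only [mem_filter, mem_Icc, mem_union, decide_eq_true_eq] at hd ⊢
      obtain ⟨⟨d1, d2⟩, d3, d4⟩ := hd
      rcases d4 with d4 | d4
      · exact Or.inl ⟨⟨by omega, by omega⟩, by simpa [res, d3] using d4⟩
      · exact Or.inr ⟨⟨by omega, by omega⟩, d4⟩
    omega
  · simp [hv]

end LAD

open LAD in
theorem ladder (hb : BRI_s) (hg : GC_s) : LAD_s := by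
  intro k n _ M L Ω p n1 hk hk1 hn hS hB hd ht hΩ hf hL hl hs
  obtain ⟨Br, R, r1, r2, r3, r4, r5⟩ := hb k n M Ω p n1 (size L) hk hn hS hB hd
    (fun v hv hv' => (ht v hv hv').1) hΩ hf hs
  obtain ⟨R1, R2, q1, q2, q3, q4, q5, q6⟩ := pair L Br r3.symm
  simp only [mem_seg] at hL r5
  set I := seg p (3 * k) (n1 + 11 * k) with hI
  have hw : 4 * (k / 4) ≤ k := by omega
  -- the two kinds of requests
  have key : ∀ x y, (R1 + R2) x y ≠ 0 → x ∉ Ω ∧ y ∉ Ω ∧
      ((7 * k + n1 - k / 4 ≤ lam p x ∧ lam p x < 7 * k + n1 ∧ n1 + 10 * k ≤ lam p y ∧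
        lam p y < n1 + 11 * k) ∨
       (3 * k ≤ lam p x ∧ lam p x < 4 * k ∧ 7 * k ≤ lam p y ∧ lam p y < 7 * k + k / 4)) := by
    intro x y h
    by_cases h1 : R1 x y = 0
    · have h2 : R2 x y ≠ 0 := by simpa [h1] using h
      obtain ⟨⟨y', hy⟩, ⟨a, ha⟩⟩ := q6 x y h2
      have := r5 _ _ hy
      have := hL _ _ ha
      tauto
    · obtain ⟨⟨b, hb⟩, ⟨x', hx⟩⟩ := q5 x y h1
      have := r5 _ _ hx
      have := hL _ _ hb
      tauto
  have zL : ∀ v, ¬ (7 * k + n1 - k / 4 ≤ lam p v ∧ lam p v < 7 * k + n1) → out L v = 0 :=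
    fun v h => out_eq_zero fun b => by_contra fun hb => h (hL _ _ hb).2.2.1
  have zL' : ∀ v, ¬ (7 * k ≤ lam p v ∧ lam p v < 7 * k + k / 4) → inn L v = 0 :=
    fun v h => inn_eq_zero fun b => by_contra fun hb => h (hL _ _ hb).2.2.2
  have zB : ∀ v, ¬ (n1 + 10 * k ≤ lam p v ∧ lam p v < n1 + 11 * k) → out Br v = 0 :=
    fun v h => out_eq_zero fun b => by_contra fun hb => h (r5 _ _ hb).2.2.1
  have zB' : ∀ v, ¬ (3 * k ≤ lam p v ∧ lam p v < 4 * k) → inn Br v = 0 :=
    fun v h => inn_eq_zero fun b => by_contra fun hb => h (r5 _ _ hb).2.2.2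
  obtain ⟨P, p1, p2, -, -, p5, -⟩ := hg n (res M I) (R1 + R2) Ω
    (fun u v => decide (u ∈ I ∧ v ∈ I)) (k / 4) (by omega)
    (fun u v => (res_le M I u v).trans (hS.1 u v))
    (fun v hv => by
      have := hop M Ω I (k := k) (by omega) (by omega) v (fun h => ht v h hv) hΩ
      exact ⟨this.1.trans (by omega), this.2.trans (by omega)⟩)
    (fun x y h => by
      obtain ⟨k1, k2, k3⟩ := key x y h
      have c1 := lam_coord p x y
      refine ⟨k1, k2, by omega, fun u v huv => ?_⟩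
      have c2 := coord p (x := x) (y := y) (by omega) huv
      simp only [hI, mem_seg, decide_eq_true_eq]
      omega)
    (fun v => by
      have a1 := hl v
      have a2 := r4 v
      have a3 := q4 v
      have a4 := zL v
      have a5 := zL' v
      have a6 := zB v
      have a7 := zB' v
      rw [out_add, inn_add]
      omega)
    (by rw [size_add]; omega)
  obtain ⟨K, hK⟩ := le_iff_add.1 p1
  have arc : ∀ u v, P u v ≠ 0 → (7 * k + n1 - k / 4 ≤ lam p u ∧ 7 * k + n1 ≤ lam p v) ∨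
      (lam p u < 7 * k ∧ lam p v < 7 * k + k / 4) := fun u v h => by
    obtain ⟨l1, -, x, y, hxy, huv⟩ := p5 u v h
    obtain ⟨-, -, k3⟩ := key x y hxy
    have c2 := coord p (x := x) (y := y) (by omega) huv
    omega
  refine ⟨K + R, ?_, fun u v => ?_, fun a ha => ?_⟩
  · refine r1.trans ?_
    have e1 : res M I + Br + R = P + (K + Br + R) := by rw [hK]; abel
    have e2 : R1 + R2 + (K + Br + R) = R1 + Br + R2 + (K + R) := by abel
    rw [e1]
    refine (p2.add_right _).trans ?_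
    rw [e2]
    exact q1.add_right _
  · by_cases h : u ∈ seg p (7 * k) (7 * k + n1) ∧ v ∈ seg p (7 * k) (7 * k + n1)
    · have h0 : res M (seg p (7 * k) (7 * k + n1)) u v = M u v := if_pos h
      simp only [mem_seg] at h
      have h1 : res M I u v = M u v := if_pos (by simp only [hI, mem_seg]; omega)
      have h2 : P u v = 0 := by_contra fun h2 => by have := arc u v h2; omega
      have h3 : res M I u v = K u v + P u v := by rw [hK]; rfl
      show _ ≤ K u v + R u v
      omega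
    · have h0 : res M (seg p (7 * k) (7 * k + n1)) u v = 0 := if_neg h
      rw [h0]
      exact Nat.zero_le _
  · rw [mem_seg] at ha
    have a0 := r2 a (by simp only [hI, mem_seg]; omega)
    have a1 := p2.bal a
    have a3 := q4 a
    have a4 := zL a
    have a5 := zL' a
    have a6 := zB a
    have a7 := zB' a
    have a8 : 7 * k + n1 - k / 4 ≤ lam p a → inn P a = 0 := fun h =>
      inn_eq_zero fun u => by_contra fun hu => by have := arc u a hu; omega
    have a9 : lam p a < 7 * k + n1 - k / 4 → out P a = 0 := fun h =>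
      out_eq_zero fun u => by_contra fun hu => by have := arc a u hu; omega
    rw [hK] at a0
    simp only [out_add, inn_add] at a0 a1 ⊢
    omega

end Pool.Agent.MP_2634a8_co.X.SEAM
end

section
namespace Pool.Agent.MP_2634a8_co.X.SEAM

open Finset

namespace PB

variable {n n1 : ℕ} [NeZero n] [NeZero n1]

omit [NeZero n] [NeZero n1] in
lemma emb_eq (p : ZMod n) (k : ℕ) (i : ZMod n1) :
    emb p k n1 i = Tr.phi (p + ((7 * k : ℕ) : ZMod n)) i := by
  unfold emb Tr.phi
  push_cast; ring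

omit [NeZero n] [NeZero n1] in
lemma pull_eq (p : ZMod n) (k : ℕ) (M : Mat (ZMod n)) :
    pull p k n1 M = Tr.pull (p + ((7 * k : ℕ) : ZMod n)) M := by
  funext u v
  unfold pull Tr.pull
  rw [emb_eq, emb_eq]

/-- ballot inequality on the contracted circle -/
lemma bal5 (h : n1 ≤ n) (q : ZMod n) {M : Mat (ZMod n)} (ho : LocOpt M) (v : ZMod n1) {j : ℕ}
    (hj : j < n1) : ∑ y ∈ win (v + 1) j, Tr.pull q M y v + out (Tr.pull q M) v ≤
      ∑ x ∈ win (v + 1) j, Tr.pull q M v x + out M (Tr.phi q v) := by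
  have hv := ZMod.val_lt v
  obtain ⟨j', hj', hm⟩ : ∃ j', j' < n ∧ ∀ y : ZMod n1,
      Tr.phi q y ∈ win (Tr.phi q v + 1) j' ↔ y ∈ win (v + 1) j := by
    refine ⟨if v.val + j < n1 then j else j + (n - n1), by split_ifs <;> omega, fun y => ?_⟩
    rw [mem_win, mem_win]
    have h1 := PREP.lam_tri (v + 1) v y
    have h2 := PREP.lam_succ v
    have h3 := PREP.lam_tri (Tr.phi q v + 1) (Tr.phi q v) (Tr.phi q y)
    have h4 := PREP.lam_succ (Tr.phi q v)
    have h5 := Tr.lam_pp h q v y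
    have h6 := Tr.lam_v v y
    have h7 := ZMod.val_lt y
    have h8 := lam_lt (v + 1) y
    have h9 := lam_lt (Tr.phi q v + 1) (Tr.phi q y)
    split_ifs <;> omega
  have h1 := PREP.ballot (M := M) (v := Tr.phi q v) hj' (ho _ _ hj')
  set W := win (Tr.phi q v + 1) j' with hW
  have e : ∀ (S : Finset (ZMod n)) (f : ZMod n → ℕ), ∑ y ∈ S, f y = ∑ y, if y ∈ S then f y else 0 :=
    fun S f => by rw [← sum_filter, filter_mem_eq_inter, univ_inter]
  have e' : ∀ f : ZMod n1 → ℕ, ∑ y ∈ win (v + 1) j, f y =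
      ∑ y, if Tr.phi q y ∈ W then f y else 0 := fun f => by
    simp only [hm]
    rw [← sum_filter, filter_mem_eq_inter, univ_inter]
  have h2 := Tr.sum_phi_le h q fun y => if y ∈ W then M y (Tr.phi q v) else 0
  have h3 := Tr.sum_phi_le h q fun y => if y ∈ W then 0 else M (Tr.phi q v) y
  have h4 : ∑ y, (if y ∈ W then M (Tr.phi q v) y else 0) +
      ∑ y, (if y ∈ W then 0 else M (Tr.phi q v) y) = out M (Tr.phi q v) := by
    rw [← sum_add_distrib]
    exact sum_congr rfl fun y _ => by split_ifs <;> omega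
  have h5 : ∑ y, (if Tr.phi q y ∈ W then Tr.pull q M v y else 0) +
      ∑ y : ZMod n1, (if Tr.phi q y ∈ W then 0 else M (Tr.phi q v) (Tr.phi q y)) =
      out (Tr.pull q M) v := by
    rw [← sum_add_distrib]
    exact sum_congr rfl fun y _ => by unfold Tr.pull; split_ifs <;> omega
  rw [e W, e W] at h1
  rw [e', e']
  have h6 : ∑ y, (if Tr.phi q y ∈ W then Tr.pull q M y v else 0) =
      ∑ y : ZMod n1, (if Tr.phi q y ∈ W then M (Tr.phi q y) (Tr.phi q v) else 0) := rfl
  omega

end PB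

theorem pb : PB_s := by
  intro e k n _ M p n1 _ he hk hn1 hn hs ho hl
  have h : n1 ≤ n := by omega
  simp only [PB.pull_eq, PB.emb_eq]
  set q := p + ((7 * k : ℕ) : ZMod n) with hq
  have c0 : lam p q = 7 * k := lam_add_nat p (by omega)
  have c1 : ∀ a : ZMod n1, lam p (Tr.phi q a) = 7 * k + a.val := fun a => by
    rw [← PB.emb_eq]; exact lam_emb (by omega) a
  have hw : ∀ v, wt true k (Tr.pull q M) v ≤ wt false k M (Tr.phi (n1 := n1) q v) := fun v => by
    have := Tr.wt_le (G := Tr.pull q M) (R := 0) h (show k < n1 by omega) le_rfl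
      (by rw [add_zero]) v
    simpa [out_zero, inn_zero] using this
  refine ⟨⟨Tr.simple_pull q hs, fun a => ?_, fun a => ?_, fun t => ?_,
    fun a m _ hm => Tr.opt_lin h q a hm (ho _ _ (by omega)), fun v j hj => PB.bal5 h q ho v hj⟩,
    hw, ?_⟩
  · have ha := ZMod.val_lt a
    have h1 := (sum_le_sum fun v (_ : v ∈ win a k) => hw v).trans
      (Tr.sum_win_le h q a (wt false k M))
    have h2 : (∑ v ∈ win a k, (wt true k (Tr.pull q M) v : ℝ)) ≤
        ∑ v ∈ win (Tr.phi q a) k, (wt false k M v : ℝ) + ∑ v ∈ win q k, (wt false k M v : ℝ) := by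
      exact_mod_cast h1
    have h3 := hl.hwt (Tr.phi q a) (by rw [c1]; omega) (by rw [c1]; omega)
    have h4 := hl.hwt q (by omega) (by omega)
    linarith only [h2, h3, h4]
  · have ha := ZMod.val_lt a
    have h1 := Tr.mis_le (k := k) (G := Tr.pull q M) (R := 0) h (by rw [add_zero]) a
    rw [size_zero, add_zero] at h1
    have h2 : (mis true k (Tr.pull q M) a : ℝ) ≤
        mis false k M (Tr.phi q a) + mis false k M q := by exact_mod_cast h1
    have h3 := hl.hmis (Tr.phi q a) (by rw [c1]; omega)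
    have h4 := hl.hmis q (by omega)
    linarith only [h2, h3, h4]
  · have ht := ZMod.val_lt t
    have h1 : (far k (Tr.pull q M) t : ℝ) ≤ far k M (Tr.phi q t) := by
      exact_mod_cast Tr.far_le h le_rfl t
    have h3 := hl.hfar (Tr.phi q t) (by rw [c1]; omega) (by rw [c1]; omega)
    have h4 : (0 : ℝ) ≤ e * k ^ 2 := by positivity
    linarith only [h1, h3]
  · rw [Tr.sum_phi h q fun v => k - out M v]
    refine sum_le_sum_of_subset fun v hv => ?_
    rw [mem_win] at hv ⊢
    have := PREP.lam_tri p q v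
    omega

end Pool.Agent.MP_2634a8_co.X.SEAM
end

section
namespace Pool.Agent.MP_2634a8_co.X.SEAM

open Finset

namespace CON

variable {V W : Type} [Fintype V] [DecidableEq V] [Fintype W] {φ : W → V}

omit [Fintype V] in
lemma fib (h : Function.Injective φ) (a : W) : univ.filter (fun x => φ x = φ a) = {a} := by
  ext x; simp only [h.eq_iff, mem_filter, mem_univ, true_and, mem_singleton]

omit [Fintype V] in
lemma push_pull (h : Function.Injective φ) {K : Mat V}
    (hK : ∀ u v, K u v ≠ 0 → (∃ a, φ a = u) ∧ ∃ b, φ b = v) :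
    pushM φ (fun a b => K (φ a) (φ b)) = K := by
  funext u v
  by_cases h0 : (∃ a, φ a = u) ∧ ∃ b, φ b = v
  · obtain ⟨⟨a, rfl⟩, b, rfl⟩ := h0
    simp only [pushM, fib h, sum_singleton]
  · rw [not_not.1 (mt (hK u v) h0)]
    refine sum_eq_zero fun a ha => sum_eq_zero fun b hb => absurd ?_ h0
    exact ⟨⟨a, (mem_filter.1 ha).2⟩, b, (mem_filter.1 hb).2⟩

lemma wsum_push (D : Mat W) (f : V → V → ℕ) :
    wsum (pushM φ D) f = wsum D fun a b => f (φ a) (φ b) := by
  unfold wsum pushM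
  rw [← sum_fiberwise univ φ fun a => ∑ b, D a b * f (φ a) (φ b)]
  refine sum_congr rfl fun u _ => ?_
  simp only [sum_mul]
  rw [sum_comm]
  refine sum_congr rfl fun a ha => ?_
  rw [← sum_fiberwise univ φ fun b => D a b * f (φ a) (φ b)]
  refine sum_congr rfl fun v _ => sum_congr rfl fun b hb => ?_
  rw [(mem_filter.1 ha).2, (mem_filter.1 hb).2]

omit [Fintype W] in
lemma sum_bd (h : Function.Injective φ) (M : Mat V) (F : Finset W) (S0 T : Finset V)
    (q : W → ℕ) (c : V → V → ℕ) (k : ℕ) (hk : ∀ x, inn M x ≤ k)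
    (hq : ∀ a ∈ F, q a = 0 ∨ (φ a ∈ S0 ∧ q a + out (res M S0) (φ a) ≤ out M (φ a)))
    (hc : ∀ a ∈ F, ∀ x, x ∉ S0 → x ∈ T ∨ c (φ a) x = 1) :
    ∑ a ∈ F, q a ≤ wsum M c + k * T.card := by
  have h1 : ∀ a ∈ F, q a ≤ ∑ x, M (φ a) x * (c (φ a) x + if x ∈ T then 1 else 0) := by
    intro a ha
    rcases hq a ha with h0 | ⟨h0, h1⟩
    · omega
    have : out M (φ a) ≤ ∑ x, M (φ a) x * (c (φ a) x + if x ∈ T then 1 else 0) +
        out (res M S0) (φ a) := by
      rw [out, out, ← sum_add_distrib]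
      refine sum_le_sum fun x _ => ?_
      by_cases hx : x ∈ S0
      · simp [res, h0, hx]
      · refine le_trans (Nat.le_mul_of_pos_right _ ?_) (Nat.le_add_right _ _)
        rcases hc a ha x hx with h2 | h2 <;> simp [h2]
    omega
  refine (sum_le_sum h1).trans ?_
  rw [← sum_image (s := F) (g := φ)
    (f := fun u => ∑ x, M u x * (c u x + if x ∈ T then 1 else 0)) fun _ _ _ _ e => h e]
  refine (sum_le_sum_of_subset (subset_univ _)).trans ?_
  have e := wsum_fadd M c fun _ x => if x ∈ T then 1 else 0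
  rw [wsum_head] at e
  refine (le_of_eq e).trans (Nat.add_le_add_left ?_ _)
  simp only [mul_ite, mul_one, mul_zero, sum_ite_mem, univ_inter]
  rw [mul_comm]
  exact sum_le_card_nsmul _ _ _ fun x _ => hk x

end CON

open CON in
theorem con : CON_s := by
  intro k n _ M N p n1 _ Ld W y hn hb hk hL hR hN ho hf hfI
  have h7 : 7 * k + n1 ≤ n := by omega
  have hi : Function.Injective (emb p k n1) := emb_inj h7
  set φ := emb p k n1 with hφ
  set S0 := Wᶜ.image φ with hS0
  have m0 : ∀ a, φ a ∈ S0 ↔ a ∉ W := fun a => by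
    rw [hS0, hi.mem_finset_image, mem_compl]
  have m1 : ∀ u ∈ S0, ∃ a, φ a = u := fun u hu => by
    obtain ⟨a, -, h⟩ := mem_image.1 hu; exact ⟨a, h⟩
  have hsub : S0 ⊆ seg p (7 * k) (7 * k + n1) := fun u hu => by
    obtain ⟨a, rfl⟩ := m1 u hu; exact emb_mem h7 a
  obtain ⟨NU, rfl⟩ := le_iff_add.1 (((res_res M hsub).symm.le.trans (res_le _ _)).trans hN)
  have oP : ∀ D a, out (pushM φ D) (φ a) = out D a := fun D a => by
    rw [out_pushM, fib hi, sum_singleton]
  have iP : ∀ D a, inn (pushM φ D) (φ a) = inn D a := fun D a => by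
    rw [inn_pushM, fib hi, sum_singleton]
  have hT := hR.bal_iff.1 hb
  obtain ⟨Q', q1, q2, q3⟩ := fd _ NU S0ᶜ (by
    intro u hu
    have hu' := mem_compl.1 hu
    have e1 : out (pushM φ Ld) u = 0 := by
      rw [out_pushM]
      refine sum_eq_zero fun a ha => sum_eq_zero fun b _ => ?_
      by_contra hc
      exact hu' ((mem_filter.1 ha).2 ▸ (m0 a).2 (hL a b hc).1)
    have e2 : inn (pushM φ Ld) u = 0 := by
      rw [inn_pushM]
      refine sum_eq_zero fun a ha => sum_eq_zero fun b _ => ?_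
      by_contra hc
      exact hu' ((mem_filter.1 ha).2 ▸ (m0 a).2 (hL b a hc).2)
    have e3 : out (res M S0) u = 0 := by simp [out, res, hu']
    have e4 : inn (res M S0) u = 0 := by simp [inn, res, hu']
    have := hT u
    simp only [out_add, inn_add] at this
    omega)
  simp only [mem_compl, not_not] at q2 q3
  have hQ : pushM φ (pull p k n1 Q') = Q' :=
    push_pull hi fun u v h => ⟨m1 u (q2 u v h).1, m1 v (q2 u v h).2⟩
  have hA : pushM φ (res (pull p k n1 M) Wᶜ) = res M S0 := by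
    rw [← push_pull hi (K := res M S0) fun u v h =>
      ⟨m1 u (res_ne.1 h).1, m1 v (res_ne.1 h).2.1⟩]
    congr 1
    funext a b
    simp only [res, pull, m0, mem_compl, hφ.symm]
  have hZ : Rt M (pushM φ (res (pull p k n1 M) Wᶜ + Ld + pull p k n1 Q')) := by
    rw [pushM_add, pushM_add, hQ, hA, add_right_comm, add_comm, add_comm (res M S0)]
    exact hR.trans ((q1.add_right _).add_left _)
  have hZb : Bal (res (pull p k n1 M) Wᶜ + Ld + pull p k n1 Q') := fun a => by
    rw [← oP, ← iP]; exact hZ.bal_iff.1 hb _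
  have hoff : Off (pull p k n1 Q') W := fun a b h =>
    ⟨(m0 a).1 (q2 _ _ h).1, (m0 b).1 (q2 _ _ h).2⟩
  have lc : ∀ a, lam p (φ a) = 7 * k + a.val := lam_emb h7
  have n1p := NeZero.pos n1
  have ex : ∀ j, j < n → ∃ t, lam p t = j := fun j hj => ⟨_, lam_add_nat p hj⟩
  have hc : ∀ x, x ∉ S0 → x ∈ W.image φ ∨ lam p x < 7 * k ∨ 7 * k + n1 ≤ lam p x := by
    intro x hx
    by_cases h : x ∈ seg p (7 * k) (7 * k + n1)
    · obtain ⟨a, rfl⟩ := emb_surj h7 h
      exact Or.inl (mem_image_of_mem _ (not_not.1 (mt (m0 a).2 hx)))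
    · rw [mem_seg] at h; omega
  have key : ∀ a ∉ W, out (pull p k n1 Q') a + out (res M S0) (φ a) + out Ld a = out M (φ a) ∧
      inn (pull p k n1 Q') a + inn (res M S0) (φ a) + inn Ld a = inn M (φ a) := by
    intro a ha
    have e1 := ho _ (emb_mem h7 a)
    have e2 := hR.bal (φ a)
    have e3 := q3 _ ((m0 a).2 ha)
    rw [← oP (pull p k n1 Q'), ← iP (pull p k n1 Q'), hQ]
    simp only [out_add, inn_add, oP, iP, ← hφ] at e1 e2
    omega
  refine ⟨pull p k n1 Q', hoff, hZb, fun t ht => hZ.pack' (pack_pushM φ t _ ht), fun a ha => ?_,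
    ?_, ?_, ?_⟩
  · have := (key a ha).1
    rw [out_add, out_add, ← oP (res _ _), hA]
    omega
  · have e := hZ.sub _ (subAdd_crs (φ 0))
    rw [wsum_push, wsum_congr (g := crs 0) fun u v _ => by
      have a1 := lam_coord p (φ u) (φ 0)
      have a2 := lam_coord p (φ u) (φ v)
      have a3 := lam_val u 0
      have a4 := lam_val u v
      have := ZMod.val_lt u; have := ZMod.val_lt v; have := ZMod.val_lt (0 : ZMod n1)
      simp only [lc] at a1 a2
      unfold crs
      split_ifs <;> omega] at e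
    rw [Lam_bal hZb 0, Lam_bal hb (φ 0), mul_left_comm]
    exact Nat.mul_le_mul_left _ (Nat.mul_le_mul_left _ e)
  · obtain ⟨t, ht⟩ := ex (7 * k + n1 - 1) (by omega)
    refine (sum_bd hi M _ S0 (W.image φ) _ _ k (fun x => hb x ▸ hk x) (fun a _ => ?_)
      fun a ha x hx => ?_).trans (Nat.add_le_add (hf t (by omega))
        (Nat.mul_le_mul_left _ card_image_le))
    · by_cases ha : a ∈ W
      · exact Or.inl (sum_eq_zero fun b _ => not_not.1 fun h => (hoff a b h).1 ha)
      · exact Or.inr ⟨(m0 a).2 ha, by have := (key a ha).1; omega⟩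
    · refine (hc x hx).imp_right fun h => if_pos ?_
      have a1 := lam_coord p (φ a) t
      have a2 := lam_coord p (φ a) x
      have := (mem_filter.1 ha).2
      simp only [lc] at a1 a2
      omega
  · obtain ⟨t, ht⟩ := ex (7 * k) (by omega)
    have e : wsum (fun u v => M v u) (fun v u => if k ≤ lam t v ∧ lam t v < lam t u then 1 else 0)
      = farI k M t := sum_comm
    refine (sum_bd hi (fun u v => M v u) _ S0 (W.image φ) _ _ k hk (fun a _ => ?_)
      fun a ha x hx => ?_).trans (Nat.add_le_add (e.le.trans (hfI t ht))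
        (Nat.mul_le_mul_left _ card_image_le))
    · by_cases ha : a ∈ W
      · exact Or.inl (sum_eq_zero fun b _ => not_not.1 fun h => (hoff b a h).2 ha)
      · have e1 : out (res (fun u v => M v u) S0) (φ a) = inn (res M S0) (φ a) := by
          simp only [out, inn, res, and_comm]
        have e2 : out (fun u v => M v u) (φ a) = inn M (φ a) := rfl
        exact Or.inr ⟨(m0 a).2 ha, by have := (key a ha).2; omega⟩
    · refine (hc x hx).imp_right fun h => if_pos ?_
      have a1 := lam_coord p t (φ a)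
      have a2 := lam_coord p t x
      have := (mem_filter.1 ha).2
      have := ZMod.val_lt a
      simp only [lc] at a1 a2
      omega

end Pool.Agent.MP_2634a8_co.X.SEAM
end

section
namespace Pool.Agent.MP_2634a8_co.X.SEAM

open Finset

namespace HEA

section gen
variable {V : Type} [Fintype V] [DecidableEq V]

lemma sub_fun (f : V → ℕ) : ∀ c : ℕ, c ≤ ∑ v, f v → ∃ g : V → ℕ, (∀ v, g v ≤ f v) ∧ ∑ v, g v = c
  | 0, _ => ⟨fun _ => 0, fun _ => Nat.zero_le _, by simp only [sum_const_zero]⟩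
  | c + 1, h => by
    obtain ⟨g, h1, h2⟩ := sub_fun f c (by omega)
    obtain ⟨v, -, hv⟩ := exists_lt_of_sum_lt (s := univ) (f := g) (g := f) (by omega)
    refine ⟨fun u => g u + if u = v then 1 else 0, fun u => ?_, ?_⟩
    · have := h1 u
      dsimp only
      split_ifs with h3
      · subst h3
        omega
      · omega
    · rw [sum_add_distrib, h2]
      simp only [sum_ite_eq', mem_univ, ↓ reduceIte, Nat.add_left_cancel_iff]

lemma sub_inn (R : Mat V) (c : V → ℕ) (h : ∀ v, c v ≤ inn R v) :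
    ∃ Z : Mat V, Z ≤ R ∧ ∀ v, inn Z v = c v := by
  choose g h1 h2 using fun v => sub_fun (fun u => R u v) (c v) (h v)
  exact ⟨fun u v => g v u, fun u v => h1 v u, h2⟩

lemma sub_out (R : Mat V) (c : V → ℕ) (h : ∀ v, c v ≤ out R v) :
    ∃ Z : Mat V, Z ≤ R ∧ ∀ v, out Z v = c v := by
  choose g h1 h2 using fun v => sub_fun (fun u => R v u) (c v) (h v)
  exact ⟨g, h1, h2⟩

lemma avail (φ : ℕ → V) (k : ℕ) (hφ : Set.InjOn φ (Icc 1 k : Finset ℕ)) (a r : V → ℕ)
    (S : Finset V) (h : ∀ d ∈ Icc 1 k, a (φ d) ≠ 0 → φ d ∉ S → r (φ d) ≠ 0) :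
    k ≤ ((Icc 1 k).filter fun d : ℕ => a (φ d) = 0).card + ∑ v, r v + S.card := by
  have h1 := card_filter_add_card_filter_not (s := Icc 1 k) (fun d : ℕ => a (φ d) = 0)
  have h2 : ((Icc 1 k).filter fun d : ℕ => ¬ a (φ d) = 0).card ≤
      ((univ.filter fun v => r v ≠ 0) ∪ S).card := by
    apply card_le_card_of_injOn φ
    · intro d hd
      have hd' := mem_filter.1 hd
      by_cases hS : φ d ∈ S
      · exact mem_union_right _ hS
      · exact mem_union_left _ (mem_filter.2 ⟨mem_univ _, h d hd'.1 hd'.2 hS⟩)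
    · exact hφ.mono (by intro d hd; exact (mem_filter.1 hd).1)
  have h3 := card_union_le (univ.filter fun v => r v ≠ 0) S
  have h4 : (univ.filter fun v => r v ≠ 0).card ≤ ∑ v, r v := by
    rw [card_filter]
    exact sum_le_sum fun v _ => by split_ifs <;> omega
  rw [Nat.card_Icc] at h1
  omega

omit [DecidableEq V] in
lemma heavy (g : V → ℕ) (P : V → Prop) [DecidablePred P] (T D : ℕ)
    (h : ∑ v ∈ univ.filter P, g v ≤ D) :
    (univ.filter fun v => P v ∧ T < g v).card * (T + 1) ≤ D := by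
  refine le_trans ?_ h
  refine le_trans ?_ (sum_le_sum_of_subset (s := univ.filter fun v => P v ∧ T < g v) ?_)
  · rw [← smul_eq_mul]
    exact card_nsmul_le_sum _ _ _ fun v hv => (mem_filter.1 hv).2.2
  · intro v hv
    exact mem_filter.2 ⟨mem_univ _, (mem_filter.1 hv).2.1⟩

omit [DecidableEq V] in
lemma out0 {M : Mat V} {u : V} (h : ∀ v, M u v = 0) : out M u = 0 := sum_eq_zero fun v _ => h v

omit [DecidableEq V] in
lemma inn0 {M : Mat V} {v : V} (h : ∀ u, M u v = 0) : inn M v = 0 := sum_eq_zero fun u _ => h u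

omit [DecidableEq V] in
lemma sum_le_two (f : V → ℕ) (H : Finset V) (h1 : ∀ v, f v ≤ 2) (h2 : ∀ v ∉ H, f v = 0) :
    ∑ v, f v ≤ 2 * H.card := by
  rw [← sum_subset (subset_univ H) fun v _ hv => h2 v hv, mul_comm, ← smul_eq_mul]
  exact sum_le_card_nsmul _ _ _ fun v _ => h1 v

omit [DecidableEq V] in
lemma sum_le_k (f : V → ℕ) (H : Finset V) (k : ℕ) (h1 : ∀ v, f v ≤ k) (h2 : ∀ v ∉ H, f v = 0) :
    ∑ v, f v ≤ k * H.card := by
  rw [← sum_subset (subset_univ H) fun v _ hv => h2 v hv, mul_comm, ← smul_eq_mul]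
  exact sum_le_card_nsmul _ _ _ fun v _ => h1 v

lemma core (N R V1 X1 Z : Mat V) (H : Finset V) (hZ : Z ≤ R) (hb : Bal (N + R + V1 + X1))
    (hN : ∀ u ∈ H, out N u = 0 ∧ inn N u = 0)
    (hX : ∀ u ∈ H, out X1 u + out Z u = inn X1 u + inn Z u) :
    ∃ Q : Mat V, Rt (N + R + V1 + X1) (N + Q + (X1 + Z)) ∧ (∀ a b, Q a b ≠ 0 → a ∉ H ∧ b ∉ H) ∧
      ∀ a ∉ H, out Q a + out Z a = out R a + out V1 a ∧
        inn Q a + inn Z a = inn R a + inn V1 a := by
  obtain ⟨R', rfl⟩ := le_iff_add.1 hZ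
  obtain ⟨Q, q1, q2, q3⟩ := fd V (R' + V1) H (by
    intro u hu
    have h1 := hb u
    have h2 := hN u hu
    have h3 := hX u hu
    simp only [out_add, inn_add] at h1 ⊢
    omega)
  refine ⟨Q, ?_, q2, fun a ha => ?_⟩
  · have e : N + (R' + Z) + V1 + X1 = N + (R' + V1) + (X1 + Z) := by abel
    rw [e]
    exact (q1.add_left N).add_right _
  · have := q3 a ha
    simp only [out_add, inn_add] at this ⊢
    omega

end gen

end HEA

open HEA in
theorem hea : HEA_s := by
  intro k n _ A Q W T m D h hk hn hA hQ hb hdeg hm hD1 hD2 hT hm2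
  obtain ⟨V1, hV1⟩ : ∃ V1 : Mat (ZMod n), ∀ u v,
      V1 u v = if n ≤ u.val + k ∧ v.val < k then 0 else Q u v := ⟨_, fun _ _ => rfl⟩
  obtain ⟨X1, hX1⟩ : ∃ X1 : Mat (ZMod n), ∀ u v,
      X1 u v = if n ≤ u.val + k ∧ v.val < k then res A Wᶜ u v + Q u v else 0 :=
    ⟨_, fun _ _ => rfl⟩
  have s1 : ∑ u ∈ univ.filter (fun u : ZMod n => n ≤ u.val + k), out V1 u ≤ D := by
    refine le_trans ?_ hD2
    unfold out inn
    rw [sum_comm (s := univ.filter fun b : ZMod n => k ≤ b.val)]
    refine le_trans (sum_le_sum fun u hu => ?_) (sum_le_sum_of_subset (filter_subset _ univ))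
    rw [sum_filter]
    refine sum_le_sum fun v _ => ?_
    have := (mem_filter.1 hu).2
    rw [hV1]
    split_ifs <;> omega
  have s2 : ∑ v ∈ univ.filter (fun v : ZMod n => v.val < k), inn V1 v ≤ D := by
    refine le_trans ?_ hD1
    unfold out inn
    rw [sum_comm (s := univ.filter fun a : ZMod n => a.val + k < n)]
    refine le_trans (sum_le_sum fun v hv => ?_) (sum_le_sum_of_subset (filter_subset _ univ))
    rw [sum_filter]
    refine sum_le_sum fun u _ => ?_
    have := (mem_filter.1 hv).2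
    rw [hV1]
    split_ifs <;> omega
  have s3 : size V1 ≤ 2 * D := by
    have e := sum_filter_add_sum_filter_not univ (fun u : ZMod n => n ≤ u.val + k) (out V1)
    have e2 : ∑ u ∈ univ.filter (fun u : ZMod n => ¬ n ≤ u.val + k), out V1 u ≤ D := by
      refine le_trans (le_of_eq ?_) hD1
      refine sum_congr (filter_congr fun u _ => by omega) fun u hu => ?_
      have := (mem_filter.1 hu).2
      refine sum_congr rfl fun v _ => ?_
      rw [hV1, if_neg (by omega)]
    unfold size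
    omega
  obtain ⟨Ho, hHo⟩ : ∃ Ho : Finset (ZMod n),
      Ho = univ.filter fun u => n ≤ u.val + k ∧ T < out V1 u := ⟨_, rfl⟩
  obtain ⟨Hi, hHi⟩ : ∃ Hi : Finset (ZMod n),
      Hi = univ.filter fun v => v.val < k ∧ T < inn V1 v := ⟨_, rfl⟩
  have mo' : ∀ u, u ∈ Ho ↔ n ≤ u.val + k ∧ T < out V1 u := fun u => by simp [hHo]
  have mi' : ∀ v, v ∈ Hi ↔ v.val < k ∧ T < inn V1 v := fun v => by simp [hHi]
  have hH : (Ho ∪ Hi).card ≤ h := by
    have a1 := heavy _ _ T D s1
    have a2 := heavy _ _ T D s2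
    rw [← hHo] at a1
    rw [← hHi] at a2
    have a3 := card_union_le Ho Hi
    have a4 : (Ho ∪ Hi).card * (T + 1) ≤ h * (T + 1) := by
      calc (Ho ∪ Hi).card * (T + 1) ≤ (Ho.card + Hi.card) * (T + 1) := Nat.mul_le_mul_right _ a3
        _ ≤ T * h := by rw [add_mul]; omega
        _ ≤ h * (T + 1) := by rw [mul_comm]; exact Nat.mul_le_mul_left _ (by omega)
    exact Nat.le_of_mul_le_mul_right a4 (by omega)
  obtain ⟨H, hHd⟩ : ∃ H : Finset (ZMod n), H = Ho ∪ Hi := ⟨_, rfl⟩
  have mH : ∀ u, u ∈ H ↔ u ∈ Ho ∨ u ∈ Hi := fun u => by rw [hHd, mem_union]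
  rw [← hHd] at hH
  have hV1Q : ∀ u v, V1 u v ≠ 0 → u ∉ W ∧ v ∉ W := fun u v h0 => hQ u v (by
    rw [hV1] at h0
    split_ifs at h0 <;> omega)
  have oW : ∀ u ∈ Ho, u ∉ W := fun u hu => by
    obtain ⟨v, hv⟩ := exists_out (M := V1) (v := u) (by have := ((mo' u).1 hu).2; omega)
    exact (hV1Q _ _ hv).1
  have iW : ∀ v ∈ Hi, v ∉ W := fun v hv => by
    obtain ⟨u, hu⟩ := exists_inn (M := V1) (v := v) (by have := ((mi' v).1 hv).2; omega)
    exact (hV1Q _ _ hu).2
  obtain ⟨R, hR⟩ : ∃ R : Mat (ZMod n), ∀ u v,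
      R u v = if u ∈ H ∨ v ∈ H then cutG k A W u v + lad k W u v else 0 := ⟨_, fun _ _ => rfl⟩
  have eM : res A Wᶜ + lad k W + Q =
      (cutG k A (W ∪ H) + lad k (W ∪ H)) + R + V1 + X1 := by
    funext u v
    simp only [Pi.add_apply, hR, hV1, hX1, res, cutG, lad, mem_union, mem_compl, not_or]
    by_cases a1 : u ∈ W <;> by_cases a2 : v ∈ W <;> by_cases a3 : u ∈ H <;>
      by_cases a4 : v ∈ H <;> by_cases a5 : n ≤ u.val + k ∧ v.val < k <;>
      simp only [a1, a2, a3, a4, a5, not_true, not_false_iff, true_and, false_and, and_false,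
        and_true, if_true, if_false, or_true, or_false, and_self] <;> omega
  rw [eM] at hb hdeg ⊢
  have dI : ∀ v, inn R v + inn V1 v + inn X1 v ≤ k := fun v => by
    have a1 := hb v
    have a2 := hdeg v
    rw [a1] at a2
    simp only [inn_add] at a2
    omega
  have dO : ∀ v, out R v + out V1 v + out X1 v ≤ k := fun v => by
    have a2 := hdeg v
    simp only [out_add] at a2
    omega
  obtain ⟨R1, hR1⟩ : ∃ R1 : Mat (ZMod n), ∀ u v,
      R1 u v = if v ∈ Ho ∧ u ∉ W ∪ H ∧ lam u v ≤ k then A u v else 0 := ⟨_, fun _ _ => rfl⟩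
  obtain ⟨R2, hR2⟩ : ∃ R2 : Mat (ZMod n), ∀ u v,
      R2 u v = if u ∈ Hi ∧ v ∉ W ∪ H ∧ lam u v ≤ k then A u v else 0 := ⟨_, fun _ _ => rfl⟩
  have cWH : (W ∪ H).card ≤ W.card + h := (card_union_le _ _).trans (by omega)
  have inj : ∀ d ∈ (Icc 1 k : Finset ℕ), ∀ e ∈ (Icc 1 k : Finset ℕ), (d : ZMod n) = e → d = e := by
    intro d hd e he h0
    have hd' := mem_Icc.1 hd
    have he' := mem_Icc.1 he
    have := congrArg ZMod.val h0
    rwa [ZMod.val_cast_of_lt (by omega), ZMod.val_cast_of_lt (by omega)] at this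
  obtain ⟨Z1, z1, z2⟩ := sub_inn R1 (fun v => if v ∈ Ho then out X1 v else 0) (by
    intro v
    split_ifs with hv
    · have a1 := (mo' v).1 hv
      have a2 := (hm v (oW v hv)).1 a1.1
      have a3 := avail (fun d : ℕ => v - (d : ZMod n)) k
        (fun d hd e he h0 => inj d hd e he (sub_right_injective h0))
        (fun u => A u v) (fun u => R1 u v) (W ∪ H) (by
          intro d hd b1 b2
          have hd' := mem_Icc.1 hd
          rw [hR1, if_pos ⟨hv, b2, by rw [lam_sub_nat v (by omega)]; exact hd'.2⟩]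
          exact b1)
      have a4 := dO v
      change k ≤ mi A 1 k v + inn R1 v + _ at a3
      omega
    · omega)
  obtain ⟨Z2, z3, z4⟩ := sub_out R2 (fun v => if v ∈ Hi then inn X1 v else 0) (by
    intro v
    split_ifs with hv
    · have a1 := (mi' v).1 hv
      have a2 := (hm v (iW v hv)).2 a1.1
      have a3 := avail (fun d : ℕ => v + (d : ZMod n)) k
        (fun d hd e he h0 => inj d hd e he (add_left_cancel h0))
        (fun u => A v u) (fun u => R2 v u) (W ∪ H) (by
          intro d hd b1 b2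
          have hd' := mem_Icc.1 hd
          rw [hR2, if_pos ⟨hv, b2, by rw [lam_add_nat v (by omega)]; exact hd'.2⟩]
          exact b1)
      have a4 := dI v
      change k ≤ mo A 1 k v + out R2 v + _ at a3
      omega
    · omega)
  have y1 : ∀ u v, Z1 u v ≠ 0 → v ∈ Ho ∧ u ∉ W ∪ H ∧ lam u v ≤ k := fun u v h0 => by
    have := ne_of_le z1 h0
    rw [hR1] at this
    by_contra hc
    exact this (if_neg hc)
  have y2 : ∀ u v, Z2 u v ≠ 0 → u ∈ Hi ∧ v ∉ W ∪ H ∧ lam u v ≤ k := fun u v h0 => by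
    have := ne_of_le z3 h0
    rw [hR2] at this
    by_contra hc
    exact this (if_neg hc)
  have hZ : Z1 + Z2 ≤ R := by
    intro u v
    have a1 : Z1 u v ≤ R1 u v := z1 u v
    have a2 : Z2 u v ≤ R2 u v := z3 u v
    change Z1 u v + Z2 u v ≤ R u v
    by_cases b1 : Z1 u v = 0
    · by_cases b2 : Z2 u v = 0
      · omega
      · obtain ⟨c1, c2, c3⟩ := y2 u v b2
        have c4 := (mi' u).1 c1
        rw [hR2, if_pos ⟨c1, c2, c3⟩] at a2
        rw [hR, if_pos (Or.inl ((mH u).2 (Or.inr c1))), cutG,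
          if_pos ⟨iW u c1, fun c => c2 (mem_union_left _ c), by omega⟩]
        omega
    · obtain ⟨c1, c2, c3⟩ := y1 u v b1
      have c4 := (mo' v).1 c1
      have b2 : Z2 u v = 0 := by
        by_contra b2
        exact c2 (mem_union_right _ ((mH u).2 (Or.inr (y2 u v b2).1)))
      rw [hR1, if_pos ⟨c1, c2, c3⟩] at a1
      rw [hR, if_pos (Or.inr ((mH v).2 (Or.inl c1))), cutG,
        if_pos ⟨fun c => c2 (mem_union_left _ c), oW v c1, by omega⟩]
      omega
  have xo : ∀ u, ¬ n ≤ u.val + k → out X1 u = 0 := fun u hu =>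
    out0 fun v => by rw [hX1, if_neg (by omega)]
  have xi : ∀ v, ¬ v.val < k → inn X1 v = 0 := fun v hv =>
    inn0 fun u => by rw [hX1, if_neg (by omega)]
  have hN : ∀ u ∈ W ∪ H, out (cutG k A (W ∪ H) + lad k (W ∪ H)) u = 0 ∧
      inn (cutG k A (W ∪ H) + lad k (W ∪ H)) u = 0 := by
    intro u hu
    constructor
    · refine out0 fun v => ?_
      change cutG k A (W ∪ H) u v + lad k (W ∪ H) u v = 0
      rw [cutG, lad, if_neg (fun c => c.1 hu), if_neg (fun c => c.1 hu)]
    · refine inn0 fun v => ?_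
      change cutG k A (W ∪ H) v u + lad k (W ∪ H) v u = 0
      rw [cutG, lad, if_neg (fun c => c.2.1 hu), if_neg (fun c => c.2.1 hu)]
  obtain ⟨V, v1, v2, v3⟩ := core _ R V1 X1 (Z1 + Z2) H hZ hb
    (fun u hu => hN u (mem_union_right _ hu)) (by
      intro u hu
      have a1 : out Z1 u = 0 := out0 fun v => by
        by_contra c
        exact (y1 u v c).2.1 (mem_union_right _ hu)
      have a2 : inn Z2 u = 0 := inn0 fun v => by
        by_contra c
        exact (y2 v u c).2.1 (mem_union_right _ hu)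
      have a3 := z2 u
      have a4 := z4 u
      have a5 := mo' u
      have a6 := mi' u
      have a7 := xo u
      have a8 := xi u
      have a9 := (mH u).1 hu
      rw [out_add, inn_add]
      by_cases b1 : u ∈ Ho
      · have b2 : u ∉ Hi := fun c => by have := a5.1 b1; have := a6.1 c; omega
        have := a5.1 b1
        simp only [if_pos b1, if_neg b2] at a3 a4
        omega
      · have b2 : u ∈ Hi := a9.resolve_left b1
        have := a6.1 b2
        simp only [if_neg b1, if_pos b2] at a3 a4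
        omega)
  have rW : ∀ u v, u ∈ W ∨ v ∈ W → R u v = 0 ∧ V1 u v = 0 := by
    intro u v huv
    constructor
    · rw [hR, cutG, lad, if_neg (c := u ∉ W ∧ _) (by tauto), if_neg (c := u ∉ W ∧ _) (by tauto)]
      split_ifs <;> rfl
    · by_contra c
      have := hV1Q u v c
      tauto
  have r2 : ∀ u v, R u v ≤ 2 := by
    intro u v
    have := hA.1 u v
    rw [hR, cutG, lad]
    split_ifs <;> omega
  have vo : ∀ u ∈ H, out V u = 0 := fun u hu => out0 fun v => by
    by_contra c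
    exact (v2 u v c).1 hu
  have vi : ∀ u ∈ H, inn V u = 0 := fun u hu => inn0 fun v => by
    by_contra c
    exact (v2 v u c).2 hu
  have kh : k * H.card ≤ k * h := Nat.mul_le_mul_left _ hH
  refine ⟨H, V, X1 + (Z1 + Z2), hH, ?_, v1, ?_, ?_, ?_, ?_, ?_, ?_⟩
  · intro u v c
    obtain ⟨c1, c2⟩ := v2 u v c
    have a1 := le_out V u v
    have a2 := le_inn V u v
    have a3 := (v3 u c1).1
    have a4 := (v3 v c2).2
    rw [mem_union, mem_union]
    refine ⟨fun b => b.elim (fun b => ?_) c1, fun b => b.elim (fun b => ?_) c2⟩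
    · have := out0 fun x => (rW u x (Or.inl b)).1
      have := out0 fun x => (rW u x (Or.inl b)).2
      omega
    · have := inn0 fun x => (rW x v (Or.inr b)).1
      have := inn0 fun x => (rW x v (Or.inr b)).2
      omega
  · intro v hv
    have := (v3 v fun c => hv (mem_union_right _ c)).1
    simp only [out_add] at this ⊢
    omega
  · have a1 : size V ≤ size V1 + ∑ u, ∑ v, (if v ∈ H then R u v else 0) := by
      unfold size
      rw [← sum_add_distrib]
      refine sum_le_sum fun u _ => ?_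
      by_cases hu : u ∈ H
      · rw [vo u hu]
        exact Nat.zero_le _
      · have b1 := (v3 u hu).1
        have b2 : out R u = ∑ v, (if v ∈ H then R u v else 0) := by
          refine sum_congr rfl fun v _ => ?_
          split_ifs with hv
          · rfl
          · rw [hR, if_neg (by tauto)]
        omega
    have a2 : ∑ u, ∑ v, (if v ∈ H then R u v else 0) ≤ k * H.card := by
      rw [sum_comm]
      refine sum_le_k _ H k (fun v => ?_) (fun v hv => by simp [hv])
      have := dI v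
      refine le_trans (sum_le_sum fun u _ => ?_) (show inn R v ≤ k by omega)
      split_ifs <;> omega
    have a3 : 2 * k * h = k * h + k * h := by ring
    omega
  · intro v hv
    by_cases c : v ∈ H
    · rw [vo v c]
      exact Nat.zero_le _
    · have a1 := (v3 v c).1
      have a2 : out R v ≤ 2 * H.card :=
        sum_le_two _ H (r2 v) fun x hx => by rw [hR, if_neg (by tauto)]
      have a3 : ¬ T < out V1 v := fun b => c ((mH v).2 (Or.inl ((mo' v).2 ⟨hv, b⟩)))
      omega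
  · intro v hv
    by_cases c : v ∈ H
    · rw [vi v c]
      exact Nat.zero_le _
    · have a1 := (v3 v c).2
      have a2 : inn R v ≤ 2 * H.card :=
        sum_le_two _ H (fun x => r2 x v) fun x hx => by rw [hR, if_neg (by tauto)]
      have a3 : ¬ T < inn V1 v := fun b => c ((mH v).2 (Or.inr ((mi' v).2 ⟨hv, b⟩)))
      omega
  · intro u v c
    have a1 := lam_val u v
    have a2 := ZMod.val_lt u
    have a3 := ZMod.val_lt v
    unfold zone
    by_cases b1 : X1 u v = 0
    · by_cases b2 : Z1 u v = 0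
      · have b3 : Z2 u v ≠ 0 := fun b3 => c (by
          change X1 u v + (Z1 u v + Z2 u v) = 0
          omega)
        obtain ⟨c1, -, c3⟩ := y2 u v b3
        have := (mi' u).1 c1
        omega
      · obtain ⟨c1, -, c3⟩ := y1 u v b2
        have := (mo' v).1 c1
        omega
    · have b2 : n ≤ u.val + k ∧ v.val < k := by
        by_contra b2
        exact b1 (by rw [hX1, if_neg b2])
      omega
  · have a1 : ∑ v ∈ univ.filter (deep true k), out (X1 + (Z1 + Z2)) v ≤ size Z1 := by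
      refine le_trans (sum_le_sum fun v hv => ?_) (sum_le_sum_of_subset (filter_subset _ univ))
      have b1 := (mem_filter.1 hv).2 rfl
      have b2 := xo v (by omega)
      have b3 := z4 v
      have b4 : v ∉ Hi := fun c => by have := (mi' v).1 c; omega
      simp only [if_neg b4] at b3
      simp only [out_add]
      omega
    have a2 : size Z1 ≤ k * H.card := by
      rw [size_inn]
      refine sum_le_k _ H k (fun v => ?_) (fun v hv => ?_)
      · have := dO v
        rw [z2]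
        split_ifs <;> omega
      · rw [z2, if_neg fun c => hv ((mH v).2 (Or.inl c))]
    omega

end Pool.Agent.MP_2634a8_co.X.SEAM
end

section
namespace Pool.Agent.MP_2634a8_co.X.SEAM

open Finset

namespace VER

variable {n : ℕ} [NeZero n]

omit [NeZero n] in
lemma cut_le (k : ℕ) (A : Mat (ZMod n)) (W : Finset (ZMod n)) : cutG k A W ≤ A := fun u v => by
  show (if u ∉ W ∧ v ∉ W ∧ ¬ (n ≤ u.val + k ∧ v.val < k) then A u v else 0) ≤ A u v
  split_ifs <;> omega

omit [NeZero n] in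
lemma cut_ne {k : ℕ} {A : Mat (ZMod n)} {W : Finset (ZMod n)} {u v : ZMod n}
    (h : cutG k A W u v ≠ 0) : u ∉ W ∧ v ∉ W ∧ ¬ (n ≤ u.val + k ∧ v.val < k) := by
  unfold cutG at h
  by_contra hc
  exact h (if_neg hc)

omit [NeZero n] in
lemma cut_eq {k : ℕ} {A : Mat (ZMod n)} {W : Finset (ZMod n)} {u v : ZMod n} (hu : u ∉ W)
    (hv : v ∉ W) (h : ¬ (n ≤ u.val + k ∧ v.val < k)) : cutG k A W u v = A u v := by
  unfold cutG
  exact if_pos ⟨hu, hv, h⟩

omit [NeZero n] in
lemma lad_ne {k : ℕ} {W : Finset (ZMod n)} {u v : ZMod n} (h : lad k W u v ≠ 0) :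
    u ∉ W ∧ v ∉ W ∧ v.val < u.val ∧ 2 * (k / 500) ≤ lam u v ∧ lam u v ≤ 8 * (k / 500) := by
  unfold lad at h
  by_contra hc
  exact h (if_neg hc)

omit [NeZero n] in
/-- a missing pair of the cut digraph that respects the seam is missing in `A` or meets `W` -/
lemma miss {k : ℕ} {A : Mat (ZMod n)} {W : Finset (ZMod n)} {u v : ZMod n} (hn : 2 * k ≤ n)
    (h1 : nc true u v) (h2 : cutG k A W u v = 0) : A u v = 0 ∨ u ∈ W ∨ v ∈ W := by
  by_contra hc
  rw [not_or, not_or] at hc
  have h3 : u.val ≤ v.val := h1 rfl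
  rw [cut_eq hc.2.1 hc.2.2 (by omega)] at h2
  exact hc.1 h2

omit [NeZero n] in
lemma hit {k : ℕ} (W : Finset (ZMod n)) (f : ℕ → ZMod n)
    (hf : ∀ d ∈ Icc 1 k, ∀ e ∈ Icc 1 k, f d = f e → d = e) :
    ∑ d ∈ (Icc 1 k : Finset ℕ), (if f d ∈ W then k else 0) ≤ k * W.card := by
  rw [← sum_filter, sum_const, smul_eq_mul, mul_comm]
  refine Nat.mul_le_mul_left _ (card_le_card_of_injOn f ?_ ?_)
  · intro d hd
    exact (mem_filter.1 (mem_coe.1 hd)).2
  · intro d hd e he h
    exact hf d (mem_filter.1 (mem_coe.1 hd)).1 e (mem_filter.1 (mem_coe.1 he)).1 h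

lemma wt_le {k : ℕ} (A : Mat (ZMod n)) {W : Finset (ZMod n)} {v : ZMod n} (hk : 1 ≤ k)
    (hn : 2 * k ≤ n) (hv : v ∉ W) :
    wt true k (cutG k A W) v ≤ wt true k A v + 2 * k * W.card := by
  have h1 := hit (k := k) W (fun d => v + (d : ZMod n)) (fun d hd e he h => by
    have := (mem_Icc.1 hd).2
    have := (mem_Icc.1 he).2
    rw [← lam_add_nat v (d := d) (by omega), ← lam_add_nat v (d := e) (by omega)]
    exact congrArg _ h)
  have h2 := hit (k := k) W (fun d => v - (d : ZMod n)) (fun d hd e he h => by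
    have := (mem_Icc.1 hd).2
    have := (mem_Icc.1 he).2
    rw [← lam_sub_nat v (d := d) (by omega), ← lam_sub_nat v (d := e) (by omega)]
    exact congrArg (fun x => lam x v) h)
  unfold wt
  have h3 : ∑ x, (cutG k A W v x * min (lam v x - k) k + cutG k A W x v * min (lam x v - k) k) ≤
      ∑ x, (A v x * min (lam v x - k) k + A x v * min (lam x v - k) k) :=
    sum_le_sum fun x _ => add_le_add (Nat.mul_le_mul_right _ (cut_le k A W v x))
      (Nat.mul_le_mul_right _ (cut_le k A W x v))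
  have h4 : ∑ d ∈ (Icc 1 k : Finset ℕ),
      ((if nc true v (v + (d : ZMod n)) ∧ cutG k A W v (v + (d : ZMod n)) = 0 then k - d else 0) +
        (if nc true (v - (d : ZMod n)) v ∧ cutG k A W (v - (d : ZMod n)) v = 0 then k - d
          else 0)) ≤
      ∑ d ∈ (Icc 1 k : Finset ℕ),
        (((if nc true v (v + (d : ZMod n)) ∧ A v (v + (d : ZMod n)) = 0 then k - d else 0) +
          (if nc true (v - (d : ZMod n)) v ∧ A (v - (d : ZMod n)) v = 0 then k - d else 0)) +
          ((if v + (d : ZMod n) ∈ W then k else 0) + (if v - (d : ZMod n) ∈ W then k else 0))) := by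
    refine sum_le_sum fun d _ => ?_
    have a1 : (if nc true v (v + (d : ZMod n)) ∧ cutG k A W v (v + (d : ZMod n)) = 0 then k - d
        else 0) ≤ (if nc true v (v + (d : ZMod n)) ∧ A v (v + (d : ZMod n)) = 0 then k - d else 0) +
        (if v + (d : ZMod n) ∈ W then k else 0) := by
      by_cases h : nc true v (v + (d : ZMod n)) ∧ cutG k A W v (v + (d : ZMod n)) = 0
      · rw [if_pos h]
        rcases miss hn h.1 h.2 with h' | h' | h'
        · rw [if_pos ⟨h.1, h'⟩]; omega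
        · exact absurd h' hv
        · rw [if_pos h']; omega
      · rw [if_neg h]; omega
    have a2 : (if nc true (v - (d : ZMod n)) v ∧ cutG k A W (v - (d : ZMod n)) v = 0 then k - d
        else 0) ≤ (if nc true (v - (d : ZMod n)) v ∧ A (v - (d : ZMod n)) v = 0 then k - d else 0) +
        (if v - (d : ZMod n) ∈ W then k else 0) := by
      by_cases h : nc true (v - (d : ZMod n)) v ∧ cutG k A W (v - (d : ZMod n)) v = 0
      · rw [if_pos h]
        rcases miss hn h.1 h.2 with h' | h' | h'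
        · rw [if_pos ⟨h.1, h'⟩]; omega
        · rw [if_pos h']; omega
        · exact absurd h' hv
      · rw [if_neg h]; omega
    omega
  rw [sum_add_distrib (f := fun d : ℕ =>
      ((if nc true v (v + (d : ZMod n)) ∧ A v (v + (d : ZMod n)) = 0 then k - d else 0) +
          (if nc true (v - (d : ZMod n)) v ∧ A (v - (d : ZMod n)) v = 0 then k - d else 0))),
    sum_add_distrib (f := fun d : ℕ => if v + (d : ZMod n) ∈ W then k else 0)] at h4
  have h5 : 2 * k * W.card = k * W.card + k * W.card := by ring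
  omega

omit [NeZero n] in
lemma cnt (S T W : Finset (ZMod n)) :
    ∑ u ∈ S, ∑ _v ∈ T, (if u ∈ W then 1 else 0) ≤ T.card * W.card := by
  simp only [sum_const, smul_eq_mul]
  rw [← mul_sum, ← card_filter]
  exact Nat.mul_le_mul_left _ (card_le_card fun u hu => (mem_filter.1 hu).2)

lemma mis_le {k : ℕ} (A : Mat (ZMod n)) (W : Finset (ZMod n)) (a : ZMod n) (hn : 2 * k ≤ n) :
    mis true k (cutG k A W) a ≤ mis true k A a + 2 * k * W.card := by
  have h1 := cnt (win a k) (win a k) W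
  have h2 : ∑ _u ∈ win a k, ∑ v ∈ win a k, (if v ∈ W then 1 else 0) ≤ (win a k).card * W.card := by
    rw [sum_comm]; exact h1
  have h3 : (win a k).card * W.card ≤ k * W.card := Nat.mul_le_mul_right _ (card_win_le a k)
  have h4 : mis true k (cutG k A W) a ≤ mis true k A a +
      (∑ u ∈ win a k, ∑ _v ∈ win a k, (if u ∈ W then 1 else 0) +
        ∑ _u ∈ win a k, ∑ v ∈ win a k, (if v ∈ W then 1 else 0)) := by
    unfold mis
    rw [← sum_add_distrib, ← sum_add_distrib]
    refine sum_le_sum fun u _ => ?_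
    rw [← sum_add_distrib, ← sum_add_distrib]
    refine sum_le_sum fun v _ => ?_
    by_cases h : lam a u < lam a v ∧ nc true u v ∧ cutG k A W u v = 0
    · rw [if_pos h]
      rcases miss hn h.2.1 h.2.2 with h' | h' | h'
      · rw [if_pos ⟨h.1, h.2.1, h'⟩]; omega
      · rw [if_pos h']; omega
      · rw [if_pos h']; omega
    · rw [if_neg h]; omega
  have h5 : 2 * k * W.card = k * W.card + k * W.card := by ring
  omega

lemma opt_cut {k m : ℕ} {A : Mat (ZMod n)} (W : Finset (ZMod n)) {a : ZMod n} (hA : Simple A)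
    (hn : 3 * k ≤ n) (hm : m ≤ k) (ha : a.val + m ≤ n) (h : OptAt A a m) (ρ : ZMod n → ℕ) :
    back (res (cutG k A W) (win a m)) (lam a) ≤
      back (res (cutG k A W) (win a m)) ρ + m * (W ∩ win a m).card := by
  obtain ⟨S, hS⟩ : ∃ S, ∀ v, ρ v < S :=
    ⟨univ.sup ρ + 1, fun v => Nat.lt_succ_of_le (le_sup (f := ρ) (mem_univ v))⟩
  have h1 : back (res (cutG k A W) (win a m)) (lam a) ≤ back (res A (win a m)) (lam a) :=
    back_mono (fun u v => by
      show (if u ∈ win a m ∧ v ∈ win a m then cutG k A W u v else 0) ≤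
        (if u ∈ win a m ∧ v ∈ win a m then A u v else 0)
      split_ifs
      · exact cut_le k A W u v
      · exact le_rfl) _
  have h2 := h (fun v => if v ∈ W then S else ρ v)
  have h3 : ∑ u : ZMod n, ∑ v : ZMod n, (if u ∈ W ∩ win a m ∧ v ∈ win a m then 1 else 0) ≤
      m * (W ∩ win a m).card := by
    have e : ∀ u : ZMod n, ∑ v : ZMod n, (if u ∈ W ∩ win a m ∧ v ∈ win a m then 1 else 0) ≤
        if u ∈ W ∩ win a m then m else 0 := fun u => by
      by_cases hu : u ∈ W ∩ win a m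
      · simp only [hu, true_and, if_true]
        rw [← card_filter]
        exact (card_le_card fun v hv => (mem_filter.1 hv).2).trans (card_win_le a m)
      · simp only [hu, false_and, if_false, sum_const_zero, le_refl]
    refine (sum_le_sum fun u _ => e u).trans ?_
    rw [← sum_filter, sum_const, smul_eq_mul, mul_comm]
    exact Nat.mul_le_mul_left _ (card_le_card fun u hu => (mem_filter.1 hu).2)
  have h4 : back (res A (win a m)) (fun v => if v ∈ W then S else ρ v) ≤
      back (res (cutG k A W) (win a m)) ρ +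
        ∑ u : ZMod n, ∑ v : ZMod n, (if u ∈ W ∩ win a m ∧ v ∈ win a m then 1 else 0) := by
    unfold back
    rw [← sum_add_distrib]
    refine sum_le_sum fun u _ => ?_
    rw [← sum_add_distrib]
    refine sum_le_sum fun v _ => ?_
    by_cases huv : u ∈ win a m ∧ v ∈ win a m
    · have e1 : res A (win a m) u v = A u v := if_pos huv
      have e2 : res (cutG k A W) (win a m) u v = cutG k A W u v := if_pos huv
      rw [e1, e2]
      have hA1 := hA.1 u v
      by_cases hu : u ∈ W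
      · rw [if_pos (show u ∈ W ∩ win a m ∧ v ∈ win a m from ⟨mem_inter.2 ⟨hu, huv.1⟩, huv.2⟩)]
        split_ifs <;> omega
      · by_cases hv : v ∈ W
        · have := hS u
          rw [if_neg (by simp only [hu, hv, if_true, if_false]; omega)]
          omega
        · have b1 := mem_win.1 huv.1
          have b2 := mem_win.1 huv.2
          have b3 := lam_val a u
          have b4 := lam_val a v
          have b5 := ZMod.val_lt u
          rw [cut_eq hu hv (by omega)]
          simp only [hu, hv, if_false]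
          omega
    · have e1 : res A (win a m) u v = 0 := if_neg huv
      rw [e1]
      simp
  omega

omit [NeZero n] in
lemma sub_le [Fintype (ZMod n)] {G A : Mat (ZMod n)} (h : G ≤ A) (S : Finset (ZMod n))
    (v : ZMod n) : ∑ x ∈ S, A v x + out G v ≤ ∑ x ∈ S, G v x + out A v := by
  unfold out
  rw [← sum_add_sum_compl S (fun x => G v x), ← sum_add_sum_compl S (fun x => A v x)]
  have : ∑ x ∈ Sᶜ, G v x ≤ ∑ x ∈ Sᶜ, A v x := sum_le_sum fun x _ => h v x
  omega

lemma dfc_le {k : ℕ} (A V X : Mat (ZMod n)) (Ω : Finset (ZMod n)) (dg : ZMod n → ℕ)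
    (h : ∀ v ∉ Ω, out (cutG k A Ω + lad k Ω + V + X) v = dg v) :
    dfc k (cutG k A Ω) (univ.filter (deep true k)) ≤
      ∑ v, (k - dg v) + size V + ∑ v ∈ univ.filter (deep true k), out X v + k * Ω.card := by
  have h1 : dfc k (cutG k A Ω) (univ.filter (deep true k)) ≤
      ∑ v ∈ univ.filter (deep true k),
        ((k - dg v) + out V v + out X v + (if v ∈ Ω then k else 0)) := by
    unfold dfc
    refine sum_le_sum fun v hv => ?_
    have hd := (mem_filter.1 hv).2 rfl
    by_cases hΩ : v ∈ Ω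
    · rw [if_pos hΩ]; omega
    · have e := h v hΩ
      rw [out_add, out_add, out_add] at e
      have e0 : out (lad k Ω) v = 0 := by
        unfold out
        refine sum_eq_zero fun x _ => ?_
        by_contra hc
        have b1 := lad_ne hc
        have b2 := lam_val v x
        omega
      omega
  rw [sum_add_distrib, sum_add_distrib, sum_add_distrib] at h1
  have h2 : ∑ v ∈ univ.filter (deep true k), (k - dg v) ≤ ∑ v, (k - dg v) :=
    sum_le_sum_of_subset (filter_subset _ _)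
  have h3 : ∑ v ∈ univ.filter (deep true k), out V v ≤ size V :=
    sum_le_sum_of_subset (filter_subset _ _)
  have h4 : ∑ v ∈ univ.filter (deep true k), (if v ∈ Ω then k else 0) ≤ k * Ω.card := by
    rw [← sum_filter, sum_const, smul_eq_mul, mul_comm]
    exact Nat.mul_le_mul_left _ (card_le_card fun u hu => (mem_filter.1 hu).2)
  omega

end VER

open VER in
theorem ver (ht : TM_s) : VER_s := by
  intro κ s δ k n _ A V X Ω dg hκ hκ1 hδ hδκ hδs hrk hn hP hΩ hbal hdeg hdg hoff hsz hlast hfirst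
    hz hX hL
  refine ⟨?_, dfc_le A V X Ω dg hdg⟩
  have hk : 1 ≤ k := by
    rcases Nat.eq_zero_or_pos k with h | h
    · rw [h] at hrk; norm_num at hrk
    · exact h
  have hk0 : (0 : ℝ) ≤ k := Nat.cast_nonneg k
  have hk2 : (0 : ℝ) ≤ (k : ℝ) ^ 2 := by positivity
  have hs : δ ≤ s := by linarith only [hδ, hδs]
  have hΩ2 : 2 * (k : ℝ) * Ω.card ≤ 2 * δ * k ^ 2 := by
    have := mul_le_mul_of_nonneg_left hΩ hk0
    linarith only [this]
  have hwt : ∀ v ∉ Ω, (wt true k (cutG k A Ω) v : ℝ) ≤ wt true k A v + 2 * δ * k ^ 2 := by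
    intro v hv
    have h1 : ((wt true k (cutG k A Ω) v : ℕ) : ℝ) ≤ ((wt true k A v + 2 * k * Ω.card : ℕ) : ℝ) :=
      Nat.cast_le.2 (wt_le A hk (by omega) hv)
    push_cast at h1
    linarith only [hΩ2, h1]
  have hG := cut_le k A Ω
  have hoffG : Off (cutG k A Ω) Ω := fun u v h => ⟨(cut_ne h).1, (cut_ne h).2.1⟩
  have hoffL : Off (lad k Ω) Ω := fun u v h => ⟨(lad_ne h).1, (lad_ne h).2.1⟩
  refine
    { simple := simple_mono hG hP.simple
      bal := hbal
      deg := hdeg
      nos := fun h => absurd h (by simp)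
      gnc := ?_
      h1 := ?_
      h2 := ?_
      h3 := ?_
      h4 := fun a m hm ha ρ =>
        opt_cut Ω hP.simple (by omega) hm (ha rfl) (hP.h4 a m hm (ha rfl)) ρ
      h5 := ?_
      h6 := hsz
      h6' := ?_
      h7 := ?_
      off0 := (hoffG.add hoffL).add hoff
      h8 := ?_
      lad1 := ?_
      lad2 := ?_
      xs := hX
      lam_le := hL }
  · intro u v h hl _
    have b1 := (cut_ne h).2.2
    have b2 := lam_val u v
    have b3 := ZMod.val_lt u
    omega
  · intro a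
    have h1 : ∑ v ∈ win a k \ Ω, (wt true k (cutG k A Ω) v : ℝ) ≤
        ∑ v ∈ win a k \ Ω, ((wt true k A v : ℝ) + 2 * δ * k ^ 2) :=
      sum_le_sum fun v hv => hwt v (mem_sdiff.1 hv).2
    have h2 : ∑ v ∈ win a k \ Ω, ((wt true k A v : ℝ) + 2 * δ * k ^ 2) ≤
        ∑ v ∈ win a k, ((wt true k A v : ℝ) + 2 * δ * k ^ 2) :=
      sum_le_sum_of_subset_of_nonneg sdiff_subset fun v _ _ => by positivity
    rw [sum_add_distrib (s := win a k), sum_const, card_win a (by omega), nsmul_eq_mul] at h2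
    have h3 := hP.h1 a
    have h4 : 3 * δ * (k : ℝ) ^ 3 ≤ s * k ^ 3 := mul_le_mul_of_nonneg_right hδs (by positivity)
    have h5 : (k : ℝ) * (2 * δ * k ^ 2) = 2 * δ * k ^ 3 := by ring
    linarith only [h1, h2, h3, h4]
  · intro a
    have h1 : ((mis true k (cutG k A Ω) a : ℕ) : ℝ) ≤ ((mis true k A a + 2 * k * Ω.card : ℕ) : ℝ) :=
      Nat.cast_le.2 (mis_le A Ω a (by omega))
    push_cast at h1
    have h3 := hP.h2 a
    have h4 : 3 * δ * (k : ℝ) ^ 2 ≤ s * k ^ 2 := mul_le_mul_of_nonneg_right hδs hk2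
    linarith only [hΩ2, h1, h3, h4]
  · intro t
    have h1 : ((far k (cutG k A Ω) t : ℕ) : ℝ) ≤ ((far k A t : ℕ) : ℝ) :=
      Nat.cast_le.2 (wsum_mono hG _)
    have h3 := hP.h3 t
    have h4 : δ * (k : ℝ) ^ 2 ≤ s * k ^ 2 := mul_le_mul_of_nonneg_right hs hk2
    linarith only [h1, h3, h4]
  · intro v j hj
    by_cases hv : v ∈ Ω
    · have : ∑ y ∈ win (v + 1) j, cutG k A Ω y v = 0 := sum_eq_zero fun y _ => by
        by_contra hc
        exact (cut_ne hc).2.1 hv
      omega
    · have h1 := hP.h5 v j hj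
      have h2 := sub_le hG (win (v + 1) j) v
      have h3 : ∑ y ∈ win (v + 1) j, cutG k A Ω y v ≤ ∑ y ∈ win (v + 1) j, A y v :=
        sum_le_sum fun y _ => hG y v
      have h4 := hdg v hv
      rw [out_add, out_add, out_add] at h4
      rw [out_add, out_add]
      omega
  · intro v hw
    have hr : 0 ≤ √κ * k := by linarith only [hrk]
    have hx : 2 * (wt true k (cutG k A Ω) v : ℝ) ≤ (2 * (√κ * k)) ^ 2 := by
      have e : (2 * (√κ * k)) ^ 2 = 4 * (κ * (k : ℝ) ^ 2) := by
        rw [mul_pow, mul_pow, Real.sq_sqrt hκ.le]; norm_num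
      have : 0 ≤ κ * (k : ℝ) ^ 2 := by positivity
      linarith only [hw, e]
    obtain ⟨t1, t2⟩ := ht n true k (cutG k A Ω) v (2 * (√κ * k)) (by omega) (by linarith only [hrk]) hx
    have d1 := hdeg v
    have d2 := hdeg v
    rw [hbal v, inn_add, inn_add, inn_add] at d2
    rw [out_add, out_add, out_add] at d1
    constructor
    · by_cases hl : n ≤ v.val + k
      · exact hlast v hl
      · obtain ⟨c1, c2⟩ := t1 fun _ => by omega
        have c3 : (out V v : ℝ) ≤ mo (cutG k A Ω) 1 k v := Nat.cast_le.2 (by omega)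
        linarith only [hrk, c1, c3]
    · by_cases hl : v.val < k
      · exact hfirst v hl
      · obtain ⟨c1, c2⟩ := t2 fun _ => by omega
        have c3 : (inn V v : ℝ) ≤ mi (cutG k A Ω) 1 k v := Nat.cast_le.2 (by omega)
        linarith only [hrk, c1, c3]
  · have h1 : κ * (Ω.card : ℝ) ≤ 1 * Ω.card := mul_le_mul_of_nonneg_right hκ1 (Nat.cast_nonneg _)
    have h2 : δ * (k : ℝ) ≤ s * k := mul_le_mul_of_nonneg_right hs hk0
    linarith only [hΩ, h1, h2]
  · intro _ v hv hzv
    have h1 := hwt v hv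
    have h2 := hz v hv hzv
    have h3 : 4 * δ * (k : ℝ) ^ 2 ≤ κ * k ^ 2 := mul_le_mul_of_nonneg_right hδκ hk2
    linarith only [h1, h2, h3]
  · intro u v
    refine ⟨?_, fun h => (lad_ne h).2.2⟩
    unfold lad
    split_ifs <;> omega
  · intro _ u hu v hv h1 h2 h3
    unfold lad
    exact if_pos ⟨hu, hv, h1, h2, h3⟩

end Pool.Agent.MP_2634a8_co.X.SEAM
end

section
namespace Pool.Agent.MP_2634a8_co.X.SEAM

open Finset

namespace LF

variable {n : ℕ} [NeZero n]

lemma lad_ne {k : ℕ} {W : Finset (ZMod n)} {u v : ZMod n} (h : lad k W u v ≠ 0) :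
    u ∉ W ∧ v ∉ W ∧ v.val < u.val ∧ lam u v ≤ 8 * (k / 500) ∧ u.val + lam u v = v.val + n := by
  unfold lad at h
  split_ifs at h with h1
  · have := lam_val u v
    exact ⟨h1.1, h1.2.1, h1.2.2.1, h1.2.2.2.2, by omega⟩
  · exact absurd rfl h

omit [NeZero n] in
lemma lad_le (k : ℕ) (W : Finset (ZMod n)) (u v : ZMod n) : lad k W u v ≤ 1 := by
  unfold lad
  split_ifs <;> omega

lemma sum_le_card {α : Type} [Fintype α] (f : α → ℕ) (g : α → ℕ) (hg : Function.Injective g)
    (c : ℕ) (h1 : ∀ a, f a ≤ 1) (h2 : ∀ a, f a ≠ 0 → g a < c) : ∑ a, f a ≤ c := by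
  calc ∑ a, f a ≤ ∑ a, if g a < c then 1 else 0 := sum_le_sum fun a _ => by
        have := h1 a
        have := h2 a
        split_ifs <;> omega
    _ = (univ.filter fun a => g a < c).card := by rw [card_filter]
    _ ≤ (range c).card := card_le_card_of_injOn g (fun a ha => by simpa only [coe_range, Set.mem_Iio, coe_filter, mem_univ, true_and, Set.mem_ofPred_eq] using ha) hg.injOn
    _ = c := card_range c

lemma out_lad (k : ℕ) (W : Finset (ZMod n)) (u : ZMod n) : out (lad k W) u ≤ 8 * (k / 500) :=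
  sum_le_card _ ZMod.val (ZMod.val_injective n) _ (lad_le k W u) fun v h => by
    have := lad_ne h
    have := ZMod.val_lt u
    omega

lemma inn_lad (k : ℕ) (W : Finset (ZMod n)) (v : ZMod n) :
    inn (lad k W) v ≤ 8 * (k / 500) - v.val :=
  sum_le_card _ (fun u : ZMod n => n - 1 - u.val) (fun a b h => ZMod.val_injective n (by
      have := ZMod.val_lt a
      have := ZMod.val_lt b
      simp only at h
      omega)) _ (fun u => lad_le k W u v) fun u h => by
    have := lad_ne h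
    have := ZMod.val_lt u
    omega

lemma tri (c : ℕ) : ∀ m, 2 * ∑ i ∈ range m, (c - i) + (c - m) * (c - m + 1) = c * (c + 1)
  | 0 => by simp
  | m + 1 => by
    have h := tri c m
    rw [sum_range_succ]
    rcases le_or_gt c m with h1 | h1
    · rw [Nat.sub_eq_zero_of_le h1] at h ⊢
      rw [Nat.sub_eq_zero_of_le (by omega)]
      omega
    · obtain ⟨d, hd⟩ : ∃ d, c - m = d + 1 := ⟨c - m - 1, by omega⟩
      rw [hd] at h ⊢
      rw [show c - (m + 1) = d by omega, ← h]
      ring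

lemma size_lad (k : ℕ) (W : Finset (ZMod n)) :
    2 * size (lad k W) ≤ 8 * (k / 500) * (8 * (k / 500) + 1) := by
  have h1 : size (lad k W) ≤ ∑ i ∈ range n, (8 * (k / 500) - i) := by
    rw [size_inn, sum_lam 0]
    refine sum_le_sum fun i hi => (inn_lad k W _).trans ?_
    rw [zero_add, ZMod.val_cast_of_lt (mem_range.1 hi)]
  have := tri (8 * (k / 500)) n
  omega

lemma fib {α β : Type} [Fintype α] [DecidableEq β] {φ : α → β} (hφ : Function.Injective φ)
    (f : α → ℕ) (c : ℕ) (h : ∀ a, f a ≤ c) (u : β) :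
    ∑ a ∈ univ.filter (fun a => φ a = u), f a ≤ c := by
  refine (sum_le_card_nsmul _ _ c fun a _ => h a).trans ?_
  have : (univ.filter fun a => φ a = u).card ≤ 1 := card_le_one.2 fun a ha b hb =>
    hφ ((mem_filter.1 ha).2.trans (mem_filter.1 hb).2.symm)
  simpa only [smul_eq_mul, ge_iff_le, one_mul] using Nat.mul_le_mul_right c this

end LF

open LF in
theorem lf : LF_s := by
  intro k n _ p n1 _ W hk h10 h14
  have h7 : 7 * k + n1 ≤ n := by omega
  refine ⟨fun a b hab => ?_, fun v => ⟨?_, ?_⟩, ?_⟩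
  · obtain ⟨u, hu, h1⟩ := exists_ne_zero_of_sum_ne_zero hab
    obtain ⟨v, hv, h2⟩ := exists_ne_zero_of_sum_ne_zero h1
    obtain ⟨h3, h4, h5⟩ := lad_ne h2
    have := ZMod.val_lt u
    rw [← (mem_filter.1 hu).2, ← (mem_filter.1 hv).2]
    refine ⟨u, h3, v, h4, rfl, rfl, Or.inr (by omega), Or.inl (by omega), ?_, ?_⟩ <;>
      rw [mem_seg, lam_emb h7] <;> omega
  · have := fib (emb_inj (p := p) h7) _ _ (out_lad k W) v
    rw [out_pushM]
    omega
  · have := fib (emb_inj (p := p) h7) _ _ (fun u => (inn_lad k W u).trans (Nat.sub_le _ _)) v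
    rw [inn_pushM]
    omega
  · have h1 : size (pushM (emb p k n1) (lad k W)) = size (lad k W) := by
      simp only [size, out_pushM]
      exact sum_fiberwise univ (emb p k n1) _
    have h2 := size_lad k W
    obtain ⟨w, hw⟩ : ∃ w, w = k / 500 := ⟨_, rfl⟩
    rw [← hw] at h2
    have h3 : 125 * w ≤ k / 4 := by omega
    have h4 : 2 ≤ w := by omega
    have h5 : (125 * w) ^ 2 ≤ (k / 4) ^ 2 := Nat.pow_le_pow_left h3 2
    have h6 : 2 * w ≤ w * w := Nat.mul_le_mul_right w h4
    rw [h1]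
    linarith only [h2, h5, h6]

end Pool.Agent.MP_2634a8_co.X.SEAM
end

section
namespace Pool.Agent.MP_2634a8_co.X.SEAM

open Finset

namespace Main

variable {n : ℕ} [NeZero n]

lemma pbs_mono {k : ℕ} {e e' : ℝ} {A : Mat (ZMod n)} {dg : ZMod n → ℕ} (h : PBs k e A dg)
    (he : e ≤ e') : PBs k e' A dg :=
  ⟨h.simple, fun a => (h.h1 a).trans (by gcongr), fun a => (h.h2 a).trans (by gcongr),
    fun a => (h.h3 a).trans (by gcongr), h.h4, h.h5⟩

omit [NeZero n] in
lemma off_lad (k : ℕ) (W : Finset (ZMod n)) : Off (lad k W) W := fun u v h => by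
  unfold lad at h
  split_ifs at h with h1
  · exact ⟨h1.1, h1.2.1⟩
  · exact absurd rfl h

lemma off_res (A : Mat (ZMod n)) (W : Finset (ZMod n)) : Off (res A Wᶜ) W := fun u v h => by
  have := res_ne.1 h
  exact ⟨mem_compl.1 this.1, mem_compl.1 this.2.1⟩

lemma off_out {A : Mat (ZMod n)} {W : Finset (ZMod n)} (h : Off A W) {v : ZMod n} (hv : v ∈ W) :
    out A v = 0 :=
  sum_eq_zero fun w _ => by
    by_contra h0
    exact (h v w h0).1 hv

/-- the numerical facts -/
lemma nums {κ δ r e k c : ℝ} {y T m h : ℕ} (hr : 0 < r) (hr2 : r ^ 2 = κ) (hr1 : r ≤ 1 / 200)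
    (hδ : 0 < δ) (hδκ : 10 * δ ≤ κ) (he : e = κ * δ * r / 200)
    (hk : 4 ≤ δ * k) (hc : κ * c ≤ 8 * e * k) (hy : (y : ℝ) ≤ e * k ^ 2)
    (hT : (T : ℝ) ≤ 2 * r * k) (hT' : 2 * r * k < T + 1) (hm : (m : ℝ) ≤ r * k + 1)
    (hh : (h : ℝ) ≤ δ * k / 2) (hh' : δ * k / 2 < h + 1) :
    2 * (y + k * c) ≤ T * h ∧ m + c + h ≤ T ∧ c + h ≤ δ * k ∧
      2 * (y + k * c) + 2 * k * h ≤ 2 * δ * k ^ 2 ∧ (T : ℝ) + 2 * h ≤ 4 * r * k ∧ 1 ≤ r * k ∧
      2 * e ≤ δ ∧ 200 * e ≤ κ ∧ 4 * δ ≤ 1 := by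
  have hκ : 0 < κ := by rw [← hr2]; positivity
  have hk0 : 0 < k := (pos_iff_pos_of_mul_pos (by linarith only [hk])).1 hδ
  have hκr : κ ≤ r / 200 := by
    have := mul_le_mul_of_nonneg_left hr1 hr.le
    rw [← hr2]
    linarith only [this]
  have hδr : δ ≤ r / 2000 := by linarith only [hκr, hδκ]
  have hdk : δ * k ≤ r / 2000 * k := mul_le_mul_of_nonneg_right hδr hk0.le
  have hc1 : c ≤ δ * r * k / 25 := by
    refine le_of_mul_le_mul_left (hc.trans (le_of_eq ?_)) hκ
    rw [he]; ring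
  have hdr : 0 < δ * r := mul_pos hδ hr
  have he1 : e ≤ δ * r / 200 := by
    have := mul_le_mul_of_nonneg_right (show κ ≤ 1 by linarith only [hκr, hr1]) hdr.le
    rw [he]
    linarith only [this]
  have hdr1 : δ * r ≤ δ * (1 / 200) := mul_le_mul_of_nonneg_left hr1 hδ.le
  have hk2 : 0 < k ^ 2 := by positivity
  have hP : 0 < δ * r * k ^ 2 := mul_pos hdr hk2
  have hy1 := mul_le_mul_of_nonneg_right he1 hk2.le
  have hkc := mul_le_mul_of_nonneg_left hc1 hk0.le
  have hTh : (r * k) * (δ * k / 4) ≤ (T : ℝ) * h :=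
    mul_le_mul (by linarith only [hT', hdk, hk]) (by linarith only [hh', hk])
      (by linarith only [hk]) (Nat.cast_nonneg _)
  have hc2 := mul_le_mul_of_nonneg_right hdr1 hk0.le
  have hkh := mul_le_mul_of_nonneg_left hh hk0.le
  have hP2 := mul_le_mul_of_nonneg_right hdr1 hk2.le
  have hQ : 0 < δ * k ^ 2 := mul_pos hδ hk2
  have he2 : 200 * e ≤ κ := by
    have := mul_le_mul_of_nonneg_left (show δ * r ≤ 1 by linarith only [hdr1, hδr, hr1]) hκ.le
    rw [he]
    linarith only [this]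
  exact ⟨by linarith only [hy, hy1, hkc, hTh, hP], by linarith only [hm, hc1, hc2, hh, hT', hdk, hk],
    by linarith only [hc1, hc2, hh, hk], by linarith only [hy, hy1, hkc, hkh, hP2, hQ],
    by linarith only [hT, hh, hdk, hk], by linarith only [hdk, hk],
    by linarith only [he1, hdr1, hδ], he2, by linarith only [hδr, hr1]⟩

end Main

open Main in
theorem seam_of (hloc : LOC_s) (htm : TM_s) (hwild : WILD_s) (hlad : LAD_s) (hpb : PB_s)
    (hcon : CON_s) (hhea : HEA_s) (hver : VER_s) (hlf : LF_s) : SEAM_s := by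
  refine ⟨1 / 40000, by norm_num, fun κ s hκ hκ0 hs => ?_⟩
  obtain ⟨r, hrd⟩ : ∃ r, r = √κ := ⟨_, rfl⟩
  have hr : 0 < r := hrd ▸ Real.sqrt_pos.2 hκ
  have hr2 : r ^ 2 = κ := hrd ▸ Real.sq_sqrt hκ.le
  have hr1 : r ≤ 1 / 200 := (abs_le_of_sq_le_sq' (by rw [hr2]; linarith only [hκ0]) (by norm_num)).2
  obtain ⟨δ, hδ, hδs, hδκ⟩ : ∃ δ : ℝ, 0 < δ ∧ 10 * δ ≤ s ∧ 10 * δ ≤ κ :=
    ⟨min s κ / 10, by positivity, by linarith only [min_le_left s κ], by linarith only [min_le_right s κ]⟩
  obtain ⟨e, he⟩ : ∃ e, e = κ * δ * r / 200 := ⟨_, rfl⟩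
  have he0 : 0 < e := by rw [he]; positivity
  refine ⟨e / 16, by positivity, ⌈4 / δ⌉₊ + 1000, fun k hk n _ M p n1 _ h10 h14 hs1 hb hd ho hL hg => ?_⟩
  have hk1 : 1000 ≤ k := by omega
  have hkr : (1000 : ℝ) ≤ k := by exact_mod_cast hk1
  have hk4 : 4 ≤ δ * k := by
    have h1 : 4 / δ ≤ (k : ℝ) := (Nat.le_ceil _).trans (by exact_mod_cast (by omega))
    rw [div_le_iff₀ hδ] at h1
    linarith only [h1]
  have h7 : 7 * k + n1 ≤ n := by omega
  have loc : LOC k e M p (n1 + 14 * k) := by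
    have := hloc (e / 16) k n M p (n1 + 14 * k) (by positivity) (by omega) (by omega) h14 hs1 hb hd
      hL hg
    rwa [show 16 * (e / 16) = e by ring] at this
  obtain ⟨Ω, hΩ⟩ : ∃ Ω : Finset (ZMod n), ∀ v, v ∈ Ω ↔ v ∈ seg p (3 * k) (n1 + 11 * k) ∧
      κ * k ^ 2 ≤ 2 * (wt false k M v : ℝ) :=
    ⟨(seg p (3 * k) (n1 + 11 * k)).filter fun v => κ * k ^ 2 ≤ 2 * (wt false k M v : ℝ),
      fun v => mem_filter⟩
  obtain ⟨W, hW⟩ : ∃ W : Finset (ZMod n1), ∀ i, i ∈ W ↔ zone k i ∧ emb p k n1 i ∈ Ω :=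
    ⟨univ.filter fun i => zone k i ∧ emb p k n1 i ∈ Ω, fun i => by simp⟩
  obtain ⟨w1, w2⟩ := hwild κ e k n M p n1 Ω W hκ he0.le (by omega) h10 h14 loc
    (fun v hv => (hΩ v).1 hv) (fun i hi => (hW i).1 hi)
  have hrk : 0 ≤ r * k := by positivity
  obtain ⟨n1', n2, n3, n4, n5, n6, n7, n8, n9⟩ := nums (c := W.card) (y := ⌊e * k ^ 2⌋₊)
    (T := ⌊2 * r * k⌋₊) (m := ⌊r * k + 1⌋₊) (h := ⌊δ * k / 2⌋₊) hr hr2 hr1 hδ hδκ he hk4
    w2 (Nat.floor_le (by positivity)) (Nat.floor_le (by positivity))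
    (Nat.lt_floor_add_one _) (Nat.floor_le (by positivity)) (Nat.floor_le (by positivity))
    (Nat.lt_floor_add_one _)
  have hsq : (r * k) ^ 2 = κ * k ^ 2 := by rw [mul_pow, hr2]
  have tame : ∀ v ∈ seg p (3 * k) (n1 + 11 * k), v ∉ Ω → 2 * (wt false k M v : ℝ) ≤ κ * k ^ 2 :=
    fun v hv hv' => le_of_not_ge fun h => hv' ((hΩ v).2 ⟨hv, h⟩)
  obtain ⟨l1, l2, l3⟩ := hlf k n p n1 W hk1 h10 h14
  obtain ⟨pb, pw, pd⟩ := hpb e k n M p n1 he0.le (by omega) h10 h14 hs1 ho loc
  have tz : ∀ v ∉ W, zone k v → 2 * (wt true k (pull p k n1 M) v : ℝ) ≤ κ * k ^ 2 := by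
    intro v hv hz
    have h1 := mem_seg.1 (emb_mem (p := p) h7 v)
    have h2 := tame _ (mem_seg.2 ⟨by omega, by omega⟩) fun h => hv ((hW v).2 ⟨hz, h⟩)
    have h3 : (wt true k (pull p k n1 M) v : ℝ) ≤ wt false k M (emb p k n1 v) := by
      exact_mod_cast pw v
    linarith only [h2, h3]
  obtain ⟨N, r1, r2, r3⟩ := hlad k n M (pushM (emb p k n1) (lad k W)) Ω p n1 hk1 (by omega) h14 hs1
    hb hd (fun v hv hv' => by
      obtain ⟨t1, t2⟩ := htm n false k M v (r * k) (by omega) hrk (hsq ▸ tame v hv hv')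
      have t3 := (t1 (by simp)).1
      have t4 := (t2 (by simp)).1
      have t5 : r * k ≤ 1 / 200 * k := mul_le_mul_of_nonneg_right hr1 (Nat.cast_nonneg _)
      constructor
      · have : (100 : ℝ) * mo M 1 k v ≤ k := by linarith only [t3, t5, hkr]
        exact_mod_cast this
      · have : (100 : ℝ) * mi M 1 k v ≤ k := by linarith only [t4, t5, hkr]
        exact_mod_cast this)
    (fun a => by
      have h1 : κ * (100 * (Ω ∩ win a k).card) ≤ κ * k := by
        have : 200 * e * k ≤ κ * k := mul_le_mul_of_nonneg_right n8 (Nat.cast_nonneg _)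
        linarith only [w1 a, this]
      exact_mod_cast le_of_mul_le_mul_left h1 hκ)
    (fun a ha => by
      have h1 := loc.hfarI a (by omega)
      have h2 : 100 * e * k ^ 2 ≤ 1 * k ^ 2 :=
        mul_le_mul_of_nonneg_right (by linarith only [n8, hκ0]) (sq_nonneg _)
      have : (100 : ℝ) * farI k M a ≤ k ^ 2 := by linarith only [h1, h2]
      exact_mod_cast this)
    (fun a b hab => by
      obtain ⟨u, hu, v, hv, rfl, rfl, z1, z2, s1, s2⟩ := l1 a b hab
      exact ⟨fun h => hu ((hW u).2 ⟨z1, h⟩), fun h => hv ((hW v).2 ⟨z2, h⟩), s1, s2⟩) l2 l3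
  obtain ⟨Q, q1, q2, q3, q4, q5, q6, q7⟩ := hcon k n M N p n1 (lad k W) W ⌊e * k ^ 2⌋₊ h14 hb hd
    (off_lad k W) r1 r2 r3 (fun t ht => Nat.le_floor (loc.hfar t (by omega) (by omega)))
    (fun a ha => Nat.le_floor (loc.hfarI a (by omega)))
  have qd : ∀ v, out (res (pull p k n1 M) Wᶜ + lad k W + Q) v ≤ k := fun v => by
    by_cases hv : v ∈ W
    · rw [off_out (((off_res _ W).add (off_lad k W)).add q1) hv]
      exact Nat.zero_le _
    · rw [q4 v hv]
      exact hd _
  obtain ⟨H, V, X, a1, a2, a3, a4, a5, a6, a7, a8, a9⟩ := hhea k n1 (pull p k n1 M) Q W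
    ⌊2 * r * k⌋₊ ⌊r * k + 1⌋₊ (⌊e * k ^ 2⌋₊ + k * W.card) ⌊δ * k / 2⌋₊ (by omega) h10 pb.simple q1
    q2 qd (fun v hv => by
      constructor
      · intro hl
        exact Nat.le_floor ((htm n1 true k _ v (r * k) (by omega) hrk
          (hsq ▸ tz v hv (Or.inr (by omega)))).2 fun _ => by omega).1
      · intro hl
        exact Nat.le_floor ((htm n1 true k _ v (r * k) (by omega) hrk
          (hsq ▸ tz v hv (Or.inl (by omega)))).1 fun _ => by omega).1)
    q6 q7 (by exact_mod_cast n1') (by exact_mod_cast n2)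
  have a1' : (H.card : ℝ) ≤ ⌊δ * k / 2⌋₊ := by exact_mod_cast a1
  have hc : ((W ∪ H).card : ℝ) ≤ δ * k := by
    have : ((W ∪ H).card : ℝ) ≤ W.card + H.card := by exact_mod_cast card_union_le W H
    linarith only [this, a1', n3]
  have a5' : (size V : ℝ) ≤ 2 * δ * k ^ 2 := le_trans (by exact_mod_cast a5) n4
  have hk2 : (0 : ℝ) < k ^ 2 := by positivity
  have hsk : 10 * δ * k ^ 2 ≤ s * k ^ 2 := mul_le_mul_of_nonneg_right hδs hk2.le
  have hdk : 0 < δ * k ^ 2 := by positivity
  obtain ⟨v1, v2⟩ := hver κ s δ k n1 (pull p k n1 M) V X (W ∪ H) _ hκ (by linarith only [hκ0]) hδ.le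
    (by linarith only [hδκ, hδ]) (by linarith only [hδs, hδ]) (hrd ▸ n6) h10 (pbs_mono pb n7) hc (a3.bal_iff.1 q2)
    (fun v => (a3.out_le v).trans (qd v))
    (fun v hv => (a4 v hv).trans (q4 v fun h => hv (mem_union_left _ h))) a2
    (by linarith only [a5', hsk, hdk])
    (fun v hv => hrd ▸ le_trans (by exact_mod_cast a6 v hv) n5)
    (fun v hv => hrd ▸ le_trans (by exact_mod_cast a7 v hv) n5)
    (fun v hv => tz v fun h => hv (mem_union_left _ h)) a8 (by
      have h1 : (Lam (cutG k (pull p k n1 M) (W ∪ H) + lad k (W ∪ H) + V + X) : ℝ) ≤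
          Lam (res (pull p k n1 M) Wᶜ + lad k W + Q) := by
        exact_mod_cast a3.sub _ subAdd_lam
      have h2 : (n : ℝ) * Lam (res (pull p k n1 M) Wᶜ + lad k W + Q) ≤ n1 * Lam M := by
        exact_mod_cast q5
      have hn : (0 : ℝ) < n := by exact_mod_cast NeZero.pos n
      have h3 : (n1 : ℝ) * Lam M ≤ n1 * (n * (CC k + e / 16 * k ^ 2)) :=
        mul_le_mul_of_nonneg_left hL (Nat.cast_nonneg _)
      have h4 : (Lam (res (pull p k n1 M) Wᶜ + lad k W + Q) : ℝ) ≤ n1 * (CC k + e / 16 * k ^ 2) :=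
        le_of_mul_le_mul_left (by linarith only [h2, h3]) hn
      exact h1.trans (h4.trans (mul_le_mul_of_nonneg_left (add_le_add le_rfl
        (mul_le_mul_of_nonneg_right (by linarith only [n7, hδs, hδ, he0]) hk2.le))
        (Nat.cast_nonneg _))))
  refine ⟨_, _, V, X, _, v1, fun t ht => q3 t (a3.pack' ht), ?_⟩
  have v3 : (dfc k (cutG k (pull p k n1 M) (W ∪ H)) (univ.filter (deep true k)) : ℝ) ≤
      dfc k M (win p (n1 + 14 * k)) + size V + k * ⌊δ * k / 2⌋₊ + k * (W ∪ H).card := by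
    exact_mod_cast v2.trans (by omega)
  have v4 : (k : ℝ) * (W ∪ H).card ≤ k * (δ * k) := mul_le_mul_of_nonneg_left hc (Nat.cast_nonneg _)
  have v5 : (k : ℝ) * ⌊δ * k / 2⌋₊ ≤ k * (δ * k / 2) :=
    mul_le_mul_of_nonneg_left (Nat.floor_le (by positivity)) (Nat.cast_nonneg _)
  have v6 : 4 * δ * k ^ 2 ≤ 1 * k ^ 2 := mul_le_mul_of_nonneg_right n9 hk2.le
  linarith only [v3, v4, v5, v6, a5', hdk]

end Pool.Agent.MP_2634a8_co.X.SEAM
end
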