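import Mathlib
import Pool.Agent.MP_2634a8_co.Y.Core

attribute [-instance] AddQuantale.instAddLeftMono IdemSemiring.toCanonicallyOrderedAdd
  RKHS.instFunLike covariant_swap_mul_of_covariant_mul NumberField.to_charZero Nontrivial.to_nonempty
  forall_prop_decidable instNonemptyProd instCoeTOfCoeDep AddQuantale.instAddRightMono
  Pi.addCommGroup Zero.instNonempty Quantale.instMulRightMono bot_nonempty Pi.addGroup
  IsOrderedMonoid.toMulLeftMono LinearOrderedCommMonoidWithZero.toPosMulStrictMono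
  DivisionRing.toRing One.instNonempty AddTorsor.nonempty Finset.decidableDforallFinset
  Quantale.instMulLeftMono instCoeHTCTOfCoeTailOfCoeHTC Multiset.decidableDforallMultiset
  TestFunctionClass.toDFunLike instCoeHTCOfCoeHeadOfCoeOTC

section
set_option autoImplicit false

namespace Pool.Agent.MP_2634a8_co.X.CL

open Finset

section gen
variable {A B : Type} [Fintype A] [DecidableEq A] [Fintype B] [DecidableEq B]

omit [Fintype A] in
lemma nco_mono (M : Mat A) {U U' : Finset A} (h : U ⊆ U') : nco M U ≤ nco M U' :=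
  (sum_le_sum fun _ _ => (sum_le_sum fun _ _ => sum_le_sum_of_subset h).trans
    (sum_le_sum_of_subset h)).trans (sum_le_sum_of_subset h)

omit [Fintype A] [Fintype B] in
lemma nco_map (f : A ↪ B) (M : Mat B) (U : Finset A) :
    nco M (U.map f) = nco (fun a b => M (f a) (f b)) U := by
  simp only [nco, sum_map, ne_eq, f.injective.eq_iff]

omit [Fintype A] in
lemma nco_congr {M M' : Mat A} {U : Finset A} (h : ∀ a ∈ U, ∀ b ∈ U, (M a b = 0 ↔ M' a b = 0)) :
    nco M U = nco M' U :=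
  sum_congr rfl fun u hu => sum_congr rfl fun a ha => sum_congr rfl fun b hb => by
    simp only [ne_eq, h u hu a ha, h u hu b hb, h a ha b hb, h b hb a ha]

omit [DecidableEq A] in
lemma pack_emb (e : A ↪ B) (M : Mat B) {t : ℕ} (h : Pack t fun a b => M (e a) (e b)) : Pack t M := by
  refine pack_of_le (fun u v => ?_) (pack_pushM e t _ h)
  have h1 : ∀ u, #{a | e a = u} ≤ 1 := fun u => card_le_one.2 fun a ha b hb =>
    e.injective ((mem_filter.1 ha).2.trans (mem_filter.1 hb).2.symm)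
  unfold pushM
  rw [sum_congr rfl fun a ha => sum_congr rfl (g := fun _ => M u v) fun b hb => by
    rw [← (mem_filter.1 ha).2, ← (mem_filter.1 hb).2]]
  simp only [sum_const, smul_eq_mul]
  calc _ ≤ 1 * (1 * M u v) := Nat.mul_le_mul (h1 u) (Nat.mul_le_mul_right _ (h1 v))
    _ = _ := by simp

omit [Fintype A] [DecidableEq A] in
lemma distrib {J : Type} [Fintype J] [DecidableEq J] (j0 : J) (o : J → ℕ) (x : A → ℕ)
    (hx : ∀ a, x a ≤ 1) (s : Finset A) : ∃ h : A → J,
    (∀ j, ∑ a ∈ s, (if h a = j then x a else 0) ≤ o j) ∨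
      ∀ j, o j ≤ ∑ a ∈ s, if h a = j then x a else 0 := by
  classical
  induction s using Finset.induction_on with
  | empty => exact ⟨fun _ => j0, Or.inl fun j => by simp⟩
  | insert a s ha ih =>
    obtain ⟨h, hh⟩ := ih
    have key : ∀ i j, ∑ b ∈ insert a s, (if Function.update h a i b = j then x b else 0) =
        (if i = j then x a else 0) + ∑ b ∈ s, if h b = j then x b else 0 := fun i j => by
      rw [sum_insert ha, Function.update_self, sum_congr rfl fun b hb => by
        rw [Function.update_of_ne (ne_of_mem_of_not_mem hb ha)]]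
    by_cases hc : ∀ j, o j ≤ ∑ a ∈ s, if h a = j then x a else 0
    · exact ⟨Function.update h a j0, Or.inr fun j => by rw [key]; exact le_add_left (hc j)⟩
    · have h1 := hh.resolve_right hc
      push Not at hc
      obtain ⟨i, hi⟩ := hc
      refine ⟨Function.update h a i, Or.inl fun j => ?_⟩
      rw [key]
      have := hx a
      have := h1 j
      split_ifs with e
      · subst e; omega
      · omega

lemma sum_abs_same {J : Type} [Fintype J] (o c : J → ℕ) (h : (∀ j, c j ≤ o j) ∨ ∀ j, o j ≤ c j) :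
    ∑ j, |(o j : ℝ) - c j| ≤ |((∑ j, o j : ℕ) : ℝ) - (∑ j, c j : ℕ)| := by
  push_cast
  rcases h with h | h
  · rw [sum_congr rfl fun j _ => abs_of_nonneg (sub_nonneg.2 (Nat.cast_le.2 (h j))),
      sum_sub_distrib]
    exact le_abs_self _
  · rw [sum_congr rfl fun j _ => abs_of_nonpos (sub_nonpos.2 (Nat.cast_le.2 (h j))),
      sum_neg_distrib, sum_sub_distrib]
    exact neg_le_abs _

omit [DecidableEq A] in
/-- restriction to a set that carries all arcs -/
lemma restrict (D : Mat A) (S : Finset A) (hS : ∀ a b, D a b ≠ 0 → a ∈ S ∧ b ∈ S) :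
    ∃ e : Fin #S ↪ A, univ.map e = S ∧
      (∀ a, out (fun a b => D (e a) (e b)) a = out D (e a)) ∧
      (∀ a, inn (fun a b => D (e a) (e b)) a = inn D (e a)) ∧
      size (fun a b => D (e a) (e b)) = size D ∧ imb (fun a b => D (e a) (e b)) ≤ imb D := by
  let e : Fin #S ↪ A := S.equivFin.symm.toEmbedding.trans (Function.Embedding.subtype _)
  have he : univ.map e = S := by
    ext a
    simp only [mem_map, mem_univ, true_and]
    exact ⟨fun ⟨i, hi⟩ => hi ▸ (S.equivFin.symm i).2, fun h => ⟨S.equivFin ⟨a, h⟩, by simp [e]⟩⟩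
  have hs : ∀ g : A → ℕ, (∀ a, g a ≠ 0 → a ∈ S) → ∑ i, g (e i) = ∑ a, g a := fun g hg => by
    rw [← sum_map univ e g, he]
    exact sum_subset (subset_univ _) fun a _ ha => by_contra fun h => ha (hg a h)
  have h1 : ∀ a, out (fun a b => D (e a) (e b)) a = out D (e a) := fun a =>
    hs (D (e a)) fun b h => (hS _ _ h).2
  have h2 : ∀ a, inn (fun a b => D (e a) (e b)) a = inn D (e a) := fun a =>
    hs (fun b => D b (e a)) fun b h => (hS _ _ h).1
  refine ⟨e, he, h1, h2, ?_, ?_⟩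
  · unfold size
    simp only [h1]
    exact hs (out D) fun a h => by
      obtain ⟨b, hb⟩ := exists_out h
      exact (hS _ _ hb).1
  · unfold imb
    simp only [h1, h2]
    rw [← sum_map univ e fun a => |(out D a : ℝ) - inn D a|]
    exact sum_le_sum_of_subset_of_nonneg (subset_univ _) fun _ _ _ => abs_nonneg _

end gen

variable {V : Type} [Fintype V] [DecidableEq V]

/-- cloning the vertices of `T` makes a matrix with bounded multiplicities simple -/
theorem clone (D0 : Mat V) (μ : ℕ) (I T : Finset V) (hμ : 1 ≤ μ) (hT : T ⊆ I)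
    (hI : ∀ u v, D0 u v ≠ 0 → u ∈ I ∧ v ∈ I) (hl : ∀ u, D0 u u = 0) (hm : ∀ u v, D0 u v ≤ μ)
    (h1 : ∀ u v, u ∉ T → D0 u v ≤ 1) : ∃ (N : ℕ) (D : Mat (Fin N)),
    N = (I \ T).card + μ * T.card ∧ Simple D ∧ (∀ t, Pack t D → Pack t D0) ∧
    (∀ a, ∃ v, out D a ≤ out D0 v ∧ inn D a ≤ inn D0 v) ∧ size D = size D0 ∧ imb D ≤ imb D0 ∧
    nco D0 (I \ T) ≤ nco D univ ∧ nci D0 (I \ T) ≤ nci D univ := by
  obtain ⟨μ, rfl⟩ : ∃ m, μ = m + 1 := ⟨μ - 1, by omega⟩
  let D1 : V × Fin (μ + 1) → V → ℕ := fun a v => if (a.2 : ℕ) < D0 a.1 v then 1 else 0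
  have d1 : ∀ a v, D1 a v ≤ 1 := fun a v => by simp only [D1]; split_ifs <;> omega
  have d2 : ∀ u v, ∑ j, D1 (u, j) v = D0 u v := fun u v => by
    simp only [D1]
    rw [Fin.sum_univ_eq_sum_range (fun j => if j < D0 u v then 1 else 0), ← card_filter,
      show (range (μ + 1)).filter (fun j => j < D0 u v) = range (D0 u v) by
        ext j; have := hm u v; simp only [mem_filter, mem_range]; omega, card_range]
  have d3 : ∀ a v, D1 a v ≠ 0 → (a.2 : ℕ) < D0 a.1 v := fun a v h => by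
    by_contra hc
    exact h (if_neg hc)
  have d4 : ∀ a v, a.1 ∉ T → D1 a v ≠ 0 → a.2 = 0 := fun a v ha h => by
    have := d3 a v h
    have := h1 _ v ha
    exact Fin.ext (by simp only [Fin.val_zero]; omega)
  have : ∀ v, ∃ h : V × Fin (μ + 1) → Fin (μ + 1), (v ∉ T → ∀ a, h a = 0) ∧
      ((∀ j, ∑ a, (if h a = j then D1 a v else 0) ≤ ∑ w, D1 (v, j) w) ∨
        ∀ j, ∑ w, D1 (v, j) w ≤ ∑ a, if h a = j then D1 a v else 0) := fun v => by
    by_cases hv : v ∈ T
    · obtain ⟨h, hh⟩ := distrib 0 (fun j => ∑ w, D1 (v, j) w) (fun a => D1 a v) (fun a => d1 a v) univ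
      exact ⟨h, fun h' => absurd hv h', hh⟩
    · refine ⟨fun _ => 0, fun _ _ => rfl, ?_⟩
      have h0 : ∀ j, j ≠ 0 → ∑ w, D1 (v, j) w = 0 := fun j hj =>
        sum_eq_zero fun w _ => by_contra fun h => hj (d4 (v, j) w hv h)
      rcases le_total (∑ a, D1 a v) (∑ w, D1 (v, 0) w) with h | h
      · refine Or.inl fun j => ?_
        by_cases hj : 0 = j
        · subst hj; simpa only [↓ reduceIte] using h
        · simp only [hj, ↓ reduceIte, sum_const_zero, zero_le]
      · refine Or.inr fun j => ?_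
        by_cases hj : 0 = j
        · subst hj; simpa only [↓ reduceIte] using h
        · simp [h0 j (Ne.symm hj)]
  choose h hh0 hh using this
  let D' : Mat (V × Fin (μ + 1)) := fun a b => if h b.1 a = b.2 then D1 a b.1 else 0
  have e0 : ∀ a v, ∑ j, D' a (v, j) = D1 a v := fun a v => by simp [D']
  have e1 : ∀ a, out D' a = ∑ w, D1 a w := fun a => by
    rw [out, Fintype.sum_prod_type]; simp only [e0]
  have e2 : ∀ v, ∑ j, out D' (v, j) = out D0 v := fun v => by
    simp only [e1]; rw [sum_comm]; simp only [d2]; rfl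
  have e3 : ∀ v, ∑ j, inn D' (v, j) = inn D0 v := fun v => by
    unfold inn
    rw [sum_comm]
    simp only [e0]
    rw [Fintype.sum_prod_type]
    simp only [d2]
  have e4 : ∀ a b, D' a b ≠ 0 → h b.1 a = b.2 ∧ D1 a b.1 ≠ 0 := fun a b hab => by
    by_cases hc : h b.1 a = b.2
    · exact ⟨hc, by simpa only [D', hc, if_true] using hab⟩
    · exact absurd (if_neg hc) hab
  let S : Finset (V × Fin (μ + 1)) := (I \ T) ×ˢ {0} ∪ T ×ˢ univ
  have hS : ∀ a, a ∈ S ↔ a.1 ∈ I ∧ (a.1 ∉ T → a.2 = 0) := fun a => by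
    have := @hT a.1
    simp only [S, mem_union, mem_product, mem_sdiff, mem_singleton, mem_univ, and_true]
    tauto
  obtain ⟨e, he, r1, r2, r3, r4⟩ := restrict D' S fun a b hab => by
    obtain ⟨h2, h3⟩ := e4 a b hab
    have h4 := hI _ _ (Nat.ne_zero_of_lt (d3 a _ h3))
    exact ⟨(hS a).2 ⟨h4.1, fun ha => d4 a _ ha h3⟩, (hS b).2 ⟨h4.2, fun hb => h2 ▸ hh0 _ hb a⟩⟩
  let f : V ↪ V × Fin (μ + 1) := ⟨fun v => (v, 0), fun _ _ h => congrArg Prod.fst h⟩
  have hf : (I \ T).map f ⊆ univ.map e := by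
    rw [he]
    intro a ha
    obtain ⟨v, hv, rfl⟩ := mem_map.1 ha
    exact (hS _).2 ⟨(mem_sdiff.1 hv).1, fun _ => rfl⟩
  have hz : ∀ a ∈ I \ T, ∀ b ∈ I \ T, (D0 a b = 0 ↔ D' (f a) (f b) = 0) := fun a _ b hb => by
    have : h b (a, 0) = 0 := hh0 b (mem_sdiff.1 hb).2 _
    simp only [D', D1, f, Function.Embedding.coeFn_mk, this, ↓ reduceIte, Fin.coe_ofNat_eq_mod, Nat.zero_mod, ite_eq_right_iff, one_ne_zero, imp_false, not_lt, nonpos_iff_eq_zero]
  refine ⟨#S, fun a b => D' (e a) (e b), ?_, ⟨fun a b => ?_, fun a => ?_⟩, fun t ht => ?_,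
    fun a => ⟨(e a).1, ?_, ?_⟩, ?_, r4.trans ?_, ?_, ?_⟩
  · rw [card_union_of_disjoint (disjoint_product.2 (Or.inl sdiff_disjoint))]
    simp [mul_comm]
  · simp only [D']
    split_ifs
    · exact d1 _ _
    · omega
  · by_contra hc
    have := d3 _ _ (e4 _ _ hc).2
    rw [hl] at this
    omega
  · refine pack_of_le (fun u v => le_of_eq ?_) (pack_pushM Prod.fst t _ (pack_emb e D' ht))
    have hp : ∀ (u : V) (g : V × Fin (μ + 1) → ℕ),
        ∑ a ∈ univ.filter (fun a : V × Fin (μ + 1) => a.1 = u), g a = ∑ j, g (u, j) := fun u g => by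
      rw [sum_filter, Fintype.sum_prod_type, sum_comm]
      simp only [sum_ite_eq', mem_univ, ↓ reduceIte]
    simp only [pushM, hp, e0, d2]
  · rw [r1, ← e2]
    exact single_le_sum (f := fun j => out D' ((e a).1, j)) (fun _ _ => Nat.zero_le _) (mem_univ _)
  · rw [r2, ← e3]
    exact single_le_sum (f := fun j => inn D' ((e a).1, j)) (fun _ _ => Nat.zero_le _) (mem_univ _)
  · rw [r3, size, Fintype.sum_prod_type]
    simp only [e2]
    rfl
  · unfold imb
    rw [Fintype.sum_prod_type]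
    refine sum_le_sum fun v _ => ?_
    rw [← e2, ← e3]
    refine sum_abs_same _ _ ?_
    simp only [e1]
    exact hh v
  · rw [nco_congr hz, ← nco_map f D', ← nco_map e D']
    exact nco_mono _ hf
  · unfold nci
    rw [nco_congr (M' := fun a b => D' (f b) (f a)) fun a ha b hb => hz b hb a ha,
      ← nco_map f fun a b => D' b a, ← nco_map e fun a b => D' b a]
    exact nco_mono _ hf

end Pool.Agent.MP_2634a8_co.X.CL
end

section
set_option autoImplicit false

namespace Pool.Agent.MP_2634a8_co.X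

open Finset

namespace CL

variable {V : Type} [Fintype V] [DecidableEq V]

/-- extension of tokens by unused arcs -/
lemma extend (R : Mat V) (k μ : ℕ) (hμ : 1 ≤ μ) (hR : ∀ u v, R u v ≤ 1) :
    ∀ (n : ℕ) (G : Mat V), size G = n → (∀ y, out R y + out G y ≤ k) →
    ∃ Us X F : Mat V, Us ≤ R ∧ Rt (Us + G) (X + F) ∧ size X = size Us ∧ (∀ y, out X y ≤ out G y) ∧
      (∀ y, X y y = 0) ∧ (∀ y v, R y v + X y v ≤ μ) ∧ (∀ y v, X y v ≠ 0 → inn R v ≠ 0) ∧
      (∀ x, out Us x + inn F x = inn G x) ∧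
      ∀ x, inn F x ≠ 0 → μ * out R x ≤ μ * (out Us x + 1) + k
  | 0, G, hn, _ => by
    rw [eq_zero_of_size hn]
    exact ⟨0, 0, 0, zero_le, Rt.refl _, rfl, fun _ => le_rfl, fun _ => rfl,
      fun y v => (hR y v).trans hμ, fun _ _ h => absurd rfl h, fun x => by simp [out_zero],
      fun x h => absurd (inn_zero x) h⟩
  | n + 1, G, hn, hk => by
    obtain ⟨y, -, hy⟩ := exists_ne_zero_of_sum_ne_zero (s := univ) (f := out G)
      (by unfold size at hn; omega)
    obtain ⟨x, hx⟩ := exists_out hy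
    obtain ⟨G, rfl⟩ := exists_add_E hx
    obtain ⟨Us, X, F, h1, h2, h3, h4, h5, h6, h7, h8, h9⟩ := extend R k μ hμ hR n G
      (by rw [size_add, size_E] at hn; omega) fun v => by
        have := hk v; rw [out_add] at this; omega
    by_cases hc : ∃ z, Us x z < R x z ∧ z ≠ y ∧ R y z + X y z < μ
    · obtain ⟨z, c1, c2, c3⟩ := hc
      refine ⟨Us + E x z, X + E y z, F, fun u v => ?_, ?_, by simp only [size_add, size_E, h3],
        fun v => ?_, fun v => ?_, fun u v => ?_, fun u v h => ?_, fun v => ?_, fun v hv => ?_⟩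
      · have : Us u v ≤ R u v := h1 u v
        simp only [Pi.add_apply, E]
        split_ifs with h
        · obtain ⟨rfl, rfl⟩ := h; omega
        · omega
      · rw [show Us + E x z + (G + E y x) = Us + G + (E y x + E x z) by abel,
          add_right_comm X]
        exact h2.add (Rt.short y x z)
      · have := h4 v
        simp only [out_add, out_E]; omega
      · have : ¬ (v = y ∧ v = z) := fun h => c2 (h.2.symm.trans h.1)
        simp [h5, E, this]
      · have := h6 u v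
        simp only [Pi.add_apply, E]
        split_ifs with h
        · obtain ⟨rfl, rfl⟩ := h; omega
        · omega
      · by_cases h0 : X u v = 0
        · have : v = z := (E_ne_zero.1 (by simpa [h0] using h)).2
          have := le_inn R x v
          subst v; omega
        · exact h7 u v h0
      · have := h8 v
        simp only [out_add, inn_add, out_E, inn_E]; omega
      · refine (h9 v hv).trans (Nat.add_le_add_right (Nat.mul_le_mul_left _ ?_) _)
        rw [out_add]; omega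
    · push Not at hc
      refine ⟨Us, X, F + E y x, h1, ?_, h3, fun v => ?_, h5, h6, h7, fun v => ?_, fun v hv => ?_⟩
      · rw [← add_assoc, ← add_assoc]
        exact h2.add_right _
      · have := h4 v
        rw [out_add]; omega
      · have := h8 v
        simp only [inn_add, inn_E]; omega
      · by_cases h0 : inn F v = 0
        · obtain rfl : v = x := by
            by_contra h
            simp [inn_add, inn_E, h0, h] at hv
          have a1 : ∀ z, μ * R v z ≤ μ * (Us v z + if z = y then 1 else 0) + (R y z + X y z) :=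
            fun z => by
              have := hR v z
              by_cases b1 : Us v z < R v z
              · by_cases b2 : z = y
                · rw [if_pos b2]
                  exact le_add_right (Nat.mul_le_mul_left _ (by omega))
                · exact le_add_left ((Nat.mul_le_mul_left _ this).trans (by
                    simpa using hc z b1 b2))
              · exact le_add_right (Nat.mul_le_mul_left _ (by omega))
          have a2 := sum_le_sum fun z (_ : z ∈ univ) => a1 z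
          simp only [sum_add_distrib, ← mul_sum, sum_ite_eq', mem_univ, if_true] at a2
          have := hk y
          have := h4 y
          rw [out_add] at *
          unfold out at *
          omega
        · exact h9 v h0

lemma nco_loss {M N Us : Mat V} {U : Finset V} {k : ℕ} (hk : ∀ v, out M v ≤ k)
    (h : ∀ a ∈ U, ∀ b ∈ U, N a b ≤ M a b ∧ M a b ≤ N a b + Us a b) :
    nco M U ≤ nco N U + 2 * k * size Us := by
  have h1 : nco M U ≤ nco N U +
      ∑ u ∈ U, ∑ a ∈ U, ∑ b ∈ U, (Us u a * M u b + M u a * Us u b) := by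
    simp only [nco, ← sum_add_distrib]
    refine sum_le_sum fun u hu => sum_le_sum fun a ha => sum_le_sum fun b hb => ?_
    have := h u hu a ha
    have := h u hu b hb
    have := h a ha b hb
    have := h b hb a ha
    by_cases c : a ≠ b ∧ M u a ≠ 0 ∧ M u b ≠ 0 ∧ M a b = 0 ∧ M b a = 0
    · rw [if_pos c]
      by_cases c1 : N u a = 0
      · have : 0 < Us u a * M u b := Nat.mul_pos (by omega) (by omega)
        omega
      · by_cases c2 : N u b = 0
        · have : 0 < M u a * Us u b := Nat.mul_pos (by omega) (by omega)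
          omega
        · rw [if_pos ⟨c.1, c1, c2, by omega, by omega⟩]; omega
    · rw [if_neg c]; omega
  refine h1.trans (Nat.add_le_add_left ?_ _)
  calc _ ≤ ∑ u, ∑ a, ∑ b, (Us u a * M u b + M u a * Us u b) :=
        (sum_le_sum fun _ _ => (sum_le_sum fun _ _ => sum_le_sum_of_subset (subset_univ _)).trans
          (sum_le_sum_of_subset (subset_univ _))).trans (sum_le_sum_of_subset (subset_univ _))
    _ = ∑ u, (out Us u * out M u + out M u * out Us u) := by
        simp only [sum_add_distrib, out, sum_mul_sum]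
    _ ≤ ∑ u, 2 * k * out Us u := sum_le_sum fun u _ => by
        have := Nat.mul_le_mul_left (out Us u) (hk u)
        linarith only [this]
    _ = _ := by rw [← mul_sum]; rfl

omit [DecidableEq V] in
lemma imb_le {D F : Mat V} (h : Bal (D + F)) : imb D ≤ 2 * size F := by
  have h1 : ∀ v, |(out D v : ℝ) - inn D v| ≤ out F v + inn F v := fun v => by
    have h2 : (out D v : ℝ) + out F v = inn D v + inn F v := by
      have := h v
      rw [out_add, inn_add] at this
      exact_mod_cast this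
    have : (0 : ℝ) ≤ out F v := Nat.cast_nonneg _
    have : (0 : ℝ) ≤ inn F v := Nat.cast_nonneg _
    rw [abs_le]; constructor <;> linarith
  refine (sum_le_sum fun v _ => h1 v).trans (le_of_eq ?_)
  rw [sum_add_distrib, ← Nat.cast_sum, ← Nat.cast_sum, ← size_inn, two_mul]
  rfl

omit [DecidableEq V] in
lemma size_supp {Q : Mat V} {S : Finset V} (h : ∀ a b, Q a b ≠ 0 → a ∈ S) :
    size Q = ∑ a ∈ S, out Q a :=
  (sum_subset (subset_univ _) fun a _ ha => by_contra fun h0 => by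
    obtain ⟨b, hb⟩ := exists_out h0
    exact ha (h a b hb)).symm

omit [DecidableEq V] in
lemma size_supp' {Q : Mat V} {S : Finset V} (h : ∀ v, inn Q v ≠ 0 → v ∈ S) :
    size Q = ∑ a ∈ S, inn Q a :=
  (size_inn Q).trans (sum_subset (subset_univ _) fun a _ ha => by_contra fun h0 => ha (h a h0)).symm

end CL

open CL in
theorem cl (hfd : FD_s) : CL_s := by
  intro V _ _ M k μ I T Hd hμ hs hb hk hT hH hTH
  set R := res M I with hRd
  let P : Mat V := fun u v => if u ∈ I ∧ v ∈ I then 0 else M u v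
  have hM : M = R + P := by
    funext u v
    simp only [hRd, res, P, Pi.add_apply]
    split_ifs <;> omega
  have p1 : ∀ a ∈ I, out P a = ∑ v ∈ Iᶜ, M a v := fun a ha => by
    rw [out, ← sum_add_sum_compl I, sum_eq_zero fun v hv => if_pos ⟨ha, hv⟩, zero_add]
    exact sum_congr rfl fun v hv => if_neg fun h => mem_compl.1 hv h.2
  have p2 : ∀ a ∈ I, inn P a = ∑ v ∈ Iᶜ, M v a := fun a ha => by
    rw [inn, ← sum_add_sum_compl I, sum_eq_zero fun v hv => if_pos ⟨hv, ha⟩, zero_add]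
    exact sum_congr rfl fun v hv => if_neg fun h => mem_compl.1 hv h.1
  obtain ⟨Q, q1, q2, q3⟩ := hfd V P Iᶜ fun u hu => by
    have := mem_compl.1 hu
    simpa only [out, P, this, false_and, ↓ reduceIte, inn, and_false] using hb u
  simp only [mem_compl, not_not] at q2 q3
  let G : Mat V := fun y x => if y ∈ T ∧ x ∈ Hd then Q y x else 0
  let B : Mat V := fun y x => if y ∈ T ∧ x ∈ Hd then 0 else Q y x
  have hQ : Q = G + B := by
    funext u v
    simp only [G, B, Pi.add_apply]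
    split_ifs <;> omega
  have g1 : ∀ y x, G y x ≠ 0 → y ∈ T ∧ x ∈ Hd := fun y x h => by_contra fun hc => h (if_neg hc)
  have hGQ : G ≤ Q := hQ ▸ le_self_add
  have hRM : R ≤ M := res_le M I
  have o1 : ∀ v, out R v + out P v = out M v := fun v => by rw [← out_add, ← hM]
  obtain ⟨Us, X, F, h1, h2, h3, h4, h5, h6, h7, h8, h9⟩ := extend R k μ hμ
    (fun u v => (hRM u v).trans (hs.1 u v)) _ G rfl fun y => by
      have := out_mono hGQ y; have := q1.out_le y; have := o1 y; have := hk y; omega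
  obtain ⟨R', hR'⟩ := exists_add (W := Us) (M := R) h1
  have hX : ∀ u v, u ∉ T → X u v = 0 := fun u v hu => by
    have := le_out X u v
    have := h4 u
    have : out G u = 0 := by_contra fun h => by
      obtain ⟨b, hb⟩ := exists_out h
      exact hu (g1 _ _ hb).1
    omega
  have hRR : ∀ u v, R u v = R' u v + Us u v := fun u v => congrFun (congrFun hR' u) v
  have rt : Rt M (R' + X + (F + B)) := by
    conv_lhs => rw [hM, hR']
    refine (q1.add_left _).trans ?_
    rw [hQ, show R' + Us + (G + B) = R' + (Us + G) + B by abel,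
      show R' + X + (F + B) = R' + (X + F) + B by abel]
    exact (h2.add_left _).add_right _
  obtain ⟨N, D, d1, d2, d3, d4, d5, d6, d7, d8⟩ := clone (R' + X) μ I T hμ hT (fun u v h => by
      by_cases h0 : X u v = 0
      · have := hRR u v
        have h' : R u v ≠ 0 := by simp only [Pi.add_apply] at h; omega
        exact ⟨(res_ne.1 h').1, (res_ne.1 h').2.1⟩
      · obtain ⟨w, hw⟩ := exists_inn (h7 u v h0)
        exact ⟨hT (by_contra fun hu => h0 (hX u v hu)), (res_ne.1 hw).2.1⟩)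
    (fun u => by
      have := hRR u u; have := hs.2 u; have : R u u ≤ M u u := hRM u u
      simp only [Pi.add_apply, h5]; omega)
    (fun u v => by have := hRR u v; have := h6 u v; simp only [Pi.add_apply]; omega)
    fun u v hu => by
      have := hRR u v; have := hs.1 u v; have : R u v ≤ M u v := hRM u v
      simp only [Pi.add_apply, hX u v hu]; omega
  have hloc : ∀ a ∈ I \ T, ∀ b ∈ I \ T,
      (R' + X) a b ≤ M a b ∧ M a b ≤ (R' + X) a b + Us a b := fun a ha b hb => by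
    have := hRR a b
    have : R a b = M a b := if_pos ⟨(mem_sdiff.1 ha).1, (mem_sdiff.1 hb).1⟩
    simp only [Pi.add_apply, hX a b (mem_sdiff.1 ha).2]; omega
  have s1 : size Us ≤ eb M I Iᶜ := by
    have a1 : size Us ≤ size G := by
      rw [size_inn G]
      exact sum_le_sum fun v _ => by have := h8 v; omega
    refine a1.trans ((size_mono hGQ).trans (le_of_eq ?_))
    rw [size_supp fun a b h => (q2 a b h).1]
    exact sum_congr rfl fun a ha => (q3 a ha).1.trans (p1 a ha)
  refine ⟨N, D, d1, d2, fun t ht => rt.pack' (pack_mono _ _ _ (d3 t ht)), fun a => ?_, ?_,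
    d6.trans ((imb_le (rt.bal_iff.1 hb)).trans ?_), ?_⟩
  · obtain ⟨v, v1, v2⟩ := d4 a
    have := rt.out_le v; have := rt.inn_le v; have := hk v; have := hb v
    rw [out_add (R' + X)] at *
    rw [inn_add (R' + X)] at *
    omega
  · rw [d5, size_add, h3, ← size_add, ← hR', sum_out_eq, size_supp fun a b h => (res_ne.1 h).1]
    refine Nat.add_le_add_right (sum_le_sum fun a ha => ?_) _
    exact (sum_le_sum (g := res M I a) fun v hv => (if_pos ⟨ha, hv⟩).ge).trans
      (sum_le_sum_of_subset (subset_univ I))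
  · have b1 : size B ≤ eb M (I \ T) Iᶜ + eb M Iᶜ (I \ Hd) := by
      have e1 : eb M (I \ T) Iᶜ = ∑ a ∈ I \ T, out Q a := sum_congr rfl fun a ha =>
        ((q3 a (mem_sdiff.1 ha).1).1.trans (p1 a (mem_sdiff.1 ha).1)).symm
      have e2 : eb M Iᶜ (I \ Hd) = ∑ a ∈ I \ Hd, inn Q a := sum_comm.trans (sum_congr rfl fun a ha =>
        ((q3 a (mem_sdiff.1 ha).1).2.trans (p2 a (mem_sdiff.1 ha).1)).symm)
      have e3 : ∀ (S : Finset V) (g : V → ℕ),
          ∑ a ∈ S, g a = ∑ a, g a * if a ∈ S then 1 else 0 := fun S g => by simp only [mul_ite, mul_one, mul_zero, sum_ite_mem, univ_inter]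
      rw [e1, e2, e3 _ (out Q), e3 _ (inn Q), ← wsum_tail, ← wsum_head, ← wsum_fadd]
      refine sum_le_sum fun y _ => sum_le_sum fun x _ => ?_
      by_cases h0 : Q y x = 0
      · simp [B, h0]
      · have := q2 y x h0
        by_cases hy : y ∈ T <;> by_cases hx : x ∈ Hd <;> simp only [B, hy, hx, and_self, ↓ reduceIte, mem_sdiff, this, not_true_eq_false, and_false, add_zero, mul_zero, Std.le_refl, not_false_eq_true, zero_add, mul_one, and_true, Nat.reduceAdd, ge_iff_le] <;> omega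
    have hμ' : (0 : ℝ) < μ := by exact_mod_cast hμ
    have b2 : (size F : ℝ) ≤ eb M (I \ T) Iᶜ + Hd.card * ((k : ℝ) / μ + 2) := by
      have f1 : ∀ v, inn F v ≠ 0 → v ∈ Hd := fun v hv => by
        obtain ⟨w, hw⟩ := exists_inn (M := G) (v := v) (by have := h8 v; omega)
        exact (g1 _ _ hw).2
      have f2 : ∀ v ∈ Hd, (inn F v : ℝ) ≤ out P v + ((k : ℝ) / μ + 2) := fun v _ => by
        by_cases h0 : inn F v = 0
        · rw [h0, Nat.cast_zero]; positivity
        · have c1 : μ * inn F v ≤ μ * (out P v + 1) + k := by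
            have := h9 v h0
            have c2 : out Us v + inn F v ≤ out R v + out P v := by
              have := h8 v; have := inn_mono hGQ v; have := q1.inn_le v; have := o1 v
              have := hb v; have := inn_mono (hM ▸ le_add_self : P ≤ M) v
              omega
            have := Nat.mul_le_mul_left μ c2
            nlinarith
          have c3 : (μ : ℝ) * inn F v ≤ μ * (out P v + 1) + k := by exact_mod_cast c1
          have c4 : (k : ℝ) = μ * (k / μ) := by field_simp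
          refine le_of_mul_le_mul_left ?_ hμ'
          linarith only [c3, c4]
      have f3 : ∑ v ∈ Hd, out P v ≤ eb M (I \ T) Iᶜ :=
        (sum_congr rfl fun a ha => p1 a (hH ha)).trans_le (sum_le_sum_of_subset fun a ha =>
          mem_sdiff.2 ⟨hH ha, disjoint_right.1 hTH ha⟩)
      rw [size_supp' f1, Nat.cast_sum]
      refine (sum_le_sum f2).trans ?_
      rw [sum_add_distrib, sum_const, nsmul_eq_mul, ← Nat.cast_sum]
      exact add_le_add_left (Nat.cast_le.2 f3) _
    have b3 : (size B : ℝ) ≤ eb M (I \ T) Iᶜ + eb M Iᶜ (I \ Hd) := by exact_mod_cast b1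
    rw [size_add]
    push_cast
    linarith only [b2, b3]
  · have c1 := nco_loss hk hloc
    have c2 : nci M (I \ T) ≤ nci (R' + X) (I \ T) + 2 * k * size fun u v => Us v u :=
      nco_loss (M := fun u v => M v u) (fun v => (hb v).symm.trans_le (hk v))
        fun a ha b hb => hloc b hb a ha
    rw [show (size fun u v => Us v u) = size Us from (size_inn Us).symm] at c2
    have c3 := Nat.mul_le_mul_left (2 * k) s1
    have : nco M (I \ T) + nci M (I \ T) ≤ nco D univ + nci D univ + 4 * k * eb M I Iᶜ := by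
      linarith only [d7, d8, c1, c2, c3]
    exact_mod_cast this

end Pool.Agent.MP_2634a8_co.X
end

section
namespace Pool.Agent.MP_2634a8_co.X.S2

open Finset

lemma ind_sum {x : ℕ → ℕ} (hx : Monotone x) (J y r : ℕ) (p : ℕ → Prop) [DecidablePred p]
    (h : ∀ j < J, p j → x j ≤ y ∧ y < x (j + 1) ∧ 1 ≤ r) :
    ∑ j ∈ range J, (if p j then 1 else 0) ≤ r := by
  rw [← card_filter]
  by_cases h0 : (filter p (range J)).Nonempty
  · obtain ⟨i, hi⟩ := h0
    have hi' := h i (mem_range.1 (mem_filter.1 hi).1) (mem_filter.1 hi).2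
    refine le_trans (card_le_one.2 fun a ha b hb => ?_) hi'.2.2
    have ha' := h a (mem_range.1 (mem_filter.1 ha).1) (mem_filter.1 ha).2
    have hb' := h b (mem_range.1 (mem_filter.1 hb).1) (mem_filter.1 hb).2
    rcases lt_trichotomy a b with h1 | h1 | h1
    · have := hx (show a + 1 ≤ b from h1); omega
    · exact h1
    · have := hx (show b + 1 ≤ a from h1); omega
  · rw [not_nonempty_iff_eq_empty.1 h0]; simp

section cyc
variable {n : ℕ} [NeZero n]

lemma eb_win {H : Mat (ZMod n)} (hb : Bal H) (a : ZMod n) (m : ℕ) :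
    eb H (win a m) (win a m)ᶜ ≤ cross H (a - 1) := by
  rw [eb_bal hb, eb_eq]
  refine wsum_le fun u v _ => ?_
  rw [crs_pred]
  simp only [mem_compl, mem_win]
  split_ifs <;> omega

lemma sumG (H : Mat (ZMod n)) {x : ℕ → ℕ} (hx : Monotone x) (J : ℕ) (a : ZMod n) :
    ∑ j ∈ range J, eb H (win a (x (j + 1)))ᶜ (win a (x (j + 1)) \ win a (x j)) ≤
      cross H (a - 1) := by
  simp only [eb_eq]
  rw [← wsum_fsum]
  refine wsum_le fun u v _ => ind_sum hx J (lam a v) _ _ fun j _ h => ?_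
  rw [crs_pred]
  simp only [mem_compl, mem_win, mem_sdiff] at h
  split_ifs <;> omega

lemma sumF (H : Mat (ZMod n)) {x : ℕ → ℕ} (hx : Monotone x) (J : ℕ) (hJ : x J < n) (c : ZMod n) :
    ∑ j ∈ range J, eb H (win (c - x (j + 1)) (x (j + 1) - x j))
      (win (c - x (j + 1)) (x (j + 1)))ᶜ ≤ cross H (c - 1) := by
  simp only [eb_eq]
  rw [← wsum_fsum]
  refine wsum_le fun u v _ => ind_sum hx J (n - 1 - lam c u) _ _ fun j hj h => ?_
  rw [crs_pred]
  simp only [mem_compl, mem_win] at h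
  have h1 := hx (show j + 1 ≤ J from hj)
  have h2 := lam_sub_nat c (d := x (j + 1)) (by omega)
  have h3 := lam_tri (c - ((x (j + 1) : ℕ) : ZMod n)) c u
  have h4 := lam_tri (c - ((x (j + 1) : ℕ) : ZMod n)) c v
  have h5 := lam_lt c u
  have h6 := lam_lt c v
  have h7 := lam_lt (c - ((x (j + 1) : ℕ) : ZMod n)) v
  split_ifs <;> omega

lemma scaleZ (H : Mat (ZMod n)) {x : ℕ → ℕ} (hx : Monotone x) {J : ℕ} (h0 : 0 < J) (hJ : x J < n)
    {W : ℕ} (hW : ∀ t, cross H t ≤ W) (d : ZMod n → ℕ) : ∃ j < J, ∃ a : ZMod n,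
    J * n * (eb H (win a (x (j + 1) - x j)) (win a (x (j + 1)))ᶜ +
      eb H (win a (x (j + 1)))ᶜ (win a (x (j + 1)) \ win a (x j)) +
      ∑ v ∈ win a (x (j + 1)), d v) ≤ 2 * n * W + J * (x J * ∑ v, d v) := by
  have hF : ∑ j ∈ range J, ∑ a : ZMod n, eb H (win a (x (j + 1) - x j)) (win a (x (j + 1)))ᶜ ≤
      n * W := by
    have e : ∀ j, ∑ a : ZMod n, eb H (win a (x (j + 1) - x j)) (win a (x (j + 1)))ᶜ =
        ∑ c : ZMod n, eb H (win (c - x (j + 1)) (x (j + 1) - x j))
          (win (c - x (j + 1)) (x (j + 1)))ᶜ := fun j =>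
      (Equiv.sum_comp (Equiv.subRight ((x (j + 1) : ℕ) : ZMod n))
        fun a => eb H (win a (x (j + 1) - x j)) (win a (x (j + 1)))ᶜ).symm
    simp only [e]
    rw [sum_comm]
    refine (sum_le_sum fun c _ => (sumF H hx J hJ c).trans (hW _)).trans ?_
    simp [ZMod.card]
  have hG : ∑ j ∈ range J, ∑ a : ZMod n,
      eb H (win a (x (j + 1)))ᶜ (win a (x (j + 1)) \ win a (x j)) ≤ n * W := by
    rw [sum_comm]
    refine (sum_le_sum fun c _ => (sumG H hx J c).trans (hW _)).trans ?_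
    simp [ZMod.card]
  have hD : ∑ j ∈ range J, ∑ a : ZMod n, ∑ v ∈ win a (x (j + 1)), d v ≤ J * (x J * ∑ v, d v) := by
    refine (sum_le_sum (g := fun _ => x J * ∑ v, d v) fun j hj => ?_).trans (by simp)
    have h1 := hx (show j + 1 ≤ J from mem_range.1 hj)
    rw [sum_sum_win _ (by omega)]
    exact Nat.mul_le_mul_right _ h1
  obtain ⟨⟨j, a⟩, hm, h⟩ := exists_le_of_sum_le (s := range J ×ˢ (univ : Finset (ZMod n)))
    (f := fun p => J * n * (eb H (win p.2 (x (p.1 + 1) - x p.1)) (win p.2 (x (p.1 + 1)))ᶜ +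
      eb H (win p.2 (x (p.1 + 1)))ᶜ (win p.2 (x (p.1 + 1)) \ win p.2 (x p.1)) +
      ∑ v ∈ win p.2 (x (p.1 + 1)), d v))
    (g := fun _ => 2 * n * W + J * (x J * ∑ v, d v))
    ⟨(0, 0), by simp only [mem_product, mem_range, h0, mem_univ, and_self]⟩ (by
      rw [← mul_sum, sum_product, sum_const, card_product, card_range, card_univ, ZMod.card,
        smul_eq_mul]
      refine Nat.mul_le_mul_left _ ?_
      simp only [sum_add_distrib]
      rw [mul_assoc]
      omega)
  exact ⟨j, mem_range.1 (mem_product.1 hm).1, a, h⟩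

end cyc

variable {V : Type} [Fintype V] [DecidableEq V]

omit [Fintype V] [DecidableEq V] in
lemma eb_map {W : Type} (e : W ≃ V) (H : Mat V) (S T : Finset W) :
    eb H (S.map e.toEmbedding) (T.map e.toEmbedding) = eb (fun u v => H (e u) (e v)) S T := by
  simp only [eb, sum_map, Function.Embedding.coeFn_mk]

omit [DecidableEq V] in
lemma out_equiv {W : Type} [Fintype W] (e : W ≃ V) (H : Mat V) (u : W) :
    out (fun u v => H (e u) (e v)) u = out H (e u) := Equiv.sum_comp e fun v => H (e u) v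

omit [DecidableEq V] in
lemma inn_equiv {W : Type} [Fintype W] (e : W ≃ V) (H : Mat V) (u : W) :
    inn (fun u v => H (e u) (e v)) u = inn H (e u) := Equiv.sum_comp e fun v => H v (e u)

/-- scale selection -/
theorem scale (hopt : OPT_s) (H : Mat V) (k : ℕ) (hs : Simple H) (hb : Bal H) {W : ℝ}
    (hf : Fas H W) {x : ℕ → ℕ} (hx : ∀ j, 2 * x j ≤ x (j + 1)) {J : ℕ} (h0 : 0 < J)
    (hJ : x J < Fintype.card V) : ∃ j < J, ∃ I T Hd : Finset V, T ⊆ I ∧ Hd ⊆ I ∧ Disjoint T Hd ∧
      I.card = x (j + 1) ∧ T.card = x j ∧ Hd.card = x j ∧ (eb H I Iᶜ : ℝ) ≤ W ∧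
      (eb H (I \ T) (I \ T)ᶜ : ℝ) ≤ W ∧
      (eb H (I \ T) Iᶜ + eb H Iᶜ (I \ Hd) + dfc k H I : ℝ) ≤
        2 * W / J + x J * dfc k H univ / Fintype.card V := by
  obtain ⟨n, hn⟩ : ∃ n, Fintype.card V = n := ⟨_, rfl⟩
  rw [hn] at hJ ⊢
  have : NeZero n := ⟨by omega⟩
  have hm : Monotone x := monotone_nat_of_le_succ fun j => by have := hx j; omega
  obtain ⟨e, -, hL⟩ := hopt V n H W hn hs hb hf
  set G : Mat (ZMod n) := fun u v => H (e u) (e v) with hG
  have hGb : Bal G := fun v => by rw [hG, out_equiv, inn_equiv, hb]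
  have hnp : (0 : ℝ) < n := by exact_mod_cast (by omega : 0 < n)
  have hJp : (0 : ℝ) < J := by exact_mod_cast h0
  have hc : ∀ t, (cross G t : ℝ) ≤ W := fun t => by
    rw [Lam_bal hGb t] at hL
    push_cast at hL
    exact le_of_mul_le_mul_left hL hnp
  obtain ⟨j, hj, a, h⟩ := scaleZ G hm h0 hJ (W := cross G 0) (fun t => (cross_bal hGb t 0).le)
    fun v => k - out G v
  have h1 := hm (show j + 1 ≤ J from hj)
  have h2 := hx j
  have cm : ∀ S : Finset (ZMod n), (S.map e.toEmbedding)ᶜ = Sᶜ.map e.toEmbedding := fun S => by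
    ext v; simp [mem_map_equiv]
  have sm : ∀ S T : Finset (ZMod n),
      S.map e.toEmbedding \ T.map e.toEmbedding = (S \ T).map e.toEmbedding := fun S T => by
    ext v; simp [mem_map_equiv]
  have ww : win a (x (j + 1)) \ (win a (x (j + 1)) \ win a (x (j + 1) - x j)) =
      win a (x (j + 1) - x j) := by
    ext v; simp only [mem_sdiff, mem_win]; omega
  have ws : ∀ m ≤ x (j + 1), win a m ⊆ win a (x (j + 1)) := fun m hm v hv => by
    rw [mem_win] at hv ⊢; omega
  refine ⟨j, hj, (win a (x (j + 1))).map e.toEmbedding,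
    (win a (x (j + 1)) \ win a (x (j + 1) - x j)).map e.toEmbedding, (win a (x j)).map e.toEmbedding,
    map_subset_map.2 sdiff_subset, map_subset_map.2 (ws _ (by omega)), ?_, ?_, ?_, ?_, ?_, ?_, ?_⟩
  · rw [disjoint_map, disjoint_left]
    intro v hv hv'
    simp only [mem_sdiff, mem_win] at hv hv'
    omega
  · rw [card_map, card_win a (by omega)]
  · rw [card_map, card_sdiff_of_subset (ws _ (by omega)), card_win a (by omega),
      card_win a (by omega)]
    omega
  · rw [card_map, card_win a (by omega)]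
  · rw [cm, eb_map]
    exact le_trans (by exact_mod_cast eb_win hGb a _) (hc (a - 1))
  · rw [sm, ww, cm, eb_map]
    exact le_trans (by exact_mod_cast eb_win hGb a _) (hc (a - 1))
  · rw [sm, ww, cm, sm, eb_map, eb_map]
    have e1 : dfc k H ((win a (x (j + 1))).map e.toEmbedding) =
        ∑ v ∈ win a (x (j + 1)), (k - out G v) := by
      simp only [dfc, sum_map, Equiv.coe_toEmbedding, hG, out_equiv]
    have e2 : dfc k H univ = ∑ v, (k - out G v) := by
      simp only [dfc, hG, out_equiv]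
      exact (Equiv.sum_comp e fun v => k - out H v).symm
    rw [e1, e2, div_add_div _ _ hJp.ne' hnp.ne', le_div_iff₀ (mul_pos hJp hnp)]
    have h3 : ((J * n * (eb G (win a (x (j + 1) - x j)) (win a (x (j + 1)))ᶜ +
      eb G (win a (x (j + 1)))ᶜ (win a (x (j + 1)) \ win a (x j)) +
      ∑ v ∈ win a (x (j + 1)), (k - out G v)) : ℕ) : ℝ) ≤
        ((2 * n * cross G 0 + J * (x J * ∑ v, (k - out G v)) : ℕ) : ℝ) := by exact_mod_cast h
    rw [Nat.cast_mul, Nat.cast_mul, Nat.cast_add, Nat.cast_add, Nat.cast_add, Nat.cast_mul,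
      Nat.cast_mul, Nat.cast_mul, Nat.cast_mul] at h3
    have h4 := mul_le_mul_of_nonneg_left (hc 0) hnp.le
    push_cast at h3 ⊢
    linarith only [h4, h3]

end Pool.Agent.MP_2634a8_co.X.S2
end

section
namespace Pool.Agent.MP_2634a8_co.X.S2

open Finset

def D1at (η : ℝ) (n0 : ℕ) : Prop := ∀ (V : Type) [Fintype V] [DecidableEq V]
  (D : Mat V) (k : ℕ), n0 ≤ Fintype.card V → 4 * k ≤ Fintype.card V → Simple D →
  (∀ v, out D v ≤ k ∧ inn D v ≤ k) → ∃ t : ℕ, Pack t D ∧
    (∑ v, ((out D v : ℝ) * (out D v - 1) + (inn D v : ℝ) * (inn D v - 1)) +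
      nco D univ + nci D univ) / (4 * Fintype.card V) - imb D -
      η * (Fintype.card V : ℝ) ^ 2 ≤ t

variable {V : Type} [Fintype V]

lemma sq_low (f : V → ℕ) {z : ℝ} (hz : 0 ≤ z) (hN : 0 < Fintype.card V)
    (h : z * Fintype.card V ≤ (∑ v, f v : ℕ)) :
    z ^ 2 * Fintype.card V ≤ ∑ v, (f v : ℝ) ^ 2 := by
  have h1 := sq_sum_le_card_mul_sum_sq (s := (univ : Finset V)) (f := fun v => (f v : ℝ))
  have hp : (0 : ℝ) < Fintype.card V := by exact_mod_cast hN
  rw [card_univ] at h1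
  push_cast at h
  have h2 := pow_le_pow_left₀ (mul_nonneg hz hp.le) h 2
  refine le_of_mul_le_mul_left ?_ hp
  linarith only [h1, h2]

lemma dfc_add {M : Mat V} {k : ℕ} (hk : ∀ v, out M v ≤ k) (I : Finset V) :
    dfc k M I + ∑ v ∈ I, out M v = k * I.card := by
  rw [dfc, ← sum_add_distrib, sum_congr rfl (g := fun _ => k) fun v _ => by have := hk v; omega]
  simp [mul_comm]

lemma dfc_sub (M : Mat V) (k : ℕ) {U I : Finset V} (h : U ⊆ I) : dfc k M U ≤ dfc k M I :=
  sum_le_sum_of_subset h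

omit [Fintype V] in
lemma eb_mono {M N : Mat V} (h : M ≤ N) (S T : Finset V) : eb M S T ≤ eb N S T :=
  sum_le_sum fun u _ => sum_le_sum fun v _ => h u v

lemma pack_choose {M : Mat V} {t k : ℕ} (hp : Pack t M) (h : (k : ℝ) ^ 2 / 2 + k / 2 ≤ t) :
    Pack ((k + 1).choose 2) M := by
  refine pack_le ?_ hp
  have : (((k + 1).choose 2 : ℕ) : ℝ) ≤ t := by
    rw [Nat.cast_choose_two]; push_cast; linarith
  exact_mod_cast this

variable [DecidableEq V]

theorem core (hcl : CL_s) {η : ℝ} {n0 : ℕ} (hη : 0 ≤ η) (hd : D1at η n0) (M : Mat V) (k μ : ℕ)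
    (I T Hd : Finset V) (hμ : 1 ≤ μ) (hs : Simple M) (hb : Bal M) (hk : ∀ v, out M v ≤ k)
    (hT : T ⊆ I) (hH : Hd ⊆ I) (hTH : Disjoint T Hd) (h0 : n0 ≤ I.card) (h4 : 4 * k ≤ I.card)
    (hk1 : 1 ≤ k) {δ N1 y : ℝ} (hδ : δ ≤ 1) (hN : (I.card + μ * T.card : ℝ) ≤ N1)
    (hsz : (1 - δ) * k * N1 + dfc k M I + eb M I Iᶜ ≤ k * I.card) (hy0 : 0 ≤ y)
    (hy : y = 0 ∨ 4 * N1 * y + 4 * k * eb M I Iᶜ ≤ nco M (I \ T) + nci M (I \ T)) :
    ∃ t : ℕ, Pack t M ∧ (1 - 2 * δ) * k ^ 2 / 2 - k / 2 + y -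
      2 * (2 * eb M (I \ T) Iᶜ + eb M Iᶜ (I \ Hd) + Hd.card * ((k : ℝ) / μ + 2)) -
      η * N1 ^ 2 ≤ t := by
  obtain ⟨N, D, hN', hD, hp, hdeg, hsize, himb, hch⟩ := hcl V M k μ I T Hd hμ hs hb hk hT hH hTH
  have c1 := card_sdiff_add_card_eq_card hT
  have c2 : T.card ≤ μ * T.card := Nat.le_mul_of_pos_left _ hμ
  have c3 : Fintype.card (Fin N) = N := Fintype.card_fin N
  obtain ⟨t, ht, h⟩ := hd (Fin N) D k (by omega) (by omega) hD hdeg
  refine ⟨t, hp t ht, le_trans ?_ h⟩
  have hNp : (0 : ℝ) < N := by exact_mod_cast (by omega : 0 < N)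
  have hN1 : (N : ℝ) ≤ N1 := le_trans (by exact_mod_cast (by omega : N ≤ I.card + μ * T.card)) hN
  have hz : (0 : ℝ) ≤ (1 - δ) * k := mul_nonneg (by linarith only [hδ]) (Nat.cast_nonneg k)
  have hs1 : (1 - δ) * k * Fintype.card (Fin N) ≤ (size D : ℕ) := by
    have e1 : (dfc k M I + (∑ v ∈ I, out M v : ℕ) : ℝ) = k * I.card := by
      exact_mod_cast dfc_add hk I
    have e2 : ((∑ v ∈ I, out M v : ℕ) : ℝ) ≤ size D + eb M I Iᶜ := by exact_mod_cast hsize
    have e3 := mul_le_mul_of_nonneg_left hN1 hz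
    rw [c3]; linarith only [hsz, e1, e2, e3]
  have hA := sq_low (out D) hz (by omega) hs1
  have hB := sq_low (inn D) hz (by omega) (by rw [← size_inn]; exact hs1)
  have hC : ∑ v, (out D v : ℝ) ≤ k * N := by
    refine (sum_le_sum (g := fun _ => (k : ℝ)) fun v _ => by exact_mod_cast (hdeg v).1).trans ?_
    simp only [sum_const, card_univ, Fintype.card_fin, nsmul_eq_mul, mul_comm, Std.le_refl]
  have hC' : ∑ v, (inn D v : ℝ) ≤ k * N := by
    refine (sum_le_sum (g := fun _ => (k : ℝ)) fun v _ => by exact_mod_cast (hdeg v).2).trans ?_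
    simp only [sum_const, card_univ, Fintype.card_fin, nsmul_eq_mul, mul_comm, Std.le_refl]
  have hE : 4 * N * y ≤ (nco D univ : ℝ) + nci D univ := by
    rcases hy with rfl | hy
    · rw [mul_zero]; positivity
    · have := mul_le_mul_of_nonneg_right hN1 hy0
      linarith only [hch, hy, this]
  have e : ∑ v, ((out D v : ℝ) * (out D v - 1) + (inn D v : ℝ) * (inn D v - 1)) =
      ∑ v, (out D v : ℝ) ^ 2 + ∑ v, (inn D v : ℝ) ^ 2 - ∑ v, (out D v : ℝ) -
        ∑ v, (inn D v : ℝ) := by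
    rw [← sum_add_distrib, ← sum_sub_distrib, ← sum_sub_distrib]
    exact sum_congr rfl fun v _ => by ring
  rw [c3] at hA hB ⊢
  have h1 : (1 - 2 * δ) * k ^ 2 / 2 - k / 2 + y ≤
      (∑ v, ((out D v : ℝ) * (out D v - 1) + (inn D v : ℝ) * (inn D v - 1)) +
        nco D univ + nci D univ) / (4 * N) := by
    rw [le_div_iff₀ (by positivity), e]
    have : 0 ≤ (δ * k) ^ 2 * N := by positivity
    linarith only [hA, hB, hC, hC', hE, this]
  have h2 : η * (N : ℝ) ^ 2 ≤ η * N1 ^ 2 :=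
    mul_le_mul_of_nonneg_left (pow_le_pow_left₀ hNp.le hN1 2) hη
  linarith only [himb, h1, h2]

theorem win1 (hcl : CL_s) {η c W : ℝ} {n0 : ℕ} (hη : 0 ≤ η) (hd : D1at η n0) (M : Mat V)
    (k μ K K' : ℕ) (I T Hd : Finset V) (hμ : 1 ≤ μ) (hs : Simple M) (hb : Bal M)
    (hk : ∀ v, out M v ≤ k) (hT : T ⊆ I) (hH : Hd ⊆ I) (hTH : Disjoint T Hd)
    (hc : 0 < c) (hc1 : c ≤ 1) (hW : 0 ≤ W) (hKμ : (K : ℝ) ≤ c / 600 * μ)
    (hK' : 100 * (μ * K + K + W + 1) ≤ c * K') (hη' : η * (2 * K') ^ 2 ≤ c / 100)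
    (hck : 50 * (4 * (K : ℝ) + 1) ≤ c * k) (h0 : n0 ≤ k) (cI : I.card = K' * k)
    (cT : T.card = K * k) (cH : Hd.card = K * k) (e0 : (eb M I Iᶜ : ℝ) ≤ W * k ^ 2)
    (e1 : (eb M (I \ T) Iᶜ + eb M Iᶜ (I \ Hd) + dfc k M I : ℝ) ≤ c / 600 * k ^ 2)
    (hch : c * k ^ 2 * (I \ T).card ≤ nco M (I \ T) + nci M (I \ T)) :
    Pack ((k + 1).choose 2) M := by
  have pK : (0 : ℝ) ≤ K := Nat.cast_nonneg _
  have pK' : (0 : ℝ) ≤ K' := Nat.cast_nonneg _
  have pk : (0 : ℝ) ≤ k := Nat.cast_nonneg _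
  have pμ : (1 : ℝ) ≤ μ := by exact_mod_cast hμ
  have pμK : (0 : ℝ) ≤ μ * K := by positivity
  have cK' : c * K' ≤ K' := mul_le_of_le_one_left pK' hc1
  have ck : c * k ≤ k := mul_le_of_le_one_left pk hc1
  have hk1 : 1 ≤ k := by exact_mod_cast (by linarith only [hck, ck] : (1 : ℝ) ≤ k)
  have hK4 : 4 ≤ K' := by exact_mod_cast (by linarith only [hW, hK', pμK, cK'] : (4 : ℝ) ≤ K')
  have h4 : 4 * k ≤ I.card := by rw [cI]; exact Nat.mul_le_mul_right _ hK4
  have cU : ((I \ T).card : ℝ) = (K' - K) * k := by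
    have := card_sdiff_add_card_eq_card hT
    rw [cI, cT] at this
    have : ((I \ T).card + K * k : ℝ) = K' * k := by exact_mod_cast this
    linarith only [this]
  have p1 : (0 : ℝ) ≤ eb M (I \ T) Iᶜ := Nat.cast_nonneg _
  have p2 : (0 : ℝ) ≤ eb M Iᶜ (I \ Hd) := Nat.cast_nonneg _
  have p3 : (0 : ℝ) ≤ dfc k M I := Nat.cast_nonneg _
  have q2 : (0 : ℝ) ≤ (k : ℝ) ^ 2 := by positivity
  obtain ⟨t, ht, h⟩ := core hcl hη hd M k μ I T Hd hμ hs hb hk hT hH hTH (by omega) h4 hk1
    (δ := c / 100) (N1 := (K' + μ * K) * k) (y := c / 20 * k ^ 2) (by linarith only [hc1])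
    (by rw [cI, cT]; push_cast; linarith only [])
    (by
      rw [cI]; push_cast
      have a1 : (μ * K + c / 600 + W) * (k : ℝ) ^ 2 ≤ c / 100 * (K' + μ * K) * k ^ 2 := by
        refine mul_le_mul_of_nonneg_right ?_ q2
        have := mul_nonneg hc.le pμK
        linarith only [hc1, hK', this]
      linarith only [e0, e1, a1])
    (by positivity)
    (Or.inr (by
      refine le_trans ?_ hch
      rw [cU]
      have a1 : (c * (K' + μ * K) / 5 + 4 * W) * (k : ℝ) ^ 3 ≤ c * (K' - K) * k ^ 3 := by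
        refine mul_le_mul_of_nonneg_right ?_ (by positivity)
        have := mul_le_of_le_one_left pμK hc1
        have := mul_le_of_le_one_left pK hc1
        linarith
      have a2 := mul_le_mul_of_nonneg_left e0 pk
      linarith only [a1, a2]))
  refine pack_choose ht (le_trans ?_ h)
  have a1 : (Hd.card : ℝ) * ((k : ℝ) / μ + 2) ≤ c / 600 * k ^ 2 + 2 * K * k := by
    have : (K : ℝ) / μ ≤ c / 600 := by rw [div_le_iff₀ (by linarith only [pμ])]; exact hKμ
    have h5 := mul_le_mul_of_nonneg_right this q2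
    rw [cH]; push_cast
    have e : (K : ℝ) * k * (k / μ + 2) = K / μ * k ^ 2 + 2 * K * k := by ring
    linarith only [h5, e]
  have a2 : η * ((K' + μ * K) * k : ℝ) ^ 2 ≤ c / 100 * k ^ 2 := by
    have b1 : ((K' + μ * K : ℝ)) ^ 2 ≤ (2 * K') ^ 2 :=
      pow_le_pow_left₀ (by positivity) (by linarith only [hW, hK', pμK, cK']) 2
    have b2 := (mul_le_mul_of_nonneg_left b1 hη).trans hη'
    have b3 := mul_le_mul_of_nonneg_right b2 q2
    rw [mul_pow, ← mul_assoc]; exact b3
  have a3 := mul_le_mul_of_nonneg_right hck pk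
  linarith only [e1, a1, a2, a3]

theorem win2 (hcl : CL_s) {η l : ℝ} {n0 : ℕ} (hη : 0 ≤ η) (hd : D1at η n0) (M : Mat V)
    (k μ m : ℕ) (I T Hd : Finset V) (hs : Simple M) (hb : Bal M)
    (hk : ∀ v, out M v ≤ k) (hT : T ⊆ I) (hH : Hd ⊆ I) (hTH : Disjoint T Hd)
    (hl : 0 < l) (hl1 : l ≤ 1 / 2) (hμ : 1 ≤ l * μ) (hm : 2 * ((μ : ℝ) + 2) ≤ l * m)
    (hη' : η * ((m : ℝ) + μ) ^ 2 ≤ l) (h0 : n0 ≤ k) (hk1 : 1 ≤ k) (cT : T.card ≤ k)
    (cH : Hd.card ≤ k) (cI : (1 - l) * m * k ≤ I.card) (cI' : I.card ≤ m * k)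
    (e1 : (eb M (I \ T) Iᶜ : ℝ) ≤ l * k ^ 2) (e2 : (eb M Iᶜ (I \ Hd) : ℝ) ≤ l * k ^ 2)
    (e0 : (eb M I Iᶜ : ℝ) ≤ CC k + l * k ^ 2) (e3 : (dfc k M I : ℝ) ≤ l * k ^ 2) :
    ∃ t : ℕ, Pack t M ∧ (k : ℝ) ^ 2 / 2 - 10 * l * k ^ 2 - 9 / 2 * k ≤ t := by
  have pk : (1 : ℝ) ≤ k := by exact_mod_cast hk1
  have pμ : (0 : ℝ) ≤ μ := Nat.cast_nonneg _
  have pm : (0 : ℝ) ≤ m := Nat.cast_nonneg _
  have q2 : (0 : ℝ) ≤ (k : ℝ) ^ 2 := by positivity
  have lμ := mul_le_mul_of_nonneg_right hl1 pμ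
  have lm := mul_le_mul_of_nonneg_right hl1 pm
  have hμ1 : 1 ≤ μ := by exact_mod_cast (by linarith only [hμ, lμ] : (1 : ℝ) ≤ μ)
  have cI2 : (m : ℝ) / 2 * k ≤ I.card :=
    le_trans (mul_le_mul_of_nonneg_right (by linarith only [lm]) (by linarith only [hl, hl1, pk])) cI
  have h4 : 4 * k ≤ I.card := by
    have : (4 : ℝ) * k ≤ m / 2 * k := mul_le_mul_of_nonneg_right (by linarith only [hm, lm]) (by linarith only [hl, hl1, pk])
    exact_mod_cast this.trans cI2
  have cT' : (T.card : ℝ) ≤ k := by exact_mod_cast cT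
  have cH' : (Hd.card : ℝ) ≤ k := by exact_mod_cast cH
  have cI3 : (I.card : ℝ) ≤ m * k := by exact_mod_cast cI'
  obtain ⟨t, ht, h⟩ := core hcl hη hd M k μ I T Hd hμ1 hs hb hk hT hH hTH (by omega) h4 hk1
    (δ := l) (N1 := I.card + μ * k) (y := 0) (by linarith only [hl, hl1])
    (by have := mul_le_mul_of_nonneg_left cT' pμ; linarith only [this])
    (by
      have a1 := mul_le_mul_of_nonneg_left cI2 (show 0 ≤ l * k by positivity)
      have a2 := mul_le_mul_of_nonneg_right hm q2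
      have a3 := mul_le_mul_of_nonneg_right hl1 q2
      have a4 : (k : ℝ) ≤ k ^ 2 := by nlinarith only [pk]
      have a5 : 0 ≤ l * μ * (k : ℝ) ^ 2 := by positivity
      unfold CC at e0
      linarith only [e0, e3, a1, a2, a3, a4, a5])
    le_rfl (Or.inl rfl)
  refine ⟨t, ht, le_trans ?_ h⟩
  have a1 : (Hd.card : ℝ) * ((k : ℝ) / μ + 2) ≤ l * k ^ 2 + 2 * k := by
    have b1 : (k : ℝ) / μ ≤ l * k := by
      rw [div_le_iff₀ (by linarith only [hμ, lμ])]
      have := mul_le_mul_of_nonneg_right hμ (show (0 : ℝ) ≤ k by linarith only [hl, hl1, pk])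
      linarith only [this]
    have b2 : (Hd.card : ℝ) * ((k : ℝ) / μ + 2) ≤ k * (l * k + 2) :=
      mul_le_mul cH' (by linarith only [b1]) (by positivity) (by linarith only [hl, hl1, pk])
    linarith only [b2]
  have a2 : η * (I.card + μ * k : ℝ) ^ 2 ≤ l * k ^ 2 := by
    have b1 : (I.card + μ * k : ℝ) ^ 2 ≤ ((m + μ) * k) ^ 2 :=
      pow_le_pow_left₀ (by positivity) (by linarith only [cI3]) 2
    have b2 := mul_le_mul_of_nonneg_left b1 hη
    have b3 := mul_le_mul_of_nonneg_right hη' q2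
    rw [mul_pow, ← mul_assoc] at b2
    linarith only [b2, b3]
  linarith only [e1, e2, a1, a2]

theorem gr2 (hgr : GR_s) (F : Mat V) (k : ℕ) (hs : Simple F) (hb : Bal F) (hk : ∀ v, out F v ≤ k)
    (hk1 : 1 ≤ k) (hn : 484 * k ≤ Fintype.card V) {β : ℝ} (hβ : 0 ≤ β)
    (h : β * k * Fintype.card V ≤ size F) : ∃ t : ℕ, Pack t F ∧ β ^ 2 * k ^ 2 / 4 ≤ t := by
  obtain ⟨t, ht, h1⟩ := hgr V F k hs hb hk
  refine ⟨t, ht, ?_⟩
  have h2 := sq_low (out F) (z := β * k) (by positivity) (by omega) h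
  have hp : (0 : ℝ) < Fintype.card V := by exact_mod_cast (by omega : 0 < Fintype.card V)
  have hn' : (484 : ℝ) * k ≤ Fintype.card V := by exact_mod_cast hn
  have h3 : √((Fintype.card V : ℝ) * k) ≤ Fintype.card V / 22 :=
    Real.sqrt_le_iff.2 ⟨by positivity, by nlinarith only [hn']⟩
  have h4 : ∑ v, (out F v : ℝ) ^ 2 ≤ 2 * ∑ v, (out F v : ℝ) * (out F v + 1) / 2 := by
    rw [mul_sum]
    refine sum_le_sum fun v _ => ?_
    have : (0 : ℝ) ≤ out F v := Nat.cast_nonneg _
    linarith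
  have h5 := mul_le_mul_of_nonneg_left h3 (Nat.cast_nonneg (α := ℝ) t)
  refine le_of_mul_le_mul_right ?_ hp
  linarith only [h1, h2, h4, h5]

lemma out_res (H : Mat V) {I : Finset V} {v : V} (hv : v ∈ Iᶜ) :
    out (res H Iᶜ) v + ∑ w ∈ I, H v w = out H v := by
  have : out (res H Iᶜ) v = ∑ w ∈ Iᶜ, H v w := by
    simp only [out, res, hv, true_and]
    rw [← sum_filter, filter_mem_eq_inter, univ_inter]
  rw [this, add_comm, sum_add_sum_compl, out]

lemma inn_res (H : Mat V) {I : Finset V} {v : V} (hv : v ∈ Iᶜ) :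
    inn (res H Iᶜ) v + ∑ w ∈ I, H w v = inn H v := by
  have : inn (res H Iᶜ) v = ∑ w ∈ Iᶜ, H w v := by
    simp only [inn, res, hv, and_true]
    rw [← sum_filter, filter_mem_eq_inter, univ_inter]
  rw [this, add_comm, sum_add_sum_compl I fun w => H w v, inn]

lemma out_res0 (H : Mat V) {I : Finset V} {v : V} (hv : v ∈ I) : out (res H Iᶜ) v = 0 := by
  simp only [out, res, mem_compl, hv, not_true_eq_false, false_and, ↓ reduceIte, sum_const_zero]

lemma inn_res0 (H : Mat V) {I : Finset V} {v : V} (hv : v ∈ I) : inn (res H Iᶜ) v = 0 := by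
  simp only [inn, res, mem_compl, hv, not_true_eq_false, and_false, ↓ reduceIte, sum_const_zero]

lemma dfc_res (H : Mat V) (k : ℕ) (I : Finset V) :
    dfc k (res H Iᶜ) univ ≤ k * I.card + dfc k H univ + eb H Iᶜ I := by
  have h1 : dfc k (res H Iᶜ) I ≤ k * I.card := by
    refine (sum_le_sum (g := fun _ => k) fun v _ => Nat.sub_le _ _).trans ?_
    simp [mul_comm]
  have h2 : dfc k (res H Iᶜ) Iᶜ ≤ dfc k H Iᶜ + eb H Iᶜ I := by
    rw [dfc, dfc, eb, ← sum_add_distrib]
    refine sum_le_sum fun v hv => ?_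
    have := out_res H hv
    omega
  have h3 := dfc_sub H k (subset_univ Iᶜ)
  have h4 : dfc k (res H Iᶜ) I + dfc k (res H Iᶜ) Iᶜ = dfc k (res H Iᶜ) univ :=
    sum_add_sum_compl _ _
  omega

lemma imb_res {H : Mat V} (hb : Bal H) (I : Finset V) : imb (res H Iᶜ) ≤ 2 * eb H I Iᶜ := by
  rw [imb, ← sum_add_sum_compl I, sum_eq_zero fun v hv => by
    rw [out_res0 H hv, inn_res0 H hv]; simp, zero_add]
  have h1 : ∑ v ∈ Iᶜ, |(out (res H Iᶜ) v : ℝ) - inn (res H Iᶜ) v| ≤
      ∑ v ∈ Iᶜ, (((∑ w ∈ I, H v w : ℕ) : ℝ) + (∑ w ∈ I, H w v : ℕ)) := by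
    refine sum_le_sum fun v hv => ?_
    have a1 : (out (res H Iᶜ) v + (∑ w ∈ I, H v w : ℕ) : ℝ) = out H v := by
      exact_mod_cast out_res H hv
    have a2 : (inn (res H Iᶜ) v + (∑ w ∈ I, H w v : ℕ) : ℝ) = out H v := by
      rw [hb v]; exact_mod_cast inn_res H hv
    have a3 : (0 : ℝ) ≤ (∑ w ∈ I, H v w : ℕ) := Nat.cast_nonneg _
    have a4 : (0 : ℝ) ≤ (∑ w ∈ I, H w v : ℕ) := Nat.cast_nonneg _
    rw [abs_le]; constructor <;> linarith
  refine h1.trans (le_of_eq ?_)
  rw [sum_add_distrib, ← Nat.cast_sum, ← Nat.cast_sum, sum_comm (s := Iᶜ) (f := fun v w => H w v)]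
  have : (eb H Iᶜ I : ℝ) = eb H I Iᶜ := by rw [eb_bal hb]
  show (eb H Iᶜ I : ℝ) + eb H I Iᶜ = _
  linarith

end Pool.Agent.MP_2634a8_co.X.S2
end

section
namespace Pool.Agent.MP_2634a8_co.X

open Finset

namespace S2

lemma scales (c W : ℝ) (hc : 0 < c) : ∃ K : ℕ → ℕ, K 0 = 1 ∧ ∀ j, ∃ μ : ℕ, 1 ≤ μ ∧
    (K j : ℝ) ≤ c / 600 * μ ∧ 100 * (μ * K j + K j + W + 1) ≤ c * K (j + 1) := by
  let mu : ℕ → ℕ := fun K => ⌈(K : ℝ) / (c / 600)⌉₊ + 1
  refine ⟨fun j => Nat.rec 1 (fun _ K => ⌈100 * (mu K * K + K + W + 1 : ℝ) / c⌉₊) j, rfl,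
    fun j => ?_⟩
  beta_reduce
  generalize hK : (Nat.rec 1 (fun _ K => ⌈100 * (mu K * K + K + W + 1 : ℝ) / c⌉₊) j : ℕ) = K
  refine ⟨mu K, Nat.le_add_left _ _, ?_, ?_⟩
  · have h1 := Nat.le_ceil ((K : ℝ) / (c / 600))
    rw [div_le_iff₀ (by positivity)] at h1
    simp only [mu]; push_cast; linarith only [hc, h1]
  · have h1 := Nat.le_ceil (100 * (mu K * K + K + W + 1 : ℝ) / c)
    rw [div_le_iff₀ hc] at h1
    simp only [hK]
    linarith only [h1]

/-- first stage: a packing, or a set with few cherries -/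
theorem stage1 (hopt : OPT_s) (hf : FKS_s) (hcl : CL_s) (hd : D1_s) {ζ c : ℝ} (hζ : 0 < ζ)
    (hc : 0 < c) (hc1 : c ≤ 1) : ∃ η : ℝ, 0 < η ∧ ∃ L k0 : ℕ, ∀ k, k0 ≤ k → 1 ≤ k →
    ∀ (V : Type) [Fintype V] [DecidableEq V] (H : Mat V), L * k ≤ Fintype.card V → Simple H →
    Bal H → (∀ v, out H v ≤ k) → Girth H (ζ * Fintype.card V / k) →
    (dfc k H univ : ℝ) ≤ η * k * Fintype.card V → Pack ((k + 1).choose 2) H ∨
    ∃ U : Finset V, U.Nonempty ∧ (nco H U + nci H U : ℝ) ≤ c * k ^ 2 * U.card ∧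
      (dfc k H U : ℝ) ≤ c * k * U.card ∧ (eb H U Uᶜ : ℝ) ≤ c * k * U.card := by
  obtain ⟨W, hW⟩ : ∃ W : ℝ, W = 200 / ζ ^ 2 := ⟨_, rfl⟩
  have pW : 0 ≤ W := by rw [hW]; positivity
  obtain ⟨K, hK0, hK⟩ := scales c W hc
  obtain ⟨J, hJ⟩ := exists_nat_gt (2400 * W / c)
  have pJ : (0 : ℝ) < J := lt_of_le_of_lt (by positivity) hJ
  rw [div_lt_iff₀ hc] at hJ
  have h2 : ∀ j, 2 * K j ≤ K (j + 1) := fun j => by
    obtain ⟨μ, -, -, h⟩ := hK j
    have a1 : c * K (j + 1) ≤ K (j + 1) := mul_le_of_le_one_left (Nat.cast_nonneg _) hc1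
    have a2 : (0 : ℝ) ≤ μ * K j := by positivity
    have a3 : (0 : ℝ) ≤ K j := by positivity
    exact_mod_cast (by linarith only [pW, h, a1, a2] : (2 : ℝ) * K j ≤ K (j + 1))
  have hm : Monotone K := monotone_nat_of_le_succ fun j => by have := h2 j; omega
  have pKJ : (1 : ℝ) ≤ K J := by exact_mod_cast hK0 ▸ hm (Nat.zero_le J)
  obtain ⟨n0, hn0⟩ := hd (c / 100 / (2 * K J) ^ 2) (by positivity)
  obtain ⟨k1, hk1⟩ := exists_nat_ge (50 * (4 * (K J : ℝ) + 1) / c)
  rw [div_le_iff₀ hc] at hk1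
  refine ⟨c / 1200 / K J, by positivity, K J + 1, max n0 k1,
    fun k hk hk' V _ _ H hn hs hb hdeg hg hdf => ?_⟩
  have pk : (1 : ℝ) ≤ k := by exact_mod_cast hk'
  have hn' : K J * k < Fintype.card V := by rw [add_mul] at hn; omega
  have pn : (0 : ℝ) < Fintype.card V := by exact_mod_cast (by omega : 0 < Fintype.card V)
  have hfas : Fas H (W * k ^ 2) := by
    have h := hf V H _ univ (by positivity) hs hg
    have e : res H univ = H := by funext u v; simp [res]
    rw [e, card_univ] at h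
    refine h.le (le_of_eq ?_)
    rw [hW]; field_simp
  obtain ⟨j, hj, I, T, Hd, hT, hH, hTH, cI, cT, cH, e0, eU, e1⟩ := scale hopt H k hs hb hfas
    (x := fun j => K j * k) (fun j => by rw [← mul_assoc]; exact Nat.mul_le_mul_right _ (h2 j))
    (by exact_mod_cast pJ) hn'
  obtain ⟨μ, hμ, hKμ, hK'⟩ := hK j
  have m1 : (K (j + 1) : ℝ) ≤ K J := by exact_mod_cast hm (show j + 1 ≤ J from hj)
  have m2 : (K j : ℝ) ≤ K J := by exact_mod_cast hm hj.le
  have q2 : (0 : ℝ) ≤ (k : ℝ) ^ 2 := by positivity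
  have e2 : (eb H (I \ T) Iᶜ + eb H Iᶜ (I \ Hd) + dfc k H I : ℝ) ≤ c / 600 * k ^ 2 := by
    refine e1.trans ?_
    have a1 : 2 * (W * k ^ 2) / J ≤ c / 1200 * k ^ 2 := by
      rw [div_le_iff₀ pJ]
      have := mul_le_mul_of_nonneg_right hJ.le q2
      linarith only [this]
    have a2 : ((K J * k : ℕ) : ℝ) * dfc k H univ / Fintype.card V ≤ c / 1200 * k ^ 2 := by
      rw [div_le_iff₀ pn]
      refine (mul_le_mul_of_nonneg_left hdf (Nat.cast_nonneg _)).trans (le_of_eq ?_)
      push_cast; field_simp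
    linarith only [a1, a2]
  by_cases hch : c * k ^ 2 * (I \ T).card ≤ nco H (I \ T) + nci H (I \ T)
  · refine Or.inl (win1 hcl (by positivity) hn0 H k μ (K j) (K (j + 1)) I T Hd hμ hs hb hdeg hT hH
      hTH hc hc1 pW hKμ hK' ?_ ?_ (le_of_max_le_left hk) cI cT cH e0 e2 hch)
    · rw [div_mul_eq_mul_div, div_le_iff₀ (by positivity)]
      exact mul_le_mul_of_nonneg_left (pow_le_pow_left₀ (by positivity) (by linarith only [m1]) 2)
        (by positivity)
    · have a1 : (k1 : ℝ) ≤ k := by exact_mod_cast le_of_max_le_right hk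
      have a2 := mul_le_mul_of_nonneg_left a1 hc.le
      linarith only [hk1, m2, a2]
  · have cU : ((I \ T).card : ℝ) = (K (j + 1) - K j) * k := by
      have := card_sdiff_add_card_eq_card hT
      rw [cI, cT] at this
      have : ((I \ T).card + K j * k : ℝ) = K (j + 1) * k := by exact_mod_cast this
      linarith only [this]
    have a0 : (W + 1) * k ^ 2 ≤ c * k * (I \ T).card := by
      rw [cU]
      have a1 : c * K j ≤ K j := mul_le_of_le_one_left (Nat.cast_nonneg _) hc1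
      have a2 : (0 : ℝ) ≤ μ * K j := by positivity
      have a3 : (0 : ℝ) ≤ K j := by positivity
      have a4 := mul_le_mul_of_nonneg_right
        (show W + 1 ≤ c * (K (j + 1) - K j) by linarith only [pW, hK', a1, a2]) q2
      linarith only [a4]
    have a5 := mul_nonneg pW q2
    refine Or.inr ⟨I \ T, ?_, (not_le.1 hch).le, ?_, by linarith only [eU, q2, a0]⟩
    · rw [← card_pos]
      by_contra h0
      rw [show (I \ T).card = 0 by omega] at a0
      have : (0 : ℝ) < k ^ 2 := by positivity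
      simp only [Nat.cast_zero, mul_zero] at a0
      linarith only [e0, this, a0]
    · have a6 : (dfc k H (I \ T) : ℝ) ≤ dfc k H I := by exact_mod_cast dfc_sub H k sdiff_subset
      have a7 := mul_le_mul_of_nonneg_right hc1 q2
      have p1 : (0 : ℝ) ≤ eb H (I \ T) Iᶜ := Nat.cast_nonneg _
      have p2 : (0 : ℝ) ≤ eb H Iᶜ (I \ Hd) := Nat.cast_nonneg _
      linarith only [e0, e2, a0, a6, a7]

end S2

open S2 in
theorem s2 (hopt : OPT_s) (hf : FKS_s) (hci : CIRC_s) (hcl : CL_s) (hlr : LR_s) (hd : D1_s)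
    (hgr : GR_s) : S2_s := by
  intro ε ζ hε hζ
  obtain ⟨β, hβ, L1, hci⟩ := hci (ε / 4) ζ (by positivity) hζ
  obtain ⟨l, hl, l1, l2, l3⟩ : ∃ l : ℝ, 0 < l ∧ l ≤ 1 / 2 ∧ l ≤ ε / 2 ∧ l ≤ β ^ 2 / 80 :=
    ⟨min (1 / 2) (min (ε / 2) (β ^ 2 / 80)), by positivity, min_le_left _ _,
      (min_le_right _ _).trans (min_le_left _ _), (min_le_right _ _).trans (min_le_right _ _)⟩
  obtain ⟨μ, hμ⟩ := exists_nat_ge (1 / l)
  rw [div_le_iff₀ hl] at hμ
  obtain ⟨m, hm⟩ := exists_nat_ge (2 * ((μ : ℝ) + 2) / l)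
  rw [div_le_iff₀ hl] at hm
  have pμ : (0 : ℝ) ≤ μ := Nat.cast_nonneg _
  have pm : (0 : ℝ) ≤ m := Nat.cast_nonneg _
  have lm := mul_le_mul_of_nonneg_left l1 pm
  have m2 : (2 : ℝ) ≤ m := by linarith only [hm, lm]
  obtain ⟨c, g, hc, k1, hlr⟩ := hlr l m hl (by exact_mod_cast m2)
  obtain ⟨η, hη, L2, k2, h1⟩ := stage1 hopt hf hcl hd hζ (lt_min hc one_pos) (min_le_right c 1)
  obtain ⟨n0, hn0⟩ := hd (l / (m + μ) ^ 2) (by positivity)
  obtain ⟨k3, hk3⟩ := exists_nat_ge (1 / l)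
  rw [div_le_iff₀ hl] at hk3
  obtain ⟨L3, hL3⟩ := exists_nat_ge (g / ζ)
  rw [div_le_iff₀ hζ] at hL3
  obtain ⟨L4, hL4⟩ := exists_nat_ge (2 * ((m : ℝ) + 2) / β)
  rw [div_le_iff₀ hβ] at hL4
  obtain ⟨L5, hL5⟩ := exists_nat_ge (800 * (m : ℝ) ^ 2 / (ε * ζ ^ 2))
  rw [div_le_iff₀ (by positivity)] at hL5
  refine ⟨min η (β / 2), by positivity, L1 + L2 + L3 + L4 + L5 + 484, k1 + k2 + k3 + n0 + 1,
    fun k hk V _ _ H hn hs hb hdeg hg hdf => ?_⟩
  simp only [add_mul] at hn
  have pk : (1 : ℝ) ≤ k := by exact_mod_cast (by omega : 1 ≤ k)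
  have pn : (0 : ℝ) < Fintype.card V := by exact_mod_cast (by omega : 0 < Fintype.card V)
  have q2 : (0 : ℝ) ≤ (k : ℝ) ^ 2 := by positivity
  have kk : (k : ℝ) ≤ k ^ 2 := by nlinarith only [pk]
  have pkn : (0 : ℝ) ≤ (k : ℝ) * Fintype.card V := by positivity
  have d1 : (dfc k H univ : ℝ) ≤ η * k * Fintype.card V := by
    have := mul_le_mul_of_nonneg_right (min_le_left η (β / 2)) pkn
    linarith only [hdf, this]
  have d2 : (dfc k H univ : ℝ) ≤ β / 2 * k * Fintype.card V := by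
    have := mul_le_mul_of_nonneg_right (min_le_right η (β / 2)) pkn
    linarith only [hdf, this]
  have gl : ∀ L : ℕ, L * k ≤ Fintype.card V → ζ * L ≤ ζ * Fintype.card V / k := fun L hL => by
    rw [le_div_iff₀ (by linarith only [hl, l1, pk]), mul_assoc]
    exact mul_le_mul_of_nonneg_left (by exact_mod_cast hL) hζ.le
  rcases h1 k (by omega) (by omega) V H (by omega) hs hb hdeg hg d1 with h | ⟨U, u0, u1, u2, u3⟩
  · exact Or.inr h
  have cc := min_le_left c 1
  obtain ⟨I, T, Hd, hT, hH, hTH, cT, cH, cI, cI', e1, e2, e0, e3⟩ := hlr k (by omega) V H U hs hb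
    hdeg (hg.le (by have := gl L3 (by omega); linarith only [hL3, this])) u0
    (u1.trans (by gcongr)) (u2.trans (by gcongr)) (u3.trans (by gcongr))
  have cI3 : (I.card : ℝ) ≤ m * k := by exact_mod_cast cI'
  have lk := mul_le_mul_of_nonneg_right l1 q2
  have e4 : (eb H I Iᶜ : ℝ) ≤ 2 * k ^ 2 := by unfold CC at e0; linarith only [kk, e0, lk]
  rcases hci k (by omega) V (res H Iᶜ) (by omega) (simple_mono (res_le _ _) hs)
    (hg.anti (res_le _ _))
    (by
      have a1 : (dfc k (res H Iᶜ) univ : ℝ) ≤ k * I.card + dfc k H univ + eb H I Iᶜ := by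
        rw [eb_bal hb]; exact_mod_cast dfc_res H k I
      have a2 := mul_le_mul_of_nonneg_left cI3 (show (0 : ℝ) ≤ k by linarith only [hl, l1, pk])
      have a3 : (L4 : ℝ) * k ≤ Fintype.card V := by exact_mod_cast (by omega : L4 * k ≤ _)
      have a4 := mul_le_mul_of_nonneg_left a3 (show 0 ≤ β * k by positivity)
      have a5 := mul_le_mul_of_nonneg_right hL4 q2
      linarith only [d2, e4, a1, a2, a4, a5])
    ((imb_res hb I).trans (by linarith only [e4])) with h | ⟨F, hF, hFb, hFs⟩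
  · refine Or.inl ((fas_glue (hf V H _ I (by positivity) hs hg) h).le ?_)
    have a1 : 200 * (I.card : ℝ) ^ 2 / (ζ * Fintype.card V / k) ^ 2 ≤ ε / 4 * k ^ 2 := by
      rw [div_le_iff₀ (by positivity)]
      have b0 : (0 : ℝ) ≤ L5 := Nat.cast_nonneg _
      have b1 := gl (L5 + 1) (by rw [add_mul]; omega)
      push_cast at b1
      have b2 : ζ ^ 2 * L5 ≤ (ζ * Fintype.card V / k) ^ 2 := by
        refine le_trans ?_ (pow_le_pow_left₀ (by positivity) b1 2)
        rw [mul_pow]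
        exact mul_le_mul_of_nonneg_left (by nlinarith only []) (by positivity)
      have b3 := mul_le_mul_of_nonneg_left b2 (show 0 ≤ ε / 4 * k ^ 2 by positivity)
      have b4 := pow_le_pow_left₀ (Nat.cast_nonneg _) cI3 2
      have b5 := mul_le_mul_of_nonneg_right hL5 q2
      linarith only [b3, b4, b5]
    have a2 := mul_le_mul_of_nonneg_right l2 q2
    linarith only [e0, a1, a2]
  · have hFH := hF.trans (res_le H Iᶜ)
    obtain ⟨G, hG⟩ := le_iff_add.1 hFH
    have hGH : G ≤ H := by rw [hG]; exact le_self_add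
    have mo : ∀ S S', (eb G S S' : ℝ) ≤ eb H S S' := fun S S' => by exact_mod_cast eb_mono hGH S S'
    have eG : dfc k G I = dfc k H I := sum_congr rfl fun v hv => by
      have a1 := out_mono hF v
      rw [out_res0 H hv] at a1
      rw [hG, out_add]; omega
    obtain ⟨t1, ht1, b1⟩ := win2 hcl (by positivity) hn0 G k μ m I T Hd (simple_mono hGH hs)
      (bal_cancel (hG ▸ hb) hFb) (fun v => (out_mono hGH v).trans (hdeg v)) hT hH hTH hl l1
      (by linarith only [hμ]) (by linarith only [hm]) (le_of_eq (by field_simp)) (by omega) (by omega) cT cH cI cI'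
      ((mo _ _).trans e1) ((mo _ _).trans e2) ((mo _ _).trans e0) (eG ▸ e3)
    obtain ⟨t2, ht2, b2⟩ := gr2 hgr F k (simple_mono hFH hs) hFb
      (fun v => (out_mono hFH v).trans (hdeg v)) (by omega) (by omega) hβ.le hFs
    refine Or.inr (pack_choose (hG ▸ pack_plus t1 t2 G F ht1 ht2) ?_)
    have a1 : (k3 : ℝ) ≤ k := by exact_mod_cast (by omega : k3 ≤ k)
    have a2 := mul_le_mul_of_nonneg_right a1 hl.le
    have a3 := mul_le_mul_of_nonneg_right (hk3.trans a2) (show (0 : ℝ) ≤ k by linarith only [hl, l1, pk])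
    have a4 := mul_le_mul_of_nonneg_right l3 q2
    push_cast
    linarith only [b1, b2, a3, a4]

end Pool.Agent.MP_2634a8_co.X
end
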