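import Mathlib
import Pool.Agent.MP_2634a8_co.Y.Core
import Pool.Agent.MP_2634a8_co.Y.Glue
import Pool.Agent.MP_2634a8_co.Y.Tools
import Pool.Agent.MP_2634a8_co.Y.Dense
import Pool.Agent.MP_2634a8_co.Y.Route
import Pool.Agent.MP_2634a8_co.Y.CleanB
import Pool.Agent.MP_2634a8_co.Y.Seam
import Pool.Agent.MP_2634a8_co.Y.Sparse

section
namespace Pool.Agent.MP_2634a8_co.X

open CLEAN.S in
theorem clean_all : CLEAN_s :=
  clean_of (cln (loca css crb) (wst (wb cra crb ww) wt_bud cra crb) (r2 crb) (rs gc sac r1 (r2 crb)))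

open SEAM in
theorem seam_all : SEAM_s :=
  seam_of loc tm wild (ladder bri gc) pb con hea (ver tm) lf

theorem large_degree :
    ∃ k₀ : ℕ, ∀ k : ℕ, k₀ ≤ k →
    ∀ (V : Type) [Finite V] [Nonempty V] (G : Digraph V), IsRegularDigraph G k →
      HasArcDisjointCycles G ((k + 1).choose 2) :=
  final (all (big (nr opt prep seam_all clean_all (fin (ll gc rl) des fd)) ds
    (s2 opt fks (circ pot fks) (cl fd) (lr fks) d1 gr) gr) gr)

theorem all_but_finite : ∃ n₀ : ℕ, ∀ (k : ℕ) (V : Type) [Finite V] (G : Digraph V),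
    n₀ ≤ Nat.card V → IsRegularDigraph G k → HasArcDisjointCycles G ((k + 1).choose 2) := by
  obtain ⟨k0, h⟩ := large_degree
  refine ⟨200 * k0 ^ 5 + 1, fun k V _ G hn hG => ?_⟩
  have : Nonempty V := (Nat.card_pos_iff.1 (by omega)).1
  rcases le_total k0 k with c | c
  · exact h k c V G hG
  · have := Nat.pow_le_pow_left c 5
    exact H32.large_order G k hG (by omega)


end Pool.Agent.MP_2634a8_co.X
end
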